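import Mathlib

/-!
Linearized stability of the cosine blow-up profile: definitions (problem MP_96e154_an).
-/

open MeasureTheory Set Filter Topology
open scoped ENNReal ContDiff

namespace Pool.Agent.R212.CW

/-- `L^2(ℝ)` -/
abbrev L2 : Type := Lp ℝ 2 (volume : Measure ℝ)

/-- the value of (a representative of) `f` at `x` -/
noncomputable abbrev ev (f : L2) (x : ℝ) : ℝ := f x

/-- `f'` is the weak derivative of `f`. -/
def IsWeakDeriv (f f' : L2) : Prop :=
  ∀ φ : ℝ → ℝ, ContDiff ℝ ∞ φ → HasCompactSupport φ →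
    ∫ x, ev f' x * φ x = -∫ x, ev f x * deriv φ x

/-- `f` is even (almost everywhere). -/
def IsEven (f : L2) : Prop := ∀ᵐ x, ev f (-x) = ev f x

theorem L2_mul_int (f : L2) {φ : ℝ → ℝ} (hφ : Continuous φ) (hc : HasCompactSupport φ) :
    Integrable fun x => f x * φ x := by
  have h := (hφ.memLp_of_hasCompactSupport (p := 2) (μ := volume) hc)
  exact (Lp.memLp f).integrable_mul h

/-- triples `(w_0, w_0', w_1)` of elements of `L^2(ℝ)`, with the maximum norm -/
def Trip : Type := L2 × L2 × L2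

noncomputable instance instTrip1 : NormedAddCommGroup Trip :=
  (inferInstance : NormedAddCommGroup (L2 × L2 × L2))

noncomputable instance instTrip2 : NormedSpace ℝ Trip :=
  (inferInstance : NormedSpace ℝ (L2 × L2 × L2))

/-- the triple `(a, b, c)` -/
def mkT (a b c : L2) : Trip := (a, b, c)

/-- first component -/
def t1 (p : Trip) : L2 := Prod.fst p

/-- second component -/
def t2 (p : Trip) : L2 := Prod.fst (Prod.snd p)

/-- third component -/
def t3 (p : Trip) : L2 := Prod.snd (Prod.snd p)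

/-- membership in `X`: `w_0'` is the weak derivative of `w_0`, and `w_0, w_1` are even -/
def InX (p : Trip) : Prop := IsWeakDeriv (t1 p) (t2 p) ∧ IsEven (t1 p) ∧ IsEven (t3 p)

theorem even_zero : IsEven 0 := by
  have h := Lp.coeFn_zero ℝ 2 (volume : Measure ℝ)
  filter_upwards [h, (Measure.measurePreserving_neg (volume : Measure ℝ)).quasiMeasurePreserving.ae h]
    with x h1 h2
  unfold ev
  rw [h1]; exact h2

theorem InX_zero : InX 0 := by
  refine ⟨?_, even_zero, even_zero⟩
  intro φ _ _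
  have h1 : (fun x => (0 : L2) x * φ x) =ᵐ[volume] fun _ => 0 := by
    filter_upwards [Lp.coeFn_zero ℝ 2 (volume : Measure ℝ)] with x hx
    rw [hx]; simp
  have h2 : (fun x => (0 : L2) x * deriv φ x) =ᵐ[volume] fun _ => 0 := by
    filter_upwards [Lp.coeFn_zero ℝ 2 (volume : Measure ℝ)] with x hx
    rw [hx]; simp
  change ∫ x, (0 : L2) x * φ x = -∫ x, (0 : L2) x * deriv φ x
  rw [integral_congr_ae h1, integral_congr_ae h2]
  simp

theorem InX_add {p q : Trip} (hp : InX p) (hq : InX q) : InX (p + q) := by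
  obtain ⟨a, a', a''⟩ := p
  obtain ⟨b, b', b''⟩ := q
  obtain ⟨ha1, ha2, ha3⟩ := hp
  obtain ⟨hb1, hb2, hb3⟩ := hq
  have hev : ∀ u v : L2, IsEven u → IsEven v → IsEven (u + v) := by
    intro u v hu hv
    have h := Lp.coeFn_add u v
    filter_upwards [hu, hv, h,
      (Measure.measurePreserving_neg (volume : Measure ℝ)).quasiMeasurePreserving.ae h]
      with x h1 h2 h3 h4
    unfold ev at h1 h2 ⊢
    rw [h3, h4, Pi.add_apply, Pi.add_apply, h1, h2]
  refine ⟨?_, hev _ _ ha2 hb2, hev _ _ ha3 hb3⟩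
  intro φ hφ hc
  have hd : Continuous (deriv φ) := hφ.continuous_deriv (by simp)
  have hdc : HasCompactSupport (deriv φ) := hc.deriv
  have h1 : (fun x => (a' + b' : L2) x * φ x) =ᵐ[volume] fun x => a' x * φ x + b' x * φ x := by
    filter_upwards [Lp.coeFn_add a' b'] with x hx
    rw [hx, Pi.add_apply]; ring
  have h2 : (fun x => (a + b : L2) x * deriv φ x) =ᵐ[volume]
      fun x => a x * deriv φ x + b x * deriv φ x := by
    filter_upwards [Lp.coeFn_add a b] with x hx
    rw [hx, Pi.add_apply]; ring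
  change ∫ x, (a' + b' : L2) x * φ x = -∫ x, (a + b : L2) x * deriv φ x
  rw [integral_congr_ae h1, integral_congr_ae h2,
    integral_add (L2_mul_int _ hφ.continuous hc) (L2_mul_int _ hφ.continuous hc),
    integral_add (L2_mul_int _ hd hdc) (L2_mul_int _ hd hdc)]
  have e1 : ∫ x, a' x * φ x = -∫ x, a x * deriv φ x := ha1 φ hφ hc
  have e2 : ∫ x, b' x * φ x = -∫ x, b x * deriv φ x := hb1 φ hφ hc
  rw [e1, e2]; ring

theorem InX_smul (c : ℝ) {p : Trip} (hp : InX p) : InX (c • p) := by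
  obtain ⟨a, a', a''⟩ := p
  obtain ⟨ha1, ha2, ha3⟩ := hp
  have hev : ∀ u : L2, IsEven u → IsEven (c • u) := by
    intro u hu
    have h := Lp.coeFn_smul c u
    filter_upwards [hu, h,
      (Measure.measurePreserving_neg (volume : Measure ℝ)).quasiMeasurePreserving.ae h]
      with x h1 h3 h4
    unfold ev at h1 ⊢
    rw [h3, h4, Pi.smul_apply, Pi.smul_apply, h1]
  refine ⟨?_, hev _ ha2, hev _ ha3⟩
  intro φ hφ hc
  have h1 : (fun x => (c • a' : L2) x * φ x) =ᵐ[volume] fun x => c * (a' x * φ x) := by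
    filter_upwards [Lp.coeFn_smul c a'] with x hx
    rw [hx, Pi.smul_apply, smul_eq_mul]; ring
  have h2 : (fun x => (c • a : L2) x * deriv φ x) =ᵐ[volume]
      fun x => c * (a x * deriv φ x) := by
    filter_upwards [Lp.coeFn_smul c a] with x hx
    rw [hx, Pi.smul_apply, smul_eq_mul]; ring
  change ∫ x, (c • a' : L2) x * φ x = -∫ x, (c • a : L2) x * deriv φ x
  rw [integral_congr_ae h1, integral_congr_ae h2, integral_const_mul, integral_const_mul]
  have e1 : ∫ x, a' x * φ x = -∫ x, a x * deriv φ x := ha1 φ hφ hc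
  rw [e1]; ring

/-- The triples `(w_0, w_0', w_1)` form a linear subspace of `L^2 × L^2 × L^2`. -/
def XSub : Submodule ℝ Trip where
  carrier := {p | InX p}
  zero_mem' := InX_zero
  add_mem' := InX_add
  smul_mem' := fun c _ h => InX_smul c h

/-- The space `X` of pairs `(w_0, w_1) ∈ H^1(ℝ) × L^2(ℝ)` with `w_0, w_1` even. An element is
written as a triple `(w_0, w_0', w_1)` of elements of `L^2(ℝ)`, with `w_0'` the weak derivative
of `w_0`; the norm is the maximum of the three `L^2` norms, which is equivalent to the product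
norm of `H^1 × L^2`. -/
def XSp : Type := ↥XSub

noncomputable instance instXSp1 : NormedAddCommGroup XSp :=
  (inferInstance : NormedAddCommGroup ↥XSub)

noncomputable instance instXSp2 : NormedSpace ℝ XSp :=
  (inferInstance : NormedSpace ℝ ↥XSub)

/-- the triple `(w_0, w_0', w_1)` -/
def triple (z : XSp) : Trip := Subtype.val z

/-- the element of `X` given by a triple -/
def mkX (p : Trip) (h : InX p) : XSp := (⟨p, h⟩ : ↥XSub)

/-- the component `w_0` of `(w_0, w_1)` -/
def pos (z : XSp) : L2 := t1 (triple z)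

/-- the component `w_1` of `(w_0, w_1)` -/
def vel (z : XSp) : L2 := t3 (triple z)

/-- A weak solution of `w_ττ + 5 w_τ = (w w_x)_x + 2 w^2 - 6 w` with data `z0 = (w_0, w_1) ∈ X`:
`(w, w_τ) ∈ C([0,∞); X)`, `(w, w_τ)(0) = (w_0, w_1)`, and the equation holds in the sense of
distributions on `(0,∞) × ℝ` (time is the first variable). -/
structure IsWeakSol (z : ℝ → XSp) (z0 : XSp) : Prop where
  init : z 0 = z0
  cont : ContinuousOn z (Ici 0)
  deriv : ∀ τ, 0 ≤ τ → HasDerivWithinAt (fun s => pos (z s)) (vel (z τ)) (Ici 0) τ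
  eqn : ∀ Φ : ℝ × ℝ → ℝ, ContDiff ℝ ∞ Φ → HasCompactSupport Φ → tsupport Φ ⊆ {p | 0 < p.1} →
    ∫ τ in Ioi (0 : ℝ), ∫ x,
      (ev (pos (z τ)) x *
          (iteratedDeriv 2 (fun s => Φ (s, x)) τ - 5 * _root_.deriv (fun s => Φ (s, x)) τ)
        - (ev (pos (z τ)) x) ^ 2 / 2 * iteratedDeriv 2 (fun y => Φ (τ, y)) x
        - (2 * (ev (pos (z τ)) x) ^ 2 - 6 * ev (pos (z τ)) x) * Φ (τ, x)) = 0

/-- the profile `g` -/
noncomputable def gfun (x : ℝ) : ℝ := if |x| ≤ Real.pi then 4 * Real.cos (x / 2) ^ 2 else 0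

/-- `F` is a `C^1` submersion on the open set `N ∋ p` with `M ∩ N = {F = 0}`. -/
def LocalDef (M : Set XSp) (p : XSp) (F : XSp → ℝ) (N : Set XSp) : Prop :=
  IsOpen N ∧ p ∈ N ∧ ContDiffOn ℝ 1 F N ∧ (∀ q ∈ N, fderiv ℝ F q ≠ 0) ∧
    M ∩ N = {q | q ∈ N ∧ F q = 0}

/-- `M` is a codimension-one `C^1` submanifold of (an open subset of) `X`. -/
def IsC1Hyp (M : Set XSp) : Prop := ∀ p ∈ M, ∃ F N, LocalDef M p F N

/-- `M` is transversal to the direction `v` at `p`: `v` is not tangent to `M` at `p`. -/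
def TransversalAt (M : Set XSp) (p v : XSp) : Prop :=
  ∃ F N, LocalDef M p F N ∧ fderiv ℝ F p v ≠ 0

end Pool.Agent.R212.CW
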