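import Mathlib
import Pool.Agent.R212.CW1

/-!
The elements `(g,0)`, `(g,g)` and smooth compactly supported perturbations.
-/

open MeasureTheory Set Filter Topology
open scoped ENNReal ContDiff

namespace Pool.Agent.R212.CW

theorem neg_ae {p : ℝ → Prop} (h : ∀ᵐ x, p x) : ∀ᵐ x : ℝ, p (-x) :=
  (Measure.measurePreserving_neg (volume : Measure ℝ)).quasiMeasurePreserving.ae h

/-- the derivative of `g` -/
noncomputable def gder (x : ℝ) : ℝ := if |x| ≤ Real.pi then -2 * Real.sin x else 0

theorem gfun_ind : gfun = (Icc (-Real.pi) Real.pi).indicator fun x => 4 * Real.cos (x / 2) ^ 2 := by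
  ext x
  unfold gfun
  by_cases h : |x| ≤ Real.pi
  · rw [if_pos h, indicator_of_mem (show x ∈ Icc (-Real.pi) Real.pi from abs_le.1 h)]
  · rw [if_neg h, indicator_of_notMem (fun h2 : x ∈ Icc (-Real.pi) Real.pi => h (abs_le.2 h2))]

theorem gder_ind : gder = (Icc (-Real.pi) Real.pi).indicator fun x => -2 * Real.sin x := by
  ext x
  unfold gder
  by_cases h : |x| ≤ Real.pi
  · rw [if_pos h, indicator_of_mem (show x ∈ Icc (-Real.pi) Real.pi from abs_le.1 h)]
  · rw [if_neg h, indicator_of_notMem (fun h2 : x ∈ Icc (-Real.pi) Real.pi => h (abs_le.2 h2))]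

theorem memLp_ind {u : ℝ → ℝ} (hu : Continuous u) (a b : ℝ) :
    MemLp ((Icc a b).indicator u) 2 volume := by
  rw [memLp_indicator_iff_restrict measurableSet_Icc]
  obtain ⟨C, hC⟩ := isCompact_Icc.exists_bound_of_continuousOn (hu.continuousOn (s := Icc a b))
  apply MemLp.of_bound hu.aestronglyMeasurable C
  exact (ae_restrict_iff' measurableSet_Icc).2 (Filter.Eventually.of_forall hC)

theorem gfun_memLp : MemLp gfun 2 volume := by
  rw [gfun_ind]; exact memLp_ind (by fun_prop) _ _

theorem gder_memLp : MemLp gder 2 volume := by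
  rw [gder_ind]; exact memLp_ind (by fun_prop) _ _

/-- `g` as an element of `L^2` -/
noncomputable def gL : L2 := gfun_memLp.toLp gfun

/-- `g'` as an element of `L^2` -/
noncomputable def gdL : L2 := gder_memLp.toLp gder

theorem gL_ae : gL =ᵐ[volume] gfun := MemLp.coeFn_toLp _

theorem gdL_ae : gdL =ᵐ[volume] gder := MemLp.coeFn_toLp _

theorem gL_even : IsEven gL := by
  filter_upwards [gL_ae, neg_ae gL_ae] with x h1 h2
  unfold ev
  rw [h1, h2]
  unfold gfun
  rw [abs_neg]
  congr 2
  rw [neg_div, Real.cos_neg]

theorem gL_weak : IsWeakDeriv gL gdL := by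
  intro φ hφ hc
  have e1 : ∫ x, gdL x * φ x = ∫ x in (-Real.pi)..Real.pi, (-2 * Real.sin x) * φ x := by
    rw [intervalIntegral.integral_of_le (by linarith [Real.pi_pos]), ← integral_Icc_eq_integral_Ioc,
      ← integral_indicator measurableSet_Icc]
    apply integral_congr_ae
    filter_upwards [gdL_ae] with x hx
    rw [hx, gder_ind]
    by_cases h : x ∈ Icc (-Real.pi) Real.pi
    · rw [indicator_of_mem h, indicator_of_mem h]
    · rw [indicator_of_notMem h, indicator_of_notMem h, zero_mul]
  have e2 : ∫ x, gL x * deriv φ x =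
      ∫ x in (-Real.pi)..Real.pi, (4 * Real.cos (x / 2) ^ 2) * deriv φ x := by
    rw [intervalIntegral.integral_of_le (by linarith [Real.pi_pos]), ← integral_Icc_eq_integral_Ioc,
      ← integral_indicator measurableSet_Icc]
    apply integral_congr_ae
    filter_upwards [gL_ae] with x hx
    rw [hx, gfun_ind]
    by_cases h : x ∈ Icc (-Real.pi) Real.pi
    · rw [indicator_of_mem h, indicator_of_mem h]
    · rw [indicator_of_notMem h, indicator_of_notMem h, zero_mul]
  have hd : Differentiable ℝ φ := hφ.differentiable (by simp)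
  have hdc : Continuous (deriv φ) := hφ.continuous_deriv (by simp)
  have hu : ∀ x : ℝ, HasDerivAt (fun x => 4 * Real.cos (x / 2) ^ 2) (-2 * Real.sin x) x := by
    intro x
    have h1 : HasDerivAt (fun x : ℝ => x / 2) (1 / 2) x := (hasDerivAt_id x).div_const 2
    have h2 : HasDerivAt (fun x : ℝ => 4 * Real.cos (x / 2) ^ 2)
        (4 * ((2 : ℕ) * Real.cos (x / 2) ^ (2 - 1) * (-Real.sin (x / 2) * (1 / 2)))) x :=
      (h1.cos.pow 2).const_mul 4
    have h3 : Real.sin x = 2 * Real.sin (x / 2) * Real.cos (x / 2) := by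
      rw [← Real.sin_two_mul]; congr 1; ring
    have h4 : (4 * ((2 : ℕ) * Real.cos (x / 2) ^ (2 - 1) * (-Real.sin (x / 2) * (1 / 2)))) =
        -2 * Real.sin x := by
      rw [h3]
      push_cast
      ring
    rw [← h4]
    exact h2
  have h3 := intervalIntegral.integral_mul_deriv_eq_deriv_mul (a := -Real.pi) (b := Real.pi)
    (u := fun x => 4 * Real.cos (x / 2) ^ 2) (v := φ) (u' := fun x => -2 * Real.sin x)
    (v' := deriv φ) (fun x _ => hu x) (fun x _ => (hd x).hasDerivAt)
    ((by fun_prop : Continuous fun x : ℝ => -2 * Real.sin x).intervalIntegrable _ _)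
    (hdc.intervalIntegrable _ _)
  rw [e1, e2, h3]
  have h4 : Real.cos (Real.pi / 2) = 0 := Real.cos_pi_div_two
  have h5 : Real.cos (-Real.pi / 2) = 0 := by rw [neg_div, Real.cos_neg, h4]
  rw [h4, h5]
  ring

/-- the base point `(g, 0)` -/
noncomputable def gX : XSp := mkX (mkT gL gdL 0) ⟨gL_weak, gL_even, even_zero⟩

/-- the direction `(g, g)` -/
noncomputable def ggX : XSp := mkX (mkT gL gdL gL) ⟨gL_weak, gL_even, gL_even⟩

/-- smooth compactly supported even functions give elements of `X` -/
noncomputable def smX (β : ℝ → ℝ) (h1 : ContDiff ℝ ∞ β) (h2 : HasCompactSupport β)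
    (h3 : ∀ x, β (-x) = β x) : XSp :=
  mkX (mkT ((h1.continuous.memLp_of_hasCompactSupport (p := 2) (μ := volume) h2).toLp β)
    (((h1.continuous_deriv (by simp)).memLp_of_hasCompactSupport (p := 2) (μ := volume)
      h2.deriv).toLp (deriv β)) 0) (by
    refine ⟨?_, ?_, even_zero⟩
    · intro φ hφ hc
      have hd : Differentiable ℝ φ := hφ.differentiable (by simp)
      have hdc : Continuous (deriv φ) := hφ.continuous_deriv (by simp)
      have hβ : Differentiable ℝ β := h1.differentiable (by simp)
      have hβc : Continuous (deriv β) := h1.continuous_deriv (by simp)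
      change ∫ x, (((h1.continuous_deriv (by simp)).memLp_of_hasCompactSupport (p := 2)
          (μ := volume) h2.deriv).toLp (deriv β)) x * φ x =
        -∫ x, ((h1.continuous.memLp_of_hasCompactSupport (p := 2) (μ := volume) h2).toLp β) x
          * deriv φ x
      have e1 : ∫ x, (((h1.continuous_deriv (by simp)).memLp_of_hasCompactSupport (p := 2)
          (μ := volume) h2.deriv).toLp (deriv β)) x * φ x = ∫ x, deriv β x * φ x := by
        apply integral_congr_ae
        filter_upwards [((h1.continuous_deriv (by simp)).memLp_of_hasCompactSupport (p := 2)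
          (μ := volume) h2.deriv).coeFn_toLp] with x hx
        rw [hx]
      have e2 : ∫ x, ((h1.continuous.memLp_of_hasCompactSupport (p := 2) (μ := volume) h2).toLp β) x
          * deriv φ x = ∫ x, β x * deriv φ x := by
        apply integral_congr_ae
        filter_upwards [(h1.continuous.memLp_of_hasCompactSupport (p := 2)
          (μ := volume) h2).coeFn_toLp] with x hx
        rw [hx]
      rw [e1, e2]
      have h4 := integral_mul_deriv_eq_deriv_mul_of_integrable (u := β) (v := φ)
        (u' := deriv β) (v' := deriv φ) (fun x _ => (hβ x).hasDerivAt)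
        (fun x _ => (hd x).hasDerivAt)
        ((h1.continuous.mul hdc).integrable_of_hasCompactSupport (h2.mul_right))
        ((hβc.mul hφ.continuous).integrable_of_hasCompactSupport (h2.deriv.mul_right))
        ((h1.continuous.mul hφ.continuous).integrable_of_hasCompactSupport (h2.mul_right))
      rw [h4, neg_neg]
    · have h := (h1.continuous.memLp_of_hasCompactSupport (p := 2) (μ := volume) h2).coeFn_toLp
      filter_upwards [h, neg_ae h] with x h5 h6
      change ((h1.continuous.memLp_of_hasCompactSupport (p := 2) (μ := volume) h2).toLp β) (-x) =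
        ((h1.continuous.memLp_of_hasCompactSupport (p := 2) (μ := volume) h2).toLp β) x
      rw [h5, h6, h3])

/-- pure velocity perturbations -/
noncomputable def velX (v : L2) (hv : IsEven v) : XSp :=
  mkX (mkT 0 0 v) ⟨InX_zero.1, even_zero, hv⟩

end Pool.Agent.R212.CW
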