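import Mathlib
import Pool.Agent.R212.CW2
import Pool.Agent.H772R2.NS.Time

/-!
Pairings of a weak solution with test functions.
-/

open MeasureTheory Set Filter Topology
open scoped ENNReal ContDiff RealInnerProductSpace

namespace Pool.Agent.R212.CW

theorem inner_eq (f g : L2) : ⟪f, g⟫ = ∫ x, f x * g x := by
  rw [L2.inner_def]
  apply integral_congr_ae
  refine Filter.Eventually.of_forall fun x => ?_
  simp only [RCLike.inner_apply, conj_trivial]
  ring

/-- multiplication of an `L^2` function by a bounded continuous function -/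
theorem mul_memLp {ψ : ℝ → ℝ} (hψ : Continuous ψ) {K : ℝ} (hK : ∀ x, |ψ x| ≤ K) (f : L2) :
    MemLp (fun x => f x * ψ x) 2 volume := by
  apply MemLp.of_le_mul (c := K) (Lp.memLp f)
  · exact (Lp.memLp f).1.mul hψ.aestronglyMeasurable
  · refine Filter.Eventually.of_forall fun x => ?_
    rw [norm_mul, mul_comm]
    exact mul_le_mul_of_nonneg_right (hK x) (norm_nonneg _)

theorem bil_bound {ψ : ℝ → ℝ} (hψ : Continuous ψ) {K : ℝ} (hK : ∀ x, |ψ x| ≤ K) (f g : L2) :
    |∫ x, f x * g x * ψ x| ≤ K * ‖f‖ * ‖g‖ := by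
  have h1 : ∫ x, f x * g x * ψ x = ⟪f, (mul_memLp hψ hK g).toLp _⟫ := by
    rw [inner_eq]
    apply integral_congr_ae
    filter_upwards [(mul_memLp hψ hK g).coeFn_toLp] with x hx
    rw [hx]; ring
  rw [h1]
  refine (abs_real_inner_le_norm _ _).trans ?_
  have h2 : ‖(mul_memLp hψ hK g).toLp _‖ ≤ K * ‖g‖ := by
    apply Lp.norm_le_mul_norm_of_ae_le_mul
    filter_upwards [(mul_memLp hψ hK g).coeFn_toLp] with x hx
    rw [hx, norm_mul, mul_comm]
    exact mul_le_mul_of_nonneg_right (hK x) (norm_nonneg _)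
  calc ‖f‖ * ‖(mul_memLp hψ hK g).toLp _‖ ≤ ‖f‖ * (K * ‖g‖) := by gcongr
    _ = K * ‖f‖ * ‖g‖ := by ring

theorem sq_int {ψ : ℝ → ℝ} (hψ : Continuous ψ) {K : ℝ} (hK : ∀ x, |ψ x| ≤ K) (f g : L2) :
    Integrable fun x => f x * g x * ψ x := by
  have h := (Lp.memLp f).integrable_mul (mul_memLp hψ hK g)
  refine h.congr (Filter.Eventually.of_forall fun x => ?_)
  simp only [Pi.mul_apply]; ring

/-- the quadratic functional is continuous -/
theorem quad_cont {ψ : ℝ → ℝ} (hψ : Continuous ψ) {K : ℝ} (hK : ∀ x, |ψ x| ≤ K) :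
    Continuous fun f : L2 => ∫ x, f x ^ 2 * ψ x := by
  rw [continuous_iff_continuousAt]
  intro f0
  rw [ContinuousAt, tendsto_iff_norm_sub_tendsto_zero]
  have h1 : ∀ f : L2, ‖(∫ x, f x ^ 2 * ψ x) - ∫ x, f0 x ^ 2 * ψ x‖ ≤ K * ‖f - f0‖ * ‖f + f0‖ := by
    intro f
    have h2 : (∫ x, f x ^ 2 * ψ x) - ∫ x, f0 x ^ 2 * ψ x =
        ∫ x, (f - f0 : L2) x * (f + f0 : L2) x * ψ x := by
      rw [← integral_sub]
      · apply integral_congr_ae
        filter_upwards [Lp.coeFn_sub f f0, Lp.coeFn_add f f0] with x h3 h4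
        rw [h3, h4, Pi.sub_apply, Pi.add_apply]; ring
      · refine (sq_int hψ hK f f).congr (Filter.Eventually.of_forall fun x => ?_)
        simp only; ring
      · refine (sq_int hψ hK f0 f0).congr (Filter.Eventually.of_forall fun x => ?_)
        simp only; ring
    rw [h2, Real.norm_eq_abs]
    exact bil_bound hψ hK _ _
  refine squeeze_zero (fun _ => norm_nonneg _) h1 ?_
  have hc : Continuous fun f : L2 => K * ‖f - f0‖ * ‖f + f0‖ := by fun_prop
  have := hc.tendsto f0
  simpa using this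

/-- pairing with a test function -/
noncomputable def ell {ξ : ℝ → ℝ} (h : MemLp ξ 2 volume) : L2 →L[ℝ] ℝ := innerSL ℝ (h.toLp ξ)

theorem ell_apply {ξ : ℝ → ℝ} (h : MemLp ξ 2 volume) (f : L2) : ell h f = ∫ x, f x * ξ x := by
  unfold ell
  rw [innerSL_apply_apply, inner_eq]
  apply integral_congr_ae
  filter_upwards [h.coeFn_toLp] with x hx
  rw [hx]; ring

/-- a test function in space -/
structure Tst (ξ : ℝ → ℝ) : Prop where
  smooth : ContDiff ℝ ∞ ξ
  cpt : HasCompactSupport ξ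

theorem Tst.memLp {ξ : ℝ → ℝ} (h : Tst ξ) : MemLp ξ 2 volume :=
  h.smooth.continuous.memLp_of_hasCompactSupport h.cpt

theorem Tst.deriv {ξ : ℝ → ℝ} (h : Tst ξ) : Tst (deriv ξ) :=
  ⟨(contDiff_infty_iff_deriv.1 h.smooth).2, h.cpt.deriv⟩

theorem Tst.bdd {ξ : ℝ → ℝ} (h : Tst ξ) : ∃ K, ∀ x, |ξ x| ≤ K :=
  h.smooth.continuous.bounded_above_of_compact_support h.cpt

/-- the right side of the equation paired with `ξ` -/
noncomputable def Gf (ξ : ℝ → ℝ) (f : L2) : ℝ :=
  ∫ x, (f x ^ 2 / 2 * deriv (deriv ξ) x + (2 * f x ^ 2 - 6 * f x) * ξ x)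

theorem lin_int {ξ : ℝ → ℝ} (h : Tst ξ) (f : L2) : Integrable fun x => f x * ξ x :=
  L2_mul_int f h.smooth.continuous h.cpt

theorem sq_int' {ξ : ℝ → ℝ} (h : Tst ξ) (f : L2) : Integrable fun x => f x ^ 2 * ξ x := by
  obtain ⟨K, hK⟩ := h.bdd
  refine (sq_int h.smooth.continuous hK f f).congr (Filter.Eventually.of_forall fun x => ?_)
  simp only; ring

theorem Gf_eq {ξ : ℝ → ℝ} (h : Tst ξ) (f : L2) :
    Gf ξ f = 1 / 2 * (∫ x, f x ^ 2 * deriv (deriv ξ) x) + 2 * (∫ x, f x ^ 2 * ξ x) -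
      6 * ell h.memLp f := by
  unfold Gf
  rw [ell_apply, ← integral_const_mul, ← integral_const_mul, ← integral_const_mul,
    ← integral_add, ← integral_sub]
  · congr 1
    ext x
    ring
  · exact ((sq_int' h.deriv.deriv f).const_mul _).add ((sq_int' h f).const_mul _)
  · exact (lin_int h f).const_mul _
  · exact (sq_int' h.deriv.deriv f).const_mul _
  · exact (sq_int' h f).const_mul _

theorem Gf_cont {ξ : ℝ → ℝ} (h : Tst ξ) : Continuous (Gf ξ) := by
  have h1 : Gf ξ = fun f => 1 / 2 * (∫ x, f x ^ 2 * _root_.deriv (_root_.deriv ξ) x) +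
      2 * (∫ x, f x ^ 2 * ξ x) - 6 * ell h.memLp f := funext (Gf_eq h)
  rw [h1]
  obtain ⟨K, hK⟩ := h.bdd
  obtain ⟨K2, hK2⟩ := h.deriv.deriv.bdd
  exact ((continuous_const.mul (quad_cont h.deriv.deriv.smooth.continuous hK2)).add
    (continuous_const.mul (quad_cont h.smooth.continuous hK))).sub
    (continuous_const.mul (ell h.memLp).continuous)

section sol

variable {z : ℝ → XSp} {z0 : XSp}

theorem pos_cont (hz : IsWeakSol z z0) : ContinuousOn (fun τ => pos (z τ)) (Ici 0) := by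
  have h : Continuous fun q : XSp => pos q := continuous_fst.comp continuous_subtype_val
  exact h.comp_continuousOn hz.cont

theorem vel_cont (hz : IsWeakSol z z0) : ContinuousOn (fun τ => vel (z τ)) (Ici 0) := by
  have h : Continuous fun q : XSp => vel q :=
    (continuous_snd.comp continuous_snd).comp continuous_subtype_val
  exact h.comp_continuousOn hz.cont

theorem A_deriv (hz : IsWeakSol z z0) {ξ : ℝ → ℝ} (h : Tst ξ) {τ : ℝ} (hτ : 0 ≤ τ) :
    HasDerivWithinAt (fun s => ell h.memLp (pos (z s))) (ell h.memLp (vel (z τ))) (Ici 0) τ :=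
  (ell h.memLp).hasFDerivAt.comp_hasDerivWithinAt τ (hz.deriv τ hτ)

/-- the scalar identity obtained from product test functions -/
theorem weak_scalar (hz : IsWeakSol z z0) {ξ : ℝ → ℝ} (h : Tst ξ) {θ : ℝ → ℝ}
    (hθ : ContDiff ℝ ∞ θ) (hθc : HasCompactSupport θ) (hθs : tsupport θ ⊆ Ioo 0 1) :
    ∫ τ in Ioo (0 : ℝ) 1, (deriv θ τ * (ell h.memLp (vel (z τ)) + 5 * ell h.memLp (pos (z τ))) +
      θ τ * Gf ξ (pos (z τ))) = 0 := by
  have hθ1 : ContDiff ℝ ∞ (deriv θ) := (contDiff_infty_iff_deriv.1 hθ).2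
  have hθ2 : ContDiff ℝ ∞ (deriv (deriv θ)) := (contDiff_infty_iff_deriv.1 hθ1).2
  have hθd : Differentiable ℝ θ := hθ.differentiable (by simp)
  have hθ1d : Differentiable ℝ (deriv θ) := hθ1.differentiable (by simp)
  have hξd : Differentiable ℝ ξ := h.smooth.differentiable (by simp)
  set Φ : ℝ × ℝ → ℝ := fun p => θ p.1 * ξ p.2 with hΦ
  have hΦs : Function.support Φ ⊆ tsupport θ ×ˢ tsupport ξ := by
    intro p hp
    rw [Function.mem_support] at hp
    refine ⟨subset_tsupport _ fun h0 => hp ?_, subset_tsupport _ fun h0 => hp ?_⟩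
    · rw [hΦ]; simp only; rw [h0, zero_mul]
    · rw [hΦ]; simp only; rw [h0, mul_zero]
  have hK : IsCompact (tsupport θ ×ˢ tsupport ξ) := IsCompact.prod hθc h.cpt
  have h1 := hz.eqn Φ ((hθ.comp contDiff_fst).mul (h.smooth.comp contDiff_snd))
    (HasCompactSupport.of_support_subset_isCompact hK hΦs)
    ((closure_minimal hΦs hK.isClosed).trans fun p hp => (hθs hp.1).1)
  simp only [ev] at h1
  -- the inner integral
  have h2 : ∀ τ, ∫ x, (pos (z τ) x *
      (iteratedDeriv 2 (fun s => Φ (s, x)) τ - 5 * _root_.deriv (fun s => Φ (s, x)) τ)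
        - (pos (z τ) x) ^ 2 / 2 * iteratedDeriv 2 (fun y => Φ (τ, y)) x
        - (2 * (pos (z τ) x) ^ 2 - 6 * pos (z τ) x) * Φ (τ, x)) =
      deriv (deriv θ) τ * ell h.memLp (pos (z τ)) - 5 * deriv θ τ * ell h.memLp (pos (z τ)) -
        θ τ * Gf ξ (pos (z τ)) := by
    intro τ
    have e1 : ∀ x, deriv (fun s => Φ (s, x)) = fun s => deriv θ s * ξ x := by
      intro x
      ext s
      exact ((hθd s).hasDerivAt.mul_const (ξ x)).deriv
    have e2 : ∀ x, iteratedDeriv 2 (fun s => Φ (s, x)) τ = deriv (deriv θ) τ * ξ x := by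
      intro x
      rw [iteratedDeriv_succ, iteratedDeriv_one, e1]
      exact ((hθ1d τ).hasDerivAt.mul_const (ξ x)).deriv
    have e3 : deriv (fun y => Φ (τ, y)) = fun y => θ τ * deriv ξ y := by
      ext y
      exact ((hξd y).hasDerivAt.const_mul (θ τ)).deriv
    have hξ1d : Differentiable ℝ (deriv ξ) := h.deriv.smooth.differentiable (by simp)
    have e4 : ∀ x, iteratedDeriv 2 (fun y => Φ (τ, y)) x = θ τ * deriv (deriv ξ) x := by
      intro x
      rw [iteratedDeriv_succ, iteratedDeriv_one, e3]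
      exact ((hξ1d x).hasDerivAt.const_mul (θ τ)).deriv
    simp only [e1, e2, e4]
    rw [ell_apply]
    unfold Gf
    rw [← integral_const_mul, ← integral_const_mul, ← integral_const_mul, ← integral_sub,
      ← integral_sub]
    · congr 1
      ext x
      simp only [hΦ]
      ring
    · exact ((lin_int h _).const_mul _).sub ((lin_int h _).const_mul _)
    · apply Integrable.const_mul
      have := ((sq_int' h.deriv.deriv (pos (z τ))).const_mul (1 / 2)).add
        (((sq_int' h (pos (z τ))).const_mul 2).sub ((lin_int h (pos (z τ))).const_mul 6))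
      refine this.congr (Filter.Eventually.of_forall fun x => ?_)
      simp only [Pi.add_apply, Pi.sub_apply]
      ring
    · exact (lin_int h _).const_mul _
    · exact (lin_int h _).const_mul _
  simp only [h2] at h1
  -- reduction to `(0,1)`
  have hθ0 : ∀ τ, τ ∉ Ioo (0 : ℝ) 1 → θ τ = 0 := fun τ hτ =>
    image_eq_zero_of_notMem_tsupport fun h3 => hτ (hθs h3)
  have hθ10 : ∀ τ, τ ∉ Ioo (0 : ℝ) 1 → deriv θ τ = 0 := fun τ hτ =>
    image_eq_zero_of_notMem_tsupport fun h3 => hτ (hθs (tsupport_deriv_subset h3))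
  have hθ20 : ∀ τ, τ ∉ Ioo (0 : ℝ) 1 → deriv (deriv θ) τ = 0 := fun τ hτ =>
    image_eq_zero_of_notMem_tsupport fun h3 =>
      hτ (hθs (tsupport_deriv_subset (tsupport_deriv_subset h3)))
  have h3 : ∫ τ in Ioo (0 : ℝ) 1, (deriv (deriv θ) τ * ell h.memLp (pos (z τ)) -
      5 * deriv θ τ * ell h.memLp (pos (z τ)) - θ τ * Gf ξ (pos (z τ))) = 0 := by
    refine Eq.trans (Eq.symm ?_) h1
    apply setIntegral_eq_of_subset_of_forall_sdiff_eq_zero measurableSet_Ioi Ioo_subset_Ioi_self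
    intro τ hτ
    rw [hθ0 τ hτ.2, hθ10 τ hτ.2, hθ20 τ hτ.2]
    ring
  have hI : uIcc (0 : ℝ) 1 = Icc 0 1 := uIcc_of_le zero_le_one
  have hsub : Icc (0 : ℝ) 1 ⊆ Ici 0 := Icc_subset_Ici_self
  have hAc : ContinuousOn (fun s => ell h.memLp (pos (z s))) (Icc 0 1) :=
    (ell h.memLp).continuous.comp_continuousOn ((pos_cont hz).mono hsub)
  have hbc : ContinuousOn (fun s => ell h.memLp (vel (z s))) (Icc 0 1) :=
    (ell h.memLp).continuous.comp_continuousOn ((vel_cont hz).mono hsub)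
  have hGc : ContinuousOn (fun s => Gf ξ (pos (z s))) (Icc 0 1) :=
    (Gf_cont h).comp_continuousOn ((pos_cont hz).mono hsub)
  have h4 := intervalIntegral.integral_deriv_mul_eq_sub_of_hasDeriv_right (a := 0) (b := 1)
    (u := deriv θ) (v := fun s => ell h.memLp (pos (z s))) (u' := deriv (deriv θ))
    (v' := fun s => ell h.memLp (vel (z s)))
    hθ1.continuous.continuousOn (by rw [hI]; exact hAc)
    (fun x _ => (hθ1d x).hasDerivAt.hasDerivWithinAt)
    (by
      intro x hx
      rw [min_eq_left zero_le_one, max_eq_right zero_le_one] at hx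
      exact (A_deriv hz h hx.1.le).mono fun y hy => hx.1.le.trans (le_of_lt hy))
    (hθ2.continuous.intervalIntegrable _ _)
    (by apply ContinuousOn.intervalIntegrable; rw [hI]; exact hbc)
  rw [hθ10 1 (fun h => lt_irrefl _ h.2), hθ10 0 (fun h => lt_irrefl _ h.1), zero_mul, zero_mul,
    sub_zero, intervalIntegral.integral_of_le zero_le_one, integral_Ioc_eq_integral_Ioo] at h4
  have i1 : IntegrableOn (fun τ => deriv (deriv θ) τ * ell h.memLp (pos (z τ)) +
      deriv θ τ * ell h.memLp (vel (z τ))) (Ioo 0 1) := by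
    apply (ContinuousOn.integrableOn_Icc _).mono_set Ioo_subset_Icc_self
    exact (hθ2.continuous.continuousOn.mul hAc).add (hθ1.continuous.continuousOn.mul hbc)
  have i2 : IntegrableOn (fun τ => deriv (deriv θ) τ * ell h.memLp (pos (z τ)) -
      5 * deriv θ τ * ell h.memLp (pos (z τ)) - θ τ * Gf ξ (pos (z τ))) (Ioo 0 1) := by
    apply (ContinuousOn.integrableOn_Icc _).mono_set Ioo_subset_Icc_self
    exact ((hθ2.continuous.continuousOn.mul hAc).sub
      ((continuousOn_const.mul hθ1.continuous.continuousOn).mul hAc)).sub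
      (hθ.continuous.continuousOn.mul hGc)
  have h5 := integral_sub i1 i2
  rw [h3, h4, sub_zero] at h5
  refine Eq.trans ?_ h5
  apply integral_congr_ae
  refine Filter.Eventually.of_forall fun τ => ?_
  simp only
  ring

/-- the integrated equation -/
theorem integrated (hz : IsWeakSol z z0) {ξ : ℝ → ℝ} (h : Tst ξ) {s t : ℝ} (hs : 0 ≤ s)
    (hst : s ≤ t) (ht : t ≤ 1) :
    (ell h.memLp (vel (z t)) + 5 * ell h.memLp (pos (z t))) -
      (ell h.memLp (vel (z s)) + 5 * ell h.memLp (pos (z s))) = ∫ τ in s..t, Gf ξ (pos (z τ)) := by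
  have hsub : Icc (0 : ℝ) 1 ⊆ Ici 0 := Icc_subset_Ici_self
  have hAc : ContinuousOn (fun s => ell h.memLp (pos (z s))) (Icc 0 1) :=
    (ell h.memLp).continuous.comp_continuousOn ((pos_cont hz).mono hsub)
  have hbc : ContinuousOn (fun s => ell h.memLp (vel (z s))) (Icc 0 1) :=
    (ell h.memLp).continuous.comp_continuousOn ((vel_cont hz).mono hsub)
  have hGc : ContinuousOn (fun s => Gf ξ (pos (z s))) (Icc 0 1) :=
    (Gf_cont h).comp_continuousOn ((pos_cont hz).mono hsub)
  exact H772R2.NS.sub_eq_of_weak_deriv (T := 1) one_pos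
    (g := fun t => ell h.memLp (vel (z t)) + 5 * ell h.memLp (pos (z t)))
    (F := fun τ => Gf ξ (pos (z τ)))
    (hbc.add (continuousOn_const.mul hAc)) (hGc.integrableOn_Icc.mono_set Ioo_subset_Icc_self)
    (fun θ t1 t2 t3 => weak_scalar hz h t1 t2 t3) hs hst ht

end sol

end Pool.Agent.R212.CW
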