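import Mathlib
import Pool.Agent.R212.CW3

/-!
The key estimate: in the region where `w_0 = -c < 0` the Fourier coefficients of the initial
velocity decay like `1/k`.
-/

open MeasureTheory Set Filter Topology
open scoped ENNReal ContDiff RealInnerProductSpace

namespace Pool.Agent.R212.CW

/-- the spatial test function -/
noncomputable def xi (ζ : ℝ → ℝ) (k : ℝ) (x : ℝ) : ℝ := Real.cos (k * x) * ζ x

theorem xi_tst {ζ : ℝ → ℝ} (h : Tst ζ) (k : ℝ) : Tst (xi ζ k) where
  smooth := by
    unfold xi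
    exact (Real.contDiff_cos.comp (contDiff_const.mul contDiff_id)).mul h.smooth
  cpt := by
    unfold xi
    exact h.cpt.mul_left

theorem xi_deriv {ζ : ℝ → ℝ} (h : Tst ζ) (k : ℝ) : deriv (xi ζ k) =
    fun x => -k * (Real.sin (k * x) * ζ x) + Real.cos (k * x) * deriv ζ x := by
  ext x
  have hζ : Differentiable ℝ ζ := h.smooth.differentiable (by simp)
  have h1 : HasDerivAt (fun x => Real.cos (k * x)) (-Real.sin (k * x) * (k * 1)) x :=
    ((hasDerivAt_id x).const_mul k).cos
  have h2 := (h1.mul (hζ x).hasDerivAt).deriv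
  have h3 : deriv (xi ζ k) x = -Real.sin (k * x) * (k * 1) * ζ x +
      Real.cos (k * x) * deriv ζ x := h2
  rw [h3]; ring

theorem xi_deriv2 {ζ : ℝ → ℝ} (h : Tst ζ) (k : ℝ) : deriv (deriv (xi ζ k)) =
    fun x => -k ^ 2 * xi ζ k x + (-2 * k * (Real.sin (k * x) * deriv ζ x) +
      Real.cos (k * x) * deriv (deriv ζ) x) := by
  rw [xi_deriv h]
  ext x
  have hζ : Differentiable ℝ ζ := h.smooth.differentiable (by simp)
  have hζ1 : Differentiable ℝ (deriv ζ) := h.deriv.smooth.differentiable (by simp)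
  have h1 : HasDerivAt (fun x => Real.cos (k * x)) (-Real.sin (k * x) * (k * 1)) x :=
    ((hasDerivAt_id x).const_mul k).cos
  have h1' : HasDerivAt (fun x => Real.sin (k * x)) (Real.cos (k * x) * (k * 1)) x :=
    ((hasDerivAt_id x).const_mul k).sin
  have h2 := (((h1'.mul (hζ x).hasDerivAt).const_mul (-k)).add
    (h1.mul (hζ1 x).hasDerivAt)).deriv
  have h3 : deriv (fun x => -k * (Real.sin (k * x) * ζ x) + Real.cos (k * x) * deriv ζ x) x =
    -k * (Real.cos (k * x) * (k * 1) * ζ x + Real.sin (k * x) * deriv ζ x) +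
      (-Real.sin (k * x) * (k * 1) * deriv ζ x + Real.cos (k * x) * deriv (deriv ζ) x) := h2
  rw [h3]
  unfold xi
  ring

/-- pairing with `m ζ`, `|m| ≤ 1` -/
theorem pair_bound {ζ m : ℝ → ℝ} (h : Tst ζ) (hm : Continuous m) (hm1 : ∀ x, |m x| ≤ 1) (f : L2) :
    |∫ x, f x * (m x * ζ x)| ≤ ‖f‖ * ‖h.memLp.toLp ζ‖ := by
  have h1 : ∫ x, f x * (m x * ζ x) = ∫ x, f x * (h.memLp.toLp ζ) x * m x := by
    apply integral_congr_ae
    filter_upwards [h.memLp.coeFn_toLp] with x hx
    rw [hx]; ring
  rw [h1]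
  have := bil_bound hm hm1 f (h.memLp.toLp ζ)
  linarith

theorem ell_xi_bound {ζ : ℝ → ℝ} (h : Tst ζ) (k : ℝ) (f : L2) :
    |ell (xi_tst h k).memLp f| ≤ ‖f‖ * ‖h.memLp.toLp ζ‖ := by
  rw [ell_apply]
  exact pair_bound h (by fun_prop) (fun x => Real.abs_cos_le_one _) f

theorem int_deriv_zero {ξ : ℝ → ℝ} (h : Tst ξ) : ∫ x, deriv ξ x = 0 := by
  apply integral_eq_zero_of_hasDerivAt_of_integrable (f := ξ)
  · exact fun x => (h.smooth.differentiable (by simp) x).hasDerivAt
  · exact h.deriv.smooth.continuous.integrable_of_hasCompactSupport h.deriv.cpt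
  · exact h.smooth.continuous.integrable_of_hasCompactSupport h.cpt

/-- the algebraic identity behind the estimate -/
theorem G_identity {ζ : ℝ → ℝ} (h : Tst ζ) {c : ℝ} (w w0 : L2)
    (hw0 : ∀ᵐ x, x ∈ tsupport ζ → w0 x = -c) (k : ℝ) :
    Gf (xi ζ k) w - c * k ^ 2 * ell (xi_tst h k).memLp (w - w0) =
      1 / 2 * (∫ x, (w - w0 : L2) x * (w - w0 : L2) x * deriv (deriv (xi ζ k)) x)
      - c * (-2 * k * (∫ x, (w - w0 : L2) x * (Real.sin (k * x) * deriv ζ x)) +
        ∫ x, (w - w0 : L2) x * (Real.cos (k * x) * deriv (deriv ζ) x))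
      + (2 * (∫ x, w x * w x * xi ζ k x) - 6 * ell (xi_tst h k).memLp w) := by
  set d : L2 := w - w0 with hd
  have hξ := xi_tst h k
  obtain ⟨K, hK⟩ := hξ.bdd
  obtain ⟨K2, hK2⟩ := hξ.deriv.deriv.bdd
  have i1 : Integrable fun x => d x * d x * deriv (deriv (xi ζ k)) x :=
    sq_int hξ.deriv.deriv.smooth.continuous hK2 d d
  have i2 : Integrable fun x => d x * deriv (deriv (xi ζ k)) x := lin_int hξ.deriv.deriv d
  have i3 : Integrable fun x => deriv (deriv (xi ζ k)) x :=
    hξ.deriv.deriv.smooth.continuous.integrable_of_hasCompactSupport hξ.deriv.deriv.cpt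
  have i4 : Integrable fun x => w x * w x * xi ζ k x := sq_int hξ.smooth.continuous hK w w
  have i5 : Integrable fun x => w x * xi ζ k x := lin_int hξ w
  have i6 : Integrable fun x => d x * xi ζ k x := lin_int hξ d
  have hsin : Tst fun x => Real.sin (k * x) * deriv ζ x :=
    ⟨(Real.contDiff_sin.comp (contDiff_const.mul contDiff_id)).mul h.deriv.smooth,
      h.deriv.cpt.mul_left⟩
  have hcos : Tst fun x => Real.cos (k * x) * deriv (deriv ζ) x :=
    ⟨(Real.contDiff_cos.comp (contDiff_const.mul contDiff_id)).mul h.deriv.deriv.smooth,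
      h.deriv.deriv.cpt.mul_left⟩
  have i7 : Integrable fun x => d x * (Real.sin (k * x) * deriv ζ x) := lin_int hsin d
  have i8 : Integrable fun x => d x * (Real.cos (k * x) * deriv (deriv ζ) x) := lin_int hcos d
  -- the integral of `d ξ''`
  have e1 : ∫ x, d x * deriv (deriv (xi ζ k)) x = -k ^ 2 * (∫ x, d x * xi ζ k x) +
      (-2 * k * (∫ x, d x * (Real.sin (k * x) * deriv ζ x)) +
        ∫ x, d x * (Real.cos (k * x) * deriv (deriv ζ) x)) := by
    rw [← integral_const_mul, ← integral_const_mul, ← integral_add, ← integral_add]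
    · congr 1
      ext x
      rw [xi_deriv2 h]
      ring
    · exact i6.const_mul _
    · exact (i7.const_mul _).add i8
    · exact i7.const_mul _
    · exact i8
  have e2 : ∫ x, deriv (deriv (xi ζ k)) x = 0 := int_deriv_zero hξ.deriv
  -- expansion of `Gf`
  have e3 : Gf (xi ζ k) w = 1 / 2 * (∫ x, d x * d x * deriv (deriv (xi ζ k)) x) -
      c * (∫ x, d x * deriv (deriv (xi ζ k)) x) + c ^ 2 / 2 * (∫ x, deriv (deriv (xi ζ k)) x) +
      2 * (∫ x, w x * w x * xi ζ k x) - 6 * (∫ x, w x * xi ζ k x) := by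
    unfold Gf
    have j1 := (i1.const_mul (1 / 2)).sub (i2.const_mul c)
    have j2 := j1.add (i3.const_mul (c ^ 2 / 2))
    have j3 := j2.add (i4.const_mul 2)
    rw [← integral_const_mul, ← integral_const_mul, ← integral_const_mul, ← integral_const_mul,
      ← integral_const_mul, ← integral_sub, ← integral_add, ← integral_add, ← integral_sub]
    rotate_left
    · exact j3
    · exact i5.const_mul _
    · exact j2
    · exact i4.const_mul _
    · exact j1
    · exact i3.const_mul _
    · exact i1.const_mul _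
    · exact i2.const_mul _
    apply integral_congr_ae
    filter_upwards [hw0, Lp.coeFn_sub w w0] with x hx hx2
    by_cases hxs : x ∈ tsupport ζ
    · have e4 : w x = d x - c := by
        rw [hd, hx2, Pi.sub_apply, hx hxs]; ring
      rw [e4]
      ring
    · have e5 : xi ζ k x = 0 := by
        unfold xi
        rw [image_eq_zero_of_notMem_tsupport hxs, mul_zero]
      have e6 : deriv (deriv (xi ζ k)) x = 0 := by
        rw [xi_deriv2 h]
        simp only
        rw [e5, image_eq_zero_of_notMem_tsupport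
          (fun h3 => hxs (tsupport_deriv_subset h3)),
          image_eq_zero_of_notMem_tsupport
          (fun h3 => hxs (tsupport_deriv_subset (tsupport_deriv_subset h3)))]
        ring
      rw [e5, e6]
      ring
  rw [e3, e1, e2, ell_apply, ell_apply]
  ring

end Pool.Agent.R212.CW
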