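import Mathlib

/-!
A one-dimensional estimate for `Y'' = κ² Y + E`.
-/

open MeasureTheory Set Filter Topology

namespace Pool.Agent.R212.CW

theorem exp_bd {κ : ℝ} (hκ : 0 < κ) : κ * ((1 + κ) * Real.exp (-κ)) ≤ 2 := by
  have h4 : 1 + κ + κ ^ 2 / 2 ≤ Real.exp κ := Real.quadratic_le_exp_of_nonneg hκ.le
  have h3 : Real.exp (-κ) * Real.exp κ = 1 := by rw [← Real.exp_add]; simp
  have h2 := Real.exp_pos (-κ)
  calc κ * ((1 + κ) * Real.exp (-κ)) = (κ + κ ^ 2) * Real.exp (-κ) := by ring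
    _ ≤ (2 * Real.exp κ) * Real.exp (-κ) := by gcongr; nlinarith
    _ = 2 * (Real.exp (-κ) * Real.exp κ) := by ring
    _ = 2 := by rw [h3, mul_one]

theorem calc_est {A b G : ℝ → ℝ} {κ D B : ℝ} (hκ : 0 < κ) (hD : 0 ≤ D) (hB : 0 ≤ B)
    (hA : ContinuousOn A (Icc 0 1)) (hb : ContinuousOn b (Icc 0 1)) (hG : ContinuousOn G (Icc 0 1))
    (hAd : ∀ τ ∈ Ioo (0 : ℝ) 1, HasDerivAt A (b τ) τ)
    (hint : ∀ t ∈ Icc (0 : ℝ) 1, b t + 5 * A t - (b 0 + 5 * A 0) = ∫ τ in (0 : ℝ)..t, G τ)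
    (hE : ∀ τ ∈ Icc (0 : ℝ) 1, Real.exp (-(κ * τ)) * |G τ - 5 * b τ - κ ^ 2 * (A τ - A 0)| ≤
      D * Real.exp (-(κ * τ / 2)))
    (hB1 : |b 1| ≤ B) (hB2 : |A 1 - A 0| ≤ B) : κ * |b 0| ≤ 2 * B + 2 * D := by
  have hI : uIcc (0 : ℝ) 1 = Icc 0 1 := uIcc_of_le zero_le_one
  have hGi : IntervalIntegrable G volume 0 1 := by
    apply ContinuousOn.intervalIntegrable; rw [hI]; exact hG
  -- the derivative of `b`
  have hbd : ∀ τ ∈ Ioo (0 : ℝ) 1, HasDerivAt b (G τ - 5 * b τ) τ := by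
    intro τ hτ
    have h1 : HasDerivAt (fun t => ∫ s in (0 : ℝ)..t, G s) (G τ) τ := by
      apply intervalIntegral.integral_hasDerivAt_right
      · apply hGi.mono_set
        rw [uIcc_of_le hτ.1.le, hI]
        exact Icc_subset_Icc_right hτ.2.le
      · exact (hG.mono Ioo_subset_Icc_self).stronglyMeasurableAtFilter isOpen_Ioo τ hτ
      · exact hG.continuousAt (Icc_mem_nhds hτ.1 hτ.2)
    have h2 : HasDerivAt (fun t => (b 0 + 5 * A 0) + (∫ s in (0 : ℝ)..t, G s) - 5 * A t)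
        (G τ - 5 * b τ) τ := (h1.const_add _).sub ((hAd τ hτ).const_mul 5)
    refine h2.congr_of_eventuallyEq ?_
    filter_upwards [Ioo_mem_nhds hτ.1 hτ.2] with t ht
    have := hint t ⟨ht.1.le, ht.2.le⟩
    linarith
  set P : ℝ → ℝ := fun τ => Real.exp (-(κ * τ)) * (b τ + κ * (A τ - A 0)) with hP
  set E : ℝ → ℝ := fun τ => G τ - 5 * b τ - κ ^ 2 * (A τ - A 0) with hEdef
  have hexpc : Continuous fun τ : ℝ => Real.exp (-(κ * τ)) := by fun_prop
  have hPc : ContinuousOn P (Icc 0 1) :=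
    hexpc.continuousOn.mul (hb.add (continuousOn_const.mul (hA.sub continuousOn_const)))
  have hEc : ContinuousOn (fun τ => Real.exp (-(κ * τ)) * E τ) (Icc 0 1) :=
    hexpc.continuousOn.mul ((hG.sub (continuousOn_const.mul hb)).sub
      (continuousOn_const.mul (hA.sub continuousOn_const)))
  have hPd : ∀ τ ∈ Ioo (0 : ℝ) 1, HasDerivAt P (Real.exp (-(κ * τ)) * E τ) τ := by
    intro τ hτ
    have h1 : HasDerivAt (fun τ : ℝ => Real.exp (-(κ * τ))) (Real.exp (-(κ * τ)) * (-(κ * 1))) τ :=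
      ((hasDerivAt_id τ).const_mul κ).neg.exp
    have h2 : HasDerivAt (fun τ => b τ + κ * (A τ - A 0)) ((G τ - 5 * b τ) + κ * b τ) τ :=
      (hbd τ hτ).add (((hAd τ hτ).sub_const _).const_mul κ)
    have h3 := h1.mul h2
    have h4 : Real.exp (-(κ * τ)) * (-(κ * 1)) * (b τ + κ * (A τ - A 0)) +
        Real.exp (-(κ * τ)) * ((G τ - 5 * b τ) + κ * b τ) = Real.exp (-(κ * τ)) * E τ := by
      rw [hEdef]; ring
    rw [← h4]
    exact h3
  have hFTC : ∫ τ in (0 : ℝ)..1, Real.exp (-(κ * τ)) * E τ = P 1 - P 0 := by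
    apply intervalIntegral.integral_eq_sub_of_hasDerivAt_of_le zero_le_one hPc hPd
    apply ContinuousOn.intervalIntegrable; rw [hI]; exact hEc
  have hbound : |∫ τ in (0 : ℝ)..1, Real.exp (-(κ * τ)) * E τ| ≤ 2 * D / κ := by
    have h1 : ‖∫ τ in (0 : ℝ)..1, Real.exp (-(κ * τ)) * E τ‖ ≤
        ∫ τ in (0 : ℝ)..1, D * Real.exp (-(κ * τ / 2)) := by
      apply intervalIntegral.norm_integral_le_of_norm_le zero_le_one
      · refine Filter.Eventually.of_forall fun τ hτ => ?_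
        rw [Real.norm_eq_abs, abs_mul, abs_of_pos (Real.exp_pos _)]
        exact hE τ ⟨hτ.1.le, hτ.2⟩
      · apply Continuous.intervalIntegrable; fun_prop
    rw [Real.norm_eq_abs] at h1
    refine h1.trans ?_
    have h2 : ∫ τ in (0 : ℝ)..1, D * Real.exp (-(κ * τ / 2)) =
        D * ((1 - Real.exp (-(κ / 2))) * (2 / κ)) := by
      rw [intervalIntegral.integral_const_mul]
      congr 1
      have h3 : ∀ τ ∈ uIcc (0 : ℝ) 1, HasDerivAt (fun τ => -(2 / κ) * Real.exp (-(κ * τ / 2)))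
          (Real.exp (-(κ * τ / 2))) τ := by
        intro τ _
        have h4 : HasDerivAt (fun τ : ℝ => Real.exp (-(κ * τ / 2)))
            (Real.exp (-(κ * τ / 2)) * (-(κ * 1 / 2))) τ :=
          (((hasDerivAt_id τ).const_mul κ).div_const 2).neg.exp
        have h5 := h4.const_mul (-(2 / κ))
        have h6 : -(2 / κ) * (Real.exp (-(κ * τ / 2)) * (-(κ * 1 / 2))) =
            Real.exp (-(κ * τ / 2)) := by field_simp
        rw [← h6]
        exact h5
      rw [intervalIntegral.integral_eq_sub_of_hasDerivAt h3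
        ((by fun_prop : Continuous fun τ : ℝ => Real.exp (-(κ * τ / 2))).intervalIntegrable _ _)]
      simp only [mul_one, mul_zero, zero_div, neg_zero, Real.exp_zero]
      ring
    rw [h2]
    have h3 := Real.exp_pos (-(κ / 2))
    have h4 : (1 - Real.exp (-(κ / 2))) * (2 / κ) ≤ 1 * (2 / κ) := by gcongr; linarith
    calc D * ((1 - Real.exp (-(κ / 2))) * (2 / κ)) ≤ D * (1 * (2 / κ)) := by gcongr
      _ = 2 * D / κ := by ring
  have hP0 : P 0 = b 0 := by rw [hP]; simp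
  have hP1 : |P 1| ≤ (1 + κ) * Real.exp (-κ) * B := by
    rw [hP]
    simp only [mul_one]
    rw [abs_mul, abs_of_pos (Real.exp_pos _)]
    have h1 : |b 1 + κ * (A 1 - A 0)| ≤ B + κ * B := by
      refine (abs_add_le _ _).trans (add_le_add hB1 ?_)
      rw [abs_mul, abs_of_pos hκ]
      gcongr
    calc Real.exp (-κ) * |b 1 + κ * (A 1 - A 0)| ≤ Real.exp (-κ) * (B + κ * B) := by gcongr
      _ = _ := by ring
  have h1 : |b 0| ≤ (1 + κ) * Real.exp (-κ) * B + 2 * D / κ := by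
    have h2 : b 0 = P 1 - ∫ τ in (0 : ℝ)..1, Real.exp (-(κ * τ)) * E τ := by
      rw [hFTC, hP0]; ring
    rw [h2]
    exact (abs_sub _ _).trans (add_le_add hP1 hbound)
  calc κ * |b 0| ≤ κ * ((1 + κ) * Real.exp (-κ) * B + 2 * D / κ) := by gcongr
    _ = κ * ((1 + κ) * Real.exp (-κ)) * B + 2 * D := by field_simp
    _ ≤ 2 * B + 2 * D := by
      have := exp_bd hκ
      gcongr

end Pool.Agent.R212.CW
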