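import Mathlib
import Pool.Agent.R212.CW4
import Pool.Agent.R212.CW5a

/-!
The key estimate: in the region where `w_0 = -c < 0` the Fourier coefficients of the initial
velocity decay like `1/k`.
-/

open MeasureTheory Set Filter Topology
open scoped ENNReal ContDiff RealInnerProductSpace

namespace Pool.Agent.R212.CW

/-- elementary inequality -/
theorem exp_poly {x : ℝ} (hx : 0 ≤ x) {a b c : ℝ} (ha : 0 ≤ a) (hb : 0 ≤ b) (hc : 0 ≤ c) :
    Real.exp (-x) * (a + b * x + c * x ^ 2) ≤ (a + 2 * b + 8 * c) * Real.exp (-(x / 2)) := by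
  have h1 : Real.exp (-x) = Real.exp (-(x / 2)) * Real.exp (-(x / 2)) := by
    rw [← Real.exp_add]; congr 1; ring
  have h2 := Real.exp_pos (-(x / 2))
  have h3 : Real.exp (-(x / 2)) * Real.exp (x / 2) = 1 := by rw [← Real.exp_add]; simp
  have h4 : 1 + x / 2 + (x / 2) ^ 2 / 2 ≤ Real.exp (x / 2) :=
    Real.quadratic_le_exp_of_nonneg (by linarith)
  have h5 : a + b * x + c * x ^ 2 ≤ (a + 2 * b + 8 * c) * Real.exp (x / 2) := by
    have e1 : a ≤ a * Real.exp (x / 2) := by nlinarith [sq_nonneg x]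
    have e2 : b * x ≤ 2 * b * Real.exp (x / 2) := by
      have : x ≤ 2 * Real.exp (x / 2) := by nlinarith [sq_nonneg x]
      nlinarith
    have e3 : c * x ^ 2 ≤ 8 * c * Real.exp (x / 2) := by
      have : x ^ 2 ≤ 8 * Real.exp (x / 2) := by nlinarith [sq_nonneg x]
      nlinarith
    linarith
  rw [h1]
  calc Real.exp (-(x / 2)) * Real.exp (-(x / 2)) * (a + b * x + c * x ^ 2)
      ≤ Real.exp (-(x / 2)) * Real.exp (-(x / 2)) * ((a + 2 * b + 8 * c) * Real.exp (x / 2)) := by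
        gcongr
    _ = (a + 2 * b + 8 * c) * Real.exp (-(x / 2)) *
        (Real.exp (-(x / 2)) * Real.exp (x / 2)) := by ring
    _ = _ := by rw [h3, mul_one]

/-- bound for the second derivative of the test function -/
theorem xi2_bound {ζ : ℝ → ℝ} (h : Tst ζ) {k K0 K1 K2 : ℝ} (hk1 : 1 ≤ k)
    (hK0 : ∀ x, |ζ x| ≤ K0) (hK1 : ∀ x, |deriv ζ x| ≤ K1) (hK2 : ∀ x, |deriv (deriv ζ) x| ≤ K2)
    (x : ℝ) : |deriv (deriv (xi ζ k)) x| ≤ k ^ 2 * (K0 + 2 * K1 + K2) := by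
  have hk0 : 0 < k := by linarith
  have hK10 : 0 ≤ K1 := (abs_nonneg _).trans (hK1 0)
  have hK20 : 0 ≤ K2 := (abs_nonneg _).trans (hK2 0)
  rw [xi_deriv2 h]
  simp only
  have hs := Real.abs_sin_le_one (k * x)
  have hco := Real.abs_cos_le_one (k * x)
  have a1 : |xi ζ k x| ≤ K0 := by
    unfold xi
    rw [abs_mul]
    calc |Real.cos (k * x)| * |ζ x| ≤ 1 * K0 := by
          gcongr
          exact hK0 x
      _ = K0 := one_mul _
  have a2 : |Real.sin (k * x) * deriv ζ x| ≤ K1 := by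
    rw [abs_mul]
    calc |Real.sin (k * x)| * |deriv ζ x| ≤ 1 * K1 := by
          gcongr
          exact hK1 x
      _ = K1 := one_mul _
  have a3 : |Real.cos (k * x) * deriv (deriv ζ) x| ≤ K2 := by
    rw [abs_mul]
    calc |Real.cos (k * x)| * |deriv (deriv ζ) x| ≤ 1 * K2 := by
          gcongr
          exact hK2 x
      _ = K2 := one_mul _
  have b1 : |-k ^ 2 * xi ζ k x| ≤ k ^ 2 * K0 := by
    rw [abs_mul, abs_neg, abs_of_nonneg (by positivity : (0 : ℝ) ≤ k ^ 2)]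
    gcongr
  have b2 : |-2 * k * (Real.sin (k * x) * deriv ζ x)| ≤ 2 * k * K1 := by
    rw [abs_mul, show |-2 * k| = 2 * k by
      rw [abs_mul, abs_neg, abs_of_pos (by norm_num : (0 : ℝ) < 2), abs_of_pos hk0]]
    gcongr
  have b3 : |-k ^ 2 * xi ζ k x + (-2 * k * (Real.sin (k * x) * deriv ζ x) +
      Real.cos (k * x) * deriv (deriv ζ) x)| ≤ k ^ 2 * K0 + (2 * k * K1 + K2) :=
    (abs_add_le _ _).trans (add_le_add b1 ((abs_add_le _ _).trans (add_le_add b2 a3)))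
  refine b3.trans ?_
  have c1 : k ≤ k ^ 2 := le_self_pow₀ hk1 two_ne_zero
  have c2 : 1 ≤ k ^ 2 := one_le_pow₀ hk1
  have d1 : 2 * k * K1 ≤ 2 * k ^ 2 * K1 := by gcongr
  have d2 : K2 ≤ k ^ 2 * K2 := le_mul_of_one_le_left hK20 c2
  calc k ^ 2 * K0 + (2 * k * K1 + K2) ≤ k ^ 2 * K0 + (2 * k ^ 2 * K1 + k ^ 2 * K2) := by linarith
    _ = _ := by ring

section

variable {z : ℝ → XSp} {z0 : XSp}

/-- bounds for the solution on `[0,1]` -/
theorem sol_bounds (hz : IsWeakSol z z0) : ∃ M : ℝ, 0 ≤ M ∧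
    (∀ τ ∈ Icc (0 : ℝ) 1, ‖vel (z τ)‖ ≤ M) ∧
    (∀ τ ∈ Icc (0 : ℝ) 1, ‖pos (z τ) - pos z0‖ ≤ M * τ) ∧
    (∀ τ ∈ Icc (0 : ℝ) 1, ‖pos (z τ)‖ ≤ ‖pos z0‖ + M) := by
  have hsub : Icc (0 : ℝ) 1 ⊆ Ici 0 := Icc_subset_Ici_self
  obtain ⟨M, hM⟩ := isCompact_Icc.exists_bound_of_continuousOn ((vel_cont hz).mono hsub)
  have hM0 : 0 ≤ M := (norm_nonneg _).trans (hM 0 ⟨le_rfl, zero_le_one⟩)
  have h2 : ∀ τ ∈ Icc (0 : ℝ) 1, ‖pos (z τ) - pos z0‖ ≤ M * τ := by
    intro τ hτ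
    have := norm_image_sub_le_of_norm_deriv_le_segment' (a := 0) (b := 1)
      (f := fun s => pos (z s)) (f' := fun s => vel (z s)) (C := M)
      (fun x hx => (hz.deriv x hx.1).mono hsub) (fun x hx => hM x ⟨hx.1, hx.2.le⟩) τ hτ
    simp only [sub_zero] at this
    rw [hz.init] at this
    exact this
  refine ⟨M, hM0, hM, h2, fun τ hτ => ?_⟩
  have h3 := h2 τ hτ
  have h4 : pos (z τ) = pos z0 + (pos (z τ) - pos z0) := by abel
  rw [h4]
  refine (norm_add_le _ _).trans ?_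
  have : M * τ ≤ M := by nlinarith [hτ.2]
  linarith

/-- the key estimate -/
theorem key (hz : IsWeakSol z z0) {ζ : ℝ → ℝ} (h : Tst ζ) {c : ℝ} (hc : 0 < c)
    (hw0 : ∀ᵐ x, x ∈ tsupport ζ → pos z0 x = -c) :
    ∃ C : ℝ, ∀ k : ℕ, 1 ≤ k → |(k : ℝ) * ell (xi_tst h k).memLp (vel z0)| ≤ C := by
  obtain ⟨M, hM0, hM1, hM2, hM3⟩ := sol_bounds hz
  obtain ⟨K0, hK0⟩ := h.bdd
  obtain ⟨K1, hK1⟩ := h.deriv.bdd
  obtain ⟨K2, hK2⟩ := h.deriv.deriv.bdd
  have hK00 : 0 ≤ K0 := (abs_nonneg _).trans (hK0 0)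
  have hK10 : 0 ≤ K1 := (abs_nonneg _).trans (hK1 0)
  have hK20 : 0 ≤ K2 := (abs_nonneg _).trans (hK2 0)
  set N0 : ℝ := ‖h.memLp.toLp ζ‖ with hN0
  set N1 : ℝ := ‖h.deriv.memLp.toLp (deriv ζ)‖ with hN1
  set N2 : ℝ := ‖h.deriv.deriv.memLp.toLp (deriv (deriv ζ))‖ with hN2
  have hN00 : 0 ≤ N0 := norm_nonneg _
  have hN10 : 0 ≤ N1 := norm_nonneg _
  have hN20 : 0 ≤ N2 := norm_nonneg _
  set W : ℝ := ‖pos z0‖ + M with hW
  have hW0 : 0 ≤ W := by positivity
  set sc : ℝ := √c with hsc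
  have hsc0 : 0 < sc := Real.sqrt_pos.2 hc
  have hsc2 : sc ^ 2 = c := Real.sq_sqrt hc.le
  set C0 : ℝ := 2 * (K0 * W * W) + 6 * (W * N0) + 5 * (M * N0) with hC0
  set C1 : ℝ := c * (M * (2 * N1 + N2)) with hC1
  set C2 : ℝ := 1 / 2 * ((K0 + 2 * K1 + K2) * M ^ 2) with hC2
  have hC00 : 0 ≤ C0 := by positivity
  have hC10 : 0 ≤ C1 := by positivity
  have hC20 : 0 ≤ C2 := by positivity
  set D : ℝ := C0 + 2 * (C1 / sc) + 8 * (C2 / c) with hD
  have hD0 : 0 ≤ D := by positivity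
  refine ⟨(2 * (M * N0) + 2 * D) / sc, fun k hk => ?_⟩
  have hk1 : (1 : ℝ) ≤ k := by exact_mod_cast hk
  have hk0 : (0 : ℝ) < k := by linarith
  set κ : ℝ := sc * k with hκ
  have hκ0 : 0 < κ := by positivity
  have hκ2 : κ ^ 2 = c * (k : ℝ) ^ 2 := by rw [hκ, mul_pow, hsc2]
  set L := ell (xi_tst h k).memLp with hL
  have hLb : ∀ f : L2, |L f| ≤ ‖f‖ * N0 := fun f => ell_xi_bound h k f
  set A : ℝ → ℝ := fun τ => L (pos (z τ)) with hA
  set b : ℝ → ℝ := fun τ => L (vel (z τ)) with hb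
  set Y : ℝ → ℝ := fun τ => L (pos (z τ) - pos z0) with hY
  set G : ℝ → ℝ := fun τ => Gf (xi ζ k) (pos (z τ)) with hG
  set E : ℝ → ℝ := fun τ => G τ - 5 * b τ - κ ^ 2 * Y τ with hE
  have hsub : Icc (0 : ℝ) 1 ⊆ Ici 0 := Icc_subset_Ici_self
  have hAc : ContinuousOn A (Ici 0) := L.continuous.comp_continuousOn (pos_cont hz)
  have hbc : ContinuousOn b (Ici 0) := L.continuous.comp_continuousOn (vel_cont hz)
  have hYc : ContinuousOn Y (Ici 0) :=
    L.continuous.comp_continuousOn ((pos_cont hz).sub continuousOn_const)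
  have hGc : ContinuousOn G (Ici 0) := (Gf_cont (xi_tst h k)).comp_continuousOn (pos_cont hz)
  have hEc : ContinuousOn E (Ici 0) :=
    (hGc.sub (continuousOn_const.mul hbc)).sub (continuousOn_const.mul hYc)
  -- the bound for `E`
  have hEb : ∀ τ ∈ Icc (0 : ℝ) 1, |E τ| ≤ C0 + C1 * (k * τ) + C2 * (k * τ) ^ 2 := by
    intro τ hτ
    have hid := G_identity h (pos (z τ)) (pos z0) hw0 (k : ℝ)
    have hd := hM2 τ hτ
    have hw := hM3 τ hτ
    have hv := hM1 τ hτ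
    set d : L2 := pos (z τ) - pos z0 with hdd
    have hEe : E τ = 1 / 2 * (∫ x, d x * d x * deriv (deriv (xi ζ k)) x)
        - c * (-2 * k * (∫ x, d x * (Real.sin (k * x) * deriv ζ x)) +
          ∫ x, d x * (Real.cos (k * x) * deriv (deriv ζ) x))
        + (2 * (∫ x, pos (z τ) x * pos (z τ) x * xi ζ k x) - 6 * L (pos (z τ))) - 5 * b τ := by
      rw [← hid, hE]
      simp only [hG, hY, hκ2]
      ring
    have t1 : |∫ x, d x * d x * deriv (deriv (xi ζ k)) x| ≤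
        ((k : ℝ) ^ 2 * (K0 + 2 * K1 + K2)) * ‖d‖ * ‖d‖ := by
      apply bil_bound (xi_tst h k).deriv.deriv.smooth.continuous
      intro x
      exact xi2_bound h hk1 hK0 hK1 hK2 x
    have t2 : |∫ x, d x * (Real.sin (k * x) * deriv ζ x)| ≤ ‖d‖ * N1 :=
      pair_bound h.deriv (by fun_prop) (fun x => Real.abs_sin_le_one _) d
    have t3 : |∫ x, d x * (Real.cos (k * x) * deriv (deriv ζ) x)| ≤ ‖d‖ * N2 :=
      pair_bound h.deriv.deriv (by fun_prop) (fun x => Real.abs_cos_le_one _) d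
    have t4 : |∫ x, pos (z τ) x * pos (z τ) x * xi ζ k x| ≤ K0 * ‖pos (z τ)‖ * ‖pos (z τ)‖ := by
      apply bil_bound (xi_tst h k).smooth.continuous
      intro x
      unfold xi
      rw [abs_mul]
      calc |Real.cos (k * x)| * |ζ x| ≤ 1 * K0 := by
            gcongr
            · exact Real.abs_cos_le_one _
            · exact hK0 x
        _ = K0 := one_mul _
    have t5 := hLb (pos (z τ))
    have t6 := hLb (vel (z τ))
    have hτ0 := hτ.1
    have hτk : 0 ≤ (k : ℝ) * τ := by positivity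
    -- individual bounds
    have u1 : |1 / 2 * (∫ x, d x * d x * deriv (deriv (xi ζ k)) x)| ≤ C2 * (k * τ) ^ 2 := by
      rw [abs_mul, abs_of_pos (by norm_num : (0 : ℝ) < 1 / 2)]
      calc 1 / 2 * |∫ x, d x * d x * deriv (deriv (xi ζ k)) x|
          ≤ 1 / 2 * (((k : ℝ) ^ 2 * (K0 + 2 * K1 + K2)) * (M * τ) * (M * τ)) := by
            gcongr
            exact t1.trans (by gcongr)
        _ = C2 * (k * τ) ^ 2 := by rw [hC2]; ring
    have u2 : |c * (-2 * k * (∫ x, d x * (Real.sin (k * x) * deriv ζ x)) +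
          ∫ x, d x * (Real.cos (k * x) * deriv (deriv ζ) x))| ≤ C1 * (k * τ) := by
      rw [abs_mul, abs_of_pos hc]
      have v1 : |-2 * (k : ℝ) * (∫ x, d x * (Real.sin (k * x) * deriv ζ x))| ≤
          2 * k * ((M * τ) * N1) := by
        rw [abs_mul, show |-2 * (k : ℝ)| = 2 * k by
          rw [abs_mul, abs_neg, abs_of_pos (by norm_num : (0 : ℝ) < 2), abs_of_pos hk0]]
        gcongr
        exact t2.trans (by gcongr)
      have v2 : |∫ x, d x * (Real.cos (k * x) * deriv (deriv ζ) x)| ≤ k * ((M * τ) * N2) := by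
        refine t3.trans ?_
        have : (M * τ) * N2 ≤ k * ((M * τ) * N2) :=
          le_mul_of_one_le_left (by positivity) hk1
        refine le_trans ?_ this
        gcongr
      calc c * |-2 * k * (∫ x, d x * (Real.sin (k * x) * deriv ζ x)) +
          ∫ x, d x * (Real.cos (k * x) * deriv (deriv ζ) x)|
          ≤ c * (2 * k * ((M * τ) * N1) + k * ((M * τ) * N2)) := by
            gcongr
            exact (abs_add_le _ _).trans (add_le_add v1 v2)
        _ = C1 * (k * τ) := by rw [hC1]; ring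
    have u3 : |2 * (∫ x, pos (z τ) x * pos (z τ) x * xi ζ k x) - 6 * L (pos (z τ))| ≤
        2 * (K0 * W * W) + 6 * (W * N0) := by
      refine (abs_sub _ _).trans ?_
      rw [abs_mul, abs_mul, abs_of_pos (by norm_num : (0 : ℝ) < 2),
        abs_of_pos (by norm_num : (0 : ℝ) < 6)]
      gcongr
      · exact t4.trans (by gcongr)
      · exact t5.trans (by gcongr)
    have u4 : |5 * b τ| ≤ 5 * (M * N0) := by
      rw [abs_mul, abs_of_pos (by norm_num : (0 : ℝ) < 5)]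
      gcongr
      exact t6.trans (by gcongr)
    rw [hEe]
    have := abs_sub (1 / 2 * (∫ x, d x * d x * deriv (deriv (xi ζ k)) x)
        - c * (-2 * k * (∫ x, d x * (Real.sin (k * x) * deriv ζ x)) +
          ∫ x, d x * (Real.cos (k * x) * deriv (deriv ζ) x))
        + (2 * (∫ x, pos (z τ) x * pos (z τ) x * xi ζ k x) - 6 * L (pos (z τ)))) (5 * b τ)
    have h2 := abs_add_le (1 / 2 * (∫ x, d x * d x * deriv (deriv (xi ζ k)) x)
        - c * (-2 * k * (∫ x, d x * (Real.sin (k * x) * deriv ζ x)) +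
          ∫ x, d x * (Real.cos (k * x) * deriv (deriv ζ) x)))
        (2 * (∫ x, pos (z τ) x * pos (z τ) x * xi ζ k x) - 6 * L (pos (z τ)))
    have h3 := abs_sub (1 / 2 * (∫ x, d x * d x * deriv (deriv (xi ζ k)) x))
        (c * (-2 * k * (∫ x, d x * (Real.sin (k * x) * deriv ζ x)) +
          ∫ x, d x * (Real.cos (k * x) * deriv (deriv ζ) x)))
    rw [hC0]
    linarith
  -- conclusion
  have hAd : ∀ τ ∈ Ioo (0 : ℝ) 1, HasDerivAt A (b τ) τ := fun τ hτ =>
    (A_deriv hz (xi_tst h k) hτ.1.le).hasDerivAt (Ici_mem_nhds hτ.1)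
  have hint : ∀ t ∈ Icc (0 : ℝ) 1, b t + 5 * A t - (b 0 + 5 * A 0) = ∫ τ in (0 : ℝ)..t, G τ :=
    fun t ht => integrated hz (xi_tst h k) le_rfl ht.1 ht.2
  have hYA : ∀ τ, Y τ = A τ - A 0 := by
    intro τ
    simp only [hY, hA]
    rw [map_sub, hz.init]
  have hfin := calc_est (A := A) (b := b) (G := G) (κ := κ) (D := D) (B := M * N0) hκ0 hD0
    (by positivity) (hAc.mono hsub) (hbc.mono hsub) (hGc.mono hsub) hAd hint
    (by
      intro τ hτ
      have h1 := hEb τ hτ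
      have h2 : E τ = G τ - 5 * b τ - κ ^ 2 * (A τ - A 0) := by
        simp only [hE]
        rw [hYA]
      rw [← h2]
      have h3 : C0 + C1 * (k * τ) + C2 * (k * τ) ^ 2 =
          C0 + (C1 / sc) * (κ * τ) + (C2 / c) * (κ * τ) ^ 2 := by
        rw [mul_pow κ τ, hκ2, hκ]
        field_simp
      have h4 := exp_poly (x := κ * τ) (mul_nonneg hκ0.le hτ.1) hC00
        (div_nonneg hC10 hsc0.le) (div_nonneg hC20 hc.le)
      calc Real.exp (-(κ * τ)) * |E τ| ≤ Real.exp (-(κ * τ)) *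
            (C0 + C1 * (k * τ) + C2 * (k * τ) ^ 2) := by gcongr
        _ = Real.exp (-(κ * τ)) * (C0 + (C1 / sc) * (κ * τ) + (C2 / c) * (κ * τ) ^ 2) := by
            rw [h3]
        _ ≤ D * Real.exp (-(κ * τ / 2)) := h4)
    (by
      have h1 := hLb (vel (z 1))
      have h2 := hM1 1 ⟨zero_le_one, le_rfl⟩
      exact h1.trans (by gcongr))
    (by
      rw [← hYA]
      have h1 := hLb (pos (z 1) - pos z0)
      have h2 := hM2 1 ⟨zero_le_one, le_rfl⟩
      rw [mul_one] at h2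
      exact h1.trans (by gcongr))
  have hb0 : b 0 = L (vel z0) := by
    simp only [hb]
    rw [hz.init]
  rw [hb0] at hfin
  rw [abs_mul, abs_of_pos hk0, le_div_iff₀ hsc0]
  calc (k : ℝ) * |L (vel z0)| * sc = κ * |L (vel z0)| := by rw [hκ]; ring
    _ ≤ _ := hfin

end

end Pool.Agent.R212.CW
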