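import Mathlib
import Pool.Agent.R212.CW5

/-!
Bad initial data: Banach-Steinhaus and the perturbation onto the hypersurface.
-/

open MeasureTheory Set Filter Topology
open scoped ENNReal ContDiff RealInnerProductSpace

namespace Pool.Agent.R212.CW

/-- the cutoff centred at `4π` -/
noncomputable def zb : ContDiffBump (4 * Real.pi) :=
  ⟨Real.pi, 4, Real.pi_pos, by have := Real.pi_lt_d2; linarith⟩

/-- the cutoff function -/
noncomputable def zeta (x : ℝ) : ℝ := zb x

theorem zeta_tst : Tst zeta := ⟨zb.contDiff, zb.hasCompactSupport⟩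

theorem zeta_tsupport : tsupport zeta ⊆ Icc (4 * Real.pi - 4) (4 * Real.pi + 4) := by
  have h : tsupport zeta = Metric.closedBall (4 * Real.pi) 4 := zb.tsupport_eq
  rw [h, Real.closedBall_eq_Icc]

theorem zeta_one {x : ℝ} (hx : x ∈ Icc (3 * Real.pi) (5 * Real.pi)) : zeta x = 1 := by
  apply zb.one_of_mem_closedBall
  rw [Real.closedBall_eq_Icc]
  change x ∈ Icc (4 * Real.pi - Real.pi) (4 * Real.pi + Real.pi)
  exact ⟨by linarith [hx.1], by linarith [hx.2]⟩

theorem int_cos_sq (k : ℕ) (hk : 1 ≤ k) :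
    ∫ x in (4 * Real.pi)..(5 * Real.pi), Real.cos (k * x) ^ 2 = Real.pi / 2 := by
  have hk0 : (k : ℝ) ≠ 0 := by positivity
  have h : ∀ x ∈ uIcc (4 * Real.pi) (5 * Real.pi),
      HasDerivAt (fun x => x / 2 + Real.sin (2 * k * x) / (4 * k)) (Real.cos (k * x) ^ 2) x := by
    intro x _
    have h1 : HasDerivAt (fun x : ℝ => Real.sin (2 * k * x)) (Real.cos (2 * k * x) * (2 * k * 1)) x :=
      ((hasDerivAt_id x).const_mul (2 * (k : ℝ))).sin
    have h2 := ((hasDerivAt_id x).div_const 2).add (h1.div_const (4 * k))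
    have h3 : (1 / 2 : ℝ) + Real.cos (2 * k * x) * (2 * k * 1) / (4 * k) = Real.cos (k * x) ^ 2 := by
      rw [Real.cos_sq]
      rw [show 2 * (k : ℝ) * x = 2 * (k * x) by ring]
      field_simp
      ring
    rw [← h3]
    exact h2
  rw [intervalIntegral.integral_eq_sub_of_hasDerivAt h
    ((by fun_prop : Continuous fun x : ℝ => Real.cos (k * x) ^ 2).intervalIntegrable _ _)]
  have e1 : Real.sin (2 * k * (5 * Real.pi)) = 0 := by
    have := Real.sin_nat_mul_pi (10 * k)
    rw [← this]; congr 1; push_cast; ring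
  have e2 : Real.sin (2 * k * (4 * Real.pi)) = 0 := by
    have := Real.sin_nat_mul_pi (8 * k)
    rw [← this]; congr 1; push_cast; ring
  rw [e1, e2]
  ring

/-- the functionals are large -/
theorem ell_norm_ge (k : ℕ) (hk : 1 ≤ k) : 1 ≤ ‖ell (xi_tst zeta_tst (k : ℝ)).memLp‖ := by
  unfold ell
  rw [innerSL_apply_norm]
  set f : L2 := (xi_tst zeta_tst (k : ℝ)).memLp.toLp (xi zeta k) with hf
  have h1 : ‖f‖ ^ 2 = ∫ x, xi zeta k x ^ 2 := by
    rw [← real_inner_self_eq_norm_sq, inner_eq]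
    apply integral_congr_ae
    filter_upwards [(xi_tst zeta_tst (k : ℝ)).memLp.coeFn_toLp] with x hx
    rw [hx]; ring
  have hx := xi_tst zeta_tst (k : ℝ)
  have hint : Integrable fun x => xi zeta k x ^ 2 := by
    apply Continuous.integrable_of_hasCompactSupport
    · exact hx.smooth.continuous.pow 2
    · have : (fun x => xi zeta k x ^ 2) = fun x => xi zeta k x * xi zeta k x := by
        ext x; ring
      rw [this]
      exact hx.cpt.mul_right
  have h2 : ∫ x in Ioc (4 * Real.pi) (5 * Real.pi), Real.cos (k * x) ^ 2 ≤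
      ∫ x, xi zeta k x ^ 2 := by
    have h3 : ∫ x in Ioc (4 * Real.pi) (5 * Real.pi), Real.cos (k * x) ^ 2 =
        ∫ x in Ioc (4 * Real.pi) (5 * Real.pi), xi zeta k x ^ 2 := by
      apply setIntegral_congr_fun measurableSet_Ioc
      intro x hx
      simp only
      unfold xi
      rw [zeta_one ⟨by linarith [hx.1, Real.pi_pos], hx.2⟩, mul_one]
    rw [h3]
    exact setIntegral_le_integral hint (Filter.Eventually.of_forall fun x => sq_nonneg _)
  have h4 := int_cos_sq k hk
  rw [intervalIntegral.integral_of_le (by linarith [Real.pi_pos])] at h4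
  rw [h4, ← h1] at h2
  have h5 : 1 ≤ ‖f‖ ^ 2 := by have := Real.pi_gt_three; linarith
  exact (one_le_sq_iff₀ (norm_nonneg _)).1 h5

/-- there is an `L^2` function with unbounded weighted Fourier coefficients -/
theorem exists_bad : ∃ f : L2, ∀ C : ℝ, ∃ k : ℕ, 1 ≤ k ∧
    C < |(k : ℝ) * ell (xi_tst zeta_tst (k : ℝ)).memLp f| := by
  by_contra hcon
  push Not at hcon
  set T : ℕ → (L2 →L[ℝ] ℝ) := fun i =>
    (((i + 1 : ℕ) : ℝ)) • ell (xi_tst zeta_tst ((i + 1 : ℕ) : ℝ)).memLp with hT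
  have h1 : ∀ f : L2, ∃ C, ∀ i, ‖T i f‖ ≤ C := by
    intro f
    obtain ⟨C, hC⟩ := hcon f
    exact ⟨C, fun i => hC (i + 1) (by omega)⟩
  obtain ⟨C, hC⟩ := banach_steinhaus h1
  obtain ⟨n, hn⟩ := exists_nat_gt C
  have h2 := hC n
  have h3 : ((n + 1 : ℕ) : ℝ) ≤ ‖T n‖ := by
    rw [hT]
    simp only
    rw [norm_smul, Real.norm_eq_abs, abs_of_nonneg (by positivity)]
    have := ell_norm_ge (n + 1) (by omega)
    have h4 : (0 : ℝ) ≤ ((n + 1 : ℕ) : ℝ) := by positivity
    nlinarith
  push_cast at h3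
  linarith

theorem xi_zero {k : ℝ} {x : ℝ} (hx : x ≤ Real.pi) : xi zeta k x = 0 := by
  have h0 : zeta x = 0 := by
    apply image_eq_zero_of_notMem_tsupport
    intro h
    have h1 := (zeta_tsupport h).1
    have := Real.pi_gt_three
    linarith
  unfold xi
  rw [h0, mul_zero]

/-- an even bad velocity -/
theorem exists_bad_even : ∃ v : L2, IsEven v ∧ ∀ C : ℝ, ∃ k : ℕ, 1 ≤ k ∧
    C < |(k : ℝ) * ell (xi_tst zeta_tst (k : ℝ)).memLp v| := by
  obtain ⟨f, hf⟩ := exists_bad
  set F : ℝ → ℝ := (Ioi (0 : ℝ)).indicator f with hF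
  have hFm : MemLp F 2 volume := (Lp.memLp f).indicator measurableSet_Ioi
  have hFn : MemLp (fun x => F (-x)) 2 volume :=
    hFm.comp_measurePreserving (Measure.measurePreserving_neg (volume : Measure ℝ))
  have hm : MemLp (fun x => F x + F (-x)) 2 volume := hFm.add hFn
  refine ⟨hm.toLp _, ?_, fun C => ?_⟩
  · have h := hm.coeFn_toLp
    filter_upwards [h, neg_ae h] with x h1 h2
    unfold ev
    rw [h1, h2, neg_neg]; ring
  · obtain ⟨k, hk, hk2⟩ := hf C
    refine ⟨k, hk, ?_⟩
    have h1 : ell (xi_tst zeta_tst (k : ℝ)).memLp (hm.toLp _) =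
        ell (xi_tst zeta_tst (k : ℝ)).memLp f := by
      rw [ell_apply, ell_apply]
      apply integral_congr_ae
      filter_upwards [hm.coeFn_toLp] with x hx
      rw [hx]
      by_cases h0 : x ≤ Real.pi
      · rw [xi_zero h0, mul_zero, mul_zero]
      · have hpos : 0 < x := by have := Real.pi_pos; push Not at h0; linarith
        rw [hF, indicator_of_mem (show x ∈ Ioi 0 from hpos),
          indicator_of_notMem (show -x ∉ Ioi (0 : ℝ) from fun h => by
            have : (0 : ℝ) < -x := h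
            linarith), add_zero]
    rw [h1]
    exact hk2

/-- the even bump `β`, equal to `1` on the support of `ζ` -/
noncomputable def bb0 : ContDiffBump (4 * Real.pi) := ⟨4, 5, by norm_num, by norm_num⟩

/-- the even bump -/
noncomputable def beta (x : ℝ) : ℝ := bb0 x + bb0 (-x)

theorem beta_smooth : ContDiff ℝ ∞ beta := by
  unfold beta
  exact bb0.contDiff.add (bb0.contDiff.comp contDiff_neg)

theorem beta_cpt : HasCompactSupport beta := by
  unfold beta
  apply HasCompactSupport.add bb0.hasCompactSupport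
  exact bb0.hasCompactSupport.comp_homeomorph (Homeomorph.neg ℝ)

theorem beta_even (x : ℝ) : beta (-x) = beta x := by
  unfold beta; rw [neg_neg]; ring

theorem beta_one {x : ℝ} (hx : x ∈ tsupport zeta) : beta x = 1 := by
  have h1 := zeta_tsupport hx
  have hp := Real.pi_gt_three
  unfold beta
  rw [bb0.one_of_mem_closedBall (by
    rw [Real.closedBall_eq_Icc]
    exact ⟨h1.1, h1.2⟩), bb0.zero_of_le_dist (by
    rw [Real.dist_eq]
    change (5 : ℝ) ≤ _
    rw [abs_of_nonpos (by linarith [h1.1])]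
    linarith [h1.1])]
  ring

/-- perturbation onto the hypersurface -/
theorem onto_M {M : Set XSp} (hM : gX ∈ M) (hT : TransversalAt M gX ggX) {δ : ℝ} (hδ : 0 < δ) :
    ∃ r > 0, ∀ h : XSp, ‖h‖ < r → ∃ s : ℝ, gX + h + s • ggX ∈ M ∧ ‖h + s • ggX‖ < δ := by
  obtain ⟨F, N, ⟨hN, hgN, hF, _, hMN⟩, htr⟩ := hT
  have hF0 : F gX = 0 := by
    have : gX ∈ M ∩ N := ⟨hM, hgN⟩
    rw [hMN] at this
    exact this.2
  have hFc : ContinuousOn F N := hF.continuousOn
  have hFd : DifferentiableAt ℝ F gX := (hF.differentiableOn (by simp)).differentiableAt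
    (hN.mem_nhds hgN)
  set a := fderiv ℝ F gX ggX with ha
  obtain ⟨r0, hr0, hball⟩ := Metric.isOpen_iff.1 hN gX hgN
  set Q : ℝ := ‖(ggX : XSp)‖ + 1 with hQ
  have hQ0 : 0 < Q := by positivity
  -- the line
  have hline : HasDerivAt (fun s : ℝ => F (gX + s • ggX)) a 0 := by
    have h1 : HasDerivAt (fun s : ℝ => gX + s • (ggX : XSp)) ggX 0 := by
      have := ((hasDerivAt_id (0 : ℝ)).smul_const (ggX : XSp)).const_add gX
      simpa using this
    have h2 : HasFDerivAt F (fderiv ℝ F gX) (gX + (0 : ℝ) • ggX) := by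
      rw [zero_smul, add_zero]; exact hFd.hasFDerivAt
    exact h2.comp_hasDerivAt 0 h1
  -- opposite signs
  have hsign : ∀ᶠ s : ℝ in 𝓝[>] 0, 0 < a * F (gX + s • ggX) ∧ a * F (gX + (-s) • ggX) < 0 := by
    have ha2 : 0 < a * a := mul_self_pos.2 htr
    have h1 := hasDerivAt_iff_tendsto_slope.1 hline
    have h2 : Tendsto (fun s : ℝ => a * slope (fun s : ℝ => F (gX + s • ggX)) 0 s) (𝓝[≠] 0)
        (𝓝 (a * a)) := h1.const_mul a
    have h3 := h2.eventually (lt_mem_nhds ha2)
    have h4 : ∀ᶠ s : ℝ in 𝓝[>] 0, 0 < a * slope (fun s : ℝ => F (gX + s • ggX)) 0 s :=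
      h3.filter_mono (nhdsWithin_mono 0 fun x hx => ne_of_gt hx)
    have hneg : Tendsto (fun s : ℝ => -s) (𝓝[>] 0) (𝓝[≠] 0) := by
      apply tendsto_nhdsWithin_of_tendsto_nhds_of_eventually_within
      · have : Tendsto (fun s : ℝ => -s) (𝓝 0) (𝓝 (-0)) := continuous_neg.tendsto 0
        rw [neg_zero] at this
        exact this.mono_left nhdsWithin_le_nhds
      · filter_upwards [self_mem_nhdsWithin] with s hs
        have : 0 < s := hs
        simp only [mem_compl_iff, mem_singleton_iff]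
        linarith
    have h5 := hneg.eventually h3
    filter_upwards [h4, h5, self_mem_nhdsWithin] with s hs1 hs2 hs
    have hs : 0 < s := hs
    rw [slope_def_field, zero_smul, add_zero, hF0, sub_zero, sub_zero] at hs1 hs2
    constructor
    · have : a * F (gX + s • ggX) = (a * (F (gX + s • ggX) / s)) * s := by field_simp
      rw [this]; positivity
    · have : a * F (gX + (-s) • ggX) = (a * (F (gX + (-s) • ggX) / (-s))) * (-s) := by
        field_simp
      rw [this]
      nlinarith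
  have hsmall : ∀ᶠ s : ℝ in 𝓝[>] 0, s < min r0 δ / (2 * Q) := by
    have : 0 < min r0 δ / (2 * Q) := by positivity
    exact nhdsWithin_le_nhds (gt_mem_nhds this)
  obtain ⟨s1, ⟨hs1, hs2⟩, hs3, hs4⟩ := (hsign.and (hsmall.and self_mem_nhdsWithin)).exists
  have hs4 : 0 < s1 := hs4
  have hnormg : ∀ s : ℝ, |s| ≤ s1 → ‖s • (ggX : XSp)‖ < min r0 δ / 2 := by
    intro s hs
    rw [norm_smul, Real.norm_eq_abs]
    have h1 : |s| * ‖(ggX : XSp)‖ ≤ s1 * Q := by
      apply mul_le_mul hs _ (norm_nonneg _) hs4.le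
      rw [hQ]; linarith
    have h2 : s1 * Q < min r0 δ / (2 * Q) * Q := by gcongr
    have h3 : min r0 δ / (2 * Q) * Q = min r0 δ / 2 := by field_simp
    linarith
  have hcN : ∀ h : XSp, ‖h‖ < min r0 δ / 2 → ∀ s : ℝ, |s| ≤ s1 → gX + h + s • ggX ∈ N := by
    intro h hh s hs
    apply hball
    rw [mem_ball_iff_norm]
    have h1 := hnormg s hs
    have h2 : ‖gX + h + s • (ggX : XSp) - gX‖ ≤ ‖h‖ + ‖s • (ggX : XSp)‖ := by
      rw [show gX + h + s • (ggX : XSp) - gX = h + s • ggX by abel]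
      exact norm_add_le _ _
    have h3 : min r0 δ ≤ r0 := min_le_left _ _
    linarith
  -- continuity at the two end points
  have hc : ∀ s : ℝ, |s| ≤ s1 → ContinuousAt (fun h : XSp => a * F (gX + h + s • ggX)) 0 := by
    intro s hs
    have h1 : ContinuousAt F (gX + (0 : XSp) + s • ggX) :=
      hFc.continuousAt (hN.mem_nhds (hcN 0 (by rw [norm_zero]; positivity) s hs))
    have h2 : ContinuousAt (fun h : XSp => gX + h + s • ggX) 0 := by fun_prop
    exact continuousAt_const.mul (ContinuousAt.comp (f := fun h : XSp => gX + h + s • ggX) h1 h2)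
  have hp : ∀ᶠ h : XSp in 𝓝 0, 0 < a * F (gX + h + s1 • ggX) := by
    apply (hc s1 (by rw [abs_of_pos hs4])).eventually (lt_mem_nhds _)
    simpa using hs1
  have hm : ∀ᶠ h : XSp in 𝓝 0, a * F (gX + h + (-s1) • ggX) < 0 := by
    apply (hc (-s1) (by rw [abs_neg, abs_of_pos hs4])).eventually (gt_mem_nhds _)
    simpa using hs2
  obtain ⟨r1, hr1, hr1'⟩ := Metric.eventually_nhds_iff.1 (hp.and hm)
  refine ⟨min r1 (min r0 δ / 2), by positivity, fun h hh => ?_⟩
  have hh1 : ‖h‖ < r1 := hh.trans_le (min_le_left _ _)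
  have hh2 : ‖h‖ < min r0 δ / 2 := hh.trans_le (min_le_right _ _)
  obtain ⟨hp1, hm1⟩ := hr1' (by rw [dist_zero_right]; exact hh1)
  have hcont : ContinuousOn (fun s : ℝ => a * F (gX + h + s • ggX)) (Icc (-s1) s1) := by
    apply continuousOn_const.mul
    apply hFc.comp (by fun_prop)
    intro s hs
    exact hcN h hh2 s (abs_le.2 hs)
  have hivt := intermediate_value_Icc (by linarith : -s1 ≤ s1) hcont
  obtain ⟨s, hs, hs0⟩ := hivt ⟨hm1.le, hp1.le⟩
  simp only at hs0
  have hFs : F (gX + h + s • ggX) = 0 := by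
    rcases mul_eq_zero.1 hs0 with h1 | h1
    · exact absurd h1 htr
    · exact h1
  refine ⟨s, ?_, ?_⟩
  · have : gX + h + s • ggX ∈ M ∩ N := by
      rw [hMN]
      exact ⟨hcN h hh2 s (abs_le.2 hs), hFs⟩
    exact this.1
  · have h1 := hnormg s (abs_le.2 hs)
    have h3 : min r0 δ ≤ δ := min_le_right _ _
    have := norm_add_le h (s • (ggX : XSp))
    linarith

end Pool.Agent.R212.CW
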