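import Mathlib
import Pool.Agent.R212.CW6

/-!
The main theorem: every hypersurface contains data arbitrarily close to `(g,0)` without any weak
solution.
-/

open MeasureTheory Set Filter Topology
open scoped ENNReal ContDiff RealInnerProductSpace

namespace Pool.Agent.R212.CW

theorem pos_add (a b : XSp) : pos (a + b) = pos a + pos b := rfl
theorem pos_smul (c : ℝ) (a : XSp) : pos (c • a) = c • pos a := rfl
theorem vel_add (a b : XSp) : vel (a + b) = vel a + vel b := rfl
theorem vel_smul (c : ℝ) (a : XSp) : vel (c • a) = c • vel a := rfl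

theorem no_solution (M : Set XSp) (hM : gX ∈ M) (hT : TransversalAt M gX ggX) {δ : ℝ}
    (hδ : 0 < δ) : ∃ z0 ∈ M, ‖z0 - gX‖ < δ ∧ ∀ z : ℝ → XSp, ¬ IsWeakSol z z0 := by
  obtain ⟨r, hr, hr2⟩ := onto_M hM hT hδ
  obtain ⟨v, hv, hbad⟩ := exists_bad_even
  set bX : XSp := smX beta beta_smooth beta_cpt beta_even with hbX
  set vX : XSp := velX v hv with hvX
  -- the perturbation
  obtain ⟨c, hc, hcb⟩ : ∃ c : ℝ, 0 < c ∧ ‖c • bX‖ < r / 2 := by
    refine ⟨r / 2 / (‖bX‖ + 1), by positivity, ?_⟩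
    rw [norm_smul, Real.norm_eq_abs, abs_of_pos (by positivity)]
    have h1 : r / 2 / (‖bX‖ + 1) * ‖bX‖ < r / 2 / (‖bX‖ + 1) * (‖bX‖ + 1) := by
      gcongr; linarith
    have h2 : r / 2 / (‖bX‖ + 1) * (‖bX‖ + 1) = r / 2 := by field_simp
    linarith
  obtain ⟨e, he, hee⟩ : ∃ e : ℝ, 0 < e ∧ ‖e • vX‖ < r / 2 := by
    refine ⟨r / 2 / (‖vX‖ + 1), by positivity, ?_⟩
    rw [norm_smul, Real.norm_eq_abs, abs_of_pos (by positivity)]
    have h1 : r / 2 / (‖vX‖ + 1) * ‖vX‖ < r / 2 / (‖vX‖ + 1) * (‖vX‖ + 1) := by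
      gcongr; linarith
    have h2 : r / 2 / (‖vX‖ + 1) * (‖vX‖ + 1) = r / 2 := by field_simp
    linarith
  set h : XSp := -(c • bX) + e • vX with hh
  obtain ⟨s, hsM, hsn⟩ := hr2 h (by
    refine (norm_add_le _ _).trans_lt ?_
    rw [norm_neg]; linarith)
  refine ⟨gX + h + s • ggX, hsM, ?_, ?_⟩
  · rwa [show gX + h + s • ggX - gX = h + s • (ggX : XSp) by abel]
  intro z hz
  set z0 : XSp := gX + h + s • ggX with hz0
  have hpos : pos z0 = gL + (-(c • pos bX) + e • (0 : L2)) + s • gL := rfl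
  have hvel : vel z0 = 0 + (-(c • (0 : L2)) + e • v) + s • gL := rfl
  have hpb : pos bX = (beta_smooth.continuous.memLp_of_hasCompactSupport (p := 2) (μ := volume)
    beta_cpt).toLp beta := rfl
  have hw0 : ∀ᵐ x, x ∈ tsupport zeta → pos z0 x = -c := by
    have hpos2 : pos z0 = (gL + -(c • pos bX)) + s • gL := by
      rw [hpos, smul_zero, add_zero]
    rw [hpos2]
    have hβ := (beta_smooth.continuous.memLp_of_hasCompactSupport (p := 2) (μ := volume)
      beta_cpt).coeFn_toLp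
    rw [← hpb] at hβ
    filter_upwards [Lp.coeFn_add (gL + -(c • pos bX)) (s • gL), Lp.coeFn_add gL (-(c • pos bX)),
      Lp.coeFn_neg (c • pos bX), Lp.coeFn_smul c (pos bX), Lp.coeFn_smul s gL, gL_ae, hβ]
      with x h1 h2 h3 h4 h5 h6 h7 hx
    have hgx : gfun x = 0 := by
      unfold gfun
      rw [if_neg]
      have h8 := (zeta_tsupport hx).1
      have h9 := Real.pi_gt_three
      rw [abs_of_pos (by linarith)]
      linarith
    rw [h1, Pi.add_apply, h2, Pi.add_apply, h3, Pi.neg_apply, h4, Pi.smul_apply, h5,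
      Pi.smul_apply, h6, h7, hgx, beta_one hx]
    simp
  obtain ⟨C, hC⟩ := key hz zeta_tst hc hw0
  have hell : ∀ k : ℕ, ell (xi_tst zeta_tst (k : ℝ)).memLp (vel z0) =
      e * ell (xi_tst zeta_tst (k : ℝ)).memLp v := by
    intro k
    have h0 : ell (xi_tst zeta_tst (k : ℝ)).memLp gL = 0 := by
      rw [ell_apply]
      rw [integral_eq_zero_of_ae]
      filter_upwards [gL_ae] with x hx
      rw [hx, Pi.zero_apply]
      by_cases h1 : x ≤ Real.pi
      · rw [xi_zero h1, mul_zero]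
      · have : gfun x = 0 := by
          unfold gfun
          rw [if_neg]
          push Not at h1 ⊢
          exact h1.trans_le (le_abs_self x)
        rw [this, zero_mul]
    rw [hvel]
    simp only [map_add, map_smul, smul_zero, neg_zero, zero_add, h0, mul_zero, add_zero,
      smul_eq_mul]
  obtain ⟨k, hk, hk2⟩ := hbad (C / e)
  have h1 := hC k hk
  rw [hell k] at h1
  have h2 : (k : ℝ) * (e * ell (xi_tst zeta_tst (k : ℝ)).memLp v) =
      e * ((k : ℝ) * ell (xi_tst zeta_tst (k : ℝ)).memLp v) := by ring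
  rw [h2, abs_mul, abs_of_pos he] at h1
  rw [div_lt_iff₀ he] at hk2
  linarith

end Pool.Agent.R212.CW
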