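import Pool.Agent.R212.Fg3

/-! # Polar coordinates -/

open MeasureTheory Filter Topology Set Metric
open scoped ENNReal

namespace Pool.Agent.R212.FGrad

theorem finrank_E (n : ℕ) : Module.finrank ℝ (E n) = n := by simp [E]

/-- polar coordinates for integrable functions -/
theorem polar_integral {n : ℕ} [Nontrivial (E n)] {f : E n → ℝ} (hf : Integrable f) :
    ∫ x, f x = ∫ θ : sphere (0 : E n) 1, (∫ r in Ioi (0:ℝ), r ^ (n - 1) * f (r • (θ : E n)))
      ∂(volume : Measure (E n)).toSphere := by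
  have hmp := (volume : Measure (E n)).measurePreserving_homeomorphUnitSphereProd
  have hsymm := hmp.symm (homeomorphUnitSphereProd (E n)).toMeasurableEquiv
  have hemb := (homeomorphUnitSphereProd (E n)).toMeasurableEquiv.symm.measurableEmbedding
  have h0 : ∫ x, f x = ∫ x : ({(0 : E n)}ᶜ : Set (E n)), f x.1
      ∂((volume : Measure (E n)).comap (Subtype.val : ({(0 : E n)}ᶜ : Set (E n)) → E n)) := by
    rw [integral_subtype_comap (measurableSet_singleton _).compl f, restrict_compl_singleton]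
  have hfi : Integrable (fun x : ({(0 : E n)}ᶜ : Set (E n)) => f x.1)
      ((volume : Measure (E n)).comap (Subtype.val : ({(0 : E n)}ᶜ : Set (E n)) → E n)) := by
    have : IntegrableOn f ({(0 : E n)}ᶜ) := hf.integrableOn
    rwa [integrableOn_iff_comap_subtypeVal (measurableSet_singleton _).compl] at this
  have h1 := hsymm.integral_comp hemb (fun x : ({(0 : E n)}ᶜ : Set (E n)) => f x.1)
  have h2 := (hsymm.integrable_comp_emb hemb
    (g := fun x : ({(0 : E n)}ᶜ : Set (E n)) => f x.1)).2 hfi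
  rw [h0, ← h1]
  have h3 := integral_prod _ h2
  refine h3.trans ?_
  congr 1
  funext θ
  have h4 : ∀ r : Ioi (0:ℝ), ((fun x : ({(0 : E n)}ᶜ : Set (E n)) => f x.1) ∘
      ⇑(homeomorphUnitSphereProd (E n)).toMeasurableEquiv.symm) (θ, r) = f ((r : ℝ) • (θ : E n)) := by
    intro r
    rfl
  simp only [h4]
  rw [finrank_E]
  unfold Measure.volumeIoiPow
  have h5 := integral_withDensity_eq_integral_toReal_smul₀ (μ := (volume : Measure ℝ).comap
      (Subtype.val : Ioi (0:ℝ) → ℝ)) (f := fun r : Ioi (0:ℝ) => ENNReal.ofReal (r.1 ^ (n - 1)))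
      (by fun_prop) (by filter_upwards with r; exact ENNReal.ofReal_lt_top)
      (fun r : Ioi (0:ℝ) => f ((r : ℝ) • (θ : E n)))
  rw [h5, ← integral_subtype_comap measurableSet_Ioi
    (fun r : ℝ => r ^ (n - 1) * f (r • (θ : E n)))]
  congr 1
  funext r
  rw [ENNReal.toReal_ofReal (pow_nonneg (le_of_lt r.2) _), smul_eq_mul]

/-- integrability of radially bounded functions -/
theorem integrable_of_radial {n : ℕ} [Nontrivial (E n)] {f : E n → ℝ} (hfm : AEStronglyMeasurable f)
    (g : ℝ → ℝ) (hg : IntegrableOn (fun r : ℝ => r ^ (n - 1) * g r) (Ioi 0))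
    (hb : ∀ x : E n, x ≠ 0 → |f x| ≤ g ‖x‖) : Integrable f := by
  have h1 : Integrable (fun x : E n => g ‖x‖) := by
    rw [integrable_fun_norm_addHaar, finrank_E]
    exact hg
  refine Integrable.mono' h1 hfm ?_
  have h2 : ∀ᵐ x : E n, x ≠ 0 := by
    rw [ae_iff]
    simp
  filter_upwards [h2] with x hx
  exact hb x hx

/-- the weight `r^{n-1} r^{-(n+2s)} = r^{-1-2s}` -/
theorem pow_mul_rpow {n : ℕ} (hn : 0 < n) (s : ℝ) {r : ℝ} (hr : 0 < r) :
    r ^ (n - 1) / r ^ ((n : ℝ) + 2 * s) = r ^ (-1 - 2 * s) := by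
  rw [← Real.rpow_natCast r (n - 1), ← Real.rpow_sub hr]
  congr 1
  rw [Nat.cast_sub hn]
  push_cast
  ring

theorem integrable_min_radial {n : ℕ} (hn : 0 < n) [Nontrivial (E n)] {s : ℝ} (hs : 0 < s)
    (hs1 : s < 1) {f : E n → ℝ} (hfm : AEStronglyMeasurable f) {C : ℝ}
    (hb : ∀ x : E n, |f x| ≤ C * min 1 (‖x‖ ^ 2)) :
    Integrable (fun x : E n => f x / ‖x‖ ^ ((n : ℝ) + 2 * s)) := by
  refine integrable_of_radial ?_ (fun r => C * min 1 (r ^ 2) / r ^ ((n : ℝ) + 2 * s)) ?_ ?_
  · have : Measurable (fun x : E n => ‖x‖ ^ ((n : ℝ) + 2 * s)) := by fun_prop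
    exact (hfm.aemeasurable.div this.aemeasurable).aestronglyMeasurable
  · have h1 := (integrableOn_min hs hs1).const_mul C
    apply IntegrableOn.congr_fun h1 _ measurableSet_Ioi
    intro r hr
    simp only
    rw [← pow_mul_rpow hn s hr]
    ring
  · intro x hx
    have hx' : 0 < ‖x‖ := norm_pos_iff.2 hx
    rw [abs_div, abs_of_pos (Real.rpow_pos_of_pos hx' _)]
    gcongr
    exact hb x

theorem integrable_far_radial {n : ℕ} (hn : 0 < n) [Nontrivial (E n)] {s : ℝ} (hs : 0 < s)
    {f : E n → ℝ} (hfm : AEStronglyMeasurable f) {C : ℝ} (hb : ∀ x : E n, |f x| ≤ C)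
    {ε : ℝ} (hε : 0 < ε) :
    IntegrableOn (fun x : E n => f x / ‖x‖ ^ ((n : ℝ) + 2 * s)) {x | ε < ‖x‖} := by
  have hm : MeasurableSet {x : E n | ε < ‖x‖} := measurableSet_lt measurable_const measurable_norm
  rw [← integrable_indicator_iff hm]
  refine integrable_of_radial ?_
    (fun r => (Ioi ε).indicator (fun r => C / r ^ ((n : ℝ) + 2 * s)) r) ?_ ?_
  · apply AEStronglyMeasurable.indicator _ hm
    have : Measurable (fun x : E n => ‖x‖ ^ ((n : ℝ) + 2 * s)) := by fun_prop
    exact (hfm.aemeasurable.div this.aemeasurable).aestronglyMeasurable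
  · have h1 : IntegrableOn (fun r : ℝ => C * r ^ (-1 - 2 * s)) (Ioi ε) :=
      (integrableOn_Ioi_rpow_of_lt (by linarith) hε).const_mul C
    have h2 : IntegrableOn ((Ioi ε).indicator (fun r : ℝ => C * r ^ (-1 - 2 * s))) (Ioi 0) := by
      rw [← integrable_indicator_iff measurableSet_Ioi] at h1
      exact h1.integrableOn
    apply IntegrableOn.congr_fun h2 _ measurableSet_Ioi
    intro r hr
    simp only
    by_cases h3 : r ∈ Ioi ε
    · rw [indicator_of_mem h3, indicator_of_mem h3, ← pow_mul_rpow hn s hr]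
      ring
    · rw [indicator_of_notMem h3, indicator_of_notMem h3, mul_zero]
  · intro x hx
    by_cases h3 : ε < ‖x‖
    · have h4 : x ∈ {x : E n | ε < ‖x‖} := h3
      have h5 : ‖x‖ ∈ Ioi ε := h3
      rw [indicator_of_mem h4, indicator_of_mem h5]
      have hx' : 0 < ‖x‖ := norm_pos_iff.2 hx
      rw [abs_div, abs_of_pos (Real.rpow_pos_of_pos hx' _)]
      gcongr
      exact hb x
    · have h4 : x ∉ {x : E n | ε < ‖x‖} := h3
      have h5 : ‖x‖ ∉ Ioi ε := h3
      rw [indicator_of_notMem h4, indicator_of_notMem h5, abs_zero]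

/-- quadratic moments of the ball are rotation invariant -/
noncomputable def Gm {n : ℕ} (x : E n) : ℝ :=
  ∫ y in ball (0 : E n) 1, (inner ℝ x y) ^ 2

theorem Gm_isometry {n : ℕ} (R : E n ≃ₗᵢ[ℝ] E n) (x : E n) : Gm (R x) = Gm x := by
  unfold Gm
  have h1 : ∀ y : E n, inner ℝ (R x) y = inner ℝ x (R.symm y) := by
    intro y
    rw [← R.inner_map_map x (R.symm y), LinearIsometryEquiv.apply_symm_apply]
  have h2 : MeasurePreserving (R.symm : E n → E n) := R.symm.measurePreserving
  have h3 : (R.symm : E n → E n) ⁻¹' ball 0 1 = ball 0 1 := by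
    ext y
    simp
  have h4 := h2.setIntegral_preimage_emb R.symm.toHomeomorph.measurableEmbedding
    (fun z => (inner ℝ x z) ^ 2) (ball 0 1)
  rw [h3] at h4
  simp only [h1]
  exact h4

theorem Gm_eq_of_norm {n : ℕ} {x y : E n} (h : ‖x‖ = ‖y‖) : Gm x = Gm y := by
  rw [← Submodule.reflection_sub h, Gm_isometry]

theorem Gm_smul {n : ℕ} (c : ℝ) (x : E n) : Gm (c • x) = c ^ 2 * Gm x := by
  unfold Gm
  rw [← integral_const_mul]
  congr 1
  funext y
  rw [inner_smul_left]
  simp only [conj_trivial]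
  ring

theorem Gm_eq {n : ℕ} {e : E n} (he : ‖e‖ = 1) (x : E n) : Gm x = ‖x‖ ^ 2 * Gm e := by
  rw [← Gm_smul]
  apply Gm_eq_of_norm
  rw [norm_smul, he, norm_norm, mul_one]

theorem integrable_Gm {n : ℕ} (x : E n) :
    IntegrableOn (fun y => (inner ℝ x y) ^ 2) (ball (0 : E n) 1) := by
  have : Continuous fun y : E n => (inner ℝ x y) ^ 2 := by fun_prop
  exact (this.continuousOn.integrableOn_compact (isCompact_closedBall 0 1)).mono_set
    ball_subset_closedBall

theorem Gm_pos {n : ℕ} {e : E n} (he : ‖e‖ = 1) : 0 < Gm e := by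
  unfold Gm
  rw [setIntegral_pos_iff_support_of_nonneg_ae]
  · have hc : Continuous fun y : E n => (inner ℝ e y) ^ 2 := by fun_prop
    apply (hc.isOpen_support.inter isOpen_ball).measure_pos volume
    refine ⟨(1 / 2 : ℝ) • e, ?_, ?_⟩
    · rw [Function.mem_support, inner_smul_right, real_inner_self_eq_norm_sq, he]
      norm_num
    · rw [mem_ball_zero_iff, norm_smul, he]
      norm_num
  · filter_upwards with y
    positivity
  · exact integrable_Gm e

/-- quadratic moments of the sphere -/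
theorem sphere_quadratic {n : ℕ} (hn : 0 < n) [Nontrivial (E n)] (x : E n) :
    ∫ θ : sphere (0 : E n) 1, (inner ℝ x (θ : E n)) ^ 2 ∂(volume : Measure (E n)).toSphere
      = ((n : ℝ) + 2) * Gm x := by
  have h1 : Integrable ((ball (0 : E n) 1).indicator fun y => (inner ℝ x y) ^ 2) := by
    rw [integrable_indicator_iff measurableSet_ball]
    exact integrable_Gm x
  have h2 := polar_integral h1
  rw [integral_indicator measurableSet_ball] at h2
  unfold Gm
  rw [h2, ← integral_const_mul]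
  congr 1
  funext θ
  have h3 : ∀ r : ℝ, r ∈ Ioi (0:ℝ) → r ^ (n - 1) *
      (ball (0 : E n) 1).indicator (fun y => (inner ℝ x y) ^ 2) (r • (θ : E n))
      = (Ioo (0:ℝ) 1).indicator (fun r => r ^ (n + 1) * (inner ℝ x (θ : E n)) ^ 2) r := by
    intro r hr
    have hr' : 0 < r := hr
    have hθ : ‖(θ : E n)‖ = 1 := by simp
    by_cases h4 : r < 1
    · have h5 : r • (θ : E n) ∈ ball (0 : E n) 1 := by
        rw [mem_ball_zero_iff, norm_smul, hθ, Real.norm_eq_abs, abs_of_pos hr', mul_one]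
        exact h4
      rw [indicator_of_mem h5, indicator_of_mem (show r ∈ Ioo (0:ℝ) 1 from ⟨hr', h4⟩),
        inner_smul_right, mul_pow, ← mul_assoc, ← pow_add]
      congr 2
      omega
    · have h5 : r • (θ : E n) ∉ ball (0 : E n) 1 := by
        rw [mem_ball_zero_iff, norm_smul, hθ, Real.norm_eq_abs, abs_of_pos hr', mul_one]
        exact h4
      rw [indicator_of_notMem h5, indicator_of_notMem (fun h : r ∈ Ioo (0:ℝ) 1 => h4 h.2),
        mul_zero]
  rw [setIntegral_congr_fun measurableSet_Ioi h3, setIntegral_indicator measurableSet_Ioo]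
  have h6 : Ioi (0:ℝ) ∩ Ioo 0 1 = Ioo 0 1 := by
    ext r
    simp only [mem_inter_iff, mem_Ioi, mem_Ioo]
    tauto
  rw [h6, integral_mul_const, ← integral_Ioc_eq_integral_Ioo,
    ← intervalIntegral.integral_of_le zero_le_one, integral_pow]
  have h7 : ((n : ℝ) + 2) ≠ 0 := by positivity
  rw [one_pow, zero_pow (by omega), sub_zero]
  push_cast
  have h8 : ((n : ℝ) + 1 + 1) = n + 2 := by ring
  rw [h8]
  field_simp

end Pool.Agent.R212.FGrad
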