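import Pool.Agent.R212.FQDef
import Pool.Agent.R212.Fg4

set_option autoImplicit false
set_option maxHeartbeats 4000000

open MeasureTheory Filter Topology Set Metric
open Pool.Agent.R212.FGrad (integrable_min_radial integrable_far_radial)

namespace Pool.Agent.R212.FQ

variable {n : ℕ} {s : ℝ}

/-- smooth compactly supported functions -/
structure TF (η : E n → ℝ) : Prop where
  cd : ContDiff ℝ ((⊤ : ℕ∞) : WithTop ℕ∞) η
  cs : HasCompactSupport η

/-- truncated operator -/
noncomputable def T (s τ : ℝ) (u : E n → ℝ) (x : E n) : ℝ :=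
  ∫ z in {z : E n | τ < ‖z‖}, (u x - u (x - z)) / ‖z‖ ^ ((n : ℝ) + 2 * s)

/-- the operator on smooth functions -/
noncomputable def Lop (s : ℝ) (u : E n → ℝ) (x : E n) : ℝ :=
  (∫ z : E n, (2 * u x - u (x + z) - u (x - z)) / ‖z‖ ^ ((n : ℝ) + 2 * s)) / 2

theorem nontriv (hn : 0 < n) : Nontrivial (E n) := by
  have : Nonempty (Fin n) := ⟨⟨0, hn⟩⟩
  infer_instance

theorem measSet (τ : ℝ) : MeasurableSet {z : E n | τ < ‖z‖} :=
  measurableSet_lt measurable_const measurable_norm

theorem T_int (hn : 0 < n) (hs : 0 < s) {τ : ℝ} (hτ : 0 < τ) {u : E n → ℝ} (hu : Continuous u)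
    {B : ℝ} (hB : ∀ y, |u y| ≤ B) (x : E n) :
    IntegrableOn (fun z => (u x - u (x - z)) / ‖z‖ ^ ((n : ℝ) + 2 * s)) {z : E n | τ < ‖z‖} := by
  have := nontriv hn
  apply integrable_far_radial hn hs _ (C := 2 * B) _ hτ
  · apply Continuous.aestronglyMeasurable
    fun_prop
  · intro h
    have a1 := hB x
    have a2 := hB (x - h)
    rw [abs_le] at a1 a2 ⊢
    constructor <;> linarith [a1.1, a1.2, a2.1, a2.2]

theorem T_int' (hn : 0 < n) (hs : 0 < s) {τ : ℝ} (hτ : 0 < τ) {u : E n → ℝ} (hu : Continuous u)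
    {B : ℝ} (hB : ∀ y, |u y| ≤ B) (x : E n) :
    IntegrableOn (fun z => (u x - u (x + z)) / ‖z‖ ^ ((n : ℝ) + 2 * s)) {z : E n | τ < ‖z‖} := by
  have := nontriv hn
  apply integrable_far_radial hn hs _ (C := 2 * B) _ hτ
  · apply Continuous.aestronglyMeasurable
    fun_prop
  · intro h
    have a1 := hB x
    have a2 := hB (x + h)
    rw [abs_le] at a1 a2 ⊢
    constructor <;> linarith [a1.1, a1.2, a2.1, a2.2]

theorem neg_set (τ : ℝ) (f : E n → ℝ) :
    ∫ z in {z : E n | τ < ‖z‖}, f (-z) = ∫ z in {z : E n | τ < ‖z‖}, f z := by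
  rw [← integral_indicator (measSet τ), ← integral_indicator (measSet τ),
    ← integral_neg_eq_self (fun z => ({z : E n | τ < ‖z‖}).indicator f z)]
  congr 1
  funext z
  by_cases hz : τ < ‖z‖
  · rw [indicator_of_mem (show z ∈ {z : E n | τ < ‖z‖} from hz),
      indicator_of_mem (show -z ∈ {z : E n | τ < ‖z‖} by
        show τ < ‖-z‖
        rwa [norm_neg])]
  · rw [indicator_of_notMem (show z ∉ {z : E n | τ < ‖z‖} from hz),
      indicator_of_notMem (show -z ∉ {z : E n | τ < ‖z‖} by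
        show ¬ τ < ‖-z‖
        rwa [norm_neg])]

/-- symmetrised form of the truncated operator -/
theorem T_sym (hn : 0 < n) (hs : 0 < s) {τ : ℝ} (hτ : 0 < τ) {u : E n → ℝ} (hu : Continuous u)
    {B : ℝ} (hB : ∀ y, |u y| ≤ B) (x : E n) :
    T s τ u x = (∫ z in {z : E n | τ < ‖z‖},
      (2 * u x - u (x + z) - u (x - z)) / ‖z‖ ^ ((n : ℝ) + 2 * s)) / 2 := by
  have h1 := neg_set τ (fun z => (u x - u (x - z)) / ‖z‖ ^ ((n : ℝ) + 2 * s))
  simp only [norm_neg, sub_neg_eq_add] at h1
  have h2 : ∫ z in {z : E n | τ < ‖z‖},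
      (2 * u x - u (x + z) - u (x - z)) / ‖z‖ ^ ((n : ℝ) + 2 * s) =
      (∫ z in {z : E n | τ < ‖z‖}, (u x - u (x + z)) / ‖z‖ ^ ((n : ℝ) + 2 * s)) +
      ∫ z in {z : E n | τ < ‖z‖}, (u x - u (x - z)) / ‖z‖ ^ ((n : ℝ) + 2 * s) := by
    rw [← integral_add (T_int' hn hs hτ hu hB x) (T_int hn hs hτ hu hB x)]
    congr 1
    funext z
    ring
  rw [h2, h1]
  unfold T
  ring

/-- the radial constant -/
noncomputable def KK (n : ℕ) (s : ℝ) : ℝ :=
  ∫ z : E n, min 1 (‖z‖ ^ 2) / ‖z‖ ^ ((n : ℝ) + 2 * s)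

theorem KK_int (hn : 0 < n) (hs : 0 < s) (hs1 : s < 1) :
    Integrable (fun z : E n => min 1 (‖z‖ ^ 2) / ‖z‖ ^ ((n : ℝ) + 2 * s)) := by
  have := nontriv hn
  refine integrable_min_radial hn hs hs1 (f := fun z : E n => min 1 (‖z‖ ^ 2)) ?_ (C := 1) ?_
  · apply Continuous.aestronglyMeasurable
    fun_prop
  · intro x
    rw [abs_of_nonneg (by positivity), one_mul]

theorem KK_nonneg : 0 ≤ KK n s := integral_nonneg fun z => by
  show 0 ≤ min 1 (‖z‖ ^ 2) / ‖z‖ ^ ((n : ℝ) + 2 * s)
  positivity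

/-- second differences -/
def SDB (u : E n → ℝ) (x : E n) (C : ℝ) : Prop :=
  ∀ h : E n, |2 * u x - u (x + h) - u (x - h)| ≤ C * min 1 (‖h‖ ^ 2)

theorem SD_int (hn : 0 < n) (hs : 0 < s) (hs1 : s < 1) {u : E n → ℝ} (hu : Continuous u)
    {x : E n} {C : ℝ} (hC : SDB u x C) :
    Integrable (fun z : E n => (2 * u x - u (x + z) - u (x - z)) / ‖z‖ ^ ((n : ℝ) + 2 * s)) := by
  have := nontriv hn
  apply integrable_min_radial hn hs hs1 _ hC
  apply Continuous.aestronglyMeasurable
  fun_prop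

theorem SD_le {u : E n → ℝ} {x : E n} {C : ℝ} (hC : SDB u x C) (z : E n) :
    ‖(2 * u x - u (x + z) - u (x - z)) / ‖z‖ ^ ((n : ℝ) + 2 * s)‖ ≤
      C * (min 1 (‖z‖ ^ 2) / ‖z‖ ^ ((n : ℝ) + 2 * s)) := by
  rw [norm_div, Real.norm_eq_abs, Real.norm_of_nonneg (by positivity : 0 ≤ ‖z‖ ^ ((n : ℝ) + 2 * s)),
    mul_div_assoc']
  exact div_le_div_of_nonneg_right (hC z) (by positivity)

theorem L_abs_le (hn : 0 < n) (hs : 0 < s) (hs1 : s < 1) {u : E n → ℝ}
    {x : E n} {C : ℝ} (hC : SDB u x C) : |Lop s u x| ≤ C * KK n s / 2 := by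
  unfold Lop KK
  rw [abs_div, abs_of_pos (show (0:ℝ) < 2 by norm_num), ← integral_const_mul]
  apply div_le_div_of_nonneg_right _ (by norm_num)
  exact norm_integral_le_of_norm_le ((KK_int hn hs hs1).const_mul C)
    (Eventually.of_forall fun z => SD_le hC z)

theorem T_abs_le (hn : 0 < n) (hs : 0 < s) (hs1 : s < 1) {u : E n → ℝ} (hu : Continuous u)
    {B : ℝ} (hB : ∀ y, |u y| ≤ B) {x : E n} {C : ℝ} (hC0 : 0 ≤ C) (hC : SDB u x C) {τ : ℝ}
    (hτ : 0 < τ) : |T s τ u x| ≤ C * KK n s / 2 := by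
  rw [T_sym hn hs hτ hu hB]
  unfold KK
  rw [abs_div, abs_of_pos (show (0:ℝ) < 2 by norm_num), ← integral_const_mul]
  apply div_le_div_of_nonneg_right _ (by norm_num)
  have h1 := norm_integral_le_of_norm_le (μ := volume.restrict {z : E n | τ < ‖z‖})
    ((KK_int (n := n) hn hs hs1).const_mul C).integrableOn
    (Eventually.of_forall fun z => SD_le (s := s) hC z)
  refine h1.trans ?_
  apply setIntegral_le_integral ((KK_int (n := n) hn hs hs1).const_mul C)
  refine Eventually.of_forall fun z => ?_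
  show 0 ≤ C * (min 1 (‖z‖ ^ 2) / ‖z‖ ^ ((n : ℝ) + 2 * s))
  positivity

theorem T_tendsto (hn : 0 < n) (hs : 0 < s) (hs1 : s < 1) {u : E n → ℝ} (hu : Continuous u)
    {B : ℝ} (hB : ∀ y, |u y| ≤ B) {x : E n} {C : ℝ} (hC : SDB u x C) :
    Tendsto (fun τ => T s τ u x) (𝓝[>] 0) (𝓝 (Lop s u x)) := by
  have h1 : Tendsto (fun τ : ℝ => ∫ z, ({z : E n | τ < ‖z‖}).indicator
      (fun z => (2 * u x - u (x + z) - u (x - z)) / ‖z‖ ^ ((n : ℝ) + 2 * s)) z) (𝓝[>] 0)
      (𝓝 (∫ z : E n, (2 * u x - u (x + z) - u (x - z)) / ‖z‖ ^ ((n : ℝ) + 2 * s))) := by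
    apply tendsto_integral_filter_of_dominated_convergence
      (fun z => C * (min 1 (‖z‖ ^ 2) / ‖z‖ ^ ((n : ℝ) + 2 * s)))
    · refine Eventually.of_forall fun τ => ?_
      exact (SD_int hn hs hs1 hu hC).1.indicator (measSet τ)
    · refine Eventually.of_forall fun τ => Eventually.of_forall fun z => ?_
      exact (norm_indicator_le_norm_self _ _).trans (SD_le hC z)
    · exact (KK_int hn hs hs1).const_mul C
    · refine Eventually.of_forall fun z => ?_
      apply tendsto_const_nhds.congr'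
      by_cases hz : z = 0
      · refine Eventually.of_forall fun τ => ?_
        have e0 : (2 * u x - u (x + z) - u (x - z)) / ‖z‖ ^ ((n : ℝ) + 2 * s) = 0 := by
          rw [hz, add_zero, sub_zero, show 2 * u x - u x - u x = 0 by ring, zero_div]
        show (2 * u x - u (x + z) - u (x - z)) / ‖z‖ ^ ((n : ℝ) + 2 * s) =
          ({z : E n | τ < ‖z‖}).indicator
          (fun z => (2 * u x - u (x + z) - u (x - z)) / ‖z‖ ^ ((n : ℝ) + 2 * s)) z
        by_cases h : τ < ‖z‖
        · rw [indicator_of_mem (show z ∈ {z : E n | τ < ‖z‖} from h)]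
        · rw [indicator_of_notMem (show z ∉ {z : E n | τ < ‖z‖} from h), e0]
      · have hz' : 0 < ‖z‖ := norm_pos_iff.2 hz
        have : Iio ‖z‖ ∈ 𝓝[>] (0:ℝ) := nhdsWithin_le_nhds (Iio_mem_nhds hz')
        filter_upwards [this] with τ hτ
        show (2 * u x - u (x + z) - u (x - z)) / ‖z‖ ^ ((n : ℝ) + 2 * s) =
          ({z : E n | τ < ‖z‖}).indicator
          (fun z => (2 * u x - u (x + z) - u (x - z)) / ‖z‖ ^ ((n : ℝ) + 2 * s)) z
        rw [indicator_of_mem (show z ∈ {z : E n | τ < ‖z‖} from hτ)]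
  have h2 := h1.div_const 2
  refine h2.congr' ?_
  filter_upwards [self_mem_nhdsWithin] with τ hτ
  rw [T_sym hn hs hτ hu hB, integral_indicator (measSet τ)]

/-- uniform bound of the second differences of a test function -/
theorem TF.sd {η : E n → ℝ} (h : TF η) : ∃ C : ℝ, 0 ≤ C ∧ ∀ x, SDB η x C := by
  have h1 : ContDiff ℝ 1 (fderiv ℝ η) :=
    h.cd.fderiv_right (by norm_cast)
  obtain ⟨K, hK⟩ := h1.lipschitzWith_of_hasCompactSupport (h.cs.fderiv (𝕜 := ℝ)) one_ne_zero
  obtain ⟨B, hB⟩ := h.cs.exists_bound_of_continuous h.cd.continuous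
  have hB0 : 0 ≤ B := (norm_nonneg _).trans (hB 0)
  refine ⟨2 * K + 4 * B, by positivity, fun x k => ?_⟩
  have hd : Differentiable ℝ η := h.cd.differentiable (by simp)
  have key : ∀ l : E n, ‖l‖ = ‖k‖ → |η (x + l) - η x - fderiv ℝ η x l| ≤ K * ‖k‖ ^ 2 := by
    intro l hl
    have h3 := (convex_closedBall x ‖k‖).norm_image_sub_le_of_norm_hasFDerivWithin_le'
      (f := η) (f' := fun y => fderiv ℝ η y) (φ := fderiv ℝ η x) (C := K * ‖k‖)
      (x := x) (y := x + l)
      (fun y hy => (hd y).hasFDerivAt.hasFDerivWithinAt)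
      (fun y hy => by
        have h4 := hK.norm_sub_le y x
        refine h4.trans ?_
        gcongr
        rw [mem_closedBall, dist_eq_norm] at hy
        exact hy)
      (mem_closedBall_self (norm_nonneg _))
      (by rw [mem_closedBall, dist_eq_norm]; simp [hl])
    rw [add_sub_cancel_left, hl, Real.norm_eq_abs] at h3
    calc _ ≤ _ := h3
      _ = _ := by ring
  have e1 := key k rfl
  have e2 := key (-k) (norm_neg k)
  rw [map_neg, ← sub_eq_add_neg] at e2
  have e3 : |2 * η x - η (x + k) - η (x - k)| ≤ 2 * K * ‖k‖ ^ 2 := by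
    rw [abs_le] at e1 e2 ⊢
    constructor <;> nlinarith [e1.1, e1.2, e2.1, e2.2]
  have e4 : |2 * η x - η (x + k) - η (x - k)| ≤ 4 * B := by
    have a1 := hB x
    have a2 := hB (x + k)
    have a3 := hB (x - k)
    rw [Real.norm_eq_abs, abs_le] at a1 a2 a3
    rw [abs_le]
    constructor <;> linarith [a1.1, a1.2, a2.1, a2.2, a3.1, a3.2]
  have hK0 : (0:ℝ) ≤ K := K.coe_nonneg
  rcases le_total 1 (‖k‖ ^ 2) with h2 | h2
  · rw [min_eq_left h2]
    linarith
  · rw [min_eq_right h2]
    nlinarith [sq_nonneg ‖k‖]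

theorem TF.bd {η : E n → ℝ} (h : TF η) : ∃ B : ℝ, ∀ y, |η y| ≤ B := by
  obtain ⟨B, hB⟩ := h.cs.exists_bound_of_continuous h.cd.continuous
  exact ⟨B, fun y => hB y⟩

theorem TF.int {η : E n → ℝ} (h : TF η) : Integrable η :=
  h.cd.continuous.integrable_of_hasCompactSupport h.cs

/-- continuity of `L η` -/
theorem L_cont (hn : 0 < n) (hs : 0 < s) (hs1 : s < 1) {η : E n → ℝ} (h : TF η) :
    Continuous (Lop s η) := by
  obtain ⟨C, hC0, hC⟩ := h.sd
  have h1 : Continuous fun x : E n =>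
      ∫ z : E n, (2 * η x - η (x + z) - η (x - z)) / ‖z‖ ^ ((n : ℝ) + 2 * s) := by
    apply continuous_of_dominated
      (bound := fun z => C * (min 1 (‖z‖ ^ 2) / ‖z‖ ^ ((n : ℝ) + 2 * s)))
    · intro x
      exact (SD_int hn hs hs1 h.cd.continuous (hC x)).1
    · intro x
      exact Eventually.of_forall fun z => SD_le (hC x) z
    · exact (KK_int hn hs hs1).const_mul C
    · refine Eventually.of_forall fun z => ?_
      have := h.cd.continuous
      fun_prop
  exact h1.div_const 2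

/-- the averaging part of the truncated operator -/
theorem conv_symm {k : E n → ℝ} (hk : Integrable k) (hke : ∀ z, k (-z) = k z) {η u : E n → ℝ}
    (hη : Integrable η) (hu : Continuous u) {B : ℝ} (hB : ∀ y, |u y| ≤ B) :
    ∫ x, η x * (∫ z, u (x - z) * k z) = ∫ x, u x * ∫ z, η (x - z) * k z := by
  have i1 : Integrable (fun p : E n × E n => η p.1 * (u (p.1 - p.2) * k p.2))
      (volume.prod volume) := by
    have h0 : Integrable (fun p : E n × E n => η p.1 * k p.2) (volume.prod volume) :=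
      hη.mul_prod hk
    have h1 : Integrable (fun p : E n × E n => u (p.1 - p.2) * (η p.1 * k p.2))
        (volume.prod volume) := by
      refine h0.bdd_mul (c := B) ?_ (Eventually.of_forall fun p => hB _)
      apply Continuous.aestronglyMeasurable
      fun_prop
    refine h1.congr (Eventually.of_forall fun p => ?_)
    ring
  have e1 : ∫ x, η x * (∫ z, u (x - z) * k z) = ∫ z, ∫ x, η x * (u (x - z) * k z) := by
    rw [← integral_integral_swap i1]
    congr 1
    funext x
    rw [← integral_const_mul]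
  have e2 : ∀ z : E n, ∫ x, η x * (u (x - z) * k z) = ∫ x, η (x + z) * (u x * k z) := by
    intro z
    rw [← integral_add_right_eq_self (fun x => η x * (u (x - z) * k z)) z]
    simp only [add_sub_cancel_right]
  have e3 : ∫ z, ∫ x, η (x + z) * (u x * k z) = ∫ z, ∫ x, η (x - z) * (u x * k z) := by
    rw [← integral_neg_eq_self (fun z => ∫ x, η (x + z) * (u x * k z))]
    congr 1
    funext z
    congr 1
    funext x
    rw [hke, ← sub_eq_add_neg]
  have i2 : Integrable (fun p : E n × E n => u p.1 * (η (p.1 - p.2) * k p.2))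
      (volume.prod volume) := by
    have h0 : Integrable (fun p : E n × E n => η p.1 * k p.2) (volume.prod volume) :=
      hη.mul_prod hk
    have h1 : Integrable (fun p : E n × E n => η (p.1 - p.2) * k p.2) (volume.prod volume) := by
      have hmp : MeasurePreserving (fun p : E n × E n => (p.1 - p.2, p.2))
          (volume.prod volume) (volume.prod volume) := by
        have := measurePreserving_sub_prod (volume : Measure (E n)) (volume : Measure (E n))
        exact this
      exact hmp.integrable_comp_of_integrable h0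
    have h2 := h1.bdd_mul (c := B) (f := fun p : E n × E n => u p.1)
      (by apply Continuous.aestronglyMeasurable; fun_prop)
      (Eventually.of_forall fun p => hB _)
    exact h2
  rw [e1]
  simp only [e2]
  rw [e3]
  have e4 : ∫ x, u x * ∫ z, η (x - z) * k z = ∫ z, ∫ x, u x * (η (x - z) * k z) := by
    rw [← integral_integral_swap i2]
    congr 1
    funext x
    rw [← integral_const_mul]
  rw [e4]
  congr 1
  funext z
  congr 1
  funext x
  ring

end Pool.Agent.R212.FQ
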