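import Pool.Agent.R212.FQ9

set_option autoImplicit false
set_option maxHeartbeats 4000000

open MeasureTheory Filter Topology Set Metric
open scoped ENNReal

namespace Pool.Agent.R212.FQ

/-- Question Q1 of the problem (at most one regular weak solution). -/
def UniquenessQ1 : Prop :=
  ∀ (N : ℕ) [NeZero N], 2 ≤ N → ∀ s : ℝ, 1 / 2 < s → s < 1 → ∀ Ω : Set (E N), IsC2Domain Ω →
    ∀ c μ f : E N → ℝ, MemLp c ⊤ (volume.restrict Ω) → (∀ᵐ x ∂(volume.restrict Ω), c x ≤ 0) →
    MemLp μ ⊤ (volume.restrict Ω) →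
    ∀ m : ℝ, (N : ℝ) / (2 * s) < m → MemLp f (ENNReal.ofReal m) (volume.restrict Ω) →
    ∀ (lam : ℝ) (u₁ u₂ : E N → ℝ), IsRegularSol s Ω c μ f lam u₁ →
      IsRegularSol s Ω c μ f lam u₂ → u₁ =ᵐ[volume] u₂

variable {N : ℕ} [NeZero N] {s : ℝ}

omit [NeZero N] in
theorem memLp_of_cont {Ω : Set (E N)} (hΩm : MeasurableSet Ω) (hb : Bornology.IsBounded Ω)
    {g : E N → ℝ} (hg : Continuous g) : MemLp g ⊤ (volume.restrict Ω) ∧
      ∃ B : ℝ, ∀ x ∈ Ω, |g x| ≤ B := by
  obtain ⟨B, hB⟩ := (hb.isCompact_closure).exists_bound_of_continuousOn hg.continuousOn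
  refine ⟨memLp_top_of_bound hg.aestronglyMeasurable B ?_, B, fun x hx => hB x (subset_closure hx)⟩
  rw [ae_restrict_iff' hΩm]
  exact Eventually.of_forall fun x hx => hB x (subset_closure hx)

omit [NeZero N] in
theorem memLp_mul {Ω : Set (E N)} (hΩm : MeasurableSet Ω) (hb : Bornology.IsBounded Ω)
    {c : E N → ℝ} (hc : MemLp c ⊤ (volume.restrict Ω)) {g : E N → ℝ} (hg : Continuous g) :
    MemLp (fun x => c x * g x) ⊤ (volume.restrict Ω) := by
  obtain ⟨-, B, hB⟩ := memLp_of_cont hΩm hb hg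
  refine hc.of_le_mul (c := B) (hc.1.mul hg.aestronglyMeasurable) ?_
  rw [ae_restrict_iff' hΩm]
  refine Eventually.of_forall fun x hx => ?_
  rw [norm_mul, mul_comm]
  exact mul_le_mul_of_nonneg_right (hB x hx) (norm_nonneg _)

omit [NeZero N] in
theorem not_ae_zero {v : E N → ℝ} (hv : Continuous v) {x0 : E N} (h0 : v x0 ≠ 0) :
    ¬ v =ᵐ[volume] (0 : E N → ℝ) := by
  intro h
  have h1 : v = 0 := (hv.ae_eq_iff_eq volume continuous_zero).1 h
  exact h0 (by rw [h1]; rfl)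

theorem main (hs : 0 < s) (hs1 : s < 1) {Ω : Set (E N)} (hΩ : IsC2Domain Ω) {c : E N → ℝ}
    (hc : MemLp c ⊤ (volume.restrict Ω)) (lam : ℝ) :
    ∃ μ f u₁ u₂ : E N → ℝ, MemLp μ ⊤ (volume.restrict Ω) ∧
      (∀ m : ℝ≥0∞, MemLp f m (volume.restrict Ω)) ∧ volume {x | x ∈ Ω ∧ f x ≠ 0} ≠ 0 ∧
      IsRegularSol s Ω c μ f lam u₁ ∧ IsRegularSol s Ω c μ f lam u₂ ∧ ¬ u₁ =ᵐ[volume] u₂ ∧
      (lam ≠ 0 → ¬ u₁ =ᵐ[volume] (0 : E N → ℝ) ∧ ¬ u₂ =ᵐ[volume] (0 : E N → ℝ)) := by
  have := nontriv (hN (N := N))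
  have ha := aC_pos (N := N) hs hs1
  have hΩm : MeasurableSet Ω := hΩ.1.measurableSet
  have hb := hΩ.2.2.1
  obtain ⟨x0, hx0⟩ := hΩ.2.1.nonempty
  obtain ⟨R, hR, hRΩ⟩ := Metric.isOpen_iff.1 hΩ.1 x0 hx0
  set r : ℝ := R / 4 with hr
  have hr0 : 0 < r := by positivity
  have hball : closedBall x0 (2 * r) ⊆ Ω := by
    refine (closedBall_subset_ball ?_).trans hRΩ
    rw [hr]
    linarith
  obtain ⟨hw, hws'⟩ := sb_tf x0 hr0
  set w : E N → ℝ := fun y => bu (r⁻¹ • (x0 - y)) with hwdef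
  have hws : tsupport w ⊆ Ω := hws'.trans ((closedBall_subset_closedBall (by linarith)).trans hball)
  have hw0 : w x0 ≠ 0 := by
    show bu (r⁻¹ • (x0 - x0)) ≠ 0
    unfold bu
    rw [sub_self, smul_zero, norm_zero]
    norm_num
  obtain ⟨e, he⟩ : ∃ e : E N, ‖e‖ = 1 := exists_norm_eq (E N) zero_le_one
  set x1 : E N := x0 + (3 / 2 * r) • e with hx1
  have hx1n : ‖x1 - x0‖ = 3 / 2 * r := by
    rw [hx1, add_sub_cancel_left, norm_smul, he, mul_one, Real.norm_of_nonneg (by positivity)]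
  have hx1Ω : x1 ∈ Ω := by
    apply hball
    rw [mem_closedBall, dist_eq_norm, hx1n]
    linarith
  have hx1s : x1 ∉ tsupport w := by
    intro h
    have := hws' h
    rw [mem_closedBall, dist_eq_norm, hx1n] at this
    linarith
  have hL1 : Lop s w x1 < 0 := by
    rw [hwdef, L_scale bu x0 x1 hr0]
    set y1 : E N := r⁻¹ • (x0 - x1) with hy1
    have hy1n : ‖y1‖ = 3 / 2 := by
      rw [hy1, norm_smul, Real.norm_of_nonneg (by positivity), norm_sub_rev, hx1n]
      field_simp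
    obtain ⟨h1, h2⟩ := L_far (s := s) hN hs (x := y1) (by rw [hy1n]; norm_num)
    rw [h2]
    have h3 : 0 < ∫ y : E N, bu y / ‖y1 - y‖ ^ ((N : ℝ) + 2 * s) := by
      rw [integral_pos_iff_support_of_nonneg _ h1]
      · have ho : IsOpen (Function.support (bu : E N → ℝ)) :=
          bu_tf.cd.continuous.isOpen_support
        have hne : (Function.support (bu : E N → ℝ)).Nonempty := ⟨0, by
          show bu (0 : E N) ≠ 0
          unfold bu
          rw [norm_zero]
          norm_num⟩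
        refine lt_of_lt_of_le (ho.measure_pos volume hne) (measure_mono ?_)
        intro y hy
        have hy' : bu y ≠ 0 := hy
        have hyn : ‖y‖ < 1 := by
          by_contra h
          exact hy' (bu_out (not_lt.1 h))
        have hpos : 0 < ‖y1 - y‖ := by
          have := norm_sub_norm_le y1 y
          rw [hy1n] at this
          linarith
        exact div_ne_zero hy' (Real.rpow_pos_of_pos hpos _).ne'
      · intro y
        exact div_nonneg (bu_nonneg y) (by positivity)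
    have h4 : 0 < r ^ (-(2 * s)) := Real.rpow_pos_of_pos hr0 _
    nlinarith [mul_pos h4 h3]
  have hLc := L_cont hN hs hs1 hw
  have hDc := DR_cont hs hs1 hw
  have hDp : ∀ x, 0 < DR s w x := fun x => DR_pos hs hs1 hw hw0 x
  have hwc := hw.cd.continuous
  set h : E N → ℝ := fun x => aC N s * Lop s w x - c x * w x with hh
  -- parameters
  set β : ℝ := if lam = 0 then 0 else 2 with hβ
  have hβ1 : 1 + β ≠ 0 := by
    rw [hβ]
    split_ifs <;> norm_num
  have hβne : β ≠ 1 := by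
    rw [hβ]
    split_ifs <;> norm_num
  set κ : ℝ := if lam = 0 then 1 else 2 / (3 * lam) with hκ
  have hκ0 : κ ≠ 0 := by
    rw [hκ]
    split_ifs with h
    · norm_num
    · positivity
  have hκβ : lam * κ = β / (1 + β) := by
    rw [hκ, hβ]
    split_ifs with h
    · rw [h]
      norm_num
    · field_simp
      norm_num
  set μ : E N → ℝ := fun x => h x / ((1 + β) * DR s w x) with hμ
  set f : E N → ℝ := fun x => κ * h x with hf
  have hμ1 : ∀ x, μ x = (aC N s * Lop s w x - c x * w x) / ((1 + β) * DR s w x) := fun x => rfl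
  have hf1 : ∀ x, lam * f x = β / (1 + β) * (aC N s * Lop s w x - c x * w x) := by
    intro x
    show lam * (κ * h x) = _
    rw [← mul_assoc, hκβ]
  have s1 := sol hs hs1 hΩ hw hws hw0 (t := 1) hβ1 (by ring) hμ1 hf1
  have s2 := sol hs hs1 hΩ hw hws hw0 (t := β) hβ1 (by ring) hμ1 hf1
  have hfinm : IsFiniteMeasure (volume.restrict Ω) := ⟨by
    rw [Measure.restrict_apply_univ]
    exact hb.measure_lt_top⟩
  have hhL : MemLp h ⊤ (volume.restrict Ω) :=
    (memLp_of_cont hΩm hb (continuous_const.mul hLc)).1.sub (memLp_mul hΩm hb hc hwc)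
  refine ⟨μ, f, fun x => 1 * w x, fun x => β * w x, ?_, ?_, ?_, s1, s2, ?_, ?_⟩
  · have hq : Continuous fun x : E N => ((1 + β) * DR s w x)⁻¹ :=
      (continuous_const.mul hDc).inv₀ fun x => mul_ne_zero hβ1 (hDp x).ne'
    have h1 := memLp_mul hΩm hb hhL hq
    exact h1
  · intro m
    exact (hhL.const_mul κ).mono_exponent le_top
  · have hV : IsOpen (Ω ∩ ((tsupport w)ᶜ ∩ {x | Lop s w x < 0})) :=
      hΩ.1.inter ((isClosed_tsupport w).isOpen_compl.inter (isOpen_lt hLc continuous_const))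
    have hVp := hV.measure_pos volume ⟨x1, hx1Ω, hx1s, hL1⟩
    refine (lt_of_lt_of_le hVp (measure_mono ?_)).ne'
    rintro x ⟨hxΩ, hxs, hxL⟩
    refine ⟨hxΩ, ?_⟩
    have hwx : w x = 0 := image_eq_zero_of_notMem_tsupport hxs
    show κ * h x ≠ 0
    apply mul_ne_zero hκ0
    show aC N s * Lop s w x - c x * w x ≠ 0
    rw [hwx, mul_zero, sub_zero]
    exact mul_ne_zero ha.ne' (ne_of_lt hxL)
  · intro hae
    have h1 : (fun x : E N => (1 - β) * w x) =ᵐ[volume] (0 : E N → ℝ) := by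
      filter_upwards [hae] with x hx
      show (1 - β) * w x = 0
      linarith
    refine not_ae_zero (v := fun x : E N => (1 - β) * w x) (x0 := x0) (continuous_const.mul hwc)
      ?_ h1
    exact mul_ne_zero (sub_ne_zero.2 (Ne.symm hβne)) hw0
  · intro hlam
    constructor
    · refine not_ae_zero (x0 := x0) (continuous_const.mul hwc) ?_
      exact mul_ne_zero one_ne_zero hw0
    · refine not_ae_zero (x0 := x0) (continuous_const.mul hwc) ?_
      refine mul_ne_zero ?_ hw0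
      rw [hβ, if_neg hlam]
      norm_num

theorem ball_C2 : IsC2Domain (ball (0 : E N) 1) := by
  have := nontriv (hN (N := N))
  refine ⟨isOpen_ball, ⟨⟨0, mem_ball_self one_pos⟩,
    (convex_ball (0 : E N) 1).isPreconnected⟩, isBounded_ball, fun x => ‖x‖ ^ 2 - 1,
    (contDiff_norm_sq ℝ).sub contDiff_const, ?_, ?_⟩
  · ext x
    rw [mem_ball_zero_iff]
    show ‖x‖ < 1 ↔ ‖x‖ ^ 2 - 1 < 0
    constructor
    · intro h
      nlinarith [norm_nonneg x]
    · intro h
      nlinarith [norm_nonneg x]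
  · intro x hx
    rw [frontier_ball (0 : E N) one_ne_zero, mem_sphere_zero_iff_norm] at hx
    refine ⟨by
      show ‖x‖ ^ 2 - 1 = 0
      rw [hx]
      norm_num, ?_⟩
    intro h0
    have h1 : HasFDerivAt (fun x : E N => ‖x‖ ^ 2 - 1) (fderiv ℝ (fun x : E N => ‖x‖ ^ 2 - 1) x) x :=
      (((contDiff_norm_sq ℝ (n := 1)).sub contDiff_const).differentiable (by simp) x).hasFDerivAt
    rw [h0] at h1
    have h2 : HasDerivAt (fun t : ℝ => t • x) x 1 := by
      have := (hasDerivAt_id (1:ℝ)).smul_const x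
      simpa using this
    have h1' : HasFDerivAt (fun x : E N => ‖x‖ ^ 2 - 1) (0 : E N →L[ℝ] ℝ) ((1:ℝ) • x) := by
      rw [one_smul]
      exact h1
    have h3 := h1'.comp_hasDerivAt (1:ℝ) h2
    have h4 : HasDerivAt (fun t : ℝ => t ^ 2 - 1) (2 : ℝ) 1 := by
      have := ((hasDerivAt_id (1:ℝ)).pow 2).sub_const 1
      simpa using this
    have h5 : ((fun x : E N => ‖x‖ ^ 2 - 1) ∘ fun t : ℝ => t • x) = fun t : ℝ => t ^ 2 - 1 := by
      funext t
      show ‖t • x‖ ^ 2 - 1 = t ^ 2 - 1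
      rw [norm_smul, hx, mul_one, Real.norm_eq_abs, sq_abs]
    rw [h5] at h3
    have h6 := h3.unique h4
    simp at h6

theorem not_Q1 : ¬ UniquenessQ1 := by
  intro hU
  have h0 : MemLp (0 : E 2 → ℝ) ⊤ (volume.restrict (ball (0 : E 2) 1)) := MemLp.zero
  obtain ⟨μ, f, u₁, u₂, hμ, hf, -, h1, h2, hne, -⟩ :=
    main (N := 2) (s := 3/4) (by norm_num) (by norm_num) ball_C2 h0 1
  apply hne
  exact hU 2 le_rfl (3/4) (by norm_num) (by norm_num) (ball (0 : E 2) 1) ball_C2 0 μ f h0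
    (Eventually.of_forall fun x => le_rfl) hμ 2 (by norm_num) (hf _) 1 u₁ u₂ h1 h2

end Pool.Agent.R212.FQ
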