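import Pool.Agent.R212.FQ1

set_option autoImplicit false
set_option maxHeartbeats 4000000

open MeasureTheory Filter Topology Set Metric
open Pool.Agent.R212.FGrad (integrable_min_radial integrable_far_radial)

namespace Pool.Agent.R212.FQ

variable {n : ℕ} {s : ℝ}

/-- truncated kernel -/
noncomputable def kt (n : ℕ) (s τ : ℝ) : E n → ℝ :=
  ({z : E n | τ < ‖z‖}).indicator (fun z => 1 / ‖z‖ ^ ((n : ℝ) + 2 * s))

theorem kt_int (hn : 0 < n) (hs : 0 < s) {τ : ℝ} (hτ : 0 < τ) : Integrable (kt n s τ) := by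
  have := nontriv hn
  unfold kt
  rw [integrable_indicator_iff (measSet τ)]
  exact integrable_far_radial hn hs (f := fun _ => (1:ℝ)) aestronglyMeasurable_const (C := 1)
    (fun _ => by simp) hτ

theorem kt_even (τ : ℝ) (z : E n) : kt n s τ (-z) = kt n s τ z := by
  unfold kt
  by_cases hz : τ < ‖z‖
  · rw [indicator_of_mem (show z ∈ {z : E n | τ < ‖z‖} from hz),
      indicator_of_mem (show -z ∈ {z : E n | τ < ‖z‖} by
        show τ < ‖-z‖
        rwa [norm_neg]), norm_neg]
  · rw [indicator_of_notMem (show z ∉ {z : E n | τ < ‖z‖} from hz),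
      indicator_of_notMem (show -z ∉ {z : E n | τ < ‖z‖} by
        show ¬ τ < ‖-z‖
        rwa [norm_neg])]

theorem kt_nonneg (τ : ℝ) (z : E n) : 0 ≤ kt n s τ z :=
  indicator_nonneg (fun z _ => by positivity) z

theorem conv_int (hn : 0 < n) (hs : 0 < s) {τ : ℝ} (hτ : 0 < τ) {u : E n → ℝ} (hu : Continuous u)
    {B : ℝ} (hB : ∀ y, |u y| ≤ B) (x : E n) : Integrable (fun z => u (x - z) * kt n s τ z) := by
  refine (kt_int hn hs hτ).bdd_mul (c := B) ?_ (Eventually.of_forall fun p => hB _)
  apply Continuous.aestronglyMeasurable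
  fun_prop

theorem T_eq (hn : 0 < n) (hs : 0 < s) {τ : ℝ} (hτ : 0 < τ) {u : E n → ℝ} (hu : Continuous u)
    {B : ℝ} (hB : ∀ y, |u y| ≤ B) (x : E n) :
    T s τ u x = u x * (∫ z, kt n s τ z) - ∫ z, u (x - z) * kt n s τ z := by
  unfold T
  rw [← integral_indicator (measSet τ), ← integral_const_mul,
    ← integral_sub ((kt_int hn hs hτ).const_mul _) (conv_int hn hs hτ hu hB x)]
  congr 1
  funext z
  unfold kt
  by_cases hz : τ < ‖z‖
  · simp only [indicator_of_mem (show z ∈ {z : E n | τ < ‖z‖} from hz)]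
    ring
  · simp only [indicator_of_notMem (show z ∉ {z : E n | τ < ‖z‖} from hz)]
    ring

theorem conv_cont (hn : 0 < n) (hs : 0 < s) {τ : ℝ} (hτ : 0 < τ) {u : E n → ℝ} (hu : Continuous u)
    {B : ℝ} (hB : ∀ y, |u y| ≤ B) : Continuous (fun x => ∫ z, u (x - z) * kt n s τ z) := by
  apply continuous_of_dominated (bound := fun z => B * kt n s τ z)
  · intro x
    exact (conv_int hn hs hτ hu hB x).1
  · intro x
    refine Eventually.of_forall fun z => ?_
    rw [norm_mul, Real.norm_of_nonneg (kt_nonneg _ _)]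
    exact mul_le_mul_of_nonneg_right (hB _) (kt_nonneg _ _)
  · exact (kt_int hn hs hτ).const_mul B
  · refine Eventually.of_forall fun z => ?_
    fun_prop

theorem T_cont (hn : 0 < n) (hs : 0 < s) {τ : ℝ} (hτ : 0 < τ) {u : E n → ℝ} (hu : Continuous u)
    {B : ℝ} (hB : ∀ y, |u y| ≤ B) : Continuous (T s τ u) := by
  have h : T s τ u = fun x => u x * (∫ z, kt n s τ z) - ∫ z, u (x - z) * kt n s τ z := by
    funext x
    exact T_eq hn hs hτ hu hB x
  rw [h]
  exact (hu.mul continuous_const).sub (conv_cont hn hs hτ hu hB)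

theorem T_bd (hn : 0 < n) (hs : 0 < s) {τ : ℝ} (hτ : 0 < τ) {u : E n → ℝ} (hu : Continuous u)
    {B : ℝ} (hB : ∀ y, |u y| ≤ B) (x : E n) : |T s τ u x| ≤ 2 * B * ∫ z, kt n s τ z := by
  have hB0 : 0 ≤ B := (abs_nonneg _).trans (hB x)
  rw [T_eq hn hs hτ hu hB]
  have h1 : |∫ z, u (x - z) * kt n s τ z| ≤ B * ∫ z, kt n s τ z := by
    rw [← integral_const_mul, ← Real.norm_eq_abs]
    apply norm_integral_le_of_norm_le ((kt_int hn hs hτ).const_mul B)
    refine Eventually.of_forall fun z => ?_
    rw [norm_mul, Real.norm_of_nonneg (kt_nonneg _ _)]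
    exact mul_le_mul_of_nonneg_right (hB _) (kt_nonneg _ _)
  have h2 : |u x * (∫ z, kt n s τ z)| ≤ B * ∫ z, kt n s τ z := by
    rw [abs_mul, abs_of_nonneg (integral_nonneg fun z => kt_nonneg _ _)]
    exact mul_le_mul_of_nonneg_right (hB x) (integral_nonneg fun z => kt_nonneg _ _)
  have h3 := abs_sub (u x * (∫ z, kt n s τ z)) (∫ z, u (x - z) * kt n s τ z)
  linarith

/-- symmetry of the truncated operator -/
theorem T_symm (hn : 0 < n) (hs : 0 < s) {τ : ℝ} (hτ : 0 < τ) {η u : E n → ℝ}
    (hη : Continuous η) (hηi : Integrable η) {B' : ℝ} (hB' : ∀ y, |η y| ≤ B')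
    (hu : Continuous u) {B : ℝ} (hB : ∀ y, |u y| ≤ B) (hui : Integrable u) :
    ∫ x, η x * T s τ u x = ∫ x, u x * T s τ η x := by
  have i1 : Integrable (fun x => η x * (u x * ∫ z, kt n s τ z)) := by
    have : Integrable (fun x => (u x * ∫ z, kt n s τ z) * η x) :=
      hηi.bdd_mul (c := B * |∫ z, kt n s τ z|)
        (by apply Continuous.aestronglyMeasurable; fun_prop) (Eventually.of_forall fun x => by
          rw [norm_mul]
          exact mul_le_mul_of_nonneg_right (hB x) (norm_nonneg _))
    refine this.congr (Eventually.of_forall fun x => ?_)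
    ring
  have i2 : Integrable (fun x => η x * ∫ z, u (x - z) * kt n s τ z) := by
    have : Integrable (fun x => (∫ z, u (x - z) * kt n s τ z) * η x) :=
      hηi.bdd_mul (c := B * ∫ z, kt n s τ z)
        (conv_cont hn hs hτ hu hB).aestronglyMeasurable (Eventually.of_forall fun x => by
          rw [← integral_const_mul]
          apply norm_integral_le_of_norm_le ((kt_int hn hs hτ).const_mul B)
          refine Eventually.of_forall fun z => ?_
          rw [norm_mul, Real.norm_of_nonneg (kt_nonneg _ _)]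
          exact mul_le_mul_of_nonneg_right (hB _) (kt_nonneg _ _))
    refine this.congr (Eventually.of_forall fun x => ?_)
    ring
  have j1 : Integrable (fun x => u x * (η x * ∫ z, kt n s τ z)) := by
    refine i1.congr (Eventually.of_forall fun x => ?_)
    ring
  have j2 : Integrable (fun x => u x * ∫ z, η (x - z) * kt n s τ z) := by
    have : Integrable (fun x => (∫ z, η (x - z) * kt n s τ z) * u x) :=
      hui.bdd_mul (c := B' * ∫ z, kt n s τ z)
        (conv_cont hn hs hτ hη hB').aestronglyMeasurable (Eventually.of_forall fun x => by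
          rw [← integral_const_mul]
          apply norm_integral_le_of_norm_le ((kt_int hn hs hτ).const_mul B')
          refine Eventually.of_forall fun z => ?_
          rw [norm_mul, Real.norm_of_nonneg (kt_nonneg _ _)]
          exact mul_le_mul_of_nonneg_right (hB' _) (kt_nonneg _ _))
    refine this.congr (Eventually.of_forall fun x => ?_)
    ring
  have e1 : ∫ x, η x * T s τ u x = (∫ x, η x * (u x * ∫ z, kt n s τ z)) -
      ∫ x, η x * ∫ z, u (x - z) * kt n s τ z := by
    rw [← integral_sub i1 i2]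
    congr 1
    funext x
    rw [T_eq hn hs hτ hu hB]
    ring
  have e2 : ∫ x, u x * T s τ η x = (∫ x, u x * (η x * ∫ z, kt n s τ z)) -
      ∫ x, u x * ∫ z, η (x - z) * kt n s τ z := by
    rw [← integral_sub j1 j2]
    congr 1
    funext x
    rw [T_eq hn hs hτ hη hB']
    ring
  rw [e1, e2, conv_symm (kt_int hn hs hτ) (kt_even τ) hηi hu hB]
  congr 1
  congr 1
  funext x
  ring

/-- passage to the limit -/
theorem lim_T (hn : 0 < n) (hs : 0 < s) (hs1 : s < 1) {η u : E n → ℝ} (hη : TF η)
    (hui : Integrable u) :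
    Tendsto (fun τ => ∫ x, u x * T s τ η x) (𝓝[>] 0) (𝓝 (∫ x, u x * Lop s η x)) := by
  obtain ⟨C, hC0, hC⟩ := hη.sd
  obtain ⟨B, hB⟩ := hη.bd
  apply tendsto_integral_filter_of_dominated_convergence (fun x => |u x| * (C * KK n s / 2))
  · filter_upwards [self_mem_nhdsWithin] with τ hτ
    exact hui.1.mul (T_cont hn hs hτ hη.cd.continuous hB).aestronglyMeasurable
  · filter_upwards [self_mem_nhdsWithin] with τ hτ
    refine Eventually.of_forall fun x => ?_
    rw [norm_mul]
    exact mul_le_mul_of_nonneg_left (T_abs_le hn hs hs1 hη.cd.continuous hB hC0 (hC x) hτ)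
      (norm_nonneg _)
  · exact hui.abs.mul_const _
  · refine Eventually.of_forall fun x => ?_
    exact (T_tendsto hn hs hs1 hη.cd.continuous hB (hC x)).const_mul _

theorem L_symm (hn : 0 < n) (hs : 0 < s) (hs1 : s < 1) {η w : E n → ℝ} (hη : TF η)
    (hw : TF w) : ∫ x, w x * Lop s η x = ∫ x, η x * Lop s w x := by
  obtain ⟨B, hB⟩ := hη.bd
  obtain ⟨B', hB'⟩ := hw.bd
  have h1 := lim_T hn hs hs1 hη hw.int
  have h2 := lim_T hn hs hs1 hw hη.int
  have h3 : Tendsto (fun τ => ∫ x, η x * T s τ w x) (𝓝[>] 0) (𝓝 (∫ x, w x * Lop s η x)) := by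
    refine h1.congr' ?_
    filter_upwards [self_mem_nhdsWithin] with τ hτ
    exact T_symm hn hs hτ hw.cd.continuous hw.int hB' hη.cd.continuous hB hη.int
  exact tendsto_nhds_unique h3 h2

/-- the integral of `T η` vanishes -/
theorem int_T (hn : 0 < n) (hs : 0 < s) {τ : ℝ} (hτ : 0 < τ) {η : E n → ℝ} (hη : TF η) :
    Integrable (T s τ η) ∧ ∫ x, T s τ η x = 0 := by
  obtain ⟨B, hB⟩ := hη.bd
  have i1 : Integrable (fun p : E n × E n => η (p.1 - p.2) * kt n s τ p.2)
      (volume.prod volume) := by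
    have h0 : Integrable (fun p : E n × E n => η p.1 * kt n s τ p.2) (volume.prod volume) :=
      hη.int.mul_prod (kt_int hn hs hτ)
    have hmp : MeasurePreserving (fun p : E n × E n => (p.1 - p.2, p.2))
        (volume.prod volume) (volume.prod volume) :=
      measurePreserving_sub_prod (volume : Measure (E n)) (volume : Measure (E n))
    exact hmp.integrable_comp_of_integrable h0
  have i2 := i1.integral_prod_left
  have i3 : Integrable (fun x => η x * ∫ z, kt n s τ z) := hη.int.mul_const _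
  have e : T s τ η = fun x => η x * (∫ z, kt n s τ z) - ∫ z, η (x - z) * kt n s τ z := by
    funext x
    exact T_eq hn hs hτ hη.cd.continuous hB x
  refine ⟨by rw [e]; exact i3.sub i2, ?_⟩
  rw [e, integral_sub i3 i2]
  have h1 : ∫ x, ∫ z, η (x - z) * kt n s τ z = ∫ z, ∫ x, η (x - z) * kt n s τ z :=
    integral_integral_swap i1
  have h2 : ∀ z : E n, ∫ x, η (x - z) * kt n s τ z = (∫ x, η x) * kt n s τ z := by
    intro z
    rw [integral_mul_const, integral_sub_right_eq_self (fun x => η x) z]
  rw [h1]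
  simp only [h2]
  rw [integral_mul_const, integral_const_mul, sub_self]

end Pool.Agent.R212.FQ
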