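import Pool.Agent.R212.FQ2
import Pool.Agent.H305R3.FC0

set_option autoImplicit false
set_option maxHeartbeats 4000000

open MeasureTheory Filter Topology Set Metric
open Pool.Agent.R212.FGrad (integrable_min_radial integrable_far_radial)

namespace Pool.Agent.R212.FQ

variable {n : ℕ} {s : ℝ}

/-- the bump -/
noncomputable def bu (x : E n) : ℝ := Real.smoothTransition (1 - ‖x‖ ^ 2)

theorem bu_out {x : E n} (hx : 1 ≤ ‖x‖) : bu x = 0 := by
  unfold bu
  apply Real.smoothTransition.zero_of_nonpos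
  nlinarith

theorem bu_nonneg (x : E n) : 0 ≤ bu x := Real.smoothTransition.nonneg _

theorem bu_tf : TF (bu : E n → ℝ) := by
  constructor
  · have h1 : ContDiff ℝ ((⊤ : ℕ∞) : WithTop ℕ∞) (fun x : E n => 1 - ‖x‖ ^ 2) :=
      contDiff_const.sub (contDiff_norm_sq ℝ)
    exact (Real.smoothTransition.contDiff).comp h1
  · refine HasCompactSupport.intro (isCompact_closedBall (0 : E n) 1) fun x hx => ?_
    rw [mem_closedBall_zero_iff, not_le] at hx
    exact bu_out hx.le

theorem bu_pos : 0 < ∫ x : E n, bu x := by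
  rw [integral_pos_iff_support_of_nonneg bu_nonneg bu_tf.int]
  have ho : IsOpen (Function.support (bu : E n → ℝ)) := bu_tf.cd.continuous.isOpen_support
  apply ho.measure_pos volume
  refine ⟨0, ?_⟩
  show bu (0 : E n) ≠ 0
  unfold bu
  rw [norm_zero]
  norm_num

/-- `L` commutes with linear isometries -/
theorem L_isom (R : E n ≃ₗᵢ[ℝ] E n) {u : E n → ℝ} (hu : ∀ x, u (R x) = u x) (x : E n) :
    Lop s u (R x) = Lop s u x := by
  unfold Lop
  congr 1
  have hmp : MeasurePreserving (R : E n → E n) := R.measurePreserving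
  rw [← hmp.integral_comp R.toHomeomorph.measurableEmbedding]
  congr 1
  funext z
  have h1 : R x + R z = R (x + z) := (map_add R x z).symm
  have h2 : R x - R z = R (x - z) := (map_sub R x z).symm
  rw [h1, h2, hu, hu, hu, R.norm_map]

theorem L_radial {x y : E n} (h : ‖x‖ = ‖y‖) : Lop s (bu : E n → ℝ) x = Lop s bu y := by
  rw [← Submodule.reflection_sub h]
  rw [L_isom]
  intro z
  unfold bu
  rw [LinearIsometryEquiv.norm_map]

/-- far formula -/
theorem L_far (hn : 0 < n) (hs : 0 < s) {x : E n} (hx : 1 < ‖x‖) :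
    Integrable (fun y : E n => bu y / ‖x - y‖ ^ ((n : ℝ) + 2 * s)) ∧
    Lop s bu x = -∫ y : E n, bu y / ‖x - y‖ ^ ((n : ℝ) + 2 * s) := by
  have hτ : 0 < (‖x‖ - 1) / 2 := by linarith
  have h0 : ∀ z : E n, ¬ ((‖x‖ - 1) / 2 < ‖z‖) → bu (x - z) = 0 := by
    intro z hz
    push Not at hz
    apply bu_out
    have : ‖x‖ ≤ ‖x - z‖ + ‖z‖ := by
      calc ‖x‖ = ‖(x - z) + z‖ := by congr 1; abel
        _ ≤ _ := norm_add_le _ _
    linarith
  obtain ⟨B, hB⟩ := (bu_tf (n := n)).bd
  have i1 : Integrable (fun z : E n => bu (x - z) / ‖z‖ ^ ((n : ℝ) + 2 * s)) := by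
    have h1 := conv_int (s := s) hn hs hτ bu_tf.cd.continuous hB x
    refine h1.congr (Eventually.of_forall fun z => ?_)
    unfold kt
    by_cases hz : (‖x‖ - 1) / 2 < ‖z‖
    · simp only [indicator_of_mem (show z ∈ {z : E n | (‖x‖ - 1) / 2 < ‖z‖} from hz)]
      ring
    · simp only [indicator_of_notMem (show z ∉ {z : E n | (‖x‖ - 1) / 2 < ‖z‖} from hz), h0 z hz]
      simp
  have i2 : Integrable (fun z : E n => bu (x + z) / ‖z‖ ^ ((n : ℝ) + 2 * s)) := by
    have h1 := i1.comp_neg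
    simp only [sub_neg_eq_add, norm_neg] at h1
    exact h1
  have e2 : ∫ z : E n, bu (x + z) / ‖z‖ ^ ((n : ℝ) + 2 * s) =
      ∫ z : E n, bu (x - z) / ‖z‖ ^ ((n : ℝ) + 2 * s) := by
    rw [← integral_neg_eq_self (fun z : E n => bu (x - z) / ‖z‖ ^ ((n : ℝ) + 2 * s))]
    simp only [sub_neg_eq_add, norm_neg]
  constructor
  · have h1 := i1.comp_sub_left x
    simp only [sub_sub_cancel] at h1
    exact h1
  · have e3 : ∫ y : E n, bu y / ‖x - y‖ ^ ((n : ℝ) + 2 * s) =
        ∫ z : E n, bu (x - z) / ‖z‖ ^ ((n : ℝ) + 2 * s) := by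
      rw [← integral_sub_left_eq_self (fun z : E n => bu (x - z) / ‖z‖ ^ ((n : ℝ) + 2 * s))
        volume x]
      simp only [sub_sub_cancel]
    rw [e3]
    unfold Lop
    have hx0 : bu x = 0 := bu_out hx.le
    have e4 : (fun z : E n => (2 * bu x - bu (x + z) - bu (x - z)) / ‖z‖ ^ ((n : ℝ) + 2 * s)) =
        fun z : E n => -(bu (x + z) / ‖z‖ ^ ((n : ℝ) + 2 * s) +
          bu (x - z) / ‖z‖ ^ ((n : ℝ) + 2 * s)) := by
      funext z
      rw [hx0]
      ring
    rw [e4, integral_neg, integral_add i2 i1, e2]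
    ring

theorem T_far (hn : 0 < n) (hs : 0 < s) {x : E n} (hx : 2 ≤ ‖x‖) {τ : ℝ} (hτ : 0 < τ) :
    |T s τ bu x| ≤ (‖x‖ / 2) ^ (-((n : ℝ) + 2 * s)) * ∫ y : E n, bu y := by
  obtain ⟨B, hB⟩ := (bu_tf (n := n)).bd
  have hn0 : (0:ℝ) < n := by exact_mod_cast hn
  rw [T_eq hn hs hτ bu_tf.cd.continuous hB, bu_out (by linarith : 1 ≤ ‖x‖), zero_mul, zero_sub,
    abs_neg]
  have e : ∫ y : E n, bu y = ∫ z : E n, bu (x - z) := by
    rw [integral_sub_left_eq_self (fun z : E n => bu z) volume x]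
  rw [e, ← integral_const_mul, ← Real.norm_eq_abs]
  apply norm_integral_le_of_norm_le
  · exact ((bu_tf.int).comp_sub_left x).const_mul _
  · refine Eventually.of_forall fun z => ?_
    rw [norm_mul, Real.norm_of_nonneg (bu_nonneg _), Real.norm_of_nonneg (kt_nonneg _ _), mul_comm]
    by_cases hz : bu (x - z) = 0
    · rw [hz, mul_zero, mul_zero]
    · apply mul_le_mul_of_nonneg_right _ (bu_nonneg _)
      have h1 : ‖x - z‖ < 1 := by
        by_contra h
        exact hz (bu_out (not_lt.1 h))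
      have h2 : ‖x‖ ≤ ‖x - z‖ + ‖z‖ := by
        calc ‖x‖ = ‖(x - z) + z‖ := by congr 1; abel
          _ ≤ _ := norm_add_le _ _
      have h3 : ‖x‖ / 2 ≤ ‖z‖ := by linarith
      have h4 : ‖z‖ ^ (-((n : ℝ) + 2 * s)) ≤ (‖x‖ / 2) ^ (-((n : ℝ) + 2 * s)) :=
        Real.rpow_le_rpow_of_nonpos (by linarith) h3 (by linarith)
      refine le_trans ?_ h4
      unfold kt
      by_cases hz2 : τ < ‖z‖
      · rw [indicator_of_mem (show z ∈ {z : E n | τ < ‖z‖} from hz2), one_div,
          Real.rpow_neg (norm_nonneg _)]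
      · rw [indicator_of_notMem (show z ∉ {z : E n | τ < ‖z‖} from hz2)]
        positivity

/-- integrability and vanishing mean of `L bu` -/
theorem L_int (hn : 0 < n) (hs : 0 < s) (hs1 : s < 1) :
    Integrable (Lop s (bu : E n → ℝ)) ∧ ∫ x : E n, Lop s bu x = 0 := by
  obtain ⟨B, hB⟩ := (bu_tf (n := n)).bd
  obtain ⟨C, hC0, hC⟩ := (bu_tf (n := n)).sd
  have hn0 : (0:ℝ) < n := by exact_mod_cast hn
  set q : ℝ := (n : ℝ) + 2 * s with hq
  have hq0 : 0 < q := by positivity
  have hI0 : 0 ≤ ∫ y : E n, bu y := integral_nonneg bu_nonneg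
  set A : ℝ := 3 ^ q * (C * KK n s / 2) + 3 ^ q * ∫ y : E n, bu y with hA
  have hKK := KK_nonneg (n := n) (s := s)
  have hH : Integrable (fun x : E n => A * (1 + ‖x‖) ^ (-q)) := by
    refine (integrable_one_add_norm ?_).const_mul A
    rw [finrank_euclideanSpace_fin]
    linarith
  have hbd : ∀ τ : ℝ, 0 < τ → ∀ x : E n, |T s τ bu x| ≤ A * (1 + ‖x‖) ^ (-q) := by
    intro τ hτ x
    rcases lt_or_ge ‖x‖ 2 with h | h
    · have h1 := T_abs_le hn hs hs1 bu_tf.cd.continuous hB hC0 (hC x) hτ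
      have h2 : (3:ℝ) ^ (-q) ≤ (1 + ‖x‖) ^ (-q) :=
        Real.rpow_le_rpow_of_nonpos (by positivity) (by linarith) (by linarith)
      have h3 : (3:ℝ) ^ q * 3 ^ (-q) = 1 := by
        rw [← Real.rpow_add (by norm_num)]; simp
      calc |T s τ bu x| ≤ C * KK n s / 2 := h1
        _ = (3 ^ q * (C * KK n s / 2)) * 3 ^ (-q) := by
            calc C * KK n s / 2 = (3 ^ q * 3 ^ (-q)) * (C * KK n s / 2) := by rw [h3, one_mul]
              _ = _ := by ring
        _ ≤ (3 ^ q * (C * KK n s / 2)) * (1 + ‖x‖) ^ (-q) :=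
            mul_le_mul_of_nonneg_left h2 (by positivity)
        _ ≤ A * (1 + ‖x‖) ^ (-q) := by
            apply mul_le_mul_of_nonneg_right _ (by positivity)
            rw [hA]
            have : 0 ≤ 3 ^ q * ∫ y : E n, bu y := by positivity
            linarith
    · have h1 := T_far hn hs h hτ
      have h2 : (‖x‖ / 2) ^ (-q) ≤ 3 ^ q * (1 + ‖x‖) ^ (-q) := by
        have h3 : (1 + ‖x‖) / 3 ≤ ‖x‖ / 2 := by linarith
        have h4 : (‖x‖ / 2) ^ (-q) ≤ ((1 + ‖x‖) / 3) ^ (-q) :=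
          Real.rpow_le_rpow_of_nonpos (by positivity) h3 (by linarith)
        refine h4.trans (le_of_eq ?_)
        rw [Real.div_rpow (by positivity) (by norm_num), Real.rpow_neg (show (0:ℝ) ≤ 3 by norm_num)]
        field_simp
      calc |T s τ bu x| ≤ (‖x‖ / 2) ^ (-q) * ∫ y : E n, bu y := h1
        _ ≤ (3 ^ q * (1 + ‖x‖) ^ (-q)) * ∫ y : E n, bu y := mul_le_mul_of_nonneg_right h2 hI0
        _ = (3 ^ q * ∫ y : E n, bu y) * (1 + ‖x‖) ^ (-q) := by ring
        _ ≤ A * (1 + ‖x‖) ^ (-q) := by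
            apply mul_le_mul_of_nonneg_right _ (by positivity)
            rw [hA]
            have : 0 ≤ 3 ^ q * (C * KK n s / 2) := by positivity
            linarith
  have hlim : ∀ x : E n, Tendsto (fun τ => T s τ bu x) (𝓝[>] 0) (𝓝 (Lop s bu x)) := fun x =>
    T_tendsto hn hs hs1 bu_tf.cd.continuous hB (hC x)
  have hLb : ∀ x : E n, |Lop s bu x| ≤ A * (1 + ‖x‖) ^ (-q) := by
    intro x
    refine le_of_tendsto (hlim x).abs ?_
    filter_upwards [self_mem_nhdsWithin] with τ hτ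
    exact hbd τ hτ x
  have hLi : Integrable (Lop s (bu : E n → ℝ)) :=
    hH.mono' (L_cont hn hs hs1 bu_tf).aestronglyMeasurable (Eventually.of_forall hLb)
  refine ⟨hLi, ?_⟩
  have h1 : Tendsto (fun τ => ∫ x : E n, T s τ bu x) (𝓝[>] 0) (𝓝 (∫ x : E n, Lop s bu x)) := by
    apply tendsto_integral_filter_of_dominated_convergence
      (fun x : E n => A * (1 + ‖x‖) ^ (-q))
    · filter_upwards [self_mem_nhdsWithin] with τ hτ
      exact (int_T hn hs hτ bu_tf).1.1
    · filter_upwards [self_mem_nhdsWithin] with τ hτ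
      exact Eventually.of_forall (hbd τ hτ)
    · exact hH
    · exact Eventually.of_forall hlim
  have h2 : Tendsto (fun τ => ∫ x : E n, T s τ bu x) (𝓝[>] 0) (𝓝 0) := by
    apply tendsto_const_nhds.congr'
    filter_upwards [self_mem_nhdsWithin] with τ hτ
    exact (int_T hn hs hτ bu_tf).2.symm
  exact tendsto_nhds_unique h1 h2

/-- radial profile -/
noncomputable def ell (s : ℝ) (e : E n) (ρ : ℝ) : ℝ := Lop s bu (ρ • e)

theorem TF.dir {η : E n → ℝ} (h : TF η) (e : E n) : TF (fun x => fderiv ℝ η x e) := by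
  constructor
  · have h1 : ContDiff ℝ ((⊤ : ℕ∞) : WithTop ℕ∞) (fderiv ℝ η) := by
      apply h.cd.fderiv_right
      norm_cast
    exact h1.clm_apply contDiff_const
  · exact (h.cs.fderiv (𝕜 := ℝ)).mono' (by
      intro x hx
      apply subset_tsupport
      intro h0
      apply hx
      show fderiv ℝ η x e = 0
      rw [h0]
      rfl)

/-- first derivative formula -/
theorem ell_deriv (hn : 0 < n) (hs : 0 < s) (hs1 : s < 1) (e : E n) (ρ : ℝ) :
    HasDerivAt (ell s e) (Lop s (fun x => fderiv ℝ bu x e) (ρ • e)) ρ := by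
  have h := bu_tf (n := n)
  have h' := h.dir e
  obtain ⟨C, hC0, hC⟩ := h.sd
  obtain ⟨C', hC0', hC'⟩ := h'.sd
  set η' : E n → ℝ := fun x => fderiv ℝ bu x e with hη'
  have hd : ∀ (t : ℝ) (z : E n), HasDerivAt (fun t : ℝ => bu (t • e + z)) (η' (t • e + z)) t := by
    intro t z
    have h1 : HasDerivAt (fun t : ℝ => t • e + z) e t := by
      have := ((hasDerivAt_id t).smul_const e).add_const z
      simpa using this
    have h2 : HasFDerivAt (bu : E n → ℝ) (fderiv ℝ bu (t • e + z)) (t • e + z) :=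
      (h.cd.differentiable (by simp) _).hasFDerivAt
    exact h2.comp_hasDerivAt t h1
  have key := hasDerivAt_integral_of_dominated_loc_of_deriv_le (μ := (volume : Measure (E n)))
    (F := fun (t : ℝ) (z : E n) => (2 * bu (t • e) - bu (t • e + z) - bu (t • e - z)) /
      ‖z‖ ^ ((n : ℝ) + 2 * s)) (x₀ := ρ) (s := univ)
    (bound := fun z => C' * (min 1 (‖z‖ ^ 2) / ‖z‖ ^ ((n : ℝ) + 2 * s)))
    (F' := fun (t : ℝ) (z : E n) => (2 * η' (t • e) - η' (t • e + z) - η' (t • e - z)) /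
      ‖z‖ ^ ((n : ℝ) + 2 * s)) univ_mem
    (Eventually.of_forall fun t => (SD_int hn hs hs1 h.cd.continuous (hC (t • e))).1)
    (SD_int hn hs hs1 h.cd.continuous (hC (ρ • e)))
    (SD_int hn hs hs1 h'.cd.continuous (hC' (ρ • e))).1
    (Eventually.of_forall fun z t _ => SD_le (hC' (t • e)) z)
    ((KK_int hn hs hs1).const_mul C')
    (Eventually.of_forall fun z t _ => by
      have d1 := (hd t 0).const_mul 2
      have d2 := hd t z
      have d3 := hd t (-z)
      simp only [add_zero] at d1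
      have d4 := ((d1.sub d2).sub d3).div_const (‖z‖ ^ ((n : ℝ) + 2 * s))
      simp only [← sub_eq_add_neg] at d4
      exact d4)
  exact key.2.div_const 2

end Pool.Agent.R212.FQ
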