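import Pool.Agent.R212.FQ3

set_option autoImplicit false
set_option maxHeartbeats 4000000

open MeasureTheory Filter Topology Set Metric

namespace Pool.Agent.R212.FQ

variable {n : ℕ} {s : ℝ}

/-- the weight -/
noncomputable def Th (s : ℝ) (e : E n) (ρ : ℝ) : ℝ := -(ρ ^ ((n : ℝ) + 2 * s) * ell s e ρ)

/-- its derivative -/
noncomputable def th (s : ℝ) (e : E n) (ρ : ℝ) : ℝ :=
  -((((n : ℝ) + 2 * s) * ρ ^ ((n : ℝ) + 2 * s - 1)) * ell s e ρ +
    ρ ^ ((n : ℝ) + 2 * s) * Lop s (fun x => fderiv ℝ bu x e) (ρ • e))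

theorem q_gt (hn : 0 < n) (hs : 0 < s) : 1 < (n : ℝ) + 2 * s := by
  have : (1:ℝ) ≤ n := by exact_mod_cast hn
  linarith

theorem Th_deriv (hn : 0 < n) (hs : 0 < s) (hs1 : s < 1) (e : E n) (ρ : ℝ) :
    HasDerivAt (Th s e) (th s e ρ) ρ := by
  have h1 : HasDerivAt (fun ρ : ℝ => ρ ^ ((n : ℝ) + 2 * s))
      (((n : ℝ) + 2 * s) * ρ ^ ((n : ℝ) + 2 * s - 1)) ρ :=
    Real.hasDerivAt_rpow_const (Or.inr (q_gt hn hs).le)
  exact (h1.mul (ell_deriv hn hs hs1 e ρ)).neg

theorem th_cont (hn : 0 < n) (hs : 0 < s) (hs1 : s < 1) (e : E n) : Continuous (th s e) := by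
  have hq := q_gt hn hs
  have h1 : Continuous (ell s e) := by
    have h := L_cont hn hs hs1 (bu_tf (n := n))
    unfold ell
    fun_prop
  have h2 : Continuous (fun ρ : ℝ => Lop s (fun x => fderiv ℝ bu x e) (ρ • e)) := by
    have h := L_cont hn hs hs1 ((bu_tf (n := n)).dir e)
    fun_prop
  have h3 : Continuous (fun ρ : ℝ => ρ ^ ((n : ℝ) + 2 * s - 1)) :=
    Real.continuous_rpow_const (by linarith)
  have h4 : Continuous (fun ρ : ℝ => ρ ^ ((n : ℝ) + 2 * s)) :=
    Real.continuous_rpow_const (by linarith)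
  unfold th
  fun_prop

theorem F_deriv_bound {e : E n} (he : ‖e‖ = 1) {q : ℝ} (hq : 0 < q) {t : ℝ} (ht : 1 < t)
    {y : E n} (hy : ‖y‖ ≤ 1) :
    |(q * t ^ (q - 1)) * ‖-y + t • e‖ ^ (-q) +
      t ^ q * (-q * (inner ℝ (-y + t • e) e * ‖-y + t • e‖ ^ (-(q + 2))))| ≤
      q * t ^ (q - 1) * (t - 1) ^ (-(q + 1)) := by
  set N : E n := -y + t • e with hN
  have hN1 : t - 1 ≤ ‖N‖ := by
    have h1 : ‖t • e‖ ≤ ‖N‖ + ‖y‖ := by
      calc ‖t • e‖ = ‖N + y‖ := by rw [hN]; congr 1; abel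
        _ ≤ _ := norm_add_le _ _
    rw [norm_smul, he, mul_one, Real.norm_of_nonneg (by linarith)] at h1
    linarith
  have hN0 : 0 < ‖N‖ := by linarith
  have e1 : ‖N‖ ^ (-q) = ‖N‖ ^ 2 * ‖N‖ ^ (-(q + 2)) := by
    rw [← Real.rpow_natCast, ← Real.rpow_add hN0]
    congr 1
    push_cast
    ring
  have e2 : t ^ q = t ^ (q - 1) * t := by
    rw [Real.rpow_sub_one (by linarith)]
    field_simp
  have e3 : ‖N‖ ^ 2 = inner ℝ N (-y) + t * inner ℝ N e := by
    rw [← real_inner_self_eq_norm_sq]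
    nth_rw 2 [hN]
    rw [inner_add_right, inner_smul_right]
  have e4 : (q * t ^ (q - 1)) * ‖N‖ ^ (-q) +
      t ^ q * (-q * (inner ℝ N e * ‖N‖ ^ (-(q + 2)))) =
      q * t ^ (q - 1) * (‖N‖ ^ (-(q + 2)) * inner ℝ N (-y)) := by
    rw [e1, e2, e3]
    ring
  have e5 : |inner ℝ N (-y)| ≤ ‖N‖ := by
    refine (abs_real_inner_le_norm N (-y)).trans ?_
    rw [norm_neg]
    nlinarith
  have e6 : ‖N‖ ^ (-(q + 2)) * ‖N‖ = ‖N‖ ^ (-(q + 1)) := by
    nth_rw 2 [← Real.rpow_one ‖N‖]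
    rw [← Real.rpow_add hN0]
    congr 1
    ring
  have e7 : ‖N‖ ^ (-(q + 1)) ≤ (t - 1) ^ (-(q + 1)) :=
    Real.rpow_le_rpow_of_nonpos (by linarith) hN1 (by linarith)
  have hqt : 0 ≤ q * t ^ (q - 1) := mul_nonneg hq.le (Real.rpow_nonneg (by linarith) _)
  rw [e4, abs_mul, abs_of_nonneg hqt]
  apply mul_le_mul_of_nonneg_left _ hqt
  rw [abs_mul, abs_of_nonneg (Real.rpow_nonneg (norm_nonneg _) _)]
  refine le_trans (mul_le_mul_of_nonneg_left e5 (Real.rpow_nonneg (norm_nonneg _) _)) ?_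
  rw [e6]
  exact e7

theorem Th_far (hn : 0 < n) (hs : 0 < s) {e : E n} (he : ‖e‖ = 1) {t : ℝ} (ht : 1 < t) :
    Integrable (fun y : E n => bu y * (t ^ ((n : ℝ) + 2 * s) *
      ‖-y + t • e‖ ^ (-((n : ℝ) + 2 * s)))) ∧
    Th s e t = ∫ y : E n, bu y * (t ^ ((n : ℝ) + 2 * s) * ‖-y + t • e‖ ^ (-((n : ℝ) + 2 * s))) := by
  have hte : 1 < ‖t • e‖ := by
    rw [norm_smul, he, mul_one, Real.norm_of_nonneg (by linarith)]
    exact ht
  obtain ⟨h1, h2⟩ := L_far (s := s) hn hs hte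
  have e1 : ∀ y : E n, bu y * (t ^ ((n : ℝ) + 2 * s) * ‖-y + t • e‖ ^ (-((n : ℝ) + 2 * s))) =
      t ^ ((n : ℝ) + 2 * s) * (bu y / ‖t • e - y‖ ^ ((n : ℝ) + 2 * s)) := by
    intro y
    rw [Real.rpow_neg (norm_nonneg _), show -y + t • e = t • e - y by abel]
    ring
  constructor
  · refine (h1.const_mul (t ^ ((n : ℝ) + 2 * s))).congr (Eventually.of_forall fun y => ?_)
    exact (e1 y).symm
  · unfold Th ell
    rw [h2]
    simp only [e1]
    rw [integral_const_mul]
    ring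

theorem th_far (hn : 0 < n) (hs : 0 < s) (hs1 : s < 1) {e : E n} (he : ‖e‖ = 1) {t : ℝ}
    (ht : 2 ≤ t) :
    |th s e t| ≤ ((n : ℝ) + 2 * s) * 2 ^ ((n : ℝ) + 2 * s + 1) * (∫ y : E n, bu y) *
      t ^ (-2 : ℝ) := by
  set q : ℝ := (n : ℝ) + 2 * s with hq
  have hq1 : 1 < q := q_gt hn hs
  have hI0 : 0 ≤ ∫ y : E n, bu y := integral_nonneg bu_nonneg
  set F' : ℝ → E n → ℝ := fun t y => bu y * ((q * t ^ (q - 1)) * ‖-y + t • e‖ ^ (-q) +
      t ^ q * (-q * (inner ℝ (-y + t • e) e * ‖-y + t • e‖ ^ (-(q + 2))))) with hF'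
  have hb : ∀ (t : ℝ), 1 < t → ∀ y : E n, ‖F' t y‖ ≤ bu y *
      (q * t ^ (q - 1) * (t - 1) ^ (-(q + 1))) := by
    intro t ht y
    by_cases hy : ‖y‖ ≤ 1
    · rw [hF', norm_mul, Real.norm_of_nonneg (bu_nonneg y)]
      exact mul_le_mul_of_nonneg_left (F_deriv_bound he (by linarith) ht hy) (bu_nonneg y)
    · have : bu y = 0 := bu_out (not_le.1 hy).le
      simp only [hF', this, zero_mul, norm_zero, le_refl]
  have hbc := (bu_tf (n := n)).cd.continuous
  have key := hasDerivAt_integral_of_dominated_loc_of_deriv_le (μ := (volume : Measure (E n)))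
    (F := fun (t : ℝ) (y : E n) => bu y * (t ^ q * ‖-y + t • e‖ ^ (-q))) (x₀ := t)
    (s := Ioo (3/2) (t + 1))
    (bound := fun y => bu y * (q * (t + 1) ^ (q - 1) * (1/2 : ℝ) ^ (-(q + 1))))
    (F' := F') (Ioo_mem_nhds (by linarith) (by linarith))
    (by
      filter_upwards [Ioi_mem_nhds (show (1:ℝ) < t by linarith)] with t' ht'
      exact (Th_far hn hs he ht').1.1)
    (Th_far hn hs he (show (1:ℝ) < t by linarith)).1
    (by
      have m1 : Measurable fun y : E n => ‖-y + t • e‖ := by fun_prop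
      have m2 : Measurable fun y : E n => (inner ℝ (-y + t • e) e : ℝ) := by fun_prop
      have m3 := hbc.measurable
      apply Measurable.aestronglyMeasurable
      show Measurable fun y : E n => bu y * ((q * t ^ (q - 1)) * ‖-y + t • e‖ ^ (-q) +
        t ^ q * (-q * (inner ℝ (-y + t • e) e * ‖-y + t • e‖ ^ (-(q + 2)))))
      fun_prop)
    (Eventually.of_forall fun y t' ht' => by
      refine (hb t' (by linarith [ht'.1]) y).trans ?_
      apply mul_le_mul_of_nonneg_left _ (bu_nonneg y)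
      have a1 : t' ^ (q - 1) ≤ (t + 1) ^ (q - 1) :=
        Real.rpow_le_rpow (by linarith [ht'.1]) ht'.2.le (by linarith)
      have a2 : (t' - 1) ^ (-(q + 1)) ≤ (1/2 : ℝ) ^ (-(q + 1)) :=
        Real.rpow_le_rpow_of_nonpos (by norm_num) (by linarith [ht'.1]) (by linarith)
      have a3 : 0 ≤ (t + 1) ^ (q - 1) := Real.rpow_nonneg (by linarith) _
      have a4 : 0 ≤ (t' - 1) ^ (-(q + 1)) := Real.rpow_nonneg (by linarith [ht'.1]) _
      apply mul_le_mul _ a2 a4 (by positivity)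
      exact mul_le_mul_of_nonneg_left a1 (by linarith))
    ((bu_tf (n := n)).int.mul_const _)
    (Eventually.of_forall fun y t' ht' => by
      by_cases hy : ‖y‖ ≤ 1
      · have hN : -y + t' • e ≠ 0 := by
          intro h
          have h1 : y = t' • e := by
            have := add_eq_zero_iff_eq_neg.1 h
            rw [← neg_inj, this]
          rw [h1, norm_smul, he, mul_one, Real.norm_of_nonneg (by linarith [ht'.1])] at hy
          linarith [ht'.1]
        have d1 : HasDerivAt (fun t : ℝ => t ^ q) (q * t' ^ (q - 1)) t' :=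
          Real.hasDerivAt_rpow_const (Or.inr hq1.le)
        have d2 := Pool.Agent.H305R3.FC.hasDerivAt_norm_rpow (-y) e q t' hN
        exact (d1.mul d2).const_mul (bu y)
      · have hy0 : bu y = 0 := bu_out (not_le.1 hy).le
        simp only [hF', hy0, zero_mul]
        exact hasDerivAt_const _ _)
  have e0 : Th s e =ᶠ[𝓝 t] fun t => ∫ y : E n, bu y * (t ^ q * ‖-y + t • e‖ ^ (-q)) := by
    filter_upwards [Ioi_mem_nhds (show (1:ℝ) < t by linarith)] with t' ht'
    exact (Th_far hn hs he ht').2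
  have e1 : th s e t = ∫ y : E n, F' t y :=
    (Th_deriv hn hs hs1 e t).unique (key.2.congr_of_eventuallyEq e0)
  have ht1 : 1 < t := by linarith
  have e2 : |th s e t| ≤ ∫ y : E n, bu y * (q * t ^ (q - 1) * (t - 1) ^ (-(q + 1))) := by
    rw [e1]
    exact norm_integral_le_of_norm_le ((bu_tf (n := n)).int.mul_const _)
      (Eventually.of_forall fun y => hb t ht1 y)
  refine e2.trans ?_
  rw [integral_mul_const]
  have a1 : (t - 1) ^ (-(q + 1)) ≤ (t / 2) ^ (-(q + 1)) :=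
    Real.rpow_le_rpow_of_nonpos (by linarith) (by linarith) (by linarith)
  have a2 : t ^ (q - 1) * (t / 2) ^ (-(q + 1)) = 2 ^ (q + 1) * t ^ (-2 : ℝ) := by
    have b1 : t ^ (-2 : ℝ) = t ^ (q - 1) * t ^ (-(q + 1)) := by
      rw [← Real.rpow_add (by linarith)]
      congr 1
      ring
    rw [Real.div_rpow (by linarith) (by norm_num), Real.rpow_neg (show (0:ℝ) ≤ 2 by norm_num), b1]
    rw [div_inv_eq_mul]
    ring
  have a3 : 0 ≤ t ^ (q - 1) := Real.rpow_nonneg (by linarith) _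
  calc (∫ y : E n, bu y) * (q * t ^ (q - 1) * (t - 1) ^ (-(q + 1)))
      ≤ (∫ y : E n, bu y) * (q * t ^ (q - 1) * (t / 2) ^ (-(q + 1))) := by
        apply mul_le_mul_of_nonneg_left _ hI0
        exact mul_le_mul_of_nonneg_left a1 (by positivity)
    _ = (∫ y : E n, bu y) * (q * (t ^ (q - 1) * (t / 2) ^ (-(q + 1)))) := by ring
    _ = _ := by rw [a2]; ring

theorem th_near (hn : 0 < n) (hs : 0 < s) (hs1 : s < 1) (e : E n) :
    ∃ C : ℝ, 0 ≤ C ∧ ∀ t : ℝ, 0 < t → t ≤ 2 → |th s e t| ≤ C * t ^ ((n : ℝ) + 2 * s - 1) := by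
  obtain ⟨C, hC0, hC⟩ := (bu_tf (n := n)).sd
  obtain ⟨C', hC0', hC'⟩ := ((bu_tf (n := n)).dir e).sd
  have hKK := KK_nonneg (n := n) (s := s)
  have hq1 := q_gt hn hs
  refine ⟨((n : ℝ) + 2 * s) * (C * KK n s / 2) + 2 * (C' * KK n s / 2), by positivity,
    fun t ht0 ht => ?_⟩
  set q : ℝ := (n : ℝ) + 2 * s with hq
  have h1 : |ell s e t| ≤ C * KK n s / 2 := L_abs_le hn hs hs1 (hC _)
  have h2 : |Lop s (fun x => fderiv ℝ bu x e) (t • e)| ≤ C' * KK n s / 2 :=
    L_abs_le hn hs hs1 (hC' _)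
  have h3 : t ^ q = t ^ (q - 1) * t := by
    rw [Real.rpow_sub_one (by linarith)]
    field_simp
  have h4 : 0 ≤ t ^ (q - 1) := Real.rpow_nonneg ht0.le _
  have e1 : th s e t = -(((q * t ^ (q - 1)) * ell s e t) +
    t ^ q * Lop s (fun x => fderiv ℝ bu x e) (t • e)) := rfl
  rw [e1, abs_neg]
  refine (abs_add_le _ _).trans ?_
  rw [abs_mul (q * t ^ (q - 1)), abs_mul (t ^ q), abs_of_nonneg (show 0 ≤ q * t ^ (q - 1) by
    positivity), h3, abs_of_nonneg (show 0 ≤ t ^ (q - 1) * t by positivity)]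
  have a1 : q * t ^ (q - 1) * |ell s e t| ≤ q * t ^ (q - 1) * (C * KK n s / 2) :=
    mul_le_mul_of_nonneg_left h1 (by positivity)
  have a2 : t ^ (q - 1) * t * |Lop s (fun x => fderiv ℝ bu x e) (t • e)| ≤
      t ^ (q - 1) * 2 * (C' * KK n s / 2) := by
    apply mul_le_mul _ h2 (abs_nonneg _) (by positivity)
    exact mul_le_mul_of_nonneg_left ht h4
  linarith

/-- limit at infinity -/
theorem Th_lim (hn : 0 < n) (hs : 0 < s) {e : E n} (he : ‖e‖ = 1) :
    Tendsto (Th s e) atTop (𝓝 (∫ y : E n, bu y)) := by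
  have hq1 := q_gt hn hs
  set q : ℝ := (n : ℝ) + 2 * s with hq
  have hbc := (bu_tf (n := n)).cd.continuous
  have hk : ∀ t : ℝ, 1 < t → ∀ y : E n, t ^ q * ‖-y + t • e‖ ^ (-q) =
      ‖e - t⁻¹ • y‖ ^ (-q) := by
    intro t ht y
    have h1 : -y + t • e = t • (e - t⁻¹ • y) := by
      rw [smul_sub, smul_smul, mul_inv_cancel₀ (by linarith), one_smul]
      abel
    rw [h1, norm_smul, Real.norm_of_nonneg (by linarith),
      Real.mul_rpow (by linarith) (norm_nonneg _), ← mul_assoc, ← Real.rpow_add (by linarith)]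
    simp
  have key : Tendsto (fun t : ℝ => ∫ y : E n, bu y * ‖e - t⁻¹ • y‖ ^ (-q)) atTop
      (𝓝 (∫ y : E n, bu y)) := by
    apply tendsto_integral_filter_of_dominated_convergence (fun y : E n => bu y * 2 ^ q)
    · refine Eventually.of_forall fun t => ?_
      have m1 : Measurable fun y : E n => ‖e - t⁻¹ • y‖ := by fun_prop
      have m3 := hbc.measurable
      apply Measurable.aestronglyMeasurable
      fun_prop
    · filter_upwards [eventually_ge_atTop 2] with t ht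
      refine Eventually.of_forall fun y => ?_
      by_cases hy : ‖y‖ ≤ 1
      · rw [norm_mul, Real.norm_of_nonneg (bu_nonneg y),
          Real.norm_of_nonneg (Real.rpow_nonneg (norm_nonneg _) _)]
        apply mul_le_mul_of_nonneg_left _ (bu_nonneg y)
        have h1 : (1/2 : ℝ) ≤ ‖e - t⁻¹ • y‖ := by
          have h2 : ‖t⁻¹ • y‖ ≤ 1/2 := by
            rw [norm_smul, Real.norm_of_nonneg (by positivity)]
            have h3 : t⁻¹ ≤ 1/2 := by
              rw [one_div]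
              exact inv_anti₀ (by norm_num) ht
            have h4 : 0 ≤ t⁻¹ := by positivity
            nlinarith [norm_nonneg y]
          have h5 := norm_sub_norm_le e (t⁻¹ • y)
          rw [he] at h5
          linarith
        have h6 : ‖e - t⁻¹ • y‖ ^ (-q) ≤ (1/2 : ℝ) ^ (-q) :=
          Real.rpow_le_rpow_of_nonpos (by norm_num) h1 (by linarith)
        refine h6.trans (le_of_eq ?_)
        rw [one_div, Real.inv_rpow (by norm_num), Real.rpow_neg (by norm_num), inv_inv]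
      · have hy0 : bu y = 0 := bu_out (not_le.1 hy).le
        rw [hy0, zero_mul, zero_mul, norm_zero]
    · exact (bu_tf (n := n)).int.mul_const _
    · refine Eventually.of_forall fun y => ?_
      have h1 : Tendsto (fun t : ℝ => ‖e - t⁻¹ • y‖) atTop (𝓝 ‖e - (0:ℝ) • y‖) :=
        ((tendsto_const_nhds.sub (tendsto_inv_atTop_zero.smul_const y)).norm)
      rw [zero_smul, sub_zero, he] at h1
      have h2 := (h1.rpow_const (p := -q) (Or.inl one_ne_zero)).const_mul (bu y)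
      rw [Real.one_rpow, mul_one] at h2
      exact h2
  refine key.congr' ?_
  filter_upwards [eventually_gt_atTop 1] with t ht
  rw [(Th_far hn hs he ht).2]
  congr 1
  funext y
  rw [hk t ht y]

/-- integrability of `th` -/
theorem th_int (hn : 0 < n) (hs : 0 < s) (hs1 : s < 1) {e : E n} (he : ‖e‖ = 1) :
    IntegrableOn (th s e) (Ioi 0) := by
  have hc := th_cont hn hs hs1 e
  have h1 : IntegrableOn (th s e) (Ioc 0 2) := by
    have h0 : IntegrableOn (th s e) (Icc 0 2) := hc.continuousOn.integrableOn_Icc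
    exact h0.mono_set Ioc_subset_Icc_self
  have h2 : IntegrableOn (th s e) (Ioi 2) := by
    have hi : IntegrableOn (fun t : ℝ => ((n : ℝ) + 2 * s) * 2 ^ ((n : ℝ) + 2 * s + 1) *
        (∫ y : E n, bu y) * t ^ (-2 : ℝ)) (Ioi 2) :=
      (integrableOn_Ioi_rpow_of_lt (by norm_num) (by norm_num)).const_mul _
    refine hi.mono' hc.aestronglyMeasurable ?_
    rw [ae_restrict_iff' measurableSet_Ioi]
    exact Eventually.of_forall fun t ht => th_far hn hs hs1 he (le_of_lt ht)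
  have h3 := h1.union h2
  rwa [Ioc_union_Ioi_eq_Ioi (by norm_num)] at h3

theorem th_total (hn : 0 < n) (hs : 0 < s) (hs1 : s < 1) {e : E n} (he : ‖e‖ = 1) :
    ∫ t in Ioi 0, th s e t = ∫ y : E n, bu y := by
  have h := integral_Ioi_of_hasDerivAt_of_tendsto (a := (0:ℝ))
    (Th_deriv hn hs hs1 e 0).continuousAt.continuousWithinAt
    (fun t _ => Th_deriv hn hs hs1 e t) (th_int hn hs hs1 he) (Th_lim hn hs he)
  rw [h]
  have hq := q_gt hn hs
  have h0 : Th s e 0 = 0 := by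
    unfold Th
    rw [Real.zero_rpow (by linarith)]
    simp
  rw [h0, sub_zero]

theorem th_part (hn : 0 < n) (hs : 0 < s) (hs1 : s < 1) (e : E n) {r : ℝ} (hr : 0 ≤ r) :
    ∫ t in Ioc 0 r, th s e t = Th s e r := by
  rw [← intervalIntegral.integral_of_le hr]
  rw [intervalIntegral.integral_eq_sub_of_hasDerivAt (fun t _ => Th_deriv hn hs hs1 e t)
    ((th_cont hn hs hs1 e).intervalIntegrable 0 r)]
  have hq := q_gt hn hs
  have h0 : Th s e 0 = 0 := by
    unfold Th
    rw [Real.zero_rpow (by linarith)]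
    simp
  rw [h0, sub_zero]

/-- weighted integrability -/
theorem th_wint (hn : 0 < n) (hs : 0 < s) (hs1 : s < 1) {e : E n} (he : ‖e‖ = 1) :
    IntegrableOn (fun t => |th s e t| * t ^ (-(2 * s))) (Ioi 0) := by
  have hn1 : (1:ℝ) ≤ n := by exact_mod_cast hn
  have hc := th_cont hn hs hs1 e
  have hm : AEStronglyMeasurable (fun t : ℝ => |th s e t| * t ^ (-(2 * s))) volume := by
    apply Measurable.aestronglyMeasurable
    have := hc.measurable
    fun_prop
  obtain ⟨C, hC0, hC⟩ := th_near hn hs hs1 e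
  have h1 : IntegrableOn (fun t => |th s e t| * t ^ (-(2 * s))) (Ioc 0 2) := by
    have hi : IntegrableOn (fun t : ℝ => C * 2 ^ ((n : ℝ) - 1)) (Ioc (0:ℝ) 2) :=
      integrableOn_const (by simp)
    refine hi.mono' hm.restrict ?_
    rw [ae_restrict_iff' measurableSet_Ioc]
    refine Eventually.of_forall fun t ht => ?_
    have a1 := hC t ht.1 ht.2
    have a2 : t ^ ((n : ℝ) + 2 * s - 1) * t ^ (-(2 * s)) = t ^ ((n : ℝ) - 1) := by
      rw [← Real.rpow_add ht.1]
      congr 1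
      ring
    have a3 : t ^ ((n : ℝ) - 1) ≤ 2 ^ ((n : ℝ) - 1) :=
      Real.rpow_le_rpow ht.1.le ht.2 (by linarith)
    have a4 : 0 ≤ t ^ (-(2 * s)) := Real.rpow_nonneg ht.1.le _
    rw [norm_mul, Real.norm_of_nonneg (abs_nonneg _), Real.norm_of_nonneg a4]
    calc |th s e t| * t ^ (-(2 * s)) ≤ (C * t ^ ((n : ℝ) + 2 * s - 1)) * t ^ (-(2 * s)) :=
          mul_le_mul_of_nonneg_right a1 a4
      _ = C * (t ^ ((n : ℝ) + 2 * s - 1) * t ^ (-(2 * s))) := by ring
      _ = C * t ^ ((n : ℝ) - 1) := by rw [a2]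
      _ ≤ _ := mul_le_mul_of_nonneg_left a3 hC0
  have h2 : IntegrableOn (fun t => |th s e t| * t ^ (-(2 * s))) (Ioi 2) := by
    have hi : IntegrableOn (fun t : ℝ => |th s e t|) (Ioi 2) :=
      ((th_int hn hs hs1 he).mono_set (Ioi_subset_Ioi (by norm_num))).abs
    refine hi.mono' hm.restrict ?_
    rw [ae_restrict_iff' measurableSet_Ioi]
    refine Eventually.of_forall fun t ht => ?_
    have ht2 : 2 < t := ht
    have a4 : 0 ≤ t ^ (-(2 * s)) := Real.rpow_nonneg (by linarith) _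
    have a5 : t ^ (-(2 * s)) ≤ 1 := Real.rpow_le_one_of_one_le_of_nonpos (by linarith) (by linarith)
    rw [norm_mul, Real.norm_of_nonneg (abs_nonneg _), Real.norm_of_nonneg a4]
    exact mul_le_of_le_one_right (abs_nonneg _) a5
  have h3 := h1.union h2
  rwa [Ioc_union_Ioi_eq_Ioi (by norm_num)] at h3

end Pool.Agent.R212.FQ
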