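import Pool.Agent.R212.FQ4

set_option autoImplicit false
set_option maxHeartbeats 4000000

open MeasureTheory Filter Topology Set Metric

namespace Pool.Agent.R212.FQ

variable {n : ℕ} {s : ℝ}

theorem pow_q {r : ℝ} (hr : 0 < r) :
    r ^ ((n : ℝ) + 2 * s) * (r ^ n)⁻¹ = r ^ (2 * s) := by
  rw [Real.rpow_add hr, Real.rpow_natCast]
  field_simp

/-- scaling of truncated integrals -/
theorem scale_int (G : E n → ℝ) {r t : ℝ} (hr : 0 < r) :
    ∫ z in {z : E n | t < ‖z‖}, G (r • z) / ‖z‖ ^ ((n : ℝ) + 2 * s) =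
      r ^ (2 * s) * ∫ z in {z : E n | r * t < ‖z‖}, G z / ‖z‖ ^ ((n : ℝ) + 2 * s) := by
  rw [← integral_indicator (measSet _), ← integral_indicator (measSet _)]
  set g : E n → ℝ := ({z : E n | r * t < ‖z‖}).indicator
    (fun z => G z / ‖z‖ ^ ((n : ℝ) + 2 * s)) with hg
  have h1 := Measure.integral_comp_smul (volume : Measure (E n)) g r
  rw [finrank_euclideanSpace_fin, abs_of_pos (by positivity), smul_eq_mul] at h1
  have h2 : ∀ z : E n, ({z : E n | t < ‖z‖}).indicator
      (fun z => G (r • z) / ‖z‖ ^ ((n : ℝ) + 2 * s)) z = r ^ ((n : ℝ) + 2 * s) * g (r • z) := by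
    intro z
    have hz : ‖r • z‖ = r * ‖z‖ := by rw [norm_smul, Real.norm_of_nonneg hr.le]
    rw [hg]
    by_cases h : t < ‖z‖
    · rw [indicator_of_mem (show z ∈ {z : E n | t < ‖z‖} from h),
        indicator_of_mem (show r • z ∈ {z : E n | r * t < ‖z‖} by
          show r * t < ‖r • z‖
          rw [hz]
          exact mul_lt_mul_of_pos_left h hr), hz, Real.mul_rpow hr.le (norm_nonneg _)]
      have : r ^ ((n : ℝ) + 2 * s) ≠ 0 := (Real.rpow_pos_of_pos hr _).ne'
      field_simp
    · rw [indicator_of_notMem (show z ∉ {z : E n | t < ‖z‖} from h),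
        indicator_of_notMem (show r • z ∉ {z : E n | r * t < ‖z‖} by
          show ¬ r * t < ‖r • z‖
          rw [hz]
          exact fun h' => h (lt_of_mul_lt_mul_left h' hr.le)), mul_zero]
  simp only [h2]
  rw [integral_const_mul, h1, ← mul_assoc, pow_q (n := n) hr]

theorem kt_scale {t : ℝ} (ht : 0 < t) :
    ∫ z, kt n s t z = t ^ (-(2 * s)) * ∫ z, kt n s 1 z := by
  have h := scale_int (s := s) (fun _ : E n => (1:ℝ)) (t := 1) ht
  rw [mul_one] at h
  unfold kt
  rw [integral_indicator (measSet _), integral_indicator (measSet _), h, ← mul_assoc,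
    ← Real.rpow_add ht]
  simp

/-- the convolution kernel -/
noncomputable def Kr (s r : ℝ) (z : E n) : ℝ := r ^ (-((n : ℝ) + 2 * s)) * Lop s bu (r⁻¹ • z)

theorem Kr_int (hn : 0 < n) (hs : 0 < s) (hs1 : s < 1) {r : ℝ} (hr : 0 < r) :
    Integrable (Kr (n := n) s r) := by
  unfold Kr
  apply Integrable.const_mul
  exact (L_int hn hs hs1).1.comp_smul (inv_ne_zero hr.ne')

theorem Kr_even (r : ℝ) (z : E n) : Kr s r (-z) = Kr s r z := by
  unfold Kr
  rw [smul_neg, L_radial (norm_neg _)]

/-- the averaged operator -/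
noncomputable def hh (s r : ℝ) (φ : E n → ℝ) (x : E n) : ℝ := ∫ z, φ (x - z) * Kr s r z

theorem hh_eq {r : ℝ} (hr : 0 < r) (φ : E n → ℝ) (x : E n) :
    hh s r φ x = r ^ (-(2 * s)) * ∫ z, φ (x - r • z) * Lop s bu z := by
  have h1 := Measure.integral_comp_smul (volume : Measure (E n))
    (fun z : E n => φ (x - r • z) * Lop s bu z) r⁻¹
  rw [finrank_euclideanSpace_fin, abs_of_pos (by positivity), smul_eq_mul] at h1
  have h2 : ∀ z : E n, φ (x - z) * Kr s r z = r ^ (-((n : ℝ) + 2 * s)) *
      (φ (x - r • r⁻¹ • z) * Lop s bu (r⁻¹ • z)) := by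
    intro z
    rw [smul_smul, mul_inv_cancel₀ hr.ne', one_smul]
    unfold Kr
    ring
  unfold hh
  simp only [h2]
  rw [integral_const_mul, h1, ← mul_assoc]
  congr 1
  rw [inv_pow, inv_inv, ← Real.rpow_natCast, ← Real.rpow_add hr]
  congr 1
  ring

/-- joint measurability of the truncated kernel -/
theorem kt_meas : Measurable (fun p : ℝ × E n => kt n s p.1 p.2) := by
  have h : (fun p : ℝ × E n => kt n s p.1 p.2) =
      ({p : ℝ × E n | p.1 < ‖p.2‖}).indicator (fun p => 1 / ‖p.2‖ ^ ((n : ℝ) + 2 * s)) := by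
    funext p
    unfold kt
    by_cases hp : p.1 < ‖p.2‖
    · rw [indicator_of_mem (show p.2 ∈ {z : E n | p.1 < ‖z‖} from hp),
        indicator_of_mem (show p ∈ {p : ℝ × E n | p.1 < ‖p.2‖} from hp)]
    · rw [indicator_of_notMem (show p.2 ∉ {z : E n | p.1 < ‖z‖} from hp),
        indicator_of_notMem (show p ∉ {p : ℝ × E n | p.1 < ‖p.2‖} from hp)]
  rw [h]
  apply Measurable.indicator
  · fun_prop
  · exact measurableSet_lt (by fun_prop) (by fun_prop)

theorem fub (hn : 0 < n) (hs : 0 < s) (hs1 : s < 1) {e : E n} (he : ‖e‖ = 1) {φ : E n → ℝ}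
    (hφ : Continuous φ) {B : ℝ} (hB : ∀ y, |φ y| ≤ B) (x : E n) (r : ℝ) :
    Integrable (fun p : ℝ × E n => th s e p.1 * (kt n s p.1 p.2 * (φ x - φ (x - r • p.2))))
      ((volume.restrict (Ioi 0)).prod volume) := by
  have hB0 : 0 ≤ B := (abs_nonneg _).trans (hB x)
  have hth := th_cont hn hs hs1 e
  have hm : Measurable
      (fun p : ℝ × E n => th s e p.1 * (kt n s p.1 p.2 * (φ x - φ (x - r • p.2)))) := by
    have m1 := kt_meas (n := n) (s := s)
    have m2 : Measurable (fun p : ℝ × E n => φ x - φ (x - r • p.2)) := by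
      apply Continuous.measurable
      fun_prop
    have m3 : Measurable (fun p : ℝ × E n => th s e p.1) := by
      apply Continuous.measurable
      fun_prop
    exact m3.mul (m1.mul m2)
  have hb : ∀ t : ℝ, ∀ z : E n, ‖th s e t * (kt n s t z * (φ x - φ (x - r • z)))‖ ≤
      (|th s e t| * (2 * B)) * kt n s t z := by
    intro t z
    rw [norm_mul, norm_mul, Real.norm_eq_abs, Real.norm_of_nonneg (kt_nonneg _ _)]
    have h1 : ‖φ x - φ (x - r • z)‖ ≤ 2 * B := by
      refine (norm_sub_le _ _).trans ?_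
      have a1 := hB x
      have a2 := hB (x - r • z)
      rw [Real.norm_eq_abs, Real.norm_eq_abs]
      linarith
    calc |th s e t| * (kt n s t z * ‖φ x - φ (x - r • z)‖)
        ≤ |th s e t| * (kt n s t z * (2 * B)) := by
          apply mul_le_mul_of_nonneg_left _ (abs_nonneg _)
          exact mul_le_mul_of_nonneg_left h1 (kt_nonneg _ _)
      _ = _ := by ring
  have hi : ∀ t : ℝ, 0 < t →
      Integrable (fun z => th s e t * (kt n s t z * (φ x - φ (x - r • z)))) := by
    intro t ht
    refine ((kt_int hn hs ht).const_mul (|th s e t| * (2 * B))).mono' ?_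
      (Eventually.of_forall (hb t))
    exact (hm.comp (measurable_const.prodMk measurable_id)).aestronglyMeasurable
  rw [integrable_prod_iff hm.aestronglyMeasurable]
  constructor
  · rw [ae_restrict_iff' measurableSet_Ioi]
    exact Eventually.of_forall fun t ht => hi t ht
  · have h1 : Integrable (fun t => (|th s e t| * t ^ (-(2 * s))) * (2 * B * ∫ z, kt n s 1 z))
        (volume.restrict (Ioi 0)) := (th_wint hn hs hs1 he).mul_const _
    refine h1.mono' ?_ ?_
    · exact hm.norm.aestronglyMeasurable.integral_prod_right'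
    · rw [ae_restrict_iff' measurableSet_Ioi]
      refine Eventually.of_forall fun t ht => ?_
      rw [Real.norm_of_nonneg (integral_nonneg fun _ => norm_nonneg _)]
      calc ∫ z, ‖th s e t * (kt n s t z * (φ x - φ (x - r • z)))‖
          ≤ ∫ z, (|th s e t| * (2 * B)) * kt n s t z :=
            integral_mono (hi t ht).norm ((kt_int hn hs ht).const_mul _) (hb t)
        _ = _ := by
            rw [integral_const_mul, kt_scale ht]
            ring

/-- radial representation -/
theorem hh_radial (hn : 0 < n) (hs : 0 < s) (hs1 : s < 1) {e : E n} (he : ‖e‖ = 1) {φ : E n → ℝ}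
    (hφ : Continuous φ) {B : ℝ} (hB : ∀ y, |φ y| ≤ B) (x : E n) {r : ℝ} (hr : 0 < r) :
    IntegrableOn (fun t => th s e t * T s (r * t) φ x) (Ioi 0) ∧
    hh s r φ x = ∫ t in Ioi 0, th s e t * T s (r * t) φ x := by
  have := nontriv hn
  have hr2 : r ^ (-(2 * s)) * r ^ (2 * s) = 1 := by
    rw [← Real.rpow_add hr]; simp
  have hF := fub hn hs hs1 he hφ hB x r
  have hin : ∀ t : ℝ, ∫ z, th s e t * (kt n s t z * (φ x - φ (x - r • z))) =
      r ^ (2 * s) * (th s e t * T s (r * t) φ x) := by
    intro t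
    rw [integral_const_mul]
    have h1 := scale_int (s := s) (fun z => φ x - φ (x - z)) (t := t) hr
    have h2 : ∫ z, kt n s t z * (φ x - φ (x - r • z)) =
        ∫ z in {z : E n | t < ‖z‖}, (φ x - φ (x - r • z)) / ‖z‖ ^ ((n : ℝ) + 2 * s) := by
      rw [← integral_indicator (measSet _)]
      congr 1
      funext z
      unfold kt
      by_cases h : t < ‖z‖
      · rw [indicator_of_mem (show z ∈ {z : E n | t < ‖z‖} from h),
          indicator_of_mem (show z ∈ {z : E n | t < ‖z‖} from h)]
        ring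
      · rw [indicator_of_notMem (show z ∉ {z : E n | t < ‖z‖} from h),
          indicator_of_notMem (show z ∉ {z : E n | t < ‖z‖} from h)]
        ring
    rw [h2, h1]
    unfold T
    ring
  have hi1 : IntegrableOn (fun t => th s e t * T s (r * t) φ x) (Ioi 0) := by
    have h1 := hF.integral_prod_left
    have h2 := h1.const_mul (r ^ (-(2 * s)))
    refine h2.congr (Eventually.of_forall fun t => ?_)
    show r ^ (-(2 * s)) * ∫ z, th s e t * (kt n s t z * (φ x - φ (x - r • z))) = _
    rw [hin t, ← mul_assoc, hr2, one_mul]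
  refine ⟨hi1, ?_⟩
  have hsw := integral_integral_swap
    (f := fun t z => th s e t * (kt n s t z * (φ x - φ (x - r • z)))) hF
  have e1 : ∫ t in Ioi 0, ∫ z, th s e t * (kt n s t z * (φ x - φ (x - r • z))) =
      r ^ (2 * s) * ∫ t in Ioi 0, th s e t * T s (r * t) φ x := by
    simp only [hin]
    rw [integral_const_mul]
  have e2 : ∀ z : E n, z ≠ 0 →
      ∫ t in Ioi 0, th s e t * (kt n s t z * (φ x - φ (x - r • z))) =
      -(Lop s bu z) * (φ x - φ (x - r • z)) := by
    intro z hz
    have hz0 : 0 < ‖z‖ := norm_pos_iff.2 hz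
    have h1 : ∀ t : ℝ, th s e t * (kt n s t z * (φ x - φ (x - r • z))) =
        ((Iio ‖z‖).indicator (th s e) t) * ((φ x - φ (x - r • z)) / ‖z‖ ^ ((n : ℝ) + 2 * s)) := by
      intro t
      unfold kt
      by_cases h : t < ‖z‖
      · rw [indicator_of_mem (show z ∈ {z : E n | t < ‖z‖} from h),
          indicator_of_mem (show t ∈ Iio ‖z‖ from h)]
        ring
      · rw [indicator_of_notMem (show z ∉ {z : E n | t < ‖z‖} from h),
          indicator_of_notMem (show t ∉ Iio ‖z‖ from h)]
        ring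
    simp only [h1]
    rw [integral_mul_const, integral_indicator measurableSet_Iio,
      Measure.restrict_restrict measurableSet_Iio, inter_comm, Ioi_inter_Iio,
      ← integral_Ioc_eq_integral_Ioo, th_part hn hs hs1 e hz0.le]
    have h2 : ell s e ‖z‖ = Lop s bu z := by
      unfold ell
      apply L_radial
      rw [norm_smul, he, mul_one, norm_norm]
    unfold Th
    rw [h2]
    have : ‖z‖ ^ ((n : ℝ) + 2 * s) ≠ 0 := (Real.rpow_pos_of_pos hz0 _).ne'
    field_simp
  have e3 : ∫ z, ∫ t in Ioi 0, th s e t * (kt n s t z * (φ x - φ (x - r • z))) =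
      ∫ z, φ (x - r • z) * Lop s bu z := by
    have hL := L_int (n := n) hn hs hs1
    have h1 : ∫ z, ∫ t in Ioi 0, th s e t * (kt n s t z * (φ x - φ (x - r • z))) =
        ∫ z, (φ (x - r • z) * Lop s bu z - φ x * Lop s bu z) := by
      apply integral_congr_ae
      have h0 : ∀ᵐ z : E n, z ≠ 0 := by
        have : (volume : Measure (E n)) {0} = 0 := measure_singleton 0
        rw [ae_iff]
        simpa using this
      filter_upwards [h0] with z hz
      rw [e2 z hz]
      ring
    rw [h1, integral_sub _ (hL.1.const_mul _), integral_const_mul, hL.2, mul_zero, sub_zero]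
    refine hL.1.bdd_mul (c := B) ?_ (Eventually.of_forall fun z => hB _)
    apply Continuous.aestronglyMeasurable
    fun_prop
  rw [hh_eq hr, ← e3, ← hsw, e1, ← mul_assoc, hr2, one_mul]

theorem hh_bound (hn : 0 < n) (hs : 0 < s) (hs1 : s < 1) {e : E n} (he : ‖e‖ = 1) {φ : E n → ℝ}
    (hφ : Continuous φ) {B : ℝ} (hB : ∀ y, |φ y| ≤ B) {x : E n} {K : ℝ}
    (hK : ∀ τ : ℝ, 0 < τ → |T s τ φ x| ≤ K) {r : ℝ} (hr : 0 < r) :
    |hh s r φ x| ≤ K * ∫ t in Ioi 0, |th s e t| := by
  obtain ⟨h1, h2⟩ := hh_radial hn hs hs1 he hφ hB x hr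
  rw [h2, ← integral_const_mul, ← Real.norm_eq_abs]
  apply norm_integral_le_of_norm_le
  · exact ((th_int hn hs hs1 he).abs).const_mul K
  · rw [ae_restrict_iff' measurableSet_Ioi]
    refine Eventually.of_forall fun t ht => ?_
    rw [norm_mul, Real.norm_eq_abs, Real.norm_eq_abs, mul_comm]
    exact mul_le_mul_of_nonneg_right (hK _ (mul_pos hr ht)) (abs_nonneg _)

theorem hh_lim (hn : 0 < n) (hs : 0 < s) (hs1 : s < 1) {e : E n} (he : ‖e‖ = 1) {φ : E n → ℝ}
    (hφ : Continuous φ) {B : ℝ} (hB : ∀ y, |φ y| ≤ B) {x : E n} {K : ℝ}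
    (hK : ∀ τ : ℝ, 0 < τ → |T s τ φ x| ≤ K) {G : ℝ}
    (hG : Tendsto (fun τ => T s τ φ x) (𝓝[>] 0) (𝓝 G)) :
    Tendsto (fun r => hh s r φ x) (𝓝[>] 0) (𝓝 ((∫ y : E n, bu y) * G)) := by
  have key : Tendsto (fun r => ∫ t in Ioi 0, th s e t * T s (r * t) φ x) (𝓝[>] 0)
      (𝓝 (∫ t in Ioi 0, th s e t * G)) := by
    apply tendsto_integral_filter_of_dominated_convergence (fun t => |th s e t| * K)
    · filter_upwards [self_mem_nhdsWithin] with r hr
      exact (hh_radial hn hs hs1 he hφ hB x hr).1.1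
    · filter_upwards [self_mem_nhdsWithin] with r hr
      rw [ae_restrict_iff' measurableSet_Ioi]
      refine Eventually.of_forall fun t ht => ?_
      rw [norm_mul, Real.norm_eq_abs, Real.norm_eq_abs]
      exact mul_le_mul_of_nonneg_left (hK _ (mul_pos hr ht)) (abs_nonneg _)
    · exact ((th_int hn hs hs1 he).abs).mul_const K
    · rw [ae_restrict_iff' measurableSet_Ioi]
      refine Eventually.of_forall fun t ht => ?_
      have h1 : Tendsto (fun r : ℝ => r * t) (𝓝[>] 0) (𝓝[>] 0) := by
        apply tendsto_nhdsWithin_iff.2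
        constructor
        · have : Tendsto (fun r : ℝ => r * t) (𝓝 0) (𝓝 (0 * t)) :=
            (continuous_id.mul continuous_const).tendsto 0
          rw [zero_mul] at this
          exact this.mono_left nhdsWithin_le_nhds
        · filter_upwards [self_mem_nhdsWithin] with r hr
          have ht' : (0:ℝ) < t := ht
          exact mul_pos hr ht'
      exact (hG.comp h1).const_mul _
  rw [integral_mul_const, th_total hn hs hs1 he] at key
  refine key.congr' ?_
  filter_upwards [self_mem_nhdsWithin] with r hr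
  exact (hh_radial hn hs hs1 he hφ hB x hr).2.symm

end Pool.Agent.R212.FQ
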