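import Pool.Agent.R212.FQ5

set_option autoImplicit false
set_option maxHeartbeats 4000000

open MeasureTheory Filter Topology Set Metric

namespace Pool.Agent.R212.FQ

variable {n : ℕ} {s : ℝ}

/-- sup-convolution -/
theorem sup_conv {φ : E n → ℝ} (hφ : Continuous φ) {R0 : ℝ} (hR0 : ∀ x, R0 < ‖x‖ → φ x = 0)
    {δ : ℝ} (hδ : 0 < δ) (hδ1 : δ ≤ 1) :
    ∃ (ψ : E n → ℝ) (Y : E n → E n) (C : ℝ), Continuous ψ ∧ (∀ x, R0 + 1 < ‖x‖ → ψ x = 0) ∧
      (∀ x, |ψ x - φ x| ≤ δ) ∧ (∀ x, ‖Y x - x‖ ≤ δ) ∧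
      (∀ x h, ψ x - ψ (x + h) ≤ φ (Y x) - φ (Y x + h)) ∧ 0 ≤ C ∧
      ∀ x h, 2 * ψ x - ψ (x + h) - ψ (x - h) ≤ C * min 1 (‖h‖ ^ 2) := by
  have hcs : HasCompactSupport φ := by
    refine HasCompactSupport.intro (isCompact_closedBall (0 : E n) R0) fun x hx => ?_
    rw [mem_closedBall_zero_iff, not_le] at hx
    exact hR0 x hx
  have huc : UniformContinuous φ := hφ.uniformContinuous_of_tendsto_cocompact
    hcs.is_zero_at_infty
  obtain ⟨K, hK⟩ := hcs.exists_bound_of_continuous hφ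
  have hK' : ∀ x, |φ x| ≤ K := hK
  have hK0 : 0 ≤ K := (norm_nonneg _).trans (hK 0)
  rw [Metric.uniformContinuous_iff] at huc
  obtain ⟨ω, hω, hω2⟩ := huc δ hδ
  set r : ℝ := min (ω / 2) δ with hr
  have hr0 : 0 < r := lt_min (by positivity) hδ
  have hrδ : r ≤ δ := min_le_right _ _
  have hrω : r < ω := lt_of_le_of_lt (min_le_left _ _) (by linarith)
  set ε : ℝ := r ^ 2 / (4 * (K + 1)) with hε
  have hε0 : 0 < ε := by positivity
  set P : E n → E n → ℝ := fun x y => φ y - ‖x - y‖ ^ 2 / (2 * ε) with hP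
  have hex : ∀ x, ∃ y, ‖y - x‖ ≤ r ∧ ∀ y', P x y' ≤ P x y := by
    intro x
    have hc : Continuous (P x) := by
      rw [hP]
      fun_prop
    obtain ⟨y, hy1, hy2⟩ := (isCompact_closedBall x r).exists_isMaxOn
      ⟨x, mem_closedBall_self hr0.le⟩ hc.continuousOn
    refine ⟨y, ?_, fun y' => ?_⟩
    · rwa [mem_closedBall, dist_eq_norm] at hy1
    · by_cases h : y' ∈ closedBall x r
      · exact hy2 h
      · rw [mem_closedBall, dist_eq_norm, not_le] at h
        have h1 : P x x ≤ P x y := hy2 (mem_closedBall_self hr0.le)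
        have h2 : P x y' ≤ P x x := by
          rw [hP]
          simp only [sub_self, norm_zero]
          have h3 : r ^ 2 ≤ ‖x - y'‖ ^ 2 := by
            rw [norm_sub_rev]
            exact pow_le_pow_left₀ hr0.le h.le 2
          have h4 : r ^ 2 / (2 * ε) = 2 * (K + 1) := by
            rw [hε]
            field_simp
            norm_num
          have h5 : r ^ 2 / (2 * ε) ≤ ‖x - y'‖ ^ 2 / (2 * ε) :=
            div_le_div_of_nonneg_right h3 (by positivity)
          have h6 := abs_le.1 (hK' x)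
          have h7 := abs_le.1 (hK' y')
          rw [zero_pow two_ne_zero, zero_div]
          linarith [h6.1, h7.2]
        exact h2.trans h1
  choose Y hY1 hY2 using hex
  set ψ : E n → ℝ := fun x => P x (Y x) with hψ
  have hlow : ∀ x y, P x y ≤ ψ x := fun x y => hY2 x y
  have hshift : ∀ x h, ψ x - ψ (x + h) ≤ φ (Y x) - φ (Y x + h) := by
    intro x h
    have h1 := hlow (x + h) (Y x + h)
    have h2 : P (x + h) (Y x + h) = φ (Y x + h) - ‖x - Y x‖ ^ 2 / (2 * ε) := by
      rw [hP]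
      simp only [add_sub_add_right_eq_sub]
    have h3 : ψ x = φ (Y x) - ‖x - Y x‖ ^ 2 / (2 * ε) := rfl
    rw [h2] at h1
    linarith
  have hge : ∀ x, φ x ≤ ψ x := by
    intro x
    have h1 := hlow x x
    have h2 : P x x = φ x := by
      rw [hP]
      simp
    linarith
  have hle : ∀ x, ψ x ≤ φ (Y x) := by
    intro x
    have h3 : ψ x = φ (Y x) - ‖x - Y x‖ ^ 2 / (2 * ε) := rfl
    have h4 : 0 ≤ ‖x - Y x‖ ^ 2 / (2 * ε) := by positivity
    linarith
  have hclose : ∀ x, |ψ x - φ x| ≤ δ := by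
    intro x
    have h1 : dist (φ (Y x)) (φ x) < δ := hω2 (by
      rw [dist_eq_norm]
      exact lt_of_le_of_lt (hY1 x) hrω)
    rw [Real.dist_eq, abs_lt] at h1
    rw [abs_le]
    constructor
    · linarith [hge x]
    · linarith [hle x, h1.2]
  refine ⟨ψ, Y, 1 / ε + 4 * (K + 1), ?_, ?_, hclose, fun x => (hY1 x).trans hrδ, hshift,
    by positivity, ?_⟩
  · rw [Metric.continuous_iff]
    intro x ε' hε'
    have huc2 : UniformContinuous φ := hφ.uniformContinuous_of_tendsto_cocompact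
      hcs.is_zero_at_infty
    rw [Metric.uniformContinuous_iff] at huc2
    obtain ⟨ω', hω', hω'2⟩ := huc2 ε' hε'
    refine ⟨ω', hω', fun y hy => ?_⟩
    rw [dist_eq_norm] at hy
    have h1 := hshift x (y - x)
    have h2 := hshift y (x - y)
    rw [add_sub_cancel] at h1 h2
    have h3 : dist (φ (Y x)) (φ (Y x + (y - x))) < ε' := hω'2 (by
      rw [dist_eq_norm]
      simpa [norm_sub_rev] using hy)
    have h4 : dist (φ (Y y)) (φ (Y y + (x - y))) < ε' := hω'2 (by
      rw [dist_eq_norm]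
      have : Y y - (Y y + (x - y)) = y - x := by abel
      rw [this]
      exact hy)
    rw [Real.dist_eq, abs_lt] at h3 h4 ⊢
    constructor
    · linarith [h3.2]
    · linarith [h4.2]
  · intro x hx
    have h1 : φ x = 0 := hR0 x (by linarith)
    have h2 : φ (Y x) = 0 := by
      apply hR0
      have h3 : ‖x‖ ≤ ‖Y x‖ + ‖Y x - x‖ := by
        calc ‖x‖ = ‖Y x - (Y x - x)‖ := by congr 1; abel
          _ ≤ _ := norm_sub_le _ _
      have h4 := hY1 x
      linarith
    have h5 := hge x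
    have h6 := hle x
    linarith
  · intro x h
    have hb : ∀ x, |ψ x| ≤ K + 1 := by
      intro x
      have h1 := hclose x
      have h2 := hK' x
      rw [abs_le] at h1 h2 ⊢
      constructor <;> linarith [h1.1, h1.2, h2.1, h2.2]
    have e1 : 2 * ψ x - ψ (x + h) - ψ (x - h) ≤ 4 * (K + 1) := by
      have a1 := abs_le.1 (hb x)
      have a2 := abs_le.1 (hb (x + h))
      have a3 := abs_le.1 (hb (x - h))
      linarith [a1.2, a2.1, a3.1]
    have e2 : 2 * ψ x - ψ (x + h) - ψ (x - h) ≤ 1 / ε * ‖h‖ ^ 2 := by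
      have a1 := hlow (x + h) (Y x)
      have a2 := hlow (x - h) (Y x)
      have a3 := parallelogram_law_with_norm ℝ (x - Y x) h
      have h3 : ψ x = φ (Y x) - ‖x - Y x‖ ^ 2 / (2 * ε) := rfl
      have h4 : P (x + h) (Y x) = φ (Y x) - ‖x - Y x + h‖ ^ 2 / (2 * ε) := by
        rw [hP]
        simp only
        rw [show x + h - Y x = x - Y x + h by abel]
      have h5 : P (x - h) (Y x) = φ (Y x) - ‖x - Y x - h‖ ^ 2 / (2 * ε) := by
        rw [hP]
        simp only
        rw [show x - h - Y x = x - Y x - h by abel]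
      rw [h4] at a1
      rw [h5] at a2
      have h6 : ‖x - Y x + h‖ ^ 2 / (2 * ε) + ‖x - Y x - h‖ ^ 2 / (2 * ε) =
          2 * (‖x - Y x‖ ^ 2 / (2 * ε)) + 1 / ε * ‖h‖ ^ 2 := by
        have : ‖x - Y x + h‖ ^ 2 + ‖x - Y x - h‖ ^ 2 = 2 * (‖x - Y x‖ ^ 2 + ‖h‖ ^ 2) := by
          nlinarith [a3]
        rw [← add_div, this]
        field_simp
      rw [h3]
      linarith
    have hn0 : 0 ≤ ‖h‖ ^ 2 := by positivity
    have hε1 : 0 < 1 / ε := by positivity
    rcases le_total 1 (‖h‖ ^ 2) with h2 | h2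
    · rw [min_eq_left h2]
      linarith
    · rw [min_eq_right h2]
      nlinarith

end Pool.Agent.R212.FQ
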