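import Pool.Agent.R212.FQ6

set_option autoImplicit false
set_option maxHeartbeats 4000000

open MeasureTheory Filter Topology Set Metric

namespace Pool.Agent.R212.FQ

variable {n : ℕ} {s : ℝ}

/-- one-sided bound of the truncated operator of a semiconvex function -/
theorem T_le_semi (hn : 0 < n) (hs : 0 < s) (hs1 : s < 1) {ψ : E n → ℝ} (hψ : Continuous ψ)
    {B : ℝ} (hB : ∀ y, |ψ y| ≤ B) {C : ℝ} (hC0 : 0 ≤ C) {x : E n}
    (hC : ∀ h, 2 * ψ x - ψ (x + h) - ψ (x - h) ≤ C * min 1 (‖h‖ ^ 2)) {τ : ℝ} (hτ : 0 < τ) :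
    T s τ ψ x ≤ C * KK n s / 2 := by
  rw [T_sym hn hs hτ hψ hB]
  apply div_le_div_of_nonneg_right _ (by norm_num)
  unfold KK
  rw [← integral_const_mul]
  have hi := (KK_int (n := n) hn hs hs1).const_mul C
  have h1 : ∫ z in {z : E n | τ < ‖z‖},
      (2 * ψ x - ψ (x + z) - ψ (x - z)) / ‖z‖ ^ ((n : ℝ) + 2 * s) ≤
      ∫ z in {z : E n | τ < ‖z‖}, C * (min 1 (‖z‖ ^ 2) / ‖z‖ ^ ((n : ℝ) + 2 * s)) := by
    apply integral_mono _ hi.integrableOn
    · intro z
      show (2 * ψ x - ψ (x + z) - ψ (x - z)) / ‖z‖ ^ ((n : ℝ) + 2 * s) ≤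
        C * (min 1 (‖z‖ ^ 2) / ‖z‖ ^ ((n : ℝ) + 2 * s))
      rw [mul_div_assoc']
      exact div_le_div_of_nonneg_right (hC z) (by positivity)
    · have h2 := (T_int' hn hs hτ hψ hB x).add (T_int hn hs hτ hψ hB x)
      refine h2.congr (Eventually.of_forall fun z => ?_)
      show (ψ x - ψ (x + z)) / ‖z‖ ^ ((n : ℝ) + 2 * s) +
        (ψ x - ψ (x - z)) / ‖z‖ ^ ((n : ℝ) + 2 * s) = _
      ring
  refine h1.trans ?_
  apply setIntegral_le_integral hi
  refine Eventually.of_forall fun z => ?_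
  show 0 ≤ C * (min 1 (‖z‖ ^ 2) / ‖z‖ ^ ((n : ℝ) + 2 * s))
  positivity

/-- comparison of truncated operators -/
theorem T_mono (hn : 0 < n) (hs : 0 < s) {ψ φ : E n → ℝ} (hψ : Continuous ψ)
    {B : ℝ} (hB : ∀ y, |ψ y| ≤ B) (hφ : Continuous φ) {B' : ℝ} (hB' : ∀ y, |φ y| ≤ B') {x y : E n}
    (h : ∀ k, ψ x - ψ (x + k) ≤ φ y - φ (y + k)) {τ : ℝ} (hτ : 0 < τ) :
    T s τ ψ x ≤ T s τ φ y := by
  unfold T
  apply integral_mono (T_int hn hs hτ hψ hB x) (T_int hn hs hτ hφ hB' y)
  intro z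
  show (ψ x - ψ (x - z)) / ‖z‖ ^ ((n : ℝ) + 2 * s) ≤ (φ y - φ (y - z)) / ‖z‖ ^ ((n : ℝ) + 2 * s)
  apply div_le_div_of_nonneg_right _ (by positivity)
  have := h (-z)
  rwa [← sub_eq_add_neg, ← sub_eq_add_neg] at this

/-- Step B -/
theorem ineq_semi (hn : 0 < n) (hs : 0 < s) (hs1 : s < 1) {ψ : E n → ℝ} (hψ : Continuous ψ)
    {B : ℝ} (hB : ∀ y, |ψ y| ≤ B) (hψi : Integrable ψ) {C : ℝ} (hC0 : 0 ≤ C)
    (hC : ∀ x h, 2 * ψ x - ψ (x + h) - ψ (x - h) ≤ C * min 1 (‖h‖ ^ 2))
    {η : E n → ℝ} (hη : TF η) (h0 : ∀ x, 0 ≤ η x) {M : ℝ} {g : ℝ → E n → ℝ} {G : E n → ℝ}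
    (hg : ∀ x, η x ≠ 0 → ∀ τ : ℝ, 0 < τ → T s τ ψ x ≤ g τ x)
    (hG : ∀ x, η x ≠ 0 → Tendsto (fun τ => g τ x) (𝓝[>] 0) (𝓝 (G x)))
    (hM : ∀ x, η x ≠ 0 → G x ≤ M) :
    ∫ x, ψ x * Lop s η x ≤ M * ∫ x, η x := by
  obtain ⟨B', hB'⟩ := hη.bd
  have hKK := KK_nonneg (n := n) (s := s)
  set P : ℝ → E n → ℝ := fun τ x => max (T s τ ψ x - M) 0 with hP
  have hPb : ∀ τ : ℝ, 0 < τ → ∀ x, |P τ x| ≤ C * KK n s / 2 + |M| := by
    intro τ hτ x
    rw [hP]
    simp only
    rw [abs_of_nonneg (le_max_right _ _)]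
    apply max_le
    · have h1 := T_le_semi hn hs hs1 hψ hB hC0 (hC x) hτ
      linarith [neg_abs_le M]
    · positivity
  have hPc : ∀ τ : ℝ, 0 < τ → Continuous (P τ) := fun τ hτ =>
    ((T_cont hn hs hτ hψ hB).sub continuous_const).max continuous_const
  have lim1 : Tendsto (fun τ => ∫ x, η x * P τ x) (𝓝[>] 0) (𝓝 (∫ x : E n, (0:ℝ))) := by
    apply tendsto_integral_filter_of_dominated_convergence
      (fun x => |η x| * (C * KK n s / 2 + |M|))
    · filter_upwards [self_mem_nhdsWithin] with τ hτ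
      exact (hη.cd.continuous.mul (hPc τ hτ)).aestronglyMeasurable
    · filter_upwards [self_mem_nhdsWithin] with τ hτ
      refine Eventually.of_forall fun x => ?_
      rw [norm_mul]
      exact mul_le_mul_of_nonneg_left (hPb τ hτ x) (norm_nonneg _)
    · exact hη.int.abs.mul_const _
    · refine Eventually.of_forall fun x => ?_
      by_cases hx : η x = 0
      · simp only [hx, zero_mul]
        exact tendsto_const_nhds
      · have h1 : Tendsto (fun τ => max (g τ x - M) 0) (𝓝[>] 0) (𝓝 (max (G x - M) 0)) :=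
          ((hG x hx).sub_const M).max tendsto_const_nhds
        rw [max_eq_right (by linarith [hM x hx])] at h1
        have h2 : Tendsto (fun τ => P τ x) (𝓝[>] 0) (𝓝 0) := by
          apply tendsto_of_tendsto_of_tendsto_of_le_of_le' tendsto_const_nhds h1
          · exact Eventually.of_forall fun τ => le_max_right _ _
          · filter_upwards [self_mem_nhdsWithin] with τ hτ
            exact max_le_max (by linarith [hg x hx τ hτ]) le_rfl
        have h3 := h2.const_mul (η x)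
        rw [mul_zero] at h3
        exact h3
  rw [integral_zero] at lim1
  have lim2 := lim_T hn hs hs1 hη hψi
  have lim3 : Tendsto (fun τ => M * (∫ x, η x) + ∫ x, η x * P τ x) (𝓝[>] 0)
      (𝓝 (M * (∫ x, η x) + 0)) := lim1.const_add _
  rw [add_zero] at lim3
  refine le_of_tendsto_of_tendsto lim2 lim3 ?_
  filter_upwards [self_mem_nhdsWithin] with τ hτ
  rw [← T_symm hn hs hτ hη.cd.continuous hη.int hB' hψ hB hψi, ← integral_const_mul,
    ← integral_add]
  · apply integral_mono_ae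
    · have : Integrable (fun x => T s τ ψ x * η x) :=
        hη.int.bdd_mul (c := 2 * B * ∫ z, kt n s τ z) (T_cont hn hs hτ hψ hB).aestronglyMeasurable
          (Eventually.of_forall fun x => T_bd hn hs hτ hψ hB x)
      refine this.congr (Eventually.of_forall fun x => ?_)
      ring
    · apply Integrable.add (hη.int.const_mul M)
      have : Integrable (fun x => P τ x * η x) :=
        hη.int.bdd_mul (c := C * KK n s / 2 + |M|) (hPc τ hτ).aestronglyMeasurable
          (Eventually.of_forall fun x => hPb τ hτ x)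
      refine this.congr (Eventually.of_forall fun x => ?_)
      ring
    · refine Eventually.of_forall fun x => ?_
      show η x * T s τ ψ x ≤ M * η x + η x * P τ x
      have h1 : T s τ ψ x ≤ M + P τ x := by
        have := le_max_left (T s τ ψ x - M) 0
        show T s τ ψ x ≤ M + max (T s τ ψ x - M) 0
        linarith
      nlinarith [h0 x]
  · exact hη.int.const_mul M
  · have : Integrable (fun x => P τ x * η x) :=
      hη.int.bdd_mul (c := C * KK n s / 2 + |M|) (hPc τ hτ).aestronglyMeasurable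
        (Eventually.of_forall fun x => hPb τ hτ x)
    refine this.congr (Eventually.of_forall fun x => ?_)
    ring

/-- the distributional inequality -/
theorem ineq_I (hn : 0 < n) (hs : 0 < s) (hs1 : s < 1) {φ : E n → ℝ} (hφ : Continuous φ) {R0 : ℝ}
    (hR0 : ∀ x, R0 < ‖x‖ → φ x = 0) {Ω : Set (E n)} (hΩ : IsOpen Ω) {M : ℝ} {G : E n → ℝ}
    (hG : ∀ x ∈ Ω, Tendsto (fun τ => T s τ φ x) (𝓝[>] 0) (𝓝 (G x))) (hM : ∀ x ∈ Ω, G x ≤ M)
    {η : E n → ℝ} (hη : TF η) (h0 : ∀ x, 0 ≤ η x) (hsup : tsupport η ⊆ Ω) :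
    ∫ x, φ x * Lop s η x ≤ M * ∫ x, η x := by
  obtain ⟨δ0, hδ0, hδ02⟩ := hη.cs.exists_cthickening_subset_open hΩ hsup
  have hcs : ∀ (R : ℝ) {f : E n → ℝ}, (∀ x, R < ‖x‖ → f x = 0) → HasCompactSupport f := by
    intro R f hf
    refine HasCompactSupport.intro (isCompact_closedBall (0 : E n) R) fun x hx => ?_
    rw [mem_closedBall_zero_iff, not_le] at hx
    exact hf x hx
  obtain ⟨K, hK⟩ := (hcs R0 hR0).exists_bound_of_continuous hφ
  have hφi : Integrable φ := hφ.integrable_of_hasCompactSupport (hcs R0 hR0)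
  have hLc := L_cont hn hs hs1 hη
  have hLi : IntegrableOn (fun x => |Lop s η x|) (closedBall 0 (R0 + 1)) :=
    hLc.abs.continuousOn.integrableOn_compact (isCompact_closedBall _ _)
  set A : ℝ := ∫ x in closedBall (0 : E n) (R0 + 1), |Lop s η x| with hA
  have hA0 : 0 ≤ A := integral_nonneg fun x => abs_nonneg _
  apply le_of_forall_pos_le_add
  intro ε hε
  set δ : ℝ := min (min δ0 1) (ε / (A + 1)) with hδ
  have hδpos : 0 < δ := lt_min (lt_min hδ0 one_pos) (by positivity)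
  have hδ1 : δ ≤ 1 := (min_le_left _ _).trans (min_le_right _ _)
  have hδ2 : δ ≤ δ0 := (min_le_left _ _).trans (min_le_left _ _)
  have hδ3 : δ * A ≤ ε := by
    have h1 : δ ≤ ε / (A + 1) := min_le_right _ _
    have h2 : δ * (A + 1) ≤ ε := by
      rwa [le_div_iff₀ (by positivity)] at h1
    nlinarith
  obtain ⟨ψ, Y, C, hψ, hψs, hψφ, hY, hsh, hC0, hC⟩ := sup_conv hφ hR0 hδpos hδ1
  obtain ⟨B, hB⟩ := (hcs (R0 + 1) hψs).exists_bound_of_continuous hψ
  have hψi : Integrable ψ := hψ.integrable_of_hasCompactSupport (hcs (R0 + 1) hψs)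
  have hYΩ : ∀ x, η x ≠ 0 → Y x ∈ Ω := by
    intro x hx
    apply hδ02
    apply mem_cthickening_of_dist_le (Y x) x δ0 (tsupport η) (subset_tsupport η hx)
    rw [dist_eq_norm]
    exact (hY x).trans hδ2
  have key : ∫ x, ψ x * Lop s η x ≤ M * ∫ x, η x := by
    apply ineq_semi hn hs hs1 hψ hB hψi hC0 hC hη h0 (g := fun τ x => T s τ φ (Y x))
      (G := fun x => G (Y x))
    · intro x _ τ hτ
      exact T_mono hn hs hψ hB hφ hK (hsh x) hτ
    · intro x hx
      exact hG _ (hYΩ x hx)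
    · intro x hx
      exact hM _ (hYΩ x hx)
  have hmulcs : ∀ {f : E n → ℝ}, Continuous f → HasCompactSupport f →
      Integrable (fun x => f x * Lop s η x) := by
    intro f hf hfc
    exact (hf.mul hLc).integrable_of_hasCompactSupport hfc.mul_right
  have hdiff : (∫ x, φ x * Lop s η x) - ∫ x, ψ x * Lop s η x ≤ δ * A := by
    rw [← integral_sub (hmulcs hφ (hcs R0 hR0)) (hmulcs hψ (hcs _ hψs)), hA, ← integral_const_mul,
      ← integral_indicator measurableSet_closedBall]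
    apply integral_mono ((hmulcs hφ (hcs R0 hR0)).sub (hmulcs hψ (hcs _ hψs)))
    · rw [integrable_indicator_iff measurableSet_closedBall]
      exact hLi.const_mul δ
    · intro x
      show φ x * Lop s η x - ψ x * Lop s η x ≤ _
      by_cases hx : x ∈ closedBall (0 : E n) (R0 + 1)
      · rw [indicator_of_mem hx, ← sub_mul]
        have h1 := hψφ x
        have h2 : |(φ x - ψ x) * Lop s η x| ≤ δ * |Lop s η x| := by
          rw [abs_mul, abs_sub_comm]
          exact mul_le_mul_of_nonneg_right h1 (abs_nonneg _)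
        exact (le_abs_self _).trans h2
      · rw [indicator_of_notMem hx]
        rw [mem_closedBall_zero_iff, not_le] at hx
        rw [hR0 x (by linarith), hψs x hx]
        simp
  linarith

end Pool.Agent.R212.FQ
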