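import Pool.Agent.R212.FQ7

set_option autoImplicit false
set_option maxHeartbeats 4000000

open MeasureTheory Filter Topology Set Metric

namespace Pool.Agent.R212.FQ

variable {n : ℕ} {s : ℝ}

theorem L_scale (u : E n → ℝ) (x y : E n) {r : ℝ} (hr : 0 < r) :
    Lop s (fun y => u (r⁻¹ • (x - y))) y = r ^ (-(2 * s)) * Lop s u (r⁻¹ • (x - y)) := by
  set a : E n := r⁻¹ • (x - y) with ha
  have h1 := Measure.integral_comp_smul (volume : Measure (E n))
    (fun z : E n => (2 * u a - u (a + z) - u (a - z)) / ‖z‖ ^ ((n : ℝ) + 2 * s)) r⁻¹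
  rw [finrank_euclideanSpace_fin, abs_of_pos (by positivity), smul_eq_mul] at h1
  have h2 : ∀ z : E n, (2 * u a - u (r⁻¹ • (x - (y + z))) - u (r⁻¹ • (x - (y - z)))) /
      ‖z‖ ^ ((n : ℝ) + 2 * s) = r ^ (-((n : ℝ) + 2 * s)) *
      ((2 * u a - u (a + r⁻¹ • z) - u (a - r⁻¹ • z)) / ‖r⁻¹ • z‖ ^ ((n : ℝ) + 2 * s)) := by
    intro z
    have e1 : r⁻¹ • (x - (y + z)) = a - r⁻¹ • z := by
      rw [ha, ← smul_sub]
      congr 1
      abel
    have e2 : r⁻¹ • (x - (y - z)) = a + r⁻¹ • z := by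
      rw [ha, ← smul_add]
      congr 1
      abel
    have e3 : ‖r⁻¹ • z‖ = r⁻¹ * ‖z‖ := by
      rw [norm_smul, Real.norm_of_nonneg (by positivity)]
    rw [e1, e2, e3, Real.mul_rpow (by positivity) (norm_nonneg _), Real.inv_rpow hr.le,
      Real.rpow_neg hr.le]
    have : r ^ ((n : ℝ) + 2 * s) ≠ 0 := (Real.rpow_pos_of_pos hr _).ne'
    rw [show 2 * u a - u (a - r⁻¹ • z) - u (a + r⁻¹ • z) =
      2 * u a - u (a + r⁻¹ • z) - u (a - r⁻¹ • z) by ring]
    field_simp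
  unfold Lop
  simp only [← ha, h2]
  rw [integral_const_mul, h1, ← mul_assoc, mul_div_assoc]
  congr 1
  rw [inv_pow, inv_inv, ← Real.rpow_natCast, ← Real.rpow_add hr]
  congr 1
  ring

/-- scaled bump -/
theorem sb_tf (x : E n) {r : ℝ} (hr : 0 < r) : TF (fun y : E n => bu (r⁻¹ • (x - y))) ∧
    tsupport (fun y : E n => bu (r⁻¹ • (x - y))) ⊆ closedBall x r := by
  have hz : ∀ y : E n, y ∉ closedBall x r → bu (r⁻¹ • (x - y)) = 0 := by
    intro y hy
    rw [mem_closedBall, dist_eq_norm, not_le] at hy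
    apply bu_out
    rw [norm_smul, Real.norm_of_nonneg (by positivity), norm_sub_rev]
    rw [inv_mul_eq_div, le_div_iff₀ hr]
    linarith
  refine ⟨⟨?_, ?_⟩, ?_⟩
  · apply (bu_tf (n := n)).cd.comp
    fun_prop
  · exact HasCompactSupport.intro (isCompact_closedBall x r) hz
  · apply closure_minimal _ isClosed_closedBall
    intro y hy
    by_contra h
    exact hy (hz y h)

theorem sb_integral (x : E n) {r : ℝ} (hr : 0 < r) :
    ∫ y : E n, bu (r⁻¹ • (x - y)) = r ^ n * ∫ y : E n, bu y := by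
  rw [integral_sub_left_eq_self (fun y : E n => bu (r⁻¹ • y)) volume x]
  have h1 := Measure.integral_comp_smul (volume : Measure (E n)) (bu : E n → ℝ) r⁻¹
  rw [finrank_euclideanSpace_fin, abs_of_pos (by positivity), smul_eq_mul] at h1
  rw [h1, inv_pow, inv_inv]

/-- `hh` as a test integral -/
theorem hh_test (φ : E n → ℝ) (x : E n) {r : ℝ} (hr : 0 < r) :
    hh s r φ x = (r ^ n)⁻¹ * ∫ y, φ y * Lop s (fun y => bu (r⁻¹ • (x - y))) y := by
  unfold hh
  rw [← integral_sub_left_eq_self (fun z : E n => φ (x - z) * Kr s r z) volume x,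
    ← integral_const_mul]
  congr 1
  funext y
  rw [sub_sub_cancel, L_scale bu x y hr]
  unfold Kr
  have h1 : r ^ (-((n : ℝ) + 2 * s)) = (r ^ n)⁻¹ * r ^ (-(2 * s)) := by
    rw [← Real.rpow_natCast, ← Real.rpow_neg hr.le, ← Real.rpow_add hr]
    congr 1
    ring
  rw [h1]
  ring

theorem hh_le (hn : 0 < n) (hs : 0 < s) (hs1 : s < 1) {φ : E n → ℝ} (hφ : Continuous φ) {R0 : ℝ}
    (hR0 : ∀ x, R0 < ‖x‖ → φ x = 0) {Ω : Set (E n)} (hΩ : IsOpen Ω) {M : ℝ} {G : E n → ℝ}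
    (hG : ∀ x ∈ Ω, Tendsto (fun τ => T s τ φ x) (𝓝[>] 0) (𝓝 (G x))) (hM : ∀ x ∈ Ω, G x ≤ M)
    {x : E n} {r : ℝ} (hr : 0 < r) (hb : closedBall x r ⊆ Ω) :
    hh s r φ x ≤ M * ∫ y : E n, bu y := by
  obtain ⟨h1, h2⟩ := sb_tf x hr
  have h3 := ineq_I hn hs hs1 hφ hR0 hΩ hG hM h1 (fun y => bu_nonneg _) (h2.trans hb)
  rw [sb_integral x hr] at h3
  rw [hh_test φ x hr]
  have h4 : 0 < (r ^ n)⁻¹ := by positivity
  calc (r ^ n)⁻¹ * ∫ y, φ y * Lop s (fun y => bu (r⁻¹ • (x - y))) y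
      ≤ (r ^ n)⁻¹ * (M * (r ^ n * ∫ y : E n, bu y)) := mul_le_mul_of_nonneg_left h3 h4.le
    _ = _ := by
        have : r ^ n ≠ 0 := by positivity
        field_simp

theorem T_neg (τ : ℝ) (φ : E n → ℝ) (x : E n) : T s τ (fun y => -φ y) x = -T s τ φ x := by
  unfold T
  rw [← integral_neg]
  congr 1
  funext z
  ring

theorem hh_neg (r : ℝ) (φ : E n → ℝ) (x : E n) : hh s r (fun y => -φ y) x = -hh s r φ x := by
  unfold hh
  rw [← integral_neg]
  congr 1
  funext z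
  ring

theorem hh_abs_le (hn : 0 < n) (hs : 0 < s) (hs1 : s < 1) {φ : E n → ℝ} (hφ : Continuous φ)
    {R0 : ℝ} (hR0 : ∀ x, R0 < ‖x‖ → φ x = 0) {Ω : Set (E n)} (hΩ : IsOpen Ω) {M : ℝ}
    {G : E n → ℝ}
    (hG : ∀ x ∈ Ω, Tendsto (fun τ => T s τ φ x) (𝓝[>] 0) (𝓝 (G x))) (hM : ∀ x ∈ Ω, |G x| ≤ M)
    {x : E n} {r : ℝ} (hr : 0 < r) (hb : closedBall x r ⊆ Ω) :
    |hh s r φ x| ≤ M * ∫ y : E n, bu y := by
  have h1 := hh_le hn hs hs1 hφ hR0 hΩ hG (fun x hx => (abs_le.1 (hM x hx)).2) hr hb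
  have h2 := hh_le (φ := fun y => -φ y) (R0 := R0) (M := M) (G := fun x => -G x) hn hs hs1 hφ.neg
    (fun x hx => by simp [hR0 x hx]) hΩ
    (fun x hx => by
      simp only [T_neg]
      exact (hG x hx).neg)
    (fun x hx => by
      show -G x ≤ M
      linarith [(abs_le.1 (hM x hx)).1]) hr hb
  rw [hh_neg] at h2
  rw [abs_le]
  constructor <;> linarith

theorem hh_cont (hn : 0 < n) (hs : 0 < s) (hs1 : s < 1) {φ : E n → ℝ} (hφ : Continuous φ)
    {B : ℝ} (hB : ∀ y, |φ y| ≤ B) {r : ℝ} (hr : 0 < r) : Continuous (hh s r φ) := by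
  have hk := Kr_int (n := n) hn hs hs1 hr
  apply continuous_of_dominated (bound := fun z => B * |Kr s r z|)
  · intro x
    refine (hk.bdd_mul (c := B) ?_ (Eventually.of_forall fun z => hB _)).1
    apply Continuous.aestronglyMeasurable
    fun_prop
  · intro x
    refine Eventually.of_forall fun z => ?_
    rw [norm_mul]
    exact mul_le_mul_of_nonneg_right (hB _) (norm_nonneg _)
  · exact hk.abs.const_mul B
  · refine Eventually.of_forall fun z => ?_
    fun_prop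

/-- convergence implies boundedness in `τ` -/
theorem T_bdd (hn : 0 < n) (hs : 0 < s) {φ : E n → ℝ} (hφ : Continuous φ)
    {B : ℝ} (hB : ∀ y, |φ y| ≤ B) {x : E n} {G : ℝ}
    (hG : Tendsto (fun τ => T s τ φ x) (𝓝[>] 0) (𝓝 G)) :
    ∃ K : ℝ, ∀ τ : ℝ, 0 < τ → |T s τ φ x| ≤ K := by
  have hB0 : 0 ≤ B := (abs_nonneg _).trans (hB x)
  have h1 : ∀ᶠ τ in 𝓝[>] (0:ℝ), |T s τ φ x| < |G| + 1 :=
    hG.abs.eventually (gt_mem_nhds (by linarith))
  rw [eventually_nhdsWithin_iff, Metric.eventually_nhds_iff] at h1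
  obtain ⟨δ, hδ, h2⟩ := h1
  have hk0 : 0 ≤ ∫ z, kt n s 1 z := integral_nonneg fun z => kt_nonneg _ _
  refine ⟨|G| + 1 + 2 * B * (δ ^ (-(2 * s)) * ∫ z, kt n s 1 z), fun τ hτ => ?_⟩
  have hp : 0 ≤ 2 * B * (δ ^ (-(2 * s)) * ∫ z, kt n s 1 z) := by positivity
  rcases lt_or_ge τ δ with h | h
  · have h3 := h2 (y := τ) (by rw [Real.dist_eq, sub_zero, abs_of_pos hτ]; exact h) hτ
    linarith
  · have h3 := T_bd hn hs hτ hφ hB x
    rw [kt_scale hτ] at h3
    have h4 : τ ^ (-(2 * s)) ≤ δ ^ (-(2 * s)) :=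
      Real.rpow_le_rpow_of_nonpos hδ h (by linarith)
    have h5 : 2 * B * (τ ^ (-(2 * s)) * ∫ z, kt n s 1 z) ≤
        2 * B * (δ ^ (-(2 * s)) * ∫ z, kt n s 1 z) := by
      apply mul_le_mul_of_nonneg_left _ (by positivity)
      exact mul_le_mul_of_nonneg_right h4 hk0
    have h6 := abs_nonneg G
    linarith

/-- the duality -/
theorem duality (hn : 0 < n) (hs : 0 < s) (hs1 : s < 1) {φ : E n → ℝ} (hφ : Continuous φ)
    {R0 : ℝ} (hR0 : ∀ x, R0 < ‖x‖ → φ x = 0) {Ω : Set (E n)} (hΩ : IsOpen Ω) {M : ℝ}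
    {G : E n → ℝ}
    (hG : ∀ x ∈ Ω, Tendsto (fun τ => T s τ φ x) (𝓝[>] 0) (𝓝 (G x))) (hM : ∀ x ∈ Ω, |G x| ≤ M)
    {w : E n → ℝ} (hw : TF w) (hws : tsupport w ⊆ Ω) :
    ∫ x, w x * G x = ∫ x, φ x * Lop s w x := by
  have := nontriv hn
  obtain ⟨e, he⟩ : ∃ e : E n, ‖e‖ = 1 := exists_norm_eq (E n) zero_le_one
  have hcs : HasCompactSupport φ := by
    refine HasCompactSupport.intro (isCompact_closedBall (0 : E n) R0) fun x hx => ?_
    rw [mem_closedBall_zero_iff, not_le] at hx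
    exact hR0 x hx
  obtain ⟨B, hB⟩ := hcs.exists_bound_of_continuous hφ
  obtain ⟨B', hB'⟩ := hw.bd
  obtain ⟨C, hC0, hC⟩ := hw.sd
  have hφi : Integrable φ := hφ.integrable_of_hasCompactSupport hcs
  have hI := bu_pos (n := n)
  set Ib : ℝ := ∫ y : E n, bu y with hIb
  obtain ⟨δ0, hδ0, hδ02⟩ := hw.cs.exists_cthickening_subset_open hΩ hws
  -- left side
  have lim1 : Tendsto (fun r => ∫ x, w x * hh s r φ x) (𝓝[>] 0)
      (𝓝 (∫ x, w x * (Ib * G x))) := by
    apply tendsto_integral_filter_of_dominated_convergence (fun x => |w x| * (M * Ib))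
    · filter_upwards [self_mem_nhdsWithin] with r hr
      exact (hw.cd.continuous.mul (hh_cont hn hs hs1 hφ hB hr)).aestronglyMeasurable
    · have h1 : Iio δ0 ∈ 𝓝[>] (0:ℝ) := nhdsWithin_le_nhds (Iio_mem_nhds hδ0)
      filter_upwards [self_mem_nhdsWithin, h1] with r hr hr2
      refine Eventually.of_forall fun x => ?_
      rw [norm_mul]
      by_cases hx : w x = 0
      · rw [hx]
        simp
      · apply mul_le_mul_of_nonneg_left _ (norm_nonneg _)
        apply hh_abs_le hn hs hs1 hφ hR0 hΩ hG hM hr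
        intro y hy
        apply hδ02
        apply mem_cthickening_of_dist_le y x δ0 (tsupport w) (subset_tsupport w hx)
        rw [mem_closedBall] at hy
        exact hy.trans (le_of_lt hr2)
    · exact hw.int.abs.mul_const _
    · refine Eventually.of_forall fun x => ?_
      by_cases hx : w x = 0
      · simp only [hx, zero_mul]
        exact tendsto_const_nhds
      · have hxΩ : x ∈ Ω := hws (subset_tsupport w hx)
        obtain ⟨K, hK⟩ := T_bdd hn hs hφ hB (hG x hxΩ)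
        exact (hh_lim hn hs hs1 he hφ hB hK (hG x hxΩ)).const_mul _
  -- right side
  have lim2 : Tendsto (fun r => ∫ x, φ x * hh s r w x) (𝓝[>] 0)
      (𝓝 (∫ x, φ x * (Ib * Lop s w x))) := by
    apply tendsto_integral_filter_of_dominated_convergence
      (fun x => |φ x| * (C * KK n s / 2 * ∫ t in Ioi 0, |th s e t|))
    · filter_upwards [self_mem_nhdsWithin] with r hr
      exact (hφ.mul (hh_cont hn hs hs1 hw.cd.continuous hB' hr)).aestronglyMeasurable
    · filter_upwards [self_mem_nhdsWithin] with r hr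
      refine Eventually.of_forall fun x => ?_
      rw [norm_mul]
      apply mul_le_mul_of_nonneg_left _ (norm_nonneg _)
      exact hh_bound hn hs hs1 he hw.cd.continuous hB'
        (fun τ hτ => T_abs_le hn hs hs1 hw.cd.continuous hB' hC0 (hC x) hτ) hr
    · exact hφi.abs.mul_const _
    · refine Eventually.of_forall fun x => ?_
      exact (hh_lim hn hs hs1 he hw.cd.continuous hB'
        (fun τ hτ => T_abs_le hn hs hs1 hw.cd.continuous hB' hC0 (hC x) hτ)
        (T_tendsto hn hs hs1 hw.cd.continuous hB' (hC x))).const_mul _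
  have hsw : ∀ r : ℝ, 0 < r → ∫ x, w x * hh s r φ x = ∫ x, φ x * hh s r w x := by
    intro r hr
    exact conv_symm (Kr_int hn hs hs1 hr) (Kr_even r) hw.int hφ hB
  have lim3 : Tendsto (fun r => ∫ x, w x * hh s r φ x) (𝓝[>] 0)
      (𝓝 (∫ x, φ x * (Ib * Lop s w x))) := by
    refine lim2.congr' ?_
    filter_upwards [self_mem_nhdsWithin] with r hr
    exact (hsw r hr).symm
  have heq := tendsto_nhds_unique lim1 lim3
  have e1 : ∫ x, w x * (Ib * G x) = Ib * ∫ x, w x * G x := by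
    rw [← integral_const_mul]
    congr 1
    funext x
    ring
  have e2 : ∫ x, φ x * (Ib * Lop s w x) = Ib * ∫ x, φ x * Lop s w x := by
    rw [← integral_const_mul]
    congr 1
    funext x
    ring
  rw [e1, e2] at heq
  exact mul_left_cancel₀ hI.ne' heq

end Pool.Agent.R212.FQ
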