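import Pool.Agent.R212.FQ8
import Pool.Agent.H305R3.FC4

set_option autoImplicit false
set_option maxHeartbeats 4000000

open MeasureTheory Filter Topology Set Metric
open scoped ENNReal
open Pool.Agent.R212.FGrad (integrable_min_radial integrable_far_radial)

namespace Pool.Agent.R212.FQ

variable {N : ℕ} [NeZero N] {s : ℝ}

theorem hN : 0 < N := Nat.pos_of_ne_zero (NeZero.ne N)

theorem aC_pos (hs : 0 < s) (hs1 : s < 1) : 0 < aC N s := by
  have := nontriv (hN (N := N))
  have hco : ∀ ξ : E N, |ξ 0| ≤ ‖ξ‖ := fun ξ => PiLp.norm_apply_le ξ 0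
  have hint : Integrable (fun ξ : E N => (1 - Real.cos (ξ 0)) / ‖ξ‖ ^ ((N : ℝ) + 2 * s)) := by
    apply integrable_min_radial hN hs hs1 (f := fun ξ : E N => 1 - Real.cos (ξ 0)) _ (C := 2)
    · intro ξ
      have h1 := Real.one_sub_sq_div_two_le_cos (x := ξ 0)
      have h2 := Real.cos_le_one (ξ 0)
      have h3 := Real.neg_one_le_cos (ξ 0)
      have h4 : (ξ 0) ^ 2 ≤ ‖ξ‖ ^ 2 := by
        rw [← sq_abs]
        exact pow_le_pow_left₀ (abs_nonneg _) (hco ξ) 2
      rw [abs_of_nonneg (by linarith)]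
      rcases le_total 1 (‖ξ‖ ^ 2) with h | h
      · rw [min_eq_left h]
        linarith
      · rw [min_eq_right h]
        nlinarith [sq_nonneg ‖ξ‖]
    · apply Continuous.aestronglyMeasurable
      fun_prop
  unfold aC
  apply inv_pos.2
  rw [integral_pos_iff_support_of_nonneg _ hint]
  · have hc0 : Continuous fun ξ : E N => ξ 0 := by fun_prop
    have hU : IsOpen {ξ : E N | 0 < ξ 0 ∧ ξ 0 < 1} :=
      (isOpen_lt continuous_const hc0).inter (isOpen_lt hc0 continuous_const)
    have hne : {ξ : E N | 0 < ξ 0 ∧ ξ 0 < 1}.Nonempty := by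
      refine ⟨EuclideanSpace.single 0 (1/2), ?_⟩
      simp
      norm_num
    refine lt_of_lt_of_le (hU.measure_pos volume hne) (measure_mono ?_)
    intro ξ hξ
    have h1 : Real.cos (ξ 0) ≠ 1 := by
      intro h
      have := (Real.cos_eq_one_iff_of_lt_of_lt (by linarith [hξ.1, Real.pi_pos])
        (by linarith [hξ.2, Real.pi_gt_three])).1 h
      linarith [hξ.1]
    have h2 : 0 < ‖ξ‖ := lt_of_lt_of_le (abs_pos.2 hξ.1.ne') (hco ξ)
    show (1 - Real.cos (ξ 0)) / ‖ξ‖ ^ ((N : ℝ) + 2 * s) ≠ 0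
    apply div_ne_zero
    · exact sub_ne_zero.2 (Ne.symm h1)
    · exact (Real.rpow_pos_of_pos h2 _).ne'
  · intro ξ
    show 0 ≤ (1 - Real.cos (ξ 0)) / ‖ξ‖ ^ ((N : ℝ) + 2 * s)
    have h2 := Real.cos_le_one (ξ 0)
    apply div_nonneg (by linarith) (by positivity)

omit [NeZero N] in
theorem T_change (τ : ℝ) (u : E N → ℝ) (x : E N) :
    ∫ y in {y | τ < ‖x - y‖}, (u x - u y) / ‖x - y‖ ^ ((N : ℝ) + 2 * s) = T s τ u x := by
  unfold T
  have hm : MeasurableSet {y : E N | τ < ‖x - y‖} := measurableSet_lt (by fun_prop) (by fun_prop)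
  rw [← integral_indicator hm, ← integral_indicator (measSet τ),
    ← integral_sub_left_eq_self (fun z => ({z : E N | τ < ‖z‖}).indicator
      (fun z => (u x - u (x - z)) / ‖z‖ ^ ((N : ℝ) + 2 * s)) z) volume x]
  congr 1
  funext y
  by_cases h : τ < ‖x - y‖
  · rw [indicator_of_mem (show y ∈ {y : E N | τ < ‖x - y‖} from h),
      indicator_of_mem (show x - y ∈ {z : E N | τ < ‖z‖} from h), sub_sub_cancel]
  · rw [indicator_of_notMem (show y ∉ {y : E N | τ < ‖x - y‖} from h),
      indicator_of_notMem (show x - y ∉ {z : E N | τ < ‖z‖} from h)]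

/-- real valued gradient square -/
noncomputable def DR (s : ℝ) (w : E N → ℝ) (x : E N) : ℝ :=
  aC N s / 2 * ∫ z, (w x - w (x - z)) ^ 2 / ‖z‖ ^ ((N : ℝ) + 2 * s)

omit [NeZero N] in
theorem TF.sq {w : E N → ℝ} (h : TF w) :
    ∃ C : ℝ, 0 ≤ C ∧ ∀ x z, (w x - w (x - z)) ^ 2 ≤ C * min 1 (‖z‖ ^ 2) := by
  obtain ⟨L, hL⟩ := h.cd.lipschitzWith_of_hasCompactSupport h.cs (by simp)
  obtain ⟨B, hB⟩ := h.bd
  have hB0 : 0 ≤ B := (abs_nonneg _).trans (hB 0)
  refine ⟨L ^ 2 + 4 * B ^ 2, by positivity, fun x z => ?_⟩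
  have hl : |w x - w (x - z)| ≤ L * ‖z‖ := by
    have := hL.dist_le_mul x (x - z)
    rwa [Real.dist_eq, dist_eq_norm, sub_sub_cancel] at this
  have hb : |w x - w (x - z)| ≤ 2 * B := by
    have e1 := hB x
    have e2 := hB (x - z)
    have := abs_sub (w x) (w (x - z))
    linarith
  have hsq1 : (w x - w (x - z)) ^ 2 ≤ L ^ 2 * ‖z‖ ^ 2 := by
    rw [← sq_abs]
    calc |w x - w (x - z)| ^ 2 ≤ (L * ‖z‖) ^ 2 := by gcongr
      _ = _ := by ring
  have hsq2 : (w x - w (x - z)) ^ 2 ≤ 4 * B ^ 2 := by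
    rw [← sq_abs]
    calc |w x - w (x - z)| ^ 2 ≤ (2 * B) ^ 2 := by gcongr
      _ = _ := by ring
  rcases le_total (‖z‖ ^ 2) 1 with h | h
  · rw [min_eq_right h]
    have : 0 ≤ 4 * B ^ 2 * ‖z‖ ^ 2 := by positivity
    linarith
  · rw [min_eq_left h]
    have : (0:ℝ) ≤ (L:ℝ) ^ 2 := by positivity
    linarith

theorem sq_int (hs : 0 < s) (hs1 : s < 1) {w : E N → ℝ} (hw : TF w) (x : E N) :
    Integrable (fun z => (w x - w (x - z)) ^ 2 / ‖z‖ ^ ((N : ℝ) + 2 * s)) := by
  have := nontriv (hN (N := N))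
  obtain ⟨C, hC0, hC⟩ := hw.sq
  have hwc := hw.cd.continuous
  apply integrable_min_radial hN hs hs1 (f := fun z : E N => (w x - w (x - z)) ^ 2) _ (C := C)
  · intro z
    rw [abs_of_nonneg (sq_nonneg _)]
    exact hC x z
  · apply Continuous.aestronglyMeasurable
    fun_prop

theorem DS2_eq (hs : 0 < s) (hs1 : s < 1) {w : E N → ℝ} (hw : TF w) (x : E N) :
    DS2 s w x = ENNReal.ofReal (DR s w x) := by
  unfold DS2 DR
  have ha := aC_pos (N := N) hs hs1
  rw [ENNReal.ofReal_mul (by positivity)]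
  congr 1
  rw [ofReal_integral_eq_lintegral_ofReal (sq_int hs hs1 hw x)
    (Eventually.of_forall fun z => by
      show 0 ≤ (w x - w (x - z)) ^ 2 / ‖z‖ ^ ((N : ℝ) + 2 * s)
      positivity),
    ← lintegral_sub_left_eq_self (fun y => ENNReal.ofReal ((w x - w y) ^ 2 /
      ‖x - y‖ ^ ((N : ℝ) + 2 * s))) x]
  simp only [sub_sub_cancel]

theorem DR_nonneg (hs : 0 < s) (hs1 : s < 1) (w : E N → ℝ) (x : E N) : 0 ≤ DR s w x := by
  have ha := aC_pos (N := N) hs hs1
  unfold DR
  apply mul_nonneg (by positivity)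
  exact integral_nonneg fun z => by
    show 0 ≤ (w x - w (x - z)) ^ 2 / ‖z‖ ^ ((N : ℝ) + 2 * s)
    positivity

theorem DR_cont (hs : 0 < s) (hs1 : s < 1) {w : E N → ℝ} (hw : TF w) :
    Continuous (DR s w) := by
  obtain ⟨C, hC0, hC⟩ := hw.sq
  have hwc := hw.cd.continuous
  have h1 : Continuous fun x : E N =>
      ∫ z : E N, (w x - w (x - z)) ^ 2 / ‖z‖ ^ ((N : ℝ) + 2 * s) := by
    apply continuous_of_dominated
      (bound := fun z => C * (min 1 (‖z‖ ^ 2) / ‖z‖ ^ ((N : ℝ) + 2 * s)))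
    · intro x
      exact (sq_int hs hs1 hw x).1
    · intro x
      refine Eventually.of_forall fun z => ?_
      rw [Real.norm_of_nonneg (by positivity), mul_div_assoc']
      exact div_le_div_of_nonneg_right (hC x z) (by positivity)
    · exact (KK_int hN hs hs1).const_mul C
    · refine Eventually.of_forall fun z => ?_
      fun_prop
  exact continuous_const.mul h1

theorem DR_le (hs : 0 < s) (hs1 : s < 1) {w : E N → ℝ} (hw : TF w) :
    ∃ B : ℝ, ∀ x, DR s w x ≤ B := by
  obtain ⟨C, hC0, hC⟩ := hw.sq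
  have ha := aC_pos (N := N) hs hs1
  refine ⟨aC N s / 2 * (C * KK N s), fun x => ?_⟩
  unfold DR KK
  apply mul_le_mul_of_nonneg_left _ (by positivity)
  rw [← integral_const_mul]
  apply integral_mono (sq_int hs hs1 hw x) ((KK_int hN hs hs1).const_mul C)
  intro z
  show (w x - w (x - z)) ^ 2 / ‖z‖ ^ ((N : ℝ) + 2 * s) ≤
    C * (min 1 (‖z‖ ^ 2) / ‖z‖ ^ ((N : ℝ) + 2 * s))
  rw [mul_div_assoc']
  exact div_le_div_of_nonneg_right (hC x z) (by positivity)

theorem DR_pos (hs : 0 < s) (hs1 : s < 1) {w : E N → ℝ} (hw : TF w) {x0 : E N} (h0 : w x0 ≠ 0)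
    (x : E N) : 0 < DR s w x := by
  have := nontriv (hN (N := N))
  have ha := aC_pos (N := N) hs hs1
  have hwc := hw.cd.continuous
  have hnc : NoncompactSpace (E N) := NormedSpace.noncompactSpace ℝ (E N)
  obtain ⟨x1, hx1⟩ : ∃ x1 : E N, x1 ∉ tsupport w := by
    by_contra h
    push Not at h
    exact hw.cs.isCompact.ne_univ (eq_univ_of_forall h)
  have h1 : w x1 = 0 := image_eq_zero_of_notMem_tsupport hx1
  obtain ⟨y, hy⟩ : ∃ y, w y ≠ w x := by
    by_cases h : w x = 0
    · exact ⟨x0, by rw [h]; exact h0⟩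
    · exact ⟨x1, by rw [h1]; exact Ne.symm h⟩
  unfold DR
  apply mul_pos (by positivity)
  rw [integral_pos_iff_support_of_nonneg _ (sq_int hs hs1 hw x)]
  · have hU : IsOpen {z : E N | w (x - z) ≠ w x} := by
      apply isOpen_ne_fun (by fun_prop) continuous_const
    have hne : {z : E N | w (x - z) ≠ w x}.Nonempty := ⟨x - y, by
      show w (x - (x - y)) ≠ w x
      rwa [sub_sub_cancel]⟩
    refine lt_of_lt_of_le (hU.measure_pos volume hne) (measure_mono ?_)
    intro z hz
    have hz' : w (x - z) ≠ w x := hz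
    have hz0 : z ≠ 0 := by
      rintro rfl
      apply hz'
      rw [sub_zero]
    show (w x - w (x - z)) ^ 2 / ‖z‖ ^ ((N : ℝ) + 2 * s) ≠ 0
    apply div_ne_zero
    · exact pow_ne_zero 2 (sub_ne_zero.2 (Ne.symm hz'))
    · exact (Real.rpow_pos_of_pos (norm_pos_iff.2 hz0) _).ne'
  · intro z
    show 0 ≤ (w x - w (x - z)) ^ 2 / ‖z‖ ^ ((N : ℝ) + 2 * s)
    positivity

theorem DR_smul (t : ℝ) (w : E N → ℝ) (x : E N) :
    DR s (fun y => t * w y) x = t ^ 2 * DR s w x := by
  unfold DR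
  rw [mul_left_comm]
  congr 1
  rw [← integral_const_mul]
  congr 1
  funext z
  ring

omit [NeZero N] in
theorem L_smul (t : ℝ) (w : E N → ℝ) (x : E N) :
    Lop s (fun y => t * w y) x = t * Lop s w x := by
  unfold Lop
  rw [mul_div_assoc', ← integral_const_mul]
  congr 2
  funext z
  ring

omit [NeZero N] in
theorem TF.smul {w : E N → ℝ} (h : TF w) (t : ℝ) : TF (fun y => t * w y) :=
  ⟨contDiff_const.mul h.cd, h.cs.mul_left⟩

theorem memWs0 (hs : 0 < s) (hs1 : s < 1) {w : E N → ℝ} (hw : TF w) {Ω : Set (E N)}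
    (hsup : tsupport w ⊆ Ω) : MemWs0 s Ω w := by
  have h1 : Pool.Agent.H305R3.FC.TestFun Ω w := ⟨hw.cd, hw.cs, hsup⟩
  have h2 := h1.memHs (s := s) hN hs hs1
  refine ⟨h2.1, ?_, fun x hx => image_eq_zero_of_notMem_tsupport fun h => hx (hsup h)⟩
  have h3 := h2.2.lintegral_lt_top
  rw [lintegral_prod] at h3
  · refine lt_of_le_of_lt (le_of_eq ?_) h3
    congr 1
    funext x
    congr 1
    funext y
    congr 1
    have : Pool.Agent.H305R3.FC.ker s (x, y) = ‖x - y‖ ^ (-((N : ℝ) + 2 * s)) := rfl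
    rw [this, Real.rpow_neg (norm_nonneg _)]
    rfl
  · exact h2.2.1.aemeasurable.ennreal_ofReal

omit [NeZero N] in
/-- test functions vanish off a `C²` domain -/
theorem xs_zero {Ω : Set (E N)} (hΩ : IsC2Domain Ω) {ξ : E N → ℝ} (hξ : Continuous ξ)
    (hsup : Function.support ξ ⊆ closure Ω) {x : E N} (hx : x ∉ Ω) : ξ x = 0 := by
  obtain ⟨ho, -, -, ρ, hρ, hΩρ, hfr⟩ := hΩ
  by_contra hne
  have hxc : x ∈ closure Ω := hsup hne
  have hxf : x ∈ frontier Ω := by
    rw [ho.frontier_eq]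
    exact ⟨hxc, hx⟩
  obtain ⟨h1, h2⟩ := hfr x hxf
  apply h2
  have hcl : closure Ω ⊆ {x | ρ x ≤ 0} := by
    apply closure_minimal
    · intro y hy
      rw [hΩρ] at hy
      have hy' : ρ y < 0 := hy
      exact hy'.le
    · exact isClosed_le hρ.continuous continuous_const
  have hmax : IsLocalMax ρ x := by
    have h3 : {y | ξ y ≠ 0} ∈ 𝓝 x := (isOpen_ne_fun hξ continuous_const).mem_nhds hne
    filter_upwards [h3] with y hy
    rw [h1]
    exact hcl (hsup hy)
  exact hmax.fderiv_eq_zero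

/-- the key construction -/
theorem sol (hs : 0 < s) (hs1 : s < 1) {Ω : Set (E N)} (hΩ : IsC2Domain Ω) {w : E N → ℝ}
    (hw : TF w) (hws : tsupport w ⊆ Ω) {x0 : E N} (h0 : w x0 ≠ 0) {β t lam : ℝ}
    (hβ : 1 + β ≠ 0) (ht : β + t ^ 2 = t * (1 + β)) {c μ f : E N → ℝ}
    (hμ : ∀ x, μ x = (aC N s * Lop s w x - c x * w x) / ((1 + β) * DR s w x))
    (hf : ∀ x, lam * f x = β / (1 + β) * (aC N s * Lop s w x - c x * w x)) :
    IsRegularSol s Ω c μ f lam (fun x => t * w x) := by
  have ha := aC_pos (N := N) hs hs1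
  have hu := hw.smul t
  have hus : tsupport (fun x => t * w x) ⊆ Ω := by
    refine Subset.trans ?_ hws
    apply closure_mono
    intro x hx hx'
    apply hx
    show t * w x = 0
    rw [hx', mul_zero]
  refine ⟨⟨?_, hu.int.integrableOn, ?_, ?_, ?_⟩, memWs0 hs hs1 hu hus, ?_⟩
  · intro x hx
    exact image_eq_zero_of_notMem_tsupport (f := fun x => t * w x) fun h => hx (hus h)
  · have : DS2 s (fun x => t * w x) = fun x => ENNReal.ofReal (DR s (fun x => t * w x) x) := by
      funext x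
      exact DS2_eq hs hs1 hu x
    rw [this]
    exact (DR_cont hs hs1 hu).measurable.ennreal_ofReal.aemeasurable
  · obtain ⟨B, hB⟩ := DR_le hs hs1 hu
    have hfin : volume Ω < ⊤ := hΩ.2.2.1.measure_lt_top
    calc ∫⁻ x in Ω, DS2 s (fun x => t * w x) x ≤ ∫⁻ x in Ω, ENNReal.ofReal B := by
          apply lintegral_mono
          intro x
          show DS2 s (fun x => t * w x) x ≤ ENNReal.ofReal B
          rw [DS2_eq hs hs1 hu x]
          exact ENNReal.ofReal_le_ofReal (hB x)
      _ = ENNReal.ofReal B * volume Ω := by rw [setLIntegral_const]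
      _ < ⊤ := ENNReal.mul_lt_top ENNReal.ofReal_lt_top hfin
  · intro ξ g hξ
    obtain ⟨hc, hsup, hfr, M, hM⟩ := hξ
    obtain ⟨R0, hR0⟩ := hΩ.2.2.1.closure.subset_closedBall (0 : E N)
    have hz : ∀ x, R0 < ‖x‖ → ξ x = 0 := by
      intro x hx
      by_contra h
      have := hR0 (hsup h)
      rw [mem_closedBall_zero_iff] at this
      linarith
    have hG : ∀ x ∈ Ω, Tendsto (fun τ => T s τ ξ x) (𝓝[>] 0) (𝓝 (g x / aC N s)) := by
      intro x hx
      have h1 := (hfr x hx).2.div_const (aC N s)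
      refine h1.congr fun τ => ?_
      rw [T_change, mul_div_cancel_left₀ _ ha.ne']
    have hM' : ∀ x ∈ Ω, |g x / aC N s| ≤ M / aC N s := by
      intro x hx
      rw [abs_div, abs_of_pos ha]
      exact div_le_div_of_nonneg_right (hM x hx) ha.le
    have hd := duality hN hs hs1 hc hz hΩ.1 hG hM' hw hws
    have e1 : ∫ x in Ω, (lam * f x + c x * (t * w x) + μ x *
        (DS2 s (fun x => t * w x) x).toReal) * ξ x = t * aC N s * ∫ x, ξ x * Lop s w x := by
      rw [← integral_const_mul]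
      rw [← setIntegral_eq_integral_of_forall_compl_eq_zero (s := Ω)
        (f := fun x => t * aC N s * (ξ x * Lop s w x))]
      · congr 1
        funext x
        rw [DS2_eq hs hs1 hu x, ENNReal.toReal_ofReal (DR_nonneg hs hs1 _ x), DR_smul, hf, hμ]
        have hD := (DR_pos hs hs1 hw h0 x).ne'
        have : β / (1 + β) * (aC N s * Lop s w x - c x * w x) + c x * (t * w x) +
            (aC N s * Lop s w x - c x * w x) / ((1 + β) * DR s w x) * (t ^ 2 * DR s w x) =
            t * aC N s * Lop s w x := by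
          have h1 : (aC N s * Lop s w x - c x * w x) / ((1 + β) * DR s w x) *
              (t ^ 2 * DR s w x) = t ^ 2 / (1 + β) * (aC N s * Lop s w x - c x * w x) := by
            field_simp
          rw [h1]
          have h2 : β / (1 + β) * (aC N s * Lop s w x - c x * w x) + c x * (t * w x) +
              t ^ 2 / (1 + β) * (aC N s * Lop s w x - c x * w x) =
              (β + t ^ 2) / (1 + β) * (aC N s * Lop s w x - c x * w x) + c x * (t * w x) := by
            ring
          rw [h2, ht, mul_div_cancel_right₀ _ hβ]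
          ring
        rw [this]
        ring
      · intro x hx
        rw [xs_zero hΩ hc hsup hx]
        simp
    have e2 : ∫ x in Ω, t * w x * g x = t * aC N s * ∫ x, w x * (g x / aC N s) := by
      rw [← integral_const_mul]
      rw [← setIntegral_eq_integral_of_forall_compl_eq_zero (s := Ω)
        (f := fun x => t * aC N s * (w x * (g x / aC N s)))]
      · congr 1
        funext x
        field_simp
      · intro x hx
        rw [show w x = 0 from image_eq_zero_of_notMem_tsupport fun h => hx (hws h)]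
        simp
    rw [e1, e2, hd]
  · obtain ⟨L, hL⟩ := hu.cd.lipschitzWith_of_hasCompactSupport hu.cs (by simp)
    refine ⟨1, L, one_pos, le_rfl, fun x _ y _ => ?_⟩
    rw [Real.rpow_one]
    have := hL.dist_le_mul x y
    rwa [Real.dist_eq, dist_eq_norm] at this

end Pool.Agent.R212.FQ
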