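import Mathlib

/-!
# Fractional Dirichlet problems with a nonlocal gradient square (problem MP_c7f95f_an)
-/

open MeasureTheory Filter Topology Set
open scoped ENNReal

namespace Pool.Agent.R212.FQ

/-- `ℝⁿ` with its Euclidean norm. -/
abbrev E (n : ℕ) := EuclideanSpace ℝ (Fin n)

/-- The constant `a_{N,s} = (∫ (1 - cos ξ₁) / |ξ|^{N+2s} dξ)⁻¹`. -/
noncomputable def aC (N : ℕ) [NeZero N] (s : ℝ) : ℝ :=
  (∫ ξ : E N, (1 - Real.cos (ξ 0)) / ‖ξ‖ ^ ((N : ℝ) + 2 * s))⁻¹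

/-- `(-Δ)^s u (x) = g` in the pointwise principal value sense. -/
def HasFracLap {N : ℕ} [NeZero N] (s : ℝ) (u : E N → ℝ) (x : E N) (g : ℝ) : Prop :=
  (∀ ε : ℝ, 0 < ε →
    IntegrableOn (fun y => (u x - u y) / ‖x - y‖ ^ ((N : ℝ) + 2 * s)) {y | ε < ‖x - y‖}) ∧
  Tendsto (fun ε : ℝ => aC N s * ∫ y in {y | ε < ‖x - y‖},
    (u x - u y) / ‖x - y‖ ^ ((N : ℝ) + 2 * s)) (𝓝[>] 0) (𝓝 g)

/-- The nonlocal gradient square `D_s²(u)(x) ∈ [0,∞]` (the integrand is nonnegative, so the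
principal value is the integral). -/
noncomputable def DS2 {N : ℕ} [NeZero N] (s : ℝ) (u : E N → ℝ) (x : E N) : ℝ≥0∞ :=
  ENNReal.ofReal (aC N s / 2) *
    ∫⁻ y, ENNReal.ofReal ((u x - u y) ^ 2 / ‖x - y‖ ^ ((N : ℝ) + 2 * s))

/-- The test class `X_s`: `ξ` is continuous, supported in the closure of `Ω`, and `g = (-Δ)^s ξ`
is defined at every point of `Ω` and bounded on `Ω`. -/
def MemXs {N : ℕ} [NeZero N] (s : ℝ) (Ω : Set (E N)) (ξ g : E N → ℝ) : Prop :=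
  Continuous ξ ∧ Function.support ξ ⊆ closure Ω ∧ (∀ x ∈ Ω, HasFracLap s ξ x (g x)) ∧
    ∃ M : ℝ, ∀ x ∈ Ω, |g x| ≤ M

/-- Weak solutions of `(-Δ)^s u - μ D_s²(u) - c u = λ f` in `Ω`, `u = 0` off `Ω`. -/
def IsWeakSol {N : ℕ} [NeZero N] (s : ℝ) (Ω : Set (E N)) (c μ f : E N → ℝ) (lam : ℝ)
    (u : E N → ℝ) : Prop :=
  (∀ x ∉ Ω, u x = 0) ∧ IntegrableOn u Ω ∧
    AEMeasurable (DS2 s u) (volume.restrict Ω) ∧ (∫⁻ x in Ω, DS2 s u x) < ⊤ ∧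
    ∀ ξ g : E N → ℝ, MemXs s Ω ξ g →
      ∫ x in Ω, (lam * f x + c x * u x + μ x * (DS2 s u x).toReal) * ξ x =
        ∫ x in Ω, u x * g x

/-- `u ∈ W_0^{s,2}(Ω)`: `u ∈ L²(ℝᴺ)` has finite Gagliardo seminorm and vanishes off `Ω`. -/
def MemWs0 {N : ℕ} (s : ℝ) (Ω : Set (E N)) (u : E N → ℝ) : Prop :=
  MemLp u 2 volume ∧
    (∫⁻ x, ∫⁻ y, ENNReal.ofReal ((u x - u y) ^ 2 / ‖x - y‖ ^ ((N : ℝ) + 2 * s))) < ⊤ ∧
    ∀ x ∉ Ω, u x = 0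

/-- A weak solution is regular if it lies in `W_0^{s,2}(Ω) ∩ C^{0,α}(Ω)` for some `α`. -/
def IsRegularSol {N : ℕ} [NeZero N] (s : ℝ) (Ω : Set (E N)) (c μ f : E N → ℝ) (lam : ℝ)
    (u : E N → ℝ) : Prop :=
  IsWeakSol s Ω c μ f lam u ∧ MemWs0 s Ω u ∧
    ∃ α C : ℝ, 0 < α ∧ α ≤ 1 ∧ ∀ x ∈ Ω, ∀ y ∈ Ω, |u x - u y| ≤ C * ‖x - y‖ ^ α

/-- `Ω` is bounded, open, connected, with boundary of class `C²` (global defining function with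
nonvanishing gradient on the boundary). -/
def IsC2Domain {N : ℕ} (Ω : Set (E N)) : Prop :=
  IsOpen Ω ∧ IsConnected Ω ∧ Bornology.IsBounded Ω ∧
    ∃ ρ : E N → ℝ, ContDiff ℝ 2 ρ ∧ Ω = {x | ρ x < 0} ∧ ∀ x ∈ frontier Ω, ρ x = 0 ∧ fderiv ℝ ρ x ≠ 0

end Pool.Agent.R212.FQ
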