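import Pool.Agent.R212.FgDef

/-! # Second differences; the one-dimensional substitution -/

open MeasureTheory Filter Topology Set
open scoped ENNReal

namespace Pool.Agent.R212.FGrad

/-- second difference of a `C²` function at a point -/
theorem second_diff_local {F : Type*} [NormedAddCommGroup F] [NormedSpace ℝ F]
    {f : F → ℝ} {x : F} (hf : ContDiffAt ℝ 2 f x) :
    ∃ C δ : ℝ, 0 < δ ∧ 0 ≤ C ∧ ∀ h : F, ‖h‖ < δ → |2 * f x - f (x + h) - f (x - h)| ≤ C * ‖h‖ ^ 2 := by
  have h1 : ContDiffAt ℝ 1 (fderiv ℝ f) x := hf.fderiv_right (by norm_num)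
  obtain ⟨K, t, ht, hK⟩ := h1.exists_lipschitzOnWith
  have h2 : ∀ᶠ y in 𝓝 x, DifferentiableAt ℝ f y := by
    have := hf.eventually (by simp)
    filter_upwards [this] with y hy
    exact hy.differentiableAt (by norm_num)
  obtain ⟨δ, hδ, hball⟩ := Metric.mem_nhds_iff.1 (Filter.inter_mem ht h2)
  refine ⟨2 * K, δ, hδ, by positivity, ?_⟩
  intro h hh
  have hx : x ∈ Metric.ball x δ := Metric.mem_ball_self hδ
  -- one sided estimate
  have key : ∀ k : F, ‖k‖ = ‖h‖ → |f (x + k) - f x - fderiv ℝ f x k| ≤ K * ‖h‖ ^ 2 := by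
    intro k hk
    have hcl : Metric.closedBall x ‖h‖ ⊆ Metric.ball x δ := Metric.closedBall_subset_ball hh
    have h3 := (convex_closedBall x ‖h‖).norm_image_sub_le_of_norm_hasFDerivWithin_le'
      (f := f) (f' := fun y => fderiv ℝ f y) (φ := fderiv ℝ f x) (C := K * ‖h‖)
      (x := x) (y := x + k)
      (fun y hy => ((hball (hcl hy)).2.hasFDerivAt).hasFDerivWithinAt)
      (fun y hy => by
        have h4 := hK.norm_sub_le (hball (hcl hy)).1 (hball hx).1
        refine h4.trans ?_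
        gcongr
        rw [Metric.mem_closedBall, dist_eq_norm] at hy
        exact hy)
      (Metric.mem_closedBall_self (norm_nonneg _))
      (by rw [Metric.mem_closedBall, dist_eq_norm]; simp [hk])
    rw [add_sub_cancel_left, hk, Real.norm_eq_abs] at h3
    calc _ ≤ _ := h3
      _ = _ := by ring
  have e1 := key h rfl
  have e2 := key (-h) (norm_neg h)
  rw [map_neg, ← sub_eq_add_neg] at e2
  rw [abs_le] at e1 e2 ⊢
  constructor <;> nlinarith [e1.1, e1.2, e2.1, e2.2]

/-- global bound of second differences of bounded functions -/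
theorem second_diff_global {F : Type*} [NormedAddCommGroup F] [NormedSpace ℝ F]
    {f : F → ℝ} {x : F} (hf : ContDiffAt ℝ 2 f x) {B : ℝ} (hB : ∀ y, |f y| ≤ B) :
    ∃ C : ℝ, 0 ≤ C ∧ ∀ h : F, |2 * f x - f (x + h) - f (x - h)| ≤ C * min 1 (‖h‖ ^ 2) := by
  obtain ⟨C, δ, hδ, hC, h1⟩ := second_diff_local hf
  have hB0 : 0 ≤ B := (abs_nonneg _).trans (hB x)
  have hb : ∀ h : F, |2 * f x - f (x + h) - f (x - h)| ≤ 4 * B := by
    intro h
    have a1 := hB x
    have a2 := hB (x + h)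
    have a3 := hB (x - h)
    rw [abs_le] at a1 a2 a3 ⊢
    constructor <;> linarith [a1.1, a1.2, a2.1, a2.2, a3.1, a3.2]
  refine ⟨C + 4 * B + 4 * B / δ ^ 2, by positivity, ?_⟩
  intro h
  have hd : 0 ≤ 4 * B / δ ^ 2 := by positivity
  rcases le_total 1 (‖h‖ ^ 2) with h2 | h2
  · rw [min_eq_left h2]
    have := hb h
    linarith
  · rw [min_eq_right h2]
    rcases lt_or_ge ‖h‖ δ with h3 | h3
    · refine (h1 h h3).trans ?_
      apply mul_le_mul_of_nonneg_right _ (by positivity)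
      linarith
    · have h4 : 4 * B ≤ 4 * B / δ ^ 2 * ‖h‖ ^ 2 := by
        have h5 : δ ^ 2 ≤ ‖h‖ ^ 2 := by gcongr
        calc 4 * B = 4 * B / δ ^ 2 * δ ^ 2 := by field_simp
          _ ≤ _ := by gcongr
      have h6 := hb h
      have h7 : 0 ≤ (C + 4 * B) * ‖h‖ ^ 2 := by positivity
      nlinarith

theorem w_nonneg (p y : ℝ) : 0 ≤ w p y := Real.rpow_nonneg (le_max_right _ _) _

theorem w_le_one {p : ℝ} (hp : 0 ≤ p) (y : ℝ) : w p y ≤ 1 := by
  unfold w
  apply Real.rpow_le_one (le_max_right _ _) _ hp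
  apply max_le _ zero_le_one
  nlinarith [sq_nonneg y]

theorem w_abs_le {p : ℝ} (hp : 0 ≤ p) (y : ℝ) : |w p y| ≤ 1 := by
  rw [abs_of_nonneg (w_nonneg p y)]
  exact w_le_one hp y

theorem continuous_w {p : ℝ} (hp : 0 ≤ p) : Continuous (w p) := by
  unfold w
  apply Continuous.rpow_const
  · fun_prop
  · intro x
    right
    exact hp

theorem w_even (p y : ℝ) : w p (-y) = w p y := by
  unfold w
  rw [neg_sq]

theorem w_zero_of {p y : ℝ} (hp : 0 < p) (hy : 1 ≤ |y|) : w p y = 0 := by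
  unfold w
  have : 1 - y ^ 2 ≤ 0 := by
    have := sq_abs y
    nlinarith
  rw [max_eq_right this, Real.zero_rpow hp.ne']

theorem w_contDiffAt (p : ℝ) {x : ℝ} (hx : |x| < 1) : ContDiffAt ℝ 2 (w p) x := by
  have h0 : 0 < 1 - x ^ 2 := by
    have := sq_abs x
    nlinarith [abs_nonneg x]
  have h1 : ContDiffAt ℝ 2 (fun y : ℝ => (1 - y ^ 2) ^ p) x := by
    apply ContDiffAt.rpow_const_of_ne
    · fun_prop
    · exact h0.ne'
  apply h1.congr_of_eventuallyEq
  have h2 : ∀ᶠ y in 𝓝 x, 0 < 1 - y ^ 2 := by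
    apply ContinuousAt.eventually_lt
    · exact continuousAt_const
    · fun_prop
    · exact h0
  filter_upwards [h2] with y hy
  unfold w
  rw [max_eq_left hy.le]

/-- `min 1 (r²) r^{-1-2s}` is integrable on `(0,∞)` -/
theorem integrableOn_min {s : ℝ} (hs : 0 < s) (hs1 : s < 1) :
    IntegrableOn (fun r : ℝ => min 1 (r ^ 2) * r ^ (-1 - 2 * s)) (Ioi 0) := by
  rw [← Ioc_union_Ioi_eq_Ioi zero_le_one]
  apply IntegrableOn.union
  · have h1 : IntegrableOn (fun r : ℝ => r ^ (1 - 2 * s)) (Ioc 0 1) := by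
      rw [← intervalIntegrable_iff_integrableOn_Ioc_of_le zero_le_one]
      exact intervalIntegral.intervalIntegrable_rpow' (by linarith)
    apply h1.congr_fun _ measurableSet_Ioc
    intro r hr
    simp only
    have h2 : r ^ 2 ≤ 1 := by
      have := hr.1
      have := hr.2
      nlinarith
    rw [min_eq_right h2, ← Real.rpow_natCast, ← Real.rpow_add hr.1]
    congr 1
    push_cast
    ring
  · have h1 : IntegrableOn (fun r : ℝ => r ^ (-1 - 2 * s)) (Ioi 1) :=
      integrableOn_Ioi_rpow_of_lt (by linarith) one_pos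
    apply h1.congr_fun _ measurableSet_Ioi
    intro r hr
    simp only
    have hr' : 1 < r := hr
    have h2 : 1 ≤ r ^ 2 := by nlinarith
    rw [min_eq_left h2, one_mul]

/-- the cut-off radius -/
noncomputable def rr (x m : ℝ) : ℝ := (1 - x ^ 2) / (√(1 + m) + x)

theorem R_pos {x m : ℝ} (hx : |x| < 1) (hm : 0 ≤ m) : 0 < √(1 + m) + x := by
  have h1 : 1 ≤ √(1 + m) := by
    rw [Real.one_le_sqrt]
    linarith
  have := neg_abs_le x
  linarith

theorem z_pos {x : ℝ} (hx : |x| < 1) : 0 < 1 - x ^ 2 := by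
  have := sq_abs x
  nlinarith [abs_nonneg x]

theorem rr_pos {x m : ℝ} (hx : |x| < 1) (hm : 0 ≤ m) : 0 < rr x m :=
  div_pos (z_pos hx) (R_pos hx hm)

theorem rr_zero {x : ℝ} (hx : |x| < 1) : rr x 0 = 1 - x := by
  unfold rr
  rw [add_zero, Real.sqrt_one]
  have : (1 : ℝ) + x ≠ 0 := by
    have := neg_abs_le x
    intro h
    linarith
  field_simp
  ring

theorem w_rr (p : ℝ) {x m : ℝ} (hx : |x| < 1) (hm : 0 ≤ m) :
    w p (x + rr x m) = ((1 - x ^ 2) * m / (√(1 + m) + x) ^ 2) ^ p := by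
  have hR := R_pos hx hm
  have hz := z_pos hx
  have hQ : √(1 + m) ^ 2 = 1 + m := Real.sq_sqrt (by linarith)
  unfold w
  have h1 : 1 - (x + rr x m) ^ 2 = (1 - x ^ 2) * m / (√(1 + m) + x) ^ 2 := by
    unfold rr
    field_simp
    have : m = √(1 + m) ^ 2 - 1 := by rw [hQ]; ring
    generalize √(1 + m) = q at *
    rw [this]
    ring
  rw [h1, max_eq_left]
  positivity

theorem rr_hasDerivAt {x m : ℝ} (hx : |x| < 1) (hm : 0 ≤ m) :
    HasDerivAt (rr x) (-((1 - x ^ 2) / ((√(1 + m) + x) ^ 2 * (2 * √(1 + m))))) m := by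
  have hR := R_pos hx hm
  have hq : 0 < √(1 + m) := Real.sqrt_pos.2 (by linarith)
  have h1 : HasDerivAt (fun m : ℝ => √(1 + m) + x) (1 / (2 * √(1 + m))) m := by
    have := ((hasDerivAt_id m).const_add 1).sqrt (by simp; linarith)
    exact this.add_const x
  have h2 := (hasDerivAt_const m (1 - x ^ 2)).div h1 hR.ne'
  refine h2.congr_deriv ?_
  field_simp
  ring

theorem rr_antitone {x m : ℝ} (hx : |x| < 1) (hm : 0 ≤ m) : rr x m ≤ 1 - x := by
  rw [← rr_zero hx]
  unfold rr
  have h1 := R_pos hx le_rfl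
  have h2 := R_pos hx hm
  have h3 : √(1 + 0) ≤ √(1 + m) := Real.sqrt_le_sqrt (by linarith)
  apply div_le_div_of_nonneg_left (z_pos hx).le h1
  linarith

/-- pointwise identity for the substitution -/
theorem subst_pointwise (s p : ℝ) {x m : ℝ} (hx : |x| < 1) (hm : 0 ≤ m) :
    (w p (x + rr x m) * rr x m ^ (-1 - 2 * s)) *
      (-((1 - x ^ 2) / ((√(1 + m) + x) ^ 2 * (2 * √(1 + m)))))
      = -((1 - x ^ 2) ^ (p - 2 * s) *
        (m ^ p * (√(1 + m) + x) ^ (2 * s - 1 - 2 * p) / (2 * √(1 + m)))) := by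
  have hR := R_pos hx hm
  have hz := z_pos hx
  have hq : 0 < √(1 + m) := Real.sqrt_pos.2 (by linarith)
  rw [w_rr p hx hm]
  unfold rr
  set z := 1 - x ^ 2 with hzdef
  set R := √(1 + m) + x with hRdef
  rw [Real.div_rpow (by positivity) (by positivity), Real.mul_rpow hz.le hm,
    Real.div_rpow hz.le hR.le]
  have e1 : (R ^ 2) ^ p = R ^ (2 * p) := by
    rw [← Real.rpow_natCast, ← Real.rpow_mul hR.le]
    norm_num
  have e2 : z ^ (p - 2 * s) = z ^ p * z ^ (-1 - 2 * s) * z := by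
    rw [← Real.rpow_add hz, ← Real.rpow_add_one hz.ne']
    congr 1
    ring
  have e3 : R ^ (2 * s - 1 - 2 * p) = 1 / (R ^ (2 * p) * R ^ (-1 - 2 * s) * R ^ 2) := by
    rw [← Real.rpow_natCast R 2, ← Real.rpow_add hR, ← Real.rpow_add hR, one_div,
      ← Real.rpow_neg hR.le]
    congr 1
    push_cast
    ring
  rw [e1, e2, e3]
  have hR1 : 0 < R ^ (2 * p) := Real.rpow_pos_of_pos hR _
  have hR2 : 0 < R ^ (-1 - 2 * s) := Real.rpow_pos_of_pos hR _
  field_simp

/-- the integrand after substitution -/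
noncomputable def gg (s p x m : ℝ) : ℝ :=
  m ^ p * (√(1 + m) + x) ^ (2 * s - 1 - 2 * p) / (2 * √(1 + m))

theorem interior_integral {s p : ℝ} (hp : 0 < p) {x M : ℝ} (hx : |x| < 1) (hM : 0 ≤ M) :
    ∫ r in (rr x M)..(1 - x), w p (x + r) * r ^ (-1 - 2 * s)
      = (1 - x ^ 2) ^ (p - 2 * s) * ∫ m in (0:ℝ)..M, gg s p x m := by
  have h := intervalIntegral.integral_comp_mul_deriv'' (a := 0) (b := M) (f := rr x)
    (f' := fun m => -((1 - x ^ 2) / ((√(1 + m) + x) ^ 2 * (2 * √(1 + m)))))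
    (g := fun r => w p (x + r) * r ^ (-1 - 2 * s)) ?_ ?_ ?_ ?_
  · rw [rr_zero hx] at h
    rw [intervalIntegral.integral_symm, ← h, ← intervalIntegral.integral_const_mul,
      ← intervalIntegral.integral_neg]
    apply intervalIntegral.integral_congr
    intro m hm
    rw [uIcc_of_le hM] at hm
    simp only [Function.comp]
    rw [subst_pointwise s p hx hm.1]
    unfold gg
    ring
  · intro m hm
    rw [uIcc_of_le hM] at hm
    exact (rr_hasDerivAt hx hm.1).continuousAt.continuousWithinAt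
  · intro m hm
    rw [min_eq_left hM, max_eq_right hM] at hm
    exact (rr_hasDerivAt hx hm.1.le).hasDerivWithinAt
  · intro m hm
    rw [uIcc_of_le hM] at hm
    have hR := R_pos hx hm.1
    have hq : 0 < √(1 + m) := Real.sqrt_pos.2 (by linarith [hm.1])
    apply ContinuousAt.continuousWithinAt
    apply ContinuousAt.neg
    apply ContinuousAt.div continuousAt_const
    · fun_prop
    · positivity
  · intro r hr
    obtain ⟨m, hm, rfl⟩ := hr
    rw [uIcc_of_le hM] at hm
    apply ContinuousAt.continuousWithinAt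
    apply ContinuousAt.mul
    · exact ((continuous_w hp.le).comp (by fun_prop : Continuous fun r : ℝ => x + r)).continuousAt
    · exact Real.continuousAt_rpow_const _ _ (Or.inl (rr_pos hx hm.1).ne')

/-- the one-sided singular integral with cut-off `rr x M` -/
theorem oneside_integral {s p : ℝ} (hs : 0 < s) (hp : 0 < p) {x M : ℝ} (hx : |x| < 1)
    (hM : 0 ≤ M) :
    IntegrableOn (fun r => (w p x - w p (x + r)) * r ^ (-1 - 2 * s)) (Ioi (rr x M)) ∧
    ∫ r in Ioi (rr x M), (w p x - w p (x + r)) * r ^ (-1 - 2 * s)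
      = (1 - x ^ 2) ^ (p - 2 * s) *
        ((√(1 + M) + x) ^ (2 * s) / (2 * s) - ∫ m in (0:ℝ)..M, gg s p x m) := by
  have hr := rr_pos hx hM
  have hR := R_pos hx hM
  have hz := z_pos hx
  have i1 : IntegrableOn (fun r : ℝ => r ^ (-1 - 2 * s)) (Ioi (rr x M)) :=
    integrableOn_Ioi_rpow_of_lt (by linarith) hr
  have i2 : IntegrableOn (fun r : ℝ => w p x * r ^ (-1 - 2 * s)) (Ioi (rr x M)) :=
    i1.const_mul _
  have i3 : IntegrableOn (fun r : ℝ => w p (x + r) * r ^ (-1 - 2 * s)) (Ioi (rr x M)) := by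
    apply Integrable.bdd_mul i1 (c := 1)
    · exact ((continuous_w hp.le).comp
        (by fun_prop : Continuous fun r : ℝ => x + r)).aestronglyMeasurable
    · filter_upwards with r
      rw [Real.norm_eq_abs]
      exact w_abs_le hp.le _
  have e : (fun r : ℝ => (w p x - w p (x + r)) * r ^ (-1 - 2 * s))
      = fun r => w p x * r ^ (-1 - 2 * s) - w p (x + r) * r ^ (-1 - 2 * s) := by
    funext r
    ring
  rw [e]
  refine ⟨i2.sub i3, ?_⟩
  rw [integral_sub i2 i3, integral_const_mul, integral_Ioi_rpow_of_lt (by linarith) hr]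
  have e2 : ∫ r in Ioi (rr x M), w p (x + r) * r ^ (-1 - 2 * s)
      = ∫ r in (rr x M)..(1 - x), w p (x + r) * r ^ (-1 - 2 * s) := by
    rw [intervalIntegral.integral_of_le (rr_antitone hx hM)]
    apply setIntegral_eq_of_subset_of_forall_sdiff_eq_zero measurableSet_Ioi Ioc_subset_Ioi_self
    rintro r ⟨h1, h2⟩
    have h3 : 1 - x < r := by
      by_contra h4
      exact h2 ⟨h1, not_lt.1 h4⟩
    rw [w_zero_of hp, zero_mul]
    rw [le_abs]
    left
    linarith
  rw [e2, interior_integral hp hx hM]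
  have e3 : w p x = (1 - x ^ 2) ^ p := by
    unfold w
    rw [max_eq_left hz.le]
  rw [e3]
  have e4 : -1 - 2 * s + 1 = -(2 * s) := by ring
  rw [e4, Real.rpow_neg hr.le]
  unfold rr
  rw [Real.div_rpow hz.le hR.le, Real.rpow_sub hz]
  have hz2 : 0 < (1 - x ^ 2) ^ (2 * s) := Real.rpow_pos_of_pos hz _
  have hR2 : 0 < (√(1 + M) + x) ^ (2 * s) := Real.rpow_pos_of_pos hR _
  field_simp

end Pool.Agent.R212.FGrad
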