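import Pool.Agent.R212.Fg1

/-! # The one-dimensional singular integrals: passage to the limit -/

open MeasureTheory Filter Topology Set
open scoped ENNReal

namespace Pool.Agent.R212.FGrad

/-- first difference bound -/
theorem first_diff {f : ℝ → ℝ} {x : ℝ} (hf : ContDiffAt ℝ 2 f x) {B : ℝ} (hB : ∀ y, |f y| ≤ B) :
    ∃ C : ℝ, 0 ≤ C ∧ ∀ h : ℝ, |f x - f (x + h)| ≤ C * |h| := by
  have h1 : ContDiffAt ℝ 1 f x := hf.of_le (by norm_num)
  obtain ⟨K, t, ht, hK⟩ := h1.exists_lipschitzOnWith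
  obtain ⟨δ, hδ, hball⟩ := Metric.mem_nhds_iff.1 ht
  have hB0 : 0 ≤ B := (abs_nonneg _).trans (hB x)
  refine ⟨K + 2 * B / δ, by positivity, ?_⟩
  intro h
  have hd : 0 ≤ 2 * B / δ := by positivity
  rcases lt_or_ge |h| δ with h2 | h2
  · have h3 := hK.norm_sub_le (hball (Metric.mem_ball_self hδ))
      (hball (show x + h ∈ Metric.ball x δ by
        rw [Metric.mem_ball, dist_eq_norm]; simpa using h2))
    rw [Real.norm_eq_abs, sub_add_cancel_left, norm_neg, Real.norm_eq_abs] at h3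
    have : 0 ≤ 2 * B / δ * |h| := by positivity
    nlinarith
  · have a1 := hB x
    have a2 := hB (x + h)
    have h4 : |f x - f (x + h)| ≤ 2 * B := by
      rw [abs_le] at a1 a2 ⊢
      constructor <;> linarith [a1.1, a1.2, a2.1, a2.2]
    have h5 : 2 * B ≤ 2 * B / δ * |h| := by
      calc 2 * B = 2 * B / δ * δ := by field_simp
        _ ≤ _ := by gcongr
    have : 0 ≤ (K : ℝ) * |h| := by positivity
    nlinarith

/-- the symmetric one-dimensional singular integral -/
noncomputable def JJ (s p x : ℝ) : ℝ :=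
  ∫ r in Ioi (0:ℝ), (2 * w p x - w p (x + r) - w p (x - r)) * r ^ (-1 - 2 * s)

theorem integrableOn_JJ {s p : ℝ} (hs : 0 < s) (hs1 : s < 1) (hp : 0 < p) {x : ℝ} (hx : |x| < 1) :
    IntegrableOn (fun r => (2 * w p x - w p (x + r) - w p (x - r)) * r ^ (-1 - 2 * s))
      (Ioi 0) := by
  obtain ⟨C, hC, hb⟩ := second_diff_global (w_contDiffAt p hx) (fun y => w_abs_le hp.le y)
  have h1 := (integrableOn_min hs hs1).const_mul C
  refine Integrable.mono' h1 ?_ ?_
  · apply Measurable.aestronglyMeasurable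
    have := (continuous_w hp.le).measurable
    fun_prop
  · rw [ae_restrict_iff' measurableSet_Ioi]
    filter_upwards with r hr
    have hr' : 0 < r := hr
    rw [norm_mul, Real.norm_eq_abs, Real.norm_eq_abs, abs_of_pos (Real.rpow_pos_of_pos hr' _)]
    have := hb r
    rw [Real.norm_eq_abs, sq_abs] at this
    calc |2 * w p x - w p (x + r) - w p (x - r)| * r ^ (-1 - 2 * s)
        ≤ (C * min 1 (r ^ 2)) * r ^ (-1 - 2 * s) := by gcongr
      _ = _ := by ring

theorem abs_neg_lt {x : ℝ} (hx : |x| < 1) : |-x| < 1 := by rwa [abs_neg]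

theorem sqrt_tendsto : Tendsto (fun M : ℝ => √(1 + M)) atTop atTop :=
  Real.tendsto_sqrt_atTop.comp (tendsto_atTop_add_const_left _ _ tendsto_id)

theorem rr_tendsto {x : ℝ} : Tendsto (rr x) atTop (𝓝 0) := by
  unfold rr
  apply Tendsto.div_atTop tendsto_const_nhds
  exact tendsto_atTop_add_const_right _ _ sqrt_tendsto

theorem rpow_div_tendsto {s : ℝ} (hs : 0 < s) (hs1 : s < 1) :
    Tendsto (fun M : ℝ => (1 + M) ^ s / M) atTop (𝓝 0) := by
  have h1 : Tendsto (fun M : ℝ => 2 ^ s * M ^ (-(1 - s))) atTop (𝓝 (2 ^ s * 0)) :=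
    (tendsto_rpow_neg_atTop (by linarith)).const_mul _
  rw [mul_zero] at h1
  apply squeeze_zero' _ _ h1
  · filter_upwards [eventually_gt_atTop 0] with M hM
    positivity
  · filter_upwards [eventually_ge_atTop 1] with M hM
    have hM0 : 0 < M := by linarith
    rw [div_le_iff₀ hM0]
    have e : 2 ^ s * M ^ (-(1 - s)) * M = (2 * M) ^ s := by
      rw [Real.mul_rpow (by norm_num) hM0.le, mul_assoc, ← Real.rpow_add_one hM0.ne']
      congr 2
      ring
    rw [e]
    apply Real.rpow_le_rpow (by linarith) (by linarith) hs.le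

theorem middle_bound {s p : ℝ} (hs : 0 < s) (hp : 0 < p) {x : ℝ} (hx : |x| < 1) :
    ∃ C : ℝ, 0 ≤ C ∧ ∀ M : ℝ, 1 ≤ M →
      |∫ r in (rr x M)..(rr (-x) M), (w p x - w p (x + r)) * r ^ (-1 - 2 * s)|
        ≤ C * ((1 + M) ^ s / M) := by
  obtain ⟨C, hC, hb⟩ := first_diff (w_contDiffAt p hx) (fun y => w_abs_le hp.le y)
  have hz := z_pos hx
  refine ⟨C * ((1 - x ^ 2) / 2) ^ (-(2 * s)) * 2, by positivity, ?_⟩
  intro M hM
  have hM0 : 0 ≤ M := by linarith
  set q := √(1 + M) with hq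
  have hq1 : 1 ≤ q := by
    rw [hq, Real.one_le_sqrt]
    linarith
  have hqq : q ^ 2 = 1 + M := Real.sq_sqrt (by linarith)
  have hx1 := neg_abs_le x
  have hx2 := le_abs_self x
  have hR1 : 0 < q + x := R_pos hx hM0
  have hR2 : 0 < q + -x := R_pos (abs_neg_lt hx) hM0
  -- lower bound of the radii
  have hlow : ∀ y : ℝ, |y| < 1 → y ^ 2 = x ^ 2 → (1 - x ^ 2) / 2 / q ≤ rr y M := by
    intro y hy hyx
    unfold rr
    rw [hyx, div_div]
    have h3 := R_pos hy hM0
    apply div_le_div_of_nonneg_left hz.le h3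
    have := le_abs_self y
    rw [← hq]
    linarith
  have hl1 := hlow x hx rfl
  have hl2 := hlow (-x) (abs_neg_lt hx) (neg_sq x)
  have hbd : ∀ r ∈ uIoc (rr x M) (rr (-x) M),
      ‖(w p x - w p (x + r)) * r ^ (-1 - 2 * s)‖ ≤ C * ((1 - x ^ 2) / 2 / q) ^ (-(2 * s)) := by
    intro r hr
    have hmin : (1 - x ^ 2) / 2 / q < r := lt_of_le_of_lt (le_min hl1 hl2) hr.1
    have hpos : 0 < (1 - x ^ 2) / 2 / q := by positivity
    have hr0 : 0 < r := hpos.trans hmin
    rw [norm_mul, Real.norm_eq_abs, Real.norm_eq_abs, abs_of_pos (Real.rpow_pos_of_pos hr0 _)]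
    have h4 := hb r
    rw [abs_of_pos hr0] at h4
    calc |w p x - w p (x + r)| * r ^ (-1 - 2 * s) ≤ (C * r) * r ^ (-1 - 2 * s) := by gcongr
      _ = C * r ^ (-(2 * s)) := by
        rw [mul_assoc, mul_comm r, ← Real.rpow_add_one hr0.ne']
        congr 2
        ring
      _ ≤ _ := by
        apply mul_le_mul_of_nonneg_left _ hC
        exact Real.rpow_le_rpow_of_nonpos hpos hmin.le (by linarith)
  have h5 := intervalIntegral.norm_integral_le_of_norm_le_const hbd
  rw [Real.norm_eq_abs] at h5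
  refine h5.trans ?_
  have h6 : |rr (-x) M - rr x M| ≤ 2 / M := by
    unfold rr
    rw [neg_sq, ← hq]
    have e : (1 - x ^ 2) / (q + -x) - (1 - x ^ 2) / (q + x)
        = (1 - x ^ 2) * (2 * x) / ((q + -x) * (q + x)) := by
      field_simp
      ring
    rw [e, abs_div, abs_mul, abs_of_pos (mul_pos hR2 hR1), abs_of_pos hz]
    have e2 : (q + -x) * (q + x) = M + (1 - x ^ 2) := by
      nlinarith
    rw [e2, abs_mul, abs_two]
    rw [div_le_div_iff₀ (by linarith) (by linarith)]
    have h7 : 1 - x ^ 2 ≤ 1 := by nlinarith [sq_nonneg x]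
    have h8 : (1 - x ^ 2) * (2 * |x|) ≤ 2 := by nlinarith [abs_nonneg x]
    nlinarith
  calc C * ((1 - x ^ 2) / 2 / q) ^ (-(2 * s)) * |rr (-x) M - rr x M|
      ≤ C * ((1 - x ^ 2) / 2 / q) ^ (-(2 * s)) * (2 / M) := by gcongr
    _ = C * ((1 - x ^ 2) / 2) ^ (-(2 * s)) * 2 * ((1 + M) ^ s / M) := by
      have h9 : ((1 - x ^ 2) / 2 / q) ^ (-(2 * s)) = ((1 - x ^ 2) / 2) ^ (-(2 * s)) * (1 + M) ^ s := by
        rw [Real.div_rpow (by positivity) (by positivity), Real.rpow_neg (by positivity : (0:ℝ) ≤ q),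
          div_inv_eq_mul, ← hqq, ← Real.rpow_natCast q 2, ← Real.rpow_mul (by positivity)]
        norm_num
      rw [h9]
      ring

/-- convergence of the asymmetric truncations -/
theorem tendsto_JJ {s p : ℝ} (hs : 0 < s) (hs1 : s < 1) (hp : 0 < p) {x : ℝ} (hx : |x| < 1) :
    Tendsto (fun M : ℝ => (1 - x ^ 2) ^ (p - 2 * s) *
        ((√(1 + M) + x) ^ (2 * s) / (2 * s) - ∫ m in (0:ℝ)..M, gg s p x m)
      + (1 - x ^ 2) ^ (p - 2 * s) *
        ((√(1 + M) + -x) ^ (2 * s) / (2 * s) - ∫ m in (0:ℝ)..M, gg s p (-x) m))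
      atTop (𝓝 (JJ s p x)) := by
  have hx' := abs_neg_lt hx
  have hint := integrableOn_JJ hs hs1 hp hx
  -- main part
  have h1 : Tendsto (fun M : ℝ => ∫ r in Ioi (rr (-x) M),
      (2 * w p x - w p (x + r) - w p (x - r)) * r ^ (-1 - 2 * s)) atTop (𝓝 (JJ s p x)) := by
    have hcov : AECover (volume.restrict (Ioi (0:ℝ))) atTop (fun M => Ioi (rr (-x) M)) :=
      aecover_Ioi_of_Ioi rr_tendsto
    have h2 := hcov.integral_tendsto_of_countably_generated hint
    apply h2.congr'
    filter_upwards [eventually_ge_atTop 0] with M hM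
    rw [Measure.restrict_restrict measurableSet_Ioi]
    congr 2
    ext r
    simp only [mem_inter_iff, mem_Ioi]
    exact ⟨fun h => h.1, fun h => ⟨h, (rr_pos hx' hM).trans h⟩⟩
  obtain ⟨C, hC, hmid⟩ := middle_bound (s := s) (p := p) hs hp hx
  have h3 : Tendsto (fun M : ℝ => ∫ r in (rr x M)..(rr (-x) M),
      (w p x - w p (x + r)) * r ^ (-1 - 2 * s)) atTop (𝓝 0) := by
    have h4 := (rpow_div_tendsto hs hs1).const_mul C
    rw [mul_zero] at h4
    apply squeeze_zero_norm' _ h4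
    filter_upwards [eventually_ge_atTop 1] with M hM
    exact hmid M hM
  have h5 := h1.add h3
  rw [add_zero] at h5
  apply h5.congr'
  filter_upwards [eventually_ge_atTop 0] with M hM
  obtain ⟨i1, e1⟩ := oneside_integral (s := s) hs hp hx hM
  obtain ⟨i2, e2⟩ := oneside_integral (s := s) hs hp hx' hM
  rw [← e1]
  rw [neg_sq] at e2
  rw [← e2]
  have e3 : (fun r : ℝ => (w p (-x) - w p (-x + r)) * r ^ (-1 - 2 * s))
      = fun r => (w p x - w p (x - r)) * r ^ (-1 - 2 * s) := by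
    funext r
    rw [w_even, ← w_even p (x - r)]
    congr 3
    ring
  rw [e3] at i2 ⊢
  -- integrability of the first function on `Ioi (rr (-x) M)`
  have hr1 := rr_pos hx hM
  have hr2 := rr_pos hx' hM
  have i3 : IntegrableOn (fun r => (w p x - w p (x + r)) * r ^ (-1 - 2 * s))
      (Ioi (rr (-x) M)) := by
    have j := (hint.mono_set (Ioi_subset_Ioi hr2.le)).sub i2
    apply j.congr
    filter_upwards with r
    simp only [Pi.sub_apply]
    ring
  rw [← intervalIntegral.integral_Ioi_sub_Ioi' i1 i3]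
  have e4 : ∫ r in Ioi (rr (-x) M), (2 * w p x - w p (x + r) - w p (x - r)) * r ^ (-1 - 2 * s)
      = (∫ r in Ioi (rr (-x) M), (w p x - w p (x + r)) * r ^ (-1 - 2 * s))
        + ∫ r in Ioi (rr (-x) M), (w p x - w p (x - r)) * r ^ (-1 - 2 * s) := by
    rw [← integral_add i3 i2]
    congr 1
    funext r
    ring
  rw [e4]
  ring

/-- the second differences of the power at infinity -/
theorem power_limit {s : ℝ} (hs : 0 < s) (hs1 : s < 1) {x : ℝ} (hx : |x| < 1) :
    Tendsto (fun M : ℝ => (√(1 + M) + x) ^ (2 * s) + (√(1 + M) + -x) ^ (2 * s) - 2 * M ^ s)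
      atTop (𝓝 0) := by
  -- first part
  have hcd : ContDiffAt ℝ 2 (fun y : ℝ => y ^ (2 * s)) 1 :=
    Real.contDiffAt_rpow_const_of_ne one_ne_zero
  obtain ⟨C, δ, hδ, hC, hb⟩ := second_diff_local hcd
  have h1 : Tendsto (fun M : ℝ => (√(1 + M) + x) ^ (2 * s) + (√(1 + M) + -x) ^ (2 * s)
      - 2 * (1 + M) ^ s) atTop (𝓝 0) := by
    have h2 : Tendsto (fun M : ℝ => C * (1 + M) ^ (-(1 - s))) atTop (𝓝 0) := by
      have h3 : Tendsto (fun M : ℝ => (1 + M) ^ (-(1 - s))) atTop (𝓝 0) :=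
        (tendsto_rpow_neg_atTop (by linarith)).comp
          (tendsto_atTop_add_const_left _ (1:ℝ) tendsto_id)
      simpa using h3.const_mul C
    apply squeeze_zero_norm' _ h2
    have h4 : ∀ᶠ M : ℝ in atTop, 1 / δ < √(1 + M) := sqrt_tendsto.eventually_gt_atTop _
    filter_upwards [h4, eventually_ge_atTop 0] with M hM hM0
    set q := √(1 + M) with hq
    have hqq : q ^ 2 = 1 + M := Real.sq_sqrt (by linarith)
    have hq0 : 0 < q := lt_trans (by positivity) hM
    have hR1 : 0 < q + x := R_pos hx hM0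
    have hR2 : 0 < q + -x := R_pos (abs_neg_lt hx) hM0
    have h5 : ‖x / q‖ < δ := by
      rw [Real.norm_eq_abs, abs_div, abs_of_pos hq0, div_lt_iff₀ hq0]
      rw [div_lt_iff₀ hδ] at hM
      linarith
    have h6 := hb (x / q) h5
    simp only [Real.one_rpow, mul_one] at h6
    have e1 : (q + x) ^ (2 * s) = q ^ (2 * s) * (1 + x / q) ^ (2 * s) := by
      rw [← Real.mul_rpow hq0.le]
      · congr 1
        field_simp
      · have : 1 + x / q = (q + x) / q := by field_simp
        rw [this]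
        positivity
    have e2 : (q + -x) ^ (2 * s) = q ^ (2 * s) * (1 - x / q) ^ (2 * s) := by
      rw [← Real.mul_rpow hq0.le]
      · congr 1
        field_simp
        ring
      · have : 1 - x / q = (q + -x) / q := by field_simp; ring
        rw [this]
        positivity
    have e3 : (1 + M) ^ s = q ^ (2 * s) := by
      rw [← hqq, ← Real.rpow_natCast q 2, ← Real.rpow_mul hq0.le]
      norm_num
    have e4 : (1 + M) ^ (-(1 - s)) = q ^ (2 * s) * (1 / q ^ 2) := by
      rw [← e3, ← hqq, mul_one_div, hqq, ← Real.rpow_sub_one (by linarith)]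
      congr 1
      ring
    rw [e1, e2, e3, e4, Real.norm_eq_abs]
    have e5 : q ^ (2 * s) * (1 + x / q) ^ (2 * s) + q ^ (2 * s) * (1 - x / q) ^ (2 * s)
        - 2 * q ^ (2 * s) = -(q ^ (2 * s) * (2 - (1 + x / q) ^ (2 * s) - (1 - x / q) ^ (2 * s))) := by
      ring
    rw [e5, abs_neg, abs_mul, abs_of_pos (Real.rpow_pos_of_pos hq0 _)]
    have h7 : ‖x / q‖ ^ 2 ≤ 1 / q ^ 2 := by
      rw [Real.norm_eq_abs, abs_div, abs_of_pos hq0, div_pow]
      gcongr
      nlinarith [abs_nonneg x]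
    have hqs : 0 < q ^ (2 * s) := Real.rpow_pos_of_pos hq0 _
    calc q ^ (2 * s) * |2 - (1 + x / q) ^ (2 * s) - (1 - x / q) ^ (2 * s)|
        ≤ q ^ (2 * s) * (C * ‖x / q‖ ^ 2) := by gcongr
      _ ≤ q ^ (2 * s) * (C * (1 / q ^ 2)) := by gcongr
      _ = _ := by ring
  have h8 : Tendsto (fun M : ℝ => 2 * ((1 + M) ^ s - M ^ s)) atTop (𝓝 0) := by
    have h9 : Tendsto (fun M : ℝ => 2 * (s * M ^ (-(1 - s)))) atTop (𝓝 0) := by
      have := ((tendsto_rpow_neg_atTop (y := 1 - s) (by linarith)).const_mul s).const_mul 2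
      simpa using this
    apply squeeze_zero' _ _ h9
    · filter_upwards [eventually_ge_atTop 0] with M hM
      have : M ^ s ≤ (1 + M) ^ s := Real.rpow_le_rpow hM (by linarith) hs.le
      linarith
    · filter_upwards [eventually_gt_atTop 0] with M hM
      have h10 : (1 + M) ^ s = M ^ s * (1 + 1 / M) ^ s := by
        rw [← Real.mul_rpow hM.le (by positivity)]
        congr 1
        field_simp
        ring
      have h11 : (1 + 1 / M) ^ s ≤ 1 + s * (1 / M) :=
        rpow_one_add_le_one_add_mul_self (by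
          have : 0 < 1 / M := by positivity
          linarith) hs.le hs1.le
      have h12 : M ^ (-(1 - s)) = M ^ s * (1 / M) := by
        rw [mul_one_div, ← Real.rpow_sub_one hM.ne']
        congr 1
        ring
      rw [h10, h12]
      have h13 : 0 < M ^ s := Real.rpow_pos_of_pos hM _
      nlinarith
  have h14 := h1.add h8
  rw [add_zero] at h14
  refine h14.congr fun M => ?_
  ring

end Pool.Agent.R212.FGrad
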