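import Pool.Agent.R212.Fg2

/-! # The one-dimensional singular integrals: values -/

open MeasureTheory Filter Topology Set
open scoped ENNReal

namespace Pool.Agent.R212.FGrad

/-- `I_j = ∫_0^∞ σ^{s-1+j} (1+σ)^{-3} dσ` -/
noncomputable def II (s : ℝ) (j : ℕ) : ℝ :=
  ∫ t in Ioi (0:ℝ), t ^ (s - 1) * t ^ j / (1 + t) ^ 3

theorem integrableOn_II {s : ℝ} (hs : 0 < s) (hs1 : s < 1) {j : ℕ} (hj : j ≤ 2) :
    IntegrableOn (fun t : ℝ => t ^ (s - 1) * t ^ j / (1 + t) ^ 3) (Ioi 0) := by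
  have hmeas : Measurable (fun t : ℝ => t ^ (s - 1) * t ^ j / (1 + t) ^ 3) := by fun_prop
  rw [← Ioc_union_Ioi_eq_Ioi zero_le_one]
  apply IntegrableOn.union
  · have h1 : IntegrableOn (fun r : ℝ => r ^ (s - 1)) (Ioc 0 1) := by
      rw [← intervalIntegrable_iff_integrableOn_Ioc_of_le zero_le_one]
      exact intervalIntegral.intervalIntegrable_rpow' (by linarith)
    refine Integrable.mono' h1 hmeas.aestronglyMeasurable ?_
    rw [ae_restrict_iff' measurableSet_Ioc]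
    filter_upwards with t ht
    have h0 := ht.1
    have h2 : 0 < t ^ (s - 1) := Real.rpow_pos_of_pos h0 _
    rw [Real.norm_eq_abs, abs_of_pos (by positivity), div_le_iff₀ (by positivity)]
    apply mul_le_mul_of_nonneg_left _ h2.le
    have h3 : t ^ j ≤ 1 := pow_le_one₀ h0.le ht.2
    have h4 : (1:ℝ) ≤ (1 + t) ^ 3 := one_le_pow₀ (by linarith)
    linarith
  · have h1 : IntegrableOn (fun r : ℝ => r ^ (s - 2)) (Ioi 1) :=
      integrableOn_Ioi_rpow_of_lt (by linarith) one_pos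
    refine Integrable.mono' h1 hmeas.aestronglyMeasurable ?_
    rw [ae_restrict_iff' measurableSet_Ioi]
    filter_upwards with t ht
    have ht' : 1 < t := ht
    have h0 : 0 < t := by linarith
    have h2 : 0 < t ^ (s - 1) := Real.rpow_pos_of_pos h0 _
    rw [Real.norm_eq_abs, abs_of_pos (by positivity), div_le_iff₀ (by positivity)]
    have e : t ^ (s - 2) = t ^ (s - 1) * t⁻¹ := by
      rw [← Real.rpow_neg_one t, ← Real.rpow_add h0]
      congr 1
      ring
    rw [e, mul_assoc]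
    apply mul_le_mul_of_nonneg_left _ h2.le
    have h3 : t ^ j ≤ t ^ 2 := pow_le_pow_right₀ ht'.le hj
    have h4 : t ^ 2 ≤ t⁻¹ * (1 + t) ^ 3 := by
      rw [inv_mul_eq_div, le_div_iff₀ h0]
      nlinarith
    linarith

theorem II_pos {s : ℝ} (hs : 0 < s) (hs1 : s < 1) {j : ℕ} (hj : j ≤ 2) : 0 < II s j := by
  unfold II
  rw [setIntegral_pos_iff_support_of_nonneg_ae]
  · have : Function.support (fun t : ℝ => t ^ (s - 1) * t ^ j / (1 + t) ^ 3) ∩ Ioi 0 = Ioi 0 := by
      ext t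
      simp only [mem_inter_iff, Function.mem_support, mem_Ioi, and_iff_right_iff_imp]
      intro ht
      have h2 : 0 < t ^ (s - 1) := Real.rpow_pos_of_pos ht _
      positivity
    rw [this, Real.volume_Ioi]
    exact ENNReal.zero_lt_top
  · rw [EventuallyLE, ae_restrict_iff' measurableSet_Ioi]
    filter_upwards with t ht
    have ht' : (0:ℝ) < t := ht
    have h2 : 0 < t ^ (s - 1) := Real.rpow_pos_of_pos ht' _
    simp only [Pi.zero_apply]
    positivity
  · exact integrableOn_II hs hs1 hj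

theorem II_comb {s : ℝ} (hs : 0 < s) (hs1 : s < 1) (a b : ℝ) :
    IntegrableOn (fun t : ℝ => t ^ (s - 1) * t ^ 0 / (1 + t) ^ 3
      + a * (t ^ (s - 1) * t ^ 1 / (1 + t) ^ 3) + b * (t ^ (s - 1) * t ^ 2 / (1 + t) ^ 3)) (Ioi 0) ∧
    ∫ t in Ioi (0:ℝ), (t ^ (s - 1) * t ^ 0 / (1 + t) ^ 3
      + a * (t ^ (s - 1) * t ^ 1 / (1 + t) ^ 3) + b * (t ^ (s - 1) * t ^ 2 / (1 + t) ^ 3))
      = II s 0 + a * II s 1 + b * II s 2 := by
  have j0 := integrableOn_II hs hs1 (j := 0) (by norm_num)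
  have j1 := (integrableOn_II hs hs1 (j := 1) (by norm_num)).const_mul a
  have j2 := (integrableOn_II hs hs1 (j := 2) le_rfl).const_mul b
  have j01 : IntegrableOn (fun t : ℝ => t ^ (s - 1) * t ^ 0 / (1 + t) ^ 3
      + a * (t ^ (s - 1) * t ^ 1 / (1 + t) ^ 3)) (Ioi 0) := j0.add j1
  refine ⟨j01.add j2, ?_⟩
  rw [integral_add j01 j2, integral_add j0 j1, integral_const_mul, integral_const_mul]
  rfl

theorem rpow_neg_one' (y : ℝ) : y ^ (-1 : ℝ) = y⁻¹ := Real.rpow_neg_one y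

/-- general limit: value of `JJ` as an integral over `(0,∞)` -/
theorem JJ_eq {s p : ℝ} (hs : 0 < s) (hs1 : s < 1) (hp : 0 < p) {x : ℝ} (hx : |x| < 1)
    (h : ℝ → ℝ) (hh : IntegrableOn h (Ioi 0))
    (hpt : ∀ m : ℝ, 0 < m → h m = m ^ (s - 1) - gg s p x m - gg s p (-x) m) :
    JJ s p x = (1 - x ^ 2) ^ (p - 2 * s) * ∫ m in Ioi (0:ℝ), h m := by
  have h1 := tendsto_JJ hs hs1 hp hx
  have h2 : Tendsto (fun M : ℝ => (1 - x ^ 2) ^ (p - 2 * s) *
      ((((√(1 + M) + x) ^ (2 * s) + (√(1 + M) + -x) ^ (2 * s) - 2 * M ^ s)) / (2 * s)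
        + ∫ m in (0:ℝ)..M, h m)) atTop
      (𝓝 ((1 - x ^ 2) ^ (p - 2 * s) * (0 / (2 * s) + ∫ m in Ioi (0:ℝ), h m))) := by
    apply Tendsto.const_mul
    apply Tendsto.add
    · exact (power_limit hs hs1 hx).div_const _
    · exact intervalIntegral_tendsto_integral_Ioi 0 hh tendsto_id
  rw [zero_div, zero_add] at h2
  apply tendsto_nhds_unique h1
  apply h2.congr'
  filter_upwards [eventually_gt_atTop 0] with M hM
  have hcg : ∀ y : ℝ, |y| < 1 → IntervalIntegrable (gg s p y) volume 0 M := by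
    intro y hy
    apply ContinuousOn.intervalIntegrable
    intro m hm
    rw [uIcc_of_le hM.le] at hm
    have hR := R_pos hy hm.1
    have hq : 0 < √(1 + m) := Real.sqrt_pos.2 (by linarith [hm.1])
    apply ContinuousAt.continuousWithinAt
    unfold gg
    apply ContinuousAt.div
    · apply ContinuousAt.mul
      · exact Real.continuousAt_rpow_const _ _ (Or.inr hp.le)
      · apply ContinuousAt.rpow_const
        · fun_prop
        · left
          exact hR.ne'
    · fun_prop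
    · positivity
  have i1 := hcg x hx
  have i2 := hcg (-x) (abs_neg_lt hx)
  have i3 : IntervalIntegrable (fun m : ℝ => m ^ (s - 1)) volume 0 M :=
    intervalIntegral.intervalIntegrable_rpow' (by linarith)
  have e1 : ∫ m in (0:ℝ)..M, h m = (∫ m in (0:ℝ)..M, m ^ (s - 1))
      - (∫ m in (0:ℝ)..M, gg s p x m) - ∫ m in (0:ℝ)..M, gg s p (-x) m := by
    rw [← intervalIntegral.integral_sub i3 i1, ← intervalIntegral.integral_sub (i3.sub i1) i2]
    rw [intervalIntegral.integral_of_le hM.le, intervalIntegral.integral_of_le hM.le]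
    apply setIntegral_congr_fun measurableSet_Ioc
    intro m hm
    exact hpt m hm.1
  have e2 : ∫ m in (0:ℝ)..M, m ^ (s - 1) = M ^ s / s := by
    rw [integral_rpow (Or.inl (by linarith))]
    rw [sub_add_cancel, Real.zero_rpow hs.ne', sub_zero]
  rw [e1, e2]
  field_simp
  ring

theorem scale_integral {z : ℝ} (hz : 0 < z) (h : ℝ → ℝ) :
    ∫ m in Ioi (0:ℝ), h m = ∫ t in Ioi (0:ℝ), z * h (z * t) := by
  rw [integral_const_mul]
  have := integral_comp_mul_left_Ioi h 0 hz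
  rw [this, mul_zero, smul_eq_mul, ← mul_assoc, mul_inv_cancel₀ hz.ne', one_mul]

theorem integrable_scale {z : ℝ} (hz : 0 < z) {h : ℝ → ℝ}
    (hi : IntegrableOn (fun t => h (z * t)) (Ioi 0)) : IntegrableOn h (Ioi 0) := by
  have := integrableOn_Ioi_comp_mul_left_iff h 0 hz
  rw [mul_zero] at this
  exact this.1 hi

theorem gg_sum_s {s x m : ℝ} (hx : |x| < 1) (hm : 0 < m) :
    gg s s x m + gg s s (-x) m = m ^ s / (m + (1 - x ^ 2)) := by
  have hR1 := R_pos hx hm.le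
  have hR2 := R_pos (abs_neg_lt hx) hm.le
  have hq : 0 < √(1 + m) := Real.sqrt_pos.2 (by linarith)
  have hqq : √(1 + m) ^ 2 = 1 + m := Real.sq_sqrt (by linarith)
  have hz := z_pos hx
  unfold gg
  have e : 2 * s - 1 - 2 * s = -1 := by ring
  rw [e, rpow_neg_one', rpow_neg_one']
  have e2 : m + (1 - x ^ 2) = (√(1 + m) + x) * (√(1 + m) + -x) := by
    linear_combination -hqq
  rw [e2]
  field_simp
  ring

theorem gg_sum_s1 {s x m : ℝ} (hx : |x| < 1) (hm : 0 < m) :
    gg s (1 + s) x m + gg s (1 + s) (-x) m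
      = m ^ (1 + s) * (m + 1 + 3 * x ^ 2) / (m + (1 - x ^ 2)) ^ 3 := by
  have hR1 := R_pos hx hm.le
  have hR2 := R_pos (abs_neg_lt hx) hm.le
  have hq : 0 < √(1 + m) := Real.sqrt_pos.2 (by linarith)
  have hqq : √(1 + m) ^ 2 = 1 + m := Real.sq_sqrt (by linarith)
  have hz := z_pos hx
  unfold gg
  have e : 2 * s - 1 - 2 * (1 + s) = ((-3 : ℤ) : ℝ) := by push_cast; ring
  rw [e, Real.rpow_intCast, Real.rpow_intCast]
  have e2 : m + (1 - x ^ 2) = (√(1 + m) + x) * (√(1 + m) + -x) := by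
    linear_combination -hqq
  have e3 : m + 1 + 3 * x ^ 2 = √(1 + m) ^ 2 + 3 * x ^ 2 := by
    linear_combination -hqq
  rw [e2, e3, zpow_neg, zpow_neg]
  norm_cast
  field_simp
  ring

theorem JJ_s {s : ℝ} (hs : 0 < s) (hs1 : s < 1) {x : ℝ} (hx : |x| < 1) :
    JJ s s x = II s 0 + 2 * II s 1 + II s 2 := by
  set z := 1 - x ^ 2 with hzdef
  have hz : 0 < z := z_pos hx
  set h : ℝ → ℝ := fun m => z * m ^ (s - 1) / (m + z) with hh
  have hsc : ∀ t : ℝ, 0 < t → h (z * t) = z ^ (s - 1) *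
      (t ^ (s - 1) * t ^ 0 / (1 + t) ^ 3 + 2 * (t ^ (s - 1) * t ^ 1 / (1 + t) ^ 3)
        + 1 * (t ^ (s - 1) * t ^ 2 / (1 + t) ^ 3)) := by
    intro t ht
    simp only [hh]
    rw [Real.mul_rpow hz.le ht.le]
    have : z * t + z = z * (1 + t) := by ring
    rw [this]
    field_simp
    ring
  obtain ⟨hcomb, hval⟩ := II_comb hs hs1 2 1
  have hsum := hcomb.const_mul (z ^ (s - 1))
  have hi : IntegrableOn h (Ioi 0) := by
    apply integrable_scale hz
    apply IntegrableOn.congr_fun hsum _ measurableSet_Ioi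
    intro t ht
    simp only
    rw [hsc t ht]
  have hpt : ∀ m : ℝ, 0 < m → h m = m ^ (s - 1) - gg s s x m - gg s s (-x) m := by
    intro m hm
    have h1 := gg_sum_s (s := s) hx hm
    have h2 : m ^ s = m ^ (s - 1) * m := by
      rw [← Real.rpow_add_one hm.ne']
      congr 1
      ring
    have h3 : h m = m ^ (s - 1) - m ^ s / (m + (1 - x ^ 2)) := by
      simp only [hh]
      rw [h2, ← hzdef]
      field_simp
      ring
    rw [h3]
    linarith
  rw [JJ_eq hs hs1 hs hx h hi hpt, scale_integral hz h]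
  have e1 : ∫ t in Ioi (0:ℝ), z * h (z * t) = ∫ t in Ioi (0:ℝ), z ^ s *
      (t ^ (s - 1) * t ^ 0 / (1 + t) ^ 3 + 2 * (t ^ (s - 1) * t ^ 1 / (1 + t) ^ 3)
        + 1 * (t ^ (s - 1) * t ^ 2 / (1 + t) ^ 3)) := by
    apply setIntegral_congr_fun measurableSet_Ioi
    intro t ht
    simp only
    rw [hsc t ht, ← mul_assoc]
    congr 1
    rw [mul_comm, ← Real.rpow_add_one hz.ne']
    congr 1
    ring
  rw [e1, integral_const_mul, hval]
  have e2 : (1 - x ^ 2) ^ (s - 2 * s) * z ^ s = 1 := by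
    rw [← hzdef, ← Real.rpow_add hz]
    have : s - 2 * s + s = 0 := by ring
    rw [this, Real.rpow_zero]
  rw [← mul_assoc, e2, one_mul, one_mul]

theorem JJ_s1 {s : ℝ} (hs : 0 < s) (hs1 : s < 1) {x : ℝ} (hx : |x| < 1) :
    JJ s (1 + s) x = (1 - x ^ 2) * (II s 0 + 3 * II s 1 + 6 * II s 2) - 4 * II s 2 := by
  set z := 1 - x ^ 2 with hzdef
  have hz : 0 < z := z_pos hx
  set h : ℝ → ℝ := fun m => m ^ (s - 1) * ((6 * z - 4) * m ^ 2 + 3 * z ^ 2 * m + z ^ 3)
    / (m + z) ^ 3 with hh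
  have hsc : ∀ t : ℝ, 0 < t → h (z * t) = z ^ (s - 1) *
      (t ^ (s - 1) * t ^ 0 / (1 + t) ^ 3 + 3 * (t ^ (s - 1) * t ^ 1 / (1 + t) ^ 3)
        + (6 - 4 / z) * (t ^ (s - 1) * t ^ 2 / (1 + t) ^ 3)) := by
    intro t ht
    simp only [hh]
    rw [Real.mul_rpow hz.le ht.le]
    have : z * t + z = z * (1 + t) := by ring
    rw [this]
    field_simp
    ring
  obtain ⟨hcomb, hval⟩ := II_comb hs hs1 3 (6 - 4 / z)
  have hsum := hcomb.const_mul (z ^ (s - 1))
  have hi : IntegrableOn h (Ioi 0) := by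
    apply integrable_scale hz
    apply IntegrableOn.congr_fun hsum _ measurableSet_Ioi
    intro t ht
    simp only
    rw [hsc t ht]
  have hpt : ∀ m : ℝ, 0 < m → h m = m ^ (s - 1) - gg s (1 + s) x m - gg s (1 + s) (-x) m := by
    intro m hm
    have h1 := gg_sum_s1 (s := s) hx hm
    have h2 : m ^ (1 + s) = m ^ (s - 1) * m ^ 2 := by
      rw [← Real.rpow_natCast m 2, ← Real.rpow_add hm]
      congr 1
      push_cast
      ring
    have h3 : h m = m ^ (s - 1) - m ^ (1 + s) * (m + 1 + 3 * x ^ 2) / (m + (1 - x ^ 2)) ^ 3 := by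
      have h4 : x ^ 2 = 1 - z := by rw [hzdef]; ring
      simp only [hh]
      rw [h2, ← hzdef, h4]
      have : 0 < m + z := by positivity
      field_simp
      ring
    rw [h3]
    linarith
  rw [JJ_eq hs hs1 (by linarith) hx h hi hpt, scale_integral hz h]
  have e1 : ∫ t in Ioi (0:ℝ), z * h (z * t) = ∫ t in Ioi (0:ℝ), z ^ s *
      (t ^ (s - 1) * t ^ 0 / (1 + t) ^ 3 + 3 * (t ^ (s - 1) * t ^ 1 / (1 + t) ^ 3)
        + (6 - 4 / z) * (t ^ (s - 1) * t ^ 2 / (1 + t) ^ 3)) := by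
    apply setIntegral_congr_fun measurableSet_Ioi
    intro t ht
    simp only
    rw [hsc t ht, ← mul_assoc]
    congr 1
    rw [mul_comm, ← Real.rpow_add_one hz.ne']
    congr 1
    ring
  rw [e1, integral_const_mul, hval]
  have e2 : (1 - x ^ 2) ^ (1 + s - 2 * s) * z ^ s = z := by
    rw [← hzdef, ← Real.rpow_add hz]
    have : 1 + s - 2 * s + s = 1 := by ring
    rw [this, Real.rpow_one]
  rw [← mul_assoc, e2]
  field_simp
  ring

end Pool.Agent.R212.FGrad
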