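import Pool.Agent.R212.Fg4

/-! # The fractional Laplacian of `(1 - |x|²)_+^p` for `p = s` and `p = 1 + s` -/

open MeasureTheory Filter Topology Set Metric
open scoped ENNReal

namespace Pool.Agent.R212.FGrad

variable {n : ℕ}

theorem U_nonneg (p : ℝ) (x : E n) : 0 ≤ U p x := Real.rpow_nonneg (le_max_right _ _) _

theorem U_abs_le {p : ℝ} (hp : 0 ≤ p) (y : E n) : |U p y| ≤ 1 := by
  rw [abs_of_nonneg (U_nonneg p y)]
  unfold U
  apply Real.rpow_le_one (le_max_right _ _) _ hp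
  apply max_le _ zero_le_one
  nlinarith [sq_nonneg ‖y‖]

theorem continuous_U {p : ℝ} (hp : 0 ≤ p) : Continuous (U p : E n → ℝ) := by
  unfold U
  apply Continuous.rpow_const
  · fun_prop
  · intro x
    right
    exact hp

theorem U_contDiffAt (p : ℝ) {x : E n} (hx : ‖x‖ < 1) : ContDiffAt ℝ 2 (U p : E n → ℝ) x := by
  have h0 : 0 < 1 - ‖x‖ ^ 2 := by
    nlinarith [norm_nonneg x]
  have h1 : ContDiffAt ℝ 2 (fun y : E n => (1 - ‖y‖ ^ 2) ^ p) x := by
    apply ContDiffAt.rpow_const_of_ne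
    · exact contDiffAt_const.sub ((contDiff_norm_sq ℝ).contDiffAt)
    · exact h0.ne'
  apply h1.congr_of_eventuallyEq
  have h2 : ∀ᶠ y : E n in 𝓝 x, 0 < 1 - ‖y‖ ^ 2 := by
    apply ContinuousAt.eventually_lt
    · exact continuousAt_const
    · fun_prop
    · exact h0
  filter_upwards [h2] with y hy
  unfold U
  rw [max_eq_left hy.le]

/-- the symmetric singular integral -/
noncomputable def IU (s : ℝ) (u : E n → ℝ) (x : E n) : ℝ :=
  ∫ h : E n, (2 * u x - u (x + h) - u (x - h)) / ‖h‖ ^ ((n : ℝ) + 2 * s)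

theorem integrable_IU (hn : 0 < n) [Nontrivial (E n)] {s : ℝ} (hs : 0 < s) (hs1 : s < 1)
    {u : E n → ℝ} (hu : Continuous u) {B : ℝ} (hB : ∀ y, |u y| ≤ B) {x : E n}
    (hx : ContDiffAt ℝ 2 u x) :
    Integrable (fun h : E n => (2 * u x - u (x + h) - u (x - h)) / ‖h‖ ^ ((n : ℝ) + 2 * s)) := by
  obtain ⟨C, hC, hb⟩ := second_diff_global hx hB
  apply integrable_min_radial hn hs hs1 _ hb
  apply Continuous.aestronglyMeasurable
  fun_prop

/-- the principal value exists and equals half the symmetric integral -/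
theorem hasFracLap_of (hn : 0 < n) [Nontrivial (E n)] {s : ℝ} (hs : 0 < s) (hs1 : s < 1)
    {u : E n → ℝ} (hu : Continuous u) {B : ℝ} (hB : ∀ y, |u y| ≤ B) {x : E n}
    (hx : ContDiffAt ℝ 2 u x) : HasFracLap s u x (aNs n s * (IU s u x / 2)) := by
  -- change of variables
  have hset : ∀ ε : ℝ, (fun h : E n => x + h) ⁻¹' {y | ε < ‖x - y‖} = {h | ε < ‖h‖} := by
    intro ε
    ext h
    simp
  have hset' : ∀ ε : ℝ, (fun h : E n => x - h) ⁻¹' {y | ε < ‖x - y‖} = {h | ε < ‖h‖} := by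
    intro ε
    ext h
    simp
  have hmp1 : MeasurePreserving (fun h : E n => x + h) := measurePreserving_add_left volume x
  have hmp2 : MeasurePreserving (fun h : E n => x - h) :=
    Measure.measurePreserving_sub_left volume x
  have hemb1 : MeasurableEmbedding (fun h : E n => x + h) :=
    (Homeomorph.addLeft x).measurableEmbedding
  have hemb2 : MeasurableEmbedding (fun h : E n => x - h) :=
    (Homeomorph.subLeft x).measurableEmbedding
  have hi1 : ∀ ε : ℝ, 0 < ε → IntegrableOn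
      (fun h : E n => (u x - u (x + h)) / ‖h‖ ^ ((n : ℝ) + 2 * s)) {h | ε < ‖h‖} := by
    intro ε hε
    apply integrable_far_radial hn hs _ (C := 2 * B) _ hε
    · apply Continuous.aestronglyMeasurable
      fun_prop
    · intro h
      have a1 := hB x
      have a2 := hB (x + h)
      rw [abs_le] at a1 a2 ⊢
      constructor <;> linarith [a1.1, a1.2, a2.1, a2.2]
  have hi2 : ∀ ε : ℝ, 0 < ε → IntegrableOn
      (fun h : E n => (u x - u (x - h)) / ‖h‖ ^ ((n : ℝ) + 2 * s)) {h | ε < ‖h‖} := by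
    intro ε hε
    apply integrable_far_radial hn hs _ (C := 2 * B) _ hε
    · apply Continuous.aestronglyMeasurable
      fun_prop
    · intro h
      have a1 := hB x
      have a2 := hB (x - h)
      rw [abs_le] at a1 a2 ⊢
      constructor <;> linarith [a1.1, a1.2, a2.1, a2.2]
  refine ⟨?_, ?_⟩
  · intro ε hε
    have h1 := hmp1.integrableOn_comp_preimage hemb1
      (f := fun y => (u x - u y) / ‖x - y‖ ^ ((n : ℝ) + 2 * s)) (s := {y | ε < ‖x - y‖})
    rw [hset] at h1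
    rw [← h1]
    have e : (fun y => (u x - u y) / ‖x - y‖ ^ ((n : ℝ) + 2 * s)) ∘ (fun h : E n => x + h)
        = fun h => (u x - u (x + h)) / ‖h‖ ^ ((n : ℝ) + 2 * s) := by
      funext h
      simp
    rw [e]
    exact hi1 ε hε
  · have hval : ∀ ε : ℝ, 0 < ε → ∫ y in {y | ε < ‖x - y‖},
        (u x - u y) / ‖x - y‖ ^ ((n : ℝ) + 2 * s) = (1 / 2) * ∫ h in {h : E n | ε < ‖h‖},
        (2 * u x - u (x + h) - u (x - h)) / ‖h‖ ^ ((n : ℝ) + 2 * s) := by
      intro ε hε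
      have h1 := hmp1.setIntegral_preimage_emb hemb1
        (fun y => (u x - u y) / ‖x - y‖ ^ ((n : ℝ) + 2 * s)) {y | ε < ‖x - y‖}
      have h2 := hmp2.setIntegral_preimage_emb hemb2
        (fun y => (u x - u y) / ‖x - y‖ ^ ((n : ℝ) + 2 * s)) {y | ε < ‖x - y‖}
      rw [hset] at h1
      rw [hset'] at h2
      have e1 : ∫ h in {h : E n | ε < ‖h‖}, (u x - u (x + h)) / ‖x - (x + h)‖ ^ ((n : ℝ) + 2 * s)
          = ∫ h in {h : E n | ε < ‖h‖}, (u x - u (x + h)) / ‖h‖ ^ ((n : ℝ) + 2 * s) := by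
        congr 1
        funext h
        simp
      have e2 : ∫ h in {h : E n | ε < ‖h‖}, (u x - u (x - h)) / ‖x - (x - h)‖ ^ ((n : ℝ) + 2 * s)
          = ∫ h in {h : E n | ε < ‖h‖}, (u x - u (x - h)) / ‖h‖ ^ ((n : ℝ) + 2 * s) := by
        congr 1
        funext h
        simp
      rw [e1] at h1
      rw [e2] at h2
      have e3 : ∫ h in {h : E n | ε < ‖h‖},
          (2 * u x - u (x + h) - u (x - h)) / ‖h‖ ^ ((n : ℝ) + 2 * s)
          = (∫ h in {h : E n | ε < ‖h‖}, (u x - u (x + h)) / ‖h‖ ^ ((n : ℝ) + 2 * s))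
            + ∫ h in {h : E n | ε < ‖h‖}, (u x - u (x - h)) / ‖h‖ ^ ((n : ℝ) + 2 * s) := by
        rw [← integral_add (hi1 ε hε) (hi2 ε hε)]
        congr 1
        funext h
        ring
      rw [e3, h1, h2]
      ring
    have hint := integrable_IU hn hs hs1 hu hB hx
    have hlim : Tendsto (fun ε : ℝ => ∫ h in {h : E n | ε < ‖h‖},
        (2 * u x - u (x + h) - u (x - h)) / ‖h‖ ^ ((n : ℝ) + 2 * s)) (𝓝[>] 0)
        (𝓝 (IU s u x)) := by
      have hcov : AECover (volume : Measure (E n)) (𝓝[>] (0:ℝ)) (fun ε => {h : E n | ε < ‖h‖}) := by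
        constructor
        · have h2 : ∀ᵐ h : E n, h ≠ 0 := by
            rw [ae_iff]
            simp
          filter_upwards [h2] with h hh
          have : Iio ‖h‖ ∈ 𝓝[>] (0:ℝ) :=
            mem_nhdsWithin_of_mem_nhds (Iio_mem_nhds (norm_pos_iff.2 hh))
          filter_upwards [this] with ε hε
          exact hε
        · intro ε
          exact measurableSet_lt measurable_const measurable_norm
      exact hcov.integral_tendsto_of_countably_generated hint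
    have h3 := (hlim.const_mul (1 / 2)).const_mul (aNs n s)
    have e4 : aNs n s * (1 / 2 * IU s u x) = aNs n s * (IU s u x / 2) := by ring
    rw [e4] at h3
    apply h3.congr'
    filter_upwards [self_mem_nhdsWithin] with ε hε
    rw [hval ε hε]

/-- restriction of `U p` to a line -/
theorem U_line (p : ℝ) {x : E n} (hx : ‖x‖ < 1) (θ : E n) (hθ : ‖θ‖ = 1) (r : ℝ) :
    U p (x + r • θ) = (√(1 - ‖x‖ ^ 2 + (inner ℝ x θ) ^ 2)) ^ (2 * p) *
      w p (inner ℝ x θ / √(1 - ‖x‖ ^ 2 + (inner ℝ x θ) ^ 2)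
        + r / √(1 - ‖x‖ ^ 2 + (inner ℝ x θ) ^ 2)) := by
  set τ : ℝ := inner ℝ x θ with hτ
  have h0 : 0 < 1 - ‖x‖ ^ 2 := by nlinarith [norm_nonneg x]
  have hρ2 : 0 < 1 - ‖x‖ ^ 2 + τ ^ 2 := by positivity
  set ρ := √(1 - ‖x‖ ^ 2 + τ ^ 2) with hρdef
  have hρ : 0 < ρ := Real.sqrt_pos.2 hρ2
  have hρρ : ρ ^ 2 = 1 - ‖x‖ ^ 2 + τ ^ 2 := Real.sq_sqrt hρ2.le
  unfold U w
  have h1 : 1 - ‖x + r • θ‖ ^ 2 = ρ ^ 2 * (1 - (τ / ρ + r / ρ) ^ 2) := by
    rw [norm_add_sq_real, inner_smul_right, norm_smul, hθ, Real.norm_eq_abs, mul_one, sq_abs,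
      ← hτ]
    have : ρ ^ 2 * (1 - (τ / ρ + r / ρ) ^ 2) = ρ ^ 2 - (τ + r) ^ 2 := by
      field_simp
    rw [this, hρρ]
    ring
  have h2 : max (1 - ‖x + r • θ‖ ^ 2) 0 = ρ ^ 2 * max (1 - (τ / ρ + r / ρ) ^ 2) 0 := by
    rw [h1, mul_max_of_nonneg _ _ (by positivity), mul_zero]
  rw [h2, Real.mul_rpow (by positivity) (le_max_right _ _)]
  congr 1
  rw [← Real.rpow_natCast, ← Real.rpow_mul hρ.le]
  norm_num

/-- the integral over a line -/
theorem line_integral {s p : ℝ} {x : E n} (hx : ‖x‖ < 1) (θ : E n) (hθ : ‖θ‖ = 1) :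
    ∫ r in Ioi (0:ℝ), (2 * U p x - U p (x + r • θ) - U p (x - r • θ)) * r ^ (-1 - 2 * s)
      = (√(1 - ‖x‖ ^ 2 + (inner ℝ x θ) ^ 2)) ^ (2 * p - 2 * s) *
        JJ s p (inner ℝ x θ / √(1 - ‖x‖ ^ 2 + (inner ℝ x θ) ^ 2)) := by
  have hline := U_line (n := n) p hx θ hθ
  set τ : ℝ := inner ℝ x θ with hτ
  have h0 : 0 < 1 - ‖x‖ ^ 2 := by nlinarith [norm_nonneg x]
  have hρ2 : 0 < 1 - ‖x‖ ^ 2 + τ ^ 2 := by positivity
  set ρ := √(1 - ‖x‖ ^ 2 + τ ^ 2) with hρdef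
  have hρ : 0 < ρ := Real.sqrt_pos.2 hρ2
  rw [scale_integral hρ]
  unfold JJ
  rw [← integral_const_mul]
  apply setIntegral_congr_fun measurableSet_Ioi
  intro t ht
  have ht' : 0 < t := ht
  simp only
  have e1 : U p x = ρ ^ (2 * p) * w p (τ / ρ) := by
    have := hline 0
    rw [zero_smul, add_zero, zero_div, add_zero] at this
    exact this
  have e2 : U p (x + (ρ * t) • θ) = ρ ^ (2 * p) * w p (τ / ρ + t) := by
    rw [hline, mul_div_cancel_left₀ _ hρ.ne']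
  have e3 : U p (x - (ρ * t) • θ) = ρ ^ (2 * p) * w p (τ / ρ - t) := by
    have := hline (-(ρ * t))
    rw [neg_smul, ← sub_eq_add_neg, neg_div, ← sub_eq_add_neg,
      mul_div_cancel_left₀ _ hρ.ne'] at this
    exact this
  rw [e1, e2, e3, Real.mul_rpow hρ.le ht'.le]
  have e4 : ρ ^ (2 * p - 2 * s) = ρ ^ (2 * p) * (ρ * ρ ^ (-1 - 2 * s)) := by
    rw [mul_comm ρ, ← Real.rpow_add_one hρ.ne', ← Real.rpow_add hρ]
    congr 1
    ring
  rw [e4]
  ring

theorem tau_lt {x : E n} (hx : ‖x‖ < 1) (θ : E n) :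
    |inner ℝ x θ / √(1 - ‖x‖ ^ 2 + (inner ℝ x θ) ^ 2)| < 1 := by
  have h0 : 0 < 1 - ‖x‖ ^ 2 := by nlinarith [norm_nonneg x]
  have hρ2 : 0 < 1 - ‖x‖ ^ 2 + (inner ℝ x θ) ^ 2 := by positivity
  have hρ : 0 < √(1 - ‖x‖ ^ 2 + (inner ℝ x θ) ^ 2) := Real.sqrt_pos.2 hρ2
  rw [abs_div, abs_of_pos hρ, div_lt_one hρ]
  apply Real.lt_sqrt_of_sq_lt
  rw [sq_abs]
  linarith

/-- `IU` in polar coordinates -/
theorem IU_polar (hn : 0 < n) [Nontrivial (E n)] {s p : ℝ} (hs : 0 < s) (hs1 : s < 1)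
    (hp : 0 < p) {x : E n} (hx : ‖x‖ < 1) :
    IU s (U p) x = ∫ θ : sphere (0 : E n) 1,
      (√(1 - ‖x‖ ^ 2 + (inner ℝ x (θ : E n)) ^ 2)) ^ (2 * p - 2 * s) *
        JJ s p (inner ℝ x (θ : E n) / √(1 - ‖x‖ ^ 2 + (inner ℝ x (θ : E n)) ^ 2))
      ∂(volume : Measure (E n)).toSphere := by
  unfold IU
  rw [polar_integral (integrable_IU hn hs hs1 (continuous_U hp.le) (fun y => U_abs_le hp.le y)
    (U_contDiffAt p hx))]
  congr 1
  funext θ
  have hθ : ‖(θ : E n)‖ = 1 := by simp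
  rw [← line_integral hx (θ : E n) hθ]
  apply setIntegral_congr_fun measurableSet_Ioi
  intro r hr
  have hr' : 0 < r := hr
  simp only
  rw [norm_smul, hθ, mul_one, Real.norm_eq_abs, abs_of_pos hr', ← pow_mul_rpow hn s hr']
  ring

/-- total mass of the sphere -/
noncomputable def sig (n : ℕ) : ℝ := ((volume : Measure (E n)).toSphere univ).toReal

theorem sig_pos [Nontrivial (E n)] : 0 < sig n := by
  unfold sig
  apply ENNReal.toReal_pos
  · rw [ne_eq, Measure.measure_univ_eq_zero]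
    exact Measure.toSphere_ne_zero _
  · exact measure_ne_top _ _

theorem IU_s (hn : 0 < n) [Nontrivial (E n)] {s : ℝ} (hs : 0 < s) (hs1 : s < 1)
    {x : E n} (hx : ‖x‖ < 1) :
    IU s (U s) x = sig n * (II s 0 + 2 * II s 1 + II s 2) := by
  rw [IU_polar hn hs hs1 hs hx]
  have h1 : ∀ θ : sphere (0 : E n) 1,
      (√(1 - ‖x‖ ^ 2 + (inner ℝ x (θ : E n)) ^ 2)) ^ (2 * s - 2 * s) *
        JJ s s (inner ℝ x (θ : E n) / √(1 - ‖x‖ ^ 2 + (inner ℝ x (θ : E n)) ^ 2))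
      = II s 0 + 2 * II s 1 + II s 2 := by
    intro θ
    rw [JJ_s hs hs1 (tau_lt hx θ), sub_self, Real.rpow_zero, one_mul]
  simp only [h1]
  rw [integral_const, smul_eq_mul]
  rfl

theorem IU_s1 (hn : 0 < n) [Nontrivial (E n)] {s : ℝ} (hs : 0 < s) (hs1 : s < 1)
    {x : E n} (hx : ‖x‖ < 1) :
    IU s (U (1 + s)) x = sig n * ((II s 0 + 3 * II s 1 + 2 * II s 2) * (1 - ‖x‖ ^ 2))
      - 4 * II s 2 * (((n : ℝ) + 2) * Gm x) := by
  rw [IU_polar hn hs hs1 (by linarith) hx]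
  have h1 : ∀ θ : sphere (0 : E n) 1,
      (√(1 - ‖x‖ ^ 2 + (inner ℝ x (θ : E n)) ^ 2)) ^ (2 * (1 + s) - 2 * s) *
        JJ s (1 + s) (inner ℝ x (θ : E n) / √(1 - ‖x‖ ^ 2 + (inner ℝ x (θ : E n)) ^ 2))
      = (II s 0 + 3 * II s 1 + 2 * II s 2) * (1 - ‖x‖ ^ 2)
        - 4 * II s 2 * (inner ℝ x (θ : E n)) ^ 2 := by
    intro θ
    rw [JJ_s1 hs hs1 (tau_lt hx θ)]
    have h0 : 0 < 1 - ‖x‖ ^ 2 := by nlinarith [norm_nonneg x]
    have hρ2 : 0 < 1 - ‖x‖ ^ 2 + (inner ℝ x (θ : E n)) ^ 2 := by positivity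
    have hρρ : (√(1 - ‖x‖ ^ 2 + (inner ℝ x (θ : E n)) ^ 2)) ^ 2
        = 1 - ‖x‖ ^ 2 + (inner ℝ x (θ : E n)) ^ 2 := Real.sq_sqrt hρ2.le
    have hρ : 0 < √(1 - ‖x‖ ^ 2 + (inner ℝ x (θ : E n)) ^ 2) := Real.sqrt_pos.2 hρ2
    have e : 2 * (1 + s) - 2 * s = ((2 : ℕ) : ℝ) := by push_cast; ring
    rw [e, Real.rpow_natCast]
    generalize √(1 - ‖x‖ ^ 2 + (inner ℝ x (θ : E n)) ^ 2) = ρ at *
    rw [div_pow]
    field_simp
    rw [hρρ]
    ring
  simp only [h1]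
  have hc : Continuous fun θ : sphere (0 : E n) 1 => (inner ℝ x (θ : E n)) ^ 2 := by fun_prop
  have hb : Integrable (fun θ : sphere (0 : E n) 1 => (inner ℝ x (θ : E n)) ^ 2)
      (volume : Measure (E n)).toSphere :=
    hc.integrable_of_hasCompactSupport (HasCompactSupport.of_compactSpace _)
  rw [integral_sub (integrable_const _) (hb.const_mul _), integral_const, integral_const_mul,
    sphere_quadratic hn, smul_eq_mul]
  rfl

end Pool.Agent.R212.FGrad
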