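import Pool.Agent.R212.Fg5

/-! # No weak solutions for a suitable `c` -/

open MeasureTheory Filter Topology Set Metric
open scoped ENNReal

namespace Pool.Agent.R212.FGrad

variable {n : ℕ}

theorem aNs_pos {n : ℕ} {s : ℝ} (hs : 0 < s) (hs1 : s < 1) : 0 < aNs n s := by
  unfold aNs
  have h1 : 0 < Real.Gamma ((n : ℝ) / 2 + s) := Real.Gamma_pos_of_pos (by positivity)
  have h2 : Real.Gamma (-s) ≠ 0 := by
    apply Real.Gamma_ne_zero
    intro m hm
    have hm' : s = m := by linarith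
    rcases Nat.eq_zero_or_pos m with h | h
    · subst h
      simp at hm'
      linarith
    · have : (1:ℝ) ≤ m := by exact_mod_cast h
      linarith
  have h3 : 0 < |Real.Gamma (-s)| := abs_pos.2 h2
  positivity

theorem isC2Domain_ball (hn : 0 < n) : IsC2Domain (ball (0 : E n) 1) := by
  refine ⟨isOpen_ball, (convex_ball _ _).isConnected ⟨0, by simp⟩, isBounded_ball,
    fun x => ‖x‖ ^ 2 - 1, (contDiff_norm_sq ℝ).sub contDiff_const, ?_, ?_⟩
  · ext x
    simp only [mem_ball_zero_iff, mem_ofPred_eq]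
    constructor
    · intro h
      nlinarith [norm_nonneg x]
    · intro h
      nlinarith [norm_nonneg x]
  · intro x hx
    rw [frontier_ball (0 : E n) one_ne_zero, mem_sphere_zero_iff_norm] at hx
    refine ⟨by show ‖x‖ ^ 2 - 1 = 0; rw [hx]; norm_num, ?_⟩
    have h1 : HasFDerivAt (fun y : E n => ‖y‖ ^ 2 - 1) (2 • innerSL ℝ x) x :=
      (hasStrictFDerivAt_norm_sq x).hasFDerivAt.sub_const 1
    rw [h1.fderiv]
    intro h
    have h2 : (2 • innerSL ℝ x) x = (0 : E n →L[ℝ] ℝ) x := by rw [h]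
    simp [real_inner_self_eq_norm_sq, hx] at h2

section

variable [Nontrivial (E n)] {s : ℝ}

/-- constants of the example -/
structure Data (n : ℕ) (s : ℝ) where
  β : ℝ
  K : ℝ
  hβ : 0 < β
  hK : 0 < K
  hlap : ∀ x : E n, ‖x‖ < 1 →
    HasFracLap s (fun y => U s y + β * U (1 + s) y) x (K * (1 - ‖x‖ ^ 2))

theorem exists_data (hn : 0 < n) (hs : 0 < s) (hs1 : s < 1) : Nonempty (Data n s) := by
  have i0 := II_pos hs hs1 (j := 0) (by norm_num)
  have i1 := II_pos hs hs1 (j := 1) (by norm_num)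
  have i2 := II_pos hs hs1 (j := 2) le_rfl
  have hσ := sig_pos (n := n)
  set e : E n := EuclideanSpace.single ⟨0, hn⟩ 1 with he
  have hen : ‖e‖ = 1 := by simp [he]
  have hg := Gm_pos hen
  set A := sig n * (II s 0 + 2 * II s 1 + II s 2) with hA
  set D := 4 * II s 2 * (((n : ℝ) + 2) * Gm e) with hD
  set F := sig n * (II s 0 + 3 * II s 1 + 2 * II s 2) with hF
  have hAp : 0 < A := by positivity
  have hDp : 0 < D := by positivity
  have hFp : 0 < F := by positivity
  have ha := aNs_pos (n := n) hs hs1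
  refine ⟨⟨A / D, aNs n s * (A + A / D * F) / 2, by positivity, by positivity, ?_⟩⟩
  intro x hx
  set β := A / D with hβ
  have hβp : 0 < β := by positivity
  have c1 : Continuous (U s : E n → ℝ) := continuous_U hs.le
  have c2 : Continuous (U (1 + s) : E n → ℝ) := continuous_U (by linarith)
  have hu : Continuous (fun y : E n => U s y + β * U (1 + s) y) := by fun_prop
  have hB : ∀ y : E n, |U s y + β * U (1 + s) y| ≤ 1 + β * 1 := by
    intro y
    refine (abs_add_le _ _).trans ?_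
    rw [abs_mul, abs_of_pos hβp]
    have h1 := U_abs_le hs.le y
    have h2 := U_abs_le (show (0:ℝ) ≤ 1 + s by linarith) y
    have := mul_le_mul_of_nonneg_left h2 hβp.le
    linarith
  have d1 := U_contDiffAt (n := n) s hx
  have d2 := U_contDiffAt (n := n) (1 + s) hx
  have hcd : ContDiffAt ℝ 2 (fun y : E n => U s y + β * U (1 + s) y) x :=
    d1.add (contDiffAt_const.mul d2)
  have h1 := hasFracLap_of hn hs hs1 hu hB hcd
  have h2 : IU s (fun y : E n => U s y + β * U (1 + s) y) x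
      = IU s (U s) x + β * IU s (U (1 + s)) x := by
    have j1 := integrable_IU hn hs hs1 c1 (fun y => U_abs_le hs.le y) d1
    have j2 := integrable_IU hn hs hs1 c2 (fun y => U_abs_le (show (0:ℝ) ≤ 1 + s by linarith) y) d2
    unfold IU
    rw [← integral_const_mul, ← integral_add j1 (j2.const_mul β)]
    congr 1
    funext h
    ring
  rw [h2, IU_s hn hs hs1 hx, IU_s1 hn hs hs1 hx, Gm_eq hen x] at h1
  have h3 : aNs n s * ((sig n * (II s 0 + 2 * II s 1 + II s 2) + β *
      (sig n * ((II s 0 + 3 * II s 1 + 2 * II s 2) * (1 - ‖x‖ ^ 2))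
        - 4 * II s 2 * (((n : ℝ) + 2) * (‖x‖ ^ 2 * Gm e)))) / 2)
      = aNs n s * (A + β * F) / 2 * (1 - ‖x‖ ^ 2) := by
    have e1 : sig n * ((II s 0 + 3 * II s 1 + 2 * II s 2) * (1 - ‖x‖ ^ 2)) = F * (1 - ‖x‖ ^ 2) := by
      rw [hF]; ring
    have e2 : 4 * II s 2 * (((n : ℝ) + 2) * (‖x‖ ^ 2 * Gm e)) = D * ‖x‖ ^ 2 := by
      rw [hD]; ring
    have e3 : β * D = A := by
      rw [hβ]; field_simp
    rw [e1, e2, ← hA]
    linear_combination (-(aNs n s) / 2 * ‖x‖ ^ 2) * e3
  rw [h3] at h1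
  exact h1

/-- the potential `c` -/
noncomputable def cc (d : Data n s) (x : E n) : ℝ :=
  d.K * (max (1 - ‖x‖ ^ 2) 0) ^ (1 - s) / (1 + d.β * max (1 - ‖x‖ ^ 2) 0)

theorem cc_nonneg (d : Data n s) (x : E n) : 0 ≤ cc d x := by
  have h1 := d.hβ
  have h2 := d.hK
  have h3 : 0 ≤ max (1 - ‖x‖ ^ 2) 0 := le_max_right _ _
  unfold cc
  positivity

theorem cc_continuous (hs1 : s < 1) (d : Data n s) : Continuous (cc d) := by
  have h1 := d.hβ
  unfold cc
  apply Continuous.div
  · apply continuous_const.mul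
    apply Continuous.rpow_const
    · fun_prop
    · intro x
      right
      linarith
  · fun_prop
  · intro x
    have h3 : 0 ≤ max (1 - ‖x‖ ^ 2) 0 := le_max_right _ _
    positivity

theorem cc_le (hs1 : s < 1) (d : Data n s) (x : E n) : cc d x ≤ d.K := by
  have h1 := d.hβ
  have h2 := d.hK
  have h3 : 0 ≤ max (1 - ‖x‖ ^ 2) 0 := le_max_right _ _
  have h4 : max (1 - ‖x‖ ^ 2) 0 ≤ 1 := max_le (by nlinarith [norm_nonneg x]) zero_le_one
  unfold cc
  rw [div_le_iff₀ (by positivity)]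
  apply mul_le_mul_of_nonneg_left _ h2.le
  have h5 : (max (1 - ‖x‖ ^ 2) 0) ^ (1 - s) ≤ 1 := Real.rpow_le_one h3 h4 (by linarith)
  have : 0 ≤ d.β * max (1 - ‖x‖ ^ 2) 0 := by positivity
  linarith

/-- the test function -/
noncomputable def ph (d : Data n s) (x : E n) : ℝ := U s x + d.β * U (1 + s) x

theorem cc_mul_ph (d : Data n s) {x : E n} (hx : ‖x‖ < 1) :
    cc d x * ph d x = d.K * (1 - ‖x‖ ^ 2) := by
  have h0 : 0 < 1 - ‖x‖ ^ 2 := by nlinarith [norm_nonneg x]
  have h1 := d.hβ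
  unfold cc ph U
  rw [max_eq_left h0.le]
  generalize 1 - ‖x‖ ^ 2 = z at *
  have e1 : z ^ (1 + s) = z * z ^ s := by
    rw [Real.rpow_add h0, Real.rpow_one]
  have e2 : z ^ (1 - s) = z / z ^ s := by
    rw [Real.rpow_sub h0, Real.rpow_one]
  have h2 : 0 < z ^ s := Real.rpow_pos_of_pos h0 _
  rw [e1, e2]
  have h3 : 0 < 1 + d.β * z := by positivity
  field_simp

theorem ph_pos (hs : 0 < s) (d : Data n s) {x : E n} (hx : ‖x‖ < 1) : 0 < ph d x := by
  have h0 : 0 < 1 - ‖x‖ ^ 2 := by nlinarith [norm_nonneg x]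
  have h1 := d.hβ
  unfold ph U
  rw [max_eq_left h0.le]
  have : 0 < (1 - ‖x‖ ^ 2) ^ s := Real.rpow_pos_of_pos h0 _
  positivity

theorem ph_continuous (hs : 0 < s) (d : Data n s) : Continuous (ph d) := by
  have c1 : Continuous (U s : E n → ℝ) := continuous_U hs.le
  have c2 : Continuous (U (1 + s) : E n → ℝ) := continuous_U (by linarith)
  unfold ph
  fun_prop

theorem ph_abs_le (hs : 0 < s) (d : Data n s) (y : E n) : |ph d y| ≤ 1 + d.β := by
  have hβp := d.hβ
  unfold ph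
  refine (abs_add_le _ _).trans ?_
  rw [abs_mul, abs_of_pos hβp]
  have h1 := U_abs_le hs.le y
  have h2 := U_abs_le (show (0:ℝ) ≤ 1 + s by linarith) y
  have := mul_le_mul_of_nonneg_left h2 hβp.le
  linarith

theorem memXs_ph (hs : 0 < s) (d : Data n s) :
    MemXs s (ball (0 : E n) 1) (ph d) (fun x => d.K * (1 - ‖x‖ ^ 2)) := by
  refine ⟨ph_continuous hs d, ?_, fun x hx => d.hlap x (by simpa using hx), d.K, ?_⟩
  · intro x hx
    apply subset_closure
    rw [mem_ball_zero_iff]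
    by_contra h
    push Not at h
    apply hx
    have h0 : 1 - ‖x‖ ^ 2 ≤ 0 := by nlinarith [norm_nonneg x]
    unfold ph U
    rw [max_eq_right h0, Real.zero_rpow hs.ne', Real.zero_rpow (by linarith), mul_zero, add_zero]
  · intro x hx
    have hx' : ‖x‖ < 1 := by simpa using hx
    have h0 : 0 < 1 - ‖x‖ ^ 2 := by nlinarith [norm_nonneg x]
    have := d.hK
    rw [abs_of_pos (by positivity)]
    nlinarith [sq_nonneg ‖x‖]

/-- nonexistence of weak solutions -/
theorem no_weakSol (hs : 0 < s) (d : Data n s) (μ f : E n → ℝ)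
    (hμ : MemLp μ ⊤ (volume.restrict (ball 0 1)))
    (hμ0 : ∀ᵐ x ∂(volume.restrict (ball (0 : E n) 1)), 0 ≤ μ x)
    (hf : IntegrableOn f (ball 0 1))
    (hf0 : ∀ᵐ x ∂(volume.restrict (ball (0 : E n) 1)), 0 ≤ f x)
    (hf1 : ¬ f =ᵐ[volume.restrict (ball (0 : E n) 1)] 0) (lam : ℝ) (hlam : 0 < lam)
    (u : E n → ℝ) : ¬ IsWeakSol s (ball (0 : E n) 1) (cc d) μ f lam u := by
  rintro ⟨-, hu, hDm, hD, hweak⟩
  have h1 := hweak (ph d) _ (memXs_ph hs d)
  have hphb : ∀ᵐ x ∂(volume.restrict (ball (0 : E n) 1)), ‖ph d x‖ ≤ 1 + d.β := by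
    filter_upwards with x
    exact ph_abs_le hs d x
  have hphm : AEStronglyMeasurable (ph d) (volume.restrict (ball (0 : E n) 1)) :=
    (ph_continuous hs d).aestronglyMeasurable
  -- integrability of the pieces
  have j1 : IntegrableOn (fun x => u x * (d.K * (1 - ‖x‖ ^ 2))) (ball 0 1) := by
    apply Integrable.mul_bdd (c := d.K) hu
    · apply Continuous.aestronglyMeasurable
      fun_prop
    · rw [ae_restrict_iff' measurableSet_ball]
      filter_upwards with x hx
      obtain ⟨-, -, -, M, hM⟩ := memXs_ph hs d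
      have hx' : ‖x‖ < 1 := by simpa using hx
      have h0 : 0 < 1 - ‖x‖ ^ 2 := by nlinarith [norm_nonneg x]
      have := d.hK
      rw [Real.norm_eq_abs, abs_of_pos (by positivity)]
      nlinarith [sq_nonneg ‖x‖]
  have jD : IntegrableOn (fun x => (DS2 s u x).toReal) (ball 0 1) :=
    integrable_toReal_of_lintegral_ne_top hDm hD.ne
  have j2 : IntegrableOn (fun x => μ x * (DS2 s u x).toReal) (ball 0 1) := by
    have h := jD.smul_of_top_right hμ
    exact h
  have j3 : IntegrableOn (fun x => (μ x * (DS2 s u x).toReal + lam * f x) * ph d x) (ball 0 1) :=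
    Integrable.mul_bdd (c := 1 + d.β) (j2.add (hf.const_mul lam)) hphm hphb
  have e1 : ∫ x in ball (0 : E n) 1, (cc d x * u x + μ x * (DS2 s u x).toReal + lam * f x) * ph d x
      = (∫ x in ball (0 : E n) 1, u x * (d.K * (1 - ‖x‖ ^ 2)))
        + ∫ x in ball (0 : E n) 1, (μ x * (DS2 s u x).toReal + lam * f x) * ph d x := by
    rw [← integral_add j1 j3]
    apply setIntegral_congr_fun measurableSet_ball
    intro x hx
    have hx' : ‖x‖ < 1 := by simpa using hx
    simp only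
    rw [← cc_mul_ph d hx']
    ring
  rw [e1] at h1
  have h2 : ∫ x in ball (0 : E n) 1, (μ x * (DS2 s u x).toReal + lam * f x) * ph d x = 0 := by
    linarith
  have hnn : 0 ≤ᵐ[volume.restrict (ball (0 : E n) 1)]
      fun x => (μ x * (DS2 s u x).toReal + lam * f x) * ph d x := by
    have hball : ∀ᵐ x ∂(volume.restrict (ball (0 : E n) 1)), x ∈ ball (0 : E n) 1 :=
      ae_restrict_mem measurableSet_ball
    filter_upwards [hμ0, hf0, hball] with x h3 h4 h5
    have h6 := ph_pos hs d (x := x) (by simpa using h5)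
    have h7 : 0 ≤ (DS2 s u x).toReal := ENNReal.toReal_nonneg
    simp only [Pi.zero_apply]
    positivity
  rw [integral_eq_zero_iff_of_nonneg_ae hnn j3] at h2
  apply hf1
  have hball : ∀ᵐ x ∂(volume.restrict (ball (0 : E n) 1)), x ∈ ball (0 : E n) 1 :=
    ae_restrict_mem measurableSet_ball
  filter_upwards [hμ0, hf0, hball, h2] with x h3 h4 h5 h8
  have h6 := ph_pos hs d (x := x) (by simpa using h5)
  have h7 : 0 ≤ (DS2 s u x).toReal := ENNReal.toReal_nonneg
  simp only [Pi.zero_apply] at h8 ⊢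
  rcases mul_eq_zero.1 h8 with h9 | h9
  · have h10 : 0 ≤ μ x * (DS2 s u x).toReal := mul_nonneg h3 h7
    have h11 : 0 ≤ lam * f x := mul_nonneg hlam.le h4
    have h12 : lam * f x = 0 := by linarith
    rcases mul_eq_zero.1 h12 with h13 | h13
    · linarith
    · exact h13
  · linarith

end

/-- **Main theorem.** -/
theorem main (N : ℕ) (hN : 2 ≤ N) (s : ℝ) (hs : 1 / 2 < s) (hs1 : s < 1) :
    ∃ (Ω : Set (E N)) (c : E N → ℝ), IsC2Domain Ω ∧ MemLp c ⊤ (volume.restrict Ω) ∧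
      (∀ᵐ x ∂(volume.restrict Ω), 0 ≤ c x) ∧ ¬ (c =ᵐ[volume.restrict Ω] 0) ∧
      ∀ (μ f : E N → ℝ) (m : ℝ), MemLp μ ⊤ (volume.restrict Ω) →
        (∃ μ₁ : ℝ, 0 < μ₁ ∧ ∀ᵐ x ∂(volume.restrict Ω), μ₁ ≤ μ x) →
        (N : ℝ) / (2 * s) < m → MemLp f (ENNReal.ofReal m) (volume.restrict Ω) →
        (∀ᵐ x ∂(volume.restrict Ω), 0 ≤ f x) → ¬ (f =ᵐ[volume.restrict Ω] 0) →
        (∀ lam : ℝ, 0 < lam → ¬ ∃ u : E N → ℝ, IsWeakSol s Ω c μ f lam u) ∧
        ¬ ∃ lam₀ : ℝ, 0 < lam₀ ∧ ∀ lam : ℝ, 0 < lam → lam < lam₀ → ∃ u v : E N → ℝ,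
          MemWs0 s Ω u ∧ MemWs0 s Ω v ∧ ¬ (u =ᵐ[volume] v) ∧
          IsWeakSol s Ω c μ f lam u ∧ IsWeakSol s Ω c μ f lam v := by
  have hn : 0 < N := by omega
  have : Nonempty (Fin N) := ⟨⟨0, hn⟩⟩
  have : Nontrivial (E N) := inferInstance
  have hs0 : 0 < s := by linarith
  obtain ⟨d⟩ := exists_data (n := N) hn hs0 hs1
  refine ⟨ball 0 1, cc d, isC2Domain_ball hn, ?_, ?_, ?_, ?_⟩
  · apply memLp_top_of_bound (cc_continuous hs1 d).aestronglyMeasurable d.K
    filter_upwards with x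
    rw [Real.norm_eq_abs, abs_of_nonneg (cc_nonneg d x)]
    exact cc_le hs1 d x
  · filter_upwards with x
    exact cc_nonneg d x
  · intro h
    have hball : ∀ᵐ x ∂(volume.restrict (ball (0 : E N) 1)), x ∈ ball (0 : E N) 1 :=
      ae_restrict_mem measurableSet_ball
    have h1 : ∀ᵐ x ∂(volume.restrict (ball (0 : E N) 1)), False := by
      filter_upwards [h, hball] with x h2 h3
      have h3' : ‖x‖ < 1 := by simpa using h3
      have h4 := cc_mul_ph d h3'
      have h0 : 0 < 1 - ‖x‖ ^ 2 := by nlinarith [norm_nonneg x]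
      rw [h2, Pi.zero_apply, zero_mul] at h4
      have := d.hK
      have : 0 < d.K * (1 - ‖x‖ ^ 2) := by positivity
      linarith
    rw [ae_iff] at h1
    simp only [not_false_eq_true, ofPred_true, Measure.restrict_apply_univ] at h1
    exact (measure_ball_pos volume (0 : E N) one_pos).ne' h1
  · rintro μ f m hμ ⟨μ₁, hμ₁, hμ₂⟩ hm hf hf0 hf1
    have hm1 : 1 ≤ m := by
      have hN' : (2:ℝ) ≤ N := by exact_mod_cast hN
      have h1 : 1 ≤ (N : ℝ) / (2 * s) := by
        rw [le_div_iff₀ (by linarith)]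
        linarith
      linarith
    have : IsFiniteMeasure (volume.restrict (ball (0 : E N) 1)) :=
      ⟨by rw [Measure.restrict_apply_univ]; exact measure_ball_lt_top⟩
    have hfi : IntegrableOn f (ball 0 1) := by
      apply hf.integrable
      rw [← ENNReal.ofReal_one]
      exact ENNReal.ofReal_le_ofReal hm1
    have key : ∀ lam : ℝ, 0 < lam → ¬ ∃ u : E N → ℝ,
        IsWeakSol s (ball (0 : E N) 1) (cc d) μ f lam u := by
      rintro lam hlam ⟨u, hu⟩
      exact no_weakSol hs0 d μ f hμ (hμ₂.mono fun x hx => hμ₁.le.trans hx) hfi hf0 hf1 lam hlam u hu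
    refine ⟨key, ?_⟩
    rintro ⟨lam₀, h1, h2⟩
    obtain ⟨u, v, -, -, -, h3, -⟩ := h2 (lam₀ / 2) (by linarith) (by linarith)
    exact key (lam₀ / 2) (by linarith) ⟨u, h3⟩

end Pool.Agent.R212.FGrad
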