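import Pool.Agent.R212.FracDef

open MeasureTheory Set Filter Metric
open scoped Topology ContDiff ENNReal

namespace Pool.Agent.R212.Calderon

variable {n : ℕ}

instance instNontrivialE [NeZero n] : Nontrivial (E n) := by
  have : Nonempty (Fin n) := ⟨⟨0, Nat.pos_of_ne_zero (NeZero.ne n)⟩⟩
  infer_instance

/-- radial integrability -/
lemma radial_int [NeZero n] {s : ℝ} (hs0 : 0 < s) (hs1 : s < 1) {g : ℝ → ℝ} (hg : Measurable g)
    {C : ℝ} (h1 : ∀ r, 0 < r → r ≤ 1 → |g r| ≤ C * r ^ (2 - ((n : ℝ) + 2 * s)))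
    (h2 : ∀ r, 1 < r → |g r| ≤ C * r ^ (-((n : ℝ) + 2 * s))) :
    Integrable (fun z : E n => g ‖z‖) volume := by
  rw [integrable_fun_norm_addHaar (E := E n) volume]
  rw [finrank_euclideanSpace_fin]
  have hn : 1 ≤ n := Nat.one_le_iff_ne_zero.2 (NeZero.ne n)
  have hm : Measurable fun y : ℝ => y ^ (n - 1) • g y := by
    simp only [smul_eq_mul]
    fun_prop
  have hpow : ∀ y : ℝ, 0 < y → y ^ (n - 1) = y ^ ((n : ℝ) - 1) := by
    intro y hy
    rw [← Real.rpow_natCast]
    congr 1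
    push_cast [Nat.cast_sub hn]
    ring
  rw [← Ioc_union_Ioi_eq_Ioi (zero_le_one (α := ℝ))]
  refine IntegrableOn.union ?_ ?_
  · have hi : IntegrableOn (fun y : ℝ => C * y ^ (1 - 2 * s)) (Ioc 0 1) := by
      have := (intervalIntegral.intervalIntegrable_rpow' (a := 0) (b := 1)
        (show (-1 : ℝ) < 1 - 2 * s by linarith)).const_mul C
      rwa [intervalIntegrable_iff_integrableOn_Ioc_of_le zero_le_one] at this
    refine hi.mono' hm.aestronglyMeasurable ?_
    filter_upwards [ae_restrict_mem measurableSet_Ioc] with y hy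
    rw [norm_smul, Real.norm_eq_abs, Real.norm_eq_abs, abs_of_nonneg (pow_nonneg hy.1.le _),
      hpow y hy.1]
    calc y ^ ((n : ℝ) - 1) * |g y| ≤ y ^ ((n : ℝ) - 1) * (C * y ^ (2 - ((n : ℝ) + 2 * s))) :=
          mul_le_mul_of_nonneg_left (h1 y hy.1 hy.2) (Real.rpow_nonneg hy.1.le _)
      _ = C * (y ^ ((n : ℝ) - 1) * y ^ (2 - ((n : ℝ) + 2 * s))) := by ring
      _ = C * y ^ (1 - 2 * s) := by
        rw [← Real.rpow_add hy.1]
        congr 2
        ring
  · have hi : IntegrableOn (fun y : ℝ => C * y ^ (-1 - 2 * s)) (Ioi 1) :=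
      (integrableOn_Ioi_rpow_of_lt (show -1 - 2 * s < -1 by linarith) one_pos).const_mul C
    refine hi.mono' hm.aestronglyMeasurable ?_
    filter_upwards [ae_restrict_mem measurableSet_Ioi] with y hy
    have hy0 : 0 < y := lt_trans one_pos hy
    rw [norm_smul, Real.norm_eq_abs, Real.norm_eq_abs, abs_of_nonneg (pow_nonneg hy0.le _),
      hpow y hy0]
    calc y ^ ((n : ℝ) - 1) * |g y| ≤ y ^ ((n : ℝ) - 1) * (C * y ^ (-((n : ℝ) + 2 * s))) :=
          mul_le_mul_of_nonneg_left (h2 y hy) (Real.rpow_nonneg hy0.le _)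
      _ = C * (y ^ ((n : ℝ) - 1) * y ^ (-((n : ℝ) + 2 * s))) := by ring
      _ = C * y ^ (-1 - 2 * s) := by
        rw [← Real.rpow_add hy0]
        congr 2
        ring

/-- the kernel away from the diagonal -/
noncomputable def ker (n : ℕ) (s ρ : ℝ) (r : ℝ) : ℝ :=
  if ρ ≤ r then r ^ (-((n : ℝ) + 2 * s)) else 0

lemma ker_meas (n : ℕ) (s ρ : ℝ) : Measurable (ker n s ρ) := by
  unfold ker
  exact Measurable.ite measurableSet_Ici (by fun_prop) measurable_const

lemma ker_nonneg (n : ℕ) (s ρ : ℝ) {r : ℝ} (hr : 0 ≤ r) : 0 ≤ ker n s ρ r := by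
  unfold ker
  split_ifs
  · exact Real.rpow_nonneg hr _
  · exact le_rfl

lemma ker_int [NeZero n] {s ρ : ℝ} (hs0 : 0 < s) (hs1 : s < 1) (hρ : 0 < ρ) :
    Integrable (fun z : E n => ker n s ρ ‖z‖) volume := by
  refine radial_int (C := 1 + (ρ ^ 2)⁻¹) hs0 hs1 (ker_meas n s ρ) ?_ ?_
  · intro r hr0 hr1
    unfold ker
    split_ifs with h
    · rw [abs_of_nonneg (Real.rpow_nonneg hr0.le _)]
      have e1 : r ^ (-((n : ℝ) + 2 * s)) = (r ^ 2)⁻¹ * r ^ (2 - ((n : ℝ) + 2 * s)) := by
        rw [sub_eq_add_neg, Real.rpow_add hr0, Real.rpow_two]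
        field_simp
      rw [e1]
      apply mul_le_mul_of_nonneg_right _ (Real.rpow_nonneg hr0.le _)
      have : (r ^ 2)⁻¹ ≤ (ρ ^ 2)⁻¹ := by
        apply inv_anti₀ (by positivity)
        exact pow_le_pow_left₀ hρ.le h 2
      linarith
    · rw [abs_zero]
      have := Real.rpow_nonneg hr0.le (2 - ((n : ℝ) + 2 * s))
      positivity
  · intro r hr
    have hr0 : 0 < r := by linarith
    have hp := Real.rpow_nonneg hr0.le (-((n : ℝ) + 2 * s))
    unfold ker
    split_ifs with h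
    · rw [abs_of_nonneg hp]
      have : 0 ≤ (ρ ^ 2)⁻¹ := by positivity
      nlinarith
    · rw [abs_zero]
      positivity

/-- Fubini bound -/
lemma lint_conv {F G : E n → ℝ≥0∞} (hF : Measurable F) (hG : Measurable G) :
    ∫⁻ p : E n × E n, F p.1 * G (p.1 - p.2) = (∫⁻ x, F x) * ∫⁻ z, G z := by
  rw [Measure.volume_eq_prod, lintegral_prod _ (by fun_prop)]
  have h : ∀ x : E n, ∫⁻ y : E n, F x * G (x - y) = F x * ∫⁻ z, G z := by
    intro x
    rw [lintegral_const_mul _ (by fun_prop), lintegral_sub_left_eq_self G x]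
  simp only [h]
  rw [lintegral_mul_const _ hF]

lemma lint_conv' {F G : E n → ℝ≥0∞} (hF : Measurable F) (hG : Measurable G) :
    ∫⁻ p : E n × E n, F p.2 * G (p.1 - p.2) = (∫⁻ x, F x) * ∫⁻ z, G z := by
  rw [Measure.volume_eq_prod, lintegral_prod_symm _ (by fun_prop)]
  have h : ∀ y : E n, ∫⁻ x : E n, F y * G (x - y) = F y * ∫⁻ z, G z := by
    intro y
    rw [lintegral_const_mul _ (by fun_prop), lintegral_sub_right_eq_self G y]
  simp only [h]
  rw [lintegral_mul_const _ hF]

lemma rpow_sq {x a : ℝ} (hx : 0 ≤ x) : (x ^ a) ^ 2 = x ^ (2 * a) := by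
  rw [← Real.rpow_natCast, ← Real.rpow_mul hx]
  congr 1
  push_cast
  ring

lemma gag_sq (s : ℝ) (u : E n → ℝ) (p : E n × E n) :
    gag s u p ^ 2 = (u p.1 - u p.2) ^ 2 / ‖p.1 - p.2‖ ^ ((n : ℝ) + 2 * s) := by
  unfold gag
  rw [div_pow, rpow_sq (norm_nonneg _)]
  congr 2
  ring

lemma gag_mul (s : ℝ) (u v : E n → ℝ) (p : E n × E n) :
    gag s u p * gag s v p =
      (u p.1 - u p.2) * (v p.1 - v p.2) / ‖p.1 - p.2‖ ^ ((n : ℝ) + 2 * s) := by
  unfold gag
  rw [div_mul_div_comm, ← sq, rpow_sq (norm_nonneg _)]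
  congr 2
  ring

lemma gag_meas {s : ℝ} {u : E n → ℝ} (hu : Measurable u) : Measurable (gag s u) := by
  unfold gag
  fun_prop

lemma gag_aesm {s : ℝ} {u : E n → ℝ} (hu : AEStronglyMeasurable u volume) :
    AEStronglyMeasurable (gag s u) volume := by
  unfold gag
  have h1 : AEStronglyMeasurable (fun p : E n × E n => u p.1) volume := by
    rw [Measure.volume_eq_prod]; exact hu.comp_fst
  have h2 : AEStronglyMeasurable (fun p : E n × E n => u p.2) volume := by
    rw [Measure.volume_eq_prod]; exact hu.comp_snd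
  have h3 : Measurable fun p : E n × E n => ‖p.1 - p.2‖ ^ ((n : ℝ) / 2 + s) := by fun_prop
  have h4 := (h1.sub h2).mul h3.inv.aestronglyMeasurable
  exact h4

lemma enorm_sq_eq (a : ℝ) : ‖a‖ₑ ^ 2 = ENNReal.ofReal (a ^ 2) := by
  rw [← sq_abs, ENNReal.ofReal_pow (abs_nonneg _), Real.enorm_eq_ofReal_abs]

lemma memLp_two_iff {α : Type*} [MeasurableSpace α] {μ : Measure α} {f : α → ℝ}
    (hf : AEStronglyMeasurable f μ) : MemLp f 2 μ ↔ ∫⁻ x, ENNReal.ofReal (f x ^ 2) ∂μ < ⊤ := by
  rw [memLp_two_iff_integrable_sq hf]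
  constructor
  · intro h
    exact h.lintegral_lt_top
  · intro h
    refine ⟨(hf.pow 2), ?_⟩
    rw [hasFiniteIntegral_iff_ofReal]
    · exact h
    · filter_upwards with x
      positivity

/-- test functions are in `H^s` -/
lemma test_memHs [NeZero n] {s : ℝ} (hs0 : 0 < s) (hs1 : s < 1) {U : Set (E n)} {φ : E n → ℝ}
    (hφ : IsTest U φ) : MemHs s φ := by
  obtain ⟨h1, h2, -⟩ := hφ
  refine ⟨h1.continuous.memLp_of_hasCompactSupport h2, ?_⟩
  obtain ⟨L, hL⟩ := ContDiff.lipschitzWith_of_hasCompactSupport h2 h1 (by simp)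
  obtain ⟨M, hM⟩ := h2.exists_bound_of_continuous h1.continuous
  have hm : Measurable φ := h1.continuous.measurable
  rw [memLp_two_iff (gag_meas hm).aestronglyMeasurable]
  set g : ℝ → ℝ := fun r => min ((L : ℝ) ^ 2 * r ^ 2) ((2 * M) ^ 2) * r ^ (-((n : ℝ) + 2 * s))
    with hg
  have hgm : Measurable g := by
    rw [hg]; fun_prop
  have hgi : Integrable (fun z : E n => g ‖z‖) volume := by
    refine radial_int (C := (L : ℝ) ^ 2 + (2 * M) ^ 2) hs0 hs1 hgm ?_ ?_
    · intro r hr0 _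
      have hp := Real.rpow_nonneg hr0.le (-((n : ℝ) + 2 * s))
      rw [abs_of_nonneg (by positivity)]
      have e1 : r ^ (2 - ((n : ℝ) + 2 * s)) = r ^ 2 * r ^ (-((n : ℝ) + 2 * s)) := by
        rw [sub_eq_add_neg, Real.rpow_add hr0, Real.rpow_two]
      rw [e1, hg]
      simp only
      rw [← mul_assoc]
      apply mul_le_mul_of_nonneg_right _ hp
      refine (min_le_left _ _).trans ?_
      nlinarith [sq_nonneg (2 * M), sq_nonneg r, mul_nonneg (sq_nonneg (2 * M)) (sq_nonneg r)]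
    · intro r hr
      have hr0 : 0 < r := by linarith
      have hp := Real.rpow_nonneg hr0.le (-((n : ℝ) + 2 * s))
      rw [abs_of_nonneg (by positivity), hg]
      apply mul_le_mul_of_nonneg_right _ hp
      refine (min_le_right _ _).trans ?_
      nlinarith [sq_nonneg (L : ℝ)]
  have hGfin : ∫⁻ z : E n, ENNReal.ofReal (g ‖z‖) < ⊤ := hgi.lintegral_lt_top
  set B : Set (E n) := tsupport φ with hB
  have hBm : MeasurableSet B := (isClosed_tsupport φ).measurableSet
  have hBfin : volume B < ⊤ := h2.isCompact.measure_lt_top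
  set F : E n → ℝ≥0∞ := B.indicator 1 with hF
  have hFm : Measurable F := measurable_one.indicator hBm
  have hpt : ∀ p : E n × E n, ENNReal.ofReal (gag s φ p ^ 2) ≤
      F p.1 * ENNReal.ofReal (g ‖p.1 - p.2‖) + F p.2 * ENNReal.ofReal (g ‖p.1 - p.2‖) := by
    intro p
    have hgb : gag s φ p ^ 2 ≤ g ‖p.1 - p.2‖ := by
      rw [gag_sq, hg]
      simp only
      rw [Real.rpow_neg (norm_nonneg _), div_eq_mul_inv]
      apply mul_le_mul_of_nonneg_right _ (by positivity)
      apply le_min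
      · have := hL.dist_le_mul p.1 p.2
        rw [Real.dist_eq, dist_eq_norm] at this
        rw [← sq_abs, ← mul_pow]
        exact pow_le_pow_left₀ (abs_nonneg _) this 2
      · rw [← sq_abs]
        apply pow_le_pow_left₀ (abs_nonneg _)
        have a1 := hM p.1
        have a2 := hM p.2
        rw [Real.norm_eq_abs] at a1 a2
        exact (abs_sub _ _).trans (by linarith)
    by_cases hx : p.1 ∈ B
    · have : F p.1 = 1 := by simp [hF, hx]
      rw [this, one_mul]
      exact (ENNReal.ofReal_le_ofReal hgb).trans le_self_add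
    · by_cases hy : p.2 ∈ B
      · have : F p.2 = 1 := by simp [hF, hy]
        rw [this, one_mul]
        exact (ENNReal.ofReal_le_ofReal hgb).trans le_add_self
      · have e1 : φ p.1 = 0 := image_eq_zero_of_notMem_tsupport hx
        have e2 : φ p.2 = 0 := image_eq_zero_of_notMem_tsupport hy
        have : gag s φ p ^ 2 = 0 := by
          rw [gag_sq, e1, e2]; simp
        rw [this]
        simp
  have hGm : Measurable fun z : E n => ENNReal.ofReal (g ‖z‖) := by fun_prop
  refine (lintegral_mono hpt).trans_lt ?_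
  rw [lintegral_add_left (by fun_prop), lint_conv hFm hGm, lint_conv' hFm hGm]
  have hFi : ∫⁻ x, F x = volume B := by
    rw [hF, lintegral_indicator_one hBm]
  rw [hFi]
  exact ENNReal.add_lt_top.2 ⟨ENNReal.mul_lt_top hBfin hGfin, ENNReal.mul_lt_top hBfin hGfin⟩

end Pool.Agent.R212.Calderon
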