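import Pool.Agent.R212.Par1

open MeasureTheory Set Filter Function
open scoped Topology ContDiff ENNReal

namespace Pool.Agent.R212

variable {n : ℕ}

lemma cubeMeasure_eq (n : ℕ) : cubeMeasure n = volume.restrict (ccube n) := by
  unfold cubeMeasure
  apply Measure.restrict_congr_set
  unfold cube ccube
  have := Measure.univ_pi_Ioc_ae_eq_Icc (μ := fun _ : Fin n => (volume : Measure ℝ))
    (f := fun _ => (0 : ℝ)) (g := fun _ => 1)
  rw [← Set.pi_univ_Icc] at this
  exact this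

lemma cont_prod_integrable {K : ℝ × (Fin n → ℝ) → ℝ} (hK : Continuous K) (s s' : ℝ) :
    Integrable K ((volume.restrict (Ioc s s')).prod (cubeMeasure n)) := by
  have h1 : IntegrableOn K (Icc s s' ×ˢ ccube n) (volume.prod volume) :=
    hK.continuousOn.integrableOn_compact (isCompact_Icc.prod (ccube_compact n))
  have h2 : IntegrableOn K (Ioc s s' ×ˢ cube n) (volume.prod volume) :=
    h1.mono_set (prod_mono Ioc_subset_Icc_self (cube_sub n))
  rw [cubeMeasure, Measure.prod_restrict]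
  exact h2

lemma cont_param {K : ℝ × (Fin n → ℝ) → ℝ} (hK : Continuous K) :
    Continuous fun t => ∫ x, K (t, x) ∂(cubeMeasure n) := by
  rw [cubeMeasure_eq]
  have : Continuous (Function.uncurry fun (t : ℝ) (x : Fin n → ℝ) => K (t, x)) := by
    simpa [Function.uncurry_def] using hK
  exact continuous_parametric_integral_of_continuous this (ccube_compact n)

/-- time derivative -/
noncomputable def dt (φ : ℝ → (Fin n → ℝ) → ℝ) (t : ℝ) (x : Fin n → ℝ) : ℝ :=
  deriv (fun s => φ s x) t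

lemma dt_hasDeriv {G : ℝ → (Fin n → ℝ) → ℝ} (hG : ContDiff ℝ 1 fun p : ℝ × (Fin n → ℝ) => G p.1 p.2)
    (t : ℝ) (x : Fin n → ℝ) : HasDerivAt (fun s => G s x) (dt G t x) t := by
  have h1 : DifferentiableAt ℝ (fun s => G s x) t := by
    have : (fun s => G s x) = (fun p : ℝ × (Fin n → ℝ) => G p.1 p.2) ∘ fun s => (s, x) := rfl
    rw [this]
    exact ((hG.differentiable (by norm_num)) _).comp _ (by fun_prop)
  exact h1.hasDerivAt

lemma dt_eq {G : ℝ → (Fin n → ℝ) → ℝ} (hG : ContDiff ℝ 1 fun p : ℝ × (Fin n → ℝ) => G p.1 p.2)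
    (t : ℝ) (x : Fin n → ℝ) :
    dt G t x = fderiv ℝ (fun p : ℝ × (Fin n → ℝ) => G p.1 p.2) (t, x) (1, 0) := by
  have h1 := ((hG.differentiable (by norm_num)) (t, x)).hasFDerivAt
  have h2 : HasDerivAt (fun s : ℝ => ((s, x) : ℝ × (Fin n → ℝ))) (1, 0) t :=
    (hasDerivAt_id t).prodMk (hasDerivAt_const t x)
  have h3 : HasDerivAt (fun s => G s x)
      (fderiv ℝ (fun p : ℝ × (Fin n → ℝ) => G p.1 p.2) (t, x) (1, 0)) t :=
    HasFDerivAt.comp_hasDerivAt (f := fun s : ℝ => ((s, x) : ℝ × (Fin n → ℝ))) t h1 h2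
  exact (dt_hasDeriv hG t x).unique h3

lemma dt_cont {G : ℝ → (Fin n → ℝ) → ℝ}
    (hG : ContDiff ℝ 1 fun p : ℝ × (Fin n → ℝ) => G p.1 p.2) :
    Continuous fun p : ℝ × (Fin n → ℝ) => dt G p.1 p.2 := by
  have : (fun p : ℝ × (Fin n → ℝ) => dt G p.1 p.2) =
      fun p => fderiv ℝ (fun p : ℝ × (Fin n → ℝ) => G p.1 p.2) p (1, 0) := by
    ext p
    exact dt_eq hG p.1 p.2
  rw [this]
  exact (hG.continuous_fderiv (by norm_num)).clm_apply continuous_const

/-- Fundamental theorem of calculus in time, integrated over the cube. -/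
lemma ftc_time {G : ℝ → (Fin n → ℝ) → ℝ} (hG : ContDiff ℝ 1 fun p : ℝ × (Fin n → ℝ) => G p.1 p.2)
    {s s' : ℝ} (hs : s ≤ s') :
    ∫ t in s..s', (∫ x, dt G t x ∂(cubeMeasure n)) =
      ∫ x, G s' x ∂(cubeMeasure n) - ∫ x, G s x ∂(cubeMeasure n) := by
  have hc := dt_cont hG
  rw [intervalIntegral.integral_of_le hs]
  rw [integral_integral_swap (f := fun t x => dt G t x) (by
    have := cont_prod_integrable (n := n) hc s s'
    exact this)]
  have hcs : ∀ t, Continuous fun x => G t x := fun t => by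
    have := hG.continuous
    fun_prop
  rw [← integral_sub (cont_integrable (hcs s')) (cont_integrable (hcs s))]
  congr 1
  ext x
  rw [← intervalIntegral.integral_of_le hs]
  rw [intervalIntegral.integral_eq_sub_of_hasDerivAt (fun t _ => dt_hasDeriv hG t x)]
  apply Continuous.intervalIntegrable
  fun_prop

/-- Cauchy–Schwarz -/
lemma cs {α : Type*} [MeasurableSpace α] {μ : Measure α} {f g : α → ℝ}
    (hf : Integrable (fun x => f x ^ 2) μ)
    (hg : Integrable (fun x => g x ^ 2) μ) (hfg : Integrable (fun x => f x * g x) μ) :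
    |∫ x, f x * g x ∂μ| ≤ √(∫ x, f x ^ 2 ∂μ) * √(∫ x, g x ^ 2 ∂μ) := by
  have h : ∀ s : ℝ, 0 ≤ (∫ x, g x ^ 2 ∂μ) * (s * s) + (2 * ∫ x, f x * g x ∂μ) * s
      + ∫ x, f x ^ 2 ∂μ := by
    intro s
    have h1 : 0 ≤ ∫ x, (f x + s * g x) ^ 2 ∂μ := integral_nonneg fun x => sq_nonneg _
    have h2 : ∫ x, (f x + s * g x) ^ 2 ∂μ = (∫ x, g x ^ 2 ∂μ) * (s * s)
        + (2 * ∫ x, f x * g x ∂μ) * s + ∫ x, f x ^ 2 ∂μ := by
      have h3 : (fun x => (f x + s * g x) ^ 2) =
          fun x => (s * s) * g x ^ 2 + (2 * s) * (f x * g x) + f x ^ 2 := by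
        ext x; ring
      rw [h3, integral_add (by fun_prop) hf, integral_add (by fun_prop) (by fun_prop),
        integral_const_mul, integral_const_mul]
      ring
    rwa [h2] at h1
  have hd := discrim_le_zero h
  unfold discrim at hd
  have h4 : (∫ x, f x * g x ∂μ) ^ 2 ≤ (∫ x, f x ^ 2 ∂μ) * ∫ x, g x ^ 2 ∂μ := by nlinarith
  rw [← Real.sqrt_mul (integral_nonneg fun x => sq_nonneg _)]
  exact Real.abs_le_sqrt h4

end Pool.Agent.R212
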