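import Pool.Agent.R212.Frac1
import Pool.Agent.R212.Par2

open MeasureTheory Set Filter Metric
open scoped Topology ContDiff ENNReal

namespace Pool.Agent.R212.Calderon

variable {n : ℕ}

/-- the weight `γ^{1/2}(x) γ^{1/2}(y)` -/
noncomputable def wt (γ : E n → ℝ) (p : E n × E n) : ℝ := √(γ p.1) * √(γ p.2)

lemma ae_fst {P : E n → Prop} (h : ∀ᵐ x : E n, P x) : ∀ᵐ p : E n × E n, P p.1 := by
  rw [Measure.volume_eq_prod]
  exact Measure.quasiMeasurePreserving_fst.ae h

lemma ae_snd {P : E n → Prop} (h : ∀ᵐ x : E n, P x) : ∀ᵐ p : E n × E n, P p.2 := by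
  rw [Measure.volume_eq_prod]
  exact Measure.quasiMeasurePreserving_snd.ae h

lemma wt_aesm {γ : E n → ℝ} (h : AEStronglyMeasurable γ volume) :
    AEStronglyMeasurable (wt γ) volume := by
  have h0 : AEStronglyMeasurable (fun x => √(γ x)) volume :=
    Real.continuous_sqrt.comp_aestronglyMeasurable h
  unfold wt
  rw [Measure.volume_eq_prod]
  exact h0.comp_fst.mul h0.comp_snd

lemma wt_bounds {γ : E n → ℝ} {c₀ c₁ : ℝ} (h0 : 0 < c₀) (h : ∀ᵐ x : E n, c₀ ≤ γ x ∧ γ x ≤ c₁) :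
    ∀ᵐ p : E n × E n, c₀ ≤ wt γ p ∧ wt γ p ≤ c₁ := by
  filter_upwards [ae_fst h, ae_snd h] with p h1 h2
  unfold wt
  have hc : c₀ ≤ c₁ := h1.1.trans h1.2
  constructor
  · calc c₀ = √c₀ * √c₀ := (Real.mul_self_sqrt h0.le).symm
      _ ≤ _ := mul_le_mul (Real.sqrt_le_sqrt h1.1) (Real.sqrt_le_sqrt h2.1) (Real.sqrt_nonneg _)
        (Real.sqrt_nonneg _)
  · have h3 : √(γ p.1) * √(γ p.2) ≤ √c₁ * √c₁ :=
      mul_le_mul (Real.sqrt_le_sqrt h1.2) (Real.sqrt_le_sqrt h2.2) (Real.sqrt_nonneg _)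
        (Real.sqrt_nonneg _)
    rwa [Real.mul_self_sqrt (h0.le.trans hc)] at h3

lemma form_eq (s : ℝ) (γ u φ : E n → ℝ) :
    form s γ u φ = Cns n s / 2 * ∫ p : E n × E n, wt γ p * (gag s u p * gag s φ p) := by
  unfold form
  congr 2
  ext p
  rw [gag_mul, wt]
  ring

lemma Cns_pos {s : ℝ} (hs0 : 0 < s) (hs1 : s < 1) : 0 < Cns n s := by
  unfold Cns
  have h1 : Real.Gamma (-s) ≠ 0 := by
    apply Real.Gamma_ne_zero
    intro m hm
    have h2 : s = m := by linarith
    rw [h2] at hs0 hs1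
    have h3 : 0 < m := by exact_mod_cast hs0
    have h4 : m < 1 := by exact_mod_cast hs1
    omega
  have h2 : 0 < Real.Gamma ((n : ℝ) / 2 + s) := Real.Gamma_pos_of_pos (by positivity)
  have h3 : 0 < |Real.Gamma (-s)| := abs_pos.2 h1
  have := Real.pi_pos
  positivity

section L2
variable {α : Type*} [MeasurableSpace α] {μ : Measure α} {m F G : α → ℝ} {c₀ c₁ : ℝ}

lemma sq_int (hF : MemLp F 2 μ) : Integrable (fun x => F x ^ 2) μ := hF.integrable_sq

lemma wint (hm : AEStronglyMeasurable m μ) (hb : ∀ᵐ x ∂μ, c₀ ≤ m x ∧ m x ≤ c₁) (h0 : 0 < c₀)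
    (hF : MemLp F 2 μ) (hG : MemLp G 2 μ) : Integrable (fun x => m x * (F x * G x)) μ := by
  have h1 : Integrable (fun x => F x * G x) μ := hF.integrable_mul hG
  refine h1.bdd_mul (c := c₁) hm ?_
  filter_upwards [hb] with x hx
  rw [Real.norm_eq_abs, abs_of_nonneg (h0.le.trans hx.1)]
  exact hx.2

lemma wcs (hm : AEStronglyMeasurable m μ) (hb : ∀ᵐ x ∂μ, c₀ ≤ m x ∧ m x ≤ c₁) (h0 : 0 < c₀)
    (h1 : 0 ≤ c₁)
    (hF : MemLp F 2 μ) (hG : MemLp G 2 μ) :
    |∫ x, m x * (F x * G x) ∂μ| ≤ c₁ * (√(∫ x, F x ^ 2 ∂μ) * √(∫ x, G x ^ 2 ∂μ)) := by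
  have hF' : MemLp (fun x => |F x|) 2 μ := hF.abs
  have hG' : MemLp (fun x => |G x|) 2 μ := hG.abs
  have i1 : Integrable (fun x => |F x| * |G x|) μ := hF'.integrable_mul hG'
  have e1 : |∫ x, m x * (F x * G x) ∂μ| ≤ ∫ x, c₁ * (|F x| * |G x|) ∂μ := by
    refine (abs_integral_le_integral_abs).trans ?_
    refine integral_mono_ae (wint hm hb h0 hF hG).abs (i1.const_mul _) ?_
    filter_upwards [hb] with x hx
    rw [abs_mul, abs_mul, abs_of_nonneg (h0.le.trans hx.1)]
    exact mul_le_mul_of_nonneg_right hx.2 (by positivity)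
  refine e1.trans ?_
  rw [integral_const_mul]
  apply mul_le_mul_of_nonneg_left _ h1
  have h2 := R212.cs (sq_int hF') (sq_int hG') i1
  simp only [sq_abs] at h2
  exact (le_abs_self _).trans h2

lemma wlow (hm : AEStronglyMeasurable m μ) (hb : ∀ᵐ x ∂μ, c₀ ≤ m x ∧ m x ≤ c₁) (h0 : 0 < c₀)
    (hF : MemLp F 2 μ) :
    c₀ * ∫ x, F x ^ 2 ∂μ ≤ ∫ x, m x * (F x * F x) ∂μ := by
  rw [← integral_const_mul]
  refine integral_mono_ae ((sq_int hF).const_mul _) (wint hm hb h0 hF hF) ?_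
  filter_upwards [hb] with x hx
  rw [← sq]
  exact mul_le_mul_of_nonneg_right hx.1 (sq_nonneg _)

lemma eLp_two {f : α → ℝ} (hf : MemLp f 2 μ) :
    eLpNorm f 2 μ = ENNReal.ofReal (√(∫ x, f x ^ 2 ∂μ)) := by
  rw [hf.eLpNorm_eq_integral_rpow_norm (by norm_num) (by norm_num)]
  congr 1
  rw [Real.sqrt_eq_rpow]
  congr 1
  · congr 1
    ext x
    simp
  · norm_num

lemma sqrt_le_of_eLp {f : α → ℝ} (hf : MemLp f 2 μ) {ε : ℝ} (hε : 0 ≤ ε)
    (h : eLpNorm f 2 μ ≤ ENNReal.ofReal ε) : √(∫ x, f x ^ 2 ∂μ) ≤ ε := by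
  rw [eLp_two hf] at h
  exact (ENNReal.ofReal_le_ofReal_iff hε).1 h

end L2

lemma gag_sub (s : ℝ) (u v : E n → ℝ) : gag s (u - v) = gag s u - gag s v := by
  ext p
  simp only [gag, Pi.sub_apply]
  ring

lemma gag_add (s : ℝ) (u v : E n → ℝ) : gag s (u + v) = gag s u + gag s v := by
  ext p
  simp only [gag, Pi.add_apply]
  ring

/-- real version of the convolution bound -/
lemma conv_bound {H : E n × E n → ℝ} {F K : E n → ℝ} (hF : Measurable F) (hK : Measurable K)
    (hFi : Integrable F) (hKi : Integrable K) (hF0 : ∀ x, 0 ≤ F x) (hK0 : ∀ x, 0 ≤ K x)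
    (hHm : AEStronglyMeasurable H volume) (hH0 : ∀ p, 0 ≤ H p)
    (hH : ∀ p : E n × E n, H p ≤ F p.1 * K (p.1 - p.2) + F p.2 * K (p.1 - p.2)) :
    Integrable H ∧ ∫ p, H p ≤ 2 * ((∫ x, F x) * ∫ z, K z) := by
  have hFl : ∫⁻ x, ENNReal.ofReal (F x) = ENNReal.ofReal (∫ x, F x) :=
    (ofReal_integral_eq_lintegral_ofReal hFi (Eventually.of_forall hF0)).symm
  have hKl : ∫⁻ x, ENNReal.ofReal (K x) = ENNReal.ofReal (∫ x, K x) :=
    (ofReal_integral_eq_lintegral_ofReal hKi (Eventually.of_forall hK0)).symm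
  have hb : ∫⁻ p, ENNReal.ofReal (H p) ≤ ENNReal.ofReal (2 * ((∫ x, F x) * ∫ z, K z)) := by
    have h1 : ∀ p : E n × E n, ENNReal.ofReal (H p) ≤
        ENNReal.ofReal (F p.1) * ENNReal.ofReal (K (p.1 - p.2)) +
        ENNReal.ofReal (F p.2) * ENNReal.ofReal (K (p.1 - p.2)) := by
      intro p
      rw [← ENNReal.ofReal_mul (hF0 _), ← ENNReal.ofReal_mul (hF0 _),
        ← ENNReal.ofReal_add (mul_nonneg (hF0 _) (hK0 _)) (mul_nonneg (hF0 _) (hK0 _))]
      exact ENNReal.ofReal_le_ofReal (hH p)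
    refine (lintegral_mono h1).trans ?_
    have hFm : Measurable fun x => ENNReal.ofReal (F x) := by fun_prop
    have hKm : Measurable fun x => ENNReal.ofReal (K x) := by fun_prop
    rw [lintegral_add_left (by fun_prop),
      lint_conv (F := fun x => ENNReal.ofReal (F x)) (G := fun x => ENNReal.ofReal (K x)) hFm hKm,
      lint_conv' (F := fun x => ENNReal.ofReal (F x)) (G := fun x => ENNReal.ofReal (K x)) hFm hKm,
      hFl, hKl, ← ENNReal.ofReal_mul (integral_nonneg hF0), ← two_mul,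
      ENNReal.ofReal_mul (by norm_num : (0 : ℝ) ≤ 2)]
    simp
  have hHi : Integrable H := by
    refine ⟨hHm, ?_⟩
    rw [hasFiniteIntegral_iff_ofReal (Eventually.of_forall hH0)]
    exact hb.trans_lt ENNReal.ofReal_lt_top
  refine ⟨hHi, ?_⟩
  have hR0 : 0 ≤ 2 * ((∫ x, F x) * ∫ z, K z) :=
    mul_nonneg (by norm_num) (mul_nonneg (integral_nonneg hF0) (integral_nonneg hK0))
  rw [← ENNReal.ofReal_le_ofReal_iff hR0,
    ofReal_integral_eq_lintegral_ofReal hHi (Eventually.of_forall hH0)]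
  exact hb

/-- elements of the closure vanish outside `Ω` -/
lemma tilde_zero {s : ℝ} {Ω : Set (E n)} (hΩ : IsOpen Ω) {w : E n → ℝ} (hw : MemHsTilde s Ω w) :
    ∀ᵐ x : E n, x ∉ Ω → w x = 0 := by
  obtain ⟨⟨hw1, -⟩, hw2⟩ := hw
  have hz : ∫ x in Ωᶜ, w x ^ 2 = 0 := by
    have hle : ∀ ε : ℝ, 0 < ε → ∫ x in Ωᶜ, w x ^ 2 ≤ ε ^ 2 := by
      intro ε hε
      obtain ⟨φ, hφ, h1, -⟩ := hw2 ε hε
      have hφL : MemLp φ 2 volume := hφ.1.continuous.memLp_of_hasCompactSupport hφ.2.1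
      have hd : MemLp (w - φ) 2 volume := hw1.sub hφL
      have h2 := sqrt_le_of_eLp hd hε.le h1
      have h3 : ∫ x, (w - φ) x ^ 2 ≤ ε ^ 2 := by
        rw [← Real.sqrt_le_left hε.le]
        exact h2
      have h4 : ∫ x in Ωᶜ, w x ^ 2 = ∫ x in Ωᶜ, (w - φ) x ^ 2 := by
        apply setIntegral_congr_fun hΩ.measurableSet.compl
        intro x hx
        have : φ x = 0 := image_eq_zero_of_notMem_tsupport fun h => hx (hφ.2.2 h)
        simp [this]
      rw [h4]
      exact (setIntegral_le_integral (sq_int hd) (Eventually.of_forall fun x => sq_nonneg _)).trans h3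
    have h0 : 0 ≤ ∫ x in Ωᶜ, w x ^ 2 := integral_nonneg fun x => sq_nonneg _
    refine le_antisymm (le_of_forall_pos_le_add fun ε hε => ?_) h0
    have := hle (√ε) (Real.sqrt_pos.2 hε)
    rw [Real.sq_sqrt hε.le] at this
    linarith
  rw [setIntegral_eq_zero_iff_of_nonneg_ae (Eventually.of_forall fun x => sq_nonneg _)
    (sq_int hw1).integrableOn] at hz
  rw [Filter.EventuallyEq, ae_restrict_iff' hΩ.measurableSet.compl] at hz
  filter_upwards [hz] with x hx hxΩ
  have := hx hxΩ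
  simpa using this

/-- The main estimate. -/
theorem main_est [NeZero n] {s : ℝ} (hs0 : 0 < s) (hs1 : s < 1) {γ : E n → ℝ}
    (hγ : UniformlyElliptic γ) {Ω : Set (E n)} (hΩ : IsOpen Ω) {x₀ : E n} {r : ℝ} (hr : 0 < r)
    (hd : ∀ y ∈ Ω, 3 * r ≤ dist y x₀) :
    ∃ C : ℝ, ∀ f u : E n → ℝ, IsTest (ball x₀ r) f → IsWeakSolution s Ω γ f u →
      |(∫ p, wt γ p * (gag s u p * gag s f p)) - ∫ p, wt γ p * (gag s f p * gag s f p)| ≤
        C * ∫ x, f x ^ 2 := by
  obtain ⟨hγm, c₀, c₁, h0, hγb⟩ := hγ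
  have hb := wt_bounds h0 hγb
  have hm := wt_aesm hγm
  obtain ⟨p₀, hp₀⟩ := hb.exists
  have hc1 : 0 ≤ c₁ := h0.le.trans (hp₀.1.trans hp₀.2)
  set K : ℝ := ∫ z : E n, ker n s (2 * r) ‖z‖ with hK
  have hK0 : 0 ≤ K := integral_nonneg fun z => ker_nonneg n s _ (norm_nonneg z)
  refine ⟨c₁ ^ 2 / c₀ * (2 * K), ?_⟩
  intro f u hf ⟨hu, hw, hsol⟩
  set w : E n → ℝ := u - f with hwdef
  have hfH : MemHs s f := test_memHs hs0 hs1 hf
  have hwH : MemHs s w := hw.1
  have hfc : Continuous f := hf.1.continuous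
  -- `u` is orthogonal to `w`
  have hCpos : 0 < Cns n s := Cns_pos hs0 hs1
  have horth : ∫ p, wt γ p * (gag s u p * gag s w p) = 0 := by
    have hle : ∀ ε : ℝ, 0 < ε → |∫ p, wt γ p * (gag s u p * gag s w p)| ≤
        c₁ * (√(∫ p, gag s u p ^ 2) * ε) := by
      intro ε hε
      obtain ⟨φ, hφ, -, h2⟩ := hw.2 ε hε
      have hφH : MemHs s φ := test_memHs hs0 hs1 hφ
      have hdg : MemLp (gag s (w - φ)) 2 volume := by
        rw [gag_sub]; exact hwH.2.sub hφH.2
      have h3 := hsol φ hφ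
      rw [form_eq] at h3
      have h4 : ∫ p, wt γ p * (gag s u p * gag s φ p) = 0 := by
        rcases mul_eq_zero.1 h3 with h | h
        · linarith
        · exact h
      have h5 : ∫ p, wt γ p * (gag s u p * gag s w p) =
          ∫ p, wt γ p * (gag s u p * gag s (w - φ) p) := by
        have e1 : ∫ p, wt γ p * (gag s u p * gag s (w - φ) p) =
            (∫ p, wt γ p * (gag s u p * gag s w p)) -
              ∫ p, wt γ p * (gag s u p * gag s φ p) := by
          rw [← integral_sub (wint hm hb h0 hu.2 hwH.2) (wint hm hb h0 hu.2 hφH.2)]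
          congr 1
          ext p
          rw [gag_sub, Pi.sub_apply]
          ring
        rw [e1, h4, sub_zero]
      rw [h5]
      refine (wcs hm hb h0 hc1 hu.2 hdg).trans ?_
      apply mul_le_mul_of_nonneg_left _ hc1
      exact mul_le_mul_of_nonneg_left (sqrt_le_of_eLp hdg hε.le h2) (Real.sqrt_nonneg _)
    rw [← abs_eq_zero]
    refine le_antisymm (le_of_forall_pos_le_add fun ε hε => ?_) (abs_nonneg _)
    set S := √(∫ p, gag s u p ^ 2) with hS
    have hS0 : 0 ≤ S := Real.sqrt_nonneg _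
    have h6 := hle (ε / (c₁ * S + 1)) (by positivity)
    refine h6.trans ?_
    rw [zero_add, mul_div_assoc', mul_div_assoc', div_le_iff₀ (by positivity)]
    nlinarith [mul_nonneg hc1 hS0]
  -- decomposition of `gag u`
  have hgu : gag s u = gag s f + gag s w := by
    rw [← gag_add, hwdef]
    congr 1
    ext x; simp
  have hww : ∫ p, wt γ p * (gag s w p * gag s w p) = -∫ p, wt γ p * (gag s f p * gag s w p) := by
    have e1 : ∫ p, wt γ p * (gag s u p * gag s w p) =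
        (∫ p, wt γ p * (gag s f p * gag s w p)) + ∫ p, wt γ p * (gag s w p * gag s w p) := by
      rw [← integral_add (wint hm hb h0 hfH.2 hwH.2) (wint hm hb h0 hwH.2 hwH.2)]
      congr 1
      ext p
      rw [hgu, Pi.add_apply]
      ring
    rw [e1] at horth
    linarith
  -- localisation
  have hwz := tilde_zero hΩ hw
  set T : Set (E n × E n) := (ball x₀ r ×ˢ Ω) ∪ (Ω ×ˢ ball x₀ r) with hT
  have hTm : MeasurableSet T :=
    (measurableSet_ball.prod hΩ.measurableSet).union (hΩ.measurableSet.prod measurableSet_ball)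
  set G : E n × E n → ℝ := T.indicator (gag s f) with hG
  have hGL : MemLp G 2 volume := hfH.2.indicator hTm
  have hball : ∀ y ∈ Ω, y ∉ ball x₀ r := by
    intro y hy hy'
    have := hd y hy
    rw [mem_ball] at hy'
    linarith
  have hfz : ∀ x, x ∉ ball x₀ r → f x = 0 := fun x hx =>
    image_eq_zero_of_notMem_tsupport fun h => hx (hf.2.2 h)
  have hloc : ∫ p, wt γ p * (gag s f p * gag s w p) = ∫ p, wt γ p * (G p * gag s w p) := by
    apply integral_congr_ae
    filter_upwards [ae_fst hwz, ae_snd hwz] with p h1 h2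
    by_cases hp : p ∈ T
    · rw [hG, indicator_of_mem hp]
    · rw [hG, indicator_of_notMem hp]
      by_cases ha : p.1 ∈ ball x₀ r
      · have hb' : p.2 ∉ Ω := fun h => hp (Or.inl ⟨ha, h⟩)
        have hc' : p.1 ∉ Ω := fun h => hball _ h ha
        have : gag s w p = 0 := by
          unfold gag
          rw [h1 hc', h2 hb']; simp
        rw [this]; simp
      · by_cases hb' : p.2 ∈ ball x₀ r
        · have hc' : p.1 ∉ Ω := fun h => hp (Or.inr ⟨h, hb'⟩)
          have hd' : p.2 ∉ Ω := fun h => hball _ h hb'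
          have : gag s w p = 0 := by
            unfold gag
            rw [h1 hc', h2 hd']; simp
          rw [this]; simp
        · have : gag s f p = 0 := by
            unfold gag
            rw [hfz _ ha, hfz _ hb']; simp
          simp [this]
  have hGb : ∫ p, G p ^ 2 ≤ 2 * ((∫ x, f x ^ 2) * K) := by
    have hf2 : MemLp f 2 volume := hfH.1
    have hGm2 : AEStronglyMeasurable (fun p => G p ^ 2) volume := hGL.1.pow 2
    refine (conv_bound (H := fun p => G p ^ 2) (F := fun x => f x ^ 2)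
      (K := fun z => ker n s (2 * r) ‖z‖)
      (hfc.measurable.pow_const 2) ((ker_meas n s _).comp measurable_norm)
      (sq_int hf2) (ker_int hs0 hs1 (by positivity)) (fun x => sq_nonneg _)
      (fun z => ker_nonneg n s _ (norm_nonneg z)) hGm2 (fun p => sq_nonneg _) ?_).2
    intro p
    show G p ^ 2 ≤ f p.1 ^ 2 * ker n s (2 * r) ‖p.1 - p.2‖ +
      f p.2 ^ 2 * ker n s (2 * r) ‖p.1 - p.2‖
    have k0 := ker_nonneg n s (2 * r) (norm_nonneg (p.1 - p.2))
    by_cases hp : p ∈ T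
    · rw [hG, indicator_of_mem hp, gag_sq]
      have hdist : 2 * r ≤ ‖p.1 - p.2‖ ∧ (f p.1 = 0 ∨ f p.2 = 0) := by
        rw [← dist_eq_norm]
        rcases hp with ⟨h1, h2⟩ | ⟨h1, h2⟩
        · have h3 := hd _ h2
          have h4 : dist p.1 x₀ < r := h1
          have h5 := dist_triangle p.2 p.1 x₀
          rw [dist_comm p.2 p.1] at h5
          exact ⟨by linarith, Or.inr (hfz _ (hball _ h2))⟩
        · have h3 := hd _ h1
          have h4 : dist p.2 x₀ < r := h2
          have h5 := dist_triangle p.1 p.2 x₀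
          exact ⟨by linarith, Or.inl (hfz _ (hball _ h1))⟩
      have hk : ker n s (2 * r) ‖p.1 - p.2‖ = (‖p.1 - p.2‖ ^ ((n : ℝ) + 2 * s))⁻¹ := by
        unfold ker
        rw [if_pos hdist.1, Real.rpow_neg (norm_nonneg _)]
      rw [hk]
      rcases hdist.2 with h | h
      · rw [h]
        apply le_of_eq
        ring
      · rw [h]
        apply le_of_eq
        ring
    · rw [hG, indicator_of_notMem hp]
      have : 0 ≤ f p.1 ^ 2 * ker n s (2 * r) ‖p.1 - p.2‖ + f p.2 ^ 2 * ker n s (2 * r) ‖p.1 - p.2‖ := by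
        positivity
      simpa using this
  -- conclusion
  set Q := √(∫ p, gag s w p ^ 2) with hQ
  set R := √(∫ p, G p ^ 2) with hR
  have hQ0 : 0 ≤ Q := Real.sqrt_nonneg _
  have hR0 : 0 ≤ R := Real.sqrt_nonneg _
  have hQ2 : Q ^ 2 = ∫ p, gag s w p ^ 2 := Real.sq_sqrt (integral_nonneg fun p => sq_nonneg _)
  have hR2 : R ^ 2 = ∫ p, G p ^ 2 := Real.sq_sqrt (integral_nonneg fun p => sq_nonneg _)
  have b1 := wcs hm hb h0 hc1 hGL hwH.2
  have b2 := wlow hm hb h0 hwH.2
  rw [← hQ2, hww, hloc] at b2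
  have b3 : c₀ * Q ≤ c₁ * R := by
    have b4 : c₀ * Q ^ 2 ≤ c₁ * (R * Q) := b2.trans ((neg_le_abs _).trans b1)
    by_contra hcon
    push Not at hcon
    have hQp : 0 < Q := by
      rcases hQ0.lt_or_eq with h | h
      · exact h
      · exfalso
        rw [← h, mul_zero] at hcon
        have := mul_nonneg hc1 hR0
        linarith
    nlinarith
  have e2 : (∫ p, wt γ p * (gag s u p * gag s f p)) - ∫ p, wt γ p * (gag s f p * gag s f p) =
      ∫ p, wt γ p * (G p * gag s w p) := by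
    rw [← hloc, ← integral_sub (wint hm hb h0 hu.2 hfH.2) (wint hm hb h0 hfH.2 hfH.2)]
    congr 1
    ext p
    rw [hgu, Pi.add_apply]
    ring
  rw [e2]
  calc |∫ p, wt γ p * (G p * gag s w p)| ≤ c₁ * (R * Q) := b1
    _ ≤ c₁ ^ 2 / c₀ * R ^ 2 := by
        have : Q ≤ c₁ * R / c₀ := by
          rw [le_div_iff₀ h0]; linarith
        calc c₁ * (R * Q) ≤ c₁ * (R * (c₁ * R / c₀)) :=
              mul_le_mul_of_nonneg_left (mul_le_mul_of_nonneg_left this hR0) hc1
          _ = _ := by ring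
    _ ≤ c₁ ^ 2 / c₀ * (2 * ((∫ x, f x ^ 2) * K)) := by
        rw [hR2]
        exact mul_le_mul_of_nonneg_left hGb (by positivity)
    _ = _ := by ring

end Pool.Agent.R212.Calderon
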