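import Pool.Agent.R212.Frac2

open MeasureTheory Set Filter Metric
open scoped Topology ContDiff ENNReal

namespace Pool.Agent.R212.Calderon

variable {n : ℕ}

instance instHaarEE : (volume : Measure (E n × E n)).IsAddHaarMeasure := by
  rw [Measure.volume_eq_prod]; infer_instance

instance instRInvEE : (volume : Measure (E n × E n)).IsAddRightInvariant := by
  rw [Measure.volume_eq_prod]; infer_instance

/-- rescaled test function -/
noncomputable def fN (s : ℝ) (φ : E n → ℝ) (x₀ : E n) (N : ℝ) (x : E n) : ℝ :=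
  N ^ ((n : ℝ) / 2 - s) * φ (N • (x - x₀))

lemma fN_test {s : ℝ} {φ : E n → ℝ} (hφ : IsTest (ball 0 1) φ) {x₀ : E n} {N : ℝ} (hN : 0 < N)
    {U : Set (E n)} (hU : ball x₀ (1 / N) ⊆ U) : IsTest U (fN s φ x₀ N) := by
  obtain ⟨h1, h2, h3⟩ := hφ
  have hsub : tsupport (fN s φ x₀ N) ⊆ (fun x : E n => N • (x - x₀)) ⁻¹' tsupport φ := by
    apply closure_minimal _ ((isClosed_tsupport φ).preimage (by fun_prop))
    intro x hx
    apply subset_tsupport φ
    intro h
    apply hx
    simp only [fN]
    rw [h, mul_zero]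
  have hsub2 : tsupport (fN s φ x₀ N) ⊆ ball x₀ (1 / N) := by
    intro x hx
    have h4 := h3 (hsub hx)
    rw [mem_ball_zero_iff, norm_smul, Real.norm_eq_abs, abs_of_pos hN] at h4
    rw [mem_ball, dist_eq_norm, lt_div_iff₀ hN]
    linarith
  refine ⟨?_, ?_, hsub2.trans hU⟩
  · unfold fN
    have : ContDiff ℝ ∞ fun x : E n => N • (x - x₀) := by fun_prop
    exact contDiff_const.mul (h1.comp this)
  · exact HasCompactSupport.of_support_subset_isCompact (isCompact_closedBall x₀ (1 / N))
      (((subset_tsupport _).trans hsub2).trans ball_subset_closedBall)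

lemma fN_sq {s : ℝ} {φ : E n → ℝ} {x₀ : E n} {N : ℝ} (hN : 0 < N) :
    ∫ x, fN s φ x₀ N x ^ 2 = N ^ (-2 * s) * ∫ x, φ x ^ 2 := by
  have h1 : ∀ x, fN s φ x₀ N x ^ 2 = N ^ ((n : ℝ) - 2 * s) * φ (N • (x - x₀)) ^ 2 := by
    intro x
    unfold fN
    rw [mul_pow, rpow_sq hN.le]
    congr 2
    ring
  simp_rw [h1]
  rw [integral_const_mul, integral_sub_right_eq_self (fun x => φ (N • x) ^ 2) x₀,
    Measure.integral_comp_smul_of_nonneg volume (fun x => φ x ^ 2) N (hR := hN.le), smul_eq_mul,
    finrank_euclideanSpace_fin, ← mul_assoc]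
  congr 1
  rw [← Real.rpow_natCast, ← Real.rpow_neg hN.le, ← Real.rpow_add hN]
  congr 1
  ring

lemma gag_fN {s : ℝ} {φ : E n → ℝ} {x₀ : E n} {N : ℝ} (hN : 0 < N) (p : E n × E n) :
    gag s (fN s φ x₀ N) p = N ^ n * gag s φ (N • (p - (x₀, x₀))) := by
  unfold gag fN
  have e1 : (N • (p - (x₀, x₀))).1 = N • (p.1 - x₀) := rfl
  have e2 : (N • (p - (x₀, x₀))).2 = N • (p.2 - x₀) := rfl
  rw [e1, e2]
  have e3 : N • (p.1 - x₀) - N • (p.2 - x₀) = N • (p.1 - p.2) := by
    rw [← smul_sub]; congr 1; abel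
  rw [e3, norm_smul, Real.norm_eq_abs, abs_of_pos hN, Real.mul_rpow hN.le (norm_nonneg _)]
  have e4 : N ^ ((n : ℝ) / 2 - s) = N ^ n / N ^ ((n : ℝ) / 2 + s) := by
    rw [← Real.rpow_natCast, ← Real.rpow_sub hN]
    congr 1
    ring
  rw [e4]
  have h5 : 0 < N ^ ((n : ℝ) / 2 + s) := Real.rpow_pos_of_pos hN _
  field_simp

lemma energy_fN {s : ℝ} {φ : E n → ℝ} {x₀ : E n} {N : ℝ} (hN : 0 < N) (m : E n × E n → ℝ) :
    ∫ p, m p * (gag s (fN s φ x₀ N) p * gag s (fN s φ x₀ N) p) =
      ∫ q : E n × E n, m ((x₀, x₀) + N⁻¹ • q) * gag s φ q ^ 2 := by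
  set F : E n × E n → ℝ := fun q => m ((x₀, x₀) + N⁻¹ • q) * gag s φ q ^ 2 with hF
  have h1 : ∀ p, m p * (gag s (fN s φ x₀ N) p * gag s (fN s φ x₀ N) p) =
      (N ^ n) ^ 2 * F (N • (p - (x₀, x₀))) := by
    intro p
    rw [gag_fN hN, hF]
    simp only
    rw [smul_smul, inv_mul_cancel₀ hN.ne', one_smul, add_sub_cancel]
    ring
  simp_rw [h1]
  rw [integral_const_mul, integral_sub_right_eq_self (fun p => F (N • p)) (x₀, x₀),
    Measure.integral_comp_smul_of_nonneg volume F N (hR := hN.le), smul_eq_mul,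
    Module.finrank_prod, finrank_euclideanSpace_fin, ← mul_assoc]
  have : (N ^ n) ^ 2 * (N ^ (n + n))⁻¹ = 1 := by
    have : 0 < N ^ n := by positivity
    rw [pow_add]
    field_simp
  rw [this, one_mul]

lemma vol_ball_fin (R : ℝ) : volume (closedBall (0 : E n) R) < ⊤ :=
  (isCompact_closedBall _ _).measure_lt_top

/-- Lebesgue points -/
lemma leb_point [NeZero n] {a : E n → ℝ} (ha : Measurable a) {M : ℝ} (hM : ∀ x, |a x| ≤ M) :
    ∀ᵐ x₀ : E n, ∀ R : ℝ, 0 < R → Tendsto (fun N : ℕ => ∫ x in closedBall (0 : E n) R,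
      |a (x₀ + ((N : ℝ) + 1)⁻¹ • x) - a x₀|) atTop (𝓝 0) := by
  have hloc : LocallyIntegrable a (volume : Measure (E n)) := by
    intro x
    refine ⟨ball x 1, ball_mem_nhds x one_pos, ?_⟩
    refine Measure.integrableOn_of_bounded (M := M) ?_ ha.aestronglyMeasurable ?_
    · exact measure_ball_lt_top.ne
    · filter_upwards with y
      exact hM y
  filter_upwards [IsUnifLocDoublingMeasure.ae_tendsto_average_norm_sub (μ := (volume : Measure (E n)))
    hloc 1] with x₀ hx R hR
  have hδ : Tendsto (fun N : ℕ => R / ((N : ℝ) + 1)) atTop (𝓝[>] 0) := by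
    rw [tendsto_nhdsWithin_iff]
    constructor
    · have h1 := tendsto_one_div_add_atTop_nhds_zero_nat (𝕜 := ℝ)
      have h2 := h1.const_mul R
      rw [mul_zero] at h2
      refine h2.congr fun N => ?_
      ring
    · filter_upwards with N
      have : (0 : ℝ) < (N : ℝ) + 1 := by positivity
      exact div_pos hR this
  have h1 := hx (fun _ : ℕ => x₀) (fun N : ℕ => R / ((N : ℝ) + 1)) hδ (by
    filter_upwards with N
    have : (0 : ℝ) < (N : ℝ) + 1 := by positivity
    apply mem_closedBall_self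
    positivity)
  have h2 := h1.const_mul (R ^ n * volume.real (ball (0 : E n) 1))
  rw [mul_zero] at h2
  refine h2.congr fun N => ?_
  have hN : (0 : ℝ) < (N : ℝ) + 1 := by positivity
  set ρ : ℝ := R / ((N : ℝ) + 1) with hρ
  have hρ0 : 0 < ρ := div_pos hR hN
  set g : E n → ℝ := fun y => ‖a y - a x₀‖ with hg
  have hvol : volume.real (closedBall x₀ ρ) = ρ ^ n * volume.real (ball (0 : E n) 1) := by
    rw [Measure.real, Measure.addHaar_closedBall _ _ hρ0.le, ENNReal.toReal_mul,
      finrank_euclideanSpace_fin, ENNReal.toReal_ofReal (by positivity)]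
    rfl
  have hvb : 0 < volume.real (ball (0 : E n) 1) := by
    rw [measureReal_def, ENNReal.toReal_pos_iff]
    exact ⟨measure_ball_pos _ _ one_pos, measure_ball_lt_top⟩
  rw [setAverage_eq, hvol, smul_eq_mul]
  have e1 : ∫ x in closedBall (0 : E n) R, |a (x₀ + ((N : ℝ) + 1)⁻¹ • x) - a x₀| =
      ((N : ℝ) + 1) ^ n * ∫ y in closedBall (0 : E n) ρ, g (x₀ + y) := by
    have h3 := Measure.setIntegral_comp_smul_of_pos (volume : Measure (E n))
      (fun y => g (x₀ + y)) (R := ((N : ℝ) + 1)⁻¹) (closedBall (0 : E n) R) (by positivity)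
    rw [smul_closedBall _ _ hR.le, smul_zero, finrank_euclideanSpace_fin, inv_pow, inv_inv,
      smul_eq_mul, Real.norm_eq_abs, abs_of_pos (inv_pos.2 hN)] at h3
    rw [show ((N : ℝ) + 1)⁻¹ * R = ρ by rw [hρ]; ring] at h3
    exact h3
  have e2 : ∫ y in closedBall (0 : E n) ρ, g (x₀ + y) = ∫ y in closedBall x₀ ρ, g y := by
    have hp := (measurePreserving_add_left (volume : Measure (E n)) x₀).setIntegral_preimage_emb
      (measurableEmbedding_addLeft x₀) g (closedBall x₀ ρ)
    have hpre : (fun y => x₀ + y) ⁻¹' closedBall x₀ ρ = closedBall (0 : E n) ρ := by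
      ext y
      simp [dist_eq_norm]
    rw [hpre] at hp
    exact hp
  rw [e1, e2]
  have e3 : R ^ n = ((N : ℝ) + 1) ^ n * ρ ^ n := by
    rw [← mul_pow, hρ]
    congr 1
    field_simp
  rw [e3]
  have hρn : 0 < ρ ^ n := by positivity
  field_simp
  rfl

lemma leb_limit [NeZero n] {a : E n → ℝ} (ha : Measurable a) {M : ℝ} (hM : ∀ x, 0 ≤ a x ∧ a x ≤ M)
    {K : E n × E n → ℝ} (hK : Integrable K) :
    ∀ᵐ x₀ : E n, Tendsto (fun N : ℕ => ∫ q : E n × E n,
      (a (x₀ + ((N : ℝ) + 1)⁻¹ • q.1) * a (x₀ + ((N : ℝ) + 1)⁻¹ • q.2)) * K q) atTop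
      (𝓝 ((a x₀ * a x₀) * ∫ q, K q)) := by
  have hM0 : 0 ≤ M := (hM 0).1.trans (hM 0).2
  filter_upwards [leb_point ha (M := M) (fun x => by rw [abs_of_nonneg (hM x).1]; exact (hM x).2)]
    with x₀ hx
  rw [Metric.tendsto_atTop]
  intro δ hδ
  -- approximation of the kernel
  set ε : ℝ := δ / (4 * (M * (2 * M) + 1)) with hε
  have hε0 : 0 < ε := by positivity
  obtain ⟨G, hGs, hG1, hGc, hGi⟩ := hK.exists_hasCompactSupport_integral_sub_le hε0
  obtain ⟨B, hB⟩ := hGs.exists_bound_of_continuous hGc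
  have hB0 : 0 ≤ B := (norm_nonneg _).trans (hB 0)
  obtain ⟨R, hR0, hR⟩ := hGs.isCompact.isBounded.subset_ball_lt 0 0
  set V : ℝ := volume.real (closedBall (0 : E n) R) with hV
  have hV0 : 0 ≤ V := measureReal_nonneg
  have hlim := hx R hR0
  rw [Metric.tendsto_atTop] at hlim
  obtain ⟨N₀, hN₀⟩ := hlim (δ / (4 * (M * (B * (2 * V)) + 1))) (by positivity)
  refine ⟨N₀, fun N hN => ?_⟩
  have hI := hN₀ N hN
  have hN1 : (0 : ℝ) < (N : ℝ) + 1 := by positivity
  set c : ℝ := ((N : ℝ) + 1)⁻¹ with hc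
  set h : E n → ℝ := fun x => |a (x₀ + c • x) - a x₀| with hh
  have hhm : Measurable h := by
    rw [hh]; fun_prop
  have hh0 : ∀ x, 0 ≤ h x := fun x => abs_nonneg _
  have hhM : ∀ x, h x ≤ M := by
    intro x
    rw [hh]
    simp only
    rw [abs_le]
    constructor
    · have := (hM (x₀ + c • x)).1
      have := (hM x₀).2
      linarith
    · have := (hM (x₀ + c • x)).2
      have := (hM x₀).1
      linarith
  have hI' : ∫ x in closedBall (0 : E n) R, h x < δ / (4 * (M * (B * (2 * V)) + 1)) := by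
    rw [Real.dist_eq, sub_zero] at hI
    exact (le_abs_self _).trans_lt hI
  set A : E n × E n → ℝ := fun q => a (x₀ + c • q.1) * a (x₀ + c • q.2) with hA
  have hAm : Measurable A := by rw [hA]; fun_prop
  have hAb : ∀ q, |A q - a x₀ * a x₀| ≤ M * (h q.1 + h q.2) := by
    intro q
    have e1 : A q - a x₀ * a x₀ = a (x₀ + c • q.1) * (a (x₀ + c • q.2) - a x₀) +
        a x₀ * (a (x₀ + c • q.1) - a x₀) := by
      rw [hA]; ring
    rw [e1]
    refine (abs_add_le _ _).trans ?_
    rw [abs_mul, abs_mul, abs_of_nonneg (hM _).1, abs_of_nonneg (hM x₀).1, mul_add, add_comm]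
    exact add_le_add (mul_le_mul_of_nonneg_right (hM _).2 (abs_nonneg _))
      (mul_le_mul_of_nonneg_right (hM _).2 (abs_nonneg _))
  have hAint : Integrable fun q => A q * K q := by
    refine hK.bdd_mul (c := M * M) hAm.aestronglyMeasurable ?_
    filter_upwards with q
    rw [Real.norm_eq_abs, abs_of_nonneg (mul_nonneg (hM _).1 (hM _).1)]
    exact mul_le_mul (hM _).2 (hM _).2 (hM _).1 hM0
  have e0 : (∫ q, A q * K q) - (a x₀ * a x₀) * ∫ q, K q = ∫ q, (A q - a x₀ * a x₀) * K q := by
    rw [← integral_const_mul, ← integral_sub hAint (hK.const_mul _)]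
    congr 1
    ext q
    ring
  rw [Real.dist_eq]
  show |(∫ q, A q * K q) - (a x₀ * a x₀) * ∫ q, K q| < δ
  rw [e0]
  -- pointwise estimate
  set S : Set (E n × E n) := closedBall 0 R ×ˢ closedBall 0 R with hS
  have hSm : MeasurableSet S := measurableSet_closedBall.prod measurableSet_closedBall
  have hSfin : volume S < ⊤ := ((isCompact_closedBall _ _).prod (isCompact_closedBall _ _)).measure_lt_top
  have hi1 : IntegrableOn (fun q : E n × E n => h q.1 + h q.2) S := by
    refine Measure.integrableOn_of_bounded (M := 2 * M) hSfin.ne (by fun_prop) ?_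
    filter_upwards with q
    rw [Real.norm_eq_abs, abs_of_nonneg (add_nonneg (hh0 _) (hh0 _))]
    linarith [hhM q.1, hhM q.2]
  have hKG : Integrable fun q => |K q - G q| := (hK.sub hGi).abs
  have hpt : ∀ q, |(A q - a x₀ * a x₀) * K q| ≤
      M * (2 * M) * |K q - G q| + M * B * S.indicator (fun q => h q.1 + h q.2) q := by
    intro q
    rw [abs_mul]
    have h1 : |K q| ≤ |K q - G q| + |G q| := by
      have := abs_add_le (K q - G q) (G q)
      rwa [sub_add_cancel] at this
    have h2 : |A q - a x₀ * a x₀| * |G q| ≤ M * B * S.indicator (fun q => h q.1 + h q.2) q := by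
      by_cases hq : q ∈ S
      · rw [indicator_of_mem hq]
        calc |A q - a x₀ * a x₀| * |G q| ≤ (M * (h q.1 + h q.2)) * B :=
              mul_le_mul (hAb q) (hB q) (abs_nonneg _) (mul_nonneg hM0 (add_nonneg (hh0 _) (hh0 _)))
          _ = _ := by ring
      · rw [indicator_of_notMem hq, mul_zero]
        have : G q = 0 := by
          apply image_eq_zero_of_notMem_tsupport
          intro hq'
          apply hq
          have h3 := hR hq'
          rw [mem_ball_zero_iff, Prod.norm_def, max_lt_iff] at h3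
          exact ⟨by simpa using h3.1.le, by simpa using h3.2.le⟩
        rw [this]; simp
    have h4 : |A q - a x₀ * a x₀| ≤ M * (2 * M) :=
      (hAb q).trans (mul_le_mul_of_nonneg_left (by linarith [hhM q.1, hhM q.2]) hM0)
    calc |A q - a x₀ * a x₀| * |K q| ≤ |A q - a x₀ * a x₀| * (|K q - G q| + |G q|) :=
          mul_le_mul_of_nonneg_left h1 (abs_nonneg _)
      _ = |A q - a x₀ * a x₀| * |K q - G q| + |A q - a x₀ * a x₀| * |G q| := by ring
      _ ≤ _ := add_le_add (mul_le_mul_of_nonneg_right h4 (abs_nonneg _)) h2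
  have hi2 : Integrable (S.indicator fun q : E n × E n => h q.1 + h q.2) :=
    hi1.integrable_indicator hSm
  have hint : |∫ q, (A q - a x₀ * a x₀) * K q| ≤
      M * (2 * M) * ε + M * B * ∫ q in S, (h q.1 + h q.2) := by
    refine (norm_integral_le_of_norm_le (f := fun q => (A q - a x₀ * a x₀) * K q)
      (g := fun q => M * (2 * M) * |K q - G q| +
      M * B * S.indicator (fun q => h q.1 + h q.2) q) ((hKG.const_mul _).add (hi2.const_mul _))
      (Eventually.of_forall hpt)).trans ?_
    rw [integral_add (hKG.const_mul _) (hi2.const_mul _), integral_const_mul, integral_const_mul,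
      integral_indicator hSm]
    apply add_le_add _ le_rfl
    exact mul_le_mul_of_nonneg_left hG1 (by positivity)
  have hSI : ∫ q in S, (h q.1 + h q.2) = 2 * V * ∫ x in closedBall (0 : E n) R, h x := by
    have hhi : IntegrableOn h (closedBall (0 : E n) R) := by
      refine Measure.integrableOn_of_bounded (M := M) (vol_ball_fin R).ne
        hhm.aestronglyMeasurable ?_
      filter_upwards with x
      rw [Real.norm_eq_abs, abs_of_nonneg (hh0 x)]
      exact hhM x
    have h1i : Integrable (fun _ : E n => (1 : ℝ)) (volume.restrict (closedBall (0 : E n) R)) := by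
      have : IsFiniteMeasure (volume.restrict (closedBall (0 : E n) R)) :=
        ⟨by rw [Measure.restrict_apply_univ]; exact vol_ball_fin R⟩
      exact integrable_const _
    have hp1 : Integrable (fun q : E n × E n => h q.1 * 1)
        ((volume.restrict (closedBall (0 : E n) R)).prod (volume.restrict (closedBall (0 : E n) R))) :=
      hhi.mul_prod h1i
    have hp2 : Integrable (fun q : E n × E n => 1 * h q.2)
        ((volume.restrict (closedBall (0 : E n) R)).prod (volume.restrict (closedBall (0 : E n) R))) :=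
      h1i.mul_prod hhi
    have e1 : (volume.restrict S : Measure (E n × E n)) =
        (volume.restrict (closedBall (0 : E n) R)).prod (volume.restrict (closedBall (0 : E n) R)) := by
      rw [Measure.prod_restrict]; rfl
    rw [e1]
    have e2 : (fun q : E n × E n => h q.1 + h q.2) = fun q => h q.1 * 1 + 1 * h q.2 := by
      ext q; ring
    rw [e2, integral_add hp1 hp2, integral_prod_mul h (fun _ => (1 : ℝ)),
      integral_prod_mul (fun _ => (1 : ℝ)) h]
    simp only [integral_const, smul_eq_mul, mul_one, measureReal_restrict_apply_univ]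
    rw [← hV]
    ring
  rw [hSI] at hint
  refine hint.trans_lt ?_
  have t1 : M * (2 * M) * ε < δ / 2 := by
    rw [hε, mul_div_assoc', div_lt_div_iff₀ (by positivity) (by norm_num)]
    nlinarith [mul_nonneg hM0 hM0]
  have t2 : M * B * (2 * V * ∫ x in closedBall (0 : E n) R, h x) ≤ δ / 4 := by
    have h5 : 0 ≤ M * (B * (2 * V)) := by positivity
    calc M * B * (2 * V * ∫ x in closedBall (0 : E n) R, h x) =
          (M * (B * (2 * V))) * ∫ x in closedBall (0 : E n) R, h x := by ring
      _ ≤ (M * (B * (2 * V))) * (δ / (4 * (M * (B * (2 * V)) + 1))) :=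
          mul_le_mul_of_nonneg_left hI'.le h5
      _ ≤ δ / 4 := by
          rw [mul_div_assoc', div_le_div_iff₀ (by positivity) (by norm_num)]
          nlinarith
  linarith

end Pool.Agent.R212.Calderon
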