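import Pool.Agent.R212.Frac3

open MeasureTheory Set Filter Metric
open scoped Topology ContDiff ENNReal InnerProductSpace

namespace Pool.Agent.R212.Calderon

variable {n : ℕ}

lemma orth_tilde [NeZero n] {s : ℝ} (hs0 : 0 < s) (hs1 : s < 1) {γ : E n → ℝ}
    (hγ : UniformlyElliptic γ) {Ω : Set (E n)} {u w : E n → ℝ} (hu : MemHs s u)
    (hsol : ∀ φ, IsTest Ω φ → ∫ p, wt γ p * (gag s u p * gag s φ p) = 0)
    (hw : MemHsTilde s Ω w) : ∫ p, wt γ p * (gag s u p * gag s w p) = 0 := by
  obtain ⟨hγm, c₀, c₁, h0, hγb⟩ := hγ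
  have hb := wt_bounds h0 hγb
  have hm := wt_aesm hγm
  obtain ⟨p₀, hp₀⟩ := hb.exists
  have hc1 : 0 ≤ c₁ := h0.le.trans (hp₀.1.trans hp₀.2)
  have hwH : MemHs s w := hw.1
  have hle : ∀ ε : ℝ, 0 < ε → |∫ p, wt γ p * (gag s u p * gag s w p)| ≤
      c₁ * (√(∫ p, gag s u p ^ 2) * ε) := by
    intro ε hε
    obtain ⟨φ, hφ, -, h2⟩ := hw.2 ε hε
    have hφH : MemHs s φ := test_memHs hs0 hs1 hφ
    have hdg : MemLp (gag s (w - φ)) 2 volume := by
      rw [gag_sub]; exact hwH.2.sub hφH.2
    have h4 := hsol φ hφ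
    have h5 : ∫ p, wt γ p * (gag s u p * gag s w p) =
        ∫ p, wt γ p * (gag s u p * gag s (w - φ) p) := by
      have e1 : ∫ p, wt γ p * (gag s u p * gag s (w - φ) p) =
          (∫ p, wt γ p * (gag s u p * gag s w p)) -
            ∫ p, wt γ p * (gag s u p * gag s φ p) := by
        rw [← integral_sub (wint hm hb h0 hu.2 hwH.2) (wint hm hb h0 hu.2 hφH.2)]
        congr 1
        ext p
        rw [gag_sub, Pi.sub_apply]
        ring
      rw [e1, h4, sub_zero]
    rw [h5]
    refine (wcs hm hb h0 hc1 hu.2 hdg).trans ?_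
    apply mul_le_mul_of_nonneg_left _ hc1
    exact mul_le_mul_of_nonneg_left (sqrt_le_of_eLp hdg hε.le h2) (Real.sqrt_nonneg _)
  rw [← abs_eq_zero]
  refine le_antisymm (le_of_forall_pos_le_add fun ε hε => ?_) (abs_nonneg _)
  set S := √(∫ p, gag s u p ^ 2) with hS
  have hS0 : 0 ≤ S := Real.sqrt_nonneg _
  have h6 := hle (ε / (c₁ * S + 1)) (by positivity)
  refine h6.trans ?_
  rw [zero_add, mul_div_assoc', mul_div_assoc', div_le_iff₀ (by positivity)]
  nlinarith [mul_nonneg hc1 hS0]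

/-- fractional Poincaré inequality in a slab -/
lemma poincare [NeZero n] {s : ℝ} (hs0 : 0 < s) {Ω : Set (E n)}
    (hΩ : BoundedInOneDirection Ω) :
    ∃ κ : ℝ, 0 < κ ∧ ∀ d : E n → ℝ, MemHs s d → (∀ᵐ x : E n, x ∉ Ω → d x = 0) →
      κ * ∫ x, d x ^ 2 ≤ ∫ p, gag s d p ^ 2 := by
  obtain ⟨e, a, b, he, hab, hΩ⟩ := hΩ
  set L : ℝ := b - a with hL
  have hL0 : 0 < L := by rw [hL]; linarith
  set z₀ : E n := (-(2 * L)) • e with hz₀
  set c : ℝ := ((3 * L) ^ ((n : ℝ) + 2 * s))⁻¹ with hc
  have hc0 : 0 < c := by positivity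
  set B : Set (E n) := ball z₀ (L / 2) with hB
  have hBv : volume.real B * c > 0 := by
    have : 0 < volume.real B := by
      rw [measureReal_def, ENNReal.toReal_pos_iff]
      exact ⟨measure_ball_pos _ _ (by positivity), measure_ball_lt_top⟩
    positivity
  refine ⟨volume.real B * c, hBv, ?_⟩
  intro d hd hdz
  have hdi := sq_int hd.1
  have hgi := sq_int hd.2
  have hpt : ∀ᵐ p : E n × E n, d p.1 ^ 2 * B.indicator (fun _ => c) (p.1 - p.2) ≤
      gag s d p ^ 2 := by
    filter_upwards [ae_fst hdz, ae_snd hdz] with p h1 h2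
    by_cases hp : p.1 - p.2 ∈ B
    · rw [indicator_of_mem hp]
      by_cases hx : p.1 ∈ Ω
      · have hnorm : ‖p.1 - p.2‖ ≤ 3 * L := by
          have h3 : dist (p.1 - p.2) z₀ < L / 2 := hp
          rw [dist_eq_norm] at h3
          have h4 : ‖z₀‖ = 2 * L := by
            rw [hz₀, norm_smul, he, mul_one, Real.norm_eq_abs, abs_neg, abs_of_pos (by positivity)]
          have h5 := norm_add_le (p.1 - p.2 - z₀) z₀
          rw [sub_add_cancel, h4] at h5
          linarith
        have hy : p.2 ∉ Ω := by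
          intro hy
          have h3 : dist (p.1 - p.2) z₀ < L / 2 := hp
          rw [dist_eq_norm] at h3
          have h4 := abs_real_inner_le_norm (p.1 - p.2 - z₀) e
          rw [he, mul_one, inner_sub_left, inner_sub_left, hz₀, inner_smul_left,
            real_inner_self_eq_norm_sq, he] at h4
          simp only [conj_trivial, one_pow, mul_one] at h4
          have h5 := hΩ _ hx
          have h6 := hΩ _ hy
          have h7 := (abs_le.1 h4).1
          have h8 := (abs_le.1 h4).2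
          rw [hL] at h3 h7 h8
          linarith [h5.1, h5.2, h6.1, h6.2]
        rw [gag_sq, h2 hy, sub_zero, div_eq_mul_inv]
        apply mul_le_mul_of_nonneg_left _ (sq_nonneg _)
        rw [hc]
        rcases (norm_nonneg (p.1 - p.2)).lt_or_eq with h | h
        · apply inv_anti₀ (Real.rpow_pos_of_pos h _)
          exact Real.rpow_le_rpow h.le hnorm (by positivity)
        · exfalso
          have : p.1 = p.2 := by
            rw [← sub_eq_zero, ← norm_eq_zero]; exact h.symm
          exact hy (this ▸ hx)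
      · rw [h1 hx]
        have := sq_nonneg (gag s d p)
        simpa using this
    · rw [indicator_of_notMem hp, mul_zero]
      positivity
  -- integrate
  have hBm : MeasurableSet B := measurableSet_ball
  obtain ⟨d', hd'm, hdd'⟩ := hd.1.1
  have hl1 : ∫⁻ p : E n × E n, ENNReal.ofReal (d' p.1 ^ 2) *
      ENNReal.ofReal (B.indicator (fun _ => c) (p.1 - p.2)) ≤
      ∫⁻ p, ENNReal.ofReal (gag s d p ^ 2) := by
    apply lintegral_mono_ae
    filter_upwards [hpt, ae_fst hdd'] with p hp1 hp2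
    rw [← ENNReal.ofReal_mul (sq_nonneg _), ← hp2]
    exact ENNReal.ofReal_le_ofReal hp1
  have hind : Measurable (B.indicator fun _ : E n => c) := measurable_const.indicator hBm
  have hd'meas : Measurable d' := hd'm.measurable
  rw [lint_conv (F := fun x => ENNReal.ofReal (d' x ^ 2))
    (G := fun z => ENNReal.ofReal (B.indicator (fun _ => c) z)) (by fun_prop) (by fun_prop)] at hl1
  have e1 : ∫⁻ x, ENNReal.ofReal (d' x ^ 2) = ENNReal.ofReal (∫ x, d x ^ 2) := by
    rw [ofReal_integral_eq_lintegral_ofReal hdi (Eventually.of_forall fun x => sq_nonneg _)]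
    apply lintegral_congr_ae
    filter_upwards [hdd'] with x hx
    rw [hx]
  have e2 : ∫⁻ z, ENNReal.ofReal (B.indicator (fun _ => c) z) =
      ENNReal.ofReal (volume.real B * c) := by
    have e3 : (fun z => ENNReal.ofReal (B.indicator (fun _ => c) z)) =
        B.indicator fun _ => ENNReal.ofReal c := by
      ext z
      by_cases hz : z ∈ B
      · simp [indicator_of_mem hz]
      · simp [indicator_of_notMem hz]
    rw [e3, lintegral_indicator_const hBm, ENNReal.ofReal_mul measureReal_nonneg, measureReal_def,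
      ENNReal.ofReal_toReal measure_ball_lt_top.ne, mul_comm]
  rw [e1, e2, ← ofReal_integral_eq_lintegral_ofReal hgi (Eventually.of_forall fun p => sq_nonneg _),
    ← ENNReal.ofReal_mul (integral_nonneg fun x => sq_nonneg _),
    ENNReal.ofReal_le_ofReal_iff (integral_nonneg fun p => sq_nonneg _)] at hl1
  linarith

/-! ### Existence by the Lax-Milgram theorem -/

/-- the ambient Hilbert space -/
abbrev Hil (n : ℕ) : Type :=
  WithLp 2 (Lp ℝ 2 (volume : Measure (E n)) × Lp ℝ 2 (volume : Measure (E n × E n)))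

lemma IsTest.zero (Ω : Set (E n)) : IsTest Ω (0 : E n → ℝ) := by
  refine ⟨contDiff_const, HasCompactSupport.zero, ?_⟩
  have : tsupport (0 : E n → ℝ) = ∅ := by simp [tsupport]
  rw [this]
  exact empty_subset _

lemma IsTest.add {Ω : Set (E n)} {φ ψ : E n → ℝ} (h1 : IsTest Ω φ) (h2 : IsTest Ω ψ) :
    IsTest Ω (φ + ψ) :=
  ⟨h1.1.add h2.1, h1.2.1.add h2.2.1,
    (tsupport_add φ ψ).trans (union_subset h1.2.2 h2.2.2)⟩

lemma IsTest.smul {Ω : Set (E n)} {φ : E n → ℝ} (h1 : IsTest Ω φ) (c : ℝ) :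
    IsTest Ω (c • φ) :=
  ⟨h1.1.const_smul c, h1.2.1.smul_left (f := fun _ => c),
    (tsupport_smul_subset_right (fun _ => c) φ).trans h1.2.2⟩

lemma gag_smul (s : ℝ) (c : ℝ) (u : E n → ℝ) : gag s (c • u) = c • gag s u := by
  ext p
  simp only [gag, Pi.smul_apply, smul_eq_mul]
  ring

lemma gag_zero (s : ℝ) : gag s (0 : E n → ℝ) = 0 := by
  ext p
  simp [gag]

/-- graph of `gag` over the test functions -/
noncomputable def V0 (s : ℝ) (Ω : Set (E n)) : Submodule ℝ (Hil n) where
  carrier := {h | ∃ φ, IsTest Ω φ ∧ (h.fst : E n → ℝ) =ᵐ[volume] φ ∧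
    (h.snd : E n × E n → ℝ) =ᵐ[volume] gag s φ}
  zero_mem' := by
    refine ⟨0, IsTest.zero Ω, ?_, ?_⟩
    · exact Lp.coeFn_zero _ _ _
    · rw [gag_zero]
      exact Lp.coeFn_zero _ _ _
  add_mem' := by
    rintro h k ⟨φ, h1, h2, h3⟩ ⟨ψ, k1, k2, k3⟩
    refine ⟨φ + ψ, h1.add k1, ?_, ?_⟩
    · exact (Lp.coeFn_add h.fst k.fst).trans (h2.add k2)
    · rw [gag_add]
      exact (Lp.coeFn_add h.snd k.snd).trans (h3.add k3)
  smul_mem' := by
    rintro c h ⟨φ, h1, h2, h3⟩
    refine ⟨c • φ, h1.smul c, ?_, ?_⟩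
    · exact (Lp.coeFn_smul c h.fst).trans (h2.const_smul c)
    · rw [gag_smul]
      exact (Lp.coeFn_smul c h.snd).trans (h3.const_smul c)

end Pool.Agent.R212.Calderon
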