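import Pool.Agent.R212.Frac4

open MeasureTheory Set Filter Metric
open scoped Topology ContDiff ENNReal InnerProductSpace

namespace Pool.Agent.R212.Calderon

variable {n : ℕ}

/-- the Hilbert space of solutions -/
noncomputable def VV (s : ℝ) (Ω : Set (E n)) : Submodule ℝ (Hil n) :=
  (V0 s Ω).topologicalClosure

instance instCompleteVV (s : ℝ) (Ω : Set (E n)) : CompleteSpace (VV s Ω) :=
  (Submodule.isClosed_topologicalClosure (V0 s Ω)).completeSpace_coe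

lemma closure_gag {s : ℝ} {Ω : Set (E n)} {h : Hil n} (hh : h ∈ VV s Ω) :
    (h.snd : E n × E n → ℝ) =ᵐ[volume] gag s (h.fst : E n → ℝ) := by
  have hh' : h ∈ closure (V0 s Ω : Set (Hil n)) := hh
  obtain ⟨k, hk, hlim⟩ := mem_closure_iff_seq_limit.1 hh'
  choose φ hφ1 hφ2 hφ3 using hk
  have hf : Tendsto (fun j => (k j).fst) atTop (𝓝 h.fst) :=
    ((WithLp.continuous_fst 2 _ _).tendsto h).comp hlim
  have hs : Tendsto (fun j => (k j).snd) atTop (𝓝 h.snd) :=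
    ((WithLp.continuous_snd 2 _ _).tendsto h).comp hlim
  obtain ⟨ns, hns, hae⟩ := (tendstoInMeasure_of_tendsto_Lp hf).exists_seq_tendsto_ae
  have hs' : Tendsto (fun j => (k (ns j)).snd) atTop (𝓝 h.snd) := hs.comp hns.tendsto_atTop
  obtain ⟨ms, hms, hae2⟩ := (tendstoInMeasure_of_tendsto_Lp hs').exists_seq_tendsto_ae
  have hall : ∀ᵐ x : E n, ∀ j, ((k j).fst : E n → ℝ) x = φ j x := ae_all_iff.2 fun j => hφ2 j
  have hall2 : ∀ᵐ p : E n × E n, ∀ j, ((k j).snd : E n × E n → ℝ) p = gag s (φ j) p :=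
    ae_all_iff.2 fun j => hφ3 j
  filter_upwards [ae_fst hae, ae_snd hae, ae_fst hall, ae_snd hall, hae2, hall2]
    with p h1 h2 h3 h4 h5 h6
  have t1 : Tendsto (fun i => φ (ns (ms i)) p.1) atTop (𝓝 ((h.fst : E n → ℝ) p.1)) := by
    refine (h1.comp hms.tendsto_atTop).congr fun i => ?_
    exact h3 _
  have t2 : Tendsto (fun i => φ (ns (ms i)) p.2) atTop (𝓝 ((h.fst : E n → ℝ) p.2)) := by
    refine (h2.comp hms.tendsto_atTop).congr fun i => ?_
    exact h4 _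
  have t3 : Tendsto (fun i => gag s (φ (ns (ms i))) p) atTop
      (𝓝 (gag s (h.fst : E n → ℝ) p)) := (t1.sub t2).div_const _
  have t4 : Tendsto (fun i => gag s (φ (ns (ms i))) p) atTop
      (𝓝 ((h.snd : E n × E n → ℝ) p)) := by
    refine h5.congr fun i => ?_
    exact h6 _
  exact tendsto_nhds_unique t4 t3

lemma closure_spec {s : ℝ} {Ω : Set (E n)} {h : Hil n} (hh : h ∈ VV s Ω) :
    MemHsTilde s Ω (h.fst : E n → ℝ) := by
  have hg := closure_gag hh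
  refine ⟨⟨Lp.memLp h.fst, (memLp_congr_ae hg).1 (Lp.memLp h.snd)⟩, fun ε hε => ?_⟩
  have hh' : h ∈ closure (V0 s Ω : Set (Hil n)) := hh
  obtain ⟨k, ⟨φ, hφ1, hφ2, hφ3⟩, hdist⟩ := Metric.mem_closure_iff.1 hh' ε hε
  rw [dist_eq_norm] at hdist
  refine ⟨φ, hφ1, ?_, ?_⟩
  · have e1 : ((h - k).fst : E n → ℝ) =ᵐ[volume] (h.fst : E n → ℝ) - φ :=
      (Lp.coeFn_sub h.fst k.fst).trans ((ae_eq_refl _).sub hφ2)
    rw [← eLpNorm_congr_ae e1]
    have e2 : ‖(h - k).fst‖ ≤ ε := (WithLp.norm_fst_le _ _).trans hdist.le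
    rw [Lp.norm_def] at e2
    rw [← ENNReal.ofReal_toReal (Lp.memLp (h - k).fst).2.ne]
    exact ENNReal.ofReal_le_ofReal e2
  · have e1 : ((h - k).snd : E n × E n → ℝ) =ᵐ[volume] gag s ((h.fst : E n → ℝ) - φ) := by
      rw [gag_sub]
      exact (Lp.coeFn_sub h.snd k.snd).trans (hg.sub hφ3)
    rw [← eLpNorm_congr_ae e1]
    have e2 : ‖(h - k).snd‖ ≤ ε := (WithLp.norm_snd_le _ _).trans hdist.le
    rw [Lp.norm_def] at e2
    rw [← ENNReal.ofReal_toReal (Lp.memLp (h - k).snd).2.ne]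
    exact ENNReal.ofReal_le_ofReal e2

section Bil
variable {α : Type*} [MeasurableSpace α] {μ : Measure α} {m : α → ℝ} {c₀ c₁ : ℝ}

lemma lp_sqrt (F : Lp ℝ 2 μ) : √(∫ x, (F : α → ℝ) x ^ 2 ∂μ) = ‖F‖ := by
  rw [Lp.norm_def, eLp_two (Lp.memLp F), ENNReal.toReal_ofReal (Real.sqrt_nonneg _)]

/-- the weighted bilinear form on `L²` -/
noncomputable def bil (hm : AEStronglyMeasurable m μ) (hb : ∀ᵐ x ∂μ, c₀ ≤ m x ∧ m x ≤ c₁)
    (h0 : 0 < c₀) (h1 : 0 ≤ c₁) : Lp ℝ 2 μ →L[ℝ] Lp ℝ 2 μ →L[ℝ] ℝ :=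
  LinearMap.mkContinuous₂
    (LinearMap.mk₂ ℝ (fun F G : Lp ℝ 2 μ => ∫ x, m x * ((F : α → ℝ) x * (G : α → ℝ) x) ∂μ)
      (by
        intro F F' G
        rw [← integral_add (wint hm hb h0 (Lp.memLp F) (Lp.memLp G))
          (wint hm hb h0 (Lp.memLp F') (Lp.memLp G))]
        apply integral_congr_ae
        filter_upwards [Lp.coeFn_add F F'] with x hx
        rw [hx, Pi.add_apply]
        ring)
      (by
        intro c F G
        rw [smul_eq_mul, ← integral_const_mul]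
        apply integral_congr_ae
        filter_upwards [Lp.coeFn_smul c F] with x hx
        rw [hx, Pi.smul_apply, smul_eq_mul]
        ring)
      (by
        intro F G G'
        rw [← integral_add (wint hm hb h0 (Lp.memLp F) (Lp.memLp G))
          (wint hm hb h0 (Lp.memLp F) (Lp.memLp G'))]
        apply integral_congr_ae
        filter_upwards [Lp.coeFn_add G G'] with x hx
        rw [hx, Pi.add_apply]
        ring)
      (by
        intro c F G
        rw [smul_eq_mul, ← integral_const_mul]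
        apply integral_congr_ae
        filter_upwards [Lp.coeFn_smul c G] with x hx
        rw [hx, Pi.smul_apply, smul_eq_mul]
        ring))
    c₁ (by
      intro F G
      rw [LinearMap.mk₂_apply, Real.norm_eq_abs]
      refine (wcs hm hb h0 h1 (Lp.memLp F) (Lp.memLp G)).trans ?_
      rw [lp_sqrt, lp_sqrt, mul_assoc])

lemma bil_apply (hm : AEStronglyMeasurable m μ) (hb : ∀ᵐ x ∂μ, c₀ ≤ m x ∧ m x ≤ c₁)
    (h0 : 0 < c₀) (h1 : 0 ≤ c₁) (F G : Lp ℝ 2 μ) :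
    bil hm hb h0 h1 F G = ∫ x, m x * ((F : α → ℝ) x * (G : α → ℝ) x) ∂μ := rfl

end Bil

/-- Existence of weak solutions. -/
theorem exists_solution [NeZero n] {s : ℝ} (hs0 : 0 < s) (hs1 : s < 1) {γ : E n → ℝ}
    (hγ : UniformlyElliptic γ) {Ω : Set (E n)} (hΩo : IsOpen Ω) (hΩ : BoundedInOneDirection Ω)
    {f : E n → ℝ} (hf : MemHs s f) : ∃ u, IsWeakSolution s Ω γ f u := by
  have hγ' := hγ
  obtain ⟨hγm, c₀, c₁, h0, hγb⟩ := hγ
  have hb := wt_bounds h0 hγb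
  have hm := wt_aesm hγm
  obtain ⟨p₀, hp₀⟩ := hb.exists
  have hc1 : 0 ≤ c₁ := h0.le.trans (hp₀.1.trans hp₀.2)
  set B0 := bil hm hb h0 hc1 with hB0
  set sn : VV s Ω →L[ℝ] Lp ℝ 2 (volume : Measure (E n × E n)) :=
    (WithLp.sndL 2 ℝ (Lp ℝ 2 (volume : Measure (E n)))
      (Lp ℝ 2 (volume : Measure (E n × E n)))).comp (VV s Ω).subtypeL with hsn
  have hsn_apply : ∀ v : VV s Ω, sn v = (v : Hil n).snd := fun v => rfl
  set B : VV s Ω →L[ℝ] VV s Ω →L[ℝ] ℝ := B0.bilinearComp sn sn with hB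
  obtain ⟨κ, hκ, hpoin⟩ := poincare (n := n) hs0 hΩ
  have hcoer : IsCoercive B := by
    refine ⟨c₀ * (κ / (κ + 1)), by positivity, fun v => ?_⟩
    have h1 : B v v = ∫ p, wt γ p * (((v : Hil n).snd : E n × E n → ℝ) p *
      ((v : Hil n).snd : E n × E n → ℝ) p) := rfl
    have h2 := wlow hm hb h0 (Lp.memLp (v : Hil n).snd)
    have hsp := closure_spec v.2
    have h3 := hpoin _ hsp.1 (tilde_zero hΩo hsp)
    have h4 : ∫ p, gag s ((v : Hil n).fst : E n → ℝ) p ^ 2 = ‖(v : Hil n).snd‖ ^ 2 := by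
      rw [← lp_sqrt, Real.sq_sqrt (integral_nonneg fun p => sq_nonneg _)]
      apply integral_congr_ae
      filter_upwards [closure_gag v.2] with p hp
      rw [hp]
    have h5 : ∫ x, ((v : Hil n).fst : E n → ℝ) x ^ 2 = ‖(v : Hil n).fst‖ ^ 2 := by
      rw [← lp_sqrt, Real.sq_sqrt (integral_nonneg fun p => sq_nonneg _)]
    have h6 : ∫ p, ((v : Hil n).snd : E n × E n → ℝ) p ^ 2 = ‖(v : Hil n).snd‖ ^ 2 := by
      rw [← lp_sqrt, Real.sq_sqrt (integral_nonneg fun p => sq_nonneg _)]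
    rw [h4, h5] at h3
    rw [h6, ← h1] at h2
    have h7 : ‖v‖ ^ 2 = ‖(v : Hil n).fst‖ ^ 2 + ‖(v : Hil n).snd‖ ^ 2 := by
      rw [← WithLp.prod_norm_sq_eq_of_L2]
      rfl
    have h8 : κ * ‖v‖ ^ 2 ≤ (κ + 1) * ‖(v : Hil n).snd‖ ^ 2 := by
      rw [h7]; linarith
    have h9 : κ / (κ + 1) * ‖v‖ ^ 2 ≤ ‖(v : Hil n).snd‖ ^ 2 := by
      rw [div_mul_eq_mul_div, div_le_iff₀ (by positivity)]
      linarith
    calc c₀ * (κ / (κ + 1)) * ‖v‖ * ‖v‖ = c₀ * (κ / (κ + 1) * ‖v‖ ^ 2) := by ring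
      _ ≤ c₀ * ‖(v : Hil n).snd‖ ^ 2 := mul_le_mul_of_nonneg_left h9 h0.le
      _ ≤ B v v := h2
  set gf : Lp ℝ 2 (volume : Measure (E n × E n)) := hf.2.toLp (gag s f) with hgf
  set ℓ : VV s Ω →L[ℝ] ℝ := -((B0 gf).comp sn) with hℓ
  set v₀ : VV s Ω := (InnerProductSpace.toDual ℝ (VV s Ω)).symm ℓ with hv₀
  set w : VV s Ω := hcoer.continuousLinearEquivOfBilin.symm v₀ with hw
  have hweq : ∀ v : VV s Ω, B w v = ℓ v := by
    intro v
    rw [← IsCoercive.continuousLinearEquivOfBilin_apply hcoer w v, hw,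
      ContinuousLinearEquiv.apply_symm_apply, hv₀, InnerProductSpace.toDual_symm_apply]
  set wf : E n → ℝ := ((w : Hil n).fst : E n → ℝ) with hwf
  have hwt : MemHsTilde s Ω wf := closure_spec w.2
  have hwg : ((w : Hil n).snd : E n × E n → ℝ) =ᵐ[volume] gag s wf := closure_gag w.2
  refine ⟨f + wf, ⟨hf.1.add hwt.1.1, ?_⟩, ?_, ?_⟩
  · rw [gag_add]; exact hf.2.add hwt.1.2
  · have : f + wf - f = wf := by
      ext x; simp
    rw [this]
    exact hwt
  · intro φ hφ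
    have hφH : MemHs s φ := test_memHs hs0 hs1 hφ
    rw [form_eq]
    set k : Hil n := WithLp.toLp 2 (hφH.1.toLp φ, hφH.2.toLp (gag s φ)) with hk
    have hkV : k ∈ V0 s Ω := ⟨φ, hφ, hφH.1.coeFn_toLp, hφH.2.coeFn_toLp⟩
    have hkVV : k ∈ VV s Ω := (V0 s Ω).le_topologicalClosure hkV
    have h1 := hweq ⟨k, hkVV⟩
    have h2 : B w ⟨k, hkVV⟩ = ∫ p, wt γ p * (gag s wf p * gag s φ p) := by
      have : B w ⟨k, hkVV⟩ = ∫ p, wt γ p * (((w : Hil n).snd : E n × E n → ℝ) p *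
        (k.snd : E n × E n → ℝ) p) := rfl
      rw [this]
      apply integral_congr_ae
      filter_upwards [hwg, hφH.2.coeFn_toLp] with p hp1 hp2
      rw [hp1]
      congr 2
    have h3 : ℓ ⟨k, hkVV⟩ = -∫ p, wt γ p * (gag s f p * gag s φ p) := by
      have : ℓ ⟨k, hkVV⟩ = -∫ p, wt γ p * ((gf : E n × E n → ℝ) p *
        (k.snd : E n × E n → ℝ) p) := rfl
      rw [this]
      congr 1
      apply integral_congr_ae
      filter_upwards [hf.2.coeFn_toLp, hφH.2.coeFn_toLp] with p hp1 hp2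
      rw [hgf, hp1]
      congr 2
    have h4 : ∫ p, wt γ p * (gag s (f + wf) p * gag s φ p) =
        (∫ p, wt γ p * (gag s f p * gag s φ p)) + ∫ p, wt γ p * (gag s wf p * gag s φ p) := by
      rw [← integral_add (wint hm hb h0 hf.2 hφH.2) (wint hm hb h0 hwt.1.2 hφH.2)]
      congr 1
      ext p
      rw [gag_add, Pi.add_apply]
      ring
    rw [h4, ← h2, h1, h3]
    simp

lemma MemHsTilde.sub [NeZero n] {s : ℝ} (hs0 : 0 < s) (hs1 : s < 1) {Ω : Set (E n)}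
    {v w : E n → ℝ} (hv : MemHsTilde s Ω v)
    (hw : MemHsTilde s Ω w) : MemHsTilde s Ω (v - w) := by
  refine ⟨⟨hv.1.1.sub hw.1.1, by rw [gag_sub]; exact hv.1.2.sub hw.1.2⟩, fun ε hε => ?_⟩
  obtain ⟨φ, hφ, a1, a2⟩ := hv.2 (ε / 2) (by positivity)
  obtain ⟨ψ, hψ, b1, b2⟩ := hw.2 (ε / 2) (by positivity)
  have hφH : MemHs s φ := test_memHs hs0 hs1 hφ
  have hψH : MemHs s ψ := test_memHs hs0 hs1 hψ
  have hadd : ENNReal.ofReal (ε / 2) + ENNReal.ofReal (ε / 2) = ENNReal.ofReal ε := by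
    rw [← ENNReal.ofReal_add (by positivity) (by positivity)]
    congr 1
    ring
  refine ⟨φ - ψ, ?_, ?_, ?_⟩
  · have := hφ.add (hψ.smul (-1))
    rwa [neg_one_smul, ← sub_eq_add_neg] at this
  · have e : v - w - (φ - ψ) = (v - φ) - (w - ψ) := by abel
    rw [e, ← hadd]
    exact (eLpNorm_sub_le (hv.1.1.sub hφH.1).1 (hw.1.1.sub hψH.1).1 (by norm_num)).trans
      (add_le_add a1 b1)
  · have e : v - w - (φ - ψ) = (v - φ) - (w - ψ) := by abel
    rw [e, ← hadd, gag_sub]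
    refine (eLpNorm_sub_le ?_ ?_ (by norm_num)).trans (add_le_add a2 b2)
    · rw [gag_sub]; exact (hv.1.2.sub hφH.2).1
    · rw [gag_sub]; exact (hw.1.2.sub hψH.2).1

/-- Uniqueness of weak solutions. -/
theorem unique_solution [NeZero n] {s : ℝ} (hs0 : 0 < s) (hs1 : s < 1) {γ : E n → ℝ}
    (hγ : UniformlyElliptic γ) {Ω : Set (E n)} (hΩo : IsOpen Ω) (hΩ : BoundedInOneDirection Ω)
    {f u v : E n → ℝ} (hu : IsWeakSolution s Ω γ f u)
    (hv : IsWeakSolution s Ω γ f v) : u =ᵐ[volume] v := by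
  have hγ' := hγ
  obtain ⟨hγm, c₀, c₁, h0, hγb⟩ := hγ
  have hb := wt_bounds h0 hγb
  have hm := wt_aesm hγm
  have hCpos : 0 < Cns n s := Cns_pos hs0 hs1
  have hd : MemHsTilde s Ω (u - v) := by
    have := MemHsTilde.sub hs0 hs1 hu.2.1 hv.2.1
    rwa [sub_sub_sub_cancel_right] at this
  have hsol : ∀ φ, IsTest Ω φ → ∫ p, wt γ p * (gag s (u - v) p * gag s φ p) = 0 := by
    intro φ hφ
    have hφH : MemHs s φ := test_memHs hs0 hs1 hφ
    have h1 := hu.2.2 φ hφ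
    have h2 := hv.2.2 φ hφ
    rw [form_eq] at h1 h2
    have h3 := (mul_eq_zero.1 h1).resolve_left (by positivity)
    have h4 := (mul_eq_zero.1 h2).resolve_left (by positivity)
    have h5 : ∫ p, wt γ p * (gag s (u - v) p * gag s φ p) =
        (∫ p, wt γ p * (gag s u p * gag s φ p)) - ∫ p, wt γ p * (gag s v p * gag s φ p) := by
      rw [← integral_sub (wint hm hb h0 hu.1.2 hφH.2) (wint hm hb h0 hv.1.2 hφH.2)]
      congr 1
      ext p
      rw [gag_sub, Pi.sub_apply]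
      ring
    rw [h5, h3, h4, sub_zero]
  have h6 := orth_tilde hs0 hs1 hγ' hd.1 hsol hd
  have h7 := wlow hm hb h0 hd.1.2
  rw [h6] at h7
  obtain ⟨κ, hκ, hpoin⟩ := poincare (n := n) hs0 hΩ
  have h8 := hpoin _ hd.1 (tilde_zero hΩo hd)
  have h9 : ∫ p, gag s (u - v) p ^ 2 ≤ 0 := by
    by_contra hcon
    push Not at hcon
    have := mul_pos h0 hcon
    linarith
  have h10 : ∫ x, (u - v) x ^ 2 = 0 := by
    refine le_antisymm ?_ (integral_nonneg fun x => sq_nonneg _)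
    by_contra hcon
    push Not at hcon
    have := mul_pos hκ hcon
    linarith
  rw [integral_eq_zero_iff_of_nonneg (fun x => sq_nonneg _) (sq_int hd.1.1)] at h10
  filter_upwards [h10] with x hx
  have : (u - v) x = 0 := by simpa using hx
  rw [Pi.sub_apply] at this
  linarith

end Pool.Agent.R212.Calderon
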