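import Pool.Agent.R212.Frac5

open MeasureTheory Set Filter Metric
open scoped Topology ContDiff ENNReal InnerProductSpace

namespace Pool.Agent.R212.Calderon

variable {n : ℕ}

lemma exists_sqrt_rep {γ : E n → ℝ} (hγ : UniformlyElliptic γ) :
    ∃ (a : E n → ℝ) (M : ℝ), Measurable a ∧ (∀ x, 0 ≤ a x ∧ a x ≤ M) ∧
      ∀ᵐ x : E n, a x = √(γ x) ∧ 0 ≤ γ x := by
  obtain ⟨hm, c₀, c₁, h0, hb⟩ := hγ
  obtain ⟨g, hg, hgγ⟩ := hm
  refine ⟨fun x => min (√(g x)) (√c₁), √c₁, ?_, ?_, ?_⟩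
  · have := hg.measurable
    fun_prop
  · intro x
    exact ⟨le_min (Real.sqrt_nonneg _) (Real.sqrt_nonneg _), min_le_right _ _⟩
  · filter_upwards [hgγ, hb] with x h1 h2
    rw [← h1]
    exact ⟨min_eq_left (Real.sqrt_le_sqrt h2.2), h0.le.trans h2.1⟩

/-- a nonzero test function in the unit ball -/
lemma exists_bump (n : ℕ) [NeZero n] {s : ℝ} (hs0 : 0 < s) (hs1 : s < 1) :
    ∃ φ : E n → ℝ, IsTest (ball 0 1) φ ∧ 0 < ∫ p, gag s φ p ^ 2 := by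
  set B : ContDiffBump (0 : E n) := ⟨1 / 4, 1 / 2, by norm_num, by norm_num⟩ with hB
  have hT : IsTest (ball 0 1) (B : E n → ℝ) := by
    refine ⟨B.contDiff, B.hasCompactSupport, ?_⟩
    rw [B.tsupport_eq]
    intro x hx
    rw [mem_closedBall] at hx
    rw [mem_ball]
    have h2 : B.rOut = 1 / 2 := rfl
    rw [h2] at hx
    exact lt_of_le_of_lt hx (by norm_num)
  refine ⟨B, hT, ?_⟩
  have hH := test_memHs hs0 hs1 hT
  rw [integral_pos_iff_support_of_nonneg (fun p => sq_nonneg _) (sq_int hH.2)]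
  obtain ⟨e, he⟩ : ∃ e : E n, ‖e‖ = 1 := by
    obtain ⟨v, hv⟩ := exists_ne (0 : E n)
    refine ⟨(‖v‖)⁻¹ • v, ?_⟩
    rw [norm_smul, norm_inv, norm_norm, inv_mul_cancel₀ (norm_ne_zero_iff.2 hv)]
  have hopen : IsOpen {p : E n × E n | B p.1 ≠ B p.2} := by
    have h1 : Continuous fun p : E n × E n => (B : E n → ℝ) p.1 :=
      B.contDiff.continuous (n := 0).comp continuous_fst
    have h2 : Continuous fun p : E n × E n => (B : E n → ℝ) p.2 :=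
      B.contDiff.continuous (n := 0).comp continuous_snd
    exact isOpen_ne_fun h1 h2
  have hne : ({p : E n × E n | B p.1 ≠ B p.2}).Nonempty := by
    refine ⟨(0, e), ?_⟩
    have h1 : B (0 : E n) = 1 := B.one_of_mem_closedBall (by
      rw [mem_closedBall, dist_self]; exact B.rIn_pos.le)
    have h2 : B e = 0 := B.zero_of_le_dist (by
      rw [dist_zero_right, he]
      show (1 / 2 : ℝ) ≤ 1
      norm_num)
    show B (0 : E n) ≠ B e
    rw [h1, h2]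
    norm_num
  refine (hopen.measure_pos volume hne).trans_le (measure_mono ?_)
  intro p hp
  rw [Function.mem_support]
  have hp' : B p.1 - B p.2 ≠ 0 := sub_ne_zero.2 hp
  have h3 : p.1 ≠ p.2 := fun h => hp (by rw [h])
  have h4 : 0 < ‖p.1 - p.2‖ := norm_pos_iff.2 (sub_ne_zero.2 h3)
  rw [gag_sq]
  have := Real.rpow_pos_of_pos h4 ((n : ℝ) + 2 * s)
  positivity

theorem determination [NeZero n] {s : ℝ} (hs0 : 0 < s) (hs1 : s < 1) {Ω W : Set (E n)}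
    (hΩo : IsOpen Ω) (hΩ : BoundedInOneDirection Ω) (hWo : IsOpen W) (hWΩ : W ⊆ (closure Ω)ᶜ)
    {γ₁ γ₂ : E n → ℝ} (hγ₁ : UniformlyElliptic γ₁) (hγ₂ : UniformlyElliptic γ₂)
    (hΛ : ∀ f g, IsTest W f → IsTest W g → dnMap s Ω γ₁ f g = dnMap s Ω γ₂ f g) :
    ∀ᵐ x : E n, x ∈ W → γ₁ x = γ₂ x := by
  obtain ⟨φ, hφ, hφpos⟩ := exists_bump n hs0 hs1
  have hφH := test_memHs hs0 hs1 hφ
  set K : E n × E n → ℝ := fun p => gag s φ p ^ 2 with hK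
  have hKi : Integrable K := sq_int hφH.2
  obtain ⟨a₁, M₁, ha₁m, ha₁b, ha₁⟩ := exists_sqrt_rep hγ₁
  obtain ⟨a₂, M₂, ha₂m, ha₂b, ha₂⟩ := exists_sqrt_rep hγ₂
  filter_upwards [leb_limit ha₁m ha₁b hKi, leb_limit ha₂m ha₂b hKi, ha₁, ha₂]
    with x₀ hl1 hl2 hx1 hx2 hxW
  -- geometry
  obtain ⟨r₁, hr₁, hball₁⟩ := Metric.isOpen_iff.1 hWo x₀ hxW
  set r : ℝ := r₁ / 3 with hr
  have hr0 : 0 < r := by positivity
  have hd : ∀ y ∈ Ω, 3 * r ≤ dist y x₀ := by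
    intro y hy
    by_contra hcon
    push Not at hcon
    have h1 : y ∈ ball x₀ r₁ := by
      rw [mem_ball]
      calc dist y x₀ < 3 * r := hcon
        _ = r₁ := by rw [hr]; ring
    exact hWΩ (hball₁ h1) (subset_closure hy)
  obtain ⟨C₁, hC₁⟩ := main_est hs0 hs1 hγ₁ hΩo hr0 hd
  obtain ⟨C₂, hC₂⟩ := main_est hs0 hs1 hγ₂ hΩo hr0 hd
  have hCpos : 0 < Cns n s := Cns_pos hs0 hs1
  -- the key inequality for large `N`
  have hkey : ∀ᶠ N : ℕ in atTop,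
      |(∫ q : E n × E n, (a₁ (x₀ + ((N : ℝ) + 1)⁻¹ • q.1) * a₁ (x₀ + ((N : ℝ) + 1)⁻¹ • q.2)) * K q) -
      ∫ q : E n × E n, (a₂ (x₀ + ((N : ℝ) + 1)⁻¹ • q.1) * a₂ (x₀ + ((N : ℝ) + 1)⁻¹ • q.2)) * K q| ≤
      (C₁ + C₂) * (((N : ℝ) + 1) ^ (-2 * s) * ∫ x, φ x ^ 2) := by
    have hlim : Tendsto (fun N : ℕ => 1 / ((N : ℝ) + 1)) atTop (𝓝 0) :=
      tendsto_one_div_add_atTop_nhds_zero_nat
    filter_upwards [hlim.eventually (gt_mem_nhds hr0)] with N hN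
    have hN1 : (0 : ℝ) < (N : ℝ) + 1 := by positivity
    set f : E n → ℝ := fN s φ x₀ ((N : ℝ) + 1) with hf
    have hfr : IsTest (ball x₀ r) f := fN_test hφ hN1 (ball_subset_ball hN.le)
    have hfW : IsTest W f := ⟨hfr.1, hfr.2.1, hfr.2.2.trans
      ((ball_subset_ball (by rw [hr]; linarith)).trans hball₁)⟩
    have hfH := test_memHs hs0 hs1 hfr
    have hex₁ := exists_solution hs0 hs1 hγ₁ hΩo hΩ hfH
    have hex₂ := exists_solution hs0 hs1 hγ₂ hΩo hΩ hfH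
    have hΛf := hΛ f f hfW hfW
    unfold dnMap at hΛf
    rw [dif_pos hex₁, dif_pos hex₂, form_eq, form_eq] at hΛf
    have hΛ' := mul_left_cancel₀ (by positivity : Cns n s / 2 ≠ 0) hΛf
    have e₁ := hC₁ f hex₁.choose hfr hex₁.choose_spec
    have e₂ := hC₂ f hex₂.choose hfr hex₂.choose_spec
    rw [hΛ'] at e₁
    have hw₁ : ∫ p, wt γ₁ p * (gag s f p * gag s f p) = ∫ q : E n × E n,
        (a₁ (x₀ + ((N : ℝ) + 1)⁻¹ • q.1) * a₁ (x₀ + ((N : ℝ) + 1)⁻¹ • q.2)) * K q := by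
      have h1 := energy_fN (s := s) (φ := φ) (x₀ := x₀) hN1 (fun p => a₁ p.1 * a₁ p.2)
      refine Eq.trans ?_ h1
      apply integral_congr_ae
      filter_upwards [ae_fst ha₁, ae_snd ha₁] with p hp1 hp2
      rw [hp1.1, hp2.1]
      rfl
    have hw₂ : ∫ p, wt γ₂ p * (gag s f p * gag s f p) = ∫ q : E n × E n,
        (a₂ (x₀ + ((N : ℝ) + 1)⁻¹ • q.1) * a₂ (x₀ + ((N : ℝ) + 1)⁻¹ • q.2)) * K q := by
      have h1 := energy_fN (s := s) (φ := φ) (x₀ := x₀) hN1 (fun p => a₂ p.1 * a₂ p.2)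
      refine Eq.trans ?_ h1
      apply integral_congr_ae
      filter_upwards [ae_fst ha₂, ae_snd ha₂] with p hp1 hp2
      rw [hp1.1, hp2.1]
      rfl
    rw [← hw₁, ← hw₂, ← fN_sq (s := s) (φ := φ) (x₀ := x₀) hN1]
    rw [abs_le] at e₁ e₂ ⊢
    rw [add_mul]
    constructor <;> linarith [e₁.1, e₁.2, e₂.1, e₂.2]
  have hlimR : Tendsto (fun N : ℕ => (C₁ + C₂) * (((N : ℝ) + 1) ^ (-2 * s) * ∫ x, φ x ^ 2)) atTop
      (𝓝 0) := by
    have h1 : Tendsto (fun N : ℕ => ((N : ℝ) + 1) ^ (-(2 * s))) atTop (𝓝 0) :=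
      (tendsto_rpow_neg_atTop (by positivity : 0 < 2 * s)).comp
        (tendsto_atTop_add_const_right _ 1 tendsto_natCast_atTop_atTop)
    have h2 := (h1.mul_const (∫ x, φ x ^ 2)).const_mul (C₁ + C₂)
    rw [zero_mul, mul_zero] at h2
    refine h2.congr fun N => ?_
    rw [neg_mul]
  have hlimL := (hl1.sub hl2).abs
  have hle := le_of_tendsto_of_tendsto hlimL hlimR hkey
  have hz : (a₁ x₀ * a₁ x₀ * ∫ q, K q) - a₂ x₀ * a₂ x₀ * ∫ q, K q = 0 :=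
    abs_eq_zero.1 (le_antisymm hle (abs_nonneg _))
  have hz2 : (a₁ x₀ * a₁ x₀ - a₂ x₀ * a₂ x₀) * ∫ q, K q = 0 := by
    rw [sub_mul]; exact hz
  have hz3 := (mul_eq_zero.1 hz2).resolve_right hφpos.ne'
  rw [hx1.1, hx2.1, Real.mul_self_sqrt hx1.2, Real.mul_self_sqrt hx2.2] at hz3
  linarith

end Pool.Agent.R212.Calderon
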