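import Mathlib

open MeasureTheory
open scoped ContDiff ENNReal

namespace Pool.Agent.R212.Calderon

/-- `ℝⁿ` with its Euclidean norm. -/
abbrev E (n : ℕ) := EuclideanSpace ℝ (Fin n)

/-- `C_c^∞(U)`: smooth functions with compact support contained in the open set `U`. -/
def IsTest {n : ℕ} (U : Set (E n)) (φ : E n → ℝ) : Prop :=
  ContDiff ℝ ∞ φ ∧ HasCompactSupport φ ∧ tsupport φ ⊆ U

/-- `Ω` is bounded in one direction: it lies in a slab `{a < x · e < b}`. -/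
def BoundedInOneDirection {n : ℕ} (Ω : Set (E n)) : Prop :=
  ∃ (e : E n) (a b : ℝ), ‖e‖ = 1 ∧ a < b ∧ ∀ x ∈ Ω, a < inner ℝ x e ∧ inner ℝ x e < b

/-- `γ ∈ L^∞(ℝⁿ)` is uniformly elliptic: `c₀ ≤ γ ≤ c₁` almost everywhere with `0 < c₀`. -/
def UniformlyElliptic {n : ℕ} (γ : E n → ℝ) : Prop :=
  AEStronglyMeasurable γ volume ∧
    ∃ c₀ c₁ : ℝ, 0 < c₀ ∧ ∀ᵐ x : E n, c₀ ≤ γ x ∧ γ x ≤ c₁

/-- The difference quotient `(u(x) - u(y)) / |x - y|^{n/2+s}`; its `L²(ℝ²ⁿ)` norm is the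
Gagliardo seminorm of order `s` of `u`. -/
noncomputable def gag {n : ℕ} (s : ℝ) (u : E n → ℝ) (p : E n × E n) : ℝ :=
  (u p.1 - u p.2) / ‖p.1 - p.2‖ ^ ((n : ℝ) / 2 + s)

/-- `u ∈ H^s(ℝⁿ)`, `0 < s < 1`: `u` is square integrable with finite Gagliardo seminorm. -/
def MemHs {n : ℕ} (s : ℝ) (u : E n → ℝ) : Prop :=
  MemLp u 2 volume ∧ MemLp (gag s u) 2 volume

/-- `w` belongs to the closure of `C_c^∞(Ω)` in `H^s(ℝⁿ)`. -/
def MemHsTilde {n : ℕ} (s : ℝ) (Ω : Set (E n)) (w : E n → ℝ) : Prop :=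
  MemHs s w ∧ ∀ ε : ℝ, 0 < ε → ∃ φ : E n → ℝ, IsTest Ω φ ∧
    eLpNorm (w - φ) 2 volume ≤ ENNReal.ofReal ε ∧
    eLpNorm (gag s (w - φ)) 2 volume ≤ ENNReal.ofReal ε

/-- The constant `C_{n,s} = 4^s Γ(n/2+s) / (π^{n/2} |Γ(-s)|)`. -/
noncomputable def Cns (n : ℕ) (s : ℝ) : ℝ :=
  4 ^ s * Real.Gamma ((n : ℝ) / 2 + s) / (Real.pi ^ ((n : ℝ) / 2) * |Real.Gamma (-s)|)

/-- The bilinear form
`B_γ(u,φ) = (C_{n,s}/2) ∫ γ^{1/2}(x) γ^{1/2}(y) |x-y|^{-n-2s} (u(x)-u(y)) (φ(x)-φ(y)) dx dy`. -/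
noncomputable def form {n : ℕ} (s : ℝ) (γ u φ : E n → ℝ) : ℝ :=
  Cns n s / 2 * ∫ p : E n × E n, √(γ p.1) * √(γ p.2) / ‖p.1 - p.2‖ ^ ((n : ℝ) + 2 * s) *
    ((u p.1 - u p.2) * (φ p.1 - φ p.2))

/-- `u ∈ H^s(ℝⁿ)` is the weak solution of the fractional conductivity equation in `Ω` with
exterior value `f`: `u - f ∈ \tilde H^s(Ω)` and `B_γ(u,φ) = 0` for all `φ ∈ C_c^∞(Ω)`. -/
def IsWeakSolution {n : ℕ} (s : ℝ) (Ω : Set (E n)) (γ f u : E n → ℝ) : Prop :=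
  MemHs s u ∧ MemHsTilde s Ω (u - f) ∧ ∀ φ, IsTest Ω φ → form s γ u φ = 0

open Classical in
/-- The exterior Dirichlet-to-Neumann map `⟨Λ_γ f, g⟩ = B_γ(u_f, g)`, where `u_f` is the weak
solution with exterior value `f` (and `0` if there were no weak solution). -/
noncomputable def dnMap {n : ℕ} (s : ℝ) (Ω : Set (E n)) (γ f g : E n → ℝ) : ℝ :=
  if h : ∃ u, IsWeakSolution s Ω γ f u then form s γ h.choose g else 0

end Pool.Agent.R212.Calderon
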