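import Mathlib

/-!
Growth-fragmentation semigroups on `L^1((0,∞); x dx)`: definitions (problem MP_bbd370_an).
-/

open MeasureTheory Set Filter Topology
open scoped ENNReal

namespace Pool.Agent.R212.GF

/-- The measure `x dx` on `(0,∞)`. -/
noncomputable def mu1 : Measure ℝ :=
  (volume.restrict (Ioi (0 : ℝ))).withDensity (fun x => ENNReal.ofReal x)

/-- The space `X_1 = L^1((0,∞); x dx)` with scalars `𝕜 = ℝ` or `ℂ`. -/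
abbrev X1 (𝕜 : Type) [RCLike 𝕜] : Type := Lp 𝕜 1 mu1

/-- The data: growth rate `r`, fragmentation rate `a`, fragmentation kernel `b`. -/
structure Data where
  /-- growth rate -/
  r : ℝ → ℝ
  /-- fragmentation rate -/
  a : ℝ → ℝ
  /-- fragmentation kernel -/
  b : ℝ → ℝ → ℝ
  r_meas : Measurable r
  a_meas : Measurable a
  b_meas : Measurable (Function.uncurry b)
  r_pos : ∀ x, 0 < x → 0 < r x
  /-- `1/r` is locally integrable on `(0,∞)` -/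
  r_loc : ∀ x y, 0 < x → x ≤ y → IntegrableOn (fun τ => 1 / r τ) (Icc x y)
  r_zero : ∫⁻ τ in Ioo (0 : ℝ) 1, ENNReal.ofReal (1 / r τ) = ⊤
  r_top : ∫⁻ τ in Ioi (1 : ℝ), ENNReal.ofReal (1 / r τ) = ⊤
  a_nonneg : ∀ x, 0 < x → 0 ≤ a x
  b_nonneg : ∀ x y, 0 < x → x < y → 0 ≤ b x y
  b_mass : ∀ y, 0 < y → ∫⁻ x in Ioo 0 y, ENNReal.ofReal (x * b x y) ≤ ENNReal.ofReal y

/-- `X(y,t) ∈ (0,y]` solves `∫_{X(y,t)}^y dτ / r(τ) = t` (`y > 0`, `t ≥ 0`). -/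
def IsFlow (D : Data) (X : ℝ → ℝ → ℝ) : Prop :=
  ∀ y t, 0 < y → 0 ≤ t → 0 < X y t ∧ X y t ≤ y ∧ ∫ τ in X y t..y, 1 / D.r τ = t

/-- A `C_0`-semigroup `(V(t))_{t ≥ 0}`; only the values at `t ≥ 0` matter. -/
structure IsC0 {𝕜 E : Type} [RCLike 𝕜] [NormedAddCommGroup E] [NormedSpace 𝕜 E]
    (V : ℝ → E →L[𝕜] E) : Prop where
  zero : V 0 = ContinuousLinearMap.id 𝕜 E
  add : ∀ s t, 0 ≤ s → 0 ≤ t → V (s + t) = (V s).comp (V t)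
  cont : ∀ f, ContinuousOn (fun t => V t f) (Ici 0)

/-- `(f, g)` belongs to the graph of the generator of `V`: `(V(t) f - f) / t → g` as `t → 0+`. -/
def InGen {𝕜 E : Type} [RCLike 𝕜] [NormedAddCommGroup E] [NormedSpace 𝕜 E]
    (V : ℝ → E →L[𝕜] E) (f g : E) : Prop :=
  Tendsto (fun t : ℝ => ((t⁻¹ : ℝ) : 𝕜) • (V t f - f)) (𝓝[>] 0) (𝓝 g)

/-- `U` is the semigroup `U_0^{(a)}` of the data, given by
`(U_0(t) f)(y) = exp (-∫_{X(y,t)}^y a/r) f(X(y,t)) ∂_y X(y,t)`. -/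
def IsU0 {𝕜 : Type} [RCLike 𝕜] (D : Data) (X : ℝ → ℝ → ℝ) (U : ℝ → X1 𝕜 →L[𝕜] X1 𝕜) : Prop :=
  ∀ t, 0 ≤ t → ∀ f : X1 𝕜, ∀ᵐ y ∂mu1,
    U t f y = ((Real.exp (-∫ p in X y t..y, D.a p / D.r p) : ℝ) : 𝕜) * f (X y t) *
      ((deriv (fun z => X z t) y : ℝ) : 𝕜)

/-- `B` is the fragmentation operator `B f(x) = ∫_x^∞ a(y) b(x,y) f(y) dy` (convergent). -/
def IsB {𝕜 : Type} [RCLike 𝕜] (D : Data) (B : X1 𝕜 →L[𝕜] X1 𝕜) : Prop :=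
  ∀ f : X1 𝕜, ∀ᵐ x ∂mu1,
    IntegrableOn (fun y => ((D.a y * D.b x y : ℝ) : 𝕜) * f y) (Ioi x) ∧
    B f x = ∫ y in Ioi x, ((D.a y * D.b x y : ℝ) : 𝕜) * f y

/-- `f ≥ 0` almost everywhere. -/
def Nonneg {𝕜 : Type} [RCLike 𝕜] (f : X1 𝕜) : Prop :=
  ∀ᵐ x ∂mu1, ∃ c : ℝ, 0 ≤ c ∧ f x = (c : 𝕜)

/-- The semigroup is positive. -/
def IsPositive {𝕜 : Type} [RCLike 𝕜] (V : ℝ → X1 𝕜 →L[𝕜] X1 𝕜) : Prop :=
  ∀ t, 0 ≤ t → ∀ f, Nonneg f → Nonneg (V t f)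

/-- The essential norm: distance to the compact operators. -/
noncomputable def essNorm {𝕜 E : Type} [RCLike 𝕜] [NormedAddCommGroup E] [NormedSpace 𝕜 E]
    (T : E →L[𝕜] E) : ℝ :=
  sInf {c : ℝ | ∃ K : E →L[𝕜] E, IsCompactOperator K ∧ c = ‖T - K‖}

/-- The essential spectral radius, by Nussbaum's formula
`r_ess(T) = inf_n ‖T^n‖_ess^{1/n} = lim_n ‖T^n‖_ess^{1/n}`. -/
noncomputable def essRadius {𝕜 E : Type} [RCLike 𝕜] [NormedAddCommGroup E] [NormedSpace 𝕜 E]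
    (T : E →L[𝕜] E) : ℝ :=
  ⨅ n : ℕ, (essNorm (T ^ (n + 1))) ^ ((1 : ℝ) / (n + 1))

/-- The type (growth bound) `ω(V)` of a semigroup. -/
noncomputable def growthBound {𝕜 E : Type} [RCLike 𝕜] [NormedAddCommGroup E] [NormedSpace 𝕜 E]
    (V : ℝ → E →L[𝕜] E) : EReal :=
  sInf {w : EReal | ∃ w' : ℝ, w = (w' : EReal) ∧
    ∃ M : ℝ, ∀ t, 0 ≤ t → ‖V t‖ ≤ M * Real.exp (w' * t)}

/-- `w` is the essential type `ω_ess(V)`: `r_ess(V(t)) = e^{w t}` for all `t > 0`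
(with `e^{-∞} = 0`). -/
def IsEssType {𝕜 E : Type} [RCLike 𝕜] [NormedAddCommGroup E] [NormedSpace 𝕜 E]
    (V : ℝ → E →L[𝕜] E) (w : EReal) : Prop :=
  ∀ t : ℝ, 0 < t → ENNReal.ofReal (essRadius (V t)) = EReal.exp (w * (t : EReal))

/-- `V` has a spectral gap: `ω_ess(V) < ω(V)`. -/
def HasSpectralGap {𝕜 E : Type} [RCLike 𝕜] [NormedAddCommGroup E] [NormedSpace 𝕜 E]
    (V : ℝ → E →L[𝕜] E) : Prop :=
  ∃ w : EReal, IsEssType V w ∧ w < growthBound V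

/-- For the data `D`, the operator `T_0 + B`, on the domain of the generator `T_0` of the
semigroup `U_0`, generates a positive `C_0`-semigroup `V` on `X_1`, and `V` has a spectral gap. -/
def GeneratesWithGap (𝕜 : Type) [RCLike 𝕜] (D : Data) : Prop :=
  ∃ (X : ℝ → ℝ → ℝ) (U : ℝ → X1 𝕜 →L[𝕜] X1 𝕜) (B : X1 𝕜 →L[𝕜] X1 𝕜)
    (V : ℝ → X1 𝕜 →L[𝕜] X1 𝕜),
    IsFlow D X ∧ IsC0 U ∧ IsU0 D X U ∧ IsB D B ∧ IsC0 V ∧ IsPositive V ∧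
    (∀ f g : X1 𝕜, InGen V f g ↔ ∃ h : X1 𝕜, InGen U f h ∧ g = h + B f) ∧
    HasSpectralGap V

end Pool.Agent.R212.GF
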