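import Mathlib
import Pool.Agent.R212.GF1

/-!
Bounded rank-one perturbation of a strongly continuous group.
-/

open MeasureTheory Set Filter Topology BoundedContinuousFunction
open scoped ENNReal

namespace Pool.Agent.R212.GF

/-- the integral `∫_0^t e^{-δ |t-s|} ds` is at most `1/δ` -/
theorem integral_exp_abs_le {δ : ℝ} (hδ : 0 < δ) (t : ℝ) :
    |∫ s in (0 : ℝ)..t, Real.exp (-δ * |t - s|)| ≤ 1 / δ := by
  have h1 : (∫ s in (0 : ℝ)..t, Real.exp (-δ * |t - s|)) =
      ∫ s in (0 : ℝ)..t, Real.exp (-δ * |s|) := by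
    have := intervalIntegral.integral_comp_sub_left (a := 0) (b := t)
      (fun s => Real.exp (-δ * |s|)) t
    simpa using this
  rw [h1]
  have key : ∀ t : ℝ, 0 ≤ t → |∫ s in (0 : ℝ)..t, Real.exp (-δ * |s|)| ≤ 1 / δ := by
    intro t ht
    have h2 : (∫ s in (0 : ℝ)..t, Real.exp (-δ * |s|)) =
        ∫ s in (0 : ℝ)..t, Real.exp (-δ * s) := by
      apply intervalIntegral.integral_congr
      intro s hs
      rw [uIcc_of_le ht] at hs
      simp only [abs_of_nonneg hs.1]
    have h3 : (∫ s in (0 : ℝ)..t, Real.exp (-δ * s)) = (1 - Real.exp (-δ * t)) / δ := by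
      have := intervalIntegral.integral_comp_mul_left (a := 0) (b := t)
        (fun x => Real.exp x) (c := -δ) (neg_ne_zero.2 hδ.ne')
      rw [this, integral_exp]
      rw [smul_eq_mul, mul_zero, Real.exp_zero]
      field_simp
      ring
    rw [h2, h3]
    rw [abs_of_nonneg]
    · have := Real.exp_pos (-δ * t)
      gcongr
      linarith
    · apply div_nonneg _ hδ.le
      have : Real.exp (-δ * t) ≤ 1 := Real.exp_le_one_iff.2 (by nlinarith)
      linarith
  rcases le_total 0 t with ht | ht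
  · exact key t ht
  · have h3 := key (-t) (by linarith)
    have h4 : (∫ s in (0 : ℝ)..(-t), Real.exp (-δ * |s|)) =
        -∫ s in (0 : ℝ)..t, Real.exp (-δ * |s|) := by
      have := intervalIntegral.integral_comp_neg (a := 0) (b := -t)
        (fun s => Real.exp (-δ * |s|))
      simp only [abs_neg, neg_neg, neg_zero] at this
      rw [this, intervalIntegral.integral_symm]
    rw [h4, abs_neg] at h3
    exact h3

section abs

variable {𝕜 E : Type} [RCLike 𝕜] [NormedAddCommGroup E] [NormedSpace 𝕜 E]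

/-- a strongly continuous group with `‖U t‖ ≤ e^{|t|}` -/
structure Grp (U : ℝ → E →L[𝕜] E) : Prop where
  zero : U 0 = ContinuousLinearMap.id 𝕜 E
  add : ∀ s t, U (s + t) = (U s).comp (U t)
  cont : ∀ f, Continuous fun t => U t f
  bound : ∀ t, ‖U t‖ ≤ Real.exp |t|

variable [NormedSpace ℝ E]

/-- the integrand of the Duhamel operator -/
noncomputable def Fk (U : ℝ → E →L[𝕜] E) (φ : E →L[𝕜] 𝕜) (g : E) (m : ℝ) (w : ℝ → E)
    (t s : ℝ) : E :=
  (((Real.exp (-m * |t - s|) : ℝ) : 𝕜) * φ (w s)) • U (t - s) g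

theorem Fk_cont {U : ℝ → E →L[𝕜] E} (hU : Grp U) (φ : E →L[𝕜] 𝕜) (g : E) (m : ℝ)
    {w : ℝ → E} (hw : Continuous w) : Continuous (Function.uncurry (Fk U φ g m w)) := by
  unfold Function.uncurry Fk
  have h1 : Continuous fun p : ℝ × ℝ => U (p.1 - p.2) g :=
    (hU.cont g).comp (continuous_fst.sub continuous_snd)
  have h2 : Continuous fun p : ℝ × ℝ => ((Real.exp (-m * |p.1 - p.2|) : ℝ) : 𝕜) := by
    apply RCLike.continuous_ofReal.comp
    fun_prop
  have h3 : Continuous fun p : ℝ × ℝ => φ (w p.2) := φ.continuous.comp (hw.comp continuous_snd)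
  exact (h2.mul h3).smul h1

theorem Fk_norm {U : ℝ → E →L[𝕜] E} (hU : Grp U) (φ : E →L[𝕜] 𝕜) (g : E) (m : ℝ)
    {w : ℝ → E} {C : ℝ} (hw : ∀ s, ‖w s‖ ≤ C) (t s : ℝ) :
    ‖Fk U φ g m w t s‖ ≤ (‖φ‖ * ‖g‖ * C) * Real.exp (-(m - 1) * |t - s|) := by
  unfold Fk
  have hC : 0 ≤ C := (norm_nonneg _).trans (hw 0)
  rw [norm_smul, norm_mul, RCLike.norm_ofReal, abs_of_pos (Real.exp_pos _)]
  have h1 : ‖φ (w s)‖ ≤ ‖φ‖ * C := (φ.le_opNorm _).trans (by gcongr; exact hw s)
  have h2 : ‖U (t - s) g‖ ≤ Real.exp |t - s| * ‖g‖ :=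
    ((U (t - s)).le_opNorm g).trans (by gcongr; exact hU.bound _)
  have h3 : Real.exp (-(m - 1) * |t - s|) = Real.exp (-m * |t - s|) * Real.exp |t - s| := by
    rw [← Real.exp_add]; congr 1; ring
  rw [h3]
  calc Real.exp (-m * |t - s|) * ‖φ (w s)‖ * ‖U (t - s) g‖
      ≤ Real.exp (-m * |t - s|) * (‖φ‖ * C) * (Real.exp |t - s| * ‖g‖) := by gcongr
    _ = _ := by ring

theorem Fk_int_norm {U : ℝ → E →L[𝕜] E} (hU : Grp U) (φ : E →L[𝕜] 𝕜) (g : E) {m : ℝ}
    (hm : 1 < m) {w : ℝ → E} {C : ℝ} (hw : ∀ s, ‖w s‖ ≤ C) (t : ℝ) :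
    ‖∫ s in (0 : ℝ)..t, Fk U φ g m w t s‖ ≤ (‖φ‖ * ‖g‖ / (m - 1)) * C := by
  have hC : 0 ≤ C := (norm_nonneg _).trans (hw 0)
  have hm1 : 0 < m - 1 := by linarith
  have hint : ∀ a b : ℝ, IntervalIntegrable
      (fun s => (‖φ‖ * ‖g‖ * C) * Real.exp (-(m - 1) * |t - s|)) volume a b := by
    intro a b
    apply Continuous.intervalIntegrable
    fun_prop
  have h1 : ‖∫ s in (0 : ℝ)..t, Fk U φ g m w t s‖ ≤
      |∫ s in (0 : ℝ)..t, (‖φ‖ * ‖g‖ * C) * Real.exp (-(m - 1) * |t - s|)| := by
    apply intervalIntegral.norm_integral_le_abs_of_norm_le _ (hint 0 t)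
    exact Filter.Eventually.of_forall fun s => Fk_norm hU φ g m hw t s
  refine h1.trans ?_
  rw [intervalIntegral.integral_const_mul, abs_mul, abs_of_nonneg (by positivity)]
  have h2 := integral_exp_abs_le hm1 t
  calc ‖φ‖ * ‖g‖ * C * |∫ s in (0 : ℝ)..t, Real.exp (-(m - 1) * |t - s|)|
      ≤ ‖φ‖ * ‖g‖ * C * (1 / (m - 1)) := by gcongr
    _ = _ := by ring

/-- the Duhamel operator on bounded continuous functions -/
noncomputable def Kop {U : ℝ → E →L[𝕜] E} (hU : Grp U) (φ : E →L[𝕜] 𝕜) (g : E) {m : ℝ}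
    (hm : 1 < m) : (ℝ →ᵇ E) →L[𝕜] (ℝ →ᵇ E) :=
  LinearMap.mkContinuous
    { toFun := fun w => BoundedContinuousFunction.ofNormedAddCommGroup
        (fun t => ∫ s in (0 : ℝ)..t, Fk U φ g m w t s)
        (intervalIntegral.continuous_parametric_intervalIntegral_of_continuous
          (Fk_cont hU φ g m w.continuous) continuous_id)
        ((‖φ‖ * ‖g‖ / (m - 1)) * ‖w‖)
        (fun t => Fk_int_norm hU φ g hm w.norm_coe_le_norm t)
      map_add' := by
        intro w v
        ext t
        simp only [BoundedContinuousFunction.coe_ofNormedAddCommGroup,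
          BoundedContinuousFunction.coe_add, Pi.add_apply]
        rw [← intervalIntegral.integral_add]
        · congr 1
          ext s
          simp only [Fk, Pi.add_apply, map_add, mul_add, add_smul]
        · exact ((Fk_cont hU φ g m w.continuous).comp
            (continuous_const.prodMk continuous_id)).intervalIntegrable _ _
        · exact ((Fk_cont hU φ g m v.continuous).comp
            (continuous_const.prodMk continuous_id)).intervalIntegrable _ _
      map_smul' := by
        intro c w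
        ext t
        simp only [BoundedContinuousFunction.coe_ofNormedAddCommGroup,
          BoundedContinuousFunction.coe_smul, RingHom.id_apply]
        rw [← intervalIntegral.integral_smul]
        congr 1
        ext s
        simp only [Fk, map_smul, smul_eq_mul, smul_smul]
        congr 1
        ring }
    (‖φ‖ * ‖g‖ / (m - 1))
    (by
      intro w
      apply BoundedContinuousFunction.norm_ofNormedAddCommGroup_le
      · have : 0 < m - 1 := by linarith
        positivity
      · exact fun t => Fk_int_norm hU φ g hm w.norm_coe_le_norm t)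

theorem Kop_apply {U : ℝ → E →L[𝕜] E} (hU : Grp U) (φ : E →L[𝕜] 𝕜) (g : E) {m : ℝ}
    (hm : 1 < m) (w : ℝ →ᵇ E) (t : ℝ) :
    Kop hU φ g hm w t = ∫ s in (0 : ℝ)..t, Fk U φ g m w t s := rfl

theorem Kop_norm {U : ℝ → E →L[𝕜] E} (hU : Grp U) (φ : E →L[𝕜] 𝕜) (g : E) {m : ℝ}
    (hm : 1 < m) : ‖Kop hU φ g hm‖ ≤ ‖φ‖ * ‖g‖ / (m - 1) := by
  have : 0 < m - 1 := by linarith
  exact LinearMap.mkContinuous_norm_le _ (by positivity) _

/-- `t ↦ e^{-m|t|} U(t) f` -/
noncomputable def Uw {U : ℝ → E →L[𝕜] E} (hU : Grp U) {m : ℝ} (hm : 1 < m) :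
    E →L[𝕜] (ℝ →ᵇ E) :=
  LinearMap.mkContinuous
    { toFun := fun f => BoundedContinuousFunction.ofNormedAddCommGroup
        (fun t => ((Real.exp (-m * |t|) : ℝ) : 𝕜) • U t f)
        (by
          have h2 : Continuous fun t : ℝ => ((Real.exp (-m * |t|) : ℝ) : 𝕜) := by
            apply RCLike.continuous_ofReal.comp
            fun_prop
          exact h2.smul (hU.cont f))
        ‖f‖
        (by
          intro t
          rw [norm_smul, RCLike.norm_ofReal, abs_of_pos (Real.exp_pos _)]
          have h2 : ‖U t f‖ ≤ Real.exp |t| * ‖f‖ :=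
            ((U t).le_opNorm f).trans (by gcongr; exact hU.bound _)
          calc Real.exp (-m * |t|) * ‖U t f‖ ≤ Real.exp (-m * |t|) * (Real.exp |t| * ‖f‖) := by
                gcongr
            _ = Real.exp (-(m - 1) * |t|) * ‖f‖ := by
                rw [← mul_assoc, ← Real.exp_add]; congr 2; ring
            _ ≤ 1 * ‖f‖ := by
                gcongr
                apply Real.exp_le_one_iff.2
                have := abs_nonneg t
                nlinarith
            _ = ‖f‖ := one_mul _)
      map_add' := by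
        intro w v
        ext t
        simp only [BoundedContinuousFunction.coe_ofNormedAddCommGroup, map_add, smul_add,
          BoundedContinuousFunction.coe_add, Pi.add_apply]
      map_smul' := by
        intro c w
        ext t
        simp only [BoundedContinuousFunction.coe_ofNormedAddCommGroup, map_smul,
          BoundedContinuousFunction.coe_smul, RingHom.id_apply]
        rw [smul_comm] }
    1
    (by
      intro f
      apply BoundedContinuousFunction.norm_ofNormedAddCommGroup_le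
      · positivity
      · intro t
        rw [norm_smul, RCLike.norm_ofReal, abs_of_pos (Real.exp_pos _), one_mul]
        have h2 : ‖U t f‖ ≤ Real.exp |t| * ‖f‖ :=
          ((U t).le_opNorm f).trans (by gcongr; exact hU.bound _)
        calc Real.exp (-m * |t|) * ‖U t f‖ ≤ Real.exp (-m * |t|) * (Real.exp |t| * ‖f‖) := by
              gcongr
          _ = Real.exp (-(m - 1) * |t|) * ‖f‖ := by
              rw [← mul_assoc, ← Real.exp_add]; congr 2; ring
          _ ≤ 1 * ‖f‖ := by
              gcongr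
              apply Real.exp_le_one_iff.2
              have := abs_nonneg t
              nlinarith
          _ = ‖f‖ := one_mul _)

theorem Uw_apply {U : ℝ → E →L[𝕜] E} (hU : Grp U) {m : ℝ} (hm : 1 < m) (f : E) (t : ℝ) :
    Uw hU hm f t = ((Real.exp (-m * |t|) : ℝ) : 𝕜) • U t f := rfl

end abs

end Pool.Agent.R212.GF
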