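import Mathlib
import Pool.Agent.R212.GF2

/-!
The weighted translation group on `L^1(ℝ)`.
-/

open MeasureTheory Set Filter Topology
open scoped ENNReal

namespace Pool.Agent.R212.GF

/-- the logarithm of the weight -/
noncomputable def lw (ε s : ℝ) : ℝ := min (ε * s) 0

theorem lw_cont (ε : ℝ) : Continuous (lw ε) := by
  unfold lw; fun_prop

theorem lw_lip {ε : ℝ} (hε : 0 ≤ ε) (s t : ℝ) : |lw ε s - lw ε t| ≤ ε * |s - t| := by
  unfold lw
  refine (abs_min_sub_min_le_max _ _ _ _).trans ?_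
  rw [sub_zero, abs_zero, ← mul_sub, abs_mul, abs_of_nonneg hε]
  exact max_le le_rfl (by positivity)

theorem exp_lip {a b c : ℝ} (ha : a ≤ c) (hb : b ≤ c) :
    |Real.exp a - Real.exp b| ≤ Real.exp c * |a - b| := by
  wlog hab : b ≤ a generalizing a b
  · rw [abs_sub_comm, abs_sub_comm a b]
    exact this hb ha (le_of_not_ge hab)
  rw [abs_of_nonneg (sub_nonneg.2 (Real.exp_le_exp.2 hab)), abs_of_nonneg (sub_nonneg.2 hab)]
  have h1 : Real.exp a - Real.exp b = Real.exp a * (1 - Real.exp (b - a)) := by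
    rw [mul_sub, mul_one, ← Real.exp_add]; congr 2; ring
  have h2 : 1 - Real.exp (b - a) ≤ a - b := by
    have := Real.add_one_le_exp (b - a); linarith
  rw [h1]
  calc Real.exp a * (1 - Real.exp (b - a)) ≤ Real.exp a * (a - b) := by gcongr
    _ ≤ Real.exp c * (a - b) := by
      have := Real.exp_le_exp.2 ha
      have h3 : 0 ≤ a - b := sub_nonneg.2 hab
      gcongr

section

variable (𝕜 : Type) [RCLike 𝕜]

/-- the space `L^1(ℝ)` -/
abbrev LR : Type := Lp 𝕜 1 (volume : Measure ℝ)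

theorem mp_sub (t : ℝ) : MeasurePreserving (fun s : ℝ => s - t) volume volume :=
  measurePreserving_sub_right volume t

variable {𝕜}

/-- the function `s ↦ (W(s)/W(s-t)) h(s-t)` -/
noncomputable def tfun (ε t : ℝ) (h : ℝ → 𝕜) (s : ℝ) : 𝕜 :=
  ((Real.exp (lw ε s - lw ε (s - t)) : ℝ) : 𝕜) * h (s - t)

theorem wt_le {ε : ℝ} (hε : 0 ≤ ε) (t s : ℝ) :
    Real.exp (lw ε s - lw ε (s - t)) ≤ Real.exp (ε * |t|) := by
  apply Real.exp_le_exp.2
  have := lw_lip hε s (s - t)
  rw [show s - (s - t) = t by ring] at this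
  exact (le_abs_self _).trans this

theorem wt_cont (ε t : ℝ) : Continuous fun s => ((Real.exp (lw ε s - lw ε (s - t)) : ℝ) : 𝕜) := by
  apply RCLike.continuous_ofReal.comp
  apply Real.continuous_exp.comp
  exact (lw_cont ε).sub ((lw_cont ε).comp (continuous_id.sub continuous_const))

theorem comp_sub_memLp (h : LR 𝕜) (t : ℝ) : MemLp (fun s => h (s - t)) 1 volume :=
  (Lp.memLp h).comp_measurePreserving (mp_sub t)

theorem tfun_memLp {ε : ℝ} (hε : 0 ≤ ε) (t : ℝ) (h : LR 𝕜) : MemLp (tfun ε t h) 1 volume := by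
  have h1 := comp_sub_memLp h t
  apply MemLp.of_le_mul (c := Real.exp (ε * |t|)) h1
  · exact (wt_cont ε t).aestronglyMeasurable.mul h1.1
  · refine Filter.Eventually.of_forall fun s => ?_
    unfold tfun
    rw [norm_mul, RCLike.norm_ofReal, abs_of_pos (Real.exp_pos _)]
    exact mul_le_mul_of_nonneg_right (wt_le hε t s) (norm_nonneg _)

/-- the weighted translation -/
noncomputable def tra {ε : ℝ} (hε : 0 ≤ ε) (t : ℝ) (h : LR 𝕜) : LR 𝕜 :=
  (tfun_memLp hε t h).toLp _

theorem tra_ae {ε : ℝ} (hε : 0 ≤ ε) (t : ℝ) (h : LR 𝕜) : tra hε t h =ᵐ[volume] tfun ε t h :=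
  MemLp.coeFn_toLp _

theorem ae_comp_sub {p : ℝ → Prop} (hp : ∀ᵐ s, p s) (t : ℝ) : ∀ᵐ s : ℝ, p (s - t) :=
  (mp_sub t).quasiMeasurePreserving.ae hp

theorem tra_norm {ε : ℝ} (hε : 0 ≤ ε) (t : ℝ) (h : LR 𝕜) :
    ‖tra hε t h‖ ≤ Real.exp (ε * |t|) * ‖h‖ := by
  have h2 : ‖tra hε t h‖ ≤ Real.exp (ε * |t|) * ‖(comp_sub_memLp h t).toLp _‖ := by
    apply Lp.norm_le_mul_norm_of_ae_le_mul
    filter_upwards [tra_ae hε t h, (comp_sub_memLp h t).coeFn_toLp] with s h1 h2
    rw [h1, h2]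
    unfold tfun
    rw [norm_mul, RCLike.norm_ofReal, abs_of_pos (Real.exp_pos _)]
    exact mul_le_mul_of_nonneg_right (wt_le hε t s) (norm_nonneg _)
  refine h2.trans (le_of_eq ?_)
  congr 1
  have h3 : (comp_sub_memLp h t).toLp _ = Lp.compMeasurePreserving _ (mp_sub t) h := by
    ext1
    filter_upwards [(comp_sub_memLp h t).coeFn_toLp,
      Lp.coeFn_compMeasurePreserving h (mp_sub t)] with s h1 h2
    rw [h1, h2]; rfl
  rw [h3]
  exact Lp.norm_compMeasurePreserving _ _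

/-- the weighted translation group -/
noncomputable def Tg {ε : ℝ} (hε : 0 ≤ ε) (t : ℝ) : LR 𝕜 →L[𝕜] LR 𝕜 :=
  LinearMap.mkContinuous
    { toFun := tra hε t
      map_add' := by
        intro h k
        ext1
        filter_upwards [tra_ae hε t (h + k), tra_ae hε t h, tra_ae hε t k,
          Lp.coeFn_add (tra hε t h) (tra hε t k), ae_comp_sub (Lp.coeFn_add h k) t]
          with s h1 h2 h3 h4 h5
        rw [h1, h4, Pi.add_apply, h2, h3]
        unfold tfun
        rw [h5, Pi.add_apply, mul_add]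
      map_smul' := by
        intro c h
        ext1
        filter_upwards [tra_ae hε t (c • h), tra_ae hε t h,
          Lp.coeFn_smul c (tra hε t h), ae_comp_sub (Lp.coeFn_smul c h) t]
          with s h1 h2 h3 h4
        simp only [RingHom.id_apply]
        rw [h1, h3, Pi.smul_apply, h2]
        unfold tfun
        rw [h4, Pi.smul_apply, smul_eq_mul, smul_eq_mul]
        ring }
    (Real.exp (ε * |t|)) (tra_norm hε t)

theorem Tg_ae {ε : ℝ} (hε : 0 ≤ ε) (t : ℝ) (h : LR 𝕜) :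
    Tg hε t h =ᵐ[volume] tfun ε t h := tra_ae hε t h

theorem Tg_norm {ε : ℝ} (hε : 0 ≤ ε) (t : ℝ) :
    ‖(Tg hε t : LR 𝕜 →L[𝕜] LR 𝕜)‖ ≤ Real.exp (ε * |t|) :=
  LinearMap.mkContinuous_norm_le _ (Real.exp_pos _).le _

theorem Tg_zero {ε : ℝ} (hε : 0 ≤ ε) : (Tg hε 0 : LR 𝕜 →L[𝕜] LR 𝕜) =
    ContinuousLinearMap.id 𝕜 _ := by
  ext h
  filter_upwards [Tg_ae hε 0 h] with s h1
  rw [h1]
  unfold tfun
  simp

theorem Tg_add {ε : ℝ} (hε : 0 ≤ ε) (s t : ℝ) : (Tg hε (s + t) : LR 𝕜 →L[𝕜] LR 𝕜) =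
    (Tg hε s).comp (Tg hε t) := by
  ext h
  filter_upwards [Tg_ae hε (s + t) h, Tg_ae hε s (Tg hε t h), ae_comp_sub (Tg_ae hε t h) s]
    with x h1 h2 h3
  rw [h1]
  change _ = (Tg hε s (Tg hε t h)) x
  rw [h2]
  unfold tfun at h3 ⊢
  rw [h3, ← mul_assoc, ← RCLike.ofReal_mul, ← Real.exp_add,
    show x - (s + t) = x - s - t by ring]
  congr 3
  ring

/-- continuity of the plain translation -/
theorem trans_cont (h : LR 𝕜) : Continuous fun t : ℝ => Lp.compMeasurePreserving _ (mp_sub t) h := by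
  have hg : Continuous fun t : ℝ => (⟨fun s : ℝ => s - t, by fun_prop⟩ : C(ℝ, ℝ)) := by
    apply ContinuousMap.continuous_of_continuous_uncurry
    exact continuous_snd.sub continuous_fst
  exact Continuous.compMeasurePreservingLp (f := fun _ : ℝ => h)
    (g := fun t : ℝ => (⟨fun s : ℝ => s - t, by fun_prop⟩ : C(ℝ, ℝ))) continuous_const hg
    (fun t => mp_sub t) ENNReal.one_ne_top

/-- strong continuity of the weighted translation group -/
theorem Tg_cont {ε : ℝ} (hε : 0 ≤ ε) (h : LR 𝕜) : Continuous fun t : ℝ => Tg hε t h := by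
  rw [continuous_iff_continuousAt]
  intro t0
  rw [ContinuousAt, tendsto_iff_norm_sub_tendsto_zero]
  set τ : ℝ → LR 𝕜 := fun t => Lp.compMeasurePreserving _ (mp_sub t) h with hτ
  have hτc : Continuous τ := trans_cont h
  -- the estimate
  have key : ∀ t, ‖Tg hε t h - Tg hε t0 h‖ ≤
      Real.exp (ε * |t|) * ‖τ t - τ t0‖ +
        Real.exp (ε * |t| + ε * |t0|) * (ε * |t - t0|) * ‖h‖ := by
    intro t
    set d : ℝ → 𝕜 := fun s => ((Real.exp (lw ε s - lw ε (s - t)) -
      Real.exp (lw ε s - lw ε (s - t0)) : ℝ) : 𝕜) * τ t0 s with hd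
    have hdb : ∀ s, |Real.exp (lw ε s - lw ε (s - t)) - Real.exp (lw ε s - lw ε (s - t0))| ≤
        Real.exp (ε * |t| + ε * |t0|) * (ε * |t - t0|) := by
      intro s
      have a1 := Real.exp_le_exp.1 (wt_le hε t s)
      have a2 := Real.exp_le_exp.1 (wt_le hε t0 s)
      have b1 : 0 ≤ ε * |t| := by positivity
      have b2 : 0 ≤ ε * |t0| := by positivity
      refine (exp_lip (c := ε * |t| + ε * |t0|) (by linarith) (by linarith)).trans ?_
      have h3 := lw_lip hε (s - t0) (s - t)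
      rw [show s - t0 - (s - t) = t - t0 by ring] at h3
      rw [show lw ε s - lw ε (s - t) - (lw ε s - lw ε (s - t0)) =
        lw ε (s - t0) - lw ε (s - t) by ring]
      gcongr
    have hdm : MemLp d 1 volume := by
      apply MemLp.of_le_mul (c := Real.exp (ε * |t| + ε * |t0|) * (ε * |t - t0|))
        (Lp.memLp (τ t0))
      · refine AEStronglyMeasurable.mul ?_ (Lp.memLp (τ t0)).1
        have := ((wt_cont (𝕜 := 𝕜) ε t).sub (wt_cont (𝕜 := 𝕜) ε t0)).aestronglyMeasurable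
          (μ := (volume : Measure ℝ))
        refine this.congr (Filter.Eventually.of_forall fun s => ?_)
        simp
      · refine Filter.Eventually.of_forall fun s => ?_
        rw [hd]
        simp only
        rw [norm_mul, RCLike.norm_ofReal]
        exact mul_le_mul_of_nonneg_right (hdb s) (norm_nonneg _)
    set D : LR 𝕜 := hdm.toLp d with hD
    have hDn : ‖D‖ ≤ Real.exp (ε * |t| + ε * |t0|) * (ε * |t - t0|) * ‖h‖ := by
      have h1 : ‖D‖ ≤ Real.exp (ε * |t| + ε * |t0|) * (ε * |t - t0|) * ‖τ t0‖ := by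
        apply Lp.norm_le_mul_norm_of_ae_le_mul
        filter_upwards [hdm.coeFn_toLp] with s h1
        rw [hD, h1, hd]
        simp only
        rw [norm_mul, RCLike.norm_ofReal]
        exact mul_le_mul_of_nonneg_right (hdb s) (norm_nonneg _)
      rwa [hτ, Lp.norm_compMeasurePreserving] at h1
    have hrest : ‖Tg hε t h - Tg hε t0 h - D‖ ≤ Real.exp (ε * |t|) * ‖τ t - τ t0‖ := by
      apply Lp.norm_le_mul_norm_of_ae_le_mul
      filter_upwards [Lp.coeFn_sub (Tg hε t h - Tg hε t0 h) D,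
        Lp.coeFn_sub (Tg hε t h) (Tg hε t0 h), Lp.coeFn_sub (τ t) (τ t0), Tg_ae hε t h,
        Tg_ae hε t0 h, hdm.coeFn_toLp, Lp.coeFn_compMeasurePreserving h (mp_sub t),
        Lp.coeFn_compMeasurePreserving h (mp_sub t0)] with s h1 h2 h3 h4 h5 h6 h7 h8
      rw [h1, Pi.sub_apply, h2, Pi.sub_apply, h3, Pi.sub_apply, h4, h5, hD, h6, hd]
      simp only [tfun]
      have e7 : τ t s = h (s - t) := h7
      have e8 : τ t0 s = h (s - t0) := h8
      rw [e7, e8]
      have : ((Real.exp (lw ε s - lw ε (s - t)) : ℝ) : 𝕜) * h (s - t) -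
          ((Real.exp (lw ε s - lw ε (s - t0)) : ℝ) : 𝕜) * h (s - t0) -
          ((Real.exp (lw ε s - lw ε (s - t)) - Real.exp (lw ε s - lw ε (s - t0)) : ℝ) : 𝕜) *
            h (s - t0) = ((Real.exp (lw ε s - lw ε (s - t)) : ℝ) : 𝕜) *
              (h (s - t) - h (s - t0)) := by
        rw [RCLike.ofReal_sub]; ring
      rw [this, norm_mul, RCLike.norm_ofReal, abs_of_pos (Real.exp_pos _)]
      exact mul_le_mul_of_nonneg_right (wt_le hε t s) (norm_nonneg _)
    calc ‖Tg hε t h - Tg hε t0 h‖ = ‖(Tg hε t h - Tg hε t0 h - D) + D‖ := by rw [sub_add_cancel]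
      _ ≤ ‖Tg hε t h - Tg hε t0 h - D‖ + ‖D‖ := norm_add_le _ _
      _ ≤ _ := add_le_add hrest hDn
  refine squeeze_zero (fun _ => norm_nonneg _) key ?_
  have hlim : Continuous fun t : ℝ => Real.exp (ε * |t|) * ‖τ t - τ t0‖ +
        Real.exp (ε * |t| + ε * |t0|) * (ε * |t - t0|) * ‖h‖ := by
    fun_prop
  have := hlim.tendsto t0
  simpa using this

end

end Pool.Agent.R212.GF
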