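import Mathlib
import Pool.Agent.R212.GF1

/-!
The change of variables between `(0,∞)` and `ℝ`.
-/

open MeasureTheory Set Filter Topology
open scoped ENNReal

namespace Pool.Agent.R212.GF

/-- the time coordinate of `y`: `∫_1^y dτ/r(τ)` -/
noncomputable def psi (ρ y : ℝ) : ℝ := min (Real.log y / ρ) (Real.log y)

/-- the inverse of `psi` -/
noncomputable def phi (ρ s : ℝ) : ℝ := Real.exp (max (ρ * s) s)

/-- the growth rate -/
noncomputable def rr (ρ y : ℝ) : ℝ := if y < 1 then ρ * y else y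

section

variable {ρ : ℝ} (hρ : 0 < ρ) (hρ1 : ρ ≤ 1)

include hρ

theorem rr_pos {y : ℝ} (hy : 0 < y) : 0 < rr ρ y := by
  unfold rr; split_ifs <;> positivity

include hρ1

theorem psi_of_lt {y : ℝ} (hy : 0 < y) (hy1 : y ≤ 1) : psi ρ y = Real.log y / ρ := by
  unfold psi
  apply min_eq_left
  have h := Real.log_nonpos hy.le hy1
  rw [div_le_iff₀ hρ]
  nlinarith

theorem psi_of_ge {y : ℝ} (hy1 : 1 ≤ y) : psi ρ y = Real.log y := by
  unfold psi
  apply min_eq_right
  have h := Real.log_nonneg hy1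
  rw [le_div_iff₀ hρ]
  nlinarith

omit hρ in
theorem phi_of_neg {s : ℝ} (hs : s ≤ 0) : phi ρ s = Real.exp (ρ * s) := by
  unfold phi
  rw [max_eq_left (by nlinarith)]

omit hρ in
theorem phi_of_nonneg {s : ℝ} (hs : 0 ≤ s) : phi ρ s = Real.exp s := by
  unfold phi
  rw [max_eq_right (by nlinarith)]

omit hρ hρ1 in
theorem phi_pos (s : ℝ) : 0 < phi ρ s := Real.exp_pos _

theorem psi_phi (s : ℝ) : psi ρ (phi ρ s) = s := by
  rcases le_total s 0 with hs | hs
  · rw [phi_of_neg hρ1 hs, psi_of_lt hρ hρ1 (Real.exp_pos _) (Real.exp_le_one_iff.2 (by nlinarith)),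
      Real.log_exp]
    field_simp
  · rw [phi_of_nonneg hρ1 hs, psi_of_ge hρ hρ1 (Real.one_le_exp hs), Real.log_exp]

theorem phi_psi {y : ℝ} (hy : 0 < y) : phi ρ (psi ρ y) = y := by
  rcases le_total y 1 with h | h
  · rw [psi_of_lt hρ hρ1 hy h, phi_of_neg hρ1 (div_nonpos_of_nonpos_of_nonneg
      (Real.log_nonpos hy.le h) hρ.le), mul_div_cancel₀ _ hρ.ne', Real.exp_log hy]
  · rw [psi_of_ge hρ hρ1 h, phi_of_nonneg hρ1 (Real.log_nonneg h), Real.exp_log hy]

omit hρ hρ1 in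
theorem phi_cont : Continuous (phi ρ) := by
  unfold phi; fun_prop

omit hρ hρ1 in
theorem psi_meas : Measurable (psi ρ) := by
  unfold psi; fun_prop

omit hρ hρ1 in
theorem psi_contOn : ContinuousOn (psi ρ) (Ioi 0) := by
  unfold psi
  have h : ContinuousOn Real.log (Ioi (0 : ℝ)) :=
    Real.continuousOn_log.mono fun x hx => ne_of_gt hx
  exact (h.div_const ρ).inf h

omit hρ hρ1 in
theorem rr_meas : Measurable (rr ρ) := by
  unfold rr
  exact Measurable.ite measurableSet_Iio (by fun_prop) measurable_id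

theorem psi_deriv {y : ℝ} (hy : 0 < y) (hy1 : y ≠ 1) : HasDerivAt (psi ρ) (1 / rr ρ y) y := by
  rcases lt_or_gt_of_ne hy1 with h | h
  · have h1 : HasDerivAt (fun y => Real.log y / ρ) (y⁻¹ / ρ) y :=
      (Real.hasDerivAt_log hy.ne').div_const ρ
    have h2 : y⁻¹ / ρ = 1 / rr ρ y := by
      unfold rr; rw [if_pos h]; field_simp
    rw [← h2]
    refine h1.congr_of_eventuallyEq ?_
    filter_upwards [Ioo_mem_nhds hy h] with z hz
    exact psi_of_lt hρ hρ1 hz.1 hz.2.le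
  · have h1 : HasDerivAt Real.log y⁻¹ y := Real.hasDerivAt_log hy.ne'
    have h2 : y⁻¹ = 1 / rr ρ y := by
      unfold rr; rw [if_neg (not_lt.2 h.le)]; simp
    rw [← h2]
    refine h1.congr_of_eventuallyEq ?_
    filter_upwards [Ioi_mem_nhds h] with z hz
    exact psi_of_ge hρ hρ1 (le_of_lt hz)

theorem phi_deriv {s : ℝ} (hs : s ≠ 0) : HasDerivAt (phi ρ) (rr ρ (phi ρ s)) s := by
  rcases lt_or_gt_of_ne hs with h | h
  · have h1 : HasDerivAt (fun s => Real.exp (ρ * s)) (Real.exp (ρ * s) * (ρ * 1)) s :=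
      ((hasDerivAt_id s).const_mul ρ).exp
    have h2 : Real.exp (ρ * s) * (ρ * 1) = rr ρ (phi ρ s) := by
      rw [phi_of_neg hρ1 h.le]
      unfold rr
      rw [if_pos (Real.exp_lt_one_iff.2 (by nlinarith))]
      ring
    rw [← h2]
    refine h1.congr_of_eventuallyEq ?_
    filter_upwards [Iio_mem_nhds h] with z hz
    exact phi_of_neg hρ1 (le_of_lt hz)
  · have h2 : Real.exp s = rr ρ (phi ρ s) := by
      rw [phi_of_nonneg hρ1 h.le]
      unfold rr
      rw [if_neg (not_lt.2 (Real.one_le_exp h.le))]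
    rw [← h2]
    refine (Real.hasDerivAt_exp s).congr_of_eventuallyEq ?_
    filter_upwards [Ioi_mem_nhds h] with z hz
    exact phi_of_nonneg hρ1 (le_of_lt hz)

theorem psi_one : psi ρ 1 = 0 := by
  rw [psi_of_ge hρ hρ1 le_rfl, Real.log_one]

theorem phi_zero : phi ρ 0 = 1 := by
  rw [phi_of_nonneg hρ1 le_rfl, Real.exp_zero]

/-- first change of variables -/
theorem cv1 (F : ℝ → ℝ≥0∞) :
    ∫⁻ y in Ioi (0 : ℝ), ENNReal.ofReal (1 / rr ρ y) * F (psi ρ y) = ∫⁻ s, F s := by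
  set S : Set ℝ := Ioi 0 \ {1} with hS
  have hSm : MeasurableSet S := measurableSet_Ioi.diff (measurableSet_singleton 1)
  have hinj : InjOn (psi ρ) S := by
    intro x hx y hy h
    have := congrArg (phi ρ) h
    rwa [phi_psi hρ hρ1 hx.1, phi_psi hρ hρ1 hy.1] at this
  have himg : psi ρ '' S = {0}ᶜ := by
    ext s
    simp only [mem_image, mem_compl_iff, mem_singleton_iff]
    constructor
    · rintro ⟨y, hy, rfl⟩ h0
      apply hy.2
      have := congrArg (phi ρ) h0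
      rw [phi_psi hρ hρ1 hy.1, phi_zero hρ hρ1] at this
      exact this
    · intro hs
      refine ⟨phi ρ s, ⟨phi_pos s, ?_⟩, psi_phi hρ hρ1 s⟩
      intro h1
      apply hs
      have h1 : phi ρ s = 1 := h1
      rw [← psi_phi hρ hρ1 s, h1, psi_one hρ hρ1]
  have h1 := lintegral_image_eq_lintegral_abs_deriv_mul hSm
    (fun y hy => (psi_deriv hρ hρ1 hy.1 hy.2).hasDerivWithinAt) hinj F
  rw [himg] at h1
  have h2 : ∫⁻ s in ({0}ᶜ : Set ℝ), F s = ∫⁻ s, F s := by
    have h3 : ∫⁻ s in ({0}ᶜ : Set ℝ), F s = ∫⁻ s in (univ : Set ℝ), F s := by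
      apply setLIntegral_congr
      rw [ae_eq_univ, compl_compl]
      exact measure_singleton 0
    rw [h3, setLIntegral_univ]
  have h3 : ∫⁻ y in S, ENNReal.ofReal |1 / rr ρ y| * F (psi ρ y) =
      ∫⁻ y in Ioi (0 : ℝ), ENNReal.ofReal (1 / rr ρ y) * F (psi ρ y) := by
    rw [setLIntegral_congr (t := Ioi 0) (s := S)]
    · apply setLIntegral_congr_fun measurableSet_Ioi
      intro y hy
      simp only
      rw [abs_of_pos (one_div_pos.2 (rr_pos hρ hy))]
    · rw [hS]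
      exact sdiff_null_ae_eq_self (measure_singleton 1)
  rw [← h2, h1, h3]

/-- second change of variables -/
theorem cv2 (G : ℝ → ℝ≥0∞) :
    ∫⁻ s, ENNReal.ofReal (rr ρ (phi ρ s)) * G (phi ρ s) = ∫⁻ y in Ioi (0 : ℝ), G y := by
  rw [← cv1 hρ hρ1]
  apply setLIntegral_congr_fun measurableSet_Ioi
  intro y hy
  simp only
  rw [phi_psi hρ hρ1 hy, ← mul_assoc, ← ENNReal.ofReal_mul (one_div_pos.2 (rr_pos hρ hy)).le,
    one_div_mul_cancel (rr_pos hρ hy).ne', ENNReal.ofReal_one, one_mul]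

end

theorem lint_mu1 (F : ℝ → ℝ≥0∞) (hF : AEMeasurable F (volume.restrict (Ioi (0 : ℝ)))) :
    ∫⁻ y, F y ∂mu1 = ∫⁻ y in Ioi (0 : ℝ), ENNReal.ofReal y * F y := by
  unfold mu1
  rw [lintegral_withDensity_eq_lintegral_mul₀ (by fun_prop) hF]
  rfl

theorem ae_mu1 {p : ℝ → Prop} : (∀ᵐ y ∂mu1, p y) ↔ ∀ᵐ y : ℝ, 0 < y → p y := by
  unfold mu1
  rw [ae_withDensity_iff (by fun_prop), ae_restrict_iff' measurableSet_Ioi]
  constructor
  · intro h
    filter_upwards [h] with y hy h0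
    exact hy h0 (ENNReal.ofReal_pos.2 h0).ne'
  · intro h
    filter_upwards [h] with y hy h0 _
    exact hy h0

section

variable {ρ : ℝ} (hρ : 0 < ρ) (hρ1 : ρ ≤ 1)

include hρ hρ1

/-- a.e. statements transfer from `ℝ` to `(0,∞)` -/
theorem ae_psi {p : ℝ → Prop} (h : ∀ᵐ s, p s) : ∀ᵐ y : ℝ, 0 < y → p (psi ρ y) := by
  obtain ⟨N, hN, hNm, hN0⟩ := exists_measurable_superset_of_null (ae_iff.1 h)
  have h1 := cv1 hρ hρ1 (N.indicator 1)
  rw [lintegral_indicator_one hNm, hN0] at h1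
  rw [lintegral_eq_zero_iff] at h1
  · change ∀ᵐ y : ℝ, y ∈ Ioi (0 : ℝ) → p (psi ρ y)
    rw [← ae_restrict_iff' measurableSet_Ioi]
    filter_upwards [h1, ae_restrict_mem measurableSet_Ioi] with y hy hy0
    by_contra hp
    have h2 : psi ρ y ∈ N := hN hp
    rw [Pi.zero_apply, indicator_of_mem h2, Pi.one_apply, mul_one] at hy
    exact (ENNReal.ofReal_pos.2 (one_div_pos.2 (rr_pos hρ hy0))).ne' hy
  · exact (ENNReal.measurable_ofReal.comp (measurable_const.div rr_meas)).mul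
      ((measurable_one.indicator hNm).comp psi_meas)

/-- a.e. statements transfer from `(0,∞)` to `ℝ` -/
theorem ae_phi {p : ℝ → Prop} (h : ∀ᵐ y : ℝ, 0 < y → p y) : ∀ᵐ s : ℝ, p (phi ρ s) := by
  obtain ⟨N, hN, hNm, hN0⟩ := exists_measurable_superset_of_null (ae_iff.1 h)
  have h1 := cv2 hρ hρ1 (N.indicator 1)
  have h2 : ∫⁻ y in Ioi (0 : ℝ), N.indicator 1 y = 0 := by
    rw [lintegral_indicator_one hNm]
    exact le_antisymm ((Measure.restrict_apply_le _ _).trans hN0.le) bot_le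
  rw [h2, lintegral_eq_zero_iff] at h1
  · filter_upwards [h1] with s hs
    by_contra hp
    have h3 : phi ρ s ∈ N := hN (by
      simp only [mem_ofPred_eq]
      push Not
      exact ⟨phi_pos s, hp⟩)
    rw [Pi.zero_apply, indicator_of_mem h3, Pi.one_apply, mul_one] at hs
    exact (ENNReal.ofReal_pos.2 (rr_pos hρ (phi_pos s))).ne' hs
  · exact (ENNReal.measurable_ofReal.comp (rr_meas.comp phi_cont.measurable)).mul
      ((measurable_one.indicator hNm).comp phi_cont.measurable)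

end

end Pool.Agent.R212.GF
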