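import Mathlib
import Pool.Agent.R212.GF9
import Pool.Agent.R212.GF7

/-!
The isometry between `L^1(ℝ)` and `X_1`.
-/

open MeasureTheory Set Filter Topology
open scoped ENNReal

namespace Pool.Agent.R212.GF

variable {𝕜 : Type} [RCLike 𝕜]

theorem enorm_ofReal_mul {c : ℝ} (hc : 0 ≤ c) (z : 𝕜) :
    ‖((c : ℝ) : 𝕜) * z‖ₑ = ENNReal.ofReal c * ‖z‖ₑ := by
  rw [← ofReal_norm_eq_enorm, norm_mul, RCLike.norm_ofReal, abs_of_nonneg hc,
    ENNReal.ofReal_mul hc, ofReal_norm_eq_enorm]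

/-- `h ↦ h(ψ(y)) / (r(y) y)` -/
noncomputable def Jf (ρ : ℝ) (h : ℝ → 𝕜) (y : ℝ) : 𝕜 :=
  ((1 / (rr ρ y * y) : ℝ) : 𝕜) * h (psi ρ y)

/-- `f ↦ r(φ(s)) φ(s) f(φ(s))` -/
noncomputable def Ji (ρ : ℝ) (f : ℝ → 𝕜) (s : ℝ) : 𝕜 :=
  ((rr ρ (phi ρ s) * phi ρ s : ℝ) : 𝕜) * f (phi ρ s)

section

variable {ρ : ℝ} (hρ : 0 < ρ) (hρ1 : ρ ≤ 1)

include hρ hρ1

theorem Jf_eLpNorm (h : LR 𝕜) : eLpNorm (Jf ρ h) 1 mu1 = eLpNorm h 1 volume := by
  have hm : Measurable (h : ℝ → 𝕜) := (Lp.stronglyMeasurable h).measurable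
  rw [eLpNorm_one_eq_lintegral_enorm, eLpNorm_one_eq_lintegral_enorm, lint_mu1,
    ← cv1 hρ hρ1 (fun s => ‖h s‖ₑ)]
  · apply setLIntegral_congr_fun measurableSet_Ioi
    intro y hy
    have hy : 0 < y := hy
    simp only
    have hr := rr_pos hρ hy
    unfold Jf
    rw [enorm_ofReal_mul (by positivity), ← mul_assoc, ← ENNReal.ofReal_mul hy.le]
    congr 2
    field_simp
  · apply Measurable.aemeasurable
    apply Measurable.enorm
    unfold Jf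
    apply Measurable.mul
    · exact RCLike.continuous_ofReal.measurable.comp
        (measurable_const.div (rr_meas.mul measurable_id))
    · exact hm.comp psi_meas

theorem Jf_memLp (h : LR 𝕜) : MemLp (Jf ρ h) 1 mu1 := by
  have hm : Measurable (h : ℝ → 𝕜) := (Lp.stronglyMeasurable h).measurable
  refine ⟨?_, ?_⟩
  · apply Measurable.aestronglyMeasurable
    unfold Jf
    apply Measurable.mul
    · exact RCLike.continuous_ofReal.measurable.comp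
        (measurable_const.div (rr_meas.mul measurable_id))
    · exact hm.comp psi_meas
  · rw [Jf_eLpNorm hρ hρ1]
    exact Lp.eLpNorm_lt_top h

theorem Ji_memLp (f : X1 𝕜) : MemLp (Ji ρ f) 1 volume := by
  have hm : Measurable (f : ℝ → 𝕜) := (Lp.stronglyMeasurable f).measurable
  have hmm : Measurable (Ji ρ f) := by
    unfold Ji
    apply Measurable.mul
    · exact RCLike.continuous_ofReal.measurable.comp
        ((rr_meas.comp phi_cont.measurable).mul phi_cont.measurable)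
    · exact hm.comp phi_cont.measurable
  refine ⟨hmm.aestronglyMeasurable, ?_⟩
  have h1 : eLpNorm (Ji ρ f) 1 volume = eLpNorm f 1 mu1 := by
    rw [eLpNorm_one_eq_lintegral_enorm, eLpNorm_one_eq_lintegral_enorm, lint_mu1 _ hm.enorm.aemeasurable,
      ← cv2 hρ hρ1]
    congr 1
    ext s
    have h2 := phi_pos (ρ := ρ) s
    have h3 := rr_pos hρ h2
    unfold Ji
    rw [enorm_ofReal_mul (by positivity), ENNReal.ofReal_mul h3.le, mul_assoc]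
  rw [h1]
  exact Lp.eLpNorm_lt_top f

/-- a.e. statement on `X_1` from `ℝ` -/
theorem ae_psi' {p : ℝ → Prop} (h : ∀ᵐ s, p s) : ∀ᵐ y ∂mu1, p (psi ρ y) :=
  ae_mu1.2 (ae_psi hρ hρ1 h)

theorem ae_phi' {p : ℝ → Prop} (h : ∀ᵐ y ∂mu1, p y) : ∀ᵐ s : ℝ, p (phi ρ s) :=
  ae_phi hρ hρ1 (ae_mu1.1 h)

/-- the isometry `J` -/
noncomputable def J0 : LR 𝕜 →ₗᵢ[𝕜] X1 𝕜 where
  toFun h := (Jf_memLp hρ hρ1 h).toLp _
  map_add' := by
    intro h k
    ext1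
    filter_upwards [(Jf_memLp hρ hρ1 (h + k)).coeFn_toLp, (Jf_memLp hρ hρ1 h).coeFn_toLp,
      (Jf_memLp hρ hρ1 k).coeFn_toLp, Lp.coeFn_add ((Jf_memLp hρ hρ1 h).toLp _)
        ((Jf_memLp hρ hρ1 k).toLp _), ae_psi' hρ hρ1 (Lp.coeFn_add h k)] with y h1 h2 h3 h4 h5
    rw [h1, h4, Pi.add_apply, h2, h3]
    unfold Jf
    rw [h5, Pi.add_apply, mul_add]
  map_smul' := by
    intro c h
    ext1
    simp only [RingHom.id_apply]
    filter_upwards [(Jf_memLp hρ hρ1 (c • h)).coeFn_toLp, (Jf_memLp hρ hρ1 h).coeFn_toLp,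
      Lp.coeFn_smul c ((Jf_memLp hρ hρ1 h).toLp _),
      ae_psi' hρ hρ1 (Lp.coeFn_smul c h)] with y h1 h2 h3 h4
    rw [h1, h3, Pi.smul_apply, h2]
    unfold Jf
    rw [h4, Pi.smul_apply, smul_eq_mul, smul_eq_mul]
    ring
  norm_map' := by
    intro h
    simp only [LinearMap.coe_mk, AddHom.coe_mk]
    rw [Lp.norm_toLp, Jf_eLpNorm hρ hρ1, Lp.norm_def]

theorem J0_ae (h : LR 𝕜) : J0 hρ hρ1 h =ᵐ[mu1] Jf ρ h := (Jf_memLp hρ hρ1 h).coeFn_toLp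

theorem J0_surj : Function.Surjective (J0 hρ hρ1 : LR 𝕜 → X1 𝕜) := by
  intro f
  refine ⟨(Ji_memLp hρ hρ1 f).toLp _, ?_⟩
  ext1
  filter_upwards [J0_ae hρ hρ1 ((Ji_memLp hρ hρ1 f).toLp _),
    ae_psi' hρ hρ1 (Ji_memLp hρ hρ1 f).coeFn_toLp, ae_mu1.2 (Filter.Eventually.of_forall
      fun y (hy : 0 < y) => hy)] with y h1 h2 hy
  rw [h1]
  unfold Jf
  rw [h2]
  unfold Ji
  rw [phi_psi hρ hρ1 hy, ← mul_assoc, ← RCLike.ofReal_mul]
  have := rr_pos hρ hy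
  rw [one_div_mul_cancel (by positivity), RCLike.ofReal_one, one_mul]

/-- the isometric isomorphism `J : L^1(ℝ) → X_1` -/
noncomputable def J : LR 𝕜 ≃ₗᵢ[𝕜] X1 𝕜 :=
  LinearIsometryEquiv.ofSurjective (J0 hρ hρ1) (J0_surj hρ hρ1)

theorem J_ae (h : LR 𝕜) : J hρ hρ1 h =ᵐ[mu1] Jf ρ h := J0_ae hρ hρ1 h

theorem Jsymm_ae (f : X1 𝕜) : (J hρ hρ1).symm f =ᵐ[volume] Ji ρ f := by
  have h1 : (J hρ hρ1).symm f = (Ji_memLp hρ hρ1 f).toLp _ := by
    rw [LinearIsometryEquiv.symm_apply_eq]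
    ext1
    filter_upwards [J_ae hρ hρ1 ((Ji_memLp hρ hρ1 f).toLp _),
      ae_psi' hρ hρ1 (Ji_memLp hρ hρ1 f).coeFn_toLp, ae_mu1.2 (Filter.Eventually.of_forall
        fun y (hy : 0 < y) => hy)] with y h1 h2 hy
    rw [h1]
    unfold Jf
    rw [h2]
    unfold Ji
    rw [phi_psi hρ hρ1 hy, ← mul_assoc, ← RCLike.ofReal_mul]
    have := rr_pos hρ hy
    rw [one_div_mul_cancel (by positivity), RCLike.ofReal_one, one_mul]
  rw [h1]
  exact MemLp.coeFn_toLp _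

end

end Pool.Agent.R212.GF
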