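import Mathlib
import Pool.Agent.R212.GF2

/-!
Bounded rank-one perturbation of a strongly continuous group: the perturbed group.
-/

open MeasureTheory Set Filter Topology BoundedContinuousFunction
open scoped ENNReal

namespace Pool.Agent.R212.GF

section abs

variable {𝕜 E : Type} [RCLike 𝕜] [NormedAddCommGroup E] [NormedSpace 𝕜 E] [NormedSpace ℝ E]
  [CompleteSpace E]

/-- the exponential weight -/
noncomputable def mm (φ : E →L[𝕜] 𝕜) (g : E) : ℝ := 2 * (‖φ‖ * ‖g‖) + 2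

omit [NormedSpace ℝ E] [CompleteSpace E] in
theorem mm_gt (φ : E →L[𝕜] 𝕜) (g : E) : 1 < mm φ g := by
  unfold mm; have : 0 ≤ ‖φ‖ * ‖g‖ := by positivity
  linarith

theorem Kop_lt {U : ℝ → E →L[𝕜] E} (hU : Grp U) (φ : E →L[𝕜] 𝕜) (g : E) :
    ‖Kop hU φ g (mm_gt φ g)‖ < 1 := by
  refine (Kop_norm hU φ g (mm_gt φ g)).trans_lt ?_
  have h0 : 0 ≤ ‖φ‖ * ‖g‖ := by positivity
  rw [div_lt_one (by unfold mm; linarith)]
  unfold mm; linarith

/-- the inverse of `1 - K` -/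
noncomputable def Rop {U : ℝ → E →L[𝕜] E} (hU : Grp U) (φ : E →L[𝕜] 𝕜) (g : E) :
    (ℝ →ᵇ E) →L[𝕜] (ℝ →ᵇ E) :=
  ((Units.oneSub (Kop hU φ g (mm_gt φ g)) (Kop_lt hU φ g))⁻¹ : ((ℝ →ᵇ E) →L[𝕜] (ℝ →ᵇ E))ˣ)

theorem Rop_eq {U : ℝ → E →L[𝕜] E} (hU : Grp U) (φ : E →L[𝕜] 𝕜) (g : E) (w : ℝ →ᵇ E) :
    Rop hU φ g w - Kop hU φ g (mm_gt φ g) (Rop hU φ g w) = w := by
  have h := (Units.oneSub (Kop hU φ g (mm_gt φ g)) (Kop_lt hU φ g)).mul_inv
  have h2 := congrArg (fun T : (ℝ →ᵇ E) →L[𝕜] (ℝ →ᵇ E) => T w) h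
  simpa [Rop] using h2

theorem Rop_eq' {U : ℝ → E →L[𝕜] E} (hU : Grp U) (φ : E →L[𝕜] 𝕜) (g : E) (w : ℝ →ᵇ E) :
    Rop hU φ g (w - Kop hU φ g (mm_gt φ g) w) = w := by
  have h := (Units.oneSub (Kop hU φ g (mm_gt φ g)) (Kop_lt hU φ g)).inv_mul
  have h2 := congrArg (fun T : (ℝ →ᵇ E) →L[𝕜] (ℝ →ᵇ E) => T w) h
  simpa [Rop] using h2

/-- the perturbed group -/
noncomputable def Vop {U : ℝ → E →L[𝕜] E} (hU : Grp U) (φ : E →L[𝕜] 𝕜) (g : E) (t : ℝ) :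
    E →L[𝕜] E :=
  ((Real.exp (mm φ g * |t|) : ℝ) : 𝕜) •
    ((BoundedContinuousFunction.evalCLM 𝕜 t).comp ((Rop hU φ g).comp (Uw hU (mm_gt φ g))))

theorem Vop_apply {U : ℝ → E →L[𝕜] E} (hU : Grp U) (φ : E →L[𝕜] 𝕜) (g : E) (t : ℝ) (f : E) :
    Vop hU φ g t f = ((Real.exp (mm φ g * |t|) : ℝ) : 𝕜) • Rop hU φ g (Uw hU (mm_gt φ g) f) t :=
  rfl

theorem Rop_Vop {U : ℝ → E →L[𝕜] E} (hU : Grp U) (φ : E →L[𝕜] 𝕜) (g : E) (t : ℝ) (f : E) :
    Rop hU φ g (Uw hU (mm_gt φ g) f) t =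
      ((Real.exp (-mm φ g * |t|) : ℝ) : 𝕜) • Vop hU φ g t f := by
  rw [Vop_apply, smul_smul, ← RCLike.ofReal_mul, ← Real.exp_add]
  simp

theorem Vop_cont {U : ℝ → E →L[𝕜] E} (hU : Grp U) (φ : E →L[𝕜] 𝕜) (g : E) (f : E) :
    Continuous fun t => Vop hU φ g t f := by
  simp only [Vop_apply]
  have h2 : Continuous fun t : ℝ => ((Real.exp (mm φ g * |t|) : ℝ) : 𝕜) := by
    apply RCLike.continuous_ofReal.comp
    fun_prop
  exact h2.smul (BoundedContinuousFunction.continuous _)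

/-- weights for `s` between `0` and `t` -/
theorem weight {m t s : ℝ} (hs : s ∈ uIcc 0 t) :
    Real.exp (m * |t|) * Real.exp (-m * |t - s|) = Real.exp (m * |s|) := by
  rw [← Real.exp_add]
  congr 1
  have : |t| = |t - s| + |s| := by
    rcases le_total 0 t with ht | ht
    · rw [uIcc_of_le ht] at hs
      rw [abs_of_nonneg ht, abs_of_nonneg hs.1, abs_of_nonneg (by linarith [hs.2])]
      ring
    · rw [uIcc_of_ge ht] at hs
      rw [abs_of_nonpos ht, abs_of_nonpos hs.2, abs_of_nonpos (by linarith [hs.1])]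
      ring
  rw [this]; ring

/-- Duhamel's formula -/
theorem Vop_duhamel {U : ℝ → E →L[𝕜] E} (hU : Grp U) (φ : E →L[𝕜] 𝕜) (g : E) (t : ℝ) (f : E) :
    Vop hU φ g t f = U t f + ∫ s in (0 : ℝ)..t, φ (Vop hU φ g s f) • U (t - s) g := by
  have h := congrArg (fun w : ℝ →ᵇ E => w t) (Rop_eq hU φ g (Uw hU (mm_gt φ g) f))
  simp only [BoundedContinuousFunction.coe_sub, Pi.sub_apply] at h
  rw [Uw_apply, Kop_apply, Rop_Vop] at h
  have h2 := congrArg (fun x : E => ((Real.exp (mm φ g * |t|) : ℝ) : 𝕜) • x) h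
  simp only [smul_sub, smul_smul, ← RCLike.ofReal_mul, ← Real.exp_add] at h2
  rw [show mm φ g * |t| + -mm φ g * |t| = 0 by ring, Real.exp_zero, RCLike.ofReal_one,
    one_smul, one_smul] at h2
  rw [← h2, ← intervalIntegral.integral_smul, sub_add]
  rw [eq_sub_iff_add_eq, add_eq_left, sub_eq_zero]
  apply intervalIntegral.integral_congr
  intro s hs
  simp only [Fk]
  rw [smul_smul, ← mul_assoc, ← RCLike.ofReal_mul, weight hs, Rop_Vop, map_smul, smul_eq_mul,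
    ← mul_assoc, ← RCLike.ofReal_mul, ← Real.exp_add]
  simp

/-- uniqueness for Duhamel's formula -/
theorem Vop_unique {U : ℝ → E →L[𝕜] E} (hU : Grp U) (φ : E →L[𝕜] 𝕜) (g : E) (f : E)
    {v : ℝ → E} (hv : Continuous v) {C : ℝ} (hC : ∀ t, ‖v t‖ ≤ C * Real.exp (mm φ g * |t|))
    (hd : ∀ t, v t = U t f + ∫ s in (0 : ℝ)..t, φ (v s) • U (t - s) g) (t : ℝ) :
    v t = Vop hU φ g t f := by
  have hcw : Continuous fun t : ℝ => ((Real.exp (-mm φ g * |t|) : ℝ) : 𝕜) := by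
    apply RCLike.continuous_ofReal.comp
    fun_prop
  set w : ℝ →ᵇ E := BoundedContinuousFunction.ofNormedAddCommGroup
    (fun t => ((Real.exp (-mm φ g * |t|) : ℝ) : 𝕜) • v t) (hcw.smul hv) C (by
      intro t
      rw [norm_smul, RCLike.norm_ofReal, abs_of_pos (Real.exp_pos _)]
      calc Real.exp (-mm φ g * |t|) * ‖v t‖ ≤ Real.exp (-mm φ g * |t|) *
            (C * Real.exp (mm φ g * |t|)) := by gcongr; exact hC t
        _ = C * (Real.exp (-mm φ g * |t|) * Real.exp (mm φ g * |t|)) := by ring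
        _ = C := by rw [← Real.exp_add]; simp) with hw
  have hwa : ∀ t, w t = ((Real.exp (-mm φ g * |t|) : ℝ) : 𝕜) • v t := fun _ => rfl
  have h1 : w - Kop hU φ g (mm_gt φ g) w = Uw hU (mm_gt φ g) f := by
    ext t
    rw [BoundedContinuousFunction.sub_apply, Uw_apply, Kop_apply, hwa, sub_eq_iff_eq_add]
    conv_lhs => rw [hd t]
    rw [smul_add, ← intervalIntegral.integral_smul]
    congr 1
    apply intervalIntegral.integral_congr
    intro s hs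
    simp only [Fk, hwa]
    rw [map_smul, smul_eq_mul, smul_smul, ← mul_assoc, ← RCLike.ofReal_mul]
    congr 2
    congr 1
    have := weight (m := mm φ g) hs
    rw [neg_mul, neg_mul, neg_mul, Real.exp_neg, Real.exp_neg, Real.exp_neg, ← this, neg_mul,
      Real.exp_neg]
    have e1 := (Real.exp_pos (mm φ g * |t|)).ne'
    have e2 := (Real.exp_pos (mm φ g * |t - s|)).ne'
    field_simp
  have h2 := Rop_eq' hU φ g w
  rw [h1] at h2
  rw [Vop_apply, h2, hwa, smul_smul, ← RCLike.ofReal_mul, ← Real.exp_add]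
  simp

theorem Vop_bound {U : ℝ → E →L[𝕜] E} (hU : Grp U) (φ : E →L[𝕜] 𝕜) (g : E) :
    ∃ C : ℝ, 0 ≤ C ∧ ∀ t f, ‖Vop hU φ g t f‖ ≤ C * Real.exp (mm φ g * |t|) * ‖f‖ := by
  refine ⟨‖Rop hU φ g‖ * ‖Uw hU (mm_gt φ g)‖, by positivity, fun t f => ?_⟩
  rw [Vop_apply, norm_smul, RCLike.norm_ofReal, abs_of_pos (Real.exp_pos _)]
  have h1 : ‖Rop hU φ g (Uw hU (mm_gt φ g) f) t‖ ≤ ‖Rop hU φ g‖ * ‖Uw hU (mm_gt φ g)‖ * ‖f‖ :=
    ((Rop hU φ g (Uw hU (mm_gt φ g) f)).norm_coe_le_norm t).trans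
      (((Rop hU φ g).le_opNorm _).trans (by
        rw [mul_assoc]; gcongr; exact (Uw hU (mm_gt φ g)).le_opNorm f))
  calc Real.exp (mm φ g * |t|) * ‖Rop hU φ g (Uw hU (mm_gt φ g) f) t‖
      ≤ Real.exp (mm φ g * |t|) * (‖Rop hU φ g‖ * ‖Uw hU (mm_gt φ g)‖ * ‖f‖) := by gcongr
    _ = _ := by ring

end abs

end Pool.Agent.R212.GF
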