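import Mathlib
import Pool.Agent.R212.GF3

/-!
The perturbed group: group law, generator, compactness of the perturbation, positivity.
-/

open MeasureTheory Set Filter Topology BoundedContinuousFunction
open scoped ENNReal Pointwise

namespace Pool.Agent.R212.GF

section abs

variable {𝕜 E : Type} [RCLike 𝕜] [NormedAddCommGroup E] [NormedSpace 𝕜 E] [NormedSpace ℝ E]
  [CompleteSpace E]

theorem integrand_cont {U : ℝ → E →L[𝕜] E} (hU : Grp U) (φ : E →L[𝕜] 𝕜) (g : E) (f : E)
    (t : ℝ) : Continuous fun s => φ (Vop hU φ g s f) • U (t - s) g :=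
  (φ.continuous.comp (Vop_cont hU φ g f)).smul ((hU.cont g).comp (continuous_const.sub continuous_id))

theorem Vop_add {U : ℝ → E →L[𝕜] E} (hU : Grp U) (φ : E →L[𝕜] 𝕜) (g : E) (s t : ℝ) (f : E) :
    Vop hU φ g (s + t) f = Vop hU φ g t (Vop hU φ g s f) := by
  obtain ⟨C, hC0, hC⟩ := Vop_bound hU φ g
  refine Vop_unique hU φ g (Vop hU φ g s f) (v := fun t => Vop hU φ g (s + t) f)
    ((Vop_cont hU φ g f).comp (continuous_const.add continuous_id))
    (C := C * Real.exp (mm φ g * |s|) * ‖f‖) ?_ ?_ t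
  · intro t
    refine (hC (s + t) f).trans ?_
    have h1 : Real.exp (mm φ g * |s + t|) ≤ Real.exp (mm φ g * |s|) * Real.exp (mm φ g * |t|) := by
      rw [← Real.exp_add]
      apply Real.exp_le_exp.2
      have := abs_add_le s t
      have hm := mm_gt φ g
      nlinarith
    calc C * Real.exp (mm φ g * |s + t|) * ‖f‖
        ≤ C * (Real.exp (mm φ g * |s|) * Real.exp (mm φ g * |t|)) * ‖f‖ := by gcongr
      _ = _ := by ring
  · intro t
    have hi : ∀ a b, IntervalIntegrable (fun σ => φ (Vop hU φ g σ f) • U (s + t - σ) g)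
        volume a b := fun a b => (integrand_cont hU φ g f (s + t)).intervalIntegrable a b
    rw [Vop_duhamel hU φ g (s + t) f, Vop_duhamel hU φ g s f, map_add]
    rw [← ContinuousLinearMap.intervalIntegral_comp_comm (U t)
      ((integrand_cont hU φ g f s).intervalIntegrable 0 s)]
    rw [← intervalIntegral.integral_add_adjacent_intervals (hi 0 s) (hi s (s + t))]
    have e1 : U (s + t) f = U t (U s f) := by
      rw [add_comm, hU.add]; rfl
    have e2 : (∫ σ in (0 : ℝ)..s, φ (Vop hU φ g σ f) • U (s + t - σ) g) =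
        ∫ σ in (0 : ℝ)..s, U t (φ (Vop hU φ g σ f) • U (s - σ) g) := by
      congr 1
      ext σ
      rw [map_smul, show s + t - σ = t + (s - σ) by ring, hU.add]
      rfl
    have e3 : (∫ σ in s..(s + t), φ (Vop hU φ g σ f) • U (s + t - σ) g) =
        ∫ σ in (0 : ℝ)..t, φ (Vop hU φ g (s + σ) f) • U (t - σ) g := by
      have := intervalIntegral.integral_comp_add_left (a := 0) (b := t)
        (fun σ => φ (Vop hU φ g σ f) • U (s + t - σ) g) s
      rw [add_zero] at this
      rw [← this]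
      congr 1
      ext σ
      rw [show s + t - (s + σ) = t - σ by ring]
    rw [e1, e2, e3, add_assoc]

theorem Vop_zero {U : ℝ → E →L[𝕜] E} (hU : Grp U) (φ : E →L[𝕜] 𝕜) (g : E) :
    Vop hU φ g 0 = ContinuousLinearMap.id 𝕜 E := by
  ext f
  rw [Vop_duhamel, intervalIntegral.integral_same, add_zero, hU.zero]

theorem Vop_isC0 {U : ℝ → E →L[𝕜] E} (hU : Grp U) (φ : E →L[𝕜] 𝕜) (g : E) :
    IsC0 (Vop hU φ g) where
  zero := Vop_zero hU φ g
  add := by
    intro s t _ _
    ext f
    rw [add_comm, Vop_add]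
    rfl
  cont := fun f => (Vop_cont hU φ g f).continuousOn

theorem Vop_pow {U : ℝ → E →L[𝕜] E} (hU : Grp U) (φ : E →L[𝕜] 𝕜) (g : E) (t : ℝ) (n : ℕ) :
    (Vop hU φ g t) ^ n = Vop hU φ g (n * t) := by
  induction n with
  | zero => simp only [pow_zero, Nat.cast_zero, zero_mul, Vop_zero]; rfl
  | succ n ih =>
    rw [pow_succ', ih]
    ext f
    rw [show ((n + 1 : ℕ) : ℝ) * t = n * t + t by push_cast; ring, Vop_add]
    rfl

/-- the difference quotients of the perturbation converge to the perturbation -/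
theorem quot_tendsto {U : ℝ → E →L[𝕜] E} (hU : Grp U) (φ : E →L[𝕜] 𝕜) (g : E) (f : E) :
    Tendsto (fun t : ℝ => ((t⁻¹ : ℝ) : 𝕜) • (Vop hU φ g t f - U t f)) (𝓝[>] 0)
      (𝓝 (φ f • g)) := by
  have hF : Continuous (Function.uncurry fun t s : ℝ => φ (Vop hU φ g s f) • U (t - s) g) := by
    have h1 : Continuous fun p : ℝ × ℝ => U (p.1 - p.2) g :=
      (hU.cont g).comp (continuous_fst.sub continuous_snd)
    have h3 : Continuous fun p : ℝ × ℝ => φ (Vop hU φ g p.2 f) :=
      φ.continuous.comp ((Vop_cont hU φ g f).comp continuous_snd)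
    exact h3.smul h1
  have h0 : (fun t s : ℝ => φ (Vop hU φ g s f) • U (t - s) g) 0 0 = φ f • g := by
    simp only [sub_self, Vop_zero, hU.zero, ContinuousLinearMap.id_apply]
  rw [Metric.tendsto_nhdsWithin_nhds]
  intro ε hε
  have hc := (hF.tendsto (0, 0))
  rw [Metric.tendsto_nhds_nhds] at hc
  obtain ⟨δ, hδ, hd⟩ := hc (ε / 2) (by positivity)
  refine ⟨δ, hδ, fun {t} ht hdt => ?_⟩
  have ht0 : (0 : ℝ) < t := ht
  rw [Vop_duhamel, add_sub_cancel_left, dist_eq_norm]
  rw [Real.dist_eq, sub_zero, abs_of_pos ht0] at hdt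
  have e1 : ((t⁻¹ : ℝ) : 𝕜) • (∫ s in (0 : ℝ)..t, φ (Vop hU φ g s f) • U (t - s) g) - φ f • g =
      ((t⁻¹ : ℝ) : 𝕜) • (∫ s in (0 : ℝ)..t, (φ (Vop hU φ g s f) • U (t - s) g - φ f • g)) := by
    rw [intervalIntegral.integral_sub ((integrand_cont hU φ g f t).intervalIntegrable 0 t)
      intervalIntegrable_const, smul_sub]
    congr 1
    have : (∫ _ in (0 : ℝ)..t, φ f • g) = ∫ _ in (0 : ℝ)..t, (φ f • g) := rfl
    have h5 : (∫ _ in (0 : ℝ)..t, ((t⁻¹ : ℝ) : 𝕜) • (φ f • g)) = φ f • g := by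
      rw [intervalIntegral.integral_const, sub_zero, RCLike.real_smul_eq_coe_smul (K := 𝕜),
        smul_smul, ← RCLike.ofReal_mul, mul_inv_cancel₀ ht0.ne', RCLike.ofReal_one, one_smul]
    rw [← intervalIntegral.integral_smul, h5]
  rw [e1, norm_smul, RCLike.norm_ofReal, abs_of_pos (inv_pos.2 ht0)]
  have h6 : ‖∫ s in (0 : ℝ)..t, (φ (Vop hU φ g s f) • U (t - s) g - φ f • g)‖ ≤
      (ε / 2) * |t - 0| := by
    apply intervalIntegral.norm_integral_le_of_norm_le_const
    intro s hs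
    rw [uIoc_of_le ht0.le] at hs
    have h7 := hd (x := (t, s)) (by
      rw [Prod.dist_eq, Real.dist_eq, Real.dist_eq, sub_zero, sub_zero]
      simp only [max_lt_iff]
      rw [abs_of_pos ht0, abs_of_pos hs.1]
      exact ⟨hdt, hs.2.trans_lt hdt⟩)
    rw [dist_eq_norm] at h7
    simp only [Function.uncurry_apply_pair, sub_self, Vop_zero, hU.zero,
      ContinuousLinearMap.id_apply] at h7
    exact h7.le
  rw [sub_zero, abs_of_pos ht0] at h6
  calc t⁻¹ * ‖∫ s in (0 : ℝ)..t, (φ (Vop hU φ g s f) • U (t - s) g - φ f • g)‖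
      ≤ t⁻¹ * ((ε / 2) * t) := by gcongr
    _ = ε / 2 := by field_simp
    _ < ε := by linarith

end abs

end Pool.Agent.R212.GF
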