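import Mathlib
import Pool.Agent.R212.GF4

/-!
The perturbed group: generator, compactness of the perturbation, essential type, growth bound.
-/

open MeasureTheory Set Filter Topology BoundedContinuousFunction
open scoped ENNReal Pointwise

namespace Pool.Agent.R212.GF

section abs

variable {𝕜 E : Type} [RCLike 𝕜] [NormedAddCommGroup E] [NormedSpace 𝕜 E] [NormedSpace ℝ E]
  [CompleteSpace E]

theorem Vop_gen {U : ℝ → E →L[𝕜] E} (hU : Grp U) (φ : E →L[𝕜] 𝕜) (g : E) (f k : E) :
    InGen (Vop hU φ g) f k ↔ ∃ h, InGen U f h ∧ k = h + φ f • g := by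
  have hq := quot_tendsto hU φ g f
  constructor
  · intro hV
    refine ⟨k - φ f • g, ?_, by abel⟩
    have := Tendsto.sub hV hq
    refine this.congr fun t => ?_
    rw [← smul_sub]
    congr 1
    abel
  · rintro ⟨h, hh, rfl⟩
    have := Tendsto.add hh hq
    refine this.congr fun t => ?_
    rw [← smul_add]
    congr 1
    abel

/-- the perturbation is compact -/
theorem Vop_sub_compact {U : ℝ → E →L[𝕜] E} (hU : Grp U) (φ : E →L[𝕜] 𝕜) (g : E) {t : ℝ}
    (ht : 0 < t) : IsCompactOperator (Vop hU φ g t - U t) := by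
  obtain ⟨C, hC0, hC⟩ := Vop_bound hU φ g
  have hm := mm_gt φ g
  set S : Set E := (fun p : 𝕜 × ℝ => p.1 • U p.2 g) ''
    ((Metric.closedBall (0 : 𝕜) (‖φ‖ * (C * Real.exp (mm φ g * t)))) ×ˢ Icc 0 t) with hS
  have hSc : IsCompact S := by
    apply ((isCompact_closedBall _ _).prod isCompact_Icc).image
    exact continuous_fst.smul ((hU.cont g).comp continuous_snd)
  have hQ : IsCompact (closure (convexHull ℝ S)) := by
    exact isCompact_iff_totallyBounded_isComplete.2
      ⟨(totallyBounded_convexHull.2 hSc.totallyBounded).closure, isClosed_closure.isComplete⟩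
  refine ⟨t • closure (convexHull ℝ S), hQ.smul t, ?_⟩
  apply Filter.mem_of_superset (Metric.ball_mem_nhds (0 : E) one_pos)
  intro f hf
  rw [mem_ball_zero_iff] at hf
  rw [mem_preimage, Set.mem_smul_set]
  refine ⟨⨍ s in Ioc 0 t, φ (Vop hU φ g s f) • U (t - s) g, ?_, ?_⟩
  · apply Convex.set_average_mem_closure (convex_convexHull ℝ S)
    · rw [Real.volume_Ioc, sub_zero]
      exact (ENNReal.ofReal_pos.2 ht).ne'
    · rw [Real.volume_Ioc]
      exact ENNReal.ofReal_ne_top
    · refine (ae_restrict_iff' measurableSet_Ioc).2 (Filter.Eventually.of_forall fun s hs => ?_)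
      apply subset_convexHull
      refine ⟨(φ (Vop hU φ g s f), t - s), ⟨?_, ?_⟩, rfl⟩
      · rw [mem_closedBall_zero_iff]
        refine (φ.le_opNorm _).trans ?_
        gcongr
        refine (hC s f).trans ?_
        rw [abs_of_pos hs.1]
        have h1 : Real.exp (mm φ g * s) ≤ Real.exp (mm φ g * t) := by
          apply Real.exp_le_exp.2
          have := hs.2
          nlinarith
        calc C * Real.exp (mm φ g * s) * ‖f‖ ≤ C * Real.exp (mm φ g * t) * 1 := by
              gcongr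
          _ = _ := by ring
      · exact ⟨by linarith [hs.2], by linarith [hs.1]⟩
    · exact ((integrand_cont hU φ g f t).intervalIntegrable 0 t).1
  · rw [setAverage_eq, _root_.sub_apply, Vop_duhamel, add_sub_cancel_left,
      intervalIntegral.integral_of_le ht.le, smul_smul]
    rw [Measure.real, Real.volume_Ioc, sub_zero, ENNReal.toReal_ofReal ht.le,
      mul_inv_cancel₀ ht.ne', one_smul]

omit [NormedSpace ℝ E] [CompleteSpace E] in
theorem essNorm_le (T K : E →L[𝕜] E) (hK : IsCompactOperator K) : essNorm T ≤ ‖T - K‖ := by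
  apply csInf_le
  · refine ⟨0, ?_⟩
    rintro c ⟨K, _, rfl⟩
    exact norm_nonneg _
  · exact ⟨K, hK, rfl⟩

omit [NormedSpace ℝ E] [CompleteSpace E] in
theorem le_essNorm (T : E →L[𝕜] E) (c : ℝ)
    (h : ∀ K : E →L[𝕜] E, IsCompactOperator K → c ≤ ‖T - K‖) : c ≤ essNorm T := by
  apply le_csInf
  · refine ⟨‖T - 0‖, 0, ?_, rfl⟩
    exact isCompactOperator_zero
  · rintro d ⟨K, hK, rfl⟩
    exact h K hK

theorem Vop_essNorm {U : ℝ → E →L[𝕜] E} (hU : Grp U) (φ : E →L[𝕜] 𝕜) (g : E) {ε : ℝ}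
    (hU1 : ∀ t, 0 < t → ‖U t‖ ≤ Real.exp (ε * t))
    (hU2 : ∀ t, 0 < t → ∀ K : E →L[𝕜] E, IsCompactOperator K → Real.exp (ε * t) ≤ ‖U t - K‖)
    {t : ℝ} (ht : 0 < t) : essNorm (Vop hU φ g t) = Real.exp (ε * t) := by
  have hc := Vop_sub_compact hU φ g ht
  apply le_antisymm
  · refine (essNorm_le _ _ hc).trans ?_
    rw [sub_sub_cancel]
    exact hU1 t ht
  · apply le_essNorm
    intro K hK
    have h1 := hU2 t ht (K - (Vop hU φ g t - U t)) (hK.sub hc)
    rwa [show U t - (K - (Vop hU φ g t - U t)) = Vop hU φ g t - K by abel] at h1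

theorem Vop_essType {U : ℝ → E →L[𝕜] E} (hU : Grp U) (φ : E →L[𝕜] 𝕜) (g : E) {ε : ℝ}
    (hU1 : ∀ t, 0 < t → ‖U t‖ ≤ Real.exp (ε * t))
    (hU2 : ∀ t, 0 < t → ∀ K : E →L[𝕜] E, IsCompactOperator K → Real.exp (ε * t) ≤ ‖U t - K‖) :
    IsEssType (Vop hU φ g) (ε : EReal) := by
  intro t ht
  have h1 : essRadius (Vop hU φ g t) = Real.exp (ε * t) := by
    unfold essRadius
    have h2 : ∀ n : ℕ, (essNorm (Vop hU φ g t ^ (n + 1))) ^ ((1 : ℝ) / (n + 1)) =
        Real.exp (ε * t) := by
      intro n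
      rw [Vop_pow, Vop_essNorm hU φ g hU1 hU2 (by positivity), ← Real.exp_mul]
      congr 1
      push_cast
      have : (n : ℝ) + 1 ≠ 0 := by positivity
      field_simp
    simp only [h2]
    exact ciInf_const
  rw [h1, ← EReal.coe_mul, EReal.exp_coe]

theorem Vop_growth {U : ℝ → E →L[𝕜] E} (hU : Grp U) (φ : E →L[𝕜] 𝕜) (g : E) {u : E} {l : ℝ}
    (hu0 : u ≠ 0) (hu : ∀ t, 0 ≤ t → Vop hU φ g t u = ((Real.exp (l * t) : ℝ) : 𝕜) • u) :
    (l : EReal) ≤ growthBound (Vop hU φ g) := by
  apply le_sInf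
  rintro w ⟨w', rfl, M, hM⟩
  rw [EReal.coe_le_coe_iff]
  by_contra hlt
  push Not at hlt
  have hu1 : 0 < ‖u‖ := norm_pos_iff.2 hu0
  have h1 : ∀ t : ℝ, 0 ≤ t → Real.exp ((l - w') * t) ≤ M := by
    intro t ht
    have h2 : ‖Vop hU φ g t u‖ ≤ M * Real.exp (w' * t) * ‖u‖ :=
      ((Vop hU φ g t).le_opNorm u).trans (by gcongr; exact hM t ht)
    rw [hu t ht, norm_smul, RCLike.norm_ofReal, abs_of_pos (Real.exp_pos _)] at h2
    have h3 : Real.exp (l * t) ≤ M * Real.exp (w' * t) := le_of_mul_le_mul_right h2 hu1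
    have h4 : Real.exp (l * t) = Real.exp ((l - w') * t) * Real.exp (w' * t) := by
      rw [← Real.exp_add]; congr 1; ring
    rw [h4] at h3
    exact le_of_mul_le_mul_right h3 (Real.exp_pos _)
  have h5 : Tendsto (fun t : ℝ => Real.exp ((l - w') * t)) atTop atTop :=
    Real.tendsto_exp_atTop.comp (tendsto_id.const_mul_atTop (by linarith))
  obtain ⟨t, ht0, ht⟩ := ((eventually_ge_atTop (0 : ℝ)).and
    (h5.eventually (eventually_gt_atTop M))).exists
  exact absurd (h1 t ht0) (not_le.2 ht)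

/-- an eigenvector of the generator is an eigenvector of the semigroup -/
theorem eig_of_gen {V : ℝ → E →L[𝕜] E} (hV : IsC0 V) {u : E} {l : ℝ}
    (h : InGen V u ((l : 𝕜) • u)) : ∀ t, 0 ≤ t → V t u = ((Real.exp (l * t) : ℝ) : 𝕜) • u := by
  intro t ht
  set z : ℝ → E := fun s => ((Real.exp (-l * s) : ℝ) : 𝕜) • V s u with hz
  have hzc : ContinuousOn z (Icc 0 t) := by
    apply ContinuousOn.smul
    · apply Continuous.continuousOn
      apply RCLike.continuous_ofReal.comp
      fun_prop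
    · exact (hV.cont u).mono Icc_subset_Ici_self
  have hd : ∀ s ∈ Ico 0 t, HasDerivWithinAt z 0 (Ici s) s := by
    intro s hs
    have hs0 : 0 ≤ s := hs.1
    rw [← hasDerivWithinAt_Ioi_iff_Ici, hasDerivWithinAt_iff_tendsto_slope']
    swap
    · simp
    -- the slope
    have h1 : Tendsto (fun h : ℝ => ((h⁻¹ : ℝ) : 𝕜) •
        (((Real.exp (-l * h) : ℝ) : 𝕜) • V h u - u)) (𝓝[>] 0) (𝓝 0) := by
      have h2 : Tendsto (fun h : ℝ => ((Real.exp (-l * h) : ℝ) : 𝕜) •
          (((h⁻¹ : ℝ) : 𝕜) • (V h u - u))) (𝓝[>] 0) (𝓝 ((1 : 𝕜) • ((l : 𝕜) • u))) := by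
        apply Tendsto.smul _ h
        have : Continuous fun h : ℝ => ((Real.exp (-l * h) : ℝ) : 𝕜) := by
          apply RCLike.continuous_ofReal.comp
          fun_prop
        have h3 := this.tendsto 0
        simp only [mul_zero, Real.exp_zero, RCLike.ofReal_one] at h3
        exact h3.mono_left nhdsWithin_le_nhds
      have h4 : Tendsto (fun h : ℝ => ((h⁻¹ * (Real.exp (-l * h) - 1) : ℝ) : 𝕜) • u)
          (𝓝[>] 0) (𝓝 (((-l : ℝ) : 𝕜) • u)) := by
        apply Tendsto.smul_const
        apply (RCLike.continuous_ofReal.tendsto (-l)).comp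
        have h5 : HasDerivAt (fun h : ℝ => Real.exp (-l * h)) (-l) 0 := by
          have := ((hasDerivAt_id (0 : ℝ)).const_mul (-l)).exp
          simpa using this
        have h6 := hasDerivAt_iff_tendsto_slope.1 h5
        have h7 := h6.mono_left (nhdsWithin_mono 0 (show Ioi (0 : ℝ) ⊆ {0}ᶜ from
          fun x hx => ne_of_gt hx))
        refine h7.congr fun x => ?_
        simp [slope_def_field, div_eq_inv_mul]
      have h8 := h2.add h4
      rw [one_smul, ← add_smul, ← RCLike.ofReal_add, add_neg_cancel, RCLike.ofReal_zero,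
        zero_smul] at h8
      refine h8.congr fun x => ?_
      rw [smul_sub, smul_sub, smul_smul, smul_smul, smul_sub, smul_smul, RCLike.ofReal_mul,
        RCLike.ofReal_sub, RCLike.ofReal_one, mul_sub, sub_smul, mul_one,
        mul_comm ((x⁻¹ : ℝ) : 𝕜)]
      abel
    have h9 := ((V s).continuous.tendsto 0).comp h1
    have h10 : Tendsto (fun h : ℝ => ((Real.exp (-l * s) : ℝ) : 𝕜) • V s (((h⁻¹ : ℝ) : 𝕜) •
        (((Real.exp (-l * h) : ℝ) : 𝕜) • V h u - u))) (𝓝[>] 0) (𝓝 0) := by
      have := h9.const_smul ((Real.exp (-l * s) : ℝ) : 𝕜)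
      simpa using this
    have h11 : Tendsto (fun y : ℝ => y - s) (𝓝[>] s) (𝓝[>] 0) := by
      apply tendsto_nhdsWithin_of_tendsto_nhds_of_eventually_within
      · have : Tendsto (fun y : ℝ => y - s) (𝓝 s) (𝓝 (s - s)) :=
          (continuous_id.sub continuous_const).tendsto s
        rw [sub_self] at this
        exact this.mono_left nhdsWithin_le_nhds
      · filter_upwards [self_mem_nhdsWithin] with y hy
        simpa using hy
    refine (h10.comp h11).congr' ?_
    filter_upwards [self_mem_nhdsWithin] with y hy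
    have hy : s < y := hy
    simp only [Function.comp, slope, vsub_eq_sub, hz]
    have h12 : V y u = V s (V (y - s) u) := by
      have := hV.add s (y - s) hs0 (by linarith)
      rw [add_sub_cancel] at this
      rw [this]; rfl
    rw [h12, map_smul, map_sub, map_smul, RCLike.real_smul_eq_coe_smul (K := 𝕜)]
    rw [smul_comm]
    congr 1
    rw [smul_sub, smul_smul, ← RCLike.ofReal_mul, ← Real.exp_add]
    congr 3
    ring
  have hconst := constant_of_has_deriv_right_zero hzc hd t ⟨ht, le_rfl⟩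
  simp only [hz, mul_zero, Real.exp_zero, RCLike.ofReal_one, one_smul] at hconst
  rw [hV.zero, ContinuousLinearMap.id_apply] at hconst
  have h13 := congrArg (fun x : E => ((Real.exp (l * t) : ℝ) : 𝕜) • x) hconst
  simp only [smul_smul, ← RCLike.ofReal_mul, ← Real.exp_add] at h13
  rw [show l * t + -l * t = 0 by ring, Real.exp_zero, RCLike.ofReal_one, one_smul] at h13
  exact h13

end abs

end Pool.Agent.R212.GF
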