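import Mathlib
import Pool.Agent.R212.GF5

/-!
The perturbed group: positivity.
-/

open MeasureTheory Set Filter Topology BoundedContinuousFunction
open scoped ENNReal Pointwise

namespace Pool.Agent.R212.GF

section abs

variable {𝕜 E : Type} [RCLike 𝕜] [NormedAddCommGroup E] [NormedSpace 𝕜 E] [NormedSpace ℝ E]
  [CompleteSpace E]

/-- closed convex cone -/
structure Cone (P : Set E) : Prop where
  closed : IsClosed P
  zero : (0 : E) ∈ P
  add : ∀ x ∈ P, ∀ y ∈ P, x + y ∈ P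
  smul : ∀ c : ℝ, 0 ≤ c → ∀ x ∈ P, c • x ∈ P

omit [CompleteSpace E] in
theorem Cone.convex {P : Set E} (hP : Cone P) : Convex ℝ P := by
  intro x hx y hy a b ha hb _
  exact hP.add _ (hP.smul a ha x hx) _ (hP.smul b hb y hy)

theorem Cone.integral {P : Set E} (hP : Cone P) {F : ℝ → E} {t : ℝ} (ht : 0 ≤ t)
    (hF : Continuous F) (h : ∀ s ∈ Ioc 0 t, F s ∈ P) : ∫ s in (0 : ℝ)..t, F s ∈ P := by
  rcases ht.eq_or_lt with rfl | ht
  · rw [intervalIntegral.integral_same]; exact hP.zero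
  have h1 : (⨍ s in Ioc 0 t, F s) ∈ P := by
    apply Convex.set_average_mem hP.convex hP.closed
    · rw [Real.volume_Ioc, sub_zero]
      exact (ENNReal.ofReal_pos.2 ht).ne'
    · rw [Real.volume_Ioc]
      exact ENNReal.ofReal_ne_top
    · exact (ae_restrict_iff' measurableSet_Ioc).2 (Filter.Eventually.of_forall h)
    · exact (hF.intervalIntegrable 0 t).1
  have h2 := hP.smul t ht.le _ h1
  rw [setAverage_eq, smul_smul, Measure.real, Real.volume_Ioc, sub_zero,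
    ENNReal.toReal_ofReal ht.le, mul_inv_cancel₀ ht.ne', one_smul] at h2
  rw [intervalIntegral.integral_of_le ht.le]
  exact h2

theorem Vop_pos {U : ℝ → E →L[𝕜] E} (hU : Grp U) (φ : E →L[𝕜] 𝕜) (g : E) {P : Set E}
    (hP : Cone P) (hUP : ∀ t, 0 ≤ t → ∀ x ∈ P, U t x ∈ P) (hg : g ∈ P)
    (hφ : ∀ x ∈ P, ∃ c : ℝ, 0 ≤ c ∧ φ x = (c : 𝕜)) {t : ℝ} (ht : 0 ≤ t) {f : E} (hf : f ∈ P) :
    Vop hU φ g t f ∈ P := by
  have hsm : ∀ c : ℝ, 0 ≤ c → ∀ x ∈ P, (c : 𝕜) • x ∈ P := by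
    intro c hc x hx
    rw [← RCLike.real_smul_eq_coe_smul (K := 𝕜)]
    exact hP.smul c hc x hx
  set Q : Set (ℝ →ᵇ E) := {w | ∀ t, 0 ≤ t → w t ∈ P} with hQ
  have hQc : IsClosed Q := by
    have : Q = ⋂ t : ℝ, ⋂ _ : 0 ≤ t, (fun w : ℝ →ᵇ E => w t) ⁻¹' P := by
      ext w; simp [hQ]
    rw [this]
    refine isClosed_iInter fun t => isClosed_iInter fun _ => hP.closed.preimage ?_
    exact (BoundedContinuousFunction.evalCLM 𝕜 t : (ℝ →ᵇ E) →L[𝕜] E).continuous
  have hK : ∀ w ∈ Q, Kop hU φ g (mm_gt φ g) w ∈ Q := by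
    intro w hw t ht
    rw [Kop_apply]
    apply hP.integral ht
    · exact (Fk_cont hU φ g (mm φ g) w.continuous).comp (continuous_const.prodMk continuous_id)
    · intro s hs
      unfold Fk
      obtain ⟨c, hc, hc2⟩ := hφ _ (hw s hs.1.le)
      rw [hc2, ← RCLike.ofReal_mul]
      apply hsm _ (mul_nonneg (Real.exp_pos _).le hc)
      exact hUP _ (by linarith [hs.2]) _ hg
  have hKn : ∀ n : ℕ, ∀ w ∈ Q, (Kop hU φ g (mm_gt φ g) ^ n) w ∈ Q := by
    intro n
    induction n with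
    | zero => intro w hw; simpa using hw
    | succ n ih =>
      intro w hw
      rw [pow_succ']
      exact hK _ (ih w hw)
  have hR : ∀ w ∈ Q, Rop hU φ g w ∈ Q := by
    intro w hw
    have h1 : HasSum (fun n : ℕ => Kop hU φ g (mm_gt φ g) ^ n) (Rop hU φ g) :=
      (summable_geometric_of_norm_lt_one (Kop_lt hU φ g)).hasSum
    have h2 : HasSum (fun n : ℕ => (Kop hU φ g (mm_gt φ g) ^ n) w) (Rop hU φ g w) := by
      have := h1.mapL (ContinuousLinearMap.apply 𝕜 (ℝ →ᵇ E) w)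
      simpa using this
    refine hQc.mem_of_tendsto h2 (Filter.Eventually.of_forall fun S => ?_)
    intro t ht
    rw [show (∑ n ∈ S, (Kop hU φ g (mm_gt φ g) ^ n) w) t =
      ∑ n ∈ S, ((Kop hU φ g (mm_gt φ g) ^ n) w) t from
        BoundedContinuousFunction.sum_apply _ _ _]
    refine Finset.sum_induction _ (· ∈ P) (fun a b ha hb => hP.add a ha b hb) hP.zero ?_
    intro n _
    exact hKn n w hw t ht
  rw [Vop_apply]
  apply hsm _ (Real.exp_pos _).le
  apply hR _ _ t ht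
  intro s hs
  rw [Uw_apply]
  exact hsm _ (Real.exp_pos _).le _ (hUP s hs f hf)

end abs

end Pool.Agent.R212.GF
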