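import Mathlib
import Pool.Agent.R212.GF7
import Pool.Agent.R212.GF5

/-!
The weighted translation group on `L^1(ℝ)`: essential norm, positivity, the eigenfunction.
-/

open MeasureTheory Set Filter Topology
open scoped ENNReal

namespace Pool.Agent.R212.GF

section

variable {𝕜 : Type} [RCLike 𝕜]

theorem Tg_grp {ε : ℝ} (hε : 0 ≤ ε) (hε1 : ε ≤ 1) : Grp (Tg hε : ℝ → LR 𝕜 →L[𝕜] LR 𝕜) where
  zero := Tg_zero hε
  add := Tg_add hε
  cont := Tg_cont hε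
  bound := fun t => (Tg_norm hε t).trans (Real.exp_le_exp.2 (by
    have := abs_nonneg t
    nlinarith))

/-- the indicator functions of `(-n-1,-n)` -/
noncomputable def hn (n : ℕ) : LR 𝕜 :=
  indicatorConstLp 1 (s := Ioo (-(n : ℝ) - 1) (-n)) measurableSet_Ioo
    (by rw [Real.volume_Ioo]; exact ENNReal.ofReal_ne_top) (1 : 𝕜)

theorem hn_ae (n : ℕ) : (hn n : LR 𝕜) =ᵐ[volume]
    (Ioo (-(n : ℝ) - 1) (-n)).indicator fun _ => (1 : 𝕜) := indicatorConstLp_coeFn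

theorem hn_norm (n : ℕ) : ‖(hn n : LR 𝕜)‖ = 1 := by
  unfold hn
  rw [norm_indicatorConstLp one_ne_zero ENNReal.one_ne_top]
  simp [Measure.real, Real.volume_Ioo]

theorem hn_sub_norm {n m : ℕ} (h : n < m) : 1 ≤ ‖(hn n - hn m : LR 𝕜)‖ := by
  rw [← hn_norm (𝕜 := 𝕜) n]
  apply Lp.norm_le_norm_of_ae_le
  filter_upwards [Lp.coeFn_sub (hn n : LR 𝕜) (hn m), hn_ae (𝕜 := 𝕜) n, hn_ae (𝕜 := 𝕜) m]
    with s h1 h2 h3
  rw [h1, Pi.sub_apply, h2, h3]
  by_cases hs : s ∈ Ioo (-(n : ℝ) - 1) (-n)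
  · have : s ∉ Ioo (-(m : ℝ) - 1) (-m) := by
      intro hs2
      have h5 : (n : ℝ) + 1 ≤ m := by exact_mod_cast h
      linarith [hs.1, hs2.2]
    rw [indicator_of_mem hs, indicator_of_notMem this, sub_zero]
  · rw [indicator_of_notMem hs, norm_zero]
    exact norm_nonneg _

theorem Tg_hn {ε : ℝ} (hε : 0 ≤ ε) {t : ℝ} (ht : 0 < t) {n m : ℕ} (hn1 : t ≤ n) (hm1 : t ≤ m) :
    Real.exp (ε * t) * ‖(hn n - hn m : LR 𝕜)‖ ≤ ‖Tg hε t (hn n - hn m : LR 𝕜)‖ := by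
  set d : LR 𝕜 := hn n - hn m with hd
  have h0 : ‖d‖ = ‖Lp.compMeasurePreserving _ (mp_sub t) d‖ :=
    (Lp.norm_compMeasurePreserving _ _).symm
  have h1 : Real.exp (ε * t) * ‖d‖ =
      ‖((Real.exp (ε * t) : ℝ) : 𝕜) • Lp.compMeasurePreserving _ (mp_sub t) d‖ := by
    rw [norm_smul, RCLike.norm_ofReal, abs_of_pos (Real.exp_pos _), ← h0]
  rw [h1]
  apply Lp.norm_le_norm_of_ae_le
  filter_upwards [Tg_ae hε t d, Lp.coeFn_smul ((Real.exp (ε * t) : ℝ) : 𝕜)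
    (Lp.compMeasurePreserving _ (mp_sub t) d), Lp.coeFn_compMeasurePreserving d (mp_sub t),
    ae_comp_sub (Lp.coeFn_sub (hn n : LR 𝕜) (hn m)) t, ae_comp_sub (hn_ae (𝕜 := 𝕜) n) t,
    ae_comp_sub (hn_ae (𝕜 := 𝕜) m) t] with s h2 h3 h4 h5 h6 h7
  rw [h2, h3, Pi.smul_apply, h4]
  unfold tfun
  simp only [Function.comp]
  rw [h5, Pi.sub_apply, h6, h7, smul_eq_mul]
  by_cases hs : s - t < - t
  · have hs1 : s < 0 := by linarith
    have hs2 : s - t < 0 := by linarith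
    have e1 : lw ε s = ε * s := min_eq_left (by nlinarith)
    have e2 : lw ε (s - t) = ε * (s - t) := min_eq_left (by nlinarith)
    rw [e1, e2, show ε * s - ε * (s - t) = ε * t by ring]
  · have g1 : s - t ∉ Ioo (-(n : ℝ) - 1) (-n) := fun h => hs (by linarith [h.2])
    have g2 : s - t ∉ Ioo (-(m : ℝ) - 1) (-m) := fun h => hs (by linarith [h.2])
    rw [indicator_of_notMem g1, indicator_of_notMem g2]
    simp

theorem Tg_compact {ε : ℝ} (hε : 0 ≤ ε) {t : ℝ} (ht : 0 < t) (K : LR 𝕜 →L[𝕜] LR 𝕜)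
    (hK : IsCompactOperator K) : Real.exp (ε * t) ≤ ‖Tg hε t - K‖ := by
  apply le_of_forall_pos_le_add
  intro δ hδ
  obtain ⟨N, hN⟩ := exists_nat_ge t
  have hc := hK.isCompact_closure_image_closedBall 1
  have hx : ∀ n : ℕ, K (hn (n + N)) ∈ closure (K '' Metric.closedBall (0 : LR 𝕜) 1) := by
    intro n
    apply subset_closure
    refine ⟨hn (n + N), ?_, rfl⟩
    rw [mem_closedBall_zero_iff, hn_norm]
  obtain ⟨a, _, ψ, hψ, hlim⟩ := hc.tendsto_subseq hx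
  have hcau := hlim.cauchySeq
  rw [Metric.cauchySeq_iff] at hcau
  obtain ⟨M, hM⟩ := hcau δ hδ
  have h1 := hM M le_rfl (M + 1) (Nat.le_succ M)
  simp only [Function.comp] at h1
  set n := ψ M + N with hn'
  set m := ψ (M + 1) + N with hm'
  have hnm : n < m := by
    have : ψ M < ψ (M + 1) := hψ (Nat.lt_succ_self M)
    omega
  rw [dist_eq_norm, ← map_sub] at h1
  have hnt : t ≤ n := hN.trans (by rw [hn']; push_cast; linarith [(ψ M).cast_nonneg (α := ℝ)])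
  have hmt : t ≤ m := hnt.trans (by exact_mod_cast hnm.le)
  have h2 := Tg_hn (𝕜 := 𝕜) hε ht hnt hmt
  have h3 := hn_sub_norm (𝕜 := 𝕜) hnm
  set d : LR 𝕜 := hn n - hn m with hd
  set D : LR 𝕜 →L[𝕜] LR 𝕜 := Tg hε t - K with hD
  have h4 : ‖D d‖ ≤ ‖D‖ * ‖d‖ := D.le_opNorm d
  have h5 : ‖Tg hε t d‖ ≤ ‖D d‖ + ‖K d‖ := by
    have : Tg hε t d = D d + K d := by simp [hD]
    conv_lhs => rw [this]
    exact norm_add_le _ _
  have h6 : Real.exp (ε * t) * ‖d‖ ≤ (‖D‖ + δ) * ‖d‖ := by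
    nlinarith [norm_nonneg (K d)]
  exact le_of_mul_le_mul_right h6 (by linarith)

/-- nonnegative functions -/
def posR : Set (LR 𝕜) := {f | ∀ᵐ s, ∃ c : ℝ, 0 ≤ c ∧ f s = (c : 𝕜)}

theorem Tg_pos {ε : ℝ} (hε : 0 ≤ ε) (t : ℝ) {f : LR 𝕜} (hf : f ∈ (posR : Set (LR 𝕜))) :
    Tg hε t f ∈ (posR : Set (LR 𝕜)) := by
  change ∀ᵐ s, ∃ c : ℝ, 0 ≤ c ∧ (Tg hε t f) s = (c : 𝕜)
  filter_upwards [Tg_ae hε t f, ae_comp_sub hf t] with s h1 h2
  obtain ⟨c, hc, h3⟩ := h2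
  rw [h1]
  unfold tfun
  rw [h3, ← RCLike.ofReal_mul]
  exact ⟨_, mul_nonneg (Real.exp_pos _).le hc, rfl⟩

/-- the eigenfunction -/
noncomputable def uf (ε s : ℝ) : ℝ :=
  if s < 0 then Real.exp ((1 / 2 - ε) * s) else Real.exp (-(1 / 2) * s)

/-- the daughter distribution -/
noncomputable def gf (ε s : ℝ) : ℝ :=
  if s < 0 then (1 / 2 - ε) * Real.exp ((1 / 2 - ε) * s) else 0

theorem uf_int {ε : ℝ} (hε : ε < 1 / 2) : Integrable (uf ε) := by
  have h1 : Integrable ((Iio (0 : ℝ)).indicator fun s => Real.exp ((1 / 2 - ε) * s)) := by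
    rw [integrable_indicator_iff measurableSet_Iio]
    exact (integrableOn_exp_mul_Iic (by linarith) 0).mono_set Iio_subset_Iic_self
  have h2 : Integrable ((Ici (0 : ℝ)).indicator fun s => Real.exp (-(1 / 2) * s)) := by
    rw [integrable_indicator_iff measurableSet_Ici, integrableOn_Ici_iff_integrableOn_Ioi]
    exact integrableOn_exp_mul_Ioi (by norm_num) 0
  refine (h1.add h2).congr (Filter.Eventually.of_forall fun s => ?_)
  rw [Pi.add_apply]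
  unfold uf
  by_cases hs : s < 0
  · rw [if_pos hs, indicator_of_mem (show s ∈ Iio 0 from hs),
      indicator_of_notMem (show s ∉ Ici 0 from not_le.2 hs), add_zero]
  · rw [if_neg hs, indicator_of_notMem (show s ∉ Iio 0 from hs),
      indicator_of_mem (show s ∈ Ici 0 from not_lt.1 hs), zero_add]

theorem gf_int {ε : ℝ} (hε : ε < 1 / 2) : Integrable (gf ε) := by
  have h1 : Integrable ((Iio (0 : ℝ)).indicator fun s =>
      (1 / 2 - ε) * Real.exp ((1 / 2 - ε) * s)) := by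
    rw [integrable_indicator_iff measurableSet_Iio]
    exact ((integrableOn_exp_mul_Iic (by linarith) 0).mono_set Iio_subset_Iic_self).const_mul _
  refine h1.congr (Filter.Eventually.of_forall fun s => ?_)
  unfold gf
  by_cases hs : s < 0
  · rw [if_pos hs, indicator_of_mem (show s ∈ Iio 0 from hs)]
  · rw [if_neg hs, indicator_of_notMem (show s ∉ Iio 0 from hs)]

/-- the eigenfunction in `L^1` -/
noncomputable def uR {ε : ℝ} (hε : ε < 1 / 2) : LR 𝕜 :=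
  (memLp_one_iff_integrable.2 (uf_int hε).ofReal : MemLp (fun s => ((uf ε s : ℝ) : 𝕜)) 1 volume).toLp _

/-- the daughter distribution in `L^1` -/
noncomputable def gR {ε : ℝ} (hε : ε < 1 / 2) : LR 𝕜 :=
  (memLp_one_iff_integrable.2 (gf_int hε).ofReal : MemLp (fun s => ((gf ε s : ℝ) : 𝕜)) 1 volume).toLp _

theorem uR_ae {ε : ℝ} (hε : ε < 1 / 2) :
    (uR hε : LR 𝕜) =ᵐ[volume] fun s => ((uf ε s : ℝ) : 𝕜) := MemLp.coeFn_toLp _

theorem gR_ae {ε : ℝ} (hε : ε < 1 / 2) :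
    (gR hε : LR 𝕜) =ᵐ[volume] fun s => ((gf ε s : ℝ) : 𝕜) := MemLp.coeFn_toLp _

/-- the pointwise estimate -/
theorem pt_est {ε : ℝ} (hε : 0 ≤ ε) (hε1 : ε < 1 / 2) {t : ℝ} (ht : 0 < t) (ht1 : t ≤ 1) (s : ℝ) :
    |t⁻¹ * (Real.exp (lw ε s - lw ε (s - t)) * uf ε (s - t) - uf ε s) -
      (1 / 2 * uf ε s - 2 * gf ε s)| ≤
      (|t⁻¹ * (Real.exp ((2 * ε - 1 / 2) * t) - 1) - (2 * ε - 1 / 2)| +
        |t⁻¹ * (Real.exp (1 / 2 * t) - 1) - 1 / 2|) * uf ε s +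
      3 * (Ico 0 t).indicator (fun _ => (1 : ℝ)) s := by
  rcases lt_or_ge s 0 with hs | hs
  · have hst : s - t < 0 := by linarith
    have e1 : lw ε s = ε * s := min_eq_left (by nlinarith)
    have e2 : lw ε (s - t) = ε * (s - t) := min_eq_left (by nlinarith)
    rw [indicator_of_notMem (fun h => absurd h.1 (not_le.2 hs)), mul_zero, add_zero]
    unfold uf gf
    rw [if_pos hs, if_pos hst, if_pos hs, e1, e2]
    have h1 : t⁻¹ * (Real.exp (ε * s - ε * (s - t)) * Real.exp ((1 / 2 - ε) * (s - t)) -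
        Real.exp ((1 / 2 - ε) * s)) - (1 / 2 * Real.exp ((1 / 2 - ε) * s) -
          2 * ((1 / 2 - ε) * Real.exp ((1 / 2 - ε) * s))) =
        (t⁻¹ * (Real.exp ((2 * ε - 1 / 2) * t) - 1) - (2 * ε - 1 / 2)) *
          Real.exp ((1 / 2 - ε) * s) := by
      have h2 : Real.exp (ε * s - ε * (s - t)) * Real.exp ((1 / 2 - ε) * (s - t)) =
          Real.exp ((2 * ε - 1 / 2) * t) * Real.exp ((1 / 2 - ε) * s) := by
        rw [← Real.exp_add, ← Real.exp_add]; congr 1; ring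
      rw [h2]; ring
    rw [h1, abs_mul, abs_of_pos (Real.exp_pos ((1 / 2 - ε) * s))]
    gcongr
    exact le_add_of_nonneg_right (abs_nonneg _)
  · rcases lt_or_ge s t with hst | hst
    · have hst' : s - t < 0 := by linarith
      have e1 : lw ε s = 0 := min_eq_right (by nlinarith)
      have e2 : lw ε (s - t) = ε * (s - t) := min_eq_left (by nlinarith)
      rw [indicator_of_mem (show s ∈ Ico 0 t from ⟨hs, hst⟩), mul_one]
      unfold uf gf
      rw [if_neg (not_lt.2 hs), if_pos hst', if_neg (not_lt.2 hs), e1, e2, mul_zero, sub_zero]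
      have h2 : Real.exp (0 - ε * (s - t)) * Real.exp ((1 / 2 - ε) * (s - t)) =
          Real.exp ((1 / 2 - 2 * ε) * (s - t)) := by
        rw [← Real.exp_add]; congr 1; ring
      rw [h2]
      have h3 := exp_lip (a := (1 / 2 - 2 * ε) * (s - t)) (b := -(1 / 2) * s) (c := 1 / 2)
        (by nlinarith) (by nlinarith)
      have h4 : |(1 / 2 - 2 * ε) * (s - t) - -(1 / 2) * s| ≤ t := by
        rw [abs_le]; constructor <;> nlinarith
      have h5 : Real.exp (1 / 2) ≤ 2 := by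
        have h6 : Real.exp (1 / 2) ^ 2 = Real.exp 1 := by
          rw [← Real.exp_nat_mul]; norm_num
        have h7 := Real.exp_one_lt_d9
        nlinarith [Real.exp_pos (1 / 2)]
      have h8 : |Real.exp ((1 / 2 - 2 * ε) * (s - t)) - Real.exp (-(1 / 2) * s)| ≤ 2 * t :=
        h3.trans (mul_le_mul h5 h4 (abs_nonneg _) (by norm_num))
      have h9 : Real.exp (-(1 / 2) * s) ≤ 1 := Real.exp_le_one_iff.2 (by linarith)
      have h10 := Real.exp_pos (-(1 / 2) * s)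
      have h11 : |t⁻¹ * (Real.exp ((1 / 2 - 2 * ε) * (s - t)) - Real.exp (-(1 / 2) * s)) -
          1 / 2 * Real.exp (-(1 / 2) * s)| ≤ 3 := by
        refine (abs_sub _ _).trans ?_
        rw [abs_mul, abs_of_pos (inv_pos.2 ht),
          abs_of_pos (show 0 < 1 / 2 * Real.exp (-(1 / 2) * s) by positivity)]
        have : t⁻¹ * |Real.exp ((1 / 2 - 2 * ε) * (s - t)) - Real.exp (-(1 / 2) * s)| ≤
            t⁻¹ * (2 * t) := by gcongr
        have h12 : t⁻¹ * (2 * t) = 2 := by field_simp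
        linarith
      refine h11.trans ?_
      have : 0 ≤ (|t⁻¹ * (Real.exp ((2 * ε - 1 / 2) * t) - 1) - (2 * ε - 1 / 2)| +
        |t⁻¹ * (Real.exp (1 / 2 * t) - 1) - 1 / 2|) * Real.exp (-(1 / 2) * s) := by positivity
      linarith
    · have hst' : 0 ≤ s - t := by linarith
      have e1 : lw ε s = 0 := min_eq_right (by nlinarith)
      have e2 : lw ε (s - t) = 0 := min_eq_right (by nlinarith)
      rw [indicator_of_notMem (fun h => absurd h.2 (not_lt.2 hst)), mul_zero, add_zero]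
      unfold uf gf
      rw [if_neg (not_lt.2 hs), if_neg (not_lt.2 hst'), if_neg (not_lt.2 hs), e1, e2]
      have h1 : t⁻¹ * (Real.exp (0 - 0) * Real.exp (-(1 / 2) * (s - t)) -
          Real.exp (-(1 / 2) * s)) - (1 / 2 * Real.exp (-(1 / 2) * s) - 2 * 0) =
          (t⁻¹ * (Real.exp (1 / 2 * t) - 1) - 1 / 2) * Real.exp (-(1 / 2) * s) := by
        have h2 : Real.exp (-(1 / 2) * (s - t)) =
            Real.exp (1 / 2 * t) * Real.exp (-(1 / 2) * s) := by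
          rw [← Real.exp_add]; congr 1; ring
        rw [h2, sub_zero, Real.exp_zero]; ring
      rw [h1, abs_mul, abs_of_pos (Real.exp_pos (-(1 / 2) * s))]
      gcongr
      exact le_add_of_nonneg_left (abs_nonneg _)

theorem q_lim (c : ℝ) : Tendsto (fun t : ℝ => |t⁻¹ * (Real.exp (c * t) - 1) - c|) (𝓝[>] 0)
    (𝓝 0) := by
  have h5 : HasDerivAt (fun h : ℝ => Real.exp (c * h)) c 0 := by
    have := ((hasDerivAt_id (0 : ℝ)).const_mul c).exp
    simpa using this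
  have h6 := hasDerivAt_iff_tendsto_slope.1 h5
  have h7 := h6.mono_left (nhdsWithin_mono 0 (show Ioi (0 : ℝ) ⊆ {0}ᶜ from
    fun x hx => ne_of_gt hx))
  have h8 : Tendsto (fun t : ℝ => t⁻¹ * (Real.exp (c * t) - 1)) (𝓝[>] 0) (𝓝 c) := by
    refine h7.congr fun x => ?_
    simp [slope_def_field, div_eq_inv_mul]
  have h9 := (h8.sub_const c).abs
  simpa using h9

/-- the eigenfunction lies in the domain of the generator -/
theorem uR_gen {ε : ℝ} (hε : 0 ≤ ε) (hε1 : ε < 1 / 2) :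
    InGen (Tg hε : ℝ → LR 𝕜 →L[𝕜] LR 𝕜) (uR hε1)
      (((1 / 2 : ℝ) : 𝕜) • uR hε1 - ((2 : ℝ) : 𝕜) • gR hε1) := by
  unfold InGen
  rw [tendsto_iff_norm_sub_tendsto_zero]
  set q : ℝ → ℝ := fun t => |t⁻¹ * (Real.exp ((2 * ε - 1 / 2) * t) - 1) - (2 * ε - 1 / 2)| +
        |t⁻¹ * (Real.exp (1 / 2 * t) - 1) - 1 / 2| with hq
  have hlim : Tendsto (fun t => q t * ‖(uR hε1 : LR 𝕜)‖ + 3 * t) (𝓝[>] 0) (𝓝 0) := by
    have h1 : Tendsto q (𝓝[>] 0) (𝓝 0) := by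
      have := (q_lim (2 * ε - 1 / 2)).add (q_lim (1 / 2))
      rw [add_zero] at this
      exact this
    have h2 : Tendsto (fun t : ℝ => 3 * t) (𝓝[>] 0) (𝓝 0) := by
      have : Tendsto (fun t : ℝ => 3 * t) (𝓝 0) (𝓝 (3 * 0)) :=
        (continuous_const.mul continuous_id).tendsto 0
      rw [mul_zero] at this
      exact this.mono_left nhdsWithin_le_nhds
    have := (h1.mul_const ‖(uR hε1 : LR 𝕜)‖).add h2
    simpa using this
  refine squeeze_zero' (Filter.Eventually.of_forall fun _ => norm_nonneg _) ?_ hlim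
  have hev : ∀ᶠ t : ℝ in 𝓝[>] 0, 0 < t ∧ t ≤ 1 := by
    have h1 : ∀ᶠ t : ℝ in 𝓝[>] 0, t ≤ 1 :=
      nhdsWithin_le_nhds (eventually_le_nhds one_pos)
    filter_upwards [self_mem_nhdsWithin, h1] with t h2 h3
    exact ⟨h2, h3⟩
  filter_upwards [hev] with t ht
  obtain ⟨ht0, ht1⟩ := ht
  set I : LR 𝕜 := indicatorConstLp 1 (s := Ico 0 t) measurableSet_Ico
    (by rw [Real.volume_Ico]; exact ENNReal.ofReal_ne_top) (1 : 𝕜) with hI
  have hIn : ‖I‖ = t := by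
    rw [hI, norm_indicatorConstLp one_ne_zero ENNReal.one_ne_top]
    simp [Measure.real, Real.volume_Ico, ht0.le]
  have hb : ‖((t⁻¹ : ℝ) : 𝕜) • (Tg hε t (uR hε1 : LR 𝕜) - uR hε1) -
      (((1 / 2 : ℝ) : 𝕜) • uR hε1 - ((2 : ℝ) : 𝕜) • gR hε1)‖ ≤
      ‖((q t : ℝ) : 𝕜) • (uR hε1 : LR 𝕜) + ((3 : ℝ) : 𝕜) • I‖ := by
    apply Lp.norm_le_norm_of_ae_le
    filter_upwards [Lp.coeFn_sub (((t⁻¹ : ℝ) : 𝕜) • (Tg hε t (uR hε1 : LR 𝕜) - uR hε1))
        (((1 / 2 : ℝ) : 𝕜) • uR hε1 - ((2 : ℝ) : 𝕜) • gR hε1),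
      Lp.coeFn_smul ((t⁻¹ : ℝ) : 𝕜) (Tg hε t (uR hε1 : LR 𝕜) - uR hε1),
      Lp.coeFn_sub (Tg hε t (uR hε1 : LR 𝕜)) (uR hε1),
      Lp.coeFn_sub (((1 / 2 : ℝ) : 𝕜) • (uR hε1 : LR 𝕜)) (((2 : ℝ) : 𝕜) • gR hε1),
      Lp.coeFn_smul ((1 / 2 : ℝ) : 𝕜) (uR hε1 : LR 𝕜), Lp.coeFn_smul ((2 : ℝ) : 𝕜) (gR hε1 : LR 𝕜),
      Tg_ae hε t (uR hε1 : LR 𝕜), uR_ae (𝕜 := 𝕜) hε1, gR_ae (𝕜 := 𝕜) hε1,
      ae_comp_sub (uR_ae (𝕜 := 𝕜) hε1) t,
      Lp.coeFn_add (((q t : ℝ) : 𝕜) • (uR hε1 : LR 𝕜)) (((3 : ℝ) : 𝕜) • I),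
      Lp.coeFn_smul ((q t : ℝ) : 𝕜) (uR hε1 : LR 𝕜), Lp.coeFn_smul ((3 : ℝ) : 𝕜) I,
      (indicatorConstLp_coeFn : I =ᵐ[volume] (Ico 0 t).indicator fun _ => (1 : 𝕜))]
      with s h1 h2 h3 h4 h5 h6 h7 h8 h9 h10 h11 h12 h13 h14
    rw [h1, Pi.sub_apply, h2, Pi.smul_apply, h3, Pi.sub_apply, h4, Pi.sub_apply, h5, h6,
      Pi.smul_apply, Pi.smul_apply, h7, h8, h9, h11, Pi.add_apply, h12, h13, Pi.smul_apply,
      Pi.smul_apply, h8, h14]
    unfold tfun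
    rw [h10]
    have e1 : (Ico 0 t).indicator (fun _ => (1 : 𝕜)) s =
        (((Ico 0 t).indicator (fun _ => (1 : ℝ)) s : ℝ) : 𝕜) := by
      by_cases hs : s ∈ Ico 0 t
      · rw [indicator_of_mem hs, indicator_of_mem hs, RCLike.ofReal_one]
      · rw [indicator_of_notMem hs, indicator_of_notMem hs, RCLike.ofReal_zero]
    rw [e1]
    simp only [smul_eq_mul, ← RCLike.ofReal_mul, ← RCLike.ofReal_sub, ← RCLike.ofReal_add,
      RCLike.norm_ofReal]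
    refine (pt_est hε hε1 ht0 ht1 s).trans (le_abs_self _)
  refine hb.trans ((norm_add_le _ _).trans ?_)
  rw [norm_smul, norm_smul, RCLike.norm_ofReal, RCLike.norm_ofReal, hIn]
  have hq0 : 0 ≤ q t := by rw [hq]; positivity
  rw [abs_of_nonneg hq0, abs_of_pos (by norm_num : (0 : ℝ) < 3)]

end

end Pool.Agent.R212.GF
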