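import Mathlib
import Pool.Agent.R212.GF10
import Pool.Agent.R212.GF8
import Pool.Agent.R212.GF6

/-!
The unperturbed semigroup on `X_1`.
-/

open MeasureTheory Set Filter Topology
open scoped ENNReal

namespace Pool.Agent.R212.GF

variable {𝕜 : Type} [RCLike 𝕜]

section

variable {ρ ε : ℝ} (hρ : 0 < ρ) (hρ1 : ρ ≤ 1) (hε : 0 ≤ ε)

/-- `U(t) = J T(t) J⁻¹` -/
noncomputable def UX (t : ℝ) : X1 𝕜 →L[𝕜] X1 𝕜 :=
  ((J hρ hρ1 : LR 𝕜 ≃ₗᵢ[𝕜] X1 𝕜).toContinuousLinearEquiv : LR 𝕜 →L[𝕜] X1 𝕜).comp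
    ((Tg hε t : LR 𝕜 →L[𝕜] LR 𝕜).comp
      ((J hρ hρ1 : LR 𝕜 ≃ₗᵢ[𝕜] X1 𝕜).symm.toContinuousLinearEquiv : X1 𝕜 →L[𝕜] LR 𝕜))

theorem UX_apply (t : ℝ) (f : X1 𝕜) :
    UX hρ hρ1 hε t f = J hρ hρ1 (Tg hε t ((J hρ hρ1).symm f)) := rfl

theorem UX_norm (t : ℝ) : ‖(UX hρ hρ1 hε t : X1 𝕜 →L[𝕜] X1 𝕜)‖ ≤ Real.exp (ε * |t|) := by
  apply ContinuousLinearMap.opNorm_le_bound _ (Real.exp_pos _).le
  intro f
  rw [UX_apply, LinearIsometryEquiv.norm_map]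
  refine ((Tg hε t : LR 𝕜 →L[𝕜] LR 𝕜).le_opNorm _).trans ?_
  rw [LinearIsometryEquiv.norm_map]
  exact mul_le_mul_of_nonneg_right (Tg_norm hε t) (norm_nonneg _)

theorem UX_grp (hε1 : ε ≤ 1) : Grp (UX hρ hρ1 hε : ℝ → X1 𝕜 →L[𝕜] X1 𝕜) where
  zero := by
    ext1 f
    rw [UX_apply, Tg_zero hε]
    simp
  add := by
    intro s t
    ext1 f
    rw [UX_apply, Tg_add hε]
    simp [UX_apply]
  cont := by
    intro f
    simp only [UX_apply]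
    exact (J hρ hρ1).continuous.comp (Tg_cont hε _)
  bound := fun t => (UX_norm hρ hρ1 hε t).trans (Real.exp_le_exp.2 (by
    have := abs_nonneg t
    nlinarith))

theorem UX_compact {t : ℝ} (ht : 0 < t) (K : X1 𝕜 →L[𝕜] X1 𝕜)
    (hK : IsCompactOperator K) : Real.exp (ε * t) ≤ ‖UX hρ hρ1 hε t - K‖ := by
  set Jm : LR 𝕜 →L[𝕜] X1 𝕜 :=
    ((J hρ hρ1 : LR 𝕜 ≃ₗᵢ[𝕜] X1 𝕜).toContinuousLinearEquiv : LR 𝕜 →L[𝕜] X1 𝕜) with hJ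
  set Ji : X1 𝕜 →L[𝕜] LR 𝕜 :=
    ((J hρ hρ1 : LR 𝕜 ≃ₗᵢ[𝕜] X1 𝕜).symm.toContinuousLinearEquiv : X1 𝕜 →L[𝕜] LR 𝕜) with hJi
  have hK' : IsCompactOperator (Ji.comp (K.comp Jm)) := by
    exact (hK.comp_clm Jm).clm_comp Ji
  have h1 := Tg_compact hε ht _ hK'
  refine h1.trans ?_
  set D : X1 𝕜 →L[𝕜] X1 𝕜 := UX hρ hρ1 hε t - K with hD
  apply ContinuousLinearMap.opNorm_le_bound _ (norm_nonneg _)
  intro h
  have h2 : ((Tg hε t : LR 𝕜 →L[𝕜] LR 𝕜) - Ji.comp (K.comp Jm)) h =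
      (J hρ hρ1).symm (D (J hρ hρ1 h)) := by
    rw [_root_.sub_apply, hD, _root_.sub_apply, map_sub, UX_apply]
    simp [hJ, hJi]
  rw [h2, LinearIsometryEquiv.norm_map]
  refine (D.le_opNorm _).trans ?_
  rw [LinearIsometryEquiv.norm_map]

theorem UX_gen {u v : LR 𝕜} (h : InGen (Tg hε : ℝ → LR 𝕜 →L[𝕜] LR 𝕜) u v) :
    InGen (UX hρ hρ1 hε : ℝ → X1 𝕜 →L[𝕜] X1 𝕜) (J hρ hρ1 u) (J hρ hρ1 v) := by
  have h1 := ((J hρ hρ1).continuous.tendsto v).comp h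
  refine h1.congr fun t => ?_
  simp only [Function.comp, UX_apply]
  rw [map_smul, map_sub, LinearIsometryEquiv.symm_apply_apply]

/-- the cone of nonnegative functions in `X_1` -/
def PX : Set (X1 𝕜) := {f | Nonneg f}

theorem nonneg_iff_norm (z : 𝕜) : (∃ c : ℝ, 0 ≤ c ∧ z = (c : 𝕜)) ↔ ((‖z‖ : ℝ) : 𝕜) = z := by
  constructor
  · rintro ⟨c, hc, rfl⟩
    rw [RCLike.norm_ofReal, abs_of_nonneg hc]
  · intro h
    exact ⟨‖z‖, norm_nonneg _, h.symm⟩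

theorem lip_norm : LipschitzWith 1 fun z : 𝕜 => ((‖z‖ : ℝ) : 𝕜) := by
  apply LipschitzWith.of_dist_le_mul
  intro x y
  rw [dist_eq_norm, dist_eq_norm, ← RCLike.ofReal_sub, RCLike.norm_ofReal, NNReal.coe_one, one_mul]
  exact abs_norm_sub_norm_le x y

theorem PX_closed : IsClosed (PX : Set (X1 𝕜)) := by
  have h0 : (fun z : 𝕜 => ((‖z‖ : ℝ) : 𝕜)) 0 = 0 := by simp
  have h1 : (PX : Set (X1 𝕜)) = {f | lip_norm.compLp h0 f = f} := by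
    ext f
    simp only [PX, mem_ofPred_eq]
    constructor
    · intro h
      ext1
      filter_upwards [lip_norm.coeFn_compLp h0 f, h] with x h1 h2
      rw [h1]
      exact (nonneg_iff_norm _).1 h2
    · intro h
      change ∀ᵐ x ∂mu1, ∃ c : ℝ, 0 ≤ c ∧ f x = (c : 𝕜)
      have h2 := lip_norm.coeFn_compLp h0 f
      rw [h] at h2
      filter_upwards [h2] with x h3
      exact (nonneg_iff_norm _).2 h3.symm
  rw [h1]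
  exact isClosed_eq (lip_norm.continuous_compLp h0) continuous_id

theorem PX_cone : Cone (PX : Set (X1 𝕜)) where
  closed := PX_closed
  zero := by
    change ∀ᵐ x ∂mu1, ∃ c : ℝ, 0 ≤ c ∧ (0 : X1 𝕜) x = (c : 𝕜)
    filter_upwards [Lp.coeFn_zero 𝕜 1 mu1] with x h
    exact ⟨0, le_rfl, by rw [h]; simp⟩
  add := by
    intro f hf k hk
    change ∀ᵐ x ∂mu1, ∃ c : ℝ, 0 ≤ c ∧ (f + k) x = (c : 𝕜)
    filter_upwards [Lp.coeFn_add f k, hf, hk] with x h1 h2 h3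
    obtain ⟨c, hc, h2⟩ := h2
    obtain ⟨d, hd, h3⟩ := h3
    refine ⟨c + d, by linarith, ?_⟩
    rw [h1, Pi.add_apply, h2, h3, RCLike.ofReal_add]
  smul := by
    intro c hc f hf
    change ∀ᵐ x ∂mu1, ∃ c' : ℝ, 0 ≤ c' ∧ (c • f) x = (c' : 𝕜)
    filter_upwards [Lp.coeFn_smul c f, hf] with x h1 h2
    obtain ⟨d, hd, h2⟩ := h2
    refine ⟨c * d, by positivity, ?_⟩
    rw [h1, Pi.smul_apply, h2, RCLike.ofReal_mul, RCLike.real_smul_eq_coe_mul]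

theorem J_pos {h : LR 𝕜} (hh : h ∈ (posR : Set (LR 𝕜))) : J hρ hρ1 h ∈ (PX : Set (X1 𝕜)) := by
  change ∀ᵐ x ∂mu1, ∃ c : ℝ, 0 ≤ c ∧ (J hρ hρ1 h) x = (c : 𝕜)
  filter_upwards [J_ae hρ hρ1 h, ae_psi' hρ hρ1 hh, ae_mu1.2 (Filter.Eventually.of_forall
      fun y (hy : 0 < y) => hy)] with y h1 h2 hy
  obtain ⟨c, hc, h2⟩ := h2
  rw [h1]
  unfold Jf
  have := rr_pos hρ hy
  refine ⟨1 / (rr ρ y * y) * c, by positivity, ?_⟩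
  rw [h2, RCLike.ofReal_mul]

theorem Jsymm_pos {f : X1 𝕜} (hf : f ∈ (PX : Set (X1 𝕜))) :
    (J hρ hρ1).symm f ∈ (posR : Set (LR 𝕜)) := by
  change ∀ᵐ x, ∃ c : ℝ, 0 ≤ c ∧ ((J hρ hρ1).symm f) x = (c : 𝕜)
  filter_upwards [Jsymm_ae hρ hρ1 f, ae_phi' hρ hρ1 hf] with s h1 h2
  obtain ⟨c, hc, h2⟩ := h2
  rw [h1]
  unfold Ji
  have h4 := phi_pos (ρ := ρ) s
  have h3 := rr_pos hρ h4
  refine ⟨rr ρ (phi ρ s) * phi ρ s * c, by positivity, ?_⟩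
  rw [h2, ← RCLike.ofReal_mul]

theorem UX_pos (t : ℝ) {f : X1 𝕜} (hf : f ∈ (PX : Set (X1 𝕜))) :
    UX hρ hρ1 hε t f ∈ (PX : Set (X1 𝕜)) := by
  rw [UX_apply]
  exact J_pos hρ hρ1 (Tg_pos hε t (Jsymm_pos hρ hρ1 hf))

end

end Pool.Agent.R212.GF
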