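import Mathlib
import Pool.Agent.R212.GF11

/-!
The flow and the formula for the unperturbed semigroup.
-/

open MeasureTheory Set Filter Topology
open scoped ENNReal

namespace Pool.Agent.R212.GF

variable {𝕜 : Type} [RCLike 𝕜]

/-- the flow -/
noncomputable def XX (ρ y t : ℝ) : ℝ := phi ρ (psi ρ y - t)

theorem phi_mono {ρ : ℝ} (hρ : 0 < ρ) : Monotone (phi ρ) := by
  intro s t hst
  unfold phi
  apply Real.exp_le_exp.2
  exact max_le_max (by nlinarith) hst

/-- the fragmentation rate -/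
noncomputable def aa (α y : ℝ) : ℝ := if y < 1 then α else 1

theorem aa_meas (α : ℝ) : Measurable (aa α) := by
  unfold aa
  exact Measurable.ite measurableSet_Iio measurable_const measurable_const

section

variable {ρ ε : ℝ} (hρ : 0 < ρ) (hρ1 : ρ ≤ 1) (hε : 0 ≤ ε)

include hρ hρ1

theorem rr_ge {y : ℝ} (hy : 0 < y) : ρ * y ≤ rr ρ y := by
  unfold rr
  split_ifs
  · exact le_rfl
  · nlinarith

theorem rr_intOn {x y : ℝ} (hx : 0 < x) {g : ℝ → ℝ} (hg : Measurable g) {C : ℝ}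
    (hC : ∀ z, |g z| ≤ C) : IntegrableOn (fun τ => g τ / rr ρ τ) (Icc x y) := by
  apply Measure.integrableOn_of_bounded (M := C / (ρ * x))
  · rw [Real.volume_Icc]; exact ENNReal.ofReal_ne_top
  · exact (hg.div rr_meas).aestronglyMeasurable
  · refine (ae_restrict_iff' measurableSet_Icc).2 (Filter.Eventually.of_forall fun z hz => ?_)
    have hz0 : 0 < z := hx.trans_le hz.1
    rw [Real.norm_eq_abs, abs_div, abs_of_pos (rr_pos hρ hz0)]
    have h1 := rr_ge hρ hρ1 hz0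
    have h2 : ρ * x ≤ ρ * z := by have := hz.1; nlinarith
    have h3 : 0 < ρ * x := by positivity
    have h4 : 0 ≤ C := (abs_nonneg _).trans (hC 0)
    have h5 := rr_pos hρ hz0
    gcongr
    · exact hC z
    · linarith

theorem int_rr {x y : ℝ} (hx : 0 < x) (hxy : x ≤ y) :
    ∫ τ in x..y, 1 / rr ρ τ = psi ρ y - psi ρ x := by
  apply integral_eq_of_hasDerivAt_off_countable_of_le (psi ρ) _ hxy (countable_singleton (1 : ℝ))
  · exact psi_contOn.mono fun z hz => hx.trans_le hz.1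
  · intro z hz
    exact psi_deriv hρ hρ1 (hx.trans hz.1.1) hz.2
  · rw [intervalIntegrable_iff_integrableOn_Icc_of_le hxy]
    exact rr_intOn hρ hρ1 hx measurable_const (C := 1) (by intro z; simp)

theorem XX_pos (y t : ℝ) : 0 < XX ρ y t := phi_pos _

theorem XX_le {y t : ℝ} (hy : 0 < y) (ht : 0 ≤ t) : XX ρ y t ≤ y := by
  have h1 := phi_mono hρ (show psi ρ y - t ≤ psi ρ y by linarith)
  rw [phi_psi hρ hρ1 hy] at h1
  exact h1

theorem XX_int {y t : ℝ} (hy : 0 < y) (ht : 0 ≤ t) :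
    ∫ τ in XX ρ y t..y, 1 / rr ρ τ = t := by
  rw [int_rr hρ hρ1 (XX_pos hρ hρ1 y t) (XX_le hρ hρ1 hy ht)]
  unfold XX
  rw [psi_phi hρ hρ1]
  ring

/-- the primitive of `a/r` -/
theorem int_aa {x y : ℝ} (hε : 0 ≤ ε) (hερ : ε ≤ ρ) (hx : 0 < x) (hxy : x ≤ y) :
    ∫ τ in x..y, aa (ρ - ε) τ / rr ρ τ =
      (Real.log y - lw ε (psi ρ y)) - (Real.log x - lw ε (psi ρ x)) := by
  apply integral_eq_of_hasDerivAt_off_countable_of_le (fun y => Real.log y - lw ε (psi ρ y)) _ hxy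
    (countable_singleton (1 : ℝ))
  · apply ContinuousOn.sub
    · exact Real.continuousOn_log.mono fun z hz => ne_of_gt (hx.trans_le hz.1)
    · exact (lw_cont ε).comp_continuousOn (psi_contOn.mono fun z hz => hx.trans_le hz.1)
  · intro z hz
    have hz0 : 0 < z := hx.trans hz.1.1
    have hz1 : z ≠ 1 := hz.2
    rcases lt_or_gt_of_ne hz1 with h | h
    · have h1 : HasDerivAt (fun z => Real.log z - ε * (Real.log z / ρ)) (z⁻¹ - ε * (z⁻¹ / ρ)) z :=
        (Real.hasDerivAt_log hz0.ne').sub (((Real.hasDerivAt_log hz0.ne').div_const ρ).const_mul ε)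
      have h2 : aa (ρ - ε) z / rr ρ z = z⁻¹ - ε * (z⁻¹ / ρ) := by
        unfold aa rr
        rw [if_pos h, if_pos h]
        field_simp
      rw [h2]
      refine h1.congr_of_eventuallyEq ?_
      filter_upwards [Ioo_mem_nhds hz0 h] with w hw
      rw [psi_of_lt hρ hρ1 hw.1 hw.2.le]
      unfold lw
      rw [min_eq_left]
      have h3 := Real.log_nonpos hw.1.le hw.2.le
      have h4 : Real.log w / ρ ≤ 0 := div_nonpos_of_nonpos_of_nonneg h3 hρ.le
      nlinarith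
    · have h1 : HasDerivAt (fun z => Real.log z - 0) z⁻¹ z := by
        simpa using (Real.hasDerivAt_log hz0.ne').sub_const (0 : ℝ)
      have h2 : aa (ρ - ε) z / rr ρ z = z⁻¹ := by
        unfold aa rr
        rw [if_neg (not_lt.2 h.le), if_neg (not_lt.2 h.le)]
        simp
      rw [h2]
      refine h1.congr_of_eventuallyEq ?_
      filter_upwards [Ioi_mem_nhds h] with w hw
      have hw1 : 1 ≤ w := le_of_lt hw
      rw [psi_of_ge hρ hρ1 hw1]
      unfold lw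
      rw [min_eq_right]
      have h3 := Real.log_nonneg hw1
      positivity
  · rw [intervalIntegrable_iff_integrableOn_Icc_of_le hxy]
    apply rr_intOn hρ hρ1 hx (aa_meas _) (C := 1)
    intro z
    unfold aa
    split_ifs
    · rw [abs_of_nonneg (by linarith)]; linarith
    · simp

/-- `∂_y X(y,t) = r(X)/r(y)` -/
theorem XX_deriv {y t : ℝ} (hy : 0 < y) (hy1 : y ≠ 1) (hyt : psi ρ y ≠ t) :
    deriv (fun z => XX ρ z t) y = rr ρ (XX ρ y t) / rr ρ y := by
  have h1 := psi_deriv hρ hρ1 hy hy1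
  have h2 := phi_deriv hρ hρ1 (s := psi ρ y - t) (sub_ne_zero.2 hyt)
  have h3 : HasDerivAt (fun z => phi ρ (psi ρ z - t)) (rr ρ (phi ρ (psi ρ y - t)) * (1 / rr ρ y)) y :=
    HasDerivAt.comp (h₂ := phi ρ) (h := fun z => psi ρ z - t) y h2 (h1.sub_const t)
  rw [show (fun z => XX ρ z t) = fun z => phi ρ (psi ρ z - t) from rfl, h3.deriv]
  unfold XX
  ring

/-- the formula for the unperturbed semigroup -/
theorem UX_formula (hερ : ε ≤ ρ) {t : ℝ} (ht : 0 ≤ t) (f : X1 𝕜) :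
    ∀ᵐ y ∂mu1, UX hρ hρ1 hε t f y =
      ((Real.exp (-∫ p in XX ρ y t..y, aa (ρ - ε) p / rr ρ p) : ℝ) : 𝕜) * f (XX ρ y t) *
      ((deriv (fun z => XX ρ z t) y : ℝ) : 𝕜) := by
  have hne : ∀ᵐ y ∂mu1, y ≠ 1 := by
    rw [ae_mu1]
    have : ∀ᵐ y : ℝ, y ≠ 1 := by
      rw [ae_iff]; simp
    filter_upwards [this] with y hy _ using hy
  have hne2 : ∀ᵐ y ∂mu1, psi ρ y ≠ t := by
    apply ae_psi' hρ hρ1 (p := fun s => s ≠ t)
    rw [ae_iff]; simp
  filter_upwards [J_ae hρ hρ1 (Tg hε t ((J hρ hρ1).symm f)),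
    ae_psi' hρ hρ1 (Tg_ae hε t ((J hρ hρ1).symm f)),
    ae_psi' hρ hρ1 (ae_comp_sub (Jsymm_ae hρ hρ1 f) t), hne, hne2,
    ae_mu1.2 (Filter.Eventually.of_forall fun y (hy : 0 < y) => hy)]
    with y h1 h2 h3 h4 h5 hy
  rw [UX_apply, h1]
  unfold Jf
  rw [h2]
  unfold tfun
  rw [h3]
  unfold Ji
  have hX : phi ρ (psi ρ y - t) = XX ρ y t := rfl
  have hX0 := XX_pos hρ hρ1 y t
  have hpX : psi ρ y - t = psi ρ (XX ρ y t) := by
    unfold XX; rw [psi_phi hρ hρ1]
  rw [hX, XX_deriv hρ hρ1 hy h4 h5, int_aa hρ hρ1 hε hερ hX0 (XX_le hρ hρ1 hy ht), hpX]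
  have h6 : (1 / (rr ρ y * y)) * (Real.exp (lw ε (psi ρ y) - lw ε (psi ρ (XX ρ y t))) *
      (rr ρ (XX ρ y t) * XX ρ y t)) =
      Real.exp (-((Real.log y - lw ε (psi ρ y)) - (Real.log (XX ρ y t) -
        lw ε (psi ρ (XX ρ y t))))) * (rr ρ (XX ρ y t) / rr ρ y) := by
    have h7 : Real.exp (-((Real.log y - lw ε (psi ρ y)) - (Real.log (XX ρ y t) -
        lw ε (psi ρ (XX ρ y t))))) = XX ρ y t / y *
          Real.exp (lw ε (psi ρ y) - lw ε (psi ρ (XX ρ y t))) := by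
      rw [show -((Real.log y - lw ε (psi ρ y)) - (Real.log (XX ρ y t) -
        lw ε (psi ρ (XX ρ y t)))) = Real.log (XX ρ y t) - Real.log y +
          (lw ε (psi ρ y) - lw ε (psi ρ (XX ρ y t))) by ring, Real.exp_add, Real.exp_sub,
          Real.exp_log hX0, Real.exp_log hy]
    rw [h7]
    have := rr_pos hρ hy
    field_simp
  have h8 := congrArg (fun x : ℝ => (x : 𝕜)) h6
  simp only [RCLike.ofReal_mul] at h8 ⊢
  calc _ = ((((1 / (rr ρ y * y) : ℝ) : 𝕜)) *
      (((Real.exp (lw ε (psi ρ y) - lw ε (psi ρ (XX ρ y t))) : ℝ) : 𝕜) *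
      (((rr ρ (XX ρ y t) : ℝ) : 𝕜) * ((XX ρ y t : ℝ) : 𝕜)))) * f (XX ρ y t) := by ring
    _ = _ := by rw [h8]; ring

end

end Pool.Agent.R212.GF
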