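import Mathlib
import Pool.Agent.R212.GF12

/-!
The data, the fragmentation operator and the main theorem.
-/

open MeasureTheory Set Filter Topology
open scoped ENNReal

namespace Pool.Agent.R212.GF

/-- the fragmentation kernel -/
noncomputable def bb (ρ ε θ x y : ℝ) : ℝ :=
  if 1 ≤ y then y * (gf ε (psi ρ x) / (rr ρ x * x)) else θ * (2 / y)

theorem gf_meas (ε : ℝ) : Measurable (gf ε) := by
  unfold gf
  exact Measurable.ite measurableSet_Iio (by fun_prop) measurable_const

theorem gf_nonneg {ε : ℝ} (hε : ε < 1 / 2) (s : ℝ) : 0 ≤ gf ε s := by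
  unfold gf
  split_ifs
  · have := Real.exp_pos ((1 / 2 - ε) * s)
    have : 0 < 1 / 2 - ε := by linarith
    positivity
  · exact le_rfl

theorem gf_lint {ε : ℝ} (hε : ε < 1 / 2) : ∫⁻ s, ENNReal.ofReal (gf ε s) = 1 := by
  rw [← ofReal_integral_eq_lintegral_ofReal (gf_int hε)
    (Filter.Eventually.of_forall (gf_nonneg hε))]
  have h1 : ∫ s, gf ε s = 1 := by
    have h2 : ∫ s, gf ε s = ∫ s in Iic (0 : ℝ), (1 / 2 - ε) * Real.exp ((1 / 2 - ε) * s) := by
      rw [integral_Iic_eq_integral_Iio, ← integral_indicator measurableSet_Iio]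
      apply integral_congr_ae
      refine Filter.Eventually.of_forall fun s => ?_
      unfold gf
      by_cases hs : s < 0
      · rw [if_pos hs, indicator_of_mem (show s ∈ Iio 0 from hs)]
      · rw [if_neg hs, indicator_of_notMem (show s ∉ Iio 0 from hs)]
    rw [h2, integral_const_mul]
    have h3 := integral_exp_mul_Iic (a := 1 / 2 - ε) (by linarith) 0
    rw [h3]
    have : (1 / 2 - ε) ≠ 0 := by linarith
    rw [mul_zero, Real.exp_zero, mul_one_div_cancel this]
  rw [h1, ENNReal.ofReal_one]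

section

variable {ρ ε θ : ℝ} (hρ : 0 < ρ) (hρ1 : ρ ≤ 1)

include hρ hρ1

theorem lint_r_zero : ∫⁻ τ in Ioo (0 : ℝ) 1, ENNReal.ofReal (1 / rr ρ τ) = ⊤ := by
  have h1 := cv1 hρ hρ1 ((Iio (0 : ℝ)).indicator 1)
  rw [lintegral_indicator_one measurableSet_Iio, Real.volume_Iio] at h1
  rw [← h1, ← Ioi_inter_Iio, inter_comm, ← Measure.restrict_restrict measurableSet_Iio,
    ← lintegral_indicator measurableSet_Iio]
  apply setLIntegral_congr_fun measurableSet_Ioi
  intro y hy
  have hy : 0 < y := hy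
  simp only
  by_cases h : y < 1
  · rw [indicator_of_mem (show y ∈ Iio 1 from h), indicator_of_mem, Pi.one_apply, mul_one]
    change psi ρ y < 0
    rw [psi_of_lt hρ hρ1 hy h.le]
    exact div_neg_of_neg_of_pos (Real.log_neg hy h) hρ
  · rw [indicator_of_notMem (show y ∉ Iio 1 from h), indicator_of_notMem, mul_zero]
    change ¬ (psi ρ y < 0)
    rw [psi_of_ge hρ hρ1 (not_lt.1 h), not_lt]
    exact Real.log_nonneg (not_lt.1 h)

theorem lint_r_top : ∫⁻ τ in Ioi (1 : ℝ), ENNReal.ofReal (1 / rr ρ τ) = ⊤ := by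
  have h1 := cv1 hρ hρ1 ((Ioi (0 : ℝ)).indicator 1)
  rw [lintegral_indicator_one measurableSet_Ioi, Real.volume_Ioi] at h1
  have h2 : Ioi (1 : ℝ) = Ioi 1 ∩ Ioi 0 := by
    rw [Ioi_inter_Ioi]; norm_num
  rw [← h1, h2, ← Measure.restrict_restrict measurableSet_Ioi,
    ← lintegral_indicator measurableSet_Ioi]
  apply setLIntegral_congr_fun measurableSet_Ioi
  intro y hy
  have hy : 0 < y := hy
  simp only
  by_cases h : 1 < y
  · rw [indicator_of_mem (show y ∈ Ioi 1 from h), indicator_of_mem, Pi.one_apply, mul_one]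
    change 0 < psi ρ y
    rw [psi_of_ge hρ hρ1 h.le]
    exact Real.log_pos h
  · rw [indicator_of_notMem (show y ∉ Ioi 1 from h), indicator_of_notMem, mul_zero]
    change ¬ (0 < psi ρ y)
    rw [psi_of_lt hρ hρ1 hy (not_lt.1 h), not_lt]
    exact div_nonpos_of_nonpos_of_nonneg (Real.log_nonpos hy.le (not_lt.1 h)) hρ.le

theorem gf_psi_zero {x : ℝ} (hx : 1 ≤ x) : gf ε (psi ρ x) = 0 := by
  unfold gf
  rw [if_neg]
  rw [psi_of_ge hρ hρ1 hx, not_lt]
  exact Real.log_nonneg hx

theorem bb_nonneg (hε : ε < 1 / 2) (hθ : 0 ≤ θ) {x y : ℝ} (hx : 0 < x) (hxy : x < y) :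
    0 ≤ bb ρ ε θ x y := by
  have hy := hx.trans hxy
  have h1 := rr_pos hρ hx
  have h2 := gf_nonneg hε (psi ρ x)
  unfold bb
  split_ifs <;> positivity

theorem bb_mass_ge (hε : ε < 1 / 2) {y : ℝ} (hy : 1 ≤ y) :
    ∫⁻ x in Ioo 0 y, ENNReal.ofReal (x * bb ρ ε θ x y) = ENNReal.ofReal y := by
  have hy0 : 0 < y := by linarith
  have h1 := cv1 hρ hρ1 (fun s => ENNReal.ofReal (gf ε s))
  rw [gf_lint hε] at h1
  have h2 : ENNReal.ofReal y = ENNReal.ofReal y *
      ∫⁻ x in Ioi (0 : ℝ), ENNReal.ofReal (1 / rr ρ x) * ENNReal.ofReal (gf ε (psi ρ x)) := by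
    rw [h1, mul_one]
  rw [h2, ← lintegral_const_mul]
  · rw [← Ioi_inter_Iio, inter_comm, ← Measure.restrict_restrict measurableSet_Iio,
      ← lintegral_indicator measurableSet_Iio]
    apply setLIntegral_congr_fun measurableSet_Ioi
    intro x hx
    have hx : 0 < x := hx
    simp only
    have hr := rr_pos hρ hx
    by_cases h : x < y
    · rw [indicator_of_mem (show x ∈ Iio y from h)]
      unfold bb
      rw [if_pos hy, ← ENNReal.ofReal_mul (by positivity), ← ENNReal.ofReal_mul hy0.le]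
      congr 1
      field_simp
    · rw [indicator_of_notMem (show x ∉ Iio y from h), gf_psi_zero hρ hρ1 (by
        push Not at h; linarith)]
      simp
  · exact (ENNReal.measurable_ofReal.comp (measurable_const.div rr_meas)).mul
      (ENNReal.measurable_ofReal.comp ((gf_meas ε).comp psi_meas))

theorem bb_mass_lt (hθ : 0 ≤ θ) {y : ℝ} (hy0 : 0 < y) (hy : y < 1) :
    ∫⁻ x in Ioo 0 y, ENNReal.ofReal (x * bb ρ ε θ x y) = ENNReal.ofReal (θ * y) := by
  have h1 : ∀ x ∈ Ioo 0 y, ENNReal.ofReal (x * bb ρ ε θ x y) =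
      ENNReal.ofReal (x * (θ * (2 / y))) := by
    intro x _
    unfold bb
    rw [if_neg (not_le.2 hy)]
  rw [setLIntegral_congr_fun measurableSet_Ioo h1]
  rw [← ofReal_integral_eq_lintegral_ofReal]
  · congr 1
    rw [← integral_Ioc_eq_integral_Ioo, ← intervalIntegral.integral_of_le hy0.le,
      intervalIntegral.integral_mul_const, integral_id]
    field_simp
    ring
  · have hI : IntegrableOn (fun x : ℝ => x * (θ * (2 / y))) (Icc 0 y) :=
      (by fun_prop : Continuous fun x : ℝ => x * (θ * (2 / y))).continuousOn.integrableOn_Icc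
    exact hI.mono_set Ioo_subset_Icc_self
  · refine (ae_restrict_iff' measurableSet_Ioo).2 (Filter.Eventually.of_forall fun x hx => ?_)
    have := hx.1
    simp only [Pi.zero_apply]
    positivity

/-- the data -/
noncomputable def DD (hε : ε < 1 / 2) (hα : ε ≤ ρ) (hθ : 0 ≤ θ) (hθ1 : θ ≤ 1) : Data where
  r := rr ρ
  a := aa (ρ - ε)
  b := bb ρ ε θ
  r_meas := rr_meas
  a_meas := aa_meas _
  b_meas := by
    unfold Function.uncurry bb
    apply Measurable.ite (measurableSet_le measurable_const measurable_snd)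
    · exact measurable_snd.mul ((((gf_meas ε).comp psi_meas).comp measurable_fst).div
        (((rr_meas.mul measurable_id)).comp measurable_fst))
    · fun_prop
  r_pos := fun x hx => rr_pos hρ hx
  r_loc := fun x y hx _ => rr_intOn hρ hρ1 hx measurable_const (C := 1) (by intro z; simp)
  r_zero := lint_r_zero hρ hρ1
  r_top := lint_r_top hρ hρ1
  a_nonneg := by
    intro x _
    unfold aa
    split_ifs
    · linarith
    · norm_num
  b_nonneg := fun x y hx hxy => bb_nonneg hρ hρ1 hε hθ hx hxy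
  b_mass := by
    intro y hy
    rcases lt_or_ge y 1 with h | h
    · rw [bb_mass_lt hρ hρ1 hθ hy h]
      apply ENNReal.ofReal_le_ofReal
      nlinarith
    · rw [bb_mass_ge hρ hρ1 hε h]

end

section

variable {𝕜 : Type} [RCLike 𝕜]

theorem X1_integrable (f : X1 𝕜) : Integrable (f : ℝ → 𝕜) mu1 :=
  memLp_one_iff_integrable.1 (Lp.memLp f)

/-- the functional `f ↦ ∫_1^∞ y f(y) dy` -/
noncomputable def Phi : X1 𝕜 →L[𝕜] 𝕜 :=
  LinearMap.mkContinuous
    { toFun := fun f => ∫ y in Ici (1 : ℝ), f y ∂mu1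
      map_add' := by
        intro f g
        rw [← integral_add (X1_integrable f).integrableOn (X1_integrable g).integrableOn]
        apply integral_congr_ae
        filter_upwards [ae_restrict_of_ae (Lp.coeFn_add f g)] with y h
        rw [h, Pi.add_apply]
      map_smul' := by
        intro c f
        simp only [RingHom.id_apply]
        rw [← integral_smul]
        apply integral_congr_ae
        filter_upwards [ae_restrict_of_ae (Lp.coeFn_smul c f)] with y h
        rw [h, Pi.smul_apply] }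
    1
    (by
      intro f
      simp only [LinearMap.coe_mk, AddHom.coe_mk, one_mul]
      refine (norm_integral_le_integral_norm _).trans ?_
      rw [L1.norm_eq_integral_norm]
      exact setIntegral_le_integral (X1_integrable f).norm
        (Filter.Eventually.of_forall fun _ => norm_nonneg _))

theorem Phi_apply (f : X1 𝕜) : Phi f = ∫ y in Ici (1 : ℝ), f y ∂mu1 := rfl

theorem mu1_restrict : mu1.restrict (Ici (1 : ℝ)) =
    (volume.restrict (Ici (1 : ℝ))).withDensity fun x => ENNReal.ofReal x := by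
  unfold mu1
  rw [restrict_withDensity measurableSet_Ici, Measure.restrict_restrict measurableSet_Ici]
  congr 2
  rw [inter_eq_left]
  intro x hx
  exact lt_of_lt_of_le one_pos (show (1 : ℝ) ≤ x from hx)

theorem Phi_vol (f : X1 𝕜) : Phi f = ∫ y in Ici (1 : ℝ), (y : 𝕜) * f y := by
  rw [Phi_apply, mu1_restrict, integral_withDensity_eq_integral_toReal_smul (by fun_prop)
    (Filter.Eventually.of_forall fun _ => ENNReal.ofReal_lt_top)]
  apply setIntegral_congr_fun measurableSet_Ici
  intro y hy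
  have hy : 1 ≤ y := hy
  simp only
  rw [ENNReal.toReal_ofReal (by linarith), RCLike.real_smul_eq_coe_mul]

theorem Phi_int (f : X1 𝕜) : IntegrableOn (fun y : ℝ => (y : 𝕜) * f y) (Ici (1 : ℝ)) := by
  have h1 : Integrable (f : ℝ → 𝕜) (mu1.restrict (Ici (1 : ℝ))) :=
    (X1_integrable f).integrableOn
  rw [mu1_restrict, integrable_withDensity_iff_integrable_smul' (by fun_prop)
    (Filter.Eventually.of_forall fun _ => ENNReal.ofReal_lt_top)] at h1
  refine h1.congr ?_
  refine (ae_restrict_iff' measurableSet_Ici).2 (Filter.Eventually.of_forall fun y hy => ?_)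
  have hy : 1 ≤ y := hy
  simp only
  rw [ENNReal.toReal_ofReal (by linarith), RCLike.real_smul_eq_coe_mul]

theorem Phi_pos {f : X1 𝕜} (hf : f ∈ (PX : Set (X1 𝕜))) : ∃ c : ℝ, 0 ≤ c ∧ Phi f = (c : 𝕜) := by
  refine ⟨∫ y in Ici (1 : ℝ), ‖f y‖ ∂mu1, integral_nonneg fun _ => norm_nonneg _, ?_⟩
  rw [Phi_apply, ← integral_ofReal]
  apply integral_congr_ae
  filter_upwards [ae_restrict_of_ae hf] with y hy
  exact ((nonneg_iff_norm _).1 hy).symm

end

end Pool.Agent.R212.GF
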