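import Mathlib
import Pool.Agent.R212.GF13

/-!
The main theorem.
-/

open MeasureTheory Set Filter Topology
open scoped ENNReal

namespace Pool.Agent.R212.GF

variable {𝕜 : Type} [RCLike 𝕜]

section

variable {ρ ε θ : ℝ} (hρ : 0 < ρ) (hρ1 : ρ ≤ 1)

/-- the daughter distribution in `X_1` -/
noncomputable def gX (hε : ε < 1 / 2) : X1 𝕜 := J hρ hρ1 (gR hε)

theorem gX_ae (hε : ε < 1 / 2) : ∀ᵐ x ∂mu1,
    (gX hρ hρ1 hε : X1 𝕜) x = ((gf ε (psi ρ x) / (rr ρ x * x) : ℝ) : 𝕜) := by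
  filter_upwards [J_ae hρ hρ1 (gR hε : LR 𝕜), ae_psi' hρ hρ1 (gR_ae (𝕜 := 𝕜) hε)] with x h1 h2
  unfold gX
  rw [h1]
  unfold Jf
  rw [h2, ← RCLike.ofReal_mul]
  congr 1
  ring

/-- the fragmentation operator -/
noncomputable def BX (hε : ε < 1 / 2) : X1 𝕜 →L[𝕜] X1 𝕜 := Phi.smulRight (gX hρ hρ1 hε)

theorem BX_apply (hε : ε < 1 / 2) (f : X1 𝕜) :
    BX hρ hρ1 hε f = Phi f • (gX hρ hρ1 hε : X1 𝕜) := rfl

theorem BX_isB (hε : ε < 1 / 2) (hα : ε ≤ ρ) (hθ : 0 ≤ θ) (hθ1 : θ ≤ 1)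
    (hαθ : (ρ - ε) * θ = 0) :
    IsB (DD hρ hρ1 hε hα hθ hθ1) (BX hρ hρ1 hε : X1 𝕜 →L[𝕜] X1 𝕜) := by
  intro f
  filter_upwards [Lp.coeFn_smul (Phi f) (gX hρ hρ1 hε : X1 𝕜), gX_ae (𝕜 := 𝕜) hρ hρ1 hε,
    ae_mu1.2 (Filter.Eventually.of_forall fun y (hy : 0 < y) => hy)] with x h1 h2 hx
  set c : ℝ := gf ε (psi ρ x) / (rr ρ x * x) with hc
  have hab : ∀ y, (((DD hρ hρ1 hε hα hθ hθ1).a y * (DD hρ hρ1 hε hα hθ hθ1).b x y : ℝ) : 𝕜) * f y =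
      (c : 𝕜) * (Ici (1 : ℝ)).indicator (fun y : ℝ => (y : 𝕜) * f y) y := by
    intro y
    change ((aa (ρ - ε) y * bb ρ ε θ x y : ℝ) : 𝕜) * f y = _
    unfold aa bb
    by_cases hy : 1 ≤ y
    · rw [indicator_of_mem (show y ∈ Ici 1 from hy), if_pos hy, if_neg (not_lt.2 hy), one_mul, ← hc,
        RCLike.ofReal_mul]
      ring
    · rw [indicator_of_notMem (show y ∉ Ici 1 from hy), if_neg hy, if_pos (not_le.1 hy),
        ← mul_assoc, hαθ, zero_mul, RCLike.ofReal_zero, zero_mul, mul_zero]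
  simp only [hab]
  have hI : Integrable ((Ici (1 : ℝ)).indicator fun y : ℝ => (y : 𝕜) * f y) :=
    (integrable_indicator_iff measurableSet_Ici).2 (Phi_int f)
  refine ⟨(hI.const_mul _).integrableOn, ?_⟩
  rw [BX_apply, h1, Pi.smul_apply, h2, integral_const_mul, smul_eq_mul, mul_comm]
  by_cases hx1 : x < 1
  · congr 1
    rw [setIntegral_indicator measurableSet_Ici, Phi_vol]
    congr 2
    symm
    rw [inter_eq_right]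
    intro y hy
    exact lt_of_lt_of_le hx1 hy
  · rw [hc, gf_psi_zero hρ hρ1 (not_lt.1 hx1)]
    simp

theorem Phi_u (hε : ε < 1 / 2) : Phi (J hρ hρ1 (uR hε) : X1 𝕜) = ((2 : ℝ) : 𝕜) := by
  rw [Phi_vol]
  have h1 : ∫ y in Ici (1 : ℝ), (y : 𝕜) * (J hρ hρ1 (uR hε) : X1 𝕜) y =
      ∫ y in Ici (1 : ℝ), ((y ^ (-(3 / 2) : ℝ) : ℝ) : 𝕜) := by
    apply setIntegral_congr_ae measurableSet_Ici
    have h2 := ae_mu1.1 (J_ae hρ hρ1 (uR hε : LR 𝕜))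
    have h3 := ae_mu1.1 (ae_psi' hρ hρ1 (uR_ae (𝕜 := 𝕜) hε))
    filter_upwards [h2, h3] with y h2 h3 hy
    have hy : 1 ≤ y := hy
    have hy0 : 0 < y := by linarith
    rw [h2 hy0]
    unfold Jf
    rw [h3 hy0, ← RCLike.ofReal_mul, ← RCLike.ofReal_mul]
    congr 1
    have e1 : rr ρ y = y := by unfold rr; rw [if_neg (not_lt.2 hy)]
    have e2 : uf ε (psi ρ y) = Real.exp (-(1 / 2) * Real.log y) := by
      unfold uf
      rw [psi_of_ge hρ hρ1 hy, if_neg (not_lt.2 (Real.log_nonneg hy))]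
    have e3 : Real.exp (-(1 / 2) * Real.log y) = y ^ (-(1 / 2) : ℝ) := by
      rw [Real.rpow_def_of_pos hy0]; congr 1; ring
    rw [e1, e2, e3]
    have e4 : y ^ (-(3 / 2) : ℝ) = y ^ (-(1 / 2) : ℝ) * y⁻¹ := by
      rw [← Real.rpow_neg_one y, ← Real.rpow_add hy0]; norm_num
    rw [e4]
    field_simp
  rw [h1, integral_Ici_eq_integral_Ioi, integral_ofReal]
  have h2 := integral_Ioi_rpow_of_lt (a := -(3 / 2)) (by norm_num) one_pos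
  rw [h2]
  norm_num

theorem uX_ne (hε : ε < 1 / 2) : (J hρ hρ1 (uR hε) : X1 𝕜) ≠ 0 := by
  intro h
  have h1 := Phi_u (𝕜 := 𝕜) hρ hρ1 hε
  rw [h, map_zero] at h1
  have : ((2 : ℝ) : 𝕜) ≠ 0 := by
    rw [Ne, RCLike.ofReal_eq_zero]; norm_num
  exact this h1.symm

theorem main (hε0 : 0 ≤ ε) (hε : ε < 1 / 2) (hα : ε ≤ ρ) (hθ : 0 ≤ θ) (hθ1 : θ ≤ 1)
    (hαθ : (ρ - ε) * θ = 0) : GeneratesWithGap 𝕜 (DD hρ hρ1 hε hα hθ hθ1) := by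
  have hU : Grp (UX hρ hρ1 hε0 : ℝ → X1 𝕜 →L[𝕜] X1 𝕜) := UX_grp hρ hρ1 hε0 (by linarith)
  have hV := Vop_isC0 hU Phi (gX hρ hρ1 hε)
  refine ⟨XX ρ, UX hρ hρ1 hε0, BX hρ hρ1 hε, Vop hU Phi (gX hρ hρ1 hε), ?_, ?_, ?_, ?_, hV, ?_,
    ?_, ?_⟩
  · intro y t hy ht
    exact ⟨XX_pos hρ hρ1 y t, XX_le hρ hρ1 hy ht, XX_int hρ hρ1 hy ht⟩
  · exact ⟨hU.zero, fun s t _ _ => hU.add s t, fun f => (hU.cont f).continuousOn⟩
  · intro t ht f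
    exact UX_formula hρ hρ1 hε0 hα ht f
  · exact BX_isB hρ hρ1 hε hα hθ hθ1 hαθ
  · intro t ht f hf
    refine Vop_pos hU Phi (gX hρ hρ1 hε) (P := PX) PX_cone
      (fun t _ x hx => UX_pos hρ hρ1 hε0 t hx) ?_ (fun x hx => Phi_pos hx) ht hf
    apply J_pos
    change ∀ᵐ s, ∃ c : ℝ, 0 ≤ c ∧ (gR hε : LR 𝕜) s = (c : 𝕜)
    filter_upwards [gR_ae (𝕜 := 𝕜) hε] with s hs
    exact ⟨_, gf_nonneg hε s, hs⟩
  · intro f g
    exact Vop_gen hU Phi (gX hρ hρ1 hε) f g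
  · refine ⟨(ε : EReal), ?_, ?_⟩
    · apply Vop_essType hU Phi (gX hρ hρ1 hε)
      · intro t ht
        have := UX_norm (𝕜 := 𝕜) hρ hρ1 hε0 t
        rwa [abs_of_pos ht] at this
      · intro t ht K hK
        exact UX_compact hρ hρ1 hε0 ht K hK
    · have h1 : InGen (Vop hU Phi (gX hρ hρ1 hε)) (J hρ hρ1 (uR hε) : X1 𝕜)
          (((1 / 2 : ℝ) : 𝕜) • (J hρ hρ1 (uR hε) : X1 𝕜)) := by
        rw [Vop_gen hU Phi (gX hρ hρ1 hε)]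
        refine ⟨_, UX_gen hρ hρ1 hε0 (uR_gen (𝕜 := 𝕜) hε0 hε), ?_⟩
        rw [map_sub, map_smul, map_smul, Phi_u]
        unfold gX
        abel
      have h2 := eig_of_gen hV h1
      have h3 := Vop_growth hU Phi (gX hρ hρ1 hε) (uX_ne hρ hρ1 hε) h2
      refine lt_of_lt_of_le ?_ h3
      exact_mod_cast hε

end

end Pool.Agent.R212.GF
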