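import Mathlib

/-!
# The outgoing dipole field in three dimensions

`u x = x₂ Φ(‖x‖²)` with `Φ(q) = exp(i √q) (1/q + i/(q √q))`: first and second derivatives.
-/

set_option autoImplicit false

open Complex InnerProductSpace

namespace Pool.Agent.R212.Helm

/-- three dimensional Euclidean space -/
abbrev E3 := EuclideanSpace ℝ (Fin 3)

/-- radial factor as a function of `q = r²` -/
noncomputable def Phi (q : ℝ) : ℂ :=
  Complex.exp (I * (Real.sqrt q : ℂ)) * ((1 / q : ℝ) + I * (1 / (q * Real.sqrt q) : ℝ))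

/-- first derivative of `Phi` -/
noncomputable def Phi1 (q : ℝ) : ℂ :=
  Complex.exp (I * (Real.sqrt q : ℂ)) *
    ((-(3 / 2) / q ^ 2 : ℝ) + I * ((1 / 2) / (q * Real.sqrt q) - (3 / 2) / (q ^ 2 * Real.sqrt q) : ℝ))

/-- second derivative of `Phi` -/
noncomputable def Phi2 (q : ℝ) : ℂ :=
  Complex.exp (I * (Real.sqrt q : ℂ)) *
    ((-(1 / 4) / q ^ 2 + (15 / 4) / q ^ 3 : ℝ)
      + I * (-(3 / 2) / (q ^ 2 * Real.sqrt q) + (15 / 4) / (q ^ 3 * Real.sqrt q) : ℝ))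

lemma hasDerivAt_exp (q : ℝ) (hq : 0 < q) :
    HasDerivAt (fun q : ℝ => Complex.exp (I * (Real.sqrt q : ℂ)))
      (Complex.exp (I * (Real.sqrt q : ℂ)) * (I * ((1 / (2 * Real.sqrt q) : ℝ) : ℂ))) q := by
  have h1 : HasDerivAt (fun q : ℝ => ((Real.sqrt q : ℝ) : ℂ)) ((1 / (2 * Real.sqrt q) : ℝ) : ℂ) q :=
    (Real.hasDerivAt_sqrt hq.ne').ofReal_comp
  exact (h1.const_mul I).cexp

lemma hasDerivAt_sqrtinv (q : ℝ) (hq : 0 < q) (n : ℕ) :
    HasDerivAt (fun q : ℝ => 1 / (q ^ n * Real.sqrt q))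
      (-((n : ℝ) + 1 / 2) / (q ^ (n + 1) * Real.sqrt q)) q := by
  have hs : 0 < Real.sqrt q := Real.sqrt_pos.mpr hq
  have hss : Real.sqrt q * Real.sqrt q = q := Real.mul_self_sqrt hq.le
  have hs2 : (Real.sqrt q)^2 = q := by rw [pow_two, hss]
  have h1 := (Real.hasDerivAt_sqrt hq.ne')
  have h2 : HasDerivAt (fun q : ℝ => q ^ n * Real.sqrt q)
      ((n : ℝ) * q ^ (n - 1) * Real.sqrt q + q ^ n * (1 / (2 * Real.sqrt q))) q := by
    exact (hasDerivAt_pow n q).mul h1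
  have h3 := h2.inv (by positivity)
  have h4 : (fun q : ℝ => 1 / (q ^ n * Real.sqrt q)) = (fun q : ℝ => q ^ n * Real.sqrt q)⁻¹ := by
    ext x; simp
  rw [h4]
  refine h3.congr_deriv ?_
  rcases n with _ | n
  · simp
    field_simp
    rw [hs2]
  · simp only [Nat.add_sub_cancel, Nat.cast_add, Nat.cast_one]
    field_simp
    rw [hs2]
    ring

lemma hasDerivAt_powinv (q : ℝ) (hq : 0 < q) (n : ℕ) :
    HasDerivAt (fun q : ℝ => 1 / q ^ n) (-(n : ℝ) / q ^ (n + 1)) q := by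
  have h2 := (hasDerivAt_pow n q).inv (by positivity)
  have h4 : (fun q : ℝ => 1 / q ^ n) = (fun q : ℝ => q ^ n)⁻¹ := by
    ext x; simp
  rw [h4]
  refine h2.congr_deriv ?_
  rcases n with _ | n
  · simp
  · simp only [Nat.add_sub_cancel]
    field_simp
    ring

lemma hasDerivAt_Phi (q : ℝ) (hq : 0 < q) : HasDerivAt Phi (Phi1 q) q := by
  have hs : 0 < Real.sqrt q := Real.sqrt_pos.mpr hq
  have hss : Real.sqrt q * Real.sqrt q = q := Real.mul_self_sqrt hq.le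
  have h1 := (hasDerivAt_powinv q hq 1).ofReal_comp
  have h2 := (hasDerivAt_sqrtinv q hq 1).ofReal_comp
  have h3 := (hasDerivAt_exp q hq).fun_mul (h1.fun_add (h2.const_mul I))
  have h4 : Phi = fun q : ℝ => (Complex.exp (I * (Real.sqrt q : ℂ))) *
      (((1 / q ^ 1 : ℝ) : ℂ) + I * ((1 / (q ^ 1 * Real.sqrt q) : ℝ) : ℂ)) := by
    ext x; simp [Phi]
  rw [h4]
  refine h3.congr_deriv ?_
  have hsc : ((Real.sqrt q : ℝ) : ℂ) ≠ 0 := by exact_mod_cast hs.ne'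
  have hqc : ((Real.sqrt q : ℝ) : ℂ) ^ 2 = (q : ℂ) := by
    rw [pow_two]; exact_mod_cast hss
  have hI : I * I = -1 := Complex.I_mul_I
  unfold Phi1
  push_cast
  rw [← hqc]
  generalize ((Real.sqrt q : ℝ) : ℂ) = s at *
  have : cexp (I * s) * (-(3 / 2) / (s ^ 2) ^ 2 + I * (1 / 2 / (s ^ 2 * s) - 3 / 2 / ((s ^ 2) ^ 2 * s)))
     - (cexp (I * s) * (I * (1 / (2 * s))) * (1 / (s ^ 2) ^ 1 + I * (1 / ((s ^ 2) ^ 1 * s))) +
      cexp (I * s) * (-1 / (s ^ 2) ^ (1 + 1) + I * (-(1 + 1 / 2) / ((s ^ 2) ^ (1 + 1) * s)))) =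
      -(cexp (I * s) * (I * I + 1) / (2 * s ^ 4)) := by
    field_simp
    ring
  rw [hI] at this
  simp only [neg_add_cancel, mul_zero, zero_div, neg_zero] at this
  linear_combination -this

lemma hasDerivAt_Phi1 (q : ℝ) (hq : 0 < q) : HasDerivAt Phi1 (Phi2 q) q := by
  have hs : 0 < Real.sqrt q := Real.sqrt_pos.mpr hq
  have hss : Real.sqrt q * Real.sqrt q = q := Real.mul_self_sqrt hq.le
  have h1 := ((hasDerivAt_powinv q hq 2).const_mul (-(3/2:ℝ))).ofReal_comp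
  have h2 := (((hasDerivAt_sqrtinv q hq 1).const_mul (1/2:ℝ)).fun_sub
    ((hasDerivAt_sqrtinv q hq 2).const_mul (3/2:ℝ))).ofReal_comp
  have h3 := (hasDerivAt_exp q hq).fun_mul (h1.fun_add (h2.const_mul I))
  have h4 : Phi1 = fun q : ℝ => (Complex.exp (I * (Real.sqrt q : ℂ))) *
      (((-(3/2) * (1 / q ^ 2) : ℝ) : ℂ) +
        I * (((1/2) * (1 / (q ^ 1 * Real.sqrt q)) - (3/2) * (1 / (q ^ 2 * Real.sqrt q)) : ℝ) : ℂ)) := by
    ext x
    simp only [Phi1]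
    congr 3
    · push_cast; ring
    · push_cast; ring
  rw [h4]
  refine h3.congr_deriv ?_
  have hsc : ((Real.sqrt q : ℝ) : ℂ) ≠ 0 := by exact_mod_cast hs.ne'
  have hqc : ((Real.sqrt q : ℝ) : ℂ) ^ 2 = (q : ℂ) := by
    rw [pow_two]; exact_mod_cast hss
  have hI : I * I = -1 := Complex.I_mul_I
  unfold Phi2
  push_cast
  rw [← hqc]
  generalize ((Real.sqrt q : ℝ) : ℂ) = s at *
  rw [← sub_eq_zero]
  have key : ∀ J : ℂ, J * J = -1 →
      cexp (I * s) * (J * (1 / (2 * s))) *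
          (-(3 / 2) * (1 / (s ^ 2) ^ 2) + J * (1 / 2 * (1 / ((s ^ 2) ^ 1 * s)) - 3 / 2 * (1 / ((s ^ 2) ^ 2 * s)))) +
        cexp (I * s) *
          (-(3 / 2) * (-2 / (s ^ 2) ^ (2 + 1)) +
            J *
              (1 / 2 * (-(1 + 1 / 2) / ((s ^ 2) ^ (1 + 1) * s)) -
                3 / 2 * (-(2 + 1 / 2) / ((s ^ 2) ^ (2 + 1) * s)))) -
      cexp (I * s) *
        (-(1 / 4) / (s ^ 2) ^ 2 + 15 / 4 / (s ^ 2) ^ 3 +
          J * (-(3 / 2) / ((s ^ 2) ^ 2 * s) + 15 / 4 / ((s ^ 2) ^ 3 * s))) = 0 := by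
    intro J hJ
    field_simp
    ring_nf
    have hJ2 : J ^ 2 = -1 := by rw [pow_two]; exact hJ
    rw [hJ2]
    ring
  have := key I hI
  norm_num at this ⊢
  exact this

/-- the radial equation `4 q Φ'' + 10 Φ' + Φ = 0` -/
lemma Phi_ode (q : ℝ) (hq : 0 < q) : 4 * (q : ℂ) * Phi2 q + 10 * Phi1 q + Phi q = 0 := by
  have hs : 0 < Real.sqrt q := Real.sqrt_pos.mpr hq
  have hss : Real.sqrt q * Real.sqrt q = q := Real.mul_self_sqrt hq.le
  have hsc : ((Real.sqrt q : ℝ) : ℂ) ≠ 0 := by exact_mod_cast hs.ne'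
  have hqc : ((Real.sqrt q : ℝ) : ℂ) ^ 2 = (q : ℂ) := by
    rw [pow_two]; exact_mod_cast hss
  unfold Phi Phi1 Phi2
  push_cast
  rw [← hqc]
  generalize ((Real.sqrt q : ℝ) : ℂ) = s at *
  field_simp
  ring

/-- the coordinate `x₂` as a complex valued real-linear map -/
noncomputable def Z : E3 →L[ℝ] ℂ := Complex.ofRealCLM.comp (EuclideanSpace.proj (2 : Fin 3))

/-- `N x h = ⟪x, h⟫` as a complex number -/
noncomputable def N : E3 →L[ℝ] (E3 →L[ℝ] ℂ) :=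
  (ContinuousLinearMap.compL ℝ E3 ℝ ℂ Complex.ofRealCLM).comp (innerSL ℝ)

@[simp] lemma Z_apply (x : E3) : Z x = ((x 2 : ℝ) : ℂ) := by simp [Z]

@[simp] lemma N_apply (x h : E3) : N x h = ((inner ℝ x h : ℝ) : ℂ) := by
  simp [N]

/-- the outgoing dipole field -/
noncomputable def u (x : E3) : ℂ := Z x * Phi (‖x‖ ^ 2)

/-- its derivative -/
noncomputable def u1 (x : E3) : E3 →L[ℝ] ℂ :=
  Phi (‖x‖ ^ 2) • Z + (2 * Z x * Phi1 (‖x‖ ^ 2)) • N x

/-- the derivative of `u1` -/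
noncomputable def u2 (x h : E3) : E3 →L[ℝ] ℂ :=
  (2 * Phi1 (‖x‖ ^ 2) * N x h) • Z + (2 * Z h * Phi1 (‖x‖ ^ 2)
    + 4 * Z x * Phi2 (‖x‖ ^ 2) * N x h) • N x + (2 * Z x * Phi1 (‖x‖ ^ 2)) • N h

lemma hasFDerivAt_comp_normsq {G : ℝ → ℂ} {G' : ℂ} (x : E3)
    (h : HasDerivAt G G' (‖x‖ ^ 2)) :
    HasFDerivAt (fun x : E3 => G (‖x‖ ^ 2)) ((2 * G') • N x) x := by
  have h1 : HasFDerivAt (fun x : E3 => ‖x‖ ^ 2) (2 • (innerSL ℝ x)) x :=
    (hasStrictFDerivAt_norm_sq x).hasFDerivAt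
  have h2 := h.hasFDerivAt.comp x h1
  refine h2.congr_fderiv ?_
  ext v
  simp
  ring

lemma hasFDerivAt_u (x : E3) (hx : x ≠ 0) : HasFDerivAt u (u1 x) x := by
  have hq : 0 < ‖x‖ ^ 2 := by positivity
  have h1 := hasFDerivAt_comp_normsq x (hasDerivAt_Phi _ hq)
  have h2 := (Z.hasFDerivAt (x := x)).fun_mul h1
  refine h2.congr_fderiv ?_
  ext v
  simp [u1]
  ring

lemma hasFDerivAt_u1 (x : E3) (hx : x ≠ 0) :
    ∃ L : E3 →L[ℝ] (E3 →L[ℝ] ℂ), HasFDerivAt u1 L x ∧ ∀ h, L h = u2 x h := by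
  have hq : 0 < ‖x‖ ^ 2 := by positivity
  have h1 := hasFDerivAt_comp_normsq x (hasDerivAt_Phi _ hq)
  have h2 := hasFDerivAt_comp_normsq x (hasDerivAt_Phi1 _ hq)
  have h3 := h1.smul_const Z
  have h4 := ((Z.hasFDerivAt (x := x)).const_mul 2).fun_mul h2
  have h5 := h4.fun_smul (N.hasFDerivAt (x := x))
  have h6 := h3.fun_add h5
  refine ⟨_, h6, ?_⟩
  intro h
  ext w
  simp [u2]
  ring

lemma fderiv_u (x : E3) (hx : x ≠ 0) : fderiv ℝ u x = u1 x := (hasFDerivAt_u x hx).fderiv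

lemma fderiv_fderiv_u (x : E3) (hx : x ≠ 0) (h : E3) :
    fderiv ℝ (fderiv ℝ u) x h = u2 x h := by
  have h1 : fderiv ℝ u =ᶠ[nhds x] u1 := by
    filter_upwards [isOpen_ne.mem_nhds hx] with y hy
    exact fderiv_u y hy
  rw [h1.fderiv_eq]
  obtain ⟨L, hL, hL2⟩ := hasFDerivAt_u1 x hx
  rw [hL.fderiv, hL2]

/-- `u` solves the Helmholtz equation away from the origin -/
lemma helmholtz_u (x : E3) (hx : x ≠ 0) : Laplacian.laplacian u x + u x = 0 := by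
  have hq : 0 < ‖x‖ ^ 2 := by positivity
  rw [laplacian_eq_iteratedFDeriv_orthonormalBasis u (EuclideanSpace.basisFun (Fin 3) ℝ)]
  simp only [iteratedFDeriv_two_apply, Matrix.cons_val_zero, Matrix.cons_val_one,
    EuclideanSpace.basisFun_apply, fderiv_fderiv_u x hx, Fin.sum_univ_three, u2]
  have h0 := Phi_ode _ hq
  have hn : ((‖x‖ ^ 2 : ℝ) : ℂ) = (x 0 : ℂ) ^ 2 + (x 1 : ℂ) ^ 2 + (x 2 : ℂ) ^ 2 := by
    rw [EuclideanSpace.norm_sq_eq, Fin.sum_univ_three]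
    simp
  simp only [u, add_apply, smul_apply, Z_apply, N_apply, smul_eq_mul,
    EuclideanSpace.inner_single_right]
  generalize Phi (‖x‖ ^ 2) = a at *
  generalize Phi1 (‖x‖ ^ 2) = b at *
  generalize Phi2 (‖x‖ ^ 2) = c at *
  rw [hn] at h0
  simp
  linear_combination ((x 2 : ℝ) : ℂ) * h0

end Pool.Agent.R212.Helm
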