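import Pool.Agent.R212.Helm1

/-!
# The Lagrangian density of the outgoing dipole field
-/

set_option autoImplicit false

open Complex InnerProductSpace MeasureTheory Set Filter Topology

namespace Pool.Agent.R212.Helm

lemma normSq_expI (s : ℝ) (w : ℂ) : Complex.normSq (Complex.exp (I * s) * w) = Complex.normSq w := by
  rw [map_mul, Complex.normSq_eq_norm_sq]
  rw [mul_comm I, Complex.norm_exp_ofReal_mul_I]
  simp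

lemma norm_sq_expI (s a b : ℝ) :
    ‖Complex.exp (I * s) * ((a : ℂ) + I * (b : ℂ))‖ ^ 2 = a ^ 2 + b ^ 2 := by
  rw [← Complex.normSq_eq_norm_sq, normSq_expI, mul_comm I, Complex.normSq_add_mul_I]

lemma norm_u_sq (x : E3) (hx : x ≠ 0) :
    ‖u x‖ ^ 2 = (x 2) ^ 2 * (1 / (‖x‖ ^ 2) ^ 2 + 1 / (‖x‖ ^ 2) ^ 3) := by
  have hq : 0 < ‖x‖ ^ 2 := by positivity
  generalize hqd : ‖x‖ ^ 2 = q at *
  have hs : 0 < Real.sqrt q := Real.sqrt_pos.mpr hq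
  have hss : Real.sqrt q ^ 2 = q := Real.sq_sqrt hq.le
  have h1 : u x = Complex.exp (I * (Real.sqrt q : ℝ)) *
      (((x 2 * (1 / q) : ℝ) : ℂ) + I * ((x 2 * (1 / (q * Real.sqrt q)) : ℝ) : ℂ)) := by
    simp only [u, Z_apply, Phi, hqd]
    push_cast
    ring
  rw [h1, norm_sq_expI]
  field_simp
  rw [hss]

lemma norm_u1_sq (x : E3) (i : Fin 3) :
    ‖u1 x (EuclideanSpace.single i 1)‖ ^ 2 =
      ((if i = 2 then 1 else 0) * (1 / ‖x‖ ^ 2)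
        + 2 * x 2 * x i * (-(3 / 2) / (‖x‖ ^ 2) ^ 2)) ^ 2
      + ((if i = 2 then 1 else 0) * (1 / (‖x‖ ^ 2 * Real.sqrt (‖x‖ ^ 2)))
        + 2 * x 2 * x i * ((1 / 2) / (‖x‖ ^ 2 * Real.sqrt (‖x‖ ^ 2))
          - (3 / 2) / ((‖x‖ ^ 2) ^ 2 * Real.sqrt (‖x‖ ^ 2)))) ^ 2 := by
  rw [← norm_sq_expI (Real.sqrt (‖x‖ ^ 2))]
  congr 2
  simp only [u1, add_apply, smul_apply, smul_eq_mul, Z_apply, N_apply, Phi, Phi1,
    EuclideanSpace.inner_single_right]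
  fin_cases i
  · simp
    ring
  · simp
    ring
  · simp
    ring

/-- the Lagrangian density of `u` -/
lemma density_eq (x : E3) (hx : x ≠ 0) :
    ‖u x‖ ^ 2 - ∑ i : Fin 3, ‖fderiv ℝ u x (EuclideanSpace.single i 1)‖ ^ 2 =
      (2 * (x 2) ^ 2 - ‖x‖ ^ 2) / (‖x‖ ^ 2) ^ 3 - (3 * (x 2) ^ 2 + ‖x‖ ^ 2) / (‖x‖ ^ 2) ^ 4 := by
  have hq : 0 < ‖x‖ ^ 2 := by positivity
  rw [fderiv_u x hx, norm_u_sq x hx]
  simp only [norm_u1_sq x, Fin.sum_univ_three]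
  have hn : ‖x‖ ^ 2 = (x 0) ^ 2 + (x 1) ^ 2 + (x 2) ^ 2 := by
    rw [EuclideanSpace.norm_sq_eq, Fin.sum_univ_three]
    simp
  generalize hqd : ‖x‖ ^ 2 = q at *
  have hs : 0 < Real.sqrt q := Real.sqrt_pos.mpr hq
  have hss : Real.sqrt q ^ 2 = q := Real.sq_sqrt hq.le
  have hx0 : (x 0) ^ 2 = q - (x 1) ^ 2 - (x 2) ^ 2 := by linarith
  simp only [Fin.isValue, Fin.reduceEq, if_false, if_true, zero_mul, one_mul, zero_add]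
  generalize x 0 = a at *
  generalize x 1 = b at *
  generalize x 2 = c at *
  have h1 : (1 / (q * √q)) ^ 2 = 1 / q ^ 3 := by
    rw [div_pow, mul_pow, hss]; ring
  have e1 : (2 * c * a * (-(3 / 2) / q ^ 2)) ^ 2 + (2 * c * a * (1 / 2 / (q * √q) - 3 / 2 / (q ^ 2 * √q))) ^ 2
      = 4 * c ^ 2 * a ^ 2 * (9 / 4 / q ^ 4 + (1 / 4 / q ^ 3 - 3 / 2 / q ^ 4 + 9 / 4 / q ^ 5)) := by
    field_simp
    rw [hss]
    ring
  have e2 : (2 * c * b * (-(3 / 2) / q ^ 2)) ^ 2 + (2 * c * b * (1 / 2 / (q * √q) - 3 / 2 / (q ^ 2 * √q))) ^ 2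
      = 4 * c ^ 2 * b ^ 2 * (9 / 4 / q ^ 4 + (1 / 4 / q ^ 3 - 3 / 2 / q ^ 4 + 9 / 4 / q ^ 5)) := by
    field_simp
    rw [hss]
    ring
  have e3 : (1 / q + 2 * c * c * (-(3 / 2) / q ^ 2)) ^ 2 +
      (1 / (q * √q) + 2 * c * c * (1 / 2 / (q * √q) - 3 / 2 / (q ^ 2 * √q))) ^ 2
      = 1 / q ^ 2 + 1 / q ^ 3 + 4 * c ^ 2 * (-(3 / 2) / q ^ 3 + 1 / 2 / q ^ 3 - 3 / 2 / q ^ 4)
        + 4 * c ^ 2 * c ^ 2 * (9 / 4 / q ^ 4 + (1 / 4 / q ^ 3 - 3 / 2 / q ^ 4 + 9 / 4 / q ^ 5)) := by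
    field_simp
    rw [hss]
    ring
  rw [e1, e2, e3, hx0]
  field_simp
  ring

lemma contDiffAt_Phi (q : ℝ) (hq : 0 < q) : ContDiffAt ℝ (⊤ : ℕ∞) Phi q := by
  have h0 : ContDiffAt ℝ (⊤ : ℕ∞) (fun q : ℝ => Real.sqrt q) q := Real.contDiffAt_sqrt hq.ne'
  have hs : Real.sqrt q ≠ 0 := (Real.sqrt_pos.mpr hq).ne'
  have h1 : ContDiffAt ℝ (⊤ : ℕ∞) (fun q : ℝ => ((Real.sqrt q : ℝ) : ℂ)) q :=
    Complex.ofRealCLM.contDiff.contDiffAt.comp q h0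
  have h2 : ContDiffAt ℝ (⊤ : ℕ∞) (fun q : ℝ => ((1 / q : ℝ) : ℂ)) q := by
    refine Complex.ofRealCLM.contDiff.contDiffAt.comp q ?_
    exact contDiffAt_const.div contDiffAt_id hq.ne'
  have h3 : ContDiffAt ℝ (⊤ : ℕ∞) (fun q : ℝ => ((1 / (q * Real.sqrt q) : ℝ) : ℂ)) q := by
    refine Complex.ofRealCLM.contDiff.contDiffAt.comp q ?_
    exact contDiffAt_const.div (contDiffAt_id.mul h0) (mul_ne_zero hq.ne' hs)
  exact ((contDiffAt_const.mul h1).cexp).mul (h2.add (contDiffAt_const.mul h3))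

lemma contDiffAt_u (x : E3) (hx : x ≠ 0) : ContDiffAt ℝ (⊤ : ℕ∞) u x := by
  have hq : 0 < ‖x‖ ^ 2 := by positivity
  have h1 : ContDiffAt ℝ (⊤ : ℕ∞) (fun x : E3 => ‖x‖ ^ 2) x := (contDiff_norm_sq ℝ).contDiffAt
  have h2 : ContDiffAt ℝ (⊤ : ℕ∞) (fun x : E3 => Phi (‖x‖ ^ 2)) x :=
    ContDiffAt.comp (g := Phi) (f := fun x : E3 => ‖x‖ ^ 2) x (contDiffAt_Phi _ hq) h1
  exact (Z.contDiff.contDiffAt).mul h2

end Pool.Agent.R212.Helm
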