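import Pool.Agent.R212.Helm2

/-!
# Radiation condition and geometry of the obstacle
-/

set_option autoImplicit false

open Complex InnerProductSpace MeasureTheory Set Filter Topology

namespace Pool.Agent.R212.Helm

lemma abs_coord_le (x : E3) : |x 2| ≤ ‖x‖ := by
  have := PiLp.norm_apply_le x 2
  simpa using this

lemma tendsto_inv_norm : Tendsto (fun x : E3 => ‖x‖⁻¹) (Bornology.cobounded E3) (𝓝 0) :=
  tendsto_inv_atTop_zero.comp tendsto_norm_cobounded_atTop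

/-- `r e^{-ir} u(x) → f(x/r)` with `f ω = ω₂` -/
lemma radiation_u : Tendsto (fun x : E3 => (‖x‖ : ℂ) * Complex.exp (-(I * ‖x‖)) * u x -
    (((‖x‖⁻¹ • x) 2 : ℝ) : ℂ)) (Bornology.cobounded E3) (𝓝 0) := by
  have h0 := tendsto_inv_norm
  rw [tendsto_zero_iff_norm_tendsto_zero]
  refine squeeze_zero' (Eventually.of_forall fun _ => norm_nonneg _) ?_ h0
  have h1 : ∀ᶠ x : E3 in Bornology.cobounded E3, x ≠ 0 := by
    have := tendsto_norm_cobounded_atTop (E := E3)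
    filter_upwards [this.eventually_gt_atTop 0] with x hx
    exact norm_pos_iff.mp hx
  filter_upwards [h1] with x hx
  have hn : 0 < ‖x‖ := norm_pos_iff.mpr hx
  have hs : Real.sqrt (‖x‖ ^ 2) = ‖x‖ := Real.sqrt_sq hn.le
  have hnc : (‖x‖ : ℂ) ≠ 0 := by exact_mod_cast hn.ne'
  have h2 : (‖x‖ : ℂ) * Complex.exp (-(I * ‖x‖)) * u x - (((‖x‖⁻¹ • x) 2 : ℝ) : ℂ)
      = I * ((x 2 / ‖x‖ ^ 2 : ℝ) : ℂ) := by
    have he : Complex.exp (-(I * ‖x‖)) * Complex.exp (I * ‖x‖) = 1 := by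
      rw [← Complex.exp_add]; simp
    simp only [u, Z_apply, Phi, hs, PiLp.smul_apply, smul_eq_mul]
    push_cast
    have : (‖x‖ : ℂ) * cexp (-(I * ↑‖x‖)) * (↑(x.ofLp 2) * (cexp (I * ↑‖x‖) * (1 / ↑‖x‖ ^ 2 + I * (1 / (↑‖x‖ ^ 2 * ↑‖x‖)))))
       - (↑‖x‖)⁻¹ * ↑(x.ofLp 2) = (Complex.exp (-(I * ‖x‖)) * Complex.exp (I * ‖x‖)) *
       ((‖x‖ : ℂ) * (x.ofLp 2 : ℂ) * (1 / ↑‖x‖ ^ 2 + I * (1 / (↑‖x‖ ^ 2 * ↑‖x‖)))) 
       - (↑‖x‖)⁻¹ * ↑(x.ofLp 2) := by ring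
    rw [this, he]
    field_simp
    ring
  rw [h2, norm_mul, Complex.norm_I, one_mul, Complex.norm_real, Real.norm_eq_abs, abs_div,
    abs_of_pos (pow_pos hn 2)]
  rw [div_le_iff₀ (pow_pos hn 2)]
  calc |x 2| ≤ ‖x‖ := abs_coord_le x
    _ = ‖x‖⁻¹ * ‖x‖ ^ 2 := by field_simp

/-- Sommerfeld's condition `r (∂_r u - i u) → 0` -/
lemma sommerfeld_u : Tendsto (fun x : E3 => (‖x‖ : ℂ) * (fderiv ℝ u x (‖x‖⁻¹ • x) - I * u x))
    (Bornology.cobounded E3) (𝓝 0) := by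
  have h0 : Tendsto (fun x : E3 => ‖x‖⁻¹ * (1 + 2 * ‖x‖⁻¹)) (Bornology.cobounded E3) (𝓝 0) := by
    have := tendsto_inv_norm.mul ((tendsto_const_nhds (x := (1:ℝ))).add
      ((tendsto_const_nhds (x := (2:ℝ))).mul tendsto_inv_norm))
    simpa using this
  rw [tendsto_zero_iff_norm_tendsto_zero]
  refine squeeze_zero' (Eventually.of_forall fun _ => norm_nonneg _) ?_ h0
  have h1 : ∀ᶠ x : E3 in Bornology.cobounded E3, x ≠ 0 := by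
    have := tendsto_norm_cobounded_atTop (E := E3)
    filter_upwards [this.eventually_gt_atTop 0] with x hx
    exact norm_pos_iff.mp hx
  filter_upwards [h1] with x hx
  have hn : 0 < ‖x‖ := norm_pos_iff.mpr hx
  have hs : Real.sqrt (‖x‖ ^ 2) = ‖x‖ := Real.sqrt_sq hn.le
  have hnc : (‖x‖ : ℂ) ≠ 0 := by exact_mod_cast hn.ne'
  have h2 : (‖x‖ : ℂ) * (fderiv ℝ u x (‖x‖⁻¹ • x) - I * u x)
      = Complex.exp (I * ‖x‖) * (((- (x 2 / ‖x‖ ^ 2) : ℝ) : ℂ) + I * ((- (2 * x 2 / ‖x‖ ^ 3) : ℝ) : ℂ)) := by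
    rw [fderiv_u x hx]
    simp only [u1, u, Z_apply, Phi, Phi1, hs, PiLp.smul_apply, smul_eq_mul, N_apply, add_apply,
      smul_apply, inner_smul_right, real_inner_self_eq_norm_sq]
    push_cast
    have hI : I ^ 2 = -1 := by rw [pow_two]; exact Complex.I_mul_I
    field_simp
    ring_nf
    rw [hI]
    ring
  rw [h2]
  have h3 := norm_sq_expI ‖x‖ (-(x 2 / ‖x‖ ^ 2)) (-(2 * x 2 / ‖x‖ ^ 3))
  have h4 : ‖Complex.exp (I * ‖x‖) * (((- (x 2 / ‖x‖ ^ 2) : ℝ) : ℂ)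
      + I * ((- (2 * x 2 / ‖x‖ ^ 3) : ℝ) : ℂ))‖ ^ 2 ≤ (‖x‖⁻¹ * (1 + 2 * ‖x‖⁻¹)) ^ 2 := by
    rw [h3]
    have hc : (x 2) ^ 2 ≤ ‖x‖ ^ 2 := by
      have := abs_coord_le x
      exact sq_le_sq' (by linarith [neg_abs_le (x 2)]) ((le_abs_self _).trans this)
    have e1 : (-(x 2 / ‖x‖ ^ 2)) ^ 2 + (-(2 * x 2 / ‖x‖ ^ 3)) ^ 2 =
        (x 2) ^ 2 * (‖x‖⁻¹ ^ 4 + 4 * ‖x‖⁻¹ ^ 6) := by
      field_simp
      ring
    rw [e1]
    have e2 : (‖x‖⁻¹ * (1 + 2 * ‖x‖⁻¹)) ^ 2 = ‖x‖ ^ 2 * (‖x‖⁻¹ ^ 4 + 4 * ‖x‖⁻¹ ^ 6)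
        + 4 * ‖x‖⁻¹ ^ 3 := by
      field_simp
      ring
    rw [e2]
    have : 0 ≤ ‖x‖⁻¹ := by positivity
    have h5 : (x 2) ^ 2 * (‖x‖⁻¹ ^ 4 + 4 * ‖x‖⁻¹ ^ 6) ≤ ‖x‖ ^ 2 * (‖x‖⁻¹ ^ 4 + 4 * ‖x‖⁻¹ ^ 6) := by
      apply mul_le_mul_of_nonneg_right hc
      positivity
    have h6 : 0 ≤ 4 * ‖x‖⁻¹ ^ 3 := by positivity
    linarith
  exact (pow_le_pow_iff_left₀ (norm_nonneg _) (by positivity) two_ne_zero).mp h4

/-- defining function of the obstacle -/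
noncomputable def g (x : E3) : ℝ :=
  (x 2) ^ 2 - (1 - ((x 0) ^ 2 + (x 1) ^ 2) / 10 ^ 12) * (9 + 2 * ((x 0) ^ 2 + (x 1) ^ 2))

lemma contDiff_coord (i : Fin 3) : ContDiff ℝ (⊤ : ℕ∞) (fun x : E3 => x i) :=
  (EuclideanSpace.proj (𝕜 := ℝ) i).contDiff

lemma contDiff_g : ContDiff ℝ (⊤ : ℕ∞) g := by
  unfold g
  have h0 := contDiff_coord 0
  have h1 := contDiff_coord 1
  have h2 := contDiff_coord 2
  exact (h2.pow 2).sub ((contDiff_const.sub (((h0.pow 2).add (h1.pow 2)).div_const _)).mul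
    (contDiff_const.add (contDiff_const.mul ((h0.pow 2).add (h1.pow 2)))))

lemma norm_sq_E3 (x : E3) : ‖x‖ ^ 2 = (x 0) ^ 2 + (x 1) ^ 2 + (x 2) ^ 2 := by
  rw [EuclideanSpace.norm_sq_eq, Fin.sum_univ_three]
  simp

/-- the obstacle -/
def V : Set E3 := {x | g x ≤ 0}

lemma isClosed_V : IsClosed V := isClosed_le contDiff_g.continuous continuous_const

lemma V_bound (x : E3) (hx : x ∈ V) : ‖x‖ ≤ 10 ^ 7 := by
  have h : g x ≤ 0 := hx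
  unfold g at h
  have hs : 0 ≤ (x 0) ^ 2 + (x 1) ^ 2 := by positivity
  have h2 := norm_sq_E3 x
  have hz : 0 ≤ (x 2) ^ 2 := by positivity
  generalize (x 0) ^ 2 + (x 1) ^ 2 = s at *
  generalize (x 2) ^ 2 = z at *
  have hs2 : s ≤ 10 ^ 12 := by
    by_contra hcon
    push Not at hcon
    have : (1 - s / 10 ^ 12) < 0 := by
      have : 1 < s / 10 ^ 12 := by rw [lt_div_iff₀ (by norm_num)]; linarith
      linarith
    have h3 : (1 - s / 10 ^ 12) * (9 + 2 * s) < 0 := mul_neg_of_neg_of_pos this (by linarith)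
    linarith
  have hz2 : z ≤ 9 + 2 * s := by
    have : (1 - s / 10 ^ 12) * (9 + 2 * s) ≤ 1 * (9 + 2 * s) := by
      apply mul_le_mul_of_nonneg_right _ (by linarith)
      have : 0 ≤ s / 10 ^ 12 := by positivity
      linarith
    linarith
  have h3 : ‖x‖ ^ 2 ≤ (10 ^ 7) ^ 2 := by
    rw [h2]; norm_num at *; linarith
  exact (pow_le_pow_iff_left₀ (norm_nonneg _) (by positivity) two_ne_zero).mp h3

lemma isCompact_V : IsCompact V := by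
  refine Metric.isCompact_of_isClosed_isBounded isClosed_V ?_
  refine (Metric.isBounded_iff_subset_closedBall (0 : E3)).mpr ⟨10 ^ 7, ?_⟩
  intro x hx
  rw [mem_closedBall_zero_iff]
  exact V_bound x hx

lemma starConvex_V : StarConvex ℝ (0 : E3) V := by
  rw [starConvex_zero_iff]
  intro x hx t ht0 ht1
  have h : g x ≤ 0 := hx
  show g (t • x) ≤ 0
  unfold g at *
  simp only [PiLp.smul_apply, smul_eq_mul]
  have hs : 0 ≤ (x 0) ^ 2 + (x 1) ^ 2 := by positivity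
  have e1 : (t * x 0) ^ 2 + (t * x 1) ^ 2 = t ^ 2 * ((x 0) ^ 2 + (x 1) ^ 2) := by ring
  have e2 : (t * x 2) ^ 2 = t ^ 2 * (x 2) ^ 2 := by ring
  rw [e1, e2]
  generalize (x 0) ^ 2 + (x 1) ^ 2 = s at *
  generalize (x 2) ^ 2 = z at *
  have ht2 : t ^ 2 ≤ 1 := pow_le_one₀ ht0 ht1
  have h3 : t ^ 2 * (z - (1 - s / 10 ^ 12) * (9 + 2 * s)) ≤ 0 :=
    mul_nonpos_of_nonneg_of_nonpos (by positivity) h
  have h4 : 0 ≤ (1 - t ^ 2) * (9 + 2 * t ^ 2 * s ^ 2 / 10 ^ 12) := by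
    apply mul_nonneg (by linarith)
    positivity
  nlinarith [h3, h4]

lemma g_zero : g 0 < 0 := by
  unfold g; norm_num

/-- gradient of the defining function -/
lemma hasFDerivAt_g (x : E3) : HasFDerivAt g
    ((2 * x 2) • (EuclideanSpace.proj (𝕜 := ℝ) (2 : Fin 3) : E3 →L[ℝ] ℝ)
      - (2 - 9 / 10 ^ 12 - 4 * ((x 0) ^ 2 + (x 1) ^ 2) / 10 ^ 12) •
        ((2 * x 0) • (EuclideanSpace.proj (𝕜 := ℝ) (0 : Fin 3) : E3 →L[ℝ] ℝ)
        + (2 * x 1) • (EuclideanSpace.proj (𝕜 := ℝ) (1 : Fin 3) : E3 →L[ℝ] ℝ))) x := by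
  have h0 := ((EuclideanSpace.proj (𝕜 := ℝ) (0 : Fin 3) : E3 →L[ℝ] ℝ).hasFDerivAt (x := x)).pow 2
  have h1 := ((EuclideanSpace.proj (𝕜 := ℝ) (1 : Fin 3) : E3 →L[ℝ] ℝ).hasFDerivAt (x := x)).pow 2
  have h2 := ((EuclideanSpace.proj (𝕜 := ℝ) (2 : Fin 3) : E3 →L[ℝ] ℝ).hasFDerivAt (x := x)).pow 2
  have h3 := h0.fun_add h1
  have h4 := (((h3.const_mul ((10 ^ 12 : ℝ)⁻¹)).const_sub 1).fun_mul ((h3.const_mul 2).const_add 9))
  have h5 := h2.fun_sub h4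
  have h6 : g = fun x : E3 => (EuclideanSpace.proj (𝕜 := ℝ) (2 : Fin 3) : E3 →L[ℝ] ℝ) x ^ 2 -
      (1 - (10 ^ 12 : ℝ)⁻¹ * ((EuclideanSpace.proj (𝕜 := ℝ) (0 : Fin 3) : E3 →L[ℝ] ℝ) x ^ 2
        + (EuclideanSpace.proj (𝕜 := ℝ) (1 : Fin 3) : E3 →L[ℝ] ℝ) x ^ 2)) *
      (9 + 2 * ((EuclideanSpace.proj (𝕜 := ℝ) (0 : Fin 3) : E3 →L[ℝ] ℝ) x ^ 2
        + (EuclideanSpace.proj (𝕜 := ℝ) (1 : Fin 3) : E3 →L[ℝ] ℝ) x ^ 2)) := by
    ext x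
    have hp : ∀ i, (EuclideanSpace.proj (𝕜 := ℝ) i : E3 →L[ℝ] ℝ) x = x i := fun _ => rfl
    simp only [g, hp]
    ring
  rw [h6]
  refine h5.congr_fderiv ?_
  ext v
  simp
  ring

/-- the gradient of `g` does not vanish on `{g = 0}` -/
lemma fderiv_g_ne_zero (x : E3) (hx : g x = 0) : fderiv ℝ g x ≠ 0 := by
  rw [(hasFDerivAt_g x).fderiv]
  intro hcon
  have h0 := DFunLike.congr_fun hcon (EuclideanSpace.single 0 1)
  have h1 := DFunLike.congr_fun hcon (EuclideanSpace.single 1 1)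
  have h2 := DFunLike.congr_fun hcon (EuclideanSpace.single 2 1)
  simp at h0 h1 h2
  unfold g at hx
  rw [h2] at hx
  have hs : 0 ≤ (x 0) ^ 2 + (x 1) ^ 2 := by positivity
  have h3 : (1 - ((x 0) ^ 2 + (x 1) ^ 2) / 10 ^ 12) * (9 + 2 * ((x 0) ^ 2 + (x 1) ^ 2)) = 0 := by
    linarith
  have h4 : (x 0) ^ 2 + (x 1) ^ 2 = 10 ^ 12 := by
    rcases mul_eq_zero.mp h3 with h | h
    · field_simp at h; linarith
    · linarith
  rw [h4] at h0 h1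
  have e : (2 - 9 / 10 ^ 12 - 4 * 10 ^ 12 / 10 ^ 12 : ℝ) ≠ 0 := by norm_num
  have h5 : x 0 = 0 := by
    rcases h0 with h | h
    · exact absurd h e
    · exact h
  have h6 : x 1 = 0 := by
    rcases h1 with h | h
    · exact absurd h e
    · exact h
  rw [h5, h6] at h4
  norm_num at h4

end Pool.Agent.R212.Helm
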