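import Pool.Agent.R212.Helm3

/-!
# Positivity of the integrated Lagrangian
-/

set_option autoImplicit false

open Complex InnerProductSpace MeasureTheory Set Filter Topology

namespace Pool.Agent.R212.Helm

/-- Lagrangian density of a field -/
noncomputable def dens (w : E3 → ℂ) (x : E3) : ℝ :=
  ‖w x‖ ^ 2 - ∑ i : Fin 3, ‖fderiv ℝ w x (EuclideanSpace.single i 1)‖ ^ 2

/-- closed form of the density of `u` -/
noncomputable def D (x : E3) : ℝ :=
  (2 * (x 2) ^ 2 - ‖x‖ ^ 2) / (‖x‖ ^ 2) ^ 3 - (3 * (x 2) ^ 2 + ‖x‖ ^ 2) / (‖x‖ ^ 2) ^ 4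

lemma dens_u (x : E3) (hx : x ≠ 0) : dens u x = D x := density_eq x hx

lemma not_mem_V_ne_zero (x : E3) (hx : x ∉ V) : x ≠ 0 := by
  rintro rfl
  exact hx g_zero.le

lemma z_sq_le (x : E3) : (x 2) ^ 2 ≤ ‖x‖ ^ 2 := by
  rw [norm_sq_E3]; nlinarith [sq_nonneg (x 0), sq_nonneg (x 1)]

lemma out_small (x : E3) (hx : x ∉ V) (hr : ‖x‖ ^ 2 < 10 ^ 12 / 4) :
    27 / 4 ≤ (x 2) ^ 2 - ((x 0) ^ 2 + (x 1) ^ 2) := by
  have h : 0 < g x := not_le.mp hx
  rw [norm_sq_E3] at hr
  unfold g at h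
  have hs : 0 ≤ (x 0) ^ 2 + (x 1) ^ 2 := by positivity
  have hz : 0 ≤ (x 2) ^ 2 := by positivity
  generalize (x 0) ^ 2 + (x 1) ^ 2 = s at *
  generalize (x 2) ^ 2 = z at *
  have h1 : 3 / 4 ≤ 1 - s / 10 ^ 12 := by
    have : s / 10 ^ 12 ≤ 1 / 4 := by
      rw [div_le_iff₀ (by norm_num)]; linarith
    linarith
  have h2 : 3 / 4 * (9 + 2 * s) ≤ (1 - s / 10 ^ 12) * (9 + 2 * s) :=
    mul_le_mul_of_nonneg_right h1 (by linarith)
  linarith

lemma out_norm (x : E3) (hx : x ∉ V) : 4 ≤ ‖x‖ ^ 2 := by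
  by_cases hr : ‖x‖ ^ 2 < 10 ^ 12 / 4
  · have := out_small x hx hr
    rw [norm_sq_E3]
    nlinarith [sq_nonneg (x 0), sq_nonneg (x 1)]
  · push Not at hr
    have : (4 : ℝ) ≤ 10 ^ 12 / 4 := by norm_num
    linarith

/-- `|D| ≤ 2/r⁴` outside the obstacle -/
lemma abs_D_le (x : E3) (hx : x ∉ V) : |D x| ≤ 2 / ‖x‖ ^ 4 := by
  have hq := out_norm x hx
  have hz := z_sq_le x
  have hz0 : 0 ≤ (x 2) ^ 2 := by positivity
  have h4 : ‖x‖ ^ 4 = (‖x‖ ^ 2) ^ 2 := by ring
  rw [h4]
  unfold D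
  generalize ‖x‖ ^ 2 = q at *
  generalize (x 2) ^ 2 = z at *
  have hq0 : 0 < q := by linarith
  have e : (2 * z - q) / q ^ 3 - (3 * z + q) / q ^ 4 = ((2 * z - q) * q - (3 * z + q)) / q ^ 4 := by
    field_simp
  have e2 : 2 / q ^ 2 = 2 * q ^ 2 / q ^ 4 := by field_simp
  rw [e, e2, abs_div, abs_of_pos (pow_pos hq0 4)]
  apply div_le_div_of_nonneg_right _ (pow_pos hq0 4).le
  rw [abs_le]
  constructor
  · nlinarith
  · nlinarith

lemma D_lower_small (x : E3) (hx : x ∉ V) (hr : ‖x‖ ^ 2 < 10 ^ 12 / 4) :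
    2 / (‖x‖ ^ 2) ^ 3 ≤ D x := by
  have h1 := out_small x hx hr
  have hq := out_norm x hx
  have h2 := norm_sq_E3 x
  have hs : 0 ≤ (x 0) ^ 2 + (x 1) ^ 2 := by positivity
  have hz0 : 0 ≤ (x 2) ^ 2 := by positivity
  unfold D
  generalize ‖x‖ ^ 2 = q at *
  generalize (x 2) ^ 2 = z at *
  generalize (x 0) ^ 2 + (x 1) ^ 2 = s at *
  have hq0 : 0 < q := by linarith
  have e : (2 * z - q) / q ^ 3 - (3 * z + q) / q ^ 4 = ((2 * z - q) * q - (3 * z + q)) / q ^ 4 := by
    field_simp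
  have e2 : 2 / q ^ 3 = 2 * q / q ^ 4 := by field_simp
  rw [e, e2]
  apply div_le_div_of_nonneg_right _ (pow_pos hq0 4).le
  nlinarith

/-- comparison function for the tail -/
noncomputable def G (a r : ℝ) : ℝ := if a ≤ r then 2 / r ^ 4 else 0

lemma G_nonneg (a r : ℝ) : 0 ≤ G a r := by
  unfold G; split_ifs <;> positivity

lemma G_eq (a : ℝ) (ha : 0 < a) : EqOn (fun y : ℝ => y ^ (Module.finrank ℝ E3 - 1) • G a y)
    (indicator (Ici a) fun y => 2 * y ^ (-2 : ℝ)) (Ioi 0) := by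
  intro y hy
  have hy0 : (0:ℝ) < y := hy
  have hf : Module.finrank ℝ E3 = 3 := by simp
  simp only [hf, G, smul_eq_mul, indicator, mem_Ici]
  split_ifs with h
  · have : y ^ (-2 : ℝ) = (y ^ 2)⁻¹ := by
      rw [Real.rpow_neg hy0.le]; norm_num
    rw [this]
    field_simp
  · simp

lemma integrable_G (a : ℝ) (ha : 0 < a) : Integrable (fun x : E3 => G a ‖x‖) volume := by
  rw [integrable_fun_norm_addHaar volume (f := G a)]
  rw [integrableOn_congr_fun (G_eq a ha) measurableSet_Ioi]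
  rw [← integrable_indicator_iff measurableSet_Ioi, indicator_indicator,
    integrable_indicator_iff (measurableSet_Ioi.inter measurableSet_Ici)]
  have h1 : IntegrableOn (fun y : ℝ => 2 * y ^ (-2 : ℝ)) (Ici a) := by
    rw [integrableOn_Ici_iff_integrableOn_Ioi]
    exact (integrableOn_Ioi_rpow_of_lt (by norm_num) ha).const_mul 2
  exact h1.mono_set inter_subset_right

lemma integral_G (a : ℝ) (ha : 0 < a) : ∫ x : E3, G a ‖x‖ =
    3 * volume.real (Metric.ball (0 : E3) 1) * (2 / a) := by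
  rw [integral_fun_norm_addHaar volume (G a)]
  rw [setIntegral_congr_fun measurableSet_Ioi (G_eq a ha)]
  have hf : Module.finrank ℝ E3 = 3 := by simp
  rw [setIntegral_indicator measurableSet_Ici]
  have h2 : Ioi (0:ℝ) ∩ Ici a = Ici a := by
    ext y; simp only [mem_inter_iff, mem_Ioi, mem_Ici]
    constructor
    · exact fun h => h.2
    · exact fun h => ⟨by linarith, h⟩
  rw [h2, integral_Ici_eq_integral_Ioi, integral_const_mul, integral_Ioi_rpow_of_lt (by norm_num) ha, hf]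
  have h3 : a ^ ((-2:ℝ) + 1) = a⁻¹ := by
    norm_num [Real.rpow_neg_one]
  rw [h3]
  simp only [smul_eq_mul, nsmul_eq_mul]
  push_cast
  field_simp
  norm_num

lemma measurable_D : Measurable D := by
  unfold D
  have h2 : Measurable (fun x : E3 => x 2) := (contDiff_coord 2).continuous.measurable
  have hn : Measurable (fun x : E3 => ‖x‖ ^ 2) := (continuous_norm.pow 2).measurable
  fun_prop

lemma measurableSet_V : MeasurableSet V := isClosed_V.measurableSet

lemma integrableOn_D : IntegrableOn D Vᶜ volume := by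
  have h1 := (integrable_G 2 (by norm_num)).integrableOn (s := Vᶜ)
  refine Integrable.mono' h1 measurable_D.aestronglyMeasurable ?_
  rw [ae_restrict_iff' measurableSet_V.compl]
  refine Eventually.of_forall fun x hx => ?_
  have hx' : x ∉ V := hx
  have h2 : 2 ≤ ‖x‖ := by
    have := out_norm x hx'
    nlinarith [norm_nonneg x]
  rw [G, if_pos h2]
  exact abs_D_le x hx'

/-- centre of a small ball outside the obstacle -/
noncomputable def p5 : E3 := EuclideanSpace.single 2 5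

lemma ball_sub (x : E3) (hx : x ∈ Metric.ball p5 1) : x ∉ V ∧ ‖x‖ ^ 2 ≤ 36 := by
  rw [Metric.mem_ball, dist_eq_norm] at hx
  have h1 : ‖x - p5‖ ^ 2 < 1 := by nlinarith [norm_nonneg (x - p5)]
  rw [norm_sq_E3] at h1
  simp [p5] at h1
  have hs : 0 ≤ (x 0) ^ 2 + (x 1) ^ 2 := by positivity
  constructor
  · intro hV
    have h : g x ≤ 0 := hV
    unfold g at h
    have hz : 4 < x 2 := by nlinarith [sq_nonneg (x 0), sq_nonneg (x 1)]
    have hs1 : (x 0) ^ 2 + (x 1) ^ 2 < 1 := by nlinarith [sq_nonneg (x 2 - 5)]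
    generalize (x 0) ^ 2 + (x 1) ^ 2 = s at *
    have : (1 - s / 10 ^ 12) * (9 + 2 * s) ≤ 1 * (9 + 2 * s) := by
      apply mul_le_mul_of_nonneg_right _ (by linarith)
      have : 0 ≤ s / 10 ^ 12 := by positivity
      linarith
    nlinarith
  · have h2 : ‖x‖ ≤ 6 := by
      have h3 : ‖p5‖ = 5 := by simp [p5]
      have : ‖x‖ ≤ ‖x - p5‖ + ‖p5‖ := by
        have := norm_add_le (x - p5) p5
        simpa using this
      linarith
    nlinarith [norm_nonneg x]

/-- the integrated Lagrangian is positive -/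
lemma integral_D_pos : 0 < ∫ x in Vᶜ, D x := by
  set B : Set E3 := Metric.ball p5 1 with hB
  have hBm : MeasurableSet B := measurableSet_ball
  set R : ℝ := 5 * 10 ^ 5 with hR
  have hGi := (integrable_G R (by norm_num [hR])).integrableOn (s := Vᶜ)
  have hBfin : volume B ≠ ⊤ := measure_ball_lt_top.ne
  have hIi : IntegrableOn (indicator B fun _ : E3 => (2 / 46656 : ℝ)) Vᶜ volume := by
    refine Integrable.integrableOn ?_
    rw [integrable_indicator_iff hBm]
    exact integrableOn_const hBfin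
  have hlow : ∀ x ∈ Vᶜ, (indicator B (fun _ : E3 => (2 / 46656 : ℝ)) x - G R ‖x‖) ≤ D x := by
    intro x hx
    have hxV : x ∉ V := hx
    by_cases hr : R ≤ ‖x‖
    · have hxB : x ∉ B := by
        intro hxB
        have := (ball_sub x hxB).2
        have h6 : (6:ℝ) < ‖x‖ := by
          refine lt_of_lt_of_le ?_ hr
          norm_num [hR]
        nlinarith
      rw [indicator_of_notMem hxB, G, if_pos hr]
      have := abs_D_le x hxV
      have := neg_abs_le (D x)
      linarith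
    · rw [G, if_neg hr]
      push Not at hr
      have hr2 : ‖x‖ ^ 2 < 10 ^ 12 / 4 := by
        have : ‖x‖ ^ 2 < R ^ 2 := by nlinarith [norm_nonneg x]
        have h2 : R ^ 2 = 10 ^ 12 / 4 := by norm_num [hR]
        linarith
      have h3 := D_lower_small x hxV hr2
      have hq := out_norm x hxV
      have hq0 : 0 < ‖x‖ ^ 2 := by linarith
      by_cases hxB : x ∈ B
      · rw [indicator_of_mem hxB]
        have h4 := (ball_sub x hxB).2
        have h5 : (‖x‖ ^ 2) ^ 3 ≤ 46656 := by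
          calc (‖x‖ ^ 2) ^ 3 ≤ 36 ^ 3 := pow_le_pow_left₀ hq0.le h4 3
            _ = 46656 := by norm_num
        have h6 : 2 / 46656 ≤ 2 / (‖x‖ ^ 2) ^ 3 :=
          div_le_div_of_nonneg_left (by norm_num) (pow_pos hq0 3) h5
        linarith
      · rw [indicator_of_notMem hxB]
        have : 0 ≤ 2 / (‖x‖ ^ 2) ^ 3 := by positivity
        linarith
  have h1 : ∫ x in Vᶜ, (indicator B (fun _ : E3 => (2 / 46656 : ℝ)) x - G R ‖x‖) ≤
      ∫ x in Vᶜ, D x :=
    setIntegral_mono_on (hIi.sub hGi) integrableOn_D measurableSet_V.compl hlow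
  have h2 : ∫ x in Vᶜ, (indicator B (fun _ : E3 => (2 / 46656 : ℝ)) x - G R ‖x‖) =
      (∫ x in Vᶜ, indicator B (fun _ : E3 => (2 / 46656 : ℝ)) x) - ∫ x in Vᶜ, G R ‖x‖ :=
    integral_sub hIi hGi
  have h3 : ∫ x in Vᶜ, indicator B (fun _ : E3 => (2 / 46656 : ℝ)) x =
      volume.real (Metric.ball (0 : E3) 1) * (2 / 46656) := by
    rw [setIntegral_indicator hBm, setIntegral_const]
    have : Vᶜ ∩ B = B := by
      ext x; simp only [mem_inter_iff, mem_compl_iff]
      exact ⟨fun h => h.2, fun h => ⟨(ball_sub x h).1, h⟩⟩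
    rw [this, smul_eq_mul, hB]
    congr 1
    rw [Measure.real, Measure.real, Measure.addHaar_ball_center]
  have h4 : ∫ x in Vᶜ, G R ‖x‖ ≤ 3 * volume.real (Metric.ball (0 : E3) 1) * (2 / R) := by
    rw [← integral_G R (by norm_num [hR])]
    exact setIntegral_le_integral (integrable_G R (by norm_num [hR]))
      (Eventually.of_forall fun x => G_nonneg R ‖x‖)
  have h5 : 0 < volume.real (Metric.ball (0 : E3) 1) := by
    rw [Measure.real]
    exact ENNReal.toReal_pos (Metric.measure_ball_pos volume 0 one_pos).ne' measure_ball_lt_top.ne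
  rw [h2, h3] at h1
  have h6 : 0 < volume.real (Metric.ball (0 : E3) 1) * (2 / 46656) -
      3 * volume.real (Metric.ball (0 : E3) 1) * (2 / R) := by
    have : volume.real (Metric.ball (0 : E3) 1) * (2 / 46656) -
      3 * volume.real (Metric.ball (0 : E3) 1) * (2 / R) =
      volume.real (Metric.ball (0 : E3) 1) * (2 / 46656 - 3 * (2 / R)) := by ring
    rw [this]
    apply mul_pos h5
    norm_num [hR]
  linarith

end Pool.Agent.R212.Helm
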