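import Mathlib

open Set Filter Metric
open scoped NNReal Topology

namespace Pool.Agent.R212

/-- Global solutions of autonomous ODEs with a bounded globally Lipschitz right-hand side. -/
theorem global_ode {E : Type*} [NormedAddCommGroup E] [NormedSpace ℝ E] [CompleteSpace E]
    {f : E → E} {K L : ℝ≥0} (hf : LipschitzWith K f) (hb : ∀ x, ‖f x‖ ≤ L) (x₀ : E) :
    ∃ γ : ℝ → E, γ 0 = x₀ ∧ ∀ t, HasDerivAt γ (f (γ t)) t := by
  have key : ∀ n : ℕ, ∃ γ : ℝ → E, γ 0 = x₀ ∧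
      ∀ t ∈ Ioo (-((n : ℝ) + 1)) ((n : ℝ) + 1), HasDerivAt γ (f (γ t)) t := by
    intro n
    have h0 : (0 : ℝ) ∈ Icc (-((n : ℝ) + 1)) ((n : ℝ) + 1) := by
      constructor <;> linarith [(Nat.cast_nonneg n : (0 : ℝ) ≤ n)]
    have hPL : IsPicardLindelof (fun _ : ℝ => f) (⟨0, h0⟩ : Icc (-((n : ℝ) + 1)) ((n : ℝ) + 1)) x₀
        (L * (n + 1)) 0 L K := by
      refine ⟨fun t _ => hf.lipschitzOnWith, fun x _ => continuousOn_const,
        fun t _ x _ => hb x, ?_⟩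
      simp
    obtain ⟨γ, hγ0, hγ⟩ := IsPicardLindelof.exists_eq_forall_mem_Icc_hasDerivWithinAt₀ hPL
    refine ⟨γ, hγ0, fun t ht => ?_⟩
    exact (hγ t (Ioo_subset_Icc_self ht)).hasDerivAt (Icc_mem_nhds ht.1 ht.2)
  choose γ hγ0 hγ using key
  have huniq : ∀ m n : ℕ, m ≤ n → ∀ t ∈ Ioo (-((m : ℝ) + 1)) ((m : ℝ) + 1), γ m t = γ n t := by
    intro m n hmn t ht
    have hmn' : (m : ℝ) ≤ n := by exact_mod_cast hmn
    have hm0 : (0 : ℝ) ≤ m := Nat.cast_nonneg m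
    refine ODE_solution_unique_of_mem_Ioo (v := fun _ => f) (s := fun _ => univ) (K := K) (t₀ := 0)
      (fun t _ => hf.lipschitzOnWith) ⟨by linarith, by linarith⟩
      (fun t ht => ⟨hγ m t ht, trivial⟩) (fun t ht => ⟨hγ n t ⟨by linarith [ht.1], by
        linarith [ht.2]⟩, trivial⟩) (by rw [hγ0, hγ0]) ht
  refine ⟨fun t => γ ⌈|t|⌉₊ t, by simp [hγ0], fun t => ?_⟩
  have heq : ∀ s, |s| < |t| + 1 → γ ⌈|s|⌉₊ s = γ (⌈|t|⌉₊ + 1) s := by
    intro s hs
    apply huniq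
    · rw [Nat.ceil_le]
      push_cast
      linarith [Nat.le_ceil (|t|)]
    · have := Nat.le_ceil (|s|)
      rw [mem_Ioo, ← abs_lt]
      linarith
  have hev : (fun s => γ ⌈|s|⌉₊ s) =ᶠ[𝓝 t] γ (⌈|t|⌉₊ + 1) := by
    have : ∀ᶠ s in 𝓝 t, |s| < |t| + 1 :=
      (continuous_abs.tendsto t).eventually (gt_mem_nhds (by linarith))
    filter_upwards [this] with s hs using heq s hs
  have h1 : HasDerivAt (γ (⌈|t|⌉₊ + 1)) (f (γ (⌈|t|⌉₊ + 1) t)) t := by
    apply hγ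
    have := Nat.le_ceil (|t|)
    rw [mem_Ioo, ← abs_lt]
    push_cast
    linarith
  have h2 := h1.congr_of_eventuallyEq hev
  have h3 := heq t (by linarith)
  rw [← h3] at h2
  exact h2

/-- Uniqueness of global solutions. -/
theorem unique_ode {E : Type*} [NormedAddCommGroup E] [NormedSpace ℝ E]
    {f : E → E} {K : ℝ≥0} (hf : LipschitzWith K f) {γ δ : ℝ → E}
    (hγ : ∀ t, HasDerivAt γ (f (γ t)) t) (hδ : ∀ t, HasDerivAt δ (f (δ t)) t)
    {a b : ℝ} (h : γ a = δ b) : ∀ t, γ (t + a) = δ (t + b) := by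
  have h1 : (fun t => γ (t + a)) = (fun t => δ (t + b)) := by
    refine ODE_solution_unique_univ (v := fun _ => f) (s := fun _ => univ) (K := K) (t₀ := 0)
      (fun t => hf.lipschitzOnWith) (fun t => ⟨?_, trivial⟩) (fun t => ⟨?_, trivial⟩)
      (by simpa using h)
    · exact (hγ (t + a)).comp_add_const t a
    · exact (hδ (t + b)).comp_add_const t b
  intro t
  exact congrFun h1 t

end Pool.Agent.R212
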