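import Mathlib

open Set Filter Metric
open scoped NNReal Topology

namespace Pool.Agent.R212

lemma grow {f f' : ℝ → ℝ} {a m : ℝ} (hf : ∀ t, HasDerivAt f (f' t) t)
    (h : ∀ t, a < t → m ≤ f' t) : ∀ t, a ≤ t → f a + m * (t - a) ≤ f t := by
  have hd : ∀ t, HasDerivAt (fun t => f t - m * t) (f' t - m) t := fun t => by
    have := (hf t).fun_sub ((hasDerivAt_id t).const_mul m)
    simpa using this
  have hm : MonotoneOn (fun t => f t - m * t) (Ici a) := by
    apply monotoneOn_of_deriv_nonneg (convex_Ici a)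
      (fun t _ => (hd t).continuousAt.continuousWithinAt)
      (fun t _ => (hd t).differentiableAt.differentiableWithinAt)
    intro t ht
    rw [interior_Ici] at ht
    rw [(hd t).deriv]
    linarith [h t ht]
  intro t ht
  have := hm (mem_Ici.2 le_rfl) (mem_Ici.2 ht) ht
  simp only at this
  linarith

lemma strictInc {f f' : ℝ → ℝ} {a b : ℝ} (hf : ∀ t, HasDerivAt f (f' t) t)
    (h : ∀ t, a < t → t < b → 0 < f' t) : StrictMonoOn f (Icc a b) := by
  apply strictMonoOn_of_deriv_pos (convex_Icc a b)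
    (fun t _ => (hf t).continuousAt.continuousWithinAt)
  intro t ht
  rw [interior_Icc] at ht
  rw [(hf t).deriv]
  exact h t ht.1 ht.2

/-- The half-turn lemma. -/
theorem half_turn {x y p q : ℝ → ℝ} (hx : ∀ t, HasDerivAt x (p t) t)
    (hy : ∀ t, HasDerivAt y (q t) t)
    (h1 : ∀ t, 0 ≤ x t → y t < 0 → 0 < p t)
    (h4 : ∀ δ, 0 < δ → ∃ m, 0 < m ∧ ∀ t, δ ≤ x t → m ≤ q t)
    (h5 : ∀ η, 0 < η → ∃ m, 0 < m ∧ ∀ t, η ≤ y t → 0 ≤ x t → p t ≤ -m)
    {t₀ : ℝ} (hx0 : x t₀ = 0) (hy0 : y t₀ < 0) :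
    ∃ t₁, t₀ < t₁ ∧ x t₁ = 0 ∧ 0 < y t₁ ∧ ∀ t, t₀ < t → t < t₁ → 0 < x t := by
  have h3 : ∀ t, 0 < x t → 0 < q t := by
    intro t ht
    obtain ⟨m, hm, h⟩ := h4 (x t) ht
    exact lt_of_lt_of_le hm (h t le_rfl)
  have hcx : Continuous x := continuous_iff_continuousAt.2 fun t => (hx t).continuousAt
  -- Step A
  have hA : ∃ t, t₀ < t ∧ x t ≤ 0 := by
    by_contra hcon
    push Not at hcon
    have hymono : ∀ a b, t₀ ≤ a → a < b → y a < y b := by
      intro a b ha hab
      exact strictInc hy (fun t ht _ => h3 t (hcon t (lt_of_le_of_lt ha ht)))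
        (left_mem_Icc.2 hab.le) (right_mem_Icc.2 hab.le) hab
    have hpos : ∃ b, t₀ < b ∧ 0 < y b := by
      by_contra hc
      push Not at hc
      have hneg : ∀ t, t₀ ≤ t → y t < 0 := by
        intro t ht
        exact lt_of_lt_of_le (hymono t (t + 1) ht (by linarith)) (hc (t + 1) (by linarith))
      obtain ⟨m, hm, hq⟩ := h4 (x (t₀ + 1)) (hcon _ (by linarith))
      have hxm : ∀ t, t₀ + 1 < t → x (t₀ + 1) ≤ x t := by
        intro t ht
        refine (strictInc hx (a := t₀ + 1) (b := t) (fun s hs _ => h1 s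
          (hcon s (by linarith)).le (hneg s (by linarith)))
          (left_mem_Icc.2 ht.le) (right_mem_Icc.2 ht.le) ht).le
      have hg := grow hy (a := t₀ + 1) (m := m) (fun t ht => hq t (hxm t ht))
      have h6 := hg (t₀ + 1 + (-y (t₀ + 1)) / m)
        (by
          have : 0 ≤ (-y (t₀ + 1)) / m :=
            div_nonneg (by linarith [hneg (t₀ + 1) (by linarith)]) hm.le
          linarith)
      have h7 := hneg (t₀ + 1 + (-y (t₀ + 1)) / m)
        (by
          have : 0 ≤ (-y (t₀ + 1)) / m :=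
            div_nonneg (by linarith [hneg (t₀ + 1) (by linarith)]) hm.le
          linarith)
      have h8 : m * (t₀ + 1 + (-y (t₀ + 1)) / m - (t₀ + 1)) = -y (t₀ + 1) := by
        field_simp
        ring
      linarith
    obtain ⟨b, hb, hyb⟩ := hpos
    obtain ⟨m, hm, hp⟩ := h5 (y b) hyb
    have hg := grow (f := fun t => -x t) (f' := fun t => -p t) (a := b) (m := m)
      (fun t => (hx t).fun_neg) (fun t ht => by
        have := hp t (hymono b t hb.le ht).le (hcon t (hb.trans ht)).le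
        linarith)
    have hxb := hcon b hb
    have h6 := hg (b + x b / m) (by
      have : 0 ≤ x b / m := div_nonneg hxb.le hm.le
      linarith)
    have h7 := hcon (b + x b / m) (by
      have : 0 ≤ x b / m := div_nonneg hxb.le hm.le
      linarith)
    have h8 : m * (b + x b / m - b) = x b := by
      field_simp
      ring
    linarith
  obtain ⟨tc, htc, hxtc⟩ := hA
  -- Step B
  have hp0 : 0 < p t₀ := h1 t₀ (by rw [hx0]) hy0
  have hev : ∀ᶠ t in 𝓝[>] t₀, 0 < x t := by
    have h9 := (hasDerivAt_iff_tendsto_slope.1 (hx t₀)).eventually (lt_mem_nhds hp0)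
    have h10 : 𝓝[>] t₀ ≤ 𝓝[≠] t₀ := nhdsWithin_mono _ (fun z (hz : t₀ < z) => ne_of_gt hz)
    filter_upwards [h10 h9, self_mem_nhdsWithin] with t ht ht'
    rw [mem_Ioi] at ht'
    have h11 : 0 < slope x t₀ t := ht
    rw [slope_def_field, hx0, sub_zero] at h11
    have h12 : 0 < t - t₀ := by linarith
    have := mul_pos h11 h12
    rwa [div_mul_cancel₀ _ h12.ne'] at this
  obtain ⟨ε, hε, hsub⟩ := mem_nhdsGT_iff_exists_Ioo_subset.1 hev
  have hε' : t₀ < ε := hε
  set T : Set ℝ := {t | (t₀ + ε) / 2 ≤ t ∧ x t ≤ 0} with hT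
  have hTc : IsClosed T := (isClosed_Ici).inter (isClosed_le hcx continuous_const)
  have hTn : T.Nonempty := by
    refine ⟨tc, ?_, hxtc⟩
    by_contra hlt
    push Not at hlt
    have : 0 < x tc := hsub ⟨htc, by linarith⟩
    linarith
  have hTb : BddBelow T := ⟨(t₀ + ε) / 2, fun t ht => ht.1⟩
  have ht1 := hTc.csInf_mem hTn hTb
  set t₁ := sInf T with ht1def
  have hpos : ∀ t, t₀ < t → t < t₁ → 0 < x t := by
    intro t h0 h1'
    by_contra hle
    push Not at hle
    by_cases h2' : t < ε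
    · have : 0 < x t := hsub ⟨h0, h2'⟩
      linarith
    · push Not at h2'
      have : t₁ ≤ t := csInf_le hTb ⟨by linarith, hle⟩
      linarith
  have ht01 : t₀ < t₁ := by linarith [ht1.1]
  have hx1 : x t₁ = 0 := by
    apply le_antisymm ht1.2
    have hcl : t₁ ∈ closure (Ioo t₀ t₁) := by
      rw [closure_Ioo ht01.ne]
      exact right_mem_Icc.2 ht01.le
    have : closure (Ioo t₀ t₁) ⊆ {t | 0 ≤ x t} :=
      closure_minimal (fun t ht => (hpos t ht.1 ht.2).le) (isClosed_le continuous_const hcx)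
    exact this hcl
  refine ⟨t₁, ht01, hx1, ?_, hpos⟩
  by_contra hy1
  push Not at hy1
  have hyinc := strictInc hy (a := t₀) (b := t₁) (fun t h0 h1' => h3 t (hpos t h0 h1'))
  have hxinc := strictInc hx (a := t₀) (b := t₁) (fun t h0 h1' => h1 t (hpos t h0 h1').le
    (lt_of_lt_of_le (hyinc ⟨h0.le, h1'.le⟩ (right_mem_Icc.2 ht01.le) h1') hy1))
  have := hxinc (left_mem_Icc.2 ht01.le) (right_mem_Icc.2 ht01.le) ht01
  linarith

end Pool.Agent.R212
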