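import Mathlib

open Set Filter Metric Real
open scoped NNReal Topology ContDiff

namespace Pool.Agent.R212

/-- smooth step -/
noncomputable def st (x : ℝ) : ℝ := Real.smoothTransition x

/-- the profile `B` -/
noncomputable def bb (y : ℝ) : ℝ := y + (40 / 9 - y) * st y - (21 + y) * st (-20 - y)

noncomputable def dd (y : ℝ) : ℝ := √(1 + bb y ^ 2)

noncomputable def PP (p : ℝ × ℝ) : ℝ := -(bb p.2) * cos (st (-p.1))

noncomputable def QQ (p : ℝ × ℝ) : ℝ := -(dd p.2) * sin (st (-p.1)) + st p.1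

lemma st_contDiff : ContDiff ℝ ∞ st := by
  have : ContDiff ℝ ∞ Real.smoothTransition := Real.smoothTransition.contDiff
  exact this

lemma st_cont : Continuous st := st_contDiff.continuous

lemma st_nonpos {x : ℝ} (h : x ≤ 0) : st x = 0 := Real.smoothTransition.zero_of_nonpos h
lemma st_one {x : ℝ} (h : 1 ≤ x) : st x = 1 := Real.smoothTransition.one_of_one_le h
lemma st_pos {x : ℝ} (h : 0 < x) : 0 < st x := Real.smoothTransition.pos_of_pos h
lemma st_nonneg (x : ℝ) : 0 ≤ st x := Real.smoothTransition.nonneg x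
lemma st_le_one (x : ℝ) : st x ≤ 1 := Real.smoothTransition.le_one x
lemma st_mono : Monotone st := Real.smoothTransition.monotone

lemma bb_contDiff : ContDiff ℝ ∞ bb := by
  unfold bb
  have h := st_contDiff
  fun_prop

lemma bb_cont : Continuous bb := bb_contDiff.continuous

lemma dd_contDiff : ContDiff ℝ ∞ dd := by
  unfold dd
  have h := bb_contDiff
  refine ContDiff.sqrt (by fun_prop) (fun x => ?_)
  positivity

lemma dd_cont : Continuous dd := dd_contDiff.continuous

lemma PP_contDiff : ContDiff ℝ ∞ PP := by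
  unfold PP
  have h := bb_contDiff
  have h' := st_contDiff
  fun_prop

lemma QQ_contDiff : ContDiff ℝ ∞ QQ := by
  unfold QQ
  have h := dd_contDiff
  have h' := st_contDiff
  fun_prop

lemma bb_of_one_le {y : ℝ} (h : 1 ≤ y) : bb y = 40 / 9 := by
  unfold bb
  rw [st_one h, st_nonpos (by linarith : -20 - y ≤ 0)]
  ring

lemma bb_lin {y : ℝ} (h : y ≤ 0) (h' : -20 ≤ y) : bb y = y := by
  unfold bb
  rw [st_nonpos h, st_nonpos (by linarith : -20 - y ≤ 0)]
  ring

lemma bb_far {y : ℝ} (h : y ≤ -21) : bb y = -21 := by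
  unfold bb
  rw [st_nonpos (by linarith : y ≤ 0), st_one (by linarith : 1 ≤ -20 - y)]
  ring

lemma bb_mid {y : ℝ} (h : 0 ≤ y) : bb y = y + (40 / 9 - y) * st y := by
  unfold bb
  rw [st_nonpos (by linarith : -20 - y ≤ 0)]
  ring

lemma bb_pos {y : ℝ} (h : 0 < y) : 0 < bb y := by
  rcases le_total 1 y with h1 | h1
  · rw [bb_of_one_le h1]; norm_num
  · rw [bb_mid h.le]
    have := st_nonneg y
    nlinarith

lemma bb_le {y : ℝ} (h : 0 ≤ y) : bb y ≤ 40 / 9 := by
  rcases le_total 1 y with h1 | h1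
  · rw [bb_of_one_le h1]
  · rw [bb_mid h]
    have := st_le_one y
    nlinarith

lemma bb_nonneg {y : ℝ} (h : 0 ≤ y) : 0 ≤ bb y := by
  rcases h.eq_or_lt with h | h
  · rw [← h, bb_lin le_rfl (by norm_num)]
  · exact (bb_pos h).le

lemma bb_neg {y : ℝ} (h : y < 0) : bb y < 0 := by
  unfold bb
  rw [st_nonpos h.le]
  rcases le_total (-20) y with h1 | h1
  · rw [st_nonpos (by linarith : -20 - y ≤ 0)]; linarith
  · rcases le_total y (-21) with h2 | h2
    · rw [st_one (by linarith : 1 ≤ -20 - y)]; linarith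
    · have := st_nonneg (-20 - y)
      nlinarith

lemma bb_zero : bb 0 = 0 := bb_lin le_rfl (by norm_num)

/-- monotonicity of `B` on the positive side: for `η > 0` a positive lower bound -/
lemma bb_lower {η : ℝ} (h : 0 < η) : ∃ m, 0 < m ∧ ∀ y, η ≤ y → m ≤ bb y := by
  refine ⟨min η 1, lt_min h one_pos, fun y hy => ?_⟩
  rcases le_total 1 y with h1 | h1
  · rw [bb_of_one_le h1]
    exact (min_le_right _ _).trans (by norm_num)
  · rw [bb_mid (h.le.trans hy)]
    have := st_nonneg y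
    have h2 := min_le_left η 1
    nlinarith

lemma bb_upper {η : ℝ} (h : 0 < η) : ∃ m, 0 < m ∧ ∀ y, y ≤ -η → bb y ≤ -m := by
  refine ⟨min η 20, lt_min h (by norm_num), fun y hy => ?_⟩
  have hy0 : y ≤ 0 := by linarith
  have e : bb y = y - (21 + y) * st (-20 - y) := by
    unfold bb
    rw [st_nonpos hy0]; ring
  have h2 := min_le_left η 20
  have h3 := min_le_right η 20
  have s0 := st_nonneg (-20 - y)
  have s1 := st_le_one (-20 - y)
  rcases le_total (-20) y with h1 | h1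
  · rw [bb_lin hy0 h1]
    linarith
  · rcases le_total y (-21) with h4 | h4
    · rw [bb_far h4]; linarith
    · rw [e]; nlinarith

lemma dd_sq (y : ℝ) : dd y ^ 2 = 1 + bb y ^ 2 := by
  unfold dd
  exact Real.sq_sqrt (by positivity)

lemma dd_pos (y : ℝ) : 0 < dd y := by
  unfold dd
  positivity

lemma dd_one_le (y : ℝ) : 1 ≤ dd y := by
  unfold dd
  rw [Real.one_le_sqrt]
  nlinarith [sq_nonneg (bb y)]

/-- the vector field -/
noncomputable def XX (p : ℝ × ℝ) : ℝ × ℝ := (PP p, QQ p)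

noncomputable def cl (t : ℝ) : ℝ := max (-22) (min t 22)

lemma st_cl (t : ℝ) : st (cl t) = st t := by
  unfold cl
  rcases le_total t 22 with h | h
  · rw [min_eq_left h]
    rcases le_total (-22) t with h1 | h1
    · rw [max_eq_right h1]
    · rw [max_eq_left h1, st_nonpos (by norm_num), st_nonpos (by linarith)]
  · rw [min_eq_right h, max_eq_right (by norm_num), st_one (by norm_num), st_one (by linarith)]

lemma st_neg_cl (t : ℝ) : st (-cl t) = st (-t) := by
  unfold cl
  rcases le_total t 22 with h | h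
  · rw [min_eq_left h]
    rcases le_total (-22) t with h1 | h1
    · rw [max_eq_right h1]
    · rw [max_eq_left h1, st_one (by norm_num), st_one (by linarith)]
  · rw [min_eq_right h, max_eq_right (by norm_num), st_nonpos (by norm_num),
      st_nonpos (by linarith)]

lemma bb_cl (t : ℝ) : bb (cl t) = bb t := by
  unfold cl
  rcases le_total t 22 with h | h
  · rw [min_eq_left h]
    rcases le_total (-22) t with h1 | h1
    · rw [max_eq_right h1]
    · rw [max_eq_left h1, bb_far (by norm_num), bb_far (by linarith)]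
  · rw [min_eq_right h, max_eq_right (by norm_num), bb_of_one_le (by norm_num),
      bb_of_one_le (by linarith)]

lemma XX_cl (p : ℝ × ℝ) : XX (cl p.1, cl p.2) = XX p := by
  unfold XX PP QQ dd
  simp only [st_cl, st_neg_cl, bb_cl]

lemma XX_contDiff : ContDiff ℝ ∞ XX := PP_contDiff.prodMk QQ_contDiff

lemma cl_mem (p : ℝ × ℝ) : (cl p.1, cl p.2) ∈ Icc (-22 : ℝ) 22 ×ˢ Icc (-22 : ℝ) 22 := by
  unfold cl
  refine ⟨⟨le_max_left _ _, max_le (by norm_num) (min_le_right _ _)⟩,
    ⟨le_max_left _ _, max_le (by norm_num) (min_le_right _ _)⟩⟩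

lemma XX_lip : ∃ K : ℝ≥0, LipschitzWith K XX := by
  have h1 : LocallyLipschitz XX :=
    (XX_contDiff.of_le (by exact_mod_cast le_top)).locallyLipschitz
  have hc : IsCompact (Icc (-22 : ℝ) 22 ×ˢ Icc (-22 : ℝ) 22) := isCompact_Icc.prod isCompact_Icc
  obtain ⟨K, hK⟩ := (h1.locallyLipschitzOn).exists_lipschitzOnWith_of_compact hc
  have hcl : LipschitzWith 1 cl := (LipschitzWith.id.min_const 22).const_max (-22)
  refine ⟨K, LipschitzWith.of_dist_le_mul fun p q => ?_⟩
  rw [← XX_cl p, ← XX_cl q]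
  refine (hK.dist_le_mul _ (cl_mem p) _ (cl_mem q)).trans ?_
  refine mul_le_mul_of_nonneg_left ?_ K.2
  rw [Prod.dist_eq, Prod.dist_eq]
  refine max_le_max ?_ ?_
  · simpa using hcl.dist_le_mul p.1 q.1
  · simpa using hcl.dist_le_mul p.2 q.2

lemma XX_bdd : ∃ L : ℝ≥0, ∀ p, ‖XX p‖ ≤ L := by
  have hc : IsCompact (Icc (-22 : ℝ) 22 ×ˢ Icc (-22 : ℝ) 22) := isCompact_Icc.prod isCompact_Icc
  obtain ⟨L, hL⟩ := hc.exists_bound_of_continuousOn XX_contDiff.continuous.continuousOn
  refine ⟨L.toNNReal, fun p => ?_⟩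
  rw [← XX_cl p]
  exact (hL _ (cl_mem p)).trans (Real.le_coe_toNNReal L)

/-! ### the orthogonality condition -/

lemma st_hasDeriv (x : ℝ) : HasDerivAt st (deriv st x) x :=
  ((st_contDiff.differentiable (by simp)) x).hasDerivAt

lemma bb_hasDeriv (x : ℝ) : HasDerivAt bb (deriv bb x) x :=
  ((bb_contDiff.differentiable (by simp)) x).hasDerivAt

lemma dd_hasDeriv (x : ℝ) : HasDerivAt dd (deriv dd x) x :=
  ((dd_contDiff.differentiable (by simp)) x).hasDerivAt

lemma dd_mul_deriv (y : ℝ) : dd y * deriv dd y = bb y * deriv bb y := by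
  have h1 : HasDerivAt (fun y => dd y ^ 2) (2 * dd y ^ 1 * deriv dd y) y := by
    exact_mod_cast (dd_hasDeriv y).fun_pow 2
  have h2 : HasDerivAt (fun y => 1 + bb y ^ 2) (2 * bb y ^ 1 * deriv bb y) y := by
    exact_mod_cast ((bb_hasDeriv y).fun_pow 2).const_add 1
  have h3 : (fun y => dd y ^ 2) = fun y => 1 + bb y ^ 2 := funext dd_sq
  rw [h3] at h1
  have := h1.unique h2
  linarith

lemma deriv_st_neg {x : ℝ} (h : x < 0) : deriv st x = 0 := by
  have : st =ᶠ[𝓝 x] fun _ => 0 := by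
    filter_upwards [gt_mem_nhds h] with z hz using st_nonpos (le_of_lt hz)
  rw [this.deriv_eq]
  simp

lemma fd1 {F : ℝ × ℝ → ℝ} (hF : ContDiff ℝ ∞ F) (p : ℝ × ℝ) {c : ℝ}
    (h : HasDerivAt (fun t => F (t, p.2)) c p.1) : fderiv ℝ F p (1, 0) = c := by
  have h1 : HasFDerivAt F (fderiv ℝ F p) p := ((hF.differentiable (by simp)) p).hasFDerivAt
  have h2 : HasDerivAt (fun t : ℝ => ((t, p.2) : ℝ × ℝ)) (1, 0) p.1 :=
    (hasDerivAt_id p.1).prodMk (hasDerivAt_const p.1 p.2)
  have h3 : HasDerivAt (fun t => F (t, p.2)) (fderiv ℝ F p (1, 0)) p.1 :=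
    HasFDerivAt.comp_hasDerivAt (f := fun t : ℝ => ((t, p.2) : ℝ × ℝ)) p.1 h1 h2
  exact h3.unique h

lemma fd2 {F : ℝ × ℝ → ℝ} (hF : ContDiff ℝ ∞ F) (p : ℝ × ℝ) {c : ℝ}
    (h : HasDerivAt (fun t => F (p.1, t)) c p.2) : fderiv ℝ F p (0, 1) = c := by
  have h1 : HasFDerivAt F (fderiv ℝ F p) p := ((hF.differentiable (by simp)) p).hasFDerivAt
  have h2 : HasDerivAt (fun t : ℝ => ((p.1, t) : ℝ × ℝ)) (0, 1) p.2 :=
    (hasDerivAt_const p.2 p.1).prodMk (hasDerivAt_id p.2)
  have h3 : HasDerivAt (fun t => F (p.1, t)) (fderiv ℝ F p (0, 1)) p.2 :=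
    HasFDerivAt.comp_hasDerivAt (f := fun t : ℝ => ((p.1, t) : ℝ × ℝ)) p.2 h1 h2
  exact h3.unique h

theorem orth (p : ℝ × ℝ) : fderiv ℝ PP p (1, 0) * fderiv ℝ PP p (0, 1)
    + fderiv ℝ QQ p (1, 0) * fderiv ℝ QQ p (0, 1) = 0 := by
  obtain ⟨x, y⟩ := p
  have hs : HasDerivAt (fun t : ℝ => st (-t)) (-deriv st (-x)) x := by
    exact ((st_hasDeriv (-x)).comp x (hasDerivAt_neg x)).congr_deriv (by ring)
  have h1 : fderiv ℝ PP (x, y) (1, 0) = -(bb y) * (-sin (st (-x)) * (-deriv st (-x))) :=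
    fd1 PP_contDiff (x, y) (show HasDerivAt (fun t => -(bb y) * cos (st (-t))) _ x from
      hs.cos.const_mul _)
  have h2 : fderiv ℝ PP (x, y) (0, 1) = -(deriv bb y) * cos (st (-x)) :=
    fd2 PP_contDiff (x, y) (show HasDerivAt (fun t => -(bb t) * cos (st (-x))) _ y from
      (bb_hasDeriv y).fun_neg.mul_const _)
  have h3 : fderiv ℝ QQ (x, y) (1, 0) = -(dd y) * (cos (st (-x)) * (-deriv st (-x)))
      + deriv st x :=
    fd1 QQ_contDiff (x, y) (show HasDerivAt (fun t => -(dd y) * sin (st (-t)) + st t) _ x from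
      (hs.sin.const_mul _).fun_add (st_hasDeriv x))
  have h4 : fderiv ℝ QQ (x, y) (0, 1) = -(deriv dd y) * sin (st (-x)) :=
    fd2 QQ_contDiff (x, y) (show HasDerivAt (fun t => -(dd t) * sin (st (-x)) + st x) _ y from
      ((dd_hasDeriv y).fun_neg.mul_const _).add_const _)
  rw [h1, h2, h3, h4]
  have h5 : deriv st x * sin (st (-x)) = 0 := by
    rcases lt_or_ge x 0 with h | h
    · rw [deriv_st_neg h, zero_mul]
    · rw [st_nonpos (by linarith : -x ≤ 0), sin_zero, mul_zero]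
  have h6 := dd_mul_deriv y
  linear_combination (-(deriv dd y)) * h5 - sin (st (-x)) * cos (st (-x)) * deriv st (-x) * h6

end Pool.Agent.R212
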