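import Pool.Agent.R212.Lim1
import Pool.Agent.R212.Lim2
import Pool.Agent.R212.Lim3

open Set Filter Metric Real
open scoped NNReal Topology ContDiff

namespace Pool.Agent.R212

lemma cos_st_pos (x : ℝ) : 0 < cos (st x) := by
  have h1 : cos 1 ≤ cos (st x) :=
    cos_le_cos_of_nonneg_of_le_pi (st_nonneg x) (by linarith [pi_gt_three]) (st_le_one x)
  exact lt_of_lt_of_le cos_one_pos h1

lemma cos_st_ge (x : ℝ) : cos 1 ≤ cos (st x) :=
  cos_le_cos_of_nonneg_of_le_pi (st_nonneg x) (by linarith [pi_gt_three]) (st_le_one x)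

/-! ### first integrals -/

noncomputable def FF (y : ℝ) : ℝ := ∫ s in (0 : ℝ)..y, bb s
noncomputable def GG (y : ℝ) : ℝ := ∫ s in (0 : ℝ)..y, bb s / dd s
noncomputable def CC (x : ℝ) : ℝ := ∫ s in (0 : ℝ)..x, st s
noncomputable def TT (x : ℝ) : ℝ := ∫ s in (0 : ℝ)..x, -(sin (st (-s)) / cos (st (-s)))

lemma quot_cont : Continuous fun s => bb s / dd s :=
  bb_cont.div dd_cont (fun s => (dd_pos s).ne')

lemma tan_cont : Continuous fun s => -(sin (st (-s)) / cos (st (-s))) := by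
  have h := st_cont
  refine Continuous.neg (Continuous.div (by fun_prop) (by fun_prop) (fun s => ?_))
  exact (cos_st_pos _).ne'

lemma FF_deriv (y : ℝ) : HasDerivAt FF (bb y) y :=
  (bb_cont.integral_hasStrictDerivAt 0 y).hasDerivAt
lemma GG_deriv (y : ℝ) : HasDerivAt GG (bb y / dd y) y :=
  (quot_cont.integral_hasStrictDerivAt 0 y).hasDerivAt
lemma CC_deriv (y : ℝ) : HasDerivAt CC (st y) y :=
  (st_cont.integral_hasStrictDerivAt 0 y).hasDerivAt
lemma TT_deriv (y : ℝ) : HasDerivAt TT (-(sin (st (-y)) / cos (st (-y)))) y :=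
  (tan_cont.integral_hasStrictDerivAt 0 y).hasDerivAt

lemma dd_one {y : ℝ} (h : 1 ≤ y) : dd y = 41 / 9 := by
  unfold dd
  rw [bb_of_one_le h]
  rw [show (1 : ℝ) + (40 / 9) ^ 2 = (41 / 9) ^ 2 by norm_num]
  exact Real.sqrt_sq (by norm_num)

lemma eq_of_deriv {f g f' : ℝ → ℝ} {a b : ℝ} (hab : a ≤ b)
    (hf : ∀ t, a ≤ t → t ≤ b → HasDerivAt f (f' t) t)
    (hg : ∀ t, a ≤ t → t ≤ b → HasDerivAt g (f' t) t) :
    f b - f a = g b - g a := by
  have hd : ∀ t, a ≤ t → t ≤ b → HasDerivAt (fun t => f t - g t) 0 t := fun t h1 h2 =>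
    ((hf t h1 h2).fun_sub (hg t h1 h2)).congr_deriv (by ring)
  have := constant_of_derivWithin_zero (f := fun t => f t - g t) (a := a) (b := b)
    (fun t ht => (hd t ht.1 ht.2).differentiableAt.differentiableWithinAt)
    (fun t ht => by
      exact ((hd t ht.1 ht.2.le).hasDerivWithinAt).derivWithin
        (uniqueDiffOn_Icc (lt_of_le_of_lt ht.1 ht.2) t ⟨ht.1, ht.2.le⟩)) b ⟨hab, le_rfl⟩
  linarith

lemma FF_hi {y : ℝ} (h : 1 ≤ y) : FF y = FF 1 + 40 / 9 * (y - 1) := by
  have := eq_of_deriv (f := FF) (g := fun t => 40 / 9 * t) (f' := fun _ => 40 / 9) h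
    (fun t h1 _ => by
      have := FF_deriv t
      rwa [bb_of_one_le h1] at this)
    (fun t _ _ => by simpa using (hasDerivAt_id t).const_mul (40 / 9 : ℝ))
  linarith

lemma GG_hi {y : ℝ} (h : 1 ≤ y) : GG y = GG 1 + 40 / 41 * (y - 1) := by
  have := eq_of_deriv (f := GG) (g := fun t => 40 / 41 * t) (f' := fun _ => 40 / 41) h
    (fun t h1 _ => by
      refine (GG_deriv t).congr_deriv ?_
      rw [bb_of_one_le h1, dd_one h1]
      norm_num)
    (fun t _ _ => by simpa using (hasDerivAt_id t).const_mul (40 / 41 : ℝ))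
  linarith

lemma FF_zero : FF 0 = 0 := by simp [FF]
lemma GG_zero : GG 0 = 0 := by simp [GG]
lemma CC_zero : CC 0 = 0 := by simp [CC]
lemma TT_zero : TT 0 = 0 := by simp [TT]

lemma FF_lo {y : ℝ} (h : y ≤ 0) (h' : -20 ≤ y) : FF y = y ^ 2 / 2 := by
  have := eq_of_deriv (f := FF) (g := fun t => t ^ 2 / 2) (f' := fun t => t) h
    (fun t h1 h2 => by
      have := FF_deriv t
      rwa [bb_lin h2 (h'.trans h1)] at this)
    (fun t _ _ => (((hasDerivAt_id t).fun_pow 2).div_const 2).congr_deriv (by simp))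
  rw [FF_zero] at this
  linarith

lemma GG_lo {y : ℝ} (h : y ≤ 0) (h' : -20 ≤ y) : GG y = √(1 + y ^ 2) - 1 := by
  have := eq_of_deriv (f := GG) (g := fun t => √(1 + t ^ 2)) (f' := fun t => t / √(1 + t ^ 2)) h
    (fun t h1 h2 => by
      refine (GG_deriv t).congr_deriv ?_
      unfold dd
      rw [bb_lin h2 (h'.trans h1)])
    (fun t _ _ => by
      have h1 : HasDerivAt (fun t : ℝ => 1 + t ^ 2) (2 * t) t :=
        (((hasDerivAt_id t).fun_pow 2).const_add 1).congr_deriv (by simp)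
      refine (h1.sqrt (by positivity)).congr_deriv ?_
      have : √(1 + t ^ 2) ≠ 0 := by positivity
      field_simp)
  rw [GG_zero] at this
  norm_num at this
  linarith

lemma F1_bounds : 0 ≤ FF 1 ∧ FF 1 ≤ 40 / 9 := by
  constructor
  · have := (strictMonoOn_of_deriv_pos (f := FF) (convex_Icc 0 1)
      (fun t _ => (FF_deriv t).continuousAt.continuousWithinAt) (fun t ht => by
        rw [interior_Icc] at ht
        rw [(FF_deriv t).deriv]
        exact bb_pos ht.1)) (left_mem_Icc.2 zero_le_one) (right_mem_Icc.2 zero_le_one) one_pos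
    rw [FF_zero] at this
    exact this.le
  · have h1 := monotoneOn_of_deriv_nonneg (f := fun t => 40 / 9 * t - FF t) (convex_Icc 0 1)
      (fun t _ => (((hasDerivAt_id t).const_mul (40 / 9 : ℝ)).fun_sub
        (FF_deriv t)).continuousAt.continuousWithinAt)
      (fun t _ => (((hasDerivAt_id t).const_mul (40 / 9 : ℝ)).fun_sub
        (FF_deriv t)).differentiableAt.differentiableWithinAt)
      (fun t ht => by
        rw [interior_Icc] at ht
        have h2 : HasDerivAt (fun t => 40 / 9 * t - FF t) (40 / 9 * 1 - bb t) t :=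
          ((hasDerivAt_id t).const_mul (40 / 9 : ℝ)).fun_sub (FF_deriv t)
        rw [h2.deriv]
        have := bb_le ht.1.le
        linarith) (left_mem_Icc.2 zero_le_one) (right_mem_Icc.2 zero_le_one) zero_le_one
    simp only [FF_zero] at h1
    linarith

lemma G1_bounds : 0 ≤ GG 1 ∧ GG 1 ≤ 1 := by
  have hle : ∀ t, 0 ≤ t → bb t / dd t ≤ 1 := by
    intro t ht
    rw [div_le_one (dd_pos t)]
    unfold dd
    apply Real.le_sqrt_of_sq_le
    linarith
  constructor
  · have := (strictMonoOn_of_deriv_pos (f := GG) (convex_Icc 0 1)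
      (fun t _ => (GG_deriv t).continuousAt.continuousWithinAt) (fun t ht => by
        rw [interior_Icc] at ht
        rw [(GG_deriv t).deriv]
        exact div_pos (bb_pos ht.1) (dd_pos t)))
      (left_mem_Icc.2 zero_le_one) (right_mem_Icc.2 zero_le_one) one_pos
    rw [GG_zero] at this
    exact this.le
  · have h1 := monotoneOn_of_deriv_nonneg (f := fun t => 1 * t - GG t) (convex_Icc 0 1)
      (fun t _ => (((hasDerivAt_id t).const_mul (1 : ℝ)).fun_sub
        (GG_deriv t)).continuousAt.continuousWithinAt)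
      (fun t _ => (((hasDerivAt_id t).const_mul (1 : ℝ)).fun_sub
        (GG_deriv t)).differentiableAt.differentiableWithinAt)
      (fun t ht => by
        rw [interior_Icc] at ht
        have h2 : HasDerivAt (fun t => 1 * t - GG t) (1 * 1 - bb t / dd t) t :=
          ((hasDerivAt_id t).const_mul (1 : ℝ)).fun_sub (GG_deriv t)
        rw [h2.deriv]
        have := hle t ht.1.le
        linarith) (left_mem_Icc.2 zero_le_one) (right_mem_Icc.2 zero_le_one) zero_le_one
    simp only [GG_zero] at h1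
    linarith

lemma FF_strict : StrictMonoOn FF (Ici 0) := by
  apply strictMonoOn_of_deriv_pos (convex_Ici 0)
    (fun t _ => (FF_deriv t).continuousAt.continuousWithinAt)
  intro t ht
  rw [interior_Ici] at ht
  rw [(FF_deriv t).deriv]
  exact bb_pos ht

lemma GG_anti : StrictAntiOn GG (Iic 0) := by
  apply strictAntiOn_of_deriv_neg (convex_Iic 0)
    (fun t _ => (GG_deriv t).continuousAt.continuousWithinAt)
  intro t ht
  rw [interior_Iic] at ht
  rw [(GG_deriv t).deriv]
  exact div_neg_of_neg_of_pos (bb_neg ht) (dd_pos t)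

/-! ### solutions -/

/-- `γ` is a global solution -/
def Sol (γ : ℝ → ℝ × ℝ) : Prop := ∀ t, HasDerivAt γ (XX (γ t)) t

lemma Sol.x {γ : ℝ → ℝ × ℝ} (h : Sol γ) (t : ℝ) :
    HasDerivAt (fun t => (γ t).1) (PP (γ t)) t :=
  HasFDerivAt.comp_hasDerivAt (f := γ) t hasFDerivAt_fst (h t)

lemma Sol.y {γ : ℝ → ℝ × ℝ} (h : Sol γ) (t : ℝ) :
    HasDerivAt (fun t => (γ t).2) (QQ (γ t)) t :=
  HasFDerivAt.comp_hasDerivAt (f := γ) t hasFDerivAt_snd (h t)

theorem right_turn {γ : ℝ → ℝ × ℝ} (h : Sol γ) {t₀ : ℝ} (hx0 : (γ t₀).1 = 0)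
    (hy0 : (γ t₀).2 < 0) :
    ∃ t₁, t₀ < t₁ ∧ (γ t₁).1 = 0 ∧ 0 < (γ t₁).2 ∧ (∀ t, t₀ < t → t < t₁ → 0 < (γ t).1) ∧
      FF (γ t₁).2 = FF (γ t₀).2 := by
  obtain ⟨t₁, h1, h2, h3, h4⟩ := half_turn h.x h.y
    (fun t hx hy => by
      unfold PP
      rw [st_nonpos (by linarith : -(γ t).1 ≤ 0), cos_zero, mul_one]
      linarith [bb_neg hy])
    (fun δ hδ => ⟨st δ, st_pos hδ, fun t ht => by
      unfold QQ
      rw [st_nonpos (by linarith : -(γ t).1 ≤ 0), sin_zero, mul_zero, zero_add]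
      exact st_mono ht⟩)
    (fun η hη => by
      obtain ⟨m, hm, hb⟩ := bb_lower hη
      refine ⟨m, hm, fun t ht hx => ?_⟩
      unfold PP
      rw [st_nonpos (by linarith : -(γ t).1 ≤ 0), cos_zero, mul_one]
      linarith [hb _ ht]) hx0 hy0
  refine ⟨t₁, h1, h2, h3, h4, ?_⟩
  have hx : ∀ t, t₀ ≤ t → t ≤ t₁ → 0 ≤ (γ t).1 := by
    intro t ha hb
    rcases ha.eq_or_lt with ha | ha
    · rw [← ha, hx0]
    · rcases hb.eq_or_lt with hb | hb
      · rw [hb, h2]
      · exact (h4 t ha hb).le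
  have := eq_of_deriv (f := fun t => FF (γ t).2 + CC (γ t).1) (g := fun _ => 0) (f' := fun _ => 0)
    h1.le
    (fun t ha hb => by
      refine (((FF_deriv _).comp t (h.y t)).fun_add ((CC_deriv _).comp t (h.x t))).congr_deriv ?_
      unfold PP QQ
      rw [st_nonpos (by linarith [hx t ha hb] : -(γ t).1 ≤ 0), cos_zero, sin_zero]
      ring)
    (fun t _ _ => hasDerivAt_const _ _)
  simp only [hx0, h2, CC_zero] at this
  linarith

theorem left_turn {γ : ℝ → ℝ × ℝ} (h : Sol γ) {t₀ : ℝ} (hx0 : (γ t₀).1 = 0)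
    (hy0 : 0 < (γ t₀).2) :
    ∃ t₁, t₀ < t₁ ∧ (γ t₁).1 = 0 ∧ (γ t₁).2 < 0 ∧ (∀ t, t₀ < t → t < t₁ → (γ t).1 < 0) ∧
      GG (γ t₁).2 = GG (γ t₀).2 := by
  obtain ⟨t₁, h1, h2, h3, h4⟩ := half_turn (x := fun t => -(γ t).1) (y := fun t => -(γ t).2)
    (fun t => (h.x t).fun_neg) (fun t => (h.y t).fun_neg)
    (fun t hx hy => by
      unfold PP
      have := mul_pos (bb_pos (by linarith : 0 < (γ t).2)) (cos_st_pos (-(γ t).1))
      linarith)
    (fun δ hδ => ⟨sin (st δ), sin_pos_of_pos_of_lt_pi (st_pos hδ)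
        (lt_of_le_of_lt (st_le_one δ) (by linarith [pi_gt_three])), fun t ht => by
      unfold QQ
      rw [st_nonpos (by linarith : (γ t).1 ≤ 0)]
      have h1 : sin (st δ) ≤ sin (st (-(γ t).1)) :=
        sin_le_sin_of_le_of_le_pi_div_two (by linarith [pi_gt_three, st_nonneg δ])
          (by linarith [pi_gt_three, st_le_one (-(γ t).1)]) (st_mono ht)
      have h2 : 0 < sin (st δ) := sin_pos_of_pos_of_lt_pi (st_pos hδ)
        (lt_of_le_of_lt (st_le_one δ) (by linarith [pi_gt_three]))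
      have h3 := dd_one_le (γ t).2
      nlinarith⟩)
    (fun η hη => by
      obtain ⟨m, hm, hb⟩ := bb_upper hη
      refine ⟨m * cos 1, mul_pos hm cos_one_pos, fun t ht hx => ?_⟩
      unfold PP
      have h1 := hb (γ t).2 (by linarith)
      have h2 := cos_st_ge (-(γ t).1)
      have h3 := cos_one_pos
      nlinarith) (t₀ := t₀) (by simp only [hx0, neg_zero]) (by linarith)
  have h2' : (γ t₁).1 = 0 := by linarith
  refine ⟨t₁, h1, h2', by linarith, fun t ha hb => by linarith [h4 t ha hb], ?_⟩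
  have hx : ∀ t, t₀ ≤ t → t ≤ t₁ → (γ t).1 ≤ 0 := by
    intro t ha hb
    rcases ha.eq_or_lt with ha | ha
    · rw [← ha, hx0]
    · rcases hb.eq_or_lt with hb | hb
      · rw [hb, h2']
      · linarith [h4 t ha hb]
  have := eq_of_deriv (f := fun t => GG (γ t).2 + TT (γ t).1) (g := fun _ => 0) (f' := fun _ => 0)
    h1.le
    (fun t ha hb => by
      refine (((GG_deriv _).comp t (h.y t)).fun_add ((TT_deriv _).comp t (h.x t))).congr_deriv ?_
      unfold PP QQ
      rw [st_nonpos (hx t ha hb)]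
      have h5 := (cos_st_pos (-(γ t).1)).ne'
      have h6 := (dd_pos (γ t).2).ne'
      field_simp
      ring)
    (fun t _ _ => hasDerivAt_const _ _)
  simp only [hx0, h2', TT_zero] at this
  linarith

end Pool.Agent.R212
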