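import Mathlib

open Set

namespace Pool.Agent.R212

/-- `Γ ⊆ ℝ²` is (the trace of) a non-constant periodic orbit of the field `P ∂ₓ + Q ∂_y`:
there are a positive period `T` and a `T`-periodic, non-constant, everywhere differentiable
`γ : ℝ → ℝ²` with `γ' = (P (γ), Q (γ))` whose range is `Γ`. -/
def IsPeriodicOrbit (P Q : ℝ × ℝ → ℝ) (Γ : Set (ℝ × ℝ)) : Prop :=
  ∃ (γ : ℝ → ℝ × ℝ) (T : ℝ), 0 < T ∧ (∀ t, HasDerivAt γ (P (γ t), Q (γ t)) t) ∧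
    (∀ t, γ (t + T) = γ t) ∧ (∃ t, γ t ≠ γ 0) ∧ Γ = range γ

/-- `Γ` is a limit cycle: a non-constant periodic orbit having an open neighbourhood that
contains no other non-constant periodic orbit. -/
def IsLimitCycle (P Q : ℝ × ℝ → ℝ) (Γ : Set (ℝ × ℝ)) : Prop :=
  IsPeriodicOrbit P Q Γ ∧
    ∃ U : Set (ℝ × ℝ), IsOpen U ∧ Γ ⊆ U ∧ ∀ Γ', IsPeriodicOrbit P Q Γ' → Γ' ⊆ U → Γ' = Γ

end Pool.Agent.R212
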