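import Pool.Agent.R212.Lim4
import Pool.Agent.R212.LimDef

open Set Filter Metric Real
open scoped NNReal Topology ContDiff

namespace Pool.Agent.R212

/-- displacement function -/
noncomputable def ph (Y : ℝ) : ℝ :=
  ((GG 1 + 40 / 41 * Y) ^ 2 + 2 * (GG 1 + 40 / 41 * Y)) / 2 - FF 1 - 40 / 9 * Y

lemma exists_fix : ∃ Y, 1 < Y ∧ Y < 10 ∧ ph Y = 0 := by
  obtain ⟨f0, f1⟩ := F1_bounds
  obtain ⟨g0, g1⟩ := G1_bounds
  have hc : ContinuousOn ph (Icc 1 10) := by
    unfold ph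
    fun_prop
  have h1 : ph 1 < 0 := by
    unfold ph
    nlinarith
  have h10 : 0 < ph 10 := by
    unfold ph
    nlinarith
  obtain ⟨Y, hY, hY0⟩ := intermediate_value_Ioo (by norm_num : (1 : ℝ) ≤ 10) hc ⟨h1, h10⟩
  exact ⟨Y, hY.1, hY.2, hY0⟩

/-- expansion away from the fixed point -/
lemma expand {Y Z W : ℝ} (hY : 1 < Y) (hY0 : ph Y = 0) (hZ : 1 < Z)
    (hW : 40 / 9 * (W - Z) = ph Z) (hle : |W - Y| ≤ |Z - Y|) : Z = Y := by
  obtain ⟨f0, f1⟩ := F1_bounds
  obtain ⟨g0, g1⟩ := G1_bounds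
  set A : ℝ := (40 / 41) ^ 2 / 2 with hA
  set Bc : ℝ := GG 1 * (40 / 41) + 40 / 41 - 40 / 9 with hB
  have hform : ∀ U, ph U = A * U ^ 2 + Bc * U + (GG 1 ^ 2 / 2 + GG 1 - FF 1) := by
    intro U
    unfold ph
    rw [hA, hB]
    ring
  have h1 : ph 1 < 0 := by
    unfold ph
    nlinarith
  have hk : 0 < A * (1 + Y) + Bc := by
    have : (1 - Y) * (A * (1 + Y) + Bc) = ph 1 - ph Y := by
      rw [hform 1, hform Y]; ring
    rw [hY0, sub_zero] at this
    by_contra hc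
    push Not at hc
    have : 0 ≤ (1 - Y) * (A * (1 + Y) + Bc) := mul_nonneg_of_nonpos_of_nonpos (by linarith) hc
    linarith
  have hk2 : 0 < A * (Z + Y) + Bc := by
    have : 0 < A := by rw [hA]; norm_num
    nlinarith
  have hd : W - Y = (Z - Y) * (1 + 9 / 40 * (A * (Z + Y) + Bc)) := by
    have : ph Z - ph Y = (Z - Y) * (A * (Z + Y) + Bc) := by
      rw [hform Z, hform Y]; ring
    rw [hY0, sub_zero] at this
    have h2 : W - Z = 9 / 40 * ph Z := by linarith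
    rw [this] at h2
    linear_combination h2
  by_contra hne
  have hpos : 0 < |Z - Y| := abs_pos.2 (sub_ne_zero.2 hne)
  rw [hd, abs_mul, abs_of_pos (by linarith : 0 < 1 + 9 / 40 * (A * (Z + Y) + Bc))] at hle
  have h9 := mul_pos hpos hk2
  have h10 : |Z - Y| * (1 + 9 / 40 * (A * (Z + Y) + Bc))
      = |Z - Y| + 9 / 40 * (|Z - Y| * (A * (Z + Y) + Bc)) := by ring
  rw [h10] at hle
  generalize |Z - Y| * (A * (Z + Y) + Bc) = q at h9 hle
  clear h10 hd hk2 hk hform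
  linarith

lemma sq_of_G {y w : ℝ} (hy : y < 0) (hy' : -20 < y) (h : GG y = w) :
    y ^ 2 = w ^ 2 + 2 * w := by
  rw [GG_lo hy.le hy'.le] at h
  have h1 : √(1 + y ^ 2) = w + 1 := by linarith
  have h2 := Real.sq_sqrt (by positivity : 0 ≤ 1 + y ^ 2)
  rw [h1] at h2
  linarith

/-- The isolating neighbourhood. -/
def UU : Set (ℝ × ℝ) := {p | p.1 ≠ 0 ∨ 2 < p.2 ∨ (-20 < p.2 ∧ p.2 < 0)}

lemma UU_open : IsOpen UU := by
  unfold UU
  have h1 : IsOpen {p : ℝ × ℝ | p.1 ≠ 0} := isOpen_ne_fun continuous_fst continuous_const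
  have h2 : IsOpen {p : ℝ × ℝ | 2 < p.2} := isOpen_lt continuous_const continuous_snd
  have h3 : IsOpen {p : ℝ × ℝ | -20 < p.2} := isOpen_lt continuous_const continuous_snd
  have h4 : IsOpen {p : ℝ × ℝ | p.2 < 0} := isOpen_lt continuous_snd continuous_const
  exact h1.union (h2.union (h3.inter h4))

lemma sqrt401 : 19 < √(401 : ℝ) - 1 := by
  have : (20 : ℝ) < √401 := by
    rw [Real.lt_sqrt (by norm_num)]
    norm_num
  linarith

/-- existence of the periodic orbit -/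
theorem exists_cycle {Y : ℝ} (hY1 : 1 < Y) (hY10 : Y < 10) (hY0 : ph Y = 0) :
    ∃ (γ : ℝ → ℝ × ℝ) (T : ℝ), 0 < T ∧ Sol γ ∧ (∀ t, γ (t + T) = γ t) ∧ γ 0 = (0, 1 + Y) ∧
      (∃ t, γ t ≠ γ 0) ∧ range γ ⊆ UU := by
  obtain ⟨K, hK⟩ := XX_lip
  obtain ⟨L, hL⟩ := XX_bdd
  obtain ⟨γ, h0, hγ⟩ := global_ode hK hL (0, 1 + Y)
  obtain ⟨f0, f1⟩ := F1_bounds
  obtain ⟨g0, g1⟩ := G1_bounds
  obtain ⟨t₁, ht1, hx1, hy1, hneg, hG⟩ := left_turn (γ := γ) hγ (t₀ := 0) (by rw [h0])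
    (by rw [h0]; simp only; linarith)
  obtain ⟨t₂, ht2, hx2, hy2, hpos, hF⟩ := right_turn (γ := γ) hγ hx1 hy1
  set w : ℝ := GG 1 + 40 / 41 * Y with hw
  have hG0 : GG (γ 0).2 = w := by
    rw [h0]
    simp only
    rw [GG_hi (by linarith)]
    rw [hw]; ring
  have hy20 : -20 < (γ t₁).2 := by
    by_contra hc
    push Not at hc
    have h1 : GG (-20) ≤ GG (γ t₁).2 := by
      rcases hc.eq_or_lt with hc | hc
      · rw [hc]
      · exact (GG_anti (by rw [mem_Iic]; linarith) (by rw [mem_Iic]; norm_num) hc).le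
    rw [GG_lo (by norm_num) (by norm_num), hG, hG0] at h1
    have h2 := sqrt401
    norm_num at h1
    have h3 : w < 19 := by rw [hw]; linarith
    linarith
  have hsq := sq_of_G hy1 hy20 (hG.trans hG0)
  have hF1 : FF (γ t₁).2 = FF (1 + Y) := by
    rw [FF_lo hy1.le hy20.le, FF_hi (by linarith), hsq]
    have := hY0
    unfold ph at this
    rw [← hw] at this
    linarith
  have hyeq : (γ t₂).2 = 1 + Y :=
    FF_strict.injOn (mem_Ici.2 hy2.le) (mem_Ici.2 (by linarith)) (hF.trans hF1)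
  have hret : γ t₂ = γ 0 := by
    rw [h0]
    exact Prod.ext hx2 hyeq
  have hper := unique_ode hK hγ hγ hret
  have hT : 0 < t₂ := ht1.trans ht2
  have hper' : ∀ t, γ (t + t₂) = γ t := by
    intro t
    rw [hper t, add_zero]
  refine ⟨γ, t₂, hT, hγ, hper', h0, ⟨t₁, ?_⟩, ?_⟩
  · intro h
    rw [h, h0] at hy1
    simp only at hy1
    linarith
  · rintro p ⟨t, rfl⟩
    obtain ⟨s, hs, hst⟩ := Function.Periodic.exists_mem_Ico₀ (f := γ) hper' hT t
    rw [hst]
    rcases hs.1.eq_or_lt with h | h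
    · rw [← h, h0]
      right; left
      simp only
      linarith
    · rcases lt_trichotomy s t₁ with h' | h' | h'
      · left
        exact (hneg s h h').ne
      · right; right
        rw [h']
        exact ⟨hy20, hy1⟩
      · left
        exact (hpos s h' hs.2).ne'

/-- every periodic orbit inside `UU` passes through `(0, 1 + Y)` -/
theorem cross {Y : ℝ} (hY1 : 1 < Y) (hY0 : ph Y = 0) {γ : ℝ → ℝ × ℝ} {T : ℝ} (hT : 0 < T)
    (hγ : Sol γ) (hper : ∀ t, γ (t + T) = γ t) (hU : range γ ⊆ UU) :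
    ∃ t, γ t = (0, 1 + Y) := by
  have hcont : Continuous γ := continuous_iff_continuousAt.2 fun t => (hγ t).continuousAt
  have hcx : Continuous fun t => (γ t).1 := continuous_fst.comp hcont
  have hcy : Continuous fun t => (γ t).2 := continuous_snd.comp hcont
  -- Step 1
  have hS1 : ∃ t, (γ t).1 = 0 := by
    by_contra hc
    push Not at hc
    have hsign : (∀ t, 0 < (γ t).1) ∨ (∀ t, (γ t).1 < 0) := by
      rcases lt_or_gt_of_ne (hc 0) with h | h
      · right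
        intro t
        by_contra hcon
        push Not at hcon
        obtain ⟨s, hs⟩ := mem_range_of_exists_le_of_exists_ge hcx ⟨0, h.le⟩ ⟨t, hcon⟩
        exact hc s hs
      · left
        intro t
        by_contra hcon
        push Not at hcon
        obtain ⟨s, hs⟩ := mem_range_of_exists_le_of_exists_ge hcx ⟨t, hcon⟩ ⟨0, h.le⟩
        exact hc s hs
    have hp := hper 0
    rw [zero_add] at hp
    rcases hsign with hs | hs
    · have := strictInc hγ.y (a := 0) (b := T) (fun t _ _ => by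
        unfold QQ
        rw [st_nonpos (by linarith [hs t] : -(γ t).1 ≤ 0), sin_zero, mul_zero, zero_add]
        exact st_pos (hs t)) (left_mem_Icc.2 hT.le) (right_mem_Icc.2 hT.le) hT
      simp only [hp, lt_self_iff_false] at this
    · have := strictInc (f := fun t => -(γ t).2) (fun t => (hγ.y t).fun_neg) (a := 0) (b := T)
        (fun t _ _ => by
          unfold QQ
          rw [st_nonpos (hs t).le]
          have h2 : 0 < sin (st (-(γ t).1)) :=
            sin_pos_of_pos_of_lt_pi (st_pos (by linarith [hs t]))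
              (lt_of_le_of_lt (st_le_one _) (by linarith [pi_gt_three]))
          have := mul_pos (dd_pos (γ t).2) h2
          linarith) (left_mem_Icc.2 hT.le) (right_mem_Icc.2 hT.le) hT
      simp only [hp, lt_self_iff_false] at this
  -- membership in UU
  have hUx : ∀ t, (γ t).1 = 0 → 2 < (γ t).2 ∨ (-20 < (γ t).2 ∧ (γ t).2 < 0) := by
    intro t ht
    have : γ t ∈ UU := hU ⟨t, rfl⟩
    rcases this with h | h
    · exact absurd ht h
    · exact h
  have hUp : ∀ t, (γ t).1 = 0 → 0 < (γ t).2 → 2 < (γ t).2 := by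
    intro t ht h
    rcases hUx t ht with h' | h'
    · exact h'
    · linarith [h'.2]
  have hUn : ∀ t, (γ t).1 = 0 → (γ t).2 < 0 → -20 < (γ t).2 := by
    intro t ht h
    rcases hUx t ht with h' | h'
    · linarith
    · exact h'.1
  -- Step 2
  have hS2 : ∃ t, (γ t).1 = 0 ∧ 2 ≤ (γ t).2 := by
    obtain ⟨t, ht⟩ := hS1
    rcases hUx t ht with h | h
    · exact ⟨t, ht, h.le⟩
    · obtain ⟨s, _, hs1, hs2, _⟩ := right_turn hγ ht h.2
      exact ⟨s, hs1, (hUp s hs1 hs2).le⟩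
  -- Step 3
  set Kt : Set ℝ := Icc 0 T ∩ {t | (γ t).1 = 0 ∧ 2 ≤ (γ t).2} with hKt
  have hshift : ∀ t, ∃ s ∈ Icc 0 T, γ t = γ s := by
    intro t
    obtain ⟨s, hs, hst⟩ := Function.Periodic.exists_mem_Ico₀ (f := γ) hper hT t
    exact ⟨s, ⟨hs.1, hs.2.le⟩, hst⟩
  have hKc : IsCompact Kt := by
    apply isCompact_Icc.inter_right
    exact (isClosed_eq hcx continuous_const).inter (isClosed_le continuous_const hcy)
  have hKn : Kt.Nonempty := by
    obtain ⟨t, ht1, ht2⟩ := hS2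
    obtain ⟨s, hs, hst⟩ := hshift t
    exact ⟨s, hs, by rw [mem_ofPred_eq, ← hst]; exact ⟨ht1, ht2⟩⟩
  obtain ⟨tm, htm, hmax⟩ := hKc.exists_isMaxOn hKn
    (f := fun t => |(γ t).2 - (1 + Y)|) (by fun_prop)
  have hmax' : ∀ t, (γ t).1 = 0 → 2 ≤ (γ t).2 → |(γ t).2 - (1 + Y)| ≤ |(γ tm).2 - (1 + Y)| := by
    intro t ht1 ht2
    obtain ⟨s, hs, hst⟩ := hshift t
    have : s ∈ Kt := ⟨hs, by rw [mem_ofPred_eq, ← hst]; exact ⟨ht1, ht2⟩⟩
    rw [hst]
    exact hmax this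
  -- Step 4
  have hxm := htm.2.1
  have hym := hUp tm hxm (by linarith [htm.2.2])
  obtain ⟨t₁, ht1, hx1, hy1, hneg, hG⟩ := left_turn hγ hxm (by linarith)
  obtain ⟨t₂, ht2, hx2, hy2, hpos, hF⟩ := right_turn hγ hx1 hy1
  have hy1' := hUn t₁ hx1 hy1
  have hy2' := hUp t₂ hx2 hy2
  have hsq := sq_of_G hy1 hy1' (hG.trans (GG_hi (by linarith)))
  rw [FF_lo hy1.le hy1'.le, FF_hi (by linarith), hsq] at hF
  have hle := hmax' t₂ hx2 hy2'.le
  have hfin := expand hY1 hY0 (Z := (γ tm).2 - 1) (W := (γ t₂).2 - 1) (by linarith)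
    (by
      unfold ph
      linarith)
    (by
      rw [show (γ t₂).2 - 1 - Y = (γ t₂).2 - (1 + Y) by ring,
        show (γ tm).2 - 1 - Y = (γ tm).2 - (1 + Y) by ring]
      exact hle)
  refine ⟨tm, Prod.ext hxm ?_⟩
  simp only
  linarith

theorem limit_cycle : ∃ P Q : ℝ × ℝ → ℝ, ContDiff ℝ ∞ P ∧ ContDiff ℝ ∞ Q ∧
    (∀ p, fderiv ℝ P p (1, 0) * fderiv ℝ P p (0, 1)
      + fderiv ℝ Q p (1, 0) * fderiv ℝ Q p (0, 1) = 0) ∧
    ∃ Γ : Set (ℝ × ℝ), IsLimitCycle P Q Γ := by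
  refine ⟨PP, QQ, PP_contDiff, QQ_contDiff, orth, ?_⟩
  obtain ⟨Y, hY1, hY10, hY0⟩ := exists_fix
  obtain ⟨γ, T, hT, hγ, hper, h0, hnc, hU⟩ := exists_cycle hY1 hY10 hY0
  refine ⟨range γ, ⟨γ, T, hT, hγ, hper, hnc, rfl⟩, UU, UU_open, hU, ?_⟩
  rintro Γ' ⟨δ, T', hT', hδ, hper', -, rfl⟩ hU'
  obtain ⟨t, ht⟩ := cross hY1 hY0 hT' hδ hper' hU'
  obtain ⟨K, hK⟩ := XX_lip
  have heq := unique_ode hK (γ := δ) (δ := γ) (a := t) (b := 0) hδ hγ (by rw [ht, h0])
  ext p
  constructor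
  · rintro ⟨s, rfl⟩
    refine ⟨s - t, ?_⟩
    have := heq (s - t)
    rw [sub_add_cancel, add_zero] at this
    exact this.symm
  · rintro ⟨s, rfl⟩
    refine ⟨s + t, ?_⟩
    have := heq s
    rw [add_zero] at this
    exact this

end Pool.Agent.R212
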