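import Pool.Agent.H305R3.FC9

set_option autoImplicit false
set_option maxHeartbeats 4000000

open Set Filter Topology Metric MeasureTheory
open Pool.Agent.H305R3.FC

namespace Pool.Agent.R212.PD

variable {n : ℕ} {s : ℝ}

/-- The space of pairs `(v, D v)`. -/
abbrev GS (n : ℕ) := WithLp 2 (Lp ℝ 2 (volume : Measure (E n)) ×
  Lp ℝ 2 ((volume : Measure (E n)).prod (volume : Measure (E n))))

theorem sq_norm_GS (x : GS n) : ‖x‖ ^ 2 = ‖x.fst‖ ^ 2 + ‖x.snd‖ ^ 2 :=
  WithLp.prod_norm_sq_eq_of_L2 x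

/-- existence of solutions with an interior source -/
theorem exists_src (hn : 1 ≤ n) (hs : 0 < s) (hs1 : s < 1) {Ω : Set (E n)}
    (hb : BddOneDir Ω) {a : E n → ℝ} {m M : ℝ} (ha : Wt a m M) {w : E n → ℝ}
    (hw : MemLp w 2 volume) :
    ∃ v, MemHt s Ω v ∧ ∀ φ, MemHt s Ω φ → Bf s a v φ = ∫ x, w x * φ x := by
  classical
  obtain ⟨e, c, r, he, hr, hΩs⟩ := hb
  obtain ⟨CP, hCP, hpoin⟩ := poincare (n := n) (c := c) hs he hr
  have htf : ∀ φ : E n → ℝ, TestFun Ω φ → MemHs s φ := fun φ hφ => hφ.memHs hn hs hs1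
  have hm2 : 0 < m ^ 2 := pow_pos ha.pos 2
  let μ : Measure (E n × E n) := (volume : Measure (E n)).prod volume
  let T : Submodule ℝ (GS n) :=
    { carrier := {h | ∃ φ, TestFun Ω φ ∧ (h.fst : E n → ℝ) =ᵐ[volume] φ ∧
        (h.snd : E n × E n → ℝ) =ᵐ[μ] Dd s a φ}
      add_mem' := by
        rintro h1 h2 ⟨φ1, hφ1, d1, e1⟩ ⟨φ2, hφ2, d2, e2⟩
        refine ⟨fun x => φ1 x + φ2 x, ⟨hφ1.1.add hφ2.1, hφ1.2.1.add hφ2.2.1, ?_⟩, ?_, ?_⟩
        · exact (tsupport_add φ1 φ2).trans (union_subset hφ1.2.2 hφ2.2.2)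
        · filter_upwards [Lp.coeFn_add h1.fst h2.fst, d1, d2] with p hp hp1 hp2
          show ((h1.fst + h2.fst : Lp ℝ 2 (volume : Measure (E n))) : E n → ℝ) p = _
          rw [hp, Pi.add_apply, hp1, hp2]
        · filter_upwards [Lp.coeFn_add h1.snd h2.snd, e1, e2] with p hp hp1 hp2
          show ((h1.snd + h2.snd : Lp ℝ 2 μ) : E n × E n → ℝ) p = _
          rw [hp, Pi.add_apply, hp1, hp2]
          unfold Dd
          ring
      zero_mem' := by
        refine ⟨fun _ => 0, ⟨contDiff_const, HasCompactSupport.zero, ?_⟩, ?_, ?_⟩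
        · have h0 : tsupport (fun _ : E n => (0:ℝ)) = ∅ := tsupport_eq_empty_iff.2 rfl
          rw [h0]
          exact empty_subset _
        · filter_upwards [Lp.coeFn_zero ℝ 2 (volume : Measure (E n))] with p hp
          show ((0 : Lp ℝ 2 (volume : Measure (E n))) : E n → ℝ) p = _
          rw [hp]
          rfl
        · filter_upwards [Lp.coeFn_zero ℝ 2 μ] with p hp
          show ((0 : Lp ℝ 2 μ) : E n × E n → ℝ) p = _
          rw [hp]
          simp [Dd]
      smul_mem' := by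
        rintro t h ⟨φ, hφ, d1, e1⟩
        refine ⟨fun x => t * φ x, ⟨contDiff_const.mul hφ.1, hφ.2.1.mul_left, ?_⟩, ?_, ?_⟩
        · exact (tsupport_mul_subset_right).trans hφ.2.2
        · filter_upwards [Lp.coeFn_smul t h.fst, d1] with p hp hp1
          show ((t • h.fst : Lp ℝ 2 (volume : Measure (E n))) : E n → ℝ) p = _
          rw [hp, Pi.smul_apply, hp1, smul_eq_mul]
        · filter_upwards [Lp.coeFn_smul t h.snd, e1] with p hp hp1
          show ((t • h.snd : Lp ℝ 2 μ) : E n × E n → ℝ) p = _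
          rw [hp, Pi.smul_apply, hp1, smul_eq_mul]
          unfold Dd
          ring }
  let K : Submodule ℝ (GS n) := T.topologicalClosure
  have hKc : IsClosed (K : Set (GS n)) := T.isClosed_topologicalClosure
  have : CompleteSpace K := hKc.completeSpace_coe
  -- characterisation of the elements of `K`
  have hKmem : ∀ h : GS n, h ∈ K → ∃ v, MemHt s Ω v ∧ (h.fst : E n → ℝ) =ᵐ[volume] v ∧
      (h.snd : E n × E n → ℝ) =ᵐ[μ] Dd s a v := by
    intro h hh
    have hh' : h ∈ closure (T : Set (GS n)) := hh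
    obtain ⟨x, hxT, hxlim⟩ := mem_closure_iff_seq_limit.1 hh'
    have hx' : ∀ j, ∃ φ, TestFun Ω φ ∧ ((x j).fst : E n → ℝ) =ᵐ[volume] φ ∧
        ((x j).snd : E n × E n → ℝ) =ᵐ[μ] Dd s a φ := fun j => hxT j
    choose φ hφ hxφ1 hxφ using hx'
    have hφH : ∀ j, MemHs s (φ j) := fun j => htf _ (hφ j)
    have l1 : Tendsto (fun j => (x j).fst) atTop (𝓝 h.fst) :=
      ((WithLp.fstL 2 ℝ (Lp ℝ 2 (volume : Measure (E n))) (Lp ℝ 2 μ)).continuous.tendsto h).comp
        hxlim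
    have l2 : Tendsto (fun j => (x j).snd) atTop (𝓝 h.snd) :=
      ((WithLp.sndL 2 ℝ (Lp ℝ 2 (volume : Measure (E n))) (Lp ℝ 2 μ)).continuous.tendsto h).comp
        hxlim
    let v : E n → ℝ := fun y => h.fst y
    obtain ⟨ns, hns, hnsae⟩ := (tendstoInMeasure_of_tendsto_Lp l1).exists_seq_tendsto_ae
    have hxlim' : Tendsto (fun i => (x (ns i)).snd) atTop (𝓝 h.snd) := l2.comp hns.tendsto_atTop
    obtain ⟨ms, hms, hmsae⟩ := (tendstoInMeasure_of_tendsto_Lp hxlim').exists_seq_tendsto_ae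
    have hvae : ∀ᵐ y ∂(volume : Measure (E n)),
        Tendsto (fun i => φ (ns i) y) atTop (𝓝 (v y)) := by
      filter_upwards [hnsae, ae_all_iff.2 hxφ1] with y h1 h2
      refine h1.congr fun i => ?_
      exact h2 (ns i)
    have hhD : (h.snd : E n × E n → ℝ) =ᵐ[μ] Dd s a v := by
      filter_upwards [hmsae, ae_all_iff.2 hxφ, ae_fst hvae, ae_snd hvae] with p h1 h2 h3 h4
      refine tendsto_nhds_unique h1 ?_
      have h5 : Tendsto (fun i => Dd s a (φ (ns i)) p) atTop (𝓝 (Dd s a v p)) := by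
        unfold Dd
        exact (h3.sub h4).mul_const _
      have h6 := h5.comp hms.tendsto_atTop
      refine h6.congr fun i => ?_
      exact (h2 (ns (ms i))).symm
    have hvLp : MemLp v 2 volume := Lp.memLp h.fst
    have hvH : MemHs s v := by
      refine ⟨hvLp, ?_⟩
      have h1 : Integrable (fun p => Dd s a v p ^ 2) μ := by
        have h2 : Integrable (fun p => (h.snd : E n × E n → ℝ) p ^ 2) μ :=
          (Lp.memLp h.snd).integrable_sq
        refine h2.congr ?_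
        filter_upwards [hhD] with p hp
        rw [hp]
      refine (h1.const_mul (1 / m ^ 2)).mono' ?_ (Eventually.of_forall fun p => ?_)
      · exact ((aesm_diff hvLp.1).pow 2).mul measurable_ker.aestronglyMeasurable
      · have h0 := ker_nonneg (s := s) p
        rw [Real.norm_of_nonneg (mul_nonneg (sq_nonneg _) h0), sq (Dd s a v p), Dd_mul ha]
        have h3 : m ^ 2 ≤ a p.1 * a p.2 := by
          rw [sq]
          exact mul_le_mul (ha.lo _) (ha.lo _) ha.pos.le (ha.nonneg _).le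
        have h4 := mul_le_mul_of_nonneg_right h3 (mul_nonneg (sq_nonneg (v p.1 - v p.2)) h0)
        rw [one_div, inv_mul_eq_div, le_div_iff₀ hm2]
        nlinarith [h4]
    refine ⟨v, ⟨hvH, fun ε hε => ?_⟩, Eventually.of_forall fun _ => rfl, hhD⟩
    have hlim : Tendsto (fun j => ‖h.fst - (x j).fst‖ ^ 2 + 1 / m ^ 2 * ‖h.snd - (x j).snd‖ ^ 2)
        atTop (𝓝 0) := by
      have l1' : Tendsto (fun j => ‖h.fst - (x j).fst‖) atTop (𝓝 0) := by
        have := (tendsto_const_nhds (x := h.fst)).sub l1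
        rw [sub_self] at this
        simpa using this.norm
      have l2' : Tendsto (fun j => ‖h.snd - (x j).snd‖) atTop (𝓝 0) := by
        have := (tendsto_const_nhds (x := h.snd)).sub l2
        rw [sub_self] at this
        simpa using this.norm
      have := (l1'.pow 2).add ((l2'.pow 2).const_mul (1 / m ^ 2))
      simpa using this
    obtain ⟨j, hj⟩ := (hlim.eventually (gt_mem_nhds hε)).exists
    refine ⟨φ j, hφ j, lt_of_le_of_lt ?_ hj⟩
    have hd := hvH.sub (hφH j)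
    have e1 : ‖h.fst - (x j).fst‖ ^ 2 = ∫ y, (v y - φ j y) ^ 2 := by
      apply norm_sq_of_ae
      filter_upwards [Lp.coeFn_sub h.fst (x j).fst, hxφ1 j] with y h1 h2
      rw [h1, Pi.sub_apply, h2]
    have e2 : ‖h.snd - (x j).snd‖ ^ 2 = Bf s a (fun y => v y - φ j y) (fun y => v y - φ j y) := by
      rw [norm_sq_of_ae (h.snd - (x j).snd) (g := Dd s a (fun y => v y - φ j y))]
      · unfold Bf
        congr 1
        funext p
        rw [sq, Dd_mul ha]
      · filter_upwards [Lp.coeFn_sub h.snd (x j).snd, hhD, hxφ j] with y h1 h2 h3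
        rw [h1, Pi.sub_apply, h2, h3]
        unfold Dd
        ring
    rw [e1, e2]
    unfold hsSq
    have h2 := Bf_lower ha hd
    have h3 : ∫ p, ((v p.1 - φ j p.1) - (v p.2 - φ j p.2)) ^ 2 * ker s p
        ∂((volume : Measure (E n)).prod volume) ≤
        1 / m ^ 2 * Bf s a (fun y => v y - φ j y) (fun y => v y - φ j y) := by
      rw [one_div, inv_mul_eq_div, le_div_iff₀ hm2, mul_comm]
      exact h2
    exact add_le_add (le_refl _) h3
  -- elements of `MemHt` give elements of `K`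
  have hmemK : ∀ g : E n → ℝ, MemHt s Ω g → ∃ G : GS n, G ∈ K ∧
      (G.fst : E n → ℝ) =ᵐ[volume] g ∧ (G.snd : E n × E n → ℝ) =ᵐ[μ] Dd s a g := by
    intro g hg
    let G : GS n := WithLp.toLp 2 (hg.1.1.toLp g, (memLp_Dd ha hg.1).toLp _)
    have hG1 : (G.fst : E n → ℝ) =ᵐ[volume] g := hg.1.1.coeFn_toLp
    have hG2 : (G.snd : E n × E n → ℝ) =ᵐ[μ] Dd s a g := (memLp_Dd ha hg.1).coeFn_toLp
    refine ⟨G, ?_, hG1, hG2⟩
    show G ∈ closure (T : Set (GS n))
    rw [Metric.mem_closure_iff]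
    intro ε hε
    obtain ⟨φ', hφ', hlt⟩ := hg.2 (ε ^ 2 / (1 + M ^ 2)) (by positivity)
    have hφ'H := htf _ hφ'
    let G' : GS n := WithLp.toLp 2 (hφ'H.1.toLp φ', (memLp_Dd ha hφ'H).toLp _)
    have hG'1 : (G'.fst : E n → ℝ) =ᵐ[volume] φ' := hφ'H.1.coeFn_toLp
    have hG'2 : (G'.snd : E n × E n → ℝ) =ᵐ[μ] Dd s a φ' := (memLp_Dd ha hφ'H).coeFn_toLp
    refine ⟨G', ⟨φ', hφ', hG'1, hG'2⟩, ?_⟩
    rw [dist_eq_norm]
    have hd := hg.1.sub hφ'H
    have e0 : ‖G - G'‖ ^ 2 = ‖G.fst - G'.fst‖ ^ 2 + ‖G.snd - G'.snd‖ ^ 2 := sq_norm_GS (G - G')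
    have e1 : ‖G.fst - G'.fst‖ ^ 2 = ∫ y, (g y - φ' y) ^ 2 := by
      apply norm_sq_of_ae
      filter_upwards [Lp.coeFn_sub G.fst G'.fst, hG1, hG'1] with y h1 h2 h3
      rw [h1, Pi.sub_apply, h2, h3]
    have e2 : ‖G.snd - G'.snd‖ ^ 2 =
        Bf s a (fun y => g y - φ' y) (fun y => g y - φ' y) := by
      rw [norm_sq_of_ae (G.snd - G'.snd) (g := Dd s a (fun y => g y - φ' y))]
      · unfold Bf
        congr 1
        funext p
        rw [sq, Dd_mul ha]
      · filter_upwards [Lp.coeFn_sub G.snd G'.snd, hG2, hG'2] with y h1 h2 h3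
        rw [h1, Pi.sub_apply, h2, h3]
        unfold Dd
        ring
    have h5 := Bf_upper ha hd
    have h7 : hsSq s (fun x => g x - φ' x) = (∫ x, (g x - φ' x) ^ 2) +
      ∫ p, ((g p.1 - φ' p.1) - (g p.2 - φ' p.2)) ^ 2 * ker s p
        ∂((volume : Measure (E n)).prod volume) := rfl
    have h6 : 0 ≤ ∫ x, (g x - φ' x) ^ 2 := integral_nonneg fun x => sq_nonneg _
    have h8 : 0 ≤ ∫ p, ((g p.1 - φ' p.1) - (g p.2 - φ' p.2)) ^ 2 * ker s p
        ∂((volume : Measure (E n)).prod volume) :=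
      integral_nonneg fun p => mul_nonneg (sq_nonneg _) (ker_nonneg _)
    rw [lt_div_iff₀ (by positivity)] at hlt
    have h9 : ‖G - G'‖ ^ 2 < ε ^ 2 := by
      rw [e0, e1, e2]
      rw [h7] at hlt
      have h5' : Bf s a (fun y => g y - φ' y) (fun y => g y - φ' y) ≤
          M ^ 2 * ∫ p, ((g p.1 - φ' p.1) - (g p.2 - φ' p.2)) ^ 2 * ker s p
            ∂((volume : Measure (E n)).prod volume) := h5
      nlinarith [mul_nonneg (sq_nonneg M) h6]
    exact lt_of_pow_lt_pow_left₀ 2 hε.le h9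
  -- the bilinear form
  let S2 : K →L[ℝ] Lp ℝ 2 μ :=
    (WithLp.sndL 2 ℝ (Lp ℝ 2 (volume : Measure (E n))) (Lp ℝ 2 μ)).comp K.subtypeL
  let S1 : K →L[ℝ] Lp ℝ 2 (volume : Measure (E n)) :=
    (WithLp.fstL 2 ℝ (Lp ℝ 2 (volume : Measure (E n))) (Lp ℝ 2 μ)).comp K.subtypeL
  let B : K →L[ℝ] K →L[ℝ] ℝ := (innerSL ℝ).bilinearComp S2 S2
  have hB : ∀ u v : K, B u v = inner ℝ (u : GS n).snd (v : GS n).snd := fun u v => rfl
  have hcoer : IsCoercive B := by
    refine ⟨1 / (CP / m ^ 2 + 1), by positivity, fun u => ?_⟩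
    rw [hB, real_inner_self_eq_norm_sq]
    obtain ⟨v, hv, h1, h2⟩ := hKmem u u.2
    have e0 : ‖u‖ ^ 2 = ‖(u : GS n).fst‖ ^ 2 + ‖(u : GS n).snd‖ ^ 2 := sq_norm_GS (u : GS n)
    have e1 : ‖(u : GS n).fst‖ ^ 2 = ∫ y, v y ^ 2 := norm_sq_of_ae _ h1
    have e2 : ‖(u : GS n).snd‖ ^ 2 = Bf s a v v := by
      rw [norm_sq_of_ae _ h2]
      unfold Bf
      congr 1
      funext p
      rw [sq, Dd_mul ha]
    have hv0 : ∀ᵐ x ∂(volume : Measure (E n)), ¬ (|inner ℝ e x - c| ≤ r) → v x = 0 := by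
      have hcl : MeasurableSet {x : E n | |inner ℝ e x - c| ≤ r} := by
        apply IsClosed.measurableSet
        exact isClosed_le (by fun_prop) continuous_const
      have := MemHt.ae_zero (s := s) hcl (v := v) ⟨hv.1, fun ε hε => ?_⟩
        (fun φ hφ => hφ.memHs hn hs hs1)
      · filter_upwards [this] with x hx hx2
        exact hx hx2
      · obtain ⟨φ, hφ, hlt⟩ := hv.2 ε hε
        exact ⟨φ, ⟨hφ.1, hφ.2.1, hφ.2.2.trans fun x hx => hΩs x hx⟩, hlt⟩
    have h3 := hpoin v hv.1 hv0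
    have h4 := Bf_lower ha hv.1
    have h5 : ∫ y, v y ^ 2 ≤ CP / m ^ 2 * Bf s a v v := by
      refine h3.trans ?_
      rw [div_mul_eq_mul_div, le_div_iff₀ hm2]
      nlinarith [h4, hCP]
    have h6 : ‖u‖ ^ 2 ≤ (CP / m ^ 2 + 1) * ‖(u : GS n).snd‖ ^ 2 := by
      rw [e0, e1, e2]
      linarith
    rw [mul_assoc, ← sq, one_div, inv_mul_eq_div, div_le_iff₀ (by positivity), mul_comm]
    exact h6
  let W : Lp ℝ 2 (volume : Measure (E n)) := hw.toLp w
  have hW : (W : E n → ℝ) =ᵐ[volume] w := hw.coeFn_toLp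
  let ℓ : StrongDual ℝ K := (innerSL ℝ W).comp S1
  let R : K := (InnerProductSpace.toDual ℝ K).symm ℓ
  let U : K := hcoer.continuousLinearEquivOfBilin.symm R
  have hU : ∀ g : K, inner ℝ (U : GS n).snd (g : GS n).snd = inner ℝ W (g : GS n).fst := by
    intro g
    have h1 := hcoer.continuousLinearEquivOfBilin_apply U g
    have h2 : hcoer.continuousLinearEquivOfBilin U = R :=
      hcoer.continuousLinearEquivOfBilin.apply_symm_apply R
    rw [h2, hB] at h1
    have h3 : inner ℝ R g = ℓ g := InnerProductSpace.toDual_symm_apply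
    rw [h3] at h1
    exact h1.symm
  obtain ⟨v, hv, hv1, hv2⟩ := hKmem U U.2
  refine ⟨v, hv, fun φ hφ => ?_⟩
  obtain ⟨G, hG, hG1, hG2⟩ := hmemK φ hφ
  have h1 := hU ⟨G, hG⟩
  rw [inner_of_ae _ _ hv2 hG2, inner_of_ae _ _ hW hG1] at h1
  rw [← h1]
  unfold Bf
  congr 1
  funext p
  rw [Dd_mul ha]

end Pool.Agent.R212.PD
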