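import Pool.Agent.R212.PD1

set_option autoImplicit false
set_option maxHeartbeats 4000000

open Set Filter Topology Metric MeasureTheory
open Pool.Agent.H305R3.FC

namespace Pool.Agent.R212.PD

variable {n : ℕ} {s : ℝ}

theorem sqrt_contr (a b ε : ℝ) :
    ((√(a ^ 2 + ε ^ 2) - ε) - (√(b ^ 2 + ε ^ 2) - ε)) ^ 2 ≤ (a - b) ^ 2 := by
  have ha : 0 ≤ a ^ 2 + ε ^ 2 := by positivity
  have hb : 0 ≤ b ^ 2 + ε ^ 2 := by positivity
  have h1 := Real.sq_sqrt ha
  have h2 := Real.sq_sqrt hb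
  have h3 := Real.sqrt_nonneg (a ^ 2 + ε ^ 2)
  have h4 := Real.sqrt_nonneg (b ^ 2 + ε ^ 2)
  set p := √(a ^ 2 + ε ^ 2)
  set q := √(b ^ 2 + ε ^ 2)
  have h5 : a * b + ε ^ 2 ≤ p * q := by
    by_contra hcon
    push Not at hcon
    have h6 : (p * q) * (p * q) < (a * b + ε ^ 2) * (a * b + ε ^ 2) :=
      mul_self_lt_mul_self (mul_nonneg h3 h4) hcon
    have h7 : (p * q) * (p * q) = (a ^ 2 + ε ^ 2) * (b ^ 2 + ε ^ 2) := by
      rw [← h1, ← h2]; ring
    rw [h7] at h6
    nlinarith [sq_nonneg (ε * (a - b))]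
  nlinarith

theorem Bf_expand {a : E n → ℝ} {m M : ℝ} (ha : Wt a m M) {u v : E n → ℝ}
    (hu : MemHs s u) (hv : MemHs s v) :
    Bf s a (fun x => u x - v x) (fun x => u x - v x) =
      Bf s a u u - 2 * Bf s a v u + Bf s a v v := by
  rw [Bf_sub ha hu hv (hu.sub hv), Bf_symm (u := u), Bf_sub ha hu hv hu,
    Bf_symm (u := v) (v := fun x => u x - v x), Bf_sub ha hu hv hv, Bf_symm (u := u) (v := v)]
  ring

/-- positivity of the solution with a nonnegative source -/
theorem src_nonneg (hn : 1 ≤ n) (hs : 0 < s) (hs1 : s < 1) {Ω : Set (E n)}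
    (hΩ : MeasurableSet Ω) {CP : ℝ} (hP : PoinC s Ω CP) {a : E n → ℝ} {m M : ℝ} (ha : Wt a m M)
    {w v : E n → ℝ} (hw : MemLp w 2 volume) (hwi : Integrable w volume) (hw0 : ∀ x, 0 ≤ w x)
    (hv : MemHt s Ω v) (heq : ∀ φ, MemHt s Ω φ → Bf s a v φ = ∫ x, w x * φ x) :
    ∀ᵐ x ∂(volume : Measure (E n)), 0 ≤ v x := by
  have htf : ∀ φ : E n → ℝ, TestFun Ω φ → MemHs s φ := fun φ hφ => hφ.memHs hn hs hs1
  have htt : ∀ φ : E n → ℝ, TestFun Ω φ → MemHt s Ω φ := by
    intro φ hφ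
    refine ⟨htf φ hφ, fun ε hε => ⟨φ, hφ, ?_⟩⟩
    unfold hsSq
    simpa using hε
  have hm2 : 0 < m ^ 2 := pow_pos ha.pos 2
  have hW0 : 0 ≤ ∫ x, w x := integral_nonneg hw0
  have hv0 := hv.ae_zero hΩ htf
  set C : ℝ := CP / m ^ 2 * (M ^ 2 + 2 * ∫ x, w x) with hC
  have hCP := hP.1
  have hC0 : 0 ≤ C := by positivity
  have key : ∀ ε : ℝ, 0 < ε → ∫ x, (min (v x) 0) ^ 2 ≤ C * ε := by
    intro ε hε
    obtain ⟨φ, hφ, hlt⟩ := hv.2 ε hε
    have hφH := htf φ hφ
    let g : ℝ → ℝ := fun t => √(t ^ 2 + ε ^ 2) - ε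
    have hg0 : g 0 = 0 := by
      show √((0:ℝ) ^ 2 + ε ^ 2) - ε = 0
      rw [zero_pow two_ne_zero, zero_add, Real.sqrt_sq hε.le, sub_self]
    let ψ : E n → ℝ := fun x => g (φ x)
    have hψ : TestFun Ω ψ := by
      refine ⟨?_, hφ.2.1.comp_left hg0, ?_⟩
      · have h1 : ContDiff ℝ ((⊤ : ℕ∞) : WithTop ℕ∞) (fun x => φ x ^ 2 + ε ^ 2) :=
          (hφ.1.pow 2).add contDiff_const
        exact (h1.sqrt fun x => by positivity).sub contDiff_const
      · exact (tsupport_comp_subset hg0 φ).trans hφ.2.2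
    have hψH := htf ψ hψ
    have hψ0 : ∀ x, 0 ≤ ψ x := fun x => by
      show 0 ≤ √(φ x ^ 2 + ε ^ 2) - ε
      have : ε ≤ √(φ x ^ 2 + ε ^ 2) := Real.le_sqrt_of_sq_le (by nlinarith [sq_nonneg (φ x)])
      linarith
    have hφψ : ∀ x, φ x - ψ x ≤ ε := fun x => by
      show φ x - (√(φ x ^ 2 + ε ^ 2) - ε) ≤ ε
      have : φ x ≤ √(φ x ^ 2 + ε ^ 2) := Real.le_sqrt_of_sq_le (by nlinarith [sq_nonneg ε])
      linarith
    have hBle : Bf s a ψ ψ ≤ Bf s a φ φ := by
      unfold Bf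
      refine integral_mono (integrable_Bf ha hψH hψH) (integrable_Bf ha hφH hφH) fun p => ?_
      have h0 := ker_nonneg (s := s) p
      have h1 : 0 ≤ a p.1 * a p.2 := (mul_pos (ha.nonneg _) (ha.nonneg _)).le
      have h2 := sqrt_contr (φ p.1) (φ p.2) ε
      show a p.1 * a p.2 * ((ψ p.1 - ψ p.2) * (ψ p.1 - ψ p.2)) * ker s p ≤
        a p.1 * a p.2 * ((φ p.1 - φ p.2) * (φ p.1 - φ p.2)) * ker s p
      apply mul_le_mul_of_nonneg_right _ h0
      apply mul_le_mul_of_nonneg_left _ h1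
      rw [← sq, ← sq]
      exact h2
    have e1 := Bf_expand ha hφH hv.1
    have e2 := Bf_expand ha hψH hv.1
    rw [heq φ (htt φ hφ), heq v hv] at e1
    rw [heq ψ (htt ψ hψ), heq v hv] at e2
    have i1 : Integrable (fun x => w x * φ x) volume := hw.integrable_mul hφH.1
    have i2 : Integrable (fun x => w x * ψ x) volume := hw.integrable_mul hψH.1
    have h3 : (∫ x, w x * φ x) - ∫ x, w x * ψ x ≤ ε * ∫ x, w x := by
      rw [← integral_sub i1 i2, ← integral_const_mul]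
      apply integral_mono (i1.sub i2) (hwi.const_mul ε)
      intro x
      show w x * φ x - w x * ψ x ≤ ε * w x
      have := mul_le_mul_of_nonneg_left (hφψ x) (hw0 x)
      linarith
    have hd1 := hφH.sub hv.1
    have hd2 := hψH.sub hv.1
    have h4 : Bf s a (fun x => φ x - v x) (fun x => φ x - v x) ≤ M ^ 2 * ε := by
      refine (Bf_upper ha hd1).trans ?_
      apply mul_le_mul_of_nonneg_left _ (sq_nonneg M)
      have h7 : hsSq s (fun x => v x - φ x) = (∫ x, (v x - φ x) ^ 2) +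
        ∫ p, ((v p.1 - φ p.1) - (v p.2 - φ p.2)) ^ 2 * ker s p
          ∂((volume : Measure (E n)).prod volume) := rfl
      have h6 : 0 ≤ ∫ x, (v x - φ x) ^ 2 := integral_nonneg fun x => sq_nonneg _
      have h8 : ∫ p, ((φ p.1 - v p.1) - (φ p.2 - v p.2)) ^ 2 * ker s p
          ∂((volume : Measure (E n)).prod volume) =
          ∫ p, ((v p.1 - φ p.1) - (v p.2 - φ p.2)) ^ 2 * ker s p
          ∂((volume : Measure (E n)).prod volume) := by
        congr 1
        funext p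
        ring
      rw [h8]
      linarith
    have h5 : Bf s a (fun x => ψ x - v x) (fun x => ψ x - v x) ≤
        M ^ 2 * ε + 2 * (ε * ∫ x, w x) := by
      linarith
    have h6 := hP.2 _ hd2 (by
      filter_upwards [hv0] with x hx hxΩ
      have z1 : ψ x = 0 := image_eq_zero_of_notMem_tsupport (fun h => hxΩ (hψ.2.2 h))
      rw [z1, hx hxΩ, sub_zero])
    have h7 := Bf_lower ha hd2
    have h8 : ∫ x, (ψ x - v x) ^ 2 ≤ C * ε := by
      calc ∫ x, (ψ x - v x) ^ 2 ≤ CP * ∫ p, ((ψ p.1 - v p.1) - (ψ p.2 - v p.2)) ^ 2 * ker s p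
            ∂((volume : Measure (E n)).prod volume) := h6
        _ ≤ CP / m ^ 2 * Bf s a (fun x => ψ x - v x) (fun x => ψ x - v x) := by
            rw [div_mul_eq_mul_div, le_div_iff₀ hm2]
            nlinarith [h7]
        _ ≤ CP / m ^ 2 * (M ^ 2 * ε + 2 * (ε * ∫ x, w x)) :=
            mul_le_mul_of_nonneg_left h5 (by positivity)
        _ = C * ε := by rw [hC]; ring
    refine le_trans ?_ h8
    apply integral_mono_of_nonneg (Eventually.of_forall fun x => sq_nonneg _) hd2.1.integrable_sq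
    refine Eventually.of_forall fun x => ?_
    show (min (v x) 0) ^ 2 ≤ (ψ x - v x) ^ 2
    rcases le_total (v x) 0 with h | h
    · rw [min_eq_left h]
      nlinarith [hψ0 x, h]
    · rw [min_eq_right h]
      nlinarith [sq_nonneg (ψ x - v x)]
  have hz : ∫ x, (min (v x) 0) ^ 2 = 0 := by
    apply le_antisymm
    · refine le_of_forall_pos_le_add fun δ hδ => ?_
      have h1 := key (δ / (C + 1)) (by positivity)
      have h2 : C * (δ / (C + 1)) ≤ δ := by
        rw [mul_div_assoc', div_le_iff₀ (by positivity)]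
        nlinarith
      linarith
    · exact integral_nonneg fun x => sq_nonneg _
  have hi : Integrable (fun x => (min (v x) 0) ^ 2) volume := by
    refine hv.1.1.integrable_sq.mono' ?_ (Eventually.of_forall fun x => ?_)
    · exact ((hv.1.1.1.inf aestronglyMeasurable_const).pow 2)
    · rw [Real.norm_of_nonneg (sq_nonneg _)]
      rcases le_total (v x) 0 with h | h
      · rw [min_eq_left h]
      · rw [min_eq_right h]
        nlinarith [sq_nonneg (v x)]
  rw [integral_eq_zero_iff_of_nonneg (fun x => sq_nonneg _) hi] at hz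
  filter_upwards [hz] with x hx
  have h1 : (min (v x) 0) ^ 2 = 0 := hx
  have h2 : min (v x) 0 = 0 := pow_eq_zero_iff two_ne_zero |>.1 h1
  exact min_eq_right_iff.1 h2

end Pool.Agent.R212.PD
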