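import Pool.Agent.H305R3.FC9

set_option autoImplicit false
set_option maxHeartbeats 4000000

open Set Filter Topology Metric MeasureTheory
open Pool.Agent.H305R3.FC

namespace Pool.Agent.R212.PD

variable {n : ℕ}

/-- the complexified quadratic -/
noncomputable def QQ (y e x : E n) (z : ℂ) : ℂ :=
  ((‖y - x‖ ^ 2 : ℝ) : ℂ) + 2 * z * ((inner ℝ (y - x) e : ℝ) : ℂ) + z ^ 2 * ((‖e‖ ^ 2 : ℝ) : ℂ)

theorem norm_line_sq (y e x : E n) (t : ℝ) :
    ‖y + t • e - x‖ ^ 2 = ‖y - x‖ ^ 2 + 2 * t * inner ℝ (y - x) e + t ^ 2 * ‖e‖ ^ 2 := by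
  have h : y + t • e - x = (y - x) + t • e := by abel
  rw [h, norm_add_sq_real, inner_smul_right, norm_smul, mul_pow, Real.norm_eq_abs, sq_abs]
  ring

theorem QQ_ofReal (y e x : E n) (t : ℝ) : QQ y e x t = ((‖y + t • e - x‖ ^ 2 : ℝ) : ℂ) := by
  rw [norm_line_sq]
  unfold QQ
  push_cast
  ring

theorem QQ_re (y e x : E n) (z : ℂ) :
    (QQ y e x z).re = ‖y + z.re • e - x‖ ^ 2 - z.im ^ 2 * ‖e‖ ^ 2 := by
  rw [norm_line_sq]
  unfold QQ
  simp only [Complex.add_re, Complex.mul_re, Complex.ofReal_re, Complex.ofReal_im, mul_zero,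
    sub_zero, pow_two, Complex.re_ofNat, Complex.im_ofNat, zero_mul, Complex.mul_im, add_zero]
  ring

theorem analytic_line {μ : Measure (E n)} {F : E n → ℝ} (hF : Integrable F μ) {y e : E n}
    {δ q : ℝ} (hδ : 0 < δ) (hq : 0 < q)
    (hsep : ∀ᵐ x ∂μ, F x ≠ 0 → ∀ t : ℝ, δ ≤ ‖y + t • e - x‖) :
    AnalyticOnNhd ℝ (fun t : ℝ => ∫ x, F x * ‖y + t • e - x‖ ^ (-q) ∂μ) univ := by
  set S : Set ℂ := {z : ℂ | z.im ^ 2 * ‖e‖ ^ 2 < δ ^ 2 / 2} with hS
  have hSo : IsOpen S := isOpen_lt (by fun_prop) continuous_const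
  have hre : ∀ z ∈ S, ∀ x : E n, (∀ t : ℝ, δ ≤ ‖y + t • e - x‖) →
      δ ^ 2 / 2 < (QQ y e x z).re := by
    intro z hz x hx
    rw [QQ_re]
    have h1 := hx z.re
    have h2 : δ ^ 2 ≤ ‖y + z.re • e - x‖ ^ 2 := pow_le_pow_left₀ hδ.le h1 2
    have h3 : z.im ^ 2 * ‖e‖ ^ 2 < δ ^ 2 / 2 := hz
    linarith
  let c : ℂ := ((-(q / 2) : ℝ) : ℂ)
  let C : ℝ := (δ ^ 2 / 2) ^ (-(q / 2))
  have hslit : ∀ z ∈ S, ∀ x : E n, (∀ t : ℝ, δ ≤ ‖y + t • e - x‖) →
      QQ y e x z ∈ Complex.slitPlane := by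
    intro z hz x hx
    left
    have := hre z hz x hx
    have : 0 < δ ^ 2 / 2 := by positivity
    linarith
  have hCb : ∀ z ∈ S, ∀ x : E n, (∀ t : ℝ, δ ≤ ‖y + t • e - x‖) →
      ‖(QQ y e x z) ^ c‖ ≤ C := by
    intro z hz x hx
    rw [Complex.norm_cpow_real]
    apply Real.rpow_le_rpow_of_nonpos (by positivity) _ (by linarith)
    exact (hre z hz x hx).le.trans (Complex.re_le_norm _)
  have hQd : ∀ (x : E n) (z : ℂ), HasDerivAt (QQ y e x)
      (2 * ((inner ℝ (y - x) e : ℝ) : ℂ) + 2 * z * ((‖e‖ ^ 2 : ℝ) : ℂ)) z := by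
    intro x z
    have h1 : HasDerivAt (fun z : ℂ => 2 * z * ((inner ℝ (y - x) e : ℝ) : ℂ))
        (2 * ((inner ℝ (y - x) e : ℝ) : ℂ)) z := by
      have := ((hasDerivAt_id z).const_mul 2).mul_const ((inner ℝ (y - x) e : ℝ) : ℂ)
      simpa using this
    have h2 : HasDerivAt (fun z : ℂ => z ^ 2 * ((‖e‖ ^ 2 : ℝ) : ℂ))
        (2 * z * ((‖e‖ ^ 2 : ℝ) : ℂ)) z := by
      have := (hasDerivAt_pow 2 z).mul_const ((‖e‖ ^ 2 : ℝ) : ℂ)
      simpa using this
    exact (h1.const_add _).add h2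
  have hcd : ∀ z ∈ S, ∀ x : E n, (∀ t : ℝ, δ ≤ ‖y + t • e - x‖) →
      HasDerivAt (fun z => (QQ y e x z) ^ c) (c * (QQ y e x z) ^ (c - 1) *
        (2 * ((inner ℝ (y - x) e : ℝ) : ℂ) + 2 * z * ((‖e‖ ^ 2 : ℝ) : ℂ))) z := by
    intro z hz x hx
    exact (hQd x z).cpow_const (hslit z hz x hx)
  let g : ℂ → ℂ := fun z => ∫ x, (F x : ℂ) * (QQ y e x z) ^ c ∂μ
  have hQm : ∀ z : ℂ, Measurable fun x : E n => QQ y e x z := by
    intro z
    unfold QQ
    fun_prop
  have hFm : AEStronglyMeasurable (fun x => (F x : ℂ)) μ :=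
    Complex.continuous_ofReal.comp_aestronglyMeasurable hF.1
  have hmeas : ∀ z : ℂ, AEStronglyMeasurable (fun x => (F x : ℂ) * (QQ y e x z) ^ c) μ := by
    intro z
    exact hFm.mul ((hQm z).pow_const c).aestronglyMeasurable
  have hgd : DifferentiableOn ℂ g S := by
    intro z0 hz0
    obtain ⟨r, hr, hball⟩ := Metric.isOpen_iff.1 hSo z0 hz0
    have hr2 : 0 < r / 2 := by positivity
    have key := hasDerivAt_integral_of_dominated_loc_of_deriv_le (𝕜 := ℂ) (μ := μ)
      (F := fun (z : ℂ) x => (F x : ℂ) * (QQ y e x z) ^ c) (x₀ := z0) (s := ball z0 (r / 2))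
      (bound := fun x => ‖F x‖ * (C / (r / 2)))
      (F' := fun (z : ℂ) x => (F x : ℂ) * (c * (QQ y e x z) ^ (c - 1) *
        (2 * ((inner ℝ (y - x) e : ℝ) : ℂ) + 2 * z * ((‖e‖ ^ 2 : ℝ) : ℂ))))
      (ball_mem_nhds z0 hr2) (Eventually.of_forall hmeas) ?_ ?_ ?_ ?_ ?_
    · exact key.2.differentiableAt.differentiableWithinAt
    · refine (hF.norm.mul_const C).mono' (hmeas z0) ?_
      filter_upwards [hsep] with x hx
      by_cases h0 : F x = 0
      · rw [h0]; simp
      · rw [norm_mul, Complex.norm_real]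
        exact mul_le_mul_of_nonneg_left (hCb z0 hz0 x (hx h0)) (norm_nonneg _)
    · refine hFm.mul (Measurable.aestronglyMeasurable ?_)
      have := (hQm z0).pow_const (c - 1)
      fun_prop
    · filter_upwards [hsep] with x hx z hz
      by_cases h0 : F x = 0
      · rw [h0]; simp
      · rw [norm_mul, Complex.norm_real]
        apply mul_le_mul_of_nonneg_left _ (norm_nonneg _)
        have hsub : closedBall z (r / 2) ⊆ S := by
          intro z' hz'
          apply hball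
          rw [mem_closedBall, dist_eq_norm] at hz'
          rw [mem_ball, dist_eq_norm] at hz ⊢
          calc ‖z' - z0‖ = ‖(z' - z) + (z - z0)‖ := by congr 1; abel
            _ ≤ ‖z' - z‖ + ‖z - z0‖ := norm_add_le _ _
            _ < r := by linarith
        have hzS : z ∈ S := hsub (mem_closedBall_self hr2.le)
        rw [← (hcd z hzS x (hx h0)).deriv]
        apply Complex.norm_deriv_le_of_forall_mem_sphere_norm_le hr2
        · apply DifferentiableOn.diffContOnCl
          rw [closure_ball z hr2.ne']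
          intro z' hz'
          exact (hcd z' (hsub hz') x (hx h0)).differentiableAt.differentiableWithinAt
        · intro z' hz'
          exact hCb z' (hsub (sphere_subset_closedBall hz')) x (hx h0)
    · exact hF.norm.mul_const _
    · filter_upwards [hsep] with x hx z hz
      by_cases h0 : F x = 0
      · rw [h0]
        simp only [Complex.ofReal_zero, zero_mul]
        exact hasDerivAt_const _ _
      · have hzS : z ∈ S := hball (ball_subset_ball (by linarith) hz)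
        exact (hcd z hzS x (hx h0)).const_mul _
  have hga : AnalyticOnNhd ℂ g S := hgd.analyticOnNhd hSo
  intro t _
  have htS : (t : ℂ) ∈ S := by
    show (t : ℂ).im ^ 2 * ‖e‖ ^ 2 < δ ^ 2 / 2
    rw [Complex.ofReal_im]
    have : 0 < δ ^ 2 / 2 := by positivity
    simpa using this
  have h1 := (hga t htS).re_ofReal
  have h2 : (fun t : ℝ => ∫ x, F x * ‖y + t • e - x‖ ^ (-q) ∂μ) = fun t : ℝ => (g t).re := by
    funext t
    have h3 : g t = ((∫ x, F x * ‖y + t • e - x‖ ^ (-q) ∂μ : ℝ) : ℂ) := by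
      rw [← integral_complex_ofReal]
      show ∫ x, (F x : ℂ) * (QQ y e x t) ^ c ∂μ = _
      congr 1
      funext x
      rw [QQ_ofReal]
      show (F x : ℂ) * ((‖y + t • e - x‖ ^ 2 : ℝ) : ℂ) ^ ((-(q / 2) : ℝ) : ℂ) = _
      rw [← Complex.ofReal_cpow (by positivity), ← Complex.ofReal_mul]
      congr 2
      rw [← Real.rpow_natCast, ← Real.rpow_mul (norm_nonneg _)]
      congr 1
      push_cast
      ring
    rw [h3, Complex.ofReal_re]
  rw [h2]
  exact h1

theorem cont_pot {F : E n → ℝ} (hF : Integrable F volume) {y0 : E n} {δ q : ℝ} (hδ : 0 < δ)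
    (hq : 0 < q) (hsep : ∀ᵐ x ∂(volume : Measure (E n)), F x ≠ 0 → 2 * δ ≤ ‖y0 - x‖) :
    ContinuousAt (fun y => ∫ x, F x * ‖y - x‖ ^ (-q)) y0 := by
  apply continuousAt_of_dominated (bound := fun x => ‖F x‖ * δ ^ (-q))
  · refine Eventually.of_forall fun y => ?_
    exact hF.1.mul (by fun_prop : Measurable fun x => ‖y - x‖ ^ (-q)).aestronglyMeasurable
  · filter_upwards [ball_mem_nhds y0 hδ] with y hy
    filter_upwards [hsep] with x hx
    by_cases h0 : F x = 0
    · rw [h0]; simp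
    · rw [norm_mul, Real.norm_of_nonneg (by positivity : 0 ≤ ‖y - x‖ ^ (-q))]
      apply mul_le_mul_of_nonneg_left _ (norm_nonneg _)
      apply Real.rpow_le_rpow_of_nonpos hδ _ (by linarith)
      have h1 := hx h0
      rw [mem_ball, dist_eq_norm] at hy
      have h2 : ‖y0 - x‖ ≤ ‖y - x‖ + ‖y - y0‖ := by
        calc ‖y0 - x‖ = ‖(y - x) - (y - y0)‖ := by congr 1; abel
          _ ≤ _ := norm_sub_le _ _
      linarith
  · exact hF.norm.mul_const _
  · filter_upwards [hsep] with x hx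
    by_cases h0 : F x = 0
    · simp only [h0, zero_mul]
      exact continuousAt_const
    · have h1 := hx h0
      have h2 : ‖y0 - x‖ ≠ 0 := by
        intro h
        rw [h] at h1
        linarith
      refine continuousAt_const.mul ?_
      refine ContinuousAt.rpow_const ?_ (Or.inl h2)
      fun_prop

end Pool.Agent.R212.PD
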