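import Pool.Agent.R212.PD2
import Pool.Agent.R212.PD3

set_option autoImplicit false
set_option maxHeartbeats 4000000

open Set Filter Topology Metric MeasureTheory
open Pool.Agent.H305R3.FC

namespace Pool.Agent.R212.PD

variable {n : ℕ} {s : ℝ}

/-- `y` has positive distance from `Ω` -/
def Far (Ω : Set (E n)) (y : E n) : Prop := ∃ d : ℝ, 0 < d ∧ ∀ z ∈ Ω, d ≤ ‖y - z‖

theorem far_of {Ω : Set (E n)} {y : E n} (hy : y ∉ closure Ω) : Far Ω y := by
  obtain ⟨ε, hε, hb⟩ := Metric.isOpen_iff.1 isClosed_closure.isOpen_compl y hy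
  refine ⟨ε, hε, fun z hz => ?_⟩
  by_contra h
  push Not at h
  have : z ∈ ball y ε := by rwa [mem_ball, dist_eq_norm, norm_sub_rev]
  exact hb this (subset_closure hz)

/-- the corrector of a point source -/
structure PS (s : ℝ) (Ω : Set (E n)) (a : E n → ℝ) (y : E n) (v : E n → ℝ) : Prop where
  ht : MemHt s Ω v
  eq : ∀ φ, MemHt s Ω φ → Bf s a v φ = 2 * Pot s (fun z => φ z * a z) y
  nn : ∀ᵐ x ∂(volume : Measure (E n)), 0 ≤ v x
  zero : ∀ᵐ x ∂(volume : Measure (E n)), x ∉ Ω → v x = 0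

/-- The setting: dimension, exponent, domain. -/
structure Dom (n : ℕ) (s : ℝ) (Ω : Set (E n)) : Prop where
  hn : 1 ≤ n
  hs : 0 < s
  hs1 : s < 1
  meas : MeasurableSet Ω
  fin : volume Ω < ⊤
  bdd : BddOneDir Ω

theorem exists_PS {Ω : Set (E n)} (D : Dom n s Ω) {a : E n → ℝ} {m M : ℝ} (ha : Wt a m M)
    {y : E n} (hy : Far Ω y) : ∃ v, PS s Ω a y v := by
  obtain ⟨d, hd, hsep⟩ := hy
  obtain ⟨CP, hP⟩ := exists_PoinC D.hs D.bdd
  have hn0 : (0:ℝ) ≤ n := n.cast_nonneg
  have htf : ∀ φ : E n → ℝ, TestFun Ω φ → MemHs s φ := fun φ hφ => hφ.memHs D.hn D.hs D.hs1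
  let w : E n → ℝ := Ω.indicator (fun z => 2 * (a z * ‖y - z‖ ^ (-((n : ℝ) + 2 * s))))
  have hwm : Measurable w := by
    have := ha.meas
    exact Measurable.indicator (by fun_prop) D.meas
  have hw0 : ∀ x, 0 ≤ w x := fun x => indicator_nonneg (fun z _ => by
    have := (ha.nonneg z).le
    positivity) x
  set C : ℝ := 2 * (M * d ^ (-((n : ℝ) + 2 * s))) with hC
  have hwC : ∀ x, ‖w x‖ ≤ Ω.indicator (fun _ => C) x := by
    intro x
    rw [Real.norm_of_nonneg (hw0 x)]
    by_cases hx : x ∈ Ω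
    · show Ω.indicator _ x ≤ _
      rw [indicator_of_mem hx, indicator_of_mem hx]
      have h1 : ‖y - x‖ ^ (-((n : ℝ) + 2 * s)) ≤ d ^ (-((n : ℝ) + 2 * s)) :=
        Real.rpow_le_rpow_of_nonpos hd (hsep x hx) (by linarith [D.hs])
      have h2 := mul_le_mul (ha.hi x) h1 (by positivity) ha.Mpos.le
      rw [hC]
      linarith
    · show Ω.indicator _ x ≤ _
      rw [indicator_of_notMem hx, indicator_of_notMem hx]
  have hcI : Integrable (Ω.indicator (fun _ => C)) (volume : Measure (E n)) := by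
    rw [integrable_indicator_iff D.meas]
    exact integrableOn_const D.fin.ne
  have hwi : Integrable w volume := hcI.mono' hwm.aestronglyMeasurable (Eventually.of_forall hwC)
  have hw2 : MemLp w 2 volume := by
    have : MemLp (Ω.indicator (fun _ : E n => C)) 2 volume :=
      memLp_indicator_const 2 D.meas C (Or.inr D.fin.ne)
    exact this.mono hwm.aestronglyMeasurable (Eventually.of_forall fun x => (hwC x).trans
      (le_abs_self _))
  obtain ⟨v, hv, heq⟩ := exists_src D.hn D.hs D.hs1 D.bdd ha hw2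
  refine ⟨v, hv, fun φ hφ => ?_, src_nonneg D.hn D.hs D.hs1 D.meas hP ha hw2 hwi hw0 hv heq,
    hv.ae_zero D.meas htf⟩
  rw [heq φ hφ]
  unfold Pot
  rw [← integral_const_mul]
  apply integral_congr_ae
  filter_upwards [hφ.ae_zero D.meas htf] with x hx
  by_cases hxΩ : x ∈ Ω
  · show Ω.indicator _ x * φ x = _
    rw [indicator_of_mem hxΩ]
    ring
  · rw [hx hxΩ]
    ring

open Classical in
/-- the chosen corrector of the point source at `y` -/
noncomputable def vv (s : ℝ) (Ω : Set (E n)) (a : E n → ℝ) (y : E n) : E n → ℝ :=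
  if h : ∃ v, PS s Ω a y v then h.choose else 0

theorem vv_spec {Ω : Set (E n)} (D : Dom n s Ω) {a : E n → ℝ} {m M : ℝ} (ha : Wt a m M)
    {y : E n} (hy : Far Ω y) : PS s Ω a y (vv s Ω a y) := by
  have h := exists_PS D ha hy
  unfold vv
  rw [dif_pos h]
  exact h.choose_spec

/-- the regular part of the kernel -/
noncomputable def HH (s : ℝ) (Ω : Set (E n)) (a : E n → ℝ) (x y : E n) : ℝ :=
  Pot s (fun z => vv s Ω a y z * a z) x

/-- the kernel -/
noncomputable def GG (s : ℝ) (Ω : Set (E n)) (a : E n → ℝ) (x y : E n) : ℝ :=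
  ‖x - y‖ ^ (-((n : ℝ) + 2 * s)) + HH s Ω a x y

section
variable {Ω : Set (E n)} {a : E n → ℝ} {m M : ℝ} {x y : E n}

theorem HH_symm (D : Dom n s Ω) (ha : Wt a m M) (hx : Far Ω x) (hy : Far Ω y) :
    HH s Ω a x y = HH s Ω a y x := by
  have h1 := (vv_spec D ha hx).eq _ (vv_spec D ha hy).ht
  have h2 := (vv_spec D ha hy).eq _ (vv_spec D ha hx).ht
  rw [Bf_symm, h2] at h1
  unfold HH
  linarith

theorem GG_symm (D : Dom n s Ω) (ha : Wt a m M) (hx : Far Ω x) (hy : Far Ω y) :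
    GG s Ω a x y = GG s Ω a y x := by
  unfold GG
  rw [HH_symm D ha hx hy, norm_sub_rev]

theorem HH_nonneg (D : Dom n s Ω) (ha : Wt a m M) (hy : Far Ω y) (x : E n) :
    0 ≤ HH s Ω a x y := by
  unfold HH Pot
  apply integral_nonneg_of_ae
  filter_upwards [(vv_spec D ha hy).nn] with z hz
  have := (ha.nonneg z).le
  show 0 ≤ vv s Ω a y z * a z * ‖x - z‖ ^ (-((n : ℝ) + 2 * s))
  positivity

theorem GG_ge (D : Dom n s Ω) (ha : Wt a m M) (hy : Far Ω y) (x : E n) :
    ‖x - y‖ ^ (-((n : ℝ) + 2 * s)) ≤ GG s Ω a x y := by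
  have := HH_nonneg D ha hy x
  unfold GG
  linarith

theorem GG_pos (D : Dom n s Ω) (ha : Wt a m M) (hy : Far Ω y) (hxy : x ≠ y) :
    0 < GG s Ω a x y := by
  have h1 : 0 < ‖x - y‖ := norm_pos_iff.2 (sub_ne_zero.2 hxy)
  exact lt_of_lt_of_le (by positivity) (GG_ge D ha hy x)

/-- square integrable functions vanishing outside of `Ω` times the weight are integrable -/
theorem int_of_L2 (D : Dom n s Ω) (ha : Wt a m M) {v : E n → ℝ} (hv : MemLp v 2 volume)
    (h0 : ∀ᵐ x ∂(volume : Measure (E n)), x ∉ Ω → v x = 0) :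
    Integrable (fun z => v z * a z) volume := by
  have h1 : Integrable (fun z => M * (v z ^ 2 + Ω.indicator (fun _ => (1:ℝ)) z)) volume := by
    refine (hv.integrable_sq.add ?_).const_mul M
    rw [integrable_indicator_iff D.meas]
    exact integrableOn_const D.fin.ne
  refine h1.mono' (hv.1.mul ha.meas.aestronglyMeasurable) ?_
  filter_upwards [h0] with x hx
  rw [norm_mul, Real.norm_of_nonneg (ha.nonneg x).le, mul_comm]
  by_cases hxΩ : x ∈ Ω
  · rw [indicator_of_mem hxΩ]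
    apply mul_le_mul (ha.hi x) _ (norm_nonneg _) ha.Mpos.le
    rw [Real.norm_eq_abs, ← sq_abs]
    nlinarith [sq_nonneg (|v x| - 1), abs_nonneg (v x)]
  · rw [hx hxΩ, indicator_of_notMem hxΩ]
    simp

theorem vvint (D : Dom n s Ω) (ha : Wt a m M) (hy : Far Ω y) :
    Integrable (fun z => vv s Ω a y z * a z) volume :=
  int_of_L2 D ha (vv_spec D ha hy).ht.1.1 (vv_spec D ha hy).zero

/-- potentials of functions vanishing outside `Ω` are continuous away from `Ω` -/
theorem pot_cont {w : E n → ℝ} (D : Dom n s Ω) (hw : Integrable w volume)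
    (h0 : ∀ᵐ x ∂(volume : Measure (E n)), x ∉ Ω → w x = 0) (hx : Far Ω x) :
    ContinuousAt (Pot s w) x := by
  obtain ⟨d, hd, hsep⟩ := hx
  have hn0 : (0:ℝ) ≤ n := n.cast_nonneg
  refine cont_pot (δ := d / 2) hw (by positivity) (by linarith [D.hs]) ?_
  filter_upwards [h0] with z hz hz2
  rw [show 2 * (d / 2) = d by ring]
  apply hsep
  by_contra h
  exact hz2 (hz h)

theorem HH_cont (D : Dom n s Ω) (ha : Wt a m M) (hx : Far Ω x) (hy : Far Ω y) :
    ContinuousAt (fun x => HH s Ω a x y) x := by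
  refine pot_cont D (vvint D ha hy) ?_ hx
  filter_upwards [(vv_spec D ha hy).zero] with z hz h
  rw [hz h, zero_mul]

theorem GG_cont (D : Dom n s Ω) (ha : Wt a m M) (hx : Far Ω x) (hy : Far Ω y) (hxy : x ≠ y) :
    ContinuousAt (fun x => GG s Ω a x y) x := by
  have h2 : ‖x - y‖ ≠ 0 := norm_ne_zero_iff.2 (sub_ne_zero.2 hxy)
  refine ContinuousAt.add ?_ (HH_cont D ha hx hy)
  refine ContinuousAt.rpow_const ?_ (Or.inl h2)
  fun_prop

/-- analyticity of the kernel along lines -/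
theorem GG_line (D : Dom n s Ω) (ha : Wt a m M) (hy : Far Ω y) {p e : E n} {δ : ℝ} (hδ : 0 < δ)
    (hΩl : ∀ z ∈ Ω, ∀ t : ℝ, δ ≤ ‖p + t • e - z‖) (hyl : ∀ t : ℝ, δ ≤ ‖p + t • e - y‖) :
    AnalyticOnNhd ℝ (fun t : ℝ => GG s Ω a (p + t • e) y) univ := by
  have hn0 : (0:ℝ) ≤ n := n.cast_nonneg
  have hq : 0 < (n : ℝ) + 2 * s := by linarith [D.hs]
  have h1 := analytic_line (vvint D ha hy) (y := p) (e := e) hδ hq (by
    filter_upwards [(vv_spec D ha hy).zero] with z hz hz2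
    apply hΩl
    by_contra h
    exact hz2 (by rw [hz h, zero_mul]))
  have h2 := analytic_line (μ := Measure.dirac y) (F := fun _ => (1:ℝ)) (integrable_const _)
    (y := p) (e := e) hδ hq (by
      rw [ae_dirac_iff]
      · intro _
        exact hyl
      · have : {x : E n | (1:ℝ) ≠ 0 → ∀ t : ℝ, δ ≤ ‖p + t • e - x‖} =
            ⋂ t : ℝ, {x : E n | δ ≤ ‖p + t • e - x‖} := by
          ext x
          simp
        rw [this]
        apply IsClosed.measurableSet
        exact isClosed_iInter fun t => isClosed_le continuous_const (by fun_prop))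
  have h3 : (fun t : ℝ => GG s Ω a (p + t • e) y) = fun t : ℝ =>
      (∫ x, (fun _ => (1:ℝ)) x * ‖p + t • e - x‖ ^ (-((n : ℝ) + 2 * s)) ∂(Measure.dirac y)) +
      ∫ x, (vv s Ω a y x * a x) * ‖p + t • e - x‖ ^ (-((n : ℝ) + 2 * s)) := by
    funext t
    rw [integral_dirac, one_mul]
    rfl
  rw [h3]
  exact h2.add h1

end

theorem sepd {Ω : Set (E n)} {f : E n → ℝ} (hf : TestFun (closure Ω)ᶜ f) :
    ∃ d : ℝ, 0 < d ∧ SepD d f Ω := by
  obtain ⟨d, hd, hsub⟩ := IsCompact.exists_thickening_subset_open hf.2.1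
    isClosed_closure.isOpen_compl hf.2.2
  refine ⟨d, hd, fun x hx y hy => ?_⟩
  by_contra h
  push Not at h
  have h1 : y ∈ thickening d (tsupport f) := by
    rw [mem_thickening_iff]
    exact ⟨x, subset_tsupport _ hx, by rwa [dist_eq_norm, norm_sub_rev]⟩
  exact hsub h1 (subset_closure hy)

/-- separated supports -/
theorem sep2 {f : E n → ℝ} {K U : Set (E n)} (hK : IsCompact K) (hf : tsupport f ⊆ U)
    (hU : IsOpen U) (hfc : HasCompactSupport f) (hKU : ∀ x ∈ K, x ∉ U) :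
    ∃ d : ℝ, 0 < d ∧ ∀ x ∈ K, ∀ z, f z ≠ 0 → d ≤ ‖x - z‖ := by
  obtain ⟨d, hd, hsub⟩ := IsCompact.exists_thickening_subset_open hfc hU hf
  refine ⟨d, hd, fun x hx z hz => ?_⟩
  by_contra h
  push Not at h
  have h1 : x ∈ thickening d (tsupport f) := by
    rw [mem_thickening_iff]
    exact ⟨z, subset_tsupport _ hz, by rwa [dist_eq_norm]⟩
  exact hKU x hx (hsub h1)

end Pool.Agent.R212.PD
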