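import Pool.Agent.R212.PD4

set_option autoImplicit false
set_option maxHeartbeats 4000000

open Set Filter Topology Metric MeasureTheory
open Pool.Agent.H305R3.FC

namespace Pool.Agent.R212.PD

variable {n : ℕ} {s : ℝ}

/-- the potential of a smooth source -/
noncomputable def PP (s : ℝ) (Ω : Set (E n)) (a f : E n → ℝ) (y : E n) : ℝ :=
  ∫ x, f x * (a x * GG s Ω a x y)

theorem sec_eq (g a F : E n → ℝ) (x : E n) :
    ∫ z, (g x * a x) * F z * ker s (x, z) = g x * (a x * Pot s F x) := by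
  unfold Pot
  rw [← mul_assoc, ← integral_const_mul]
  congr 1
  funext z
  unfold Pool.Agent.H305R3.FC.ker
  ring

section
variable {Ω : Set (E n)} {a : E n → ℝ} {m M : ℝ} {y : E n} {f v : E n → ℝ}

theorem recip (D : Dom n s Ω) (ha : Wt a m M) (hf : TestFun (closure Ω)ᶜ f)
    (hc : Corr s Ω a f v) (hy : Far Ω y) :
    Integrable (fun x => f x * (a x * HH s Ω a x y)) volume ∧
      Pot s (fun z => v z * a z) y = ∫ x, f x * (a x * HH s Ω a x y) := by
  have P := vv_spec D ha hy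
  obtain ⟨d, hd, hsep⟩ := sepd hf
  have hfH := hf.memHs D.hn D.hs D.hs1
  have hfi : Integrable f volume := hf.1.continuous.integrable_of_hasCompactSupport hf.2.1
  have h1 := P.eq v hc.ht
  have h2 := hc.eq _ P.ht
  rw [Bf_add ha hfH hc.ht.1 P.ht.1] at h2
  obtain ⟨i1, q1, -⟩ := corr_offdiag D.hs ha P.ht.1 P.zero hfi hd hsep
  have q2 := Qf_fubini i1
  rw [Bf_symm (u := f), q1, Bf_symm (u := v), h1, q2] at h2
  constructor
  · exact i1.integral_prod_left.congr (Eventually.of_forall fun x =>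
      sec_eq f a (fun z => vv s Ω a y z * a z) x)
  · have h3 : ∫ x, f x * (a x * ∫ z, (vv s Ω a y z * a z) * ‖x - z‖ ^ (-((n : ℝ) + 2 * s))) =
      ∫ x, f x * (a x * HH s Ω a x y) := rfl
    rw [h3] at h2
    linarith

theorem pair_point (D : Dom n s Ω) (ha : Wt a m M) (hf : TestFun (closure Ω)ᶜ f)
    (hc : Corr s Ω a f v) (hy : Far Ω y) (hyf : y ∉ tsupport f) :
    Integrable (fun x => f x * (a x * GG s Ω a x y)) volume ∧
      Pot s (fun z => (f z + v z) * a z) y = PP s Ω a f y := by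
  obtain ⟨i1, e1⟩ := recip D ha hf hc hy
  have hfi : Integrable f volume := hf.1.continuous.integrable_of_hasCompactSupport hf.2.1
  have htf : ∀ φ : E n → ℝ, TestFun Ω φ → MemHs s φ := fun φ hφ => hφ.memHs D.hn D.hs D.hs1
  have hv0 := hc.ht.ae_zero D.meas htf
  obtain ⟨d, hd, hsep⟩ := sep2 (f := f) (K := {y}) (U := {y}ᶜ) isCompact_singleton
    (fun x hx => by
      rintro rfl
      exact hyf hx) isOpen_compl_singleton hf.2.1 (fun x hx hx2 => hx2 hx)
  have hsep' : ∀ z, f z ≠ 0 → d ≤ ‖y - z‖ := hsep y rfl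
  have hfa : Integrable (fun z => f z * a z) volume := ha.integrable_mul hfi
  have hva : Integrable (fun z => v z * a z) volume := int_of_L2 D ha hc.ht.1.1 hv0
  have i2 : Integrable (fun z => (f z * a z) * ‖y - z‖ ^ (-((n : ℝ) + 2 * s))) volume := by
    refine int_sec D.hs hfa.1 (w1 := fun z => |f z * a z|) hfa.abs (T := 0)
      (Eventually.of_forall fun z => by simp) (fun z => abs_nonneg _) le_rfl hd y
      (Eventually.of_forall fun z hz => hsep' z (left_ne_zero_of_mul hz))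
  obtain ⟨d', hd', hsep2⟩ := id hy
  have i3 : Integrable (fun z => (v z * a z) * ‖y - z‖ ^ (-((n : ℝ) + 2 * s))) volume := by
    refine int_sec D.hs hva.1 (w1 := fun z => |v z * a z|) hva.abs (T := 0)
      (Eventually.of_forall fun z => by simp) (fun z => abs_nonneg _) le_rfl hd' y ?_
    filter_upwards [hv0] with z hz hz2
    apply hsep2
    by_contra h
    exact hz2 (by rw [hz h, zero_mul])
  have i2' : Integrable (fun x => f x * (a x * ‖x - y‖ ^ (-((n : ℝ) + 2 * s)))) volume := by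
    refine i2.congr (Eventually.of_forall fun z => ?_)
    show f z * a z * ‖y - z‖ ^ (-((n : ℝ) + 2 * s)) = f z * (a z * ‖z - y‖ ^ (-((n : ℝ) + 2 * s)))
    rw [norm_sub_rev, mul_assoc]
  have e0 : (fun x => f x * (a x * GG s Ω a x y)) = fun x =>
      f x * (a x * ‖x - y‖ ^ (-((n : ℝ) + 2 * s))) + f x * (a x * HH s Ω a x y) := by
    funext x
    unfold GG
    ring
  constructor
  · rw [e0]
    exact i2'.add i1
  · have e2 : Pot s (fun z => (f z + v z) * a z) y = Pot s (fun z => f z * a z) y +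
        Pot s (fun z => v z * a z) y := by
      unfold Pot
      rw [← integral_add i2 i3]
      congr 1
      funext z
      ring
    have e3 : Pot s (fun z => f z * a z) y =
        ∫ x, f x * (a x * ‖x - y‖ ^ (-((n : ℝ) + 2 * s))) := by
      unfold Pot
      congr 1
      funext z
      rw [norm_sub_rev, mul_assoc]
    rw [e2, e3, e1, ← integral_add i2' i1]
    unfold PP
    rw [e0]

/-- the pairing for disjoint supports -/
theorem data_pair (D : Dom n s Ω) (ha : Wt a m M) (hf : TestFun (closure Ω)ᶜ f)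
    (hc : Corr s Ω a f v) {g : E n → ℝ} (hg : TestFun (closure Ω)ᶜ g)
    (hfg : ∀ x ∈ tsupport g, x ∉ tsupport f) :
    Integrable (fun x => g x * (a x * Pot s (fun z => (f z + v z) * a z) x)) volume ∧
    Bf s a (fun x => f x + v x) g =
      -2 * ∫ x, g x * (a x * Pot s (fun z => (f z + v z) * a z) x) := by
  have hfi : Integrable f volume := hf.1.continuous.integrable_of_hasCompactSupport hf.2.1
  have hgi : Integrable g volume := hg.1.continuous.integrable_of_hasCompactSupport hg.2.1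
  have htf : ∀ φ : E n → ℝ, TestFun Ω φ → MemHs s φ := fun φ hφ => hφ.memHs D.hn D.hs D.hs1
  have hv0 := hc.ht.ae_zero D.meas htf
  obtain ⟨d1, hd1, hsep1⟩ := sepd hg
  obtain ⟨d2, hd2, hsep2⟩ := sep2 (f := f) (K := tsupport g) (U := (tsupport g)ᶜ) hg.2.1
    (fun x hx hx2 => hfg x hx2 hx) (isClosed_tsupport g).isOpen_compl hf.2.1
    (fun x hx hx2 => hx2 hx)
  obtain ⟨i1, -, -⟩ := corr_offdiag D.hs ha hc.ht.1 hv0 hgi hd1 hsep1
  have i0 := (Qf_bound D.hs ha hgi hfi.1 (w1 := fun z => |f z|) hfi.abs (T := 0)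
    (Eventually.of_forall fun z => by simp) (fun z => abs_nonneg _) le_rfl hd2
    (Eventually.of_forall fun p h1 h2 => hsep2 _ (subset_tsupport _ h1) _ h2)).1
  have i2 : Integrable (fun p : E n × E n => (g p.1 * a p.1) *
      ((fun x => f x + v x) p.2 * a p.2) * ker s p) (volume.prod volume) := by
    refine (i0.add i1).congr (Eventually.of_forall fun p => ?_)
    simp only [Pi.add_apply]
    ring
  have h0 : ∀ᵐ x ∂(volume : Measure (E n)), (fun x => f x + v x) x * g x = 0 := by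
    filter_upwards [mul_zero_ae hd1 hsep1 hv0] with x hx
    by_cases hgx : g x = 0
    · rw [hgx, mul_zero]
    · have h1 : x ∈ tsupport g := subset_tsupport _ hgx
      have h2 : f x = 0 := image_eq_zero_of_notMem_tsupport (hfg x h1)
      show (f x + v x) * g x = 0
      rw [h2, zero_add]
      exact hx
  have q := Bf_offdiag i2 h0
  rw [Qf_fubini i2] at q
  refine ⟨?_, q⟩
  exact i2.integral_prod_left.congr (Eventually.of_forall fun x =>
    sec_eq g a (fun z => (f z + v z) * a z) x)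

theorem u_int (D : Dom n s Ω) (ha : Wt a m M) (hf : TestFun (closure Ω)ᶜ f)
    (hc : Corr s Ω a f v) : Integrable (fun z => (f z + v z) * a z) volume := by
  have hfi : Integrable f volume := hf.1.continuous.integrable_of_hasCompactSupport hf.2.1
  have htf : ∀ φ : E n → ℝ, TestFun Ω φ → MemHs s φ := fun φ hφ => hφ.memHs D.hn D.hs D.hs1
  have hv0 := hc.ht.ae_zero D.meas htf
  refine ((ha.integrable_mul hfi).add (int_of_L2 D ha hc.ht.1.1 hv0)).congr
    (Eventually.of_forall fun z => ?_)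
  simp only [Pi.add_apply]
  ring

theorem PP_cont (D : Dom n s Ω) (ha : Wt a m M) (hf : TestFun (closure Ω)ᶜ f)
    (hc : Corr s Ω a f v) (hy : Far Ω y) (hyf : y ∉ tsupport f) :
    ContinuousAt (Pot s (fun z => (f z + v z) * a z)) y := by
  have htf : ∀ φ : E n → ℝ, TestFun Ω φ → MemHs s φ := fun φ hφ => hφ.memHs D.hn D.hs D.hs1
  have hv0 := hc.ht.ae_zero D.meas htf
  have hn0 : (0:ℝ) ≤ n := n.cast_nonneg
  obtain ⟨d, hd, hsep⟩ := sep2 (f := f) (K := {y}) (U := {y}ᶜ) isCompact_singleton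
    (fun x hx => by
      rintro rfl
      exact hyf hx) isOpen_compl_singleton hf.2.1 (fun x hx hx2 => hx2 hx)
  obtain ⟨d', hd', hsep2⟩ := id hy
  refine cont_pot (δ := min d d' / 2) (u_int D ha hf hc) (by positivity)
    (by linarith [D.hs]) ?_
  filter_upwards [hv0] with z hz hz2
  rw [show 2 * (min d d' / 2) = min d d' by ring]
  by_cases hfz : f z = 0
  · refine (min_le_right _ _).trans (hsep2 z ?_)
    by_contra h
    exact hz2 (by rw [hz h, hfz]; ring)
  · exact (min_le_left _ _).trans (hsep y rfl z hfz)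

theorem PP_pos (D : Dom n s Ω) (ha : Wt a m M) (hf : TestFun (closure Ω)ᶜ f)
    (hc : Corr s Ω a f v) (hy : Far Ω y) (hyf : y ∉ tsupport f) (hf0 : ∀ x, 0 ≤ f x)
    {x0 : E n} (hx0 : f x0 ≠ 0) : 0 < PP s Ω a f y := by
  obtain ⟨i, -⟩ := pair_point D ha hf hc hy hyf
  unfold PP
  have hnn : ∀ x, 0 ≤ GG s Ω a x y := fun x =>
    le_trans (by positivity) (GG_ge D ha hy x)
  rw [integral_pos_iff_support_of_nonneg _ i]
  · have hsub : {x | f x ≠ 0} ⊆ Function.support (fun x => f x * (a x * GG s Ω a x y)) := by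
      intro x hx
      have h1 : 0 < f x := lt_of_le_of_ne (hf0 x) (Ne.symm hx)
      have h2 := ha.nonneg x
      have h3 : 0 < GG s Ω a x y := GG_pos D ha hy (by
        rintro rfl
        exact hyf (subset_tsupport _ hx))
      exact (mul_pos h1 (mul_pos h2 h3)).ne'
    refine lt_of_lt_of_le ?_ (measure_mono hsub)
    have ho : IsOpen {x | f x ≠ 0} := isOpen_ne_fun hf.1.continuous continuous_const
    exact ho.measure_pos volume ⟨x0, hx0⟩
  · intro x
    have h2 := (ha.nonneg x).le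
    exact mul_nonneg (hf0 x) (mul_nonneg h2 (hnn x))

end

/-- The partial data of the two conductivities coincide. -/
def DN2 (s : ℝ) (Ω W1 W2 : Set (E n)) (a1 a2 : E n → ℝ) : Prop :=
  ∀ f g, TestFun W1 f → TestFun W2 g → ∀ v1 v2, Corr s Ω a1 f v1 → Corr s Ω a2 f v2 →
    Bf s a1 (fun x => f x + v1 x) g = Bf s a2 (fun x => f x + v2 x) g

section
variable {Ω W1 W2 : Set (E n)} {a1 a2 : E n → ℝ} {m M : ℝ}

theorem TestFun.mono' {U V : Set (E n)} {f : E n → ℝ} (h : TestFun U f) (hUV : U ⊆ V) :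
    TestFun V f := ⟨h.1, h.2.1, h.2.2.trans hUV⟩

/-- Step (A) -/
theorem stepA (D : Dom n s Ω) (h1 : Wt a1 m M) (h2 : Wt a2 m M) (hW1 : W1 ⊆ (closure Ω)ᶜ)
    (hW2 : W2 ⊆ (closure Ω)ᶜ) (hW2o : IsOpen W2) (hdisj : ∀ x ∈ W2, x ∉ W1)
    (hDN : DN2 s Ω W1 W2 a1 a2) {f : E n → ℝ} (hf : TestFun W1 f) :
    ∀ᵐ y ∂(volume : Measure (E n)), y ∈ W2 → a1 y * PP s Ω a1 f y = a2 y * PP s Ω a2 f y := by
  have hfH := hf.memHs D.hn D.hs D.hs1
  have hfc := TestFun.mono' hf hW1
  obtain ⟨v1, hv1⟩ := corr_exists D.hn D.hs D.hs1 D.bdd h1 hfH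
  obtain ⟨v2, hv2⟩ := corr_exists D.hn D.hs D.hs1 D.bdd h2 hfH
  have hyf : ∀ y ∈ W2, y ∉ tsupport f := fun y hy h => hdisj y hy (hf.2.2 h)
  set P1 := Pot s (fun z => (f z + v1 z) * a1 z) with hP1
  set P2 := Pot s (fun z => (f z + v2 z) * a2 z) with hP2
  have hloc : ∀ {a : E n → ℝ}, Wt a m M → LocallyIntegrable a volume := by
    intro a ha
    have : MemLp a ⊤ (volume : Measure (E n)) :=
      memLp_top_of_bound ha.meas.aestronglyMeasurable M (Eventually.of_forall fun x => by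
        rw [Real.norm_of_nonneg (ha.nonneg x).le]; exact ha.hi x)
    exact this.locallyIntegrable le_top
  have c1 : ContinuousOn P1 W2 := fun y hy =>
    (PP_cont D h1 hfc hv1 (far_of (hW2 hy)) (hyf y hy)).continuousWithinAt
  have c2 : ContinuousOn P2 W2 := fun y hy =>
    (PP_cont D h2 hfc hv2 (far_of (hW2 hy)) (hyf y hy)).continuousWithinAt
  have l1 : LocallyIntegrableOn (fun y => a1 y * P1 y) W2 volume :=
    ((hloc h1).locallyIntegrableOn W2).mul_continuousOn c1 hW2o.isLocallyClosed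
  have l2 : LocallyIntegrableOn (fun y => a2 y * P2 y) W2 volume :=
    ((hloc h2).locallyIntegrableOn W2).mul_continuousOn c2 hW2o.isLocallyClosed
  have key : ∀ᵐ y ∂(volume : Measure (E n)), y ∈ W2 → a1 y * P1 y - a2 y * P2 y = 0 := by
    apply hW2o.ae_eq_zero_of_integral_contDiff_smul_eq_zero (l1.sub l2)
    intro g g1 g2 g3
    have hg : TestFun W2 g := ⟨g1, g2, g3⟩
    have hgc := TestFun.mono' hg hW2
    have hfg : ∀ x ∈ tsupport g, x ∉ tsupport f := fun x hx => hyf x (g3 hx)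
    obtain ⟨i1, e1⟩ := data_pair D h1 hfc hv1 hgc hfg
    obtain ⟨i2, e2⟩ := data_pair D h2 hfc hv2 hgc hfg
    have h := hDN f g hf hg v1 v2 hv1 hv2
    rw [e1, e2] at h
    have h' : ∫ x, g x * (a1 x * P1 x) = ∫ x, g x * (a2 x * P2 x) := by linarith
    simp only [smul_eq_mul, Pi.sub_apply]
    have e3 : (fun x => g x * (a1 x * P1 x - a2 x * P2 x)) =
        fun x => g x * (a1 x * P1 x) - g x * (a2 x * P2 x) := by
      funext x; ring
    rw [e3, integral_sub i1 i2, h', sub_self]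
  filter_upwards [key] with y hy hyW
  have e1 := (pair_point D h1 hfc hv1 (far_of (hW2 hyW)) (hyf y hyW)).2
  have e2 := (pair_point D h2 hfc hv2 (far_of (hW2 hyW)) (hyf y hyW)).2
  have := hy hyW
  rw [hP1, hP2] at this
  rw [e1, e2] at this
  linarith

/-- Step (J) -/
theorem stepJ (D : Dom n s Ω) (h1 : Wt a1 m M) (h2 : Wt a2 m M) (hW1 : W1 ⊆ (closure Ω)ᶜ)
    (hW2 : W2 ⊆ (closure Ω)ᶜ) (hW2o : IsOpen W2) (hdisj : ∀ x ∈ W2, x ∉ W1)
    (hDN : DN2 s Ω W1 W2 a1 a2) {f f0 : E n → ℝ} (hf : TestFun W1 f) (hf0 : TestFun W1 f0) :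
    ∀ y ∈ W2, PP s Ω a2 f y * PP s Ω a1 f0 y = PP s Ω a1 f y * PP s Ω a2 f0 y := by
  have hcont : ∀ {a : E n → ℝ}, Wt a m M → ∀ {g : E n → ℝ}, TestFun W1 g →
      ContinuousOn (PP s Ω a g) W2 := by
    intro a ha g hg
    obtain ⟨v, hv⟩ := corr_exists D.hn D.hs D.hs1 D.bdd ha (hg.memHs D.hn D.hs D.hs1)
    have hgc := TestFun.mono' hg hW1
    have hyf : ∀ y ∈ W2, y ∉ tsupport g := fun y hy h => hdisj y hy (hg.2.2 h)
    have c : ContinuousOn (Pot s (fun z => (g z + v z) * a z)) W2 := fun y hy =>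
      (PP_cont D ha hgc hv (far_of (hW2 hy)) (hyf y hy)).continuousWithinAt
    refine c.congr fun y hy => ?_
    exact (pair_point D ha hgc hv (far_of (hW2 hy)) (hyf y hy)).2.symm
  have A1 := stepA D h1 h2 hW1 hW2 hW2o hdisj hDN hf
  have A2 := stepA D h1 h2 hW1 hW2 hW2o hdisj hDN hf0
  have hEq : EqOn (fun y => PP s Ω a2 f y * PP s Ω a1 f0 y)
      (fun y => PP s Ω a1 f y * PP s Ω a2 f0 y) W2 := by
    refine Measure.eqOn_open_of_ae_eq (μ := (volume : Measure (E n))) ?_ hW2o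
      ((hcont h2 hf).mul (hcont h1 hf0)) ((hcont h1 hf).mul (hcont h2 hf0))
    rw [Filter.EventuallyEq, ae_restrict_iff' hW2o.measurableSet]
    filter_upwards [A1, A2] with y e1 e2 hy
    have e1 := e1 hy
    have e2 := e2 hy
    have p1 := h1.nonneg y
    have p2 := h2.nonneg y
    have h : (a1 y * a2 y) * (PP s Ω a2 f y * PP s Ω a1 f0 y) =
        (a1 y * a2 y) * (PP s Ω a1 f y * PP s Ω a2 f0 y) := by
      calc (a1 y * a2 y) * (PP s Ω a2 f y * PP s Ω a1 f0 y) =
          (a2 y * PP s Ω a2 f y) * (a1 y * PP s Ω a1 f0 y) := by ring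
        _ = (a1 y * PP s Ω a1 f y) * (a2 y * PP s Ω a2 f0 y) := by rw [← e1, e2]
        _ = _ := by ring
    exact mul_left_cancel₀ (mul_pos p1 p2).ne' h
  exact hEq

/-- Step (C) -/
theorem stepC (D : Dom n s Ω) (h1 : Wt a1 m M) (h2 : Wt a2 m M) (hW1 : W1 ⊆ (closure Ω)ᶜ)
    (hW2 : W2 ⊆ (closure Ω)ᶜ) (hW1o : IsOpen W1) (hW2o : IsOpen W2) (hdisj : ∀ x ∈ W2, x ∉ W1)
    (hDN : DN2 s Ω W1 W2 a1 a2) {f0 : E n → ℝ} (hf0 : TestFun W1 f0) {y : E n} (hy : y ∈ W2) :
    ∀ᵐ x ∂(volume : Measure (E n)), x ∈ W1 →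
      a2 x * GG s Ω a2 x y * PP s Ω a1 f0 y = a1 x * GG s Ω a1 x y * PP s Ω a2 f0 y := by
  have hloc : ∀ {a : E n → ℝ}, Wt a m M → LocallyIntegrable a volume := by
    intro a ha
    have : MemLp a ⊤ (volume : Measure (E n)) :=
      memLp_top_of_bound ha.meas.aestronglyMeasurable M (Eventually.of_forall fun x => by
        rw [Real.norm_of_nonneg (ha.nonneg x).le]; exact ha.hi x)
    exact this.locallyIntegrable le_top
  have hyF : Far Ω y := far_of (hW2 hy)
  have hc : ∀ {a : E n → ℝ}, Wt a m M → ContinuousOn (fun x => GG s Ω a x y) W1 := by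
    intro a ha x hx
    exact (GG_cont D ha (far_of (hW1 hx)) hyF (by
      rintro rfl
      exact hdisj x hy hx)).continuousWithinAt
  have hl : ∀ {a : E n → ℝ}, Wt a m M → ∀ c : ℝ,
      LocallyIntegrableOn (fun x => a x * (GG s Ω a x y * c)) W1 volume := by
    intro a ha c
    exact ((hloc ha).locallyIntegrableOn W1).mul_continuousOn ((hc ha).mul continuousOn_const)
      hW1o.isLocallyClosed
  have key : ∀ᵐ x ∂(volume : Measure (E n)), x ∈ W1 →
      a2 x * (GG s Ω a2 x y * PP s Ω a1 f0 y) - a1 x * (GG s Ω a1 x y * PP s Ω a2 f0 y) = 0 := by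
    apply hW1o.ae_eq_zero_of_integral_contDiff_smul_eq_zero
      ((hl h2 (PP s Ω a1 f0 y)).sub (hl h1 (PP s Ω a2 f0 y)))
    intro g g1 g2 g3
    have hg : TestFun W1 g := ⟨g1, g2, g3⟩
    have hgc := TestFun.mono' hg hW1
    have hyg : y ∉ tsupport g := fun h => hdisj y hy (g3 h)
    obtain ⟨v1, hv1⟩ := corr_exists D.hn D.hs D.hs1 D.bdd h1 (hg.memHs D.hn D.hs D.hs1)
    obtain ⟨v2, hv2⟩ := corr_exists D.hn D.hs D.hs1 D.bdd h2 (hg.memHs D.hn D.hs D.hs1)
    have i1 := (pair_point D h1 hgc hv1 hyF hyg).1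
    have i2 := (pair_point D h2 hgc hv2 hyF hyg).1
    have h := stepJ D h1 h2 hW1 hW2 hW2o hdisj hDN hg hf0 y hy
    simp only [smul_eq_mul, Pi.sub_apply]
    have e3 : (fun x => g x * (a2 x * (GG s Ω a2 x y * PP s Ω a1 f0 y) -
        a1 x * (GG s Ω a1 x y * PP s Ω a2 f0 y))) =
        fun x => g x * (a2 x * GG s Ω a2 x y) * PP s Ω a1 f0 y -
          g x * (a1 x * GG s Ω a1 x y) * PP s Ω a2 f0 y := by
      funext x; ring
    rw [e3, integral_sub (i2.mul_const _) (i1.mul_const _), integral_mul_const,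
      integral_mul_const]
    have e4 : ∫ x, g x * (a2 x * GG s Ω a2 x y) = PP s Ω a2 g y := rfl
    have e5 : ∫ x, g x * (a1 x * GG s Ω a1 x y) = PP s Ω a1 g y := rfl
    rw [e4, e5, h, sub_self]
  filter_upwards [key] with x hx hxW
  have := hx hxW
  linarith

end

end Pool.Agent.R212.PD
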