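import Pool.Agent.R212.PD5

set_option autoImplicit false
set_option maxHeartbeats 4000000

open Set Filter Topology Metric MeasureTheory
open Pool.Agent.H305R3.FC

namespace Pool.Agent.R212.PD

variable {n : ℕ} {s : ℝ}

section
variable {Ω W1 W2 : Set (E n)} {a1 a2 : E n → ℝ} {m M : ℝ}

/-- Step (D) -/
theorem stepD (D : Dom n s Ω) (h1 : Wt a1 m M) (h2 : Wt a2 m M) (hW1 : W1 ⊆ (closure Ω)ᶜ)
    (hW2 : W2 ⊆ (closure Ω)ᶜ) (hW1o : IsOpen W1) (hW2o : IsOpen W2) (hdisj : ∀ x ∈ W2, x ∉ W1)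
    (hDN : DN2 s Ω W1 W2 a1 a2) {f0 : E n → ℝ} (hf0 : TestFun W1 f0) {y y' : E n} (hy : y ∈ W2)
    (hy' : y' ∈ W2) {x : E n} (hx : x ∈ W1) :
    GG s Ω a2 x y * GG s Ω a1 x y' * (PP s Ω a1 f0 y * PP s Ω a2 f0 y') =
      GG s Ω a1 x y * GG s Ω a2 x y' * (PP s Ω a2 f0 y * PP s Ω a1 f0 y') := by
  have C1 := stepC D h1 h2 hW1 hW2 hW1o hW2o hdisj hDN hf0 hy
  have C2 := stepC D h1 h2 hW1 hW2 hW1o hW2o hdisj hDN hf0 hy'
  have hc : ∀ {a : E n → ℝ}, Wt a m M → ∀ z ∈ W2, ContinuousOn (fun x => GG s Ω a x z) W1 := by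
    intro a ha z hz x hx
    exact (GG_cont D ha (far_of (hW1 hx)) (far_of (hW2 hz)) (by
      rintro rfl
      exact hdisj x hz hx)).continuousWithinAt
  have hEq : EqOn
      (fun x => GG s Ω a2 x y * GG s Ω a1 x y' * (PP s Ω a1 f0 y * PP s Ω a2 f0 y'))
      (fun x => GG s Ω a1 x y * GG s Ω a2 x y' * (PP s Ω a2 f0 y * PP s Ω a1 f0 y')) W1 := by
    refine Measure.eqOn_open_of_ae_eq (μ := (volume : Measure (E n))) ?_ hW1o
      (((hc h2 y hy).mul (hc h1 y' hy')).mul continuousOn_const)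
      (((hc h1 y hy).mul (hc h2 y' hy')).mul continuousOn_const)
    rw [Filter.EventuallyEq, ae_restrict_iff' hW1o.measurableSet]
    filter_upwards [C1, C2] with x e1 e2 hx
    have e1 := e1 hx
    have e2 := e2 hx
    have p1 := h1.nonneg x
    have p2 := h2.nonneg x
    apply mul_left_cancel₀ (mul_pos p1 p2).ne'
    calc (a1 x * a2 x) * (GG s Ω a2 x y * GG s Ω a1 x y' *
        (PP s Ω a1 f0 y * PP s Ω a2 f0 y')) =
        (a2 x * GG s Ω a2 x y * PP s Ω a1 f0 y) *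
          (a1 x * GG s Ω a1 x y' * PP s Ω a2 f0 y') := by ring
      _ = (a1 x * GG s Ω a1 x y * PP s Ω a2 f0 y) *
          (a2 x * GG s Ω a2 x y' * PP s Ω a1 f0 y') := by rw [e1, e2]
      _ = _ := by ring
  exact hEq hx

/-- existence of a nonnegative source -/
theorem exists_source {W : Set (E n)} (hW : IsOpen W) (hne : W.Nonempty) :
    ∃ (f0 : E n → ℝ) (x0 : E n), TestFun W f0 ∧ (∀ x, 0 ≤ f0 x) ∧ f0 x0 ≠ 0 := by
  obtain ⟨x0, hx0⟩ := hne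
  obtain ⟨ε, hε, hb⟩ := Metric.isOpen_iff.1 hW x0 hx0
  obtain ⟨f, hf, f1, f2, f3⟩ := exists_bmp x0 (show 0 < ε / 2 by positivity)
  refine ⟨f, x0, ⟨f1, f2, f3.trans ((closedBall_subset_ball (by linarith)).trans hb)⟩, hf.nn, ?_⟩
  rw [hf.one x0 (mem_closedBall_self (by positivity))]
  exact one_ne_zero

theorem PP_pos' {Ω W : Set (E n)} {a : E n → ℝ} (D : Dom n s Ω) (ha : Wt a m M)
    (hW : W ⊆ (closure Ω)ᶜ) {f0 : E n → ℝ} {x0 : E n} (hf0 : TestFun W f0)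
    (h0 : ∀ x, 0 ≤ f0 x) (hx0 : f0 x0 ≠ 0) {y : E n} (hy : y ∉ W) (hyF : Far Ω y) :
    0 < PP s Ω a f0 y := by
  obtain ⟨v, hv⟩ := corr_exists D.hn D.hs D.hs1 D.bdd ha (hf0.memHs D.hn D.hs D.hs1)
  exact PP_pos D ha (TestFun.mono' hf0 hW) hv hyF (fun h => hy (hf0.2.2 h)) h0 hx0

/-- Step (I): the cross ratio identity -/
theorem stepI (D : Dom n s Ω) (h1 : Wt a1 m M) (h2 : Wt a2 m M) (hW1 : W1 ⊆ (closure Ω)ᶜ)
    (hW2 : W2 ⊆ (closure Ω)ᶜ) (hW1o : IsOpen W1) (hW2o : IsOpen W2) (hdisj : ∀ x ∈ W2, x ∉ W1)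
    (hDN : DN2 s Ω W1 W2 a1 a2) {y y' : E n} (hy : y ∈ W2)
    (hy' : y' ∈ W2) {x x' : E n} (hx : x ∈ W1) (hx' : x' ∈ W1) :
    GG s Ω a2 x y * GG s Ω a1 x y' * (GG s Ω a1 x' y * GG s Ω a2 x' y') =
      GG s Ω a1 x y * GG s Ω a2 x y' * (GG s Ω a2 x' y * GG s Ω a1 x' y') := by
  obtain ⟨f0, x0, hf0, f0n, hx0⟩ := exists_source hW1o ⟨x, hx⟩
  have d1 := stepD D h1 h2 hW1 hW2 hW1o hW2o hdisj hDN hf0 hy hy' hx
  have d2 := stepD D h1 h2 hW1 hW2 hW1o hW2o hdisj hDN hf0 hy hy' hx'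
  have p1 := PP_pos' D h1 hW1 hf0 f0n hx0 (hdisj y hy) (far_of (hW2 hy))
  have p2 := PP_pos' D h2 hW1 hf0 f0n hx0 (hdisj y hy) (far_of (hW2 hy))
  have p1' := PP_pos' D h1 hW1 hf0 f0n hx0 (hdisj y' hy') (far_of (hW2 hy'))
  have p2' := PP_pos' D h2 hW1 hf0 f0n hx0 (hdisj y' hy') (far_of (hW2 hy'))
  set K := PP s Ω a1 f0 y * PP s Ω a2 f0 y' with hK
  set K' := PP s Ω a2 f0 y * PP s Ω a1 f0 y' with hK'
  have hKp : 0 < K := mul_pos p1 p2'
  have hKp' : 0 < K' := mul_pos p2 p1'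
  apply mul_left_cancel₀ (mul_pos hKp hKp').ne'
  calc (K * K') * (GG s Ω a2 x y * GG s Ω a1 x y' * (GG s Ω a1 x' y * GG s Ω a2 x' y')) =
      (GG s Ω a2 x y * GG s Ω a1 x y' * K) * (GG s Ω a1 x' y * GG s Ω a2 x' y' * K') := by ring
    _ = (GG s Ω a1 x y * GG s Ω a2 x y' * K') * (GG s Ω a2 x' y * GG s Ω a1 x' y' * K) := by
        rw [d1, d2]
    _ = _ := by ring

end

/-- the point `x` sees the set `W` past `Ω` along a line -/
def Vis (Ω W : Set (E n)) (x : E n) : Prop :=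
  ∃ (e η : E n) (ρ t0 : ℝ), 0 < ρ ∧ ‖η‖ = 1 ∧ inner ℝ e η = 0 ∧
    (∀ z ∈ Ω, ∀ t : ℝ, ρ ≤ ‖x + t • e - z‖) ∧ x + t0 • e ∈ W

theorem ev_ne (c : ℝ) : ∀ᶠ ε : ℝ in 𝓝[>] 0, c + ε ≠ 0 := by
  by_cases hc : c = 0
  · filter_upwards [self_mem_nhdsWithin] with ε hε
    rw [hc, zero_add]
    exact ne_of_gt hε
  · have h : Tendsto (fun ε : ℝ => c + ε) (𝓝[>] 0) (𝓝 (c + 0)) :=
      (tendsto_const_nhds.add tendsto_id).mono_left nhdsWithin_le_nhds
    rw [add_zero] at h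
    exact h.eventually_ne hc

theorem line_far {x p e η : E n} (hη : ‖η‖ = 1) (heη : inner ℝ e η = 0) (ε t : ℝ) :
    |inner ℝ (x - p) η + ε| ≤ ‖x + ε • η + t • e - p‖ := by
  have h1 : inner ℝ (x + ε • η + t • e - p) η = inner ℝ (x - p) η + ε := by
    have : x + ε • η + t • e - p = (x - p) + ε • η + t • e := by abel
    rw [this, inner_add_left, inner_add_left, inner_smul_left, inner_smul_left, heη,
      real_inner_self_eq_norm_sq, hη]
    simp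
  have h2 := abs_real_inner_le_norm (x + ε • η + t • e - p) η
  rw [hη, mul_one, h1] at h2
  exact h2

/-- Continuation along lines. -/
theorem continuation {Ω W : Set (E n)} (hWo : IsOpen W) {x p p' : E n} {Φ : E n → ℝ}
    (hΦ : ∀ (q e : E n) (δ : ℝ), 0 < δ → (∀ z ∈ Ω, ∀ t : ℝ, δ ≤ ‖q + t • e - z‖) →
      (∀ t : ℝ, δ ≤ ‖q + t • e - p‖) → (∀ t : ℝ, δ ≤ ‖q + t • e - p'‖) →
      AnalyticOnNhd ℝ (fun t : ℝ => Φ (q + t • e)) univ)
    (h0 : ∀ y ∈ W, y ≠ p → y ≠ p' → Φ y = 0) (hV : Vis Ω W x) :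
    ∃ η : E n, ‖η‖ = 1 ∧ ∀ᶠ ε : ℝ in 𝓝[>] 0, Φ (x + ε • η) = 0 := by
  obtain ⟨e, η, ρ, t0, hρ, hη, heη, hline, hx0⟩ := hV
  refine ⟨η, hη, ?_⟩
  have ev1 : ∀ᶠ ε : ℝ in 𝓝[>] 0, ε < ρ / 2 := by
    have : Iio (ρ / 2) ∈ 𝓝 (0:ℝ) := Iio_mem_nhds (by positivity)
    exact nhdsWithin_le_nhds this
  have ev2 := ev_ne (inner ℝ (x - p) η)
  have ev3 := ev_ne (inner ℝ (x - p') η)
  have ev4 : ∀ᶠ ε : ℝ in 𝓝[>] 0, x + ε • η + t0 • e ∈ W := by
    have hc : Continuous fun ε : ℝ => x + ε • η + t0 • e := by fun_prop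
    have : (fun ε : ℝ => x + ε • η + t0 • e) ⁻¹' W ∈ 𝓝 (0:ℝ) :=
      (hWo.preimage hc).mem_nhds (by simpa using hx0)
    exact nhdsWithin_le_nhds this
  filter_upwards [self_mem_nhdsWithin, ev1, ev2, ev3, ev4] with ε hε hε1 hε2 hε3 hε4
  have hε0 : 0 < ε := hε
  set δ : ℝ := min (ρ / 2) (min |inner ℝ (x - p) η + ε| |inner ℝ (x - p') η + ε|) with hδ
  have hδ0 : 0 < δ := lt_min (by positivity) (lt_min (abs_pos.2 hε2) (abs_pos.2 hε3))
  have l1 : ∀ z ∈ Ω, ∀ t : ℝ, δ ≤ ‖x + ε • η + t • e - z‖ := by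
    intro z hz t
    have h1 := hline z hz t
    have h2 : ‖x + t • e - z‖ ≤ ‖x + ε • η + t • e - z‖ + ‖ε • η‖ := by
      calc ‖x + t • e - z‖ = ‖(x + ε • η + t • e - z) - ε • η‖ := by congr 1; abel
        _ ≤ _ := norm_sub_le _ _
    rw [norm_smul, hη, mul_one, Real.norm_of_nonneg hε0.le] at h2
    exact (min_le_left _ _).trans (by linarith)
  have l2 : ∀ t : ℝ, δ ≤ ‖x + ε • η + t • e - p‖ := fun t =>
    ((min_le_right _ _).trans (min_le_left _ _)).trans (line_far hη heη ε t)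
  have l3 : ∀ t : ℝ, δ ≤ ‖x + ε • η + t • e - p'‖ := fun t =>
    ((min_le_right _ _).trans (min_le_right _ _)).trans (line_far hη heη ε t)
  have han := hΦ (x + ε • η) e δ hδ0 l1 l2 l3
  have hev : (fun t : ℝ => Φ (x + ε • η + t • e)) =ᶠ[𝓝 t0] 0 := by
    have hc : Continuous fun t : ℝ => x + ε • η + t • e := by fun_prop
    have : (fun t : ℝ => x + ε • η + t • e) ⁻¹' W ∈ 𝓝 t0 := (hWo.preimage hc).mem_nhds hε4
    filter_upwards [this] with t ht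
    apply h0 _ ht
    · intro h
      have h' : x + ε • η + t • e = p := h
      have := l2 t
      rw [h', sub_self, norm_zero] at this
      linarith
    · intro h
      have h' : x + ε • η + t • e = p' := h
      have := l3 t
      rw [h', sub_self, norm_zero] at this
      linarith
  have hz := han.eqOn_zero_of_preconnected_of_eventuallyEq_zero isPreconnected_univ
    (mem_univ t0) hev (mem_univ (0:ℝ))
  simpa using hz

section
variable {Ω : Set (E n)} {a1 a2 : E n → ℝ} {m M : ℝ}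

/-- Lemma B: continuation up to the pole -/
theorem lemB (D : Dom n s Ω) (h1 : Wt a1 m M) (h2 : Wt a2 m M) {W : Set (E n)} (hWo : IsOpen W)
    {x x' : E n} (hx : Far Ω x) (hx' : Far Ω x') (hxx : x ≠ x') (hV : Vis Ω W x) {A B : ℝ}
    (hAB : ∀ y ∈ W, GG s Ω a2 y x * GG s Ω a1 y x' * A = GG s Ω a1 y x * GG s Ω a2 y x' * B) :
    GG s Ω a1 x x' * A = GG s Ω a2 x x' * B := by
  have hn0 : (0:ℝ) ≤ n := n.cast_nonneg
  have hp : 0 < (n : ℝ) + 2 * s := by linarith [D.hs]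
  obtain ⟨η, hη, hev⟩ := continuation (Ω := Ω) hWo (x := x) (p := x) (p' := x')
    (Φ := fun y => GG s Ω a2 y x * GG s Ω a1 y x' * A - GG s Ω a1 y x * GG s Ω a2 y x' * B)
    (fun q e δ hδ l1 l2 l3 => by
      have g1 := GG_line D h2 hx hδ l1 l2
      have g2 := GG_line D h1 hx' hδ l1 l3
      have g3 := GG_line D h1 hx hδ l1 l2
      have g4 := GG_line D h2 hx' hδ l1 l3
      exact ((g1.mul g2).mul analyticOnNhd_const).sub ((g3.mul g4).mul analyticOnNhd_const))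
    (fun y hy _ _ => by
      show _ - _ = (0:ℝ)
      rw [hAB y hy, sub_self]) hV
  set p : ℝ := (n : ℝ) + 2 * s with hpdef
  -- the limits
  have hlim : Tendsto (fun ε : ℝ => x + ε • η) (𝓝[>] 0) (𝓝 x) := by
    have hc : Continuous fun ε : ℝ => x + ε • η := by fun_prop
    have := (hc.tendsto 0).mono_left (nhdsWithin_le_nhds (s := Ioi (0:ℝ)))
    simpa using this
  have tp : Tendsto (fun ε : ℝ => ε ^ p) (𝓝[>] 0) (𝓝 0) := by
    have : Tendsto (fun ρ : ℝ => ρ ^ p) (𝓝 0) (𝓝 (0 ^ p)) :=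
      (Real.continuousAt_rpow_const 0 p (Or.inr hp.le)).tendsto
    rw [Real.zero_rpow hp.ne'] at this
    exact this.mono_left nhdsWithin_le_nhds
  have tG : ∀ {a : E n → ℝ}, Wt a m M →
      Tendsto (fun ε : ℝ => ε ^ p * GG s Ω a (x + ε • η) x) (𝓝[>] 0) (𝓝 1) := by
    intro a ha
    have h3 := (HH_cont D ha hx hx).tendsto.comp hlim
    have h4 : Tendsto (fun ε : ℝ => 1 + ε ^ p * HH s Ω a (x + ε • η) x) (𝓝[>] 0)
        (𝓝 (1 + 0 * HH s Ω a x x)) := tendsto_const_nhds.add (tp.mul h3)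
    rw [zero_mul, add_zero] at h4
    refine h4.congr' ?_
    filter_upwards [self_mem_nhdsWithin] with ε hε
    have hε0 : 0 < ε := hε
    unfold GG
    have h5 : ‖x + ε • η - x‖ = ε := by
      rw [add_sub_cancel_left, norm_smul, hη, mul_one, Real.norm_of_nonneg hε0.le]
    rw [h5, mul_add, ← hpdef, ← Real.rpow_add hε0, add_neg_cancel, Real.rpow_zero]
  have tG' : ∀ {a : E n → ℝ}, Wt a m M →
      Tendsto (fun ε : ℝ => GG s Ω a (x + ε • η) x') (𝓝[>] 0) (𝓝 (GG s Ω a x x')) := by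
    intro a ha
    exact (GG_cont D ha hx hx' hxx).tendsto.comp hlim
  have t1 := (((tG h2).mul (tG' h1)).mul_const A).sub (((tG h1).mul (tG' h2)).mul_const B)
  rw [one_mul, one_mul] at t1
  have t2 : Tendsto (fun ε : ℝ => (0:ℝ)) (𝓝[>] 0) (𝓝 (GG s Ω a1 x x' * A - GG s Ω a2 x x' * B)) := by
    refine t1.congr' ?_
    filter_upwards [hev] with ε hε
    have : GG s Ω a2 (x + ε • η) x * GG s Ω a1 (x + ε • η) x' * A -
      GG s Ω a1 (x + ε • η) x * GG s Ω a2 (x + ε • η) x' * B = 0 := hε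
    linear_combination (ε ^ p) * this
  have := tendsto_nhds_unique t2 tendsto_const_nhds
  linarith

/-- continuation of the equality of the two kernels -/
theorem lemC (D : Dom n s Ω) (h1 : Wt a1 m M) (h2 : Wt a2 m M) {W : Set (E n)} (hWo : IsOpen W)
    {x y : E n} (hx : Far Ω x) (hy : Far Ω y) (hxy : y ≠ x) (hV : Vis Ω W y)
    (hEq : ∀ z ∈ W, z ≠ x → GG s Ω a1 z x = GG s Ω a2 z x) :
    GG s Ω a1 y x = GG s Ω a2 y x := by
  obtain ⟨η, hη, hev⟩ := continuation (Ω := Ω) hWo (x := y) (p := x) (p' := x)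
    (Φ := fun z => GG s Ω a1 z x - GG s Ω a2 z x)
    (fun q e δ hδ l1 l2 _ => (GG_line D h1 hx hδ l1 l2).sub (GG_line D h2 hx hδ l1 l2))
    (fun z hz h _ => by
      show _ - _ = (0:ℝ)
      rw [hEq z hz h, sub_self]) hV
  have hlim : Tendsto (fun ε : ℝ => y + ε • η) (𝓝[>] 0) (𝓝 y) := by
    have hc : Continuous fun ε : ℝ => y + ε • η := by fun_prop
    have := (hc.tendsto 0).mono_left (nhdsWithin_le_nhds (s := Ioi (0:ℝ)))
    simpa using this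
  have t1 := ((GG_cont D h1 hy hx hxy).tendsto.comp hlim).sub
    ((GG_cont D h2 hy hx hxy).tendsto.comp hlim)
  have t2 : Tendsto (fun ε : ℝ => (0:ℝ)) (𝓝[>] 0) (𝓝 (GG s Ω a1 y x - GG s Ω a2 y x)) := by
    refine t1.congr' ?_
    filter_upwards [hev] with ε hε
    exact hε
  have := tendsto_nhds_unique t2 tendsto_const_nhds
  linarith

end

end Pool.Agent.R212.PD
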