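import Pool.Agent.R212.PD6

set_option autoImplicit false
set_option maxHeartbeats 4000000

open Set Filter Topology Metric MeasureTheory
open Pool.Agent.H305R3.FC

namespace Pool.Agent.R212.PD

variable {n : ℕ} {s : ℝ}

section
variable {Ω W1 W2 : Set (E n)} {a1 a2 : E n → ℝ} {m M : ℝ}

/-- the kernels coincide on `W1` -/
theorem GG_eq (D : Dom n s Ω) (h1 : Wt a1 m M) (h2 : Wt a2 m M) (hW1 : W1 ⊆ (closure Ω)ᶜ)
    (hW2 : W2 ⊆ (closure Ω)ᶜ) (hW1o : IsOpen W1) (hW2o : IsOpen W2) (hdisj : ∀ x ∈ W2, x ∉ W1)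
    (hDN : DN2 s Ω W1 W2 a1 a2) (hV : ∀ x ∈ W1, Vis Ω W2 x) {x x' : E n} (hx : x ∈ W1)
    (hx' : x' ∈ W1) (hxx : x ≠ x') : GG s Ω a1 x x' = GG s Ω a2 x x' := by
  have Fx := far_of (hW1 hx)
  have Fx' := far_of (hW1 hx')
  have F2 : ∀ y ∈ W2, Far Ω y := fun y hy => far_of (hW2 hy)
  -- first continuation
  have E1 : ∀ y' ∈ W2, GG s Ω a1 x x' * (GG s Ω a1 x y' * GG s Ω a2 x' y') =
      GG s Ω a2 x x' * (GG s Ω a2 x y' * GG s Ω a1 x' y') := by
    intro y' hy'
    apply lemB D h1 h2 hW2o Fx Fx' hxx (hV x hx)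
    intro y hy
    have h := stepI D h1 h2 hW1 hW2 hW1o hW2o hdisj hDN hy hy' hx hx'
    rw [GG_symm D h2 (F2 y hy) Fx, GG_symm D h1 (F2 y hy) Fx', GG_symm D h1 (F2 y hy) Fx,
      GG_symm D h2 (F2 y hy) Fx']
    linear_combination h
  have E2 : GG s Ω a1 x' x * GG s Ω a1 x x' = GG s Ω a2 x' x * GG s Ω a2 x x' := by
    apply lemB D h1 h2 hW2o Fx' Fx hxx.symm (hV x' hx')
    intro y hy
    have h := E1 y hy
    rw [GG_symm D h2 (F2 y hy) Fx, GG_symm D h1 (F2 y hy) Fx', GG_symm D h1 (F2 y hy) Fx,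
      GG_symm D h2 (F2 y hy) Fx']
    linear_combination h
  rw [GG_symm D h1 Fx' Fx, GG_symm D h2 Fx' Fx] at E2
  have p1 := GG_pos D h1 Fx' hxx
  have p2 := GG_pos D h2 Fx' hxx
  nlinarith [mul_pos p1 p2]

/-- the kernels coincide on `W1 × W2` -/
theorem GG_eq12 (D : Dom n s Ω) (h1 : Wt a1 m M) (h2 : Wt a2 m M) (hW1 : W1 ⊆ (closure Ω)ᶜ)
    (hW2 : W2 ⊆ (closure Ω)ᶜ) (hW1o : IsOpen W1) (hdisj : ∀ x ∈ W2, x ∉ W1)
    (hEq : ∀ x ∈ W1, ∀ x' ∈ W1, x ≠ x' → GG s Ω a1 x x' = GG s Ω a2 x x')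
    (hV : ∀ y ∈ W2, Vis Ω W1 y) {x y : E n} (hx : x ∈ W1)
    (hy : y ∈ W2) : GG s Ω a1 x y = GG s Ω a2 x y := by
  have Fx := far_of (hW1 hx)
  have Fy := far_of (hW2 hy)
  rw [GG_symm D h1 Fx Fy, GG_symm D h2 Fx Fy]
  apply lemC D h1 h2 hW1o Fx Fy _ (hV y hy)
  · intro z hz hzx
    exact hEq z hz x hx hzx
  · rintro rfl
    exact hdisj y hy hx

/-- the weights coincide in the exterior -/
theorem ext_eq2 (D : Dom n s Ω) (h1 : Wt a1 m M) (h2 : Wt a2 m M) (hW1 : W1 ⊆ (closure Ω)ᶜ)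
    (hW2 : W2 ⊆ (closure Ω)ᶜ) (hW1o : IsOpen W1) (hW2o : IsOpen W2) (hdisj : ∀ x ∈ W2, x ∉ W1)
    (hne : W2.Nonempty)
    (hDN : DN2 s Ω W1 W2 a1 a2) (hinf : volume W1 = ⊤)
    {q : ENNReal} (hq0 : q ≠ 0) (hqt : q ≠ ⊤) (hL1 : MemLp (fun x => a1 x - 1) q volume)
    (hL2 : MemLp (fun x => a2 x - 1) q volume)
    (hEq : ∀ x ∈ W1, ∀ y ∈ W2, GG s Ω a1 x y = GG s Ω a2 x y) :
    (∀ᵐ x ∂(volume : Measure (E n)), x ∈ W1 → a1 x = a2 x) ∧
    (∀ᵐ x ∂(volume : Measure (E n)), x ∈ W2 → a1 x = a2 x) := by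
  have hW1ne : W1.Nonempty := by
    by_contra h
    rw [not_nonempty_iff_eq_empty] at h
    rw [h, measure_empty] at hinf
    exact ENNReal.zero_ne_top hinf
  obtain ⟨f0, x0, hf0, f0n, hx0⟩ := exists_source hW1o hW1ne
  obtain ⟨y0, hy0⟩ := hne
  have p1 := PP_pos' D h1 hW1 hf0 f0n hx0 (hdisj y0 hy0) (far_of (hW2 hy0))
  have p2 := PP_pos' D h2 hW1 hf0 f0n hx0 (hdisj y0 hy0) (far_of (hW2 hy0))
  have C1 := stepC D h1 h2 hW1 hW2 hW1o hW2o hdisj hDN hf0 hy0
  set c : ℝ := PP s Ω a2 f0 y0 / PP s Ω a1 f0 y0 with hc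
  have hcpos : 0 < c := div_pos p2 p1
  have hrat : ∀ᵐ x ∂(volume : Measure (E n)), x ∈ W1 → a2 x = c * a1 x := by
    filter_upwards [C1] with x hx hxW
    have e := hx hxW
    rw [← hEq x hxW y0 hy0] at e
    have hG := GG_pos D h1 (far_of (hW2 hy0)) (show x ≠ y0 by
      rintro rfl
      exact hdisj x hy0 hxW)
    have e2 : a2 x * PP s Ω a1 f0 y0 = a1 x * PP s Ω a2 f0 y0 := by
      apply mul_left_cancel₀ hG.ne'
      linear_combination e
    rw [hc, div_mul_eq_mul_div, eq_div_iff p1.ne', e2]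
    ring
  have hc1 : c = 1 := by
    have hm : MemLp (fun _ : E n => c - 1) q (volume.restrict W1) := by
      have e1 := (hL2.restrict W1).sub ((hL1.restrict W1).const_mul c)
      refine e1.ae_eq ?_
      rw [Filter.EventuallyEq, ae_restrict_iff' hW1o.measurableSet]
      filter_upwards [hrat] with x hx hxW
      show a2 x - 1 - c * (a1 x - 1) = c - 1
      rw [hx hxW]
      ring
    rw [memLp_const_iff hq0 hqt] at hm
    rcases hm with h | h
    · linarith
    · rw [Measure.restrict_apply_univ, hinf] at h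
      exact absurd h (lt_irrefl _)
  have R1 : ∀ᵐ x ∂(volume : Measure (E n)), x ∈ W1 → a1 x = a2 x := by
    filter_upwards [hrat] with x hx hxW
    rw [hx hxW, hc1, one_mul]
  refine ⟨R1, ?_⟩
  have A1 := stepA D h1 h2 hW1 hW2 hW2o hdisj hDN hf0
  filter_upwards [A1] with y hy hyW
  have e := hy hyW
  have pp := PP_pos' D h1 hW1 hf0 f0n hx0 (hdisj y hyW) (far_of (hW2 hyW))
  have e2 : PP s Ω a1 f0 y = PP s Ω a2 f0 y := by
    unfold PP
    apply integral_congr_ae
    filter_upwards [R1] with x hx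
    by_cases hxW : x ∈ W1
    · rw [hx hxW, hEq x hxW y hyW]
    · have : f0 x = 0 := image_eq_zero_of_notMem_tsupport fun h => hxW (hf0.2.2 h)
      rw [this, zero_mul, zero_mul]
  rw [← e2] at e
  exact mul_right_cancel₀ pp.ne' e

/-- antilocality for functions vanishing outside of `Ω` -/
theorem anti {Ω : Set (E n)} (D : Dom n s Ω) {w : E n → ℝ} (hw : Integrable w volume)
    (h0 : ∀ᵐ x ∂(volume : Measure (E n)), x ∉ Ω → w x = 0) {U : Set (E n)} (hU : IsOpen U)
    (hUne : U.Nonempty) (hUΩ : U ⊆ (closure Ω)ᶜ) (hz : ∀ x ∈ U, Pot s w x = 0) :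
    ∀ᵐ x ∂(volume : Measure (E n)), w x = 0 := by
  obtain ⟨x0, hx0⟩ := hUne
  obtain ⟨ε, hε, hb⟩ := Metric.isOpen_iff.1 hU x0 hx0
  have hn0 : (0:ℝ) ≤ n := n.cast_nonneg
  have hUn : ∀ x ∈ U, x ∉ Ω := fun x hx hxΩ => hUΩ hx (subset_closure hxΩ)
  have hfin : w =ᵐ[volume] 0 := by
    refine antilocal (x0 := x0) (δ := ε / 2) (p := (n : ℝ) + 2 * s) hw.1 (by positivity)
      (by linarith [D.hs]) (by linarith [D.hs]) ?_ ?_ ?_
    · filter_upwards [h0] with y hy hyb
      rw [show 2 * (ε / 2) = ε by ring] at hyb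
      exact hy (hUn y (hb hyb))
    · obtain ⟨d, hd, hsep⟩ := far_of (hUΩ hx0)
      have := int_sec D.hs hw.1 (w1 := fun z => |w z|) hw.abs (T := 0)
        (Eventually.of_forall fun z => by simp) (fun z => abs_nonneg _) le_rfl hd x0 (by
          filter_upwards [h0] with z hz1 hz2
          apply hsep
          by_contra h
          exact hz2 (hz1 h))
      refine this.congr (Eventually.of_forall fun y => ?_)
      show w y * ‖x0 - y‖ ^ (-((n : ℝ) + 2 * s)) = w y * ‖y - x0‖ ^ (-((n : ℝ) + 2 * s))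
      rw [norm_sub_rev]
    · refine Eventually.of_forall fun x hx => ?_
      exact hz x (hb (ball_subset_ball (by linarith) hx))
  filter_upwards [hfin] with x hx
  exact hx

/-- the point source correctors agree after weighting -/
theorem vv_agree (D : Dom n s Ω) (h1 : Wt a1 m M) (h2 : Wt a2 m M) (hW1 : W1 ⊆ (closure Ω)ᶜ)
    (hW1o : IsOpen W1) (hn2 : 2 ≤ n)
    (hEq : ∀ x ∈ W1, ∀ x' ∈ W1, x ≠ x' → GG s Ω a1 x x' = GG s Ω a2 x x') {y : E n}
    (hy : y ∈ W1) :
    ∀ᵐ x ∂(volume : Measure (E n)), vv s Ω a1 y x * a1 x = vv s Ω a2 y x * a2 x := by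
  have Fy := far_of (hW1 hy)
  have P1 := vv_spec D h1 Fy
  have P2 := vv_spec D h2 Fy
  have i1 := vvint D h1 Fy
  have i2 := vvint D h2 Fy
  have hne : (W1 \ {y}).Nonempty := by
    obtain ⟨ε, hε, hb⟩ := Metric.isOpen_iff.1 hW1o y hy
    have : Nontrivial (E n) := by
      have : Nonempty (Fin n) := ⟨⟨0, by omega⟩⟩
      infer_instance
    obtain ⟨v, hv⟩ := exists_ne (0 : E n)
    have hv0 : 0 < ‖v‖ := norm_pos_iff.2 hv
    refine ⟨y + (ε / (2 * ‖v‖)) • v, hb ?_, ?_⟩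
    · rw [mem_ball, dist_eq_norm, add_sub_cancel_left, norm_smul,
        Real.norm_of_nonneg (by positivity)]
      have : ε / (2 * ‖v‖) * ‖v‖ = ε / 2 := by field_simp
      rw [this]
      linarith
    · intro h
      have h' : y + (ε / (2 * ‖v‖)) • v = y := h
      have h2 : (ε / (2 * ‖v‖)) • v = 0 := by
        have := congrArg (fun z => z - y) h'
        simpa using this
      rcases smul_eq_zero.1 h2 with h3 | h3
      · have : 0 < ε / (2 * ‖v‖) := by positivity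
        linarith
      · exact hv h3
  have hz := anti (s := s) D (w := fun z => vv s Ω a1 y z * a1 z - vv s Ω a2 y z * a2 z)
    (i1.sub i2) (by
      filter_upwards [P1.zero, P2.zero] with z z1 z2 hz
      rw [z1 hz, z2 hz]
      ring) (U := W1 \ {y}) (hW1o.sdiff isClosed_singleton) hne
    (sdiff_subset.trans hW1) (by
      intro x hx
      have Fx := far_of (hW1 hx.1)
      obtain ⟨d, hd, hsep⟩ := Fx
      have hxy : x ≠ y := fun h => hx.2 h
      have hG := hEq x hx.1 y hy hxy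
      unfold GG at hG
      have hH : HH s Ω a1 x y = HH s Ω a2 x y := by linarith
      have j : ∀ {w : E n → ℝ}, Integrable w volume →
          (∀ᵐ x ∂(volume : Measure (E n)), x ∉ Ω → w x = 0) →
          Integrable (fun z => w z * ‖x - z‖ ^ (-((n : ℝ) + 2 * s))) volume := by
        intro w hw hw0
        refine int_sec D.hs hw.1 (w1 := fun z => |w z|) hw.abs (T := 0)
          (Eventually.of_forall fun z => by simp) (fun z => abs_nonneg _) le_rfl hd x ?_
        filter_upwards [hw0] with z hz1 hz2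
        apply hsep
        by_contra h
        exact hz2 (hz1 h)
      have j1 := j i1 (by
        filter_upwards [P1.zero] with z z1 hz
        rw [z1 hz, zero_mul])
      have j2 := j i2 (by
        filter_upwards [P2.zero] with z z1 hz
        rw [z1 hz, zero_mul])
      unfold HH Pot at hH
      unfold Pot
      have e : (fun z => (vv s Ω a1 y z * a1 z - vv s Ω a2 y z * a2 z) *
          ‖x - z‖ ^ (-((n : ℝ) + 2 * s))) = fun z =>
          (vv s Ω a1 y z * a1 z) * ‖x - z‖ ^ (-((n : ℝ) + 2 * s)) -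
          (vv s Ω a2 y z * a2 z) * ‖x - z‖ ^ (-((n : ℝ) + 2 * s)) := by
        funext z
        ring
      rw [e, integral_sub j1 j2, hH, sub_self])
  filter_upwards [hz] with x hx
  linarith

/-- the interior step -/
theorem interior (D : Dom n s Ω) (h1 : Wt a1 m M) (h2 : Wt a2 m M) (hW1 : W1 ⊆ (closure Ω)ᶜ)
    (hW1o : IsOpen W1) (hW1ne : W1.Nonempty)
    (hext : ∀ᵐ x ∂(volume : Measure (E n)), x ∉ Ω → a1 x = a2 x)
    (hone : MemHt s Ω (Ω.indicator (fun _ => (1:ℝ))))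
    (hvv : ∀ y ∈ W1, ∀ᵐ x ∂(volume : Measure (E n)),
      vv s Ω a1 y x * a1 x = vv s Ω a2 y x * a2 x) :
    ∀ᵐ x ∂(volume : Measure (E n)), a1 x = a2 x := by
  have htf : ∀ φ : E n → ℝ, TestFun Ω φ → MemHs s φ := fun φ hφ => hφ.memHs D.hn D.hs D.hs1
  let ψ : E n → ℝ := Ω.indicator (fun x => a1 x - a2 x)
  have hψm : Measurable ψ := (h1.meas.sub h2.meas).indicator D.meas
  have hψb : ∀ x, |ψ x| ≤ Ω.indicator (fun _ => 2 * M) x := by
    intro x
    by_cases hx : x ∈ Ω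
    · show |Ω.indicator _ x| ≤ _
      rw [indicator_of_mem hx, indicator_of_mem hx]
      have := abs_sub (a1 x) (a2 x)
      rw [abs_of_pos (h1.nonneg x), abs_of_pos (h2.nonneg x)] at this
      linarith [h1.hi x, h2.hi x]
    · show |Ω.indicator _ x| ≤ _
      rw [indicator_of_notMem hx, indicator_of_notMem hx, abs_zero]
  have hM := h1.Mpos
  have hw : ∀ {a : E n → ℝ}, Wt a m M → MemLp (fun x => a x * ψ x) 2 volume := by
    intro a ha
    have : MemLp (Ω.indicator (fun _ : E n => M * (2 * M))) 2 volume :=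
      memLp_indicator_const 2 D.meas _ (Or.inr D.fin.ne)
    refine this.mono (ha.meas.mul hψm).aestronglyMeasurable (Eventually.of_forall fun x => ?_)
    rw [norm_mul, Real.norm_of_nonneg (ha.nonneg x).le, Real.norm_eq_abs (ψ x)]
    have e1 := hψb x
    by_cases hx : x ∈ Ω
    · rw [indicator_of_mem hx] at e1 ⊢
      rw [Real.norm_of_nonneg (by positivity)]
      exact mul_le_mul (ha.hi x) e1 (abs_nonneg _) hM.le
    · rw [indicator_of_notMem hx] at e1 ⊢
      have e2 : |ψ x| = 0 := le_antisymm e1 (abs_nonneg _)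
      rw [e2, mul_zero, norm_zero]
  obtain ⟨U1, hU1, q1⟩ := exists_src D.hn D.hs D.hs1 D.bdd h1 (hw h1)
  obtain ⟨U2, hU2, q2⟩ := exists_src D.hn D.hs D.hs1 D.bdd h2 (hw h2)
  have z1 := hU1.ae_zero D.meas htf
  have z2 := hU2.ae_zero D.meas htf
  have i1 := int_of_L2 D h1 hU1.1.1 z1
  have i2 := int_of_L2 D h2 hU2.1.1 z2
  have hpot : ∀ y ∈ W1, Pot s (fun z => U1 z * a1 z) y = Pot s (fun z => U2 z * a2 z) y := by
    intro y hy
    have P1 := vv_spec D h1 (far_of (hW1 hy))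
    have P2 := vv_spec D h2 (far_of (hW1 hy))
    have e1 := P1.eq U1 hU1
    have e2 := P2.eq U2 hU2
    rw [Bf_symm, q1 _ P1.ht] at e1
    rw [Bf_symm, q2 _ P2.ht] at e2
    have e3 : ∫ x, (a1 x * ψ x) * vv s Ω a1 y x = ∫ x, (a2 x * ψ x) * vv s Ω a2 y x := by
      apply integral_congr_ae
      filter_upwards [hvv y hy] with x hx
      linear_combination (ψ x) * hx
    linarith
  have hag : ∀ᵐ x ∂(volume : Measure (E n)), U1 x * a1 x = U2 x * a2 x := by
    have hz := anti (s := s) D (w := fun z => U1 z * a1 z - U2 z * a2 z)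
      (i1.sub i2) (by
        filter_upwards [z1, z2] with z z1 z2 hz
        rw [z1 hz, z2 hz]
        ring) (U := W1) hW1o hW1ne hW1 (by
        intro x hx
        obtain ⟨d, hd, hsep⟩ := far_of (hW1 hx)
        have hH := hpot x hx
        have j : ∀ {w : E n → ℝ}, Integrable w volume →
            (∀ᵐ x ∂(volume : Measure (E n)), x ∉ Ω → w x = 0) →
            Integrable (fun z => w z * ‖x - z‖ ^ (-((n : ℝ) + 2 * s))) volume := by
          intro w hw hw0
          refine int_sec D.hs hw.1 (w1 := fun z => |w z|) hw.abs (T := 0)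
            (Eventually.of_forall fun z => by simp) (fun z => abs_nonneg _) le_rfl hd x ?_
          filter_upwards [hw0] with z hz1 hz2
          apply hsep
          by_contra h
          exact hz2 (hz1 h)
        have j1 := j i1 (by
          filter_upwards [z1] with z z1 hz
          rw [z1 hz, zero_mul])
        have j2 := j i2 (by
          filter_upwards [z2] with z z1 hz
          rw [z1 hz, zero_mul])
        unfold Pot at hH
        unfold Pot
        have e : (fun z => (U1 z * a1 z - U2 z * a2 z) *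
            ‖x - z‖ ^ (-((n : ℝ) + 2 * s))) = fun z =>
            (U1 z * a1 z) * ‖x - z‖ ^ (-((n : ℝ) + 2 * s)) -
            (U2 z * a2 z) * ‖x - z‖ ^ (-((n : ℝ) + 2 * s)) := by
          funext z
          ring
        rw [e, integral_sub j1 j2, hH, sub_self])
    filter_upwards [hz] with x hx
    linarith
  have hBB : Bf s a1 U1 (Ω.indicator (fun _ => (1:ℝ))) =
      Bf s a2 U2 (Ω.indicator (fun _ => (1:ℝ))) := by
    unfold Bf
    apply integral_congr_ae
    filter_upwards [ae_fst hag, ae_snd hag, ae_fst hext, ae_snd hext, ae_fst z1, ae_snd z1,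
      ae_fst z2, ae_snd z2] with p g1 g2 x1 x2 u1 u2 u3 u4
    by_cases p1 : p.1 ∈ Ω
    · by_cases p2 : p.2 ∈ Ω
      · rw [indicator_of_mem p1, indicator_of_mem p2]
        ring
      · rw [indicator_of_mem p1, indicator_of_notMem p2, u2 p2, u4 p2, x2 p2]
        linear_combination (a2 p.2 * ker s p) * g1
    · by_cases p2 : p.2 ∈ Ω
      · rw [indicator_of_notMem p1, indicator_of_mem p2, u1 p1, u3 p1, x1 p1]
        linear_combination (a2 p.1 * ker s p) * g2
      · rw [indicator_of_notMem p1, indicator_of_notMem p2]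
        ring
  rw [q1 _ hone, q2 _ hone] at hBB
  have j1 : Integrable (fun x => a1 x * ψ x * Ω.indicator (fun _ => (1:ℝ)) x) volume :=
    (hw h1).integrable_mul hone.1.1
  have j2 : Integrable (fun x => a2 x * ψ x * Ω.indicator (fun _ => (1:ℝ)) x) volume :=
    (hw h2).integrable_mul hone.1.1
  have h3 : ∫ x, ψ x ^ 2 = 0 := by
    have e : (fun x => ψ x ^ 2) = fun x => a1 x * ψ x * Ω.indicator (fun _ => (1:ℝ)) x -
        a2 x * ψ x * Ω.indicator (fun _ => (1:ℝ)) x := by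
      funext x
      by_cases hx : x ∈ Ω
      · rw [indicator_of_mem hx]
        have : ψ x = a1 x - a2 x := indicator_of_mem hx _
        rw [this]
        ring
      · rw [indicator_of_notMem hx]
        have : ψ x = 0 := indicator_of_notMem hx _
        rw [this]
        ring
    rw [e, integral_sub j1 j2, hBB, sub_self]
  have hψ2 : Integrable (fun x => ψ x ^ 2) volume := by
    have : MemLp ψ 2 volume := by
      have h5 : MemLp (Ω.indicator (fun _ : E n => 2 * M)) 2 volume :=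
        memLp_indicator_const 2 D.meas _ (Or.inr D.fin.ne)
      refine h5.mono hψm.aestronglyMeasurable (Eventually.of_forall fun x => ?_)
      rw [Real.norm_eq_abs]
      exact (hψb x).trans (le_abs_self _)
    exact this.integrable_sq
  rw [integral_eq_zero_iff_of_nonneg (fun x => sq_nonneg _) hψ2] at h3
  filter_upwards [h3, hext] with x hx hxe
  by_cases hxΩ : x ∈ Ω
  · have h4 : ψ x ^ 2 = 0 := hx
    have h5 : ψ x = 0 := pow_eq_zero_iff two_ne_zero |>.1 h4
    have h6 : ψ x = a1 x - a2 x := indicator_of_mem hxΩ _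
    linarith
  · exact hxe hxΩ

/-- The general uniqueness theorem for weights. -/
theorem weights (D : Dom n s Ω) (hn2 : 2 ≤ n) (h1 : Wt a1 m M) (h2 : Wt a2 m M)
    (hW1 : W1 ⊆ (closure Ω)ᶜ)
    (hW2 : W2 ⊆ (closure Ω)ᶜ) (hW1o : IsOpen W1) (hW2o : IsOpen W2) (hdisj : ∀ x ∈ W2, x ∉ W1)
    (hne : W2.Nonempty) (hV1 : ∀ x ∈ W1, Vis Ω W2 x) (hV2 : ∀ x ∈ W2, Vis Ω W1 x)
    (hinf : volume W1 = ⊤)
    (hnull : ∀ᵐ x ∂(volume : Measure (E n)), x ∉ Ω → x ∈ W1 ∪ W2)
    (hone : MemHt s Ω (Ω.indicator (fun _ => (1:ℝ))))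
    {q : ENNReal} (hq0 : q ≠ 0) (hqt : q ≠ ⊤) (hL1 : MemLp (fun x => a1 x - 1) q volume)
    (hL2 : MemLp (fun x => a2 x - 1) q volume)
    (hDN : DN2 s Ω W1 W2 a1 a2) :
    ∀ᵐ x ∂(volume : Measure (E n)), a1 x = a2 x := by
  have hW1ne : W1.Nonempty := by
    by_contra h
    rw [not_nonempty_iff_eq_empty] at h
    rw [h, measure_empty] at hinf
    exact ENNReal.zero_ne_top hinf
  have E11 : ∀ x ∈ W1, ∀ x' ∈ W1, x ≠ x' → GG s Ω a1 x x' = GG s Ω a2 x x' :=
    fun x hx x' hx' hxx => GG_eq D h1 h2 hW1 hW2 hW1o hW2o hdisj hDN hV1 hx hx' hxx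
  have E12 : ∀ x ∈ W1, ∀ y ∈ W2, GG s Ω a1 x y = GG s Ω a2 x y :=
    fun x hx y hy => GG_eq12 D h1 h2 hW1 hW2 hW1o hdisj E11 hV2 hx hy
  obtain ⟨R1, R2⟩ := ext_eq2 D h1 h2 hW1 hW2 hW1o hW2o hdisj hne hDN hinf hq0 hqt hL1 hL2 E12
  refine interior D h1 h2 hW1 hW1o hW1ne ?_ hone
    (fun y hy => vv_agree D h1 h2 hW1 hW1o hn2 E11 hy)
  filter_upwards [R1, R2, hnull] with x r1 r2 hx hxΩ
  rcases hx hxΩ with h | h
  · exact r1 h
  · exact r2 h

end

end Pool.Agent.R212.PD
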