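import Pool.Agent.H305R3.FC9

set_option autoImplicit false
set_option maxHeartbeats 4000000

open Set Filter Topology Metric MeasureTheory
open Pool.Agent.H305R3.FC

namespace Pool.Agent.R212.PD

variable {n : ℕ} {s : ℝ}

/-- distance-like function to the unit sphere -/
noncomputable def rr (x : E n) : ℝ := 1 - ‖x‖ ^ 2

theorem rr_pos {x : E n} (hx : x ∈ ball (0 : E n) 1) : 0 < rr x := by
  rw [mem_ball_zero_iff] at hx
  unfold rr
  nlinarith [norm_nonneg x]

theorem rr_le_one (x : E n) : rr x ≤ 1 := by
  unfold rr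
  nlinarith [norm_nonneg x]

/-- the scaled kernel -/
theorem scaled_kmin (hn : 1 ≤ n) (hs : 0 < s) (hs1 : s < 1) {ρ : ℝ} (hρ : 0 < ρ) :
    Integrable (fun h : E n => min (‖h‖ ^ 2 / ρ ^ 2) 1 * ‖h‖ ^ (-((n : ℝ) + 2 * s))) volume ∧
    ∫ h : E n, min (‖h‖ ^ 2 / ρ ^ 2) 1 * ‖h‖ ^ (-((n : ℝ) + 2 * s)) =
      ρ ^ (-(2 * s)) * ∫ h : E n, kmin n s ‖h‖ := by
  have h0 := integrable_kmin (n := n) hn hs hs1
  have e : (fun h : E n => min (‖h‖ ^ 2 / ρ ^ 2) 1 * ‖h‖ ^ (-((n : ℝ) + 2 * s))) =
      fun h : E n => ρ ^ (-((n : ℝ) + 2 * s)) * kmin n s ‖ρ⁻¹ • h‖ := by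
    funext h
    unfold kmin
    rw [norm_smul, norm_inv, Real.norm_of_nonneg hρ.le, Real.mul_rpow (by positivity)
      (norm_nonneg _), Real.inv_rpow hρ.le, mul_pow, inv_pow]
    have h1 : (ρ ^ 2)⁻¹ * ‖h‖ ^ 2 = ‖h‖ ^ 2 / ρ ^ 2 := by
      rw [inv_mul_eq_div]
    rw [h1]
    have h2 : ρ ^ (-((n : ℝ) + 2 * s)) ≠ 0 := by positivity
    field_simp
  have h1 : Integrable (fun h : E n => kmin n s ‖ρ⁻¹ • h‖) volume :=
    h0.comp_smul (R := ρ⁻¹) (by positivity)
  rw [e]
  refine ⟨h1.const_mul _, ?_⟩
  rw [integral_const_mul, Measure.integral_comp_smul_of_nonneg volume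
    (fun h : E n => kmin n s ‖h‖) ρ⁻¹ (hR := by positivity)]
  rw [finrank_euclideanSpace_fin, smul_eq_mul, inv_pow, inv_inv, ← mul_assoc,
    ← Real.rpow_natCast, ← Real.rpow_add hρ]
  congr 2
  ring

/-- integrability of the power of the distance on the ball -/
theorem integrable_rr (hn : 1 ≤ n) (hs : 0 < s) (hs2 : s < 1 / 2) :
    Integrable ((ball (0 : E n) 1).indicator (fun x => rr x ^ (-(2 * s)))) volume := by
  have : Nontrivial (E n) := by
    have : Nonempty (Fin n) := ⟨⟨0, by omega⟩⟩
    infer_instance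
  let f : ℝ → ℝ := fun t => if t < 1 then (1 - t) ^ (-(2 * s)) else 0
  have h1 : Integrable (fun x : E n => f ‖x‖) volume := by
    rw [integrable_fun_norm_addHaar (E := E n) volume (f := f)]
    have h2 : IntegrableOn (fun y : ℝ => (1 - y) ^ (-(2 * s))) (Ioo 0 1) volume := by
      have h3 : IntervalIntegrable (fun x : ℝ => x ^ (-(2 * s))) volume 0 1 :=
        intervalIntegral.intervalIntegrable_rpow' (by linarith)
      have h4 := h3.comp_sub_left 1
      rw [sub_zero, sub_self] at h4
      have h5 := h4.symm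
      rw [intervalIntegrable_iff_integrableOn_Ioo_of_le zero_le_one] at h5
      exact h5
    have h3 : IntegrableOn (fun y : ℝ => y ^ (Module.finrank ℝ (E n) - 1) • f y) (Ioo 0 1)
        volume := by
      refine h2.mono' ?_ ?_
      · apply Measurable.aestronglyMeasurable
        have : Measurable f := Measurable.ite measurableSet_Iio (by fun_prop) measurable_const
        fun_prop
      · rw [ae_restrict_iff' measurableSet_Ioo]
        refine Eventually.of_forall fun y hy => ?_
        have hf : f y = (1 - y) ^ (-(2 * s)) := if_pos hy.2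
        have hy1 : 0 < 1 - y := by linarith [hy.2]
        rw [hf, smul_eq_mul, Real.norm_of_nonneg (mul_nonneg (pow_nonneg hy.1.le _)
          (by positivity))]
        exact mul_le_of_le_one_left (by positivity) (pow_le_one₀ hy.1.le hy.2.le)
    have h4 : IntegrableOn (fun y : ℝ => y ^ (Module.finrank ℝ (E n) - 1) • f y) (Ici 1)
        volume := by
      refine integrableOn_zero.congr_fun ?_ measurableSet_Ici
      intro y hy
      have hf : f y = 0 := if_neg (not_lt.2 hy)
      show (0:ℝ) = _
      simp only [hf, smul_zero]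
    refine (h3.union h4).mono_set ?_
    intro y hy
    rcases lt_or_ge y 1 with h | h
    · exact Or.inl ⟨hy, h⟩
    · exact Or.inr h
  refine h1.mono' ?_ (Eventually.of_forall fun x => ?_)
  · apply Measurable.aestronglyMeasurable
    refine Measurable.indicator ?_ measurableSet_ball
    unfold rr
    fun_prop
  · by_cases hx : x ∈ ball (0 : E n) 1
    · have hr := rr_pos hx
      rw [indicator_of_mem hx, Real.norm_of_nonneg (by positivity)]
      rw [mem_ball_zero_iff] at hx
      show rr x ^ (-(2 * s)) ≤ f ‖x‖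
      have hf : f ‖x‖ = (1 - ‖x‖) ^ (-(2 * s)) := if_pos hx
      rw [hf]
      apply Real.rpow_le_rpow_of_nonpos (by linarith) _ (by linarith)
      unfold rr
      nlinarith [norm_nonneg x]
    · rw [indicator_of_notMem hx, norm_zero]
      show 0 ≤ f ‖x‖
      show 0 ≤ (if ‖x‖ < 1 then (1 - ‖x‖) ^ (-(2 * s)) else 0)
      split_ifs with h
      · have : 0 < 1 - ‖x‖ := by linarith
        positivity
      · exact le_refl _

/-- the basic energy bound near the sphere -/
theorem energy_bound (hn : 1 ≤ n) (hs : 0 < s) (hs2 : s < 1 / 2) {l : ℝ} (hl : 0 < l)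
    {A : Set (E n)} (hA : MeasurableSet A) (hAB : A ⊆ ball (0 : E n) 1) {u : E n → ℝ}
    (hu : Measurable u)
    (hbd : ∀ x y, (u x - u y) ^ 2 ≤
      A.indicator (fun x => min (‖x - y‖ ^ 2 / (rr x / l) ^ 2) 1) x +
      A.indicator (fun y => min (‖x - y‖ ^ 2 / (rr y / l) ^ 2) 1) y) :
    Integrable (fun p : E n × E n => (u p.1 - u p.2) ^ 2 * ker s p) (volume.prod volume) ∧
    ∫ p : E n × E n, (u p.1 - u p.2) ^ 2 * ker s p ∂(volume.prod volume) ≤
      2 * (l ^ (2 * s) * (∫ h : E n, kmin n s ‖h‖)) * ∫ x, A.indicator (fun x => rr x ^ (-(2 * s))) x := by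
  have hs1 : s < 1 := by linarith
  set K0 : ℝ := ∫ h : E n, kmin n s ‖h‖ with hK0
  have hrm : Measurable (rr : E n → ℝ) := by unfold rr; fun_prop
  have hAi : Integrable (A.indicator (fun x => rr x ^ (-(2 * s)))) volume := by
    have h1 := (integrable_rr (n := n) hn hs hs2).indicator hA
    rw [indicator_indicator, inter_eq_left.2 hAB] at h1
    exact h1
  let F : E n × E n → ℝ := fun p =>
    A.indicator (fun x => min (‖x - p.2‖ ^ 2 / (rr x / l) ^ 2) 1) p.1 * ker s p
  have hF0 : ∀ p, 0 ≤ F p := fun p => mul_nonneg (indicator_nonneg (fun _ _ => by positivity) _)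
    (ker_nonneg p)
  have hFm : Measurable F := by
    have h1 : F = fun p => (A ×ˢ (univ : Set (E n))).indicator (fun p : E n × E n =>
        min (‖p.1 - p.2‖ ^ 2 / (rr p.1 / l) ^ 2) 1) p * ker s p := by
      funext p
      show A.indicator _ p.1 * ker s p = _
      by_cases hp : p.1 ∈ A
      · rw [indicator_of_mem hp, indicator_of_mem (show p ∈ A ×ˢ univ from ⟨hp, trivial⟩)]
      · rw [indicator_of_notMem hp, indicator_of_notMem (fun h => hp h.1)]
    rw [h1]
    refine (Measurable.indicator ?_ (hA.prod MeasurableSet.univ)).mul measurable_ker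
    fun_prop
  have hsec : ∀ x : E n, (fun y => F (x, y)) = fun y => A.indicator (fun x =>
      min (‖x - y‖ ^ 2 / (rr x / l) ^ 2) 1 * ‖x - y‖ ^ (-((n : ℝ) + 2 * s))) x := by
    intro x
    funext y
    show A.indicator (fun x => min (‖x - y‖ ^ 2 / (rr x / l) ^ 2) 1) x * ker s (x, y) = _
    by_cases hx : x ∈ A
    · rw [indicator_of_mem hx, indicator_of_mem hx]
      rfl
    · rw [indicator_of_notMem hx, indicator_of_notMem hx, zero_mul]
  have hsecI : ∀ x : E n, Integrable (fun y => F (x, y)) volume := by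
    intro x
    rw [hsec x]
    by_cases hx : x ∈ A
    · simp only [indicator_of_mem hx]
      have hρ : 0 < rr x / l := div_pos (rr_pos (hAB hx)) hl
      exact (scaled_kmin (n := n) hn hs hs1 hρ).1.comp_sub_left x
    · simp only [indicator_of_notMem hx]
      exact integrable_zero _ _ _
  have hsecV : ∀ x : E n, ∫ y, F (x, y) =
      (l ^ (2 * s) * K0) * A.indicator (fun x => rr x ^ (-(2 * s))) x := by
    intro x
    rw [hsec x]
    by_cases hx : x ∈ A
    · simp only [indicator_of_mem hx]
      have hr := rr_pos (hAB hx)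
      have hρ : 0 < rr x / l := div_pos hr hl
      have h1 := integral_sub_left_eq_self (fun h : E n =>
        min (‖h‖ ^ 2 / (rr x / l) ^ 2) 1 * ‖h‖ ^ (-((n : ℝ) + 2 * s))) volume x
      rw [h1, (scaled_kmin (n := n) hn hs hs1 hρ).2, Real.div_rpow hr.le hl.le,
        Real.rpow_neg hl.le]
      field_simp
      exact hK0.symm
    · simp only [indicator_of_notMem hx]
      simp
  have hFI : Integrable F (volume.prod volume) := by
    rw [integrable_prod_iff hFm.aestronglyMeasurable]
    refine ⟨Eventually.of_forall hsecI, ?_⟩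
    have : (fun x => ∫ y, ‖F (x, y)‖) = fun x =>
        (l ^ (2 * s) * K0) * A.indicator (fun x => rr x ^ (-(2 * s))) x := by
      funext x
      rw [← hsecV x]
      congr 1
      funext y
      exact Real.norm_of_nonneg (hF0 _)
    rw [this]
    exact hAi.const_mul _
  have hFV : ∫ p, F p ∂(volume.prod volume) =
      (l ^ (2 * s) * K0) * ∫ x, A.indicator (fun x => rr x ^ (-(2 * s))) x := by
    rw [integral_prod _ hFI]
    simp only [hsecV]
    rw [integral_const_mul]
  have hF2 := integrable_swap' hFI
  have hle : ∀ p : E n × E n, (u p.1 - u p.2) ^ 2 * ker s p ≤ F p + F p.swap := by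
    intro p
    have h1 := mul_le_mul_of_nonneg_right (hbd p.1 p.2) (ker_nonneg (s := s) p)
    have h2 : F p.swap = A.indicator (fun y => min (‖p.1 - y‖ ^ 2 / (rr y / l) ^ 2) 1) p.2 *
        ker s p := by
      show A.indicator (fun x => min (‖x - p.swap.2‖ ^ 2 / (rr x / l) ^ 2) 1) p.swap.1 *
        ker s p.swap = _
      rw [ker_swap, Prod.fst_swap, Prod.snd_swap]
      congr 2
      funext y
      rw [norm_sub_rev]
    rw [h2]
    calc _ ≤ _ := h1
      _ = _ := by ring
  have hI : Integrable (fun p : E n × E n => (u p.1 - u p.2) ^ 2 * ker s p)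
      (volume.prod volume) := by
    refine (hFI.add hF2).mono' ?_ (Eventually.of_forall fun p => ?_)
    · exact ((((hu.comp measurable_fst).sub (hu.comp measurable_snd)).pow_const 2).mul
        measurable_ker).aestronglyMeasurable
    · rw [Real.norm_of_nonneg (mul_nonneg (sq_nonneg _) (ker_nonneg p))]
      exact hle p
  refine ⟨hI, ?_⟩
  calc ∫ p : E n × E n, (u p.1 - u p.2) ^ 2 * ker s p ∂(volume.prod volume)
      ≤ ∫ p : E n × E n, (F p + F p.swap) ∂(volume.prod volume) :=
        integral_mono hI (hFI.add hF2) hle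
    _ = 2 * ∫ p, F p ∂(volume.prod volume) := by
        rw [integral_add hFI hF2, integral_swap']
        ring
    _ = _ := by rw [hFV]; ring

theorem smooth_lip : ∃ L : ℝ, 0 < L ∧ ∀ t t' : ℝ,
    |Real.smoothTransition t - Real.smoothTransition t'| ≤ L * |t - t'| := by
  let w : ℝ → ℝ := fun t => Real.smoothTransition t * Real.smoothTransition (3 - t)
  have hw : ContDiff ℝ 1 w :=
    (Real.smoothTransition.contDiff).mul
      ((Real.smoothTransition.contDiff).comp (contDiff_const.sub contDiff_id))
  have hc : HasCompactSupport w := by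
    refine HasCompactSupport.intro (isCompact_Icc (a := (0:ℝ)) (b := 3)) fun t ht => ?_
    show Real.smoothTransition t * Real.smoothTransition (3 - t) = 0
    by_cases h0 : t < 0
    · rw [Real.smoothTransition.zero_of_nonpos h0.le, zero_mul]
    · have : 3 < t := by
        by_contra h
        exact ht ⟨not_lt.1 h0, not_lt.1 h⟩
      rw [Real.smoothTransition.zero_of_nonpos (show 3 - t ≤ 0 by linarith), mul_zero]
  obtain ⟨L, hL⟩ := hw.lipschitzWith_of_hasCompactSupport hc one_ne_zero
  have hf : ∀ t : ℝ, Real.smoothTransition t = w (min t 2) := by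
    intro t
    show _ = Real.smoothTransition (min t 2) * Real.smoothTransition (3 - min t 2)
    have h3 : Real.smoothTransition (3 - min t 2) = 1 :=
      Real.smoothTransition.one_of_one_le (by linarith [min_le_right t 2])
    rw [h3, mul_one]
    rcases le_total t 2 with h | h
    · rw [min_eq_left h]
    · rw [min_eq_right h, Real.smoothTransition.one_of_one_le (by linarith),
        Real.smoothTransition.one_of_one_le (by norm_num)]
  refine ⟨L + 1, by positivity, fun t t' => ?_⟩
  rw [hf t, hf t']
  have h1 := hL.dist_le_mul (min t 2) (min t' 2)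
  rw [Real.dist_eq, Real.dist_eq] at h1
  have h2 : |min t 2 - min t' 2| ≤ |t - t'| := by
    have := abs_min_sub_min_le_max t 2 t' 2
    simpa using this
  refine h1.trans ?_
  have h3 : (0:ℝ) ≤ (L:ℝ) := L.coe_nonneg
  nlinarith [abs_nonneg (t - t'), abs_nonneg (min t 2 - min t' 2)]

/-- the cutoff -/
noncomputable def cut (k : ℝ) (x : E n) : ℝ := Real.smoothTransition (k * rr x - 1)

theorem rr_lip {x y : E n} (hx : x ∈ ball (0 : E n) 1) (hy : y ∈ ball (0 : E n) 1) :
    |rr x - rr y| ≤ 2 * ‖x - y‖ := by
  rw [mem_ball_zero_iff] at hx hy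
  have e : rr x - rr y = (‖y‖ + ‖x‖) * (‖y‖ - ‖x‖) := by unfold rr; ring
  rw [e, abs_mul, abs_of_nonneg (by positivity)]
  have h1 : |‖y‖ - ‖x‖| ≤ ‖x - y‖ := by
    rw [norm_sub_rev]
    exact abs_norm_sub_norm_le y x
  exact mul_le_mul (by linarith) h1 (abs_nonneg _) (by norm_num)

theorem rr_out {x y : E n} (hx : x ∈ ball (0 : E n) 1) (hy : y ∉ ball (0 : E n) 1) :
    rr x ≤ 2 * ‖x - y‖ := by
  rw [mem_ball_zero_iff] at hx hy
  have h1 : ‖y‖ ≤ ‖x‖ + ‖x - y‖ := by
    calc ‖y‖ = ‖x - (x - y)‖ := by congr 1; abel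
      _ ≤ _ := norm_sub_le _ _
  unfold rr
  nlinarith [norm_nonneg x, norm_nonneg (x - y)]

theorem cut_test {k : ℝ} (hk : 0 < k) : TestFun (ball (0 : E n) 1) (cut (n := n) k) := by
  have hsub : tsupport (cut (n := n) k) ⊆ {x : E n | 1 / k ≤ rr x} := by
    apply closure_minimal
    · intro x hx
      by_contra h
      have h1 : rr x < 1 / k := not_le.1 h
      apply hx
      show Real.smoothTransition (k * rr x - 1) = 0
      apply Real.smoothTransition.zero_of_nonpos
      rw [lt_div_iff₀ hk] at h1
      linarith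
    · apply isClosed_le continuous_const
      unfold rr
      fun_prop
  have hsub2 : {x : E n | 1 / k ≤ rr x} ⊆ ball (0 : E n) 1 := by
    intro x hx
    have h1 : 1 / k ≤ rr x := hx
    have h2 : 0 < 1 / k := by positivity
    rw [mem_ball_zero_iff]
    unfold rr at h1
    nlinarith [norm_nonneg x]
  refine ⟨?_, ?_, hsub.trans hsub2⟩
  · have h1 : ContDiff ℝ ((⊤ : ℕ∞) : WithTop ℕ∞) (fun x : E n => k * rr x - 1) := by
      unfold rr
      exact (contDiff_const.mul (contDiff_const.sub (contDiff_norm_sq ℝ))).sub contDiff_const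
    exact (Real.smoothTransition.contDiff).comp h1
  · apply HasCompactSupport.of_support_subset_isCompact (isCompact_closedBall (0 : E n) 1)
    exact (subset_tsupport _).trans ((hsub.trans hsub2).trans ball_subset_closedBall)

/-- The indicator of the ball is in the closure of the test functions when `s < 1/2`. -/
theorem one_mem (hn : 1 ≤ n) (hs : 0 < s) (hs2 : s < 1 / 2) :
    MemHt s (ball (0 : E n) 1) ((ball (0 : E n) 1).indicator (fun _ => (1:ℝ))) := by
  have hs1 : s < 1 := by linarith
  obtain ⟨L, hL, hlip⟩ := smooth_lip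
  set l : ℝ := 4 * L + 2 with hl
  have hlpos : 0 < l := by positivity
  set B : Set (E n) := ball (0 : E n) 1 with hB
  have hBm : MeasurableSet B := measurableSet_ball
  have hBfin : volume B ≠ ⊤ := measure_ball_lt_top.ne
  set χ : E n → ℝ := B.indicator (fun _ => (1:ℝ)) with hχ
  have hχm : Measurable χ := measurable_const.indicator hBm
  have hrm : Measurable (rr : E n → ℝ) := by unfold rr; fun_prop
  set C0 : ℝ := 2 * (l ^ (2 * s) * (∫ h : E n, kmin n s ‖h‖)) with hC0
  have hK0 : 0 ≤ ∫ h : E n, kmin n s ‖h‖ := integral_nonneg fun h => kmin_nonneg (norm_nonneg _)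
  have hC0n : 0 ≤ C0 := by positivity
  -- points outside
  have hout : ∀ x ∈ B, ∀ y ∉ B, 1 ≤ min (‖x - y‖ ^ 2 / (rr x / l) ^ 2) 1 := by
    intro x hx y hy
    apply le_min _ le_rfl
    have h1 := rr_out hx hy
    have h2 := rr_pos hx
    rw [le_div_iff₀ (by positivity), one_mul]
    apply pow_le_pow_left₀ (by positivity)
    rw [div_le_iff₀ hlpos]
    nlinarith [norm_nonneg (x - y)]
  have hMemχ : MemHs s χ := by
    refine ⟨memLp_indicator_const 2 hBm 1 (Or.inr hBfin), ?_⟩
    refine (energy_bound hn hs hs2 hlpos hBm le_rfl hχm fun x y => ?_).1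
    by_cases hx : x ∈ B
    · by_cases hy : y ∈ B
      · rw [hχ, indicator_of_mem hx, indicator_of_mem hy]
        simp only [sub_self, ne_eq, OfNat.ofNat_ne_zero, not_false_eq_true, zero_pow]
        exact add_nonneg (indicator_nonneg (fun _ _ => by positivity) _)
          (indicator_nonneg (fun _ _ => by positivity) _)
      · rw [hχ, indicator_of_mem hx, indicator_of_notMem hy, indicator_of_mem hx,
          indicator_of_notMem hy]
        have := hout x hx y hy
        linarith
    · by_cases hy : y ∈ B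
      · rw [hχ, indicator_of_notMem hx, indicator_of_mem hy, indicator_of_notMem hx,
          indicator_of_mem hy]
        have := hout y hy x hx
        rw [norm_sub_rev] at this
        linarith
      · rw [hχ, indicator_of_notMem hx, indicator_of_notMem hy, indicator_of_notMem hx,
          indicator_of_notMem hy]
        norm_num
  refine ⟨hMemχ, fun ε hε => ?_⟩
  -- the layers
  let A : ℕ → Set (E n) := fun k => {x | x ∈ B ∧ ((k:ℝ) + 1) * rr x ≤ 2}
  have hAm : ∀ k, MeasurableSet (A k) := fun k =>
    hBm.inter (measurableSet_le (hrm.const_mul ((k:ℝ) + 1)) measurable_const)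
  have hAB : ∀ k, A k ⊆ B := fun k x hx => hx.1
  let R : E n → ℝ := B.indicator (fun x => rr x ^ (-(2 * s)))
  have hRi : Integrable R volume := integrable_rr hn hs hs2
  have hlim : Tendsto (fun k : ℕ => ∫ x, (A k).indicator (fun x => rr x ^ (-(2 * s))) x) atTop
      (𝓝 0) := by
    have h0 : ∫ x : E n, (0:ℝ) = 0 := integral_zero _ _
    rw [← h0]
    apply tendsto_integral_of_dominated_convergence R
    · intro k
      exact ((hrm.pow_const _).indicator (hAm k)).aestronglyMeasurable
    · exact hRi
    · intro k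
      refine Eventually.of_forall fun x => ?_
      by_cases hx : x ∈ A k
      · have hxB := hAB k hx
        have := rr_pos hxB
        rw [indicator_of_mem hx, Real.norm_of_nonneg (by positivity)]
        have hR : R x = rr x ^ (-(2 * s)) := indicator_of_mem hxB _
        rw [hR]
      · rw [indicator_of_notMem hx, norm_zero]
        exact indicator_nonneg (fun x hx => by have := rr_pos hx; positivity) _
    · refine Eventually.of_forall fun x => ?_
      apply tendsto_const_nhds.congr'
      by_cases hx : x ∈ B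
      · have hr := rr_pos hx
        obtain ⟨N, hN⟩ := exists_nat_gt (2 / rr x)
        filter_upwards [eventually_ge_atTop N] with k hk
        show (0:ℝ) = (A k).indicator (fun x => rr x ^ (-(2 * s))) x
        rw [indicator_of_notMem]
        intro h
        have h2 := h.2
        rw [div_lt_iff₀ hr] at hN
        have h3 : (N:ℝ) ≤ k := by exact_mod_cast hk
        nlinarith
      · refine Eventually.of_forall fun k => ?_
        show (0:ℝ) = (A k).indicator (fun x => rr x ^ (-(2 * s))) x
        rw [indicator_of_notMem]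
        intro h
        exact hx h.1
  have hlim2 : Tendsto (fun k : ℕ => (1 + C0) *
      ∫ x, (A k).indicator (fun x => rr x ^ (-(2 * s))) x) atTop (𝓝 0) := by
    have := hlim.const_mul (1 + C0)
    rwa [mul_zero] at this
  obtain ⟨k, hk⟩ := (hlim2.eventually (gt_mem_nhds hε)).exists
  have hkpos : 0 < (k:ℝ) + 1 := by positivity
  refine ⟨cut ((k:ℝ) + 1), cut_test hkpos, lt_of_le_of_lt ?_ hk⟩
  set u : E n → ℝ := fun x => χ x - cut ((k:ℝ) + 1) x with hu
  have hcm : Measurable (cut (n := n) ((k:ℝ) + 1)) :=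
    (cut_test (n := n) hkpos).1.continuous.measurable
  have hum : Measurable u := hχm.sub hcm
  -- values of `u`
  have u0 : ∀ x, x ∉ A k → u x = 0 := by
    intro x hx
    by_cases hxB : x ∈ B
    · have h1 : 2 < ((k:ℝ) + 1) * rr x := by
        by_contra h
        exact hx ⟨hxB, not_lt.1 h⟩
      show χ x - Real.smoothTransition (((k:ℝ) + 1) * rr x - 1) = 0
      rw [hχ, indicator_of_mem hxB, Real.smoothTransition.one_of_one_le (by linarith), sub_self]
    · have h1 : cut ((k:ℝ) + 1) x = 0 :=
        image_eq_zero_of_notMem_tsupport fun h => hxB ((cut_test hkpos).2.2 h)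
      show χ x - cut ((k:ℝ) + 1) x = 0
      rw [hχ, indicator_of_notMem hxB, h1, sub_zero]
  have u1 : ∀ x, u x ^ 2 ≤ 1 := by
    intro x
    by_cases hxA : x ∈ A k
    · have h1 := Real.smoothTransition.nonneg (((k:ℝ) + 1) * rr x - 1)
      have h2 := Real.smoothTransition.le_one (((k:ℝ) + 1) * rr x - 1)
      have h3 : u x = 1 - Real.smoothTransition (((k:ℝ) + 1) * rr x - 1) := by
        show χ x - _ = _
        rw [hχ, indicator_of_mem (hAB k hxA)]
        rfl
      rw [h3]
      nlinarith
    · rw [u0 x hxA]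
      norm_num
  have uin : ∀ x ∈ A k, ∀ y, (u x - u y) ^ 2 ≤ min (‖x - y‖ ^ 2 / (rr x / l) ^ 2) 1 := by
    intro x hx y
    have hxB := hAB k hx
    have hr := rr_pos hxB
    by_cases hy : y ∈ B
    · have e : u x - u y = Real.smoothTransition (((k:ℝ) + 1) * rr y - 1) -
          Real.smoothTransition (((k:ℝ) + 1) * rr x - 1) := by
        show (χ x - cut ((k:ℝ) + 1) x) - (χ y - cut ((k:ℝ) + 1) y) = _
        rw [hχ, indicator_of_mem hxB, indicator_of_mem hy]
        unfold cut
        ring
      rw [e]
      apply le_min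
      · have h1 := hlip (((k:ℝ) + 1) * rr y - 1) (((k:ℝ) + 1) * rr x - 1)
        have h2 : |((k:ℝ) + 1) * rr y - 1 - (((k:ℝ) + 1) * rr x - 1)| =
            ((k:ℝ) + 1) * |rr x - rr y| := by
          rw [show ((k:ℝ) + 1) * rr y - 1 - (((k:ℝ) + 1) * rr x - 1) =
            ((k:ℝ) + 1) * (rr y - rr x) by ring, abs_mul, abs_of_pos hkpos, abs_sub_comm]
        have h3 := rr_lip hxB hy
        have h4 : (k:ℝ) + 1 ≤ 2 / rr x := by
          rw [le_div_iff₀ hr]
          exact hx.2
        rw [h2] at h1
        have h5 : L * (((k:ℝ) + 1) * |rr x - rr y|) ≤ ‖x - y‖ / (rr x / l) := by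
          calc L * (((k:ℝ) + 1) * |rr x - rr y|) ≤ L * ((2 / rr x) * (2 * ‖x - y‖)) := by
                gcongr
            _ = (4 * L) * ‖x - y‖ / rr x := by
                field_simp
                ring
            _ ≤ l * ‖x - y‖ / rr x := by
                gcongr
                linarith
            _ = _ := by
                field_simp
        rw [← sq_abs, ← div_pow]
        exact pow_le_pow_left₀ (abs_nonneg _) (h1.trans h5) 2
      · have h1 := Real.smoothTransition.nonneg (((k:ℝ) + 1) * rr x - 1)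
        have h2 := Real.smoothTransition.le_one (((k:ℝ) + 1) * rr x - 1)
        have h3 := Real.smoothTransition.nonneg (((k:ℝ) + 1) * rr y - 1)
        have h4 := Real.smoothTransition.le_one (((k:ℝ) + 1) * rr y - 1)
        nlinarith
    · have hyA : y ∉ A k := fun h => hy (hAB k h)
      rw [u0 y hyA, sub_zero]
      exact (u1 x).trans (hout x hxB y hy)
  have hbd : ∀ x y, (u x - u y) ^ 2 ≤
      (A k).indicator (fun x => min (‖x - y‖ ^ 2 / (rr x / l) ^ 2) 1) x +
      (A k).indicator (fun y => min (‖x - y‖ ^ 2 / (rr y / l) ^ 2) 1) y := by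
    intro x y
    have n1 : 0 ≤ (A k).indicator (fun x => min (‖x - y‖ ^ 2 / (rr x / l) ^ 2) 1) x :=
      indicator_nonneg (fun _ _ => by positivity) _
    have n2 : 0 ≤ (A k).indicator (fun y => min (‖x - y‖ ^ 2 / (rr y / l) ^ 2) 1) y :=
      indicator_nonneg (fun _ _ => by positivity) _
    by_cases hx : x ∈ A k
    · have h1 := uin x hx y
      rw [indicator_of_mem hx]
      linarith
    · by_cases hy : y ∈ A k
      · have h1 := uin y hy x
        rw [norm_sub_rev] at h1
        have h2 : (u x - u y) ^ 2 = (u y - u x) ^ 2 := by ring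
        rw [h2, indicator_of_mem hy]
        linarith
      · rw [u0 x hx, u0 y hy]
        simp only [sub_self, ne_eq, OfNat.ofNat_ne_zero, not_false_eq_true, zero_pow]
        linarith
  have hE := (energy_bound hn hs hs2 hlpos (hAm k) (hAB k) hum hbd).2
  have hAi : Integrable ((A k).indicator (fun x => rr x ^ (-(2 * s)))) volume := by
    have h1 := hRi.indicator (hAm k)
    show Integrable ((A k).indicator (fun x => rr x ^ (-(2 * s)))) volume
    have h2 : (A k).indicator R = (A k).indicator (fun x => rr x ^ (-(2 * s))) := by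
      show (A k).indicator (B.indicator (fun x => rr x ^ (-(2 * s)))) = _
      rw [indicator_indicator, inter_eq_left.2 (hAB k)]
    rwa [h2] at h1
  have hL2 : ∫ x, u x ^ 2 ≤ ∫ x, (A k).indicator (fun x => rr x ^ (-(2 * s))) x := by
    apply integral_mono_of_nonneg (Eventually.of_forall fun x => sq_nonneg _) hAi
    refine Eventually.of_forall fun x => ?_
    show u x ^ 2 ≤ _
    by_cases hx : x ∈ A k
    · rw [indicator_of_mem hx]
      refine (u1 x).trans ?_
      exact Real.one_le_rpow_of_pos_of_le_one_of_nonpos (rr_pos (hAB k hx)) (rr_le_one x)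
        (by linarith)
    · rw [indicator_of_notMem hx, u0 x hx]
      norm_num
  show (∫ x, u x ^ 2) + ∫ p, (u p.1 - u p.2) ^ 2 * ker s p ∂(volume.prod volume) ≤ _
  calc _ ≤ (∫ x, (A k).indicator (fun x => rr x ^ (-(2 * s))) x) +
      C0 * ∫ x, (A k).indicator (fun x => rr x ^ (-(2 * s))) x := add_le_add hL2 hE
    _ = _ := by ring

end Pool.Agent.R212.PD
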