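import Pool.Agent.H305R3.FCDefs

set_option autoImplicit false

open MeasureTheory Set

/-!
Definitions for the partial data problem of the fractional conductivity equation
(the basic notions `Elliptic`, `BddOneDir`, `TestFun`, `MemHt`, `IsSol`, `Bform` are in
`Pool.Agent.H305R3.FCDefs`).
-/

namespace Pool.Agent.R212.PD

open Pool.Agent.H305R3.FC

/-- A uniformly elliptic conductivity whose background deviation `m_γ = γ^(1/2) - 1` lies in
`L^(n/s)(ℝ^n)`. Since `H^(s,n/s)(ℝ^n) ⊆ L^(n/s)(ℝ^n)`, every admissible conductivity of the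
problem has this property. -/
def Admis {n : ℕ} (s : ℝ) (γ : EuclideanSpace ℝ (Fin n) → ℝ) : Prop :=
  Elliptic γ ∧ MemLp (fun x => √(γ x) - 1) (ENNReal.ofReal ((n : ℝ) / s)) volume

/-- The partial exterior data of `γ₁` and `γ₂` coincide:
`⟨Λ_{γ₁} f, g⟩ = ⟨Λ_{γ₂} f, g⟩` for all `f ∈ C_c^∞(W₁)` and `g ∈ C_c^∞(W₂)`. -/
def SameData {n : ℕ} (s : ℝ) (Ω W₁ W₂ : Set (EuclideanSpace ℝ (Fin n)))
    (γ₁ γ₂ : EuclideanSpace ℝ (Fin n) → ℝ) : Prop :=
  ∀ f g, TestFun W₁ f → TestFun W₂ g → ∀ u₁ u₂, IsSol s Ω γ₁ f u₁ → IsSol s Ω γ₂ f u₂ →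
    Bform s γ₁ u₁ g = Bform s γ₂ u₂ g

end Pool.Agent.R212.PD
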