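import Pool.Agent.R212.PD7
import Pool.Agent.R212.PD8
import Pool.Agent.R212.PDDefs

set_option autoImplicit false
set_option maxHeartbeats 4000000

open Set Filter Topology Metric MeasureTheory
open Pool.Agent.H305R3.FC

namespace Pool.Agent.R212.PD

variable {n : ℕ} {s : ℝ}

/-- the first coordinate direction -/
noncomputable def e1 (n : ℕ) : E (n + 2) := EuclideanSpace.single 0 1

theorem e1_inner (x : E (n + 2)) : inner ℝ (e1 n) x = x 0 := by
  unfold e1
  rw [EuclideanSpace.inner_single_left]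
  simp

theorem e1_norm : ‖e1 n‖ = 1 := by
  unfold e1
  rw [PiLp.norm_single]
  simp

theorem e1_zero : (e1 n) 0 = 1 := by
  unfold e1
  simp

/-- existence of a nonzero orthogonal vector -/
theorem exists_orth (x : E (n + 2)) : ∃ e : E (n + 2), e ≠ 0 ∧ inner ℝ x e = 0 := by
  by_cases h : x 0 = 0
  · refine ⟨e1 n, ?_, ?_⟩
    · intro h0
      have := e1_norm (n := n)
      rw [h0, norm_zero] at this
      exact zero_ne_one this
    · rw [real_inner_comm, e1_inner, h]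
  · refine ⟨(x 1) • e1 n - (x 0) • (EuclideanSpace.single 1 1 : E (n + 2)), ?_, ?_⟩
    · intro h0
      have h1 := congrArg (fun z : E (n + 2) => z 1) h0
      simp [e1] at h1
      exact h h1
    · rw [inner_sub_right, inner_smul_right, inner_smul_right, real_inner_comm, e1_inner,
        real_inner_comm, EuclideanSpace.inner_single_left]
      simp
      ring

/-- visibility for the unit ball -/
theorem vis_ball {x : E (n + 2)} (hx : 1 < ‖x‖) {σ : ℝ} (hσ : σ * σ = 1) :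
    Vis (ball (0 : E (n + 2)) 1) {z | 1 < ‖z‖ ∧ 0 < σ * z 0} x := by
  obtain ⟨e0, he0, hxe0⟩ := exists_orth x
  have hc : Continuous fun α : ℝ => (‖x‖ ^ 2 - 1) * ‖e0 + α • e1 n‖ ^ 2 -
      (inner ℝ x (e0 + α • e1 n)) ^ 2 := by fun_prop
  have hpos : 0 < (‖x‖ ^ 2 - 1) * ‖e0 + (0:ℝ) • e1 n‖ ^ 2 -
      (inner ℝ x (e0 + (0:ℝ) • e1 n)) ^ 2 := by
    rw [zero_smul, add_zero, hxe0]
    have h1 : 0 < ‖e0‖ := norm_pos_iff.2 he0
    have h2 : 0 < ‖x‖ ^ 2 - 1 := by nlinarith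
    have := mul_pos h2 (pow_pos h1 2)
    simpa using this
  have ev1 : ∀ᶠ α : ℝ in 𝓝[>] 0, 0 < (‖x‖ ^ 2 - 1) * ‖e0 + α • e1 n‖ ^ 2 -
      (inner ℝ x (e0 + α • e1 n)) ^ 2 :=
    nhdsWithin_le_nhds (hc.continuousAt.eventually (lt_mem_nhds hpos))
  have ev2 := ev_ne (e0 0)
  obtain ⟨α, hα1, hα2⟩ := (ev1.and ev2).exists
  set e : E (n + 2) := e0 + α • e1 n with he
  have hez : e 0 ≠ 0 := by
    have : e 0 = e0 0 + α := by
      rw [he]
      simp [e1]
    rw [this]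
    exact hα2
  have hene : e ≠ 0 := by
    intro h
    rw [h] at hez
    exact hez rfl
  have hen : 0 < ‖e‖ ^ 2 := pow_pos (norm_pos_iff.2 hene) 2
  set κ : ℝ := (‖e‖ ^ 2 * ‖x‖ ^ 2 - (inner ℝ x e) ^ 2) / ‖e‖ ^ 2 with hκ
  have hκ1 : 1 < κ := by
    rw [hκ, lt_div_iff₀ hen]
    nlinarith
  have hline : ∀ t : ℝ, κ ≤ ‖x + t • e‖ ^ 2 := by
    intro t
    rw [hκ, div_le_iff₀ hen, norm_add_sq_real x (t • e), inner_smul_right, norm_smul, mul_pow,
      Real.norm_eq_abs, sq_abs]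
    nlinarith [sq_nonneg (t * ‖e‖ ^ 2 + inner ℝ x e)]
  have hsq : 1 < √κ := by
    rw [Real.lt_sqrt (by norm_num)]
    simpa using hκ1
  have hline2 : ∀ t : ℝ, √κ ≤ ‖x + t • e‖ := fun t => by
    rw [Real.sqrt_le_left (norm_nonneg _)]
    exact hline t
  obtain ⟨η0, hη0, heη0⟩ := exists_orth e
  have hηn : 0 < ‖η0‖ := norm_pos_iff.2 hη0
  refine ⟨e, ‖η0‖⁻¹ • η0, √κ - 1, (σ - x 0) / e 0, by linarith, ?_, ?_, ?_, ?_, ?_⟩
  · rw [norm_smul, norm_inv, norm_norm, inv_mul_cancel₀ hηn.ne']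
  · rw [inner_smul_right, heη0, mul_zero]
  · intro z hz t
    rw [mem_ball_zero_iff] at hz
    have h1 := hline2 t
    have h2 : ‖x + t • e‖ ≤ ‖x + t • e - z‖ + ‖z‖ := by
      calc ‖x + t • e‖ = ‖(x + t • e - z) + z‖ := by congr 1; abel
        _ ≤ _ := norm_add_le _ _
    linarith
  · exact lt_of_lt_of_le hsq (hline2 _)
  · have h1 : (x + ((σ - x 0) / e 0) • e) 0 = σ := by
      show x 0 + ((σ - x 0) / e 0) * e 0 = σ
      rw [div_mul_cancel₀ _ hez]
      ring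
    rw [h1, hσ]
    exact one_pos

/-- half of the exterior of the ball -/
def Wp (n : ℕ) (σ : ℝ) : Set (E (n + 2)) := {z | 1 < ‖z‖ ∧ 0 < σ * z 0}

theorem Wp_open (σ : ℝ) : IsOpen (Wp n σ) := by
  have h1 : Continuous fun z : E (n + 2) => σ * z 0 := by fun_prop
  exact (isOpen_lt continuous_const continuous_norm).inter (isOpen_lt continuous_const h1)

theorem Wp_sub (σ : ℝ) : Wp n σ ⊆ (closure (ball (0 : E (n + 2)) 1))ᶜ := by
  intro z hz
  rw [closure_ball _ one_ne_zero, mem_compl_iff, mem_closedBall_zero_iff, not_le]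
  exact hz.1

theorem hyper_null : volume {x : E (n + 2) | x 0 = 0} = 0 := by
  have h := Measure.addHaar_submodule (volume : Measure (E (n + 2))) ((ℝ ∙ (e1 n))ᗮ) (by
    intro h
    have h1 : e1 n ∈ (ℝ ∙ (e1 n))ᗮ := by rw [h]; exact Submodule.mem_top
    rw [Submodule.mem_orthogonal_singleton_iff_inner_right, e1_inner, e1_zero] at h1
    exact one_ne_zero h1)
  refine measure_mono_null ?_ h
  intro x hx
  have hx' : x 0 = 0 := hx
  show x ∈ (ℝ ∙ (e1 n))ᗮ
  rw [Submodule.mem_orthogonal_singleton_iff_inner_right, e1_inner, hx']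

theorem Wp_null : ∀ᵐ x ∂(volume : Measure (E (n + 2))), x ∉ ball (0 : E (n + 2)) 1 →
    x ∈ Wp n 1 ∪ Wp n (-1) := by
  have h1 : volume (sphere (0 : E (n + 2)) 1) = 0 := Measure.addHaar_sphere volume 0 1
  have h2 := hyper_null (n := n)
  have h3 : ∀ᵐ x ∂(volume : Measure (E (n + 2))), x ∉ sphere (0 : E (n + 2)) 1 :=
    measure_eq_zero_iff_ae_notMem.1 h1
  have h4 : ∀ᵐ x ∂(volume : Measure (E (n + 2))), x ∉ {x : E (n + 2) | x 0 = 0} :=
    measure_eq_zero_iff_ae_notMem.1 h2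
  filter_upwards [h3, h4] with x hx1 hx2 hx3
  rw [mem_ball_zero_iff, not_lt] at hx3
  rw [mem_sphere_zero_iff_norm] at hx1
  have h5 : 1 < ‖x‖ := lt_of_le_of_ne hx3 (Ne.symm hx1)
  have h6 : x 0 ≠ 0 := hx2
  rcases lt_or_gt_of_ne h6 with h | h
  · right
    exact ⟨h5, by linarith⟩
  · left
    exact ⟨h5, by linarith⟩

theorem Wp_inf : volume (Wp n 1) = ⊤ := by
  set H : Set (E (n + 2)) := {x | 0 < x 0} with hH
  have hS : ∀ k : ℕ, volume {x : E (n + 2) | -(k:ℝ) < x 0} = volume H := by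
    intro k
    have h := measure_preimage_add (volume : Measure (E (n + 2))) ((k:ℝ) • e1 n) H
    rw [← h]
    congr 1
    ext x
    show -(k:ℝ) < x 0 ↔ 0 < ((k:ℝ) • e1 n + x) 0
    have h1 : ((k:ℝ) • e1 n + x) 0 = k + x 0 := by
      simp [e1]
    rw [h1]
    constructor <;> intro h <;> linarith
  have hU : (⋃ k : ℕ, {x : E (n + 2) | -(k:ℝ) < x 0}) = univ := by
    rw [eq_univ_iff_forall]
    intro x
    obtain ⟨k, hk⟩ := exists_nat_gt (-(x 0))
    rw [mem_iUnion]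
    exact ⟨k, by show -(k:ℝ) < x 0; linarith⟩
  have hmono : Monotone fun k : ℕ => {x : E (n + 2) | -(k:ℝ) < x 0} := by
    intro i j hij x hx
    have h1 : -(i:ℝ) < x 0 := hx
    have h2 : (i:ℝ) ≤ j := by exact_mod_cast hij
    show -(j:ℝ) < x 0
    linarith
  have h1 := hmono.measure_iUnion (μ := (volume : Measure (E (n + 2))))
  rw [hU] at h1
  simp only [hS] at h1
  rw [ciSup_const] at h1
  have h2 : volume (univ : Set (E (n + 2))) = ⊤ := measure_univ_of_isAddLeftInvariant volume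
  rw [h2] at h1
  have h3 : H ⊆ Wp n 1 ∪ closedBall (0 : E (n + 2)) 1 := by
    intro x hx
    have hx0 : 0 < x 0 := hx
    by_cases h : 1 < ‖x‖
    · left
      exact ⟨h, by linarith⟩
    · right
      rw [mem_closedBall_zero_iff]
      exact not_lt.1 h
  have h4 : (⊤ : ENNReal) ≤ volume (Wp n 1) + volume (closedBall (0 : E (n + 2)) 1) := by
    rw [h1]
    exact (measure_mono h3).trans (measure_union_le _ _)
  have h5 : volume (closedBall (0 : E (n + 2)) 1) ≠ ⊤ := measure_closedBall_lt_top.ne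
  rw [top_le_iff, ENNReal.add_eq_top] at h4
  exact h4.resolve_right h5

theorem ball_bdd : BddOneDir (ball (0 : E (n + 2)) 1) := by
  refine ⟨e1 n, 0, 1, e1_norm, one_pos, fun x hx => ?_⟩
  rw [mem_ball_zero_iff] at hx
  rw [sub_zero]
  have := abs_real_inner_le_norm (e1 n) x
  rw [e1_norm, one_mul] at this
  linarith

theorem ball_dom (hs : 0 < s) (hs2 : s < 1 / 2) : Dom (n + 2) s (ball (0 : E (n + 2)) 1) :=
  ⟨by omega, hs, by linarith, measurableSet_ball, measure_ball_lt_top, ball_bdd⟩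

/-- Uniqueness for the touching pair. -/
theorem uniq (hs : 0 < s) (hs2 : s < 1 / 2) {γ₁ γ₂ : E (n + 2) → ℝ} (g1 : Admis s γ₁)
    (g2 : Admis s γ₂)
    (hD : SameData s (ball (0 : E (n + 2)) 1) (Wp n 1) (Wp n (-1)) γ₁ γ₂) :
    γ₁ =ᵐ[volume] γ₂ := by
  have hs1 : s < 1 := by linarith
  obtain ⟨a1, m1, M1, ha1, hae1⟩ := exists_wt g1.1
  obtain ⟨a2, m2, M2, ha2, hae2⟩ := exists_wt g2.1
  have ha1' : Wt a1 (min m1 m2) (max M1 M2) :=
    ha1.mono (lt_min ha1.pos ha2.pos) (min_le_left _ _) (le_max_left _ _)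
  have ha2' : Wt a2 (min m1 m2) (max M1 M2) :=
    ha2.mono (lt_min ha1.pos ha2.pos) (min_le_right _ _) (le_max_right _ _)
  have hc := fracConst_ne (n := n + 2) hs hs1
  have D := ball_dom (n := n) hs hs2
  have hsol : ∀ {γ a : E (n + 2) → ℝ},
      (∀ᵐ x ∂(volume : Measure (E (n + 2))), √(γ x) = a x) →
      ∀ {f v : E (n + 2) → ℝ}, MemHs s f → Corr s (ball (0 : E (n + 2)) 1) a f v →
        IsSol s (ball (0 : E (n + 2)) 1) γ f (fun x => f x + v x) := by
    intro γ a hae f v hf hv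
    refine ⟨hf.add hv.ht.1, ?_, fun φ hφ => ?_⟩
    · have : (fun x => (f x + v x) - f x) = v := by
        funext x
        ring
      rw [this]
      exact hv.ht
    · rw [Bform_eq hae, hv.eq φ hφ, mul_zero]
  have hDN' : DN2 s (ball (0 : E (n + 2)) 1) (Wp n 1) (Wp n (-1)) a1 a2 := by
    intro f g hf hg v1 v2 hv1 hv2
    have hfH := hf.memHs D.hn hs hs1
    have := hD f g hf hg _ _ (hsol hae1 hfH hv1) (hsol hae2 hfH hv2)
    rw [Bform_eq hae1, Bform_eq hae2] at this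
    exact mul_left_cancel₀ (div_ne_zero hc two_ne_zero) this
  have hq0 : ENNReal.ofReal (((n + 2 : ℕ) : ℝ) / s) ≠ 0 := by
    rw [ne_eq, ENNReal.ofReal_eq_zero, not_le]
    positivity
  have hL1 : MemLp (fun x => a1 x - 1) (ENNReal.ofReal (((n + 2 : ℕ) : ℝ) / s)) volume := by
    refine g1.2.ae_eq ?_
    filter_upwards [hae1] with x hx
    rw [hx]
  have hL2 : MemLp (fun x => a2 x - 1) (ENNReal.ofReal (((n + 2 : ℕ) : ℝ) / s)) volume := by
    refine g2.2.ae_eq ?_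
    filter_upwards [hae2] with x hx
    rw [hx]
  have hfin := weights D (by omega) ha1' ha2' (Wp_sub 1) (Wp_sub (-1)) (Wp_open 1) (Wp_open (-1))
    (fun x hx hx2 => by
      have h1 := hx.2
      have h2 := hx2.2
      linarith)
    ⟨(-2:ℝ) • e1 n, by
      constructor
      · rw [norm_smul, e1_norm]
        norm_num
      · have : ((-2:ℝ) • e1 n) 0 = -2 := by simp [e1]
        rw [this]
        norm_num⟩
    (fun x hx => vis_ball hx.1 (by norm_num)) (fun x hx => vis_ball hx.1 (by norm_num))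
    Wp_inf Wp_null (one_mem D.hn hs hs2) hq0 ENNReal.ofReal_ne_top hL1 hL2 hDN'
  obtain ⟨-, c1, d1, hc1, -, hb1⟩ := g1.1
  obtain ⟨-, c2, d2, hc2, -, hb2⟩ := g2.1
  filter_upwards [hfin, hae1, hae2, hb1, hb2] with x e0 e1 e2 e3 e4
  rw [← e1, ← e2] at e0
  exact (Real.sqrt_inj (hc1.le.trans e3.1) (hc2.le.trans e4.1)).1 e0

/-- the pair touches the ball -/
theorem touch {ε : ℝ} (hε : 0 < ε) :
    ∃ x ∈ Wp n 1 ∪ Wp n (-1), ∃ y ∈ ball (0 : E (n + 2)) 1, dist x y < ε := by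
  set δ : ℝ := min (ε / 4) (1 / 2) with hδ
  have hδ0 : 0 < δ := by positivity
  have hδ1 : δ ≤ ε / 4 := min_le_left _ _
  have hδ2 : δ ≤ 1 / 2 := min_le_right _ _
  refine ⟨(1 + δ) • e1 n, Or.inl ⟨?_, ?_⟩, (1 - δ) • e1 n, ?_, ?_⟩
  · rw [norm_smul, e1_norm, mul_one, Real.norm_of_nonneg (by positivity)]
    linarith
  · have : ((1 + δ) • e1 n) 0 = 1 + δ := by simp [e1]
    rw [this]
    linarith
  · rw [mem_ball_zero_iff, norm_smul, e1_norm, mul_one, Real.norm_of_nonneg (by linarith)]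
    linarith
  · rw [dist_eq_norm, ← sub_smul, norm_smul, e1_norm, mul_one,
      Real.norm_of_nonneg (by linarith)]
    linarith

end Pool.Agent.R212.PD
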