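import Mathlib

open MeasureTheory Set Filter Function
open scoped Topology ContDiff ENNReal

namespace Pool.Agent.R212

/-- The half-open unit cube `(0,1]^n`, a fundamental domain of the torus `ℝ^n/ℤ^n`. -/
def cube (n : ℕ) : Set (Fin n → ℝ) := Set.pi univ fun _ => Ioc (0 : ℝ) 1

/-- Lebesgue measure on the unit cube: the normalised Haar measure of the torus. -/
noncomputable def cubeMeasure (n : ℕ) : Measure (Fin n → ℝ) := volume.restrict (cube n)

lemma cube_meas (n : ℕ) : MeasurableSet (cube n) :=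
  MeasurableSet.univ_pi fun _ => measurableSet_Ioc

instance (n : ℕ) : IsProbabilityMeasure (cubeMeasure n) := by
  constructor
  rw [cubeMeasure, Measure.restrict_apply_univ]
  unfold cube
  rw [Real.volume_pi_Ioc]
  simp

/-- closed cube -/
def ccube (n : ℕ) : Set (Fin n → ℝ) := Set.pi univ fun _ => Icc (0 : ℝ) 1

lemma cube_sub (n : ℕ) : cube n ⊆ ccube n := fun _ hx i hi => Ioc_subset_Icc_self (hx i hi)

lemma ccube_compact (n : ℕ) : IsCompact (ccube n) := isCompact_univ_pi fun _ => isCompact_Icc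

lemma ae_cube (n : ℕ) : ∀ᵐ x ∂(cubeMeasure n), x ∈ cube n := ae_restrict_mem (cube_meas n)

/-- standard basis vector -/
noncomputable def bv {n : ℕ} (i : Fin n) : Fin n → ℝ := Pi.single i 1

/-- Fubini in the coordinate `i`. -/
lemma int_fub {n : ℕ} (i : Fin (n + 1)) {F : (Fin (n + 1) → ℝ) → ℝ}
    (hF : Integrable F (cubeMeasure (n + 1))) :
    ∫ x, F x ∂(cubeMeasure (n + 1)) =
      ∫ y, (∫ a in (0 : ℝ)..1, F (i.insertNth a y)) ∂(cubeMeasure n) := by
  set e := MeasurableEquiv.piFinSuccAbove (fun _ : Fin (n + 1) => ℝ) i with he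
  have hmp : MeasurePreserving e volume (volume : Measure (ℝ × (Fin n → ℝ))) :=
    volume_preserving_piFinSuccAbove (fun _ : Fin (n + 1) => ℝ) i
  have hs : MeasurableSet ((Ioc (0 : ℝ) 1) ×ˢ (cube n)) := measurableSet_Ioc.prod (cube_meas n)
  have hpre : e ⁻¹' ((Ioc (0 : ℝ) 1) ×ˢ (cube n)) = cube (n + 1) := by
    ext x
    simp only [Set.mem_preimage, Set.mem_prod, cube, Set.mem_pi, Set.mem_univ, true_imp_iff]
    constructor
    · rintro ⟨h1, h2⟩ k
      rcases Fin.eq_self_or_eq_succAbove i k with h | ⟨j, h⟩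
      · rw [h]; exact h1
      · rw [h]; exact h2 j
    · intro h
      exact ⟨h i, fun j => h _⟩
  have hmp2 := hmp.restrict_preimage hs
  rw [hpre] at hmp2
  have hsymm : ∀ p : ℝ × (Fin n → ℝ), e.symm p = i.insertNth p.1 p.2 := fun p => rfl
  have h1 : ∫ x, F x ∂(cubeMeasure (n + 1)) =
      ∫ p, F (e.symm p) ∂(volume.restrict ((Ioc (0 : ℝ) 1) ×ˢ (cube n))) := by
    rw [← hmp2.integral_comp e.measurableEmbedding (fun p => F (e.symm p))]
    simp [cubeMeasure]
  have hint : Integrable (fun p => F (e.symm p))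
      (volume.restrict ((Ioc (0 : ℝ) 1) ×ˢ (cube n))) := by
    rw [← hmp2.integrable_comp_emb e.measurableEmbedding]
    simpa [Function.comp_def, cubeMeasure] using hF
  have hprod : (volume.restrict ((Ioc (0 : ℝ) 1) ×ˢ (cube n)) : Measure (ℝ × (Fin n → ℝ)))
      = (volume.restrict (Ioc (0 : ℝ) 1)).prod (cubeMeasure n) := by
    rw [cubeMeasure, Measure.prod_restrict]
    rfl
  rw [h1, hprod]
  rw [hprod] at hint
  rw [integral_prod_symm _ hint]
  apply integral_congr_ae
  filter_upwards with y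
  rw [intervalIntegral.integral_of_le zero_le_one]
  rfl

lemma insertNth_add_bv {n : ℕ} (i : Fin (n + 1)) (a c : ℝ) (y : Fin n → ℝ) :
    (i.insertNth a y : Fin (n + 1) → ℝ) + c • bv i = i.insertNth (a + c) y := by
  ext k
  rcases Fin.eq_self_or_eq_succAbove i k with h | ⟨j, h⟩
  · subst h
    simp [bv]
  · subst h
    simp [bv, Fin.succAbove_ne]

/-- periodicity (period one in every coordinate) -/
def Per {n : ℕ} {α : Type*} (F : (Fin n → ℝ) → α) : Prop := ∀ i x, F (x + bv i) = F x

lemma bounded_integrable {n : ℕ} {F : (Fin n → ℝ) → ℝ} (hm : Measurable F) {C : ℝ}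
    (hb : ∀ x ∈ cube n, |F x| ≤ C) : Integrable F (cubeMeasure n) := by
  refine Integrable.of_bound (C := C) hm.aestronglyMeasurable ?_
  filter_upwards [ae_cube n] with x hx
  exact hb x hx

lemma cont_bounded {n : ℕ} {F : (Fin n → ℝ) → ℝ} (hF : Continuous F) :
    ∃ C, 0 ≤ C ∧ ∀ x ∈ cube n, |F x| ≤ C := by
  obtain ⟨C, hC⟩ := (ccube_compact n).exists_bound_of_continuousOn hF.continuousOn
  exact ⟨max C 0, le_max_right _ _, fun x hx => (hC x (cube_sub n hx)).trans (le_max_left _ _)⟩

lemma cont_integrable {n : ℕ} {F : (Fin n → ℝ) → ℝ} (hF : Continuous F) :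
    Integrable F (cubeMeasure n) := by
  obtain ⟨C, _, hC⟩ := cont_bounded hF
  exact bounded_integrable hF.measurable hC

/-- Shear invariance of the integral over the torus. -/
lemma shear_inv {n : ℕ} (i : Fin (n + 1)) {F : (Fin (n + 1) → ℝ) → ℝ} {h : (Fin (n + 1) → ℝ) → ℝ}
    (hF : Measurable F) {C : ℝ} (hC : ∀ x, |F x| ≤ C) (hp : ∀ x, F (x + bv i) = F x)
    (hm : Measurable h) (hh : ∀ x (a : ℝ), h (x + a • bv i) = h x) :
    ∫ x, F (x + h x • bv i) ∂(cubeMeasure (n + 1)) = ∫ x, F x ∂(cubeMeasure (n + 1)) := by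
  have hF2 : Measurable fun x => F (x + h x • bv i) := by
    apply hF.comp
    fun_prop
  rw [int_fub i (bounded_integrable hF2 (fun x _ => hC _)),
    int_fub i (bounded_integrable hF (fun x _ => hC _))]
  congr 1
  ext y
  have hc : ∀ a : ℝ, h (i.insertNth a y) = h (i.insertNth 0 y) := by
    intro a
    rw [← hh (i.insertNth 0 y) a, insertNth_add_bv, zero_add]
  have hper : Function.Periodic (fun a : ℝ => F (i.insertNth a y)) 1 := by
    intro a
    have := hp (i.insertNth a y)
    rw [show (bv i : Fin (n + 1) → ℝ) = (1 : ℝ) • bv i by rw [one_smul], insertNth_add_bv] at this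
    exact this
  calc ∫ a in (0 : ℝ)..1, F ((i.insertNth a y : Fin (n + 1) → ℝ) + h (i.insertNth a y) • bv i)
      = ∫ a in (0 : ℝ)..1, F (i.insertNth (a + h (i.insertNth 0 y)) y) := by
        congr 1
        ext a
        rw [hc a, insertNth_add_bv]
    _ = ∫ a in (0 + h (i.insertNth 0 y))..(1 + h (i.insertNth 0 y)), F (i.insertNth a y) :=
        intervalIntegral.integral_comp_add_right (fun a => F (i.insertNth a y)) _
    _ = ∫ a in (0 : ℝ)..1, F (i.insertNth a y) := by
        have := hper.intervalIntegral_add_eq (0 + h (i.insertNth 0 y)) 0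
        rw [zero_add] at this
        rw [zero_add, add_comm 1]
        simpa using this

/-- partial derivative -/
noncomputable def pd {n : ℕ} (i : Fin n) (f : (Fin n → ℝ) → ℝ) (x : Fin n → ℝ) : ℝ :=
  fderiv ℝ f x (Pi.single i 1)

lemma pd_hasDeriv {n : ℕ} (i : Fin n) {f : (Fin n → ℝ) → ℝ} {x : Fin n → ℝ}
    (hf : DifferentiableAt ℝ f x) : HasDerivAt (fun s : ℝ => f (x + s • bv i)) (pd i f x) 0 := by
  have h1 : HasDerivAt (fun s : ℝ => x + s • bv i) (bv i) 0 := by
    have := ((hasDerivAt_id (0 : ℝ)).smul_const (bv i)).const_add x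
    simpa using this
  have h2 : HasFDerivAt f (fderiv ℝ f x) (x + (0 : ℝ) • bv i) := by
    rw [zero_smul, add_zero]
    exact hf.hasFDerivAt
  exact h2.comp_hasDerivAt (0 : ℝ) h1

lemma int_pd_zero {n : ℕ} (i : Fin (n + 1)) {F : (Fin (n + 1) → ℝ) → ℝ} (hF : ContDiff ℝ 1 F)
    (hp : ∀ x, F (x + bv i) = F x) : ∫ x, pd i F x ∂(cubeMeasure (n + 1)) = 0 := by
  have hc : Continuous (pd i F) := by
    unfold pd
    exact (hF.continuous_fderiv (by norm_num)).clm_apply continuous_const
  rw [int_fub i (cont_integrable hc)]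
  have : ∀ y : Fin n → ℝ, ∫ a in (0 : ℝ)..1, pd i F (i.insertNth a y) = 0 := by
    intro y
    have hd : ∀ a : ℝ, HasDerivAt (fun a : ℝ => F (i.insertNth a y)) (pd i F (i.insertNth a y)) a := by
      intro a
      have h1 := pd_hasDeriv i (x := i.insertNth a y) ((hF.differentiable (by norm_num)) _)
      have h2 : HasDerivAt (fun s : ℝ => F ((i.insertNth a y : Fin (n + 1) → ℝ) + s • bv i))
          (pd i F (i.insertNth a y)) (a - a) := by
        rwa [sub_self]
      have h3 := h2.comp_sub_const a a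
      refine h3.congr_of_eventuallyEq ?_
      filter_upwards with b
      rw [insertNth_add_bv]
      congr 2
      ring
    rw [intervalIntegral.integral_eq_sub_of_hasDerivAt (fun a _ => hd a)]
    · have := hp (i.insertNth 0 y)
      rw [show (bv i : Fin (n + 1) → ℝ) = (1 : ℝ) • bv i by rw [one_smul], insertNth_add_bv] at this
      rw [zero_add] at this
      rw [this, sub_self]
    · apply Continuous.intervalIntegrable
      apply hc.comp
      have : (fun a : ℝ => (i.insertNth a y : Fin (n + 1) → ℝ))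
          = fun a => (i.insertNth 0 y : Fin (n + 1) → ℝ) + a • bv i := by
        ext1 a
        rw [insertNth_add_bv, zero_add]
      rw [this]
      fun_prop
  simp [this]

end Pool.Agent.R212
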