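import Pool.Agent.R212.Par9

open MeasureTheory Set Filter Function
open scoped Topology ContDiff ENNReal InnerProductSpace

namespace Pool.Agent.R212

theorem glue {ι : Type*} [Countable ι] {α β : Type*} [MeasurableSpace α] [MeasurableSpace β]
    (π : α → ℝ) (hπ : Measurable π) (A : ι → Set ℝ) (hA : ∀ p, MeasurableSet (A p))
    (hd : Pairwise (Disjoint on A)) (g : ι → α → β) (hg : ∀ p, Measurable (g p)) (z : β) :
    ∃ f : α → β, Measurable f ∧ (∀ p q, π q ∈ A p → f q = g p q) ∧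
      ∀ q, (∀ p, π q ∉ A p) → f q = z := by
  set t : Option ι → Set α := fun o => match o with
    | none => {q | ∀ p, π q ∉ A p}
    | some p => {q | π q ∈ A p} with ht
  set G : Option ι → α → β := fun o => match o with
    | none => fun _ => z
    | some p => g p with hG
  have htm : ∀ o, MeasurableSet (t o) := by
    intro o
    match o with
    | none =>
      have : t none = (⋃ p, π ⁻¹' (A p))ᶜ := by
        ext q
        simp [ht]
      rw [this]
      exact (MeasurableSet.iUnion fun p => hπ (hA p)).compl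
    | some p => exact hπ (hA p)
  have hGm : ∀ o, Measurable (G o) := by
    intro o
    match o with
    | none => exact measurable_const
    | some p => exact hg p
  obtain ⟨f, hf, hfe⟩ := exists_measurable_piecewise t htm G hGm (by
    intro o o' hoo q hq
    match o, o' with
    | none, none => exact absurd rfl hoo
    | none, some p => exact absurd hq.2 (hq.1 p)
    | some p, none => exact absurd hq.1 (hq.2 p)
    | some p, some p' =>
      have hne : p ≠ p' := fun h => hoo (by rw [h])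
      exact absurd hq.2 (Set.disjoint_left.1 (hd hne) hq.1))
  exact ⟨f, hf, fun p q hq => hfe (some p) hq, fun q hq => hfe none hq⟩

/-- Gluing of the pieces in time. -/
theorem assemble {T : ℝ} {lo hi : ℕ × ℕ → ℝ} (hlt : ∀ p, lo p < hi p)
    (hd : Pairwise (Disjoint on fun p => Ioc (lo p) (hi p)))
    (hsub : ∀ p, Ioc (lo p) (hi p) ⊆ Ioc 0 T)
    {v : ℕ × ℕ → ℝ → X3 → ℝ} {b : ℕ × ℕ → ℝ → X3 → X3} {B : ℕ × ℕ → ℝ} (hB0 : ∀ p, 0 ≤ B p)
    (hvm : ∀ p, Measurable fun q : ℝ × X3 => v p q.1 q.2)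
    (hv1 : ∀ p, ∀ t ∈ Ioc (lo p) (hi p), ∀ x, |v p t x| ≤ 1)
    (hbm : ∀ p, Measurable fun q : ℝ × X3 => b p q.1 q.2)
    (hbB : ∀ p, ∀ t ∈ Ioc (lo p) (hi p), ∀ x i, |b p t x i| ≤ B p)
    (hdiv : ∀ p, ∀ t ∈ Ioc (lo p) (hi p), DivFree (b p t))
    (hsum : Summable fun p => B p * (hi p - lo p)) :
    ∃ (V : ℝ → X3 → ℝ) (b' : ℝ → X3 → X3) (β : ℝ → ℝ),
      (Measurable fun q : ℝ × X3 => V q.1 q.2) ∧ (∀ t x, |V t x| ≤ 1) ∧
      (Measurable fun q : ℝ × X3 => b' q.1 q.2) ∧ Measurable β ∧ IntegrableOn β (Ioc 0 T) ∧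
      (∀ t x i, |b' t x i| ≤ β t) ∧ (∀ t, DivFree (b' t)) ∧
      (∀ p, ∀ t ∈ Ioc (lo p) (hi p), ∀ x, V t x = v p t x) ∧
      ∀ φ, IsTest φ → HasSum (fun p => ∫ t in (lo p)..(hi p),
          (∫ x, v p t x * Ls (b p) φ t x ∂(cubeMeasure 3)))
        (∫ q, V q.1 q.2 * Ls b' φ q.1 q.2 ∂(PT 3 T)) := by
  have hA : ∀ p, MeasurableSet (Ioc (lo p) (hi p)) := fun p => measurableSet_Ioc
  obtain ⟨V', hV'm, hV'1, hV'2⟩ := glue (Prod.fst : ℝ × X3 → ℝ) measurable_fst
    (fun p => Ioc (lo p) (hi p)) hA hd (fun p q => v p q.1 q.2) hvm 0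
  obtain ⟨c, hcm, hc1, hc2⟩ := glue (Prod.fst : ℝ × X3 → ℝ) measurable_fst
    (fun p => Ioc (lo p) (hi p)) hA hd (fun p q => b p q.1 q.2) hbm 0
  obtain ⟨β, hβm, hβ1, hβ2⟩ := glue (id : ℝ → ℝ) measurable_id
    (fun p => Ioc (lo p) (hi p)) hA hd (fun p _ => B p) (fun p => measurable_const) 0
  have hβ0 : ∀ t, 0 ≤ β t := by
    intro t
    by_cases h : ∃ p, t ∈ Ioc (lo p) (hi p)
    · obtain ⟨p, hp⟩ := h
      rw [hβ1 p t hp]
      exact hB0 p
    · push Not at h
      rw [hβ2 t h]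
  have hV1 : ∀ t x, |V' (t, x)| ≤ 1 := by
    intro t x
    by_cases h : ∃ p, t ∈ Ioc (lo p) (hi p)
    · obtain ⟨p, hp⟩ := h
      rw [hV'1 p (t, x) hp]
      exact hv1 p t hp x
    · push Not at h
      rw [hV'2 (t, x) h]
      simp
  have hcB : ∀ t x i, |c (t, x) i| ≤ β t := by
    intro t x i
    by_cases h : ∃ p, t ∈ Ioc (lo p) (hi p)
    · obtain ⟨p, hp⟩ := h
      rw [hc1 p (t, x) hp, hβ1 p t hp]
      exact hbB p t hp x i
    · push Not at h
      rw [hc2 (t, x) h]
      simpa using hβ0 t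
  have hcd : ∀ t, DivFree fun x => c (t, x) := by
    intro t
    by_cases h : ∃ p, t ∈ Ioc (lo p) (hi p)
    · obtain ⟨p, hp⟩ := h
      have : (fun x => c (t, x)) = b p t := by
        ext1 x
        exact hc1 p (t, x) hp
      rw [this]
      exact hdiv p t hp
    · push Not at h
      have : (fun x => c (t, x)) = fun _ => 0 := by
        ext1 x
        exact hc2 (t, x) h
      rw [this]
      intro ψ _ _
      simp
  have hU : (⋃ p, Ioc (lo p) (hi p)) ⊆ Ioc 0 T := iUnion_subset hsub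
  have hUm : MeasurableSet (⋃ p, Ioc (lo p) (hi p)) := MeasurableSet.iUnion hA
  have hβi : IntegrableOn β (⋃ p, Ioc (lo p) (hi p)) := by
    apply integrableOn_iUnion_of_summable_integral_norm
    · intro p
      have : IntegrableOn (fun _ : ℝ => B p) (Ioc (lo p) (hi p)) := by
        simp
      exact this.congr_fun (fun t ht => (hβ1 p t ht).symm) (hA p)
    · refine hsum.congr fun p => ?_
      have : ∫ t in Ioc (lo p) (hi p), ‖β t‖ = ∫ t in Ioc (lo p) (hi p), B p := by
        apply setIntegral_congr_fun (hA p)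
        intro t ht
        simp only
        rw [hβ1 p t ht, Real.norm_eq_abs, abs_of_nonneg (hB0 p)]
      rw [this]
      simp [(hlt p).le, mul_comm]
  have hβi' : IntegrableOn β (Ioc 0 T) := by
    have h2 : Ioc 0 T = (⋃ p, Ioc (lo p) (hi p)) ∪ (Ioc 0 T \ ⋃ p, Ioc (lo p) (hi p)) :=
      (Set.union_sdiff_cancel hU).symm
    rw [h2]
    refine hβi.union ?_
    refine IntegrableOn.congr_fun (f := fun _ => (0 : ℝ)) integrableOn_zero (fun t ht => ?_)
      (measurableSet_Ioc.diff hUm)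
    have h3 := ht.2
    rw [mem_iUnion] at h3
    push Not at h3
    exact (hβ2 t h3).symm
  refine ⟨fun t x => V' (t, x), fun t x => c (t, x), β, hV'm, hV1, hcm, hβm, hβi', hcB, hcd,
    fun p t ht x => hV'1 p (t, x) ht, ?_⟩
  intro φ hφ
  have hcm' : Measurable fun p : ℝ × X3 => (fun t x => c (t, x)) p.1 p.2 := hcm
  have hint : Integrable (fun q : ℝ × X3 => V' (q.1, q.2) * Ls (fun t x => c (t, x)) φ q.1 q.2)
      (PT 3 T) := by
    obtain ⟨C, hC0, hC⟩ := Ls_bound hβ0 hcB hφ T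
    have hm : Integrable (fun t => 1 + β t) (tm T) := (integrable_const _).add hβi'
    have hmP : Integrable (fun p : ℝ × X3 => 1 + β p.1) (PT 3 T) := hm.comp_fst _
    refine (hmP.const_mul C).mono' (hV'm.mul (Ls_meas hcm' hφ)).aestronglyMeasurable ?_
    filter_upwards [ae_PT 3 T] with p hp
    rw [Real.norm_eq_abs, abs_mul]
    have h1 := hC p.1 hp.1 p.2 hp.2
    have h2 := hV1 p.1 p.2
    calc |V' (p.1, p.2)| * |Ls (fun t x => c (t, x)) φ p.1 p.2| ≤ 1 * (C * (1 + β p.1)) :=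
          mul_le_mul h2 h1 (abs_nonneg _) zero_le_one
      _ = _ := one_mul _
  set f : ℝ → ℝ := fun t => ∫ x, V' (t, x) * Ls (fun t x => c (t, x)) φ t x ∂(cubeMeasure 3)
    with hf
  have hfi : IntegrableOn f (Ioc 0 T) := hint.integral_prod_left
  have e1 : ∫ q, V' (q.1, q.2) * Ls (fun t x => c (t, x)) φ q.1 q.2 ∂(PT 3 T) =
      ∫ t in ⋃ p, Ioc (lo p) (hi p), f t := by
    rw [← setIntegral_eq_of_subset_of_forall_sdiff_eq_zero measurableSet_Ioc hU]
    · exact integral_prod _ hint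
    · intro t ht
      have h3 := ht.2
      rw [mem_iUnion] at h3
      push Not at h3
      simp only [hf]
      have : ∀ x, V' (t, x) = 0 := fun x => hV'2 (t, x) h3
      simp [this]
  have e2 := hasSum_integral_iUnion (f := f) (μ := volume) hA hd (hfi.mono_set hU)
  have e3 : (fun p => ∫ t in (lo p)..(hi p), (∫ x, v p t x * Ls (b p) φ t x ∂(cubeMeasure 3))) =
      fun p => ∫ t in Ioc (lo p) (hi p), f t := by
    ext p
    rw [intervalIntegral.integral_of_le (hlt p).le]
    apply setIntegral_congr_fun (hA p)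
    intro t ht
    simp only [hf]
    congr 1
    ext x
    rw [hV'1 p (t, x) ht]
    congr 1
    unfold Ls
    have h9 : (fun x => c (t, x)) = b p t := by
      ext1 x
      exact hc1 p (t, x) ht
    show _ = dt φ t x + adv (fun x => c (t, x)) (φ t) x + lap (φ t) x
    rw [h9]
  rw [e3, e1]
  exact e2

end Pool.Agent.R212
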