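import Pool.Agent.R212.Par10

open MeasureTheory Set Filter Function
open scoped Topology ContDiff ENNReal InnerProductSpace

namespace Pool.Agent.R212

/-- decay rate of the slow mode -/
noncomputable def kap (j : ℕ) : ℝ := (2 * Real.pi * 2 ^ j) ^ 2

lemma kap_pos (j : ℕ) : 0 < kap j := by unfold kap; positivity

lemma am_smooth (j : ℕ) : ContDiff ℝ ∞ (am j) := by
  unfold am
  fun_prop

lemma am_per (j : ℕ) : ∀ i x, am j (x + Pi.single i 1) = am j x := fun i x => sin_per (2 ^ j) 2 i x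

lemma pd_of {n : ℕ} {i : Fin n} {f : (Fin n → ℝ) → ℝ} {x : Fin n → ℝ} {c : ℝ}
    (hf : DifferentiableAt ℝ f x) (h : HasDerivAt (fun s : ℝ => f (x + s • bv i)) c 0) :
    pd i f x = c := (pd_hasDeriv i hf).unique h

lemma coord_add_same {n : ℕ} (i : Fin n) (x : Fin n → ℝ) (s : ℝ) : (x + s • bv i) i = x i + s := by
  simp [bv]

/-- the companion cosine mode -/
noncomputable def cm (m : ℕ) (x : X3) : ℝ := Real.cos (2 * Real.pi * ((2 ^ m : ℕ) * x 2))

lemma cm_smooth (j : ℕ) : ContDiff ℝ ∞ (cm j) := by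
  unfold cm
  fun_prop

lemma inner_deriv (j : ℕ) (x : X3) :
    HasDerivAt (fun s : ℝ => 2 * Real.pi * (((2 ^ j : ℕ) : ℝ) * (x + s • bv 2 : X3) 2))
      (2 * Real.pi * 2 ^ j) 0 := by
  have h1 : (fun s : ℝ => 2 * Real.pi * (((2 ^ j : ℕ) : ℝ) * (x + s • bv 2 : X3) 2)) =
      fun s : ℝ => 2 * Real.pi * (((2 ^ j : ℕ) : ℝ) * (x 2 + s)) := by
    ext s
    rw [coord_add_same]
  rw [h1]
  have h2 := (((hasDerivAt_id (0 : ℝ)).const_add (x 2)).const_mul (((2 ^ j : ℕ) : ℝ))).const_mul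
    (2 * Real.pi)
  refine h2.congr_deriv ?_
  push_cast
  ring

lemma pd_am2 (j : ℕ) : pd 2 (am j) = fun x => (2 * Real.pi * 2 ^ j) * cm j x := by
  ext x
  apply pd_of (cdiff (am_smooth j) x)
  have h := (inner_deriv j x).sin
  unfold am cm
  refine h.congr_deriv ?_
  simp
  ring

lemma pd_cm2 (j : ℕ) : pd 2 (cm j) = fun x => -(2 * Real.pi * 2 ^ j) * am j x := by
  ext x
  apply pd_of (cdiff (cm_smooth j) x)
  have h := (inner_deriv j x).cos
  unfold am cm
  refine h.congr_deriv ?_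
  simp
  ring

lemma pd_am_ne (j : ℕ) {i : Fin 3} (h : i ≠ 2) : pd i (am j) = fun _ => 0 := by
  ext x
  apply pd_of (cdiff (am_smooth j) x)
  have : (fun s : ℝ => am j (x + s • bv i)) = fun _ => am j x := by
    ext s
    unfold am
    rw [add_bv_ne (Ne.symm h)]
  rw [this]
  exact hasDerivAt_const _ _

lemma lap_am (j : ℕ) (x : X3) : lap (am j) x = -kap j * am j x := by
  unfold lap
  rw [Fin.sum_univ_three, pd_am_ne j (by decide : (0 : Fin 3) ≠ 2),
    pd_am_ne j (by decide : (1 : Fin 3) ≠ 2), pd_am2]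
  have h0 : ∀ i : Fin 3, pd i (fun _ : X3 => (0 : ℝ)) x = 0 := by
    intro i
    unfold pd
    simp
  rw [h0, h0, pd_const_mul 2 _ (cdiff (cm_smooth j) x), pd_cm2]
  unfold kap
  ring

lemma Ls_zero (φ : ℝ → X3 → ℝ) (t : ℝ) (x : X3) :
    Ls (fun _ _ => (0 : X3)) φ t x = dt φ t x + lap (φ t) x := by
  unfold Ls adv
  simp

/-- the waiting period -/
lemma wait (j : ℕ) {s s' : ℝ} (hs : s ≤ s') {φ : ℝ → X3 → ℝ} (hφ : IsTest φ) :
    ∫ t in s..s', (∫ x, (Real.exp (-kap j * (t - s)) * am j x) *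
      Ls (fun _ _ => (0 : X3)) φ t x ∂(cubeMeasure 3)) =
    Real.exp (-kap j * (s' - s)) * ∫ x, am j x * φ s' x ∂(cubeMeasure 3) -
      ∫ x, am j x * φ s x ∂(cubeMeasure 3) := by
  have hφs := hφ.smooth
  set G : ℝ → X3 → ℝ := fun t x => Real.exp (-kap j * (t - s)) * am j x * φ t x with hG
  have hGs : ContDiff ℝ ∞ fun p : ℝ × X3 => G p.1 p.2 := by
    have h1 : ContDiff ℝ ∞ fun p : ℝ × X3 => am j p.2 := (am_smooth j).comp contDiff_snd
    have h2 : ContDiff ℝ ∞ fun p : ℝ × X3 => Real.exp (-kap j * (p.1 - s)) := by fun_prop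
    exact (h2.mul h1).mul hφs
  have hftc := ftc_time (hGs.of_le (by exact_mod_cast le_top)) hs
  have hφ1 : ContDiff ℝ 1 (fun p : ℝ × X3 => φ p.1 p.2) := hφs.of_le (by exact_mod_cast le_top)
  have hdt : ∀ t x, dt G t x = Real.exp (-kap j * (t - s)) * am j x * dt φ t x -
      kap j * (Real.exp (-kap j * (t - s)) * am j x * φ t x) := by
    intro t x
    have h1 : HasDerivAt (fun t => Real.exp (-kap j * (t - s)))
        (Real.exp (-kap j * (t - s)) * -kap j) t := by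
      have := (((hasDerivAt_id t).sub_const s).const_mul (-kap j)).exp
      refine this.congr_deriv ?_
      simp
    have h2 := (h1.mul_const (am j x)).fun_mul (dt_hasDeriv hφ1 t x)
    have h3 : dt G t x = _ := h2.deriv
    rw [h3]
    ring
  have hslice : ∀ t, ∫ x, (Real.exp (-kap j * (t - s)) * am j x) *
      Ls (fun _ _ => (0 : X3)) φ t x ∂(cubeMeasure 3) = ∫ x, dt G t x ∂(cubeMeasure 3) := by
    intro t
    have ca := (am_smooth j).continuous
    have cd : Continuous fun x : X3 => dt φ t x :=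
      (dt_smooth hφs).continuous.comp (by fun_prop : Continuous fun x : X3 => (t, x))
    have cl : Continuous fun x : X3 => lap (φ t) x :=
      (lap_smooth hφs).continuous.comp (by fun_prop : Continuous fun x : X3 => (t, x))
    have cφ : Continuous fun x : X3 => φ t x := (slice_smooth hφs t).continuous
    simp_rw [Ls_zero, hdt, mul_add, mul_assoc]
    rw [integral_add (cont_integrable (by fun_prop)) (cont_integrable (by fun_prop)),
      integral_sub (cont_integrable (by fun_prop)) (cont_integrable (by fun_prop)),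
      integral_const_mul, integral_const_mul, integral_const_mul, integral_const_mul]
    have h4 : ∫ x, am j x * lap (φ t) x ∂(cubeMeasure 3) =
        ∫ x, φ t x * lap (am j) x ∂(cubeMeasure 3) :=
      int_lap_symm (am_smooth j) (slice_smooth hφs t) (am_per j) (hφ.per t)
    have h5 : ∫ x, φ t x * lap (am j) x ∂(cubeMeasure 3) =
        -kap j * ∫ x, am j x * φ t x ∂(cubeMeasure 3) := by
      rw [← integral_const_mul]
      congr 1
      ext x
      rw [lap_am]
      ring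
    rw [h4, h5]
    ring
  rw [intervalIntegral.integral_congr (g := fun t => ∫ x, dt G t x ∂(cubeMeasure 3))
    (fun t _ => hslice t), hftc]
  simp only [hG]
  congr 1
  · rw [← integral_const_mul]
    congr 1
    ext x
    ring
  · congr 1
    ext x
    simp

/-- one cascade cell -/
lemma cell (j k : ℕ) {η : ℝ} (hη : 0 < η) : ∃ (τ D : ℝ) (v : ℝ → X3 → ℝ) (u : ℝ → X3 → X3),
    0 < τ ∧ 0 ≤ D ∧ D ≤ (1 / 2) ^ j * (1 / 2) ^ k ∧
    (Continuous fun p : ℝ × X3 => v p.1 p.2) ∧ (∀ θ x, |v θ x| ≤ 1) ∧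
    (∀ ρ, Measurable (u ρ)) ∧ (∀ ρ, 0 < ρ → ∀ x i, |u ρ x i| ≤ D / ρ) ∧
    (∀ ρ, DivFree (u ρ)) ∧
    (∀ s s' : ℝ, s < s' → s' - s ≤ τ → ∀ φ : ℝ → X3 → ℝ, IsTest φ → ∀ M,
      (∀ t ∈ Icc s s', nrm (φ t) ≤ M) →
      |(∫ t in s..s', (∫ x, v ((t - s) / (s' - s)) x *
        Ls (fun _ => u (s' - s)) φ t x ∂(cubeMeasure 3))) -
        (∫ x, WW j k x * φ s' x ∂(cubeMeasure 3) -
          ∫ x, WW j (k + 1) x * φ s x ∂(cubeMeasure 3))| ≤ η * M) ∧
    (∀ ψ : X3 → ℝ, ContDiff ℝ ∞ ψ → (∀ i x, ψ (x + Pi.single i 1) = ψ x) → ∀ K,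
      (∀ i x, |pd i ψ x| ≤ K) → |∫ x, WW j (k + 1) x * ψ x ∂(cubeMeasure 3)| ≤ D * K) := by
  obtain ⟨i, D, H0, F, H, S, hD, hW⟩ := stepData j k
  obtain ⟨ε, τ, hε, hτ, hest⟩ := S.step hη
  refine ⟨τ, D, VV i D F H ε, fun ρ => Shear.vel i D H ε ρ, hτ, S.hD.le, hD,
    (S.VV_smooth hε).continuous, S.VV_bd hε, ?_, ?_, fun ρ => S.vel_divFree hε ρ, ?_, ?_⟩
  · intro ρ
    unfold Shear.vel
    have := (S.hh_smooth hε).continuous
    have h2 : Continuous fun x : X3 => (hh D H ε x / ρ) • (bv i : X3) := by fun_prop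
    exact h2.measurable
  · intro ρ hρ x l
    unfold Shear.vel
    have h1 := S.hh_nonneg hε x
    have h2 := S.hh_le hε x
    show |hh D H ε x / ρ * (bv i : X3) l| ≤ D / ρ
    rw [abs_mul, abs_of_nonneg (div_nonneg h1 hρ.le)]
    have h3 : |(bv i : X3) l| ≤ 1 := by
      unfold bv
      by_cases h : l = i
      · subst h; simp
      · simp [h]
    calc hh D H ε x / ρ * |(bv i : X3) l| ≤ D / ρ * 1 :=
          mul_le_mul (div_le_div_of_nonneg_right h2 hρ.le) h3 (abs_nonneg _)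
            (div_nonneg S.hD.le hρ.le)
      _ = D / ρ := mul_one _
  · intro s s' hs hss φ hφ M hM
    have h1 := hest s s' hs hss φ hφ M hM
    have h2 : ∫ x, (H0 x * WW j (k + 1) x) * φ s' x ∂(cubeMeasure 3) =
        ∫ x, WW j k x * φ s' x ∂(cubeMeasure 3) := by
      apply integral_congr_ae
      filter_upwards [hW] with x hx
      rw [hx]
    rw [h2] at h1
    exact h1
  · intro ψ hψ pψ K hK
    exact anti_small S hψ pψ (hK i)

end Pool.Agent.R212
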