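import Pool.Agent.R212.Par11

open MeasureTheory Set Filter Function
open scoped Topology ContDiff ENNReal InnerProductSpace

namespace Pool.Agent.R212

noncomputable def sqs (τ : ℕ → ℝ) (c : ℝ) : ℕ → ℝ
  | 0 => min (τ 0) c
  | k + 1 => min (τ (k + 1)) (sqs τ c k / 2)

lemma sqs_pos {τ : ℕ → ℝ} {c : ℝ} (hτ : ∀ k, 0 < τ k) (hc : 0 < c) : ∀ k, 0 < sqs τ c k := by
  intro k
  induction k with
  | zero => exact lt_min (hτ 0) hc
  | succ k ih => exact lt_min (hτ _) (by linarith)

lemma sqs_half (τ : ℕ → ℝ) (c : ℝ) (k : ℕ) : sqs τ c (k + 1) ≤ sqs τ c k / 2 := min_le_right _ _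

lemma sqs_le (τ : ℕ → ℝ) (c : ℝ) (k : ℕ) : sqs τ c k ≤ τ k := by
  cases k with
  | zero => exact min_le_left _ _
  | succ k => exact min_le_left _ _

lemma sqs_zero_le (τ : ℕ → ℝ) (c : ℝ) : sqs τ c 0 ≤ c := min_le_right _ _

lemma sqs_anti {τ : ℕ → ℝ} {c : ℝ} (hτ : ∀ k, 0 < τ k) (hc : 0 < c) : Antitone (sqs τ c) := by
  apply antitone_nat_of_succ_le
  intro k
  have := sqs_half τ c k
  have := sqs_pos hτ hc k
  linarith

/-- upper endpoints of the pieces of a cycle -/
noncomputable def hiF (t t' : ℝ) (s : ℕ → ℝ) : ℕ → ℝ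
  | 0 => t'
  | k + 1 => t + s k

noncomputable def pv (j : ℕ) (lo hi : ℝ) (v : ℕ → ℝ → X3 → ℝ) : ℕ → ℝ → X3 → ℝ
  | 0 => fun t x => Real.exp (-kap j * (t - lo)) * am j x
  | k + 1 => fun t x => v k ((t - lo) / (hi - lo)) x

noncomputable def pb (lo hi : ℝ) (u : ℕ → ℝ → X3 → X3) : ℕ → ℝ → X3 → X3
  | 0 => fun _ _ => 0
  | k + 1 => fun _ => u k (hi - lo)

noncomputable def pB (lo hi : ℝ) (D : ℕ → ℝ) : ℕ → ℝ
  | 0 => 0
  | k + 1 => D k / (hi - lo)

theorem exists_approx : ∃ (T : ℝ) (V : ℝ → X3 → ℝ) (b : ℝ → X3 → X3) (β : ℝ → ℝ) (s : ℕ → ℝ),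
    0 < T ∧ (Measurable fun q : ℝ × X3 => V q.1 q.2) ∧ (∀ t x, |V t x| ≤ 1) ∧
    (Measurable fun q : ℝ × X3 => b q.1 q.2) ∧ Measurable β ∧ IntegrableOn β (Ioc 0 T) ∧
    (∀ t x i, |b t x i| ≤ β t) ∧ (∀ t, DivFree (b t)) ∧
    (∀ φ, TestT T φ → ∀ M, (∀ t ∈ Icc 0 T, nrm (φ t) ≤ M) →
      |∫ q, V q.1 q.2 * Ls b φ q.1 q.2 ∂(PT 3 T)| ≤ 1 / 40 * M) ∧
    (∀ j, Ioc (s j) (s j + 1 / kap j) ⊆ Ioc 0 T) ∧
    (Pairwise (Disjoint on fun j => Ioc (s j) (s j + 1 / kap j))) ∧
    (∀ j, ∀ t ∈ Ioc (s j) (s j + 1 / kap j), ∀ x,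
      V t x = Real.exp (-kap j * (t - s j)) * am j x) := by
  set η : ℕ → ℕ → ℝ := fun j k => 1 / 80 * (1 / 2) ^ (j + 1) * (1 / 2) ^ (k + 1) with hηdef
  have hη : ∀ j k, 0 < η j k := fun j k => by simp only [hηdef]; positivity
  choose τ D v u hτ hD0 hD hvc hv1 hum huB hudiv hest hsmall using fun j k => cell j k (hη j k)
  set sq : ℕ → ℕ → ℝ := fun j => sqs (τ j) ((1 / 4) ^ j) with hsqdef
  have hc4 : ∀ j : ℕ, (0 : ℝ) < (1 / 4) ^ j := fun j => by positivity
  have sqpos : ∀ j k, 0 < sq j k := fun j => sqs_pos (hτ j) (hc4 j)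
  have sqhalf : ∀ j k, sq j (k + 1) ≤ sq j k / 2 := fun j => sqs_half _ _
  have sqτ : ∀ j k, sq j k ≤ τ j k := fun j => sqs_le _ _
  have sq0 : ∀ j, sq j 0 ≤ (1 / 4) ^ j := fun j => sqs_zero_le _ _
  have sqanti : ∀ j, Antitone (sq j) := fun j => sqs_anti (hτ j) (hc4 j)
  set ell : ℕ → ℝ := fun j => ((j : ℝ) + 6) / kap j with hell
  have ellpos : ∀ j, 0 < ell j := fun j => by
    simp only [hell]
    have := kap_pos j
    positivity
  have hkap1 : ∀ j : ℕ, (4 : ℝ) ^ j ≤ kap j := by
    intro j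
    unfold kap
    rw [mul_pow, ← pow_mul, mul_comm j 2, pow_mul]
    have h1 : (1 : ℝ) ≤ (2 * Real.pi) ^ 2 := by
      have := Real.pi_gt_three
      nlinarith
    norm_num at h1 ⊢
    have h2 : (0 : ℝ) < 4 ^ j := by positivity
    nlinarith
  have ellle : ∀ j, ell j ≤ 6 * (1 / 2) ^ j := by
    intro j
    simp only [hell]
    rw [div_le_iff₀ (kap_pos j)]
    have h1 : ((j : ℝ) + 1) ≤ 2 ^ j := by
      have : j + 1 ≤ 2 ^ j := Nat.lt_two_pow_self
      exact_mod_cast this
    have h2 := hkap1 j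
    have h3 : (6 : ℝ) * (1 / 2) ^ j * 4 ^ j ≤ 6 * (1 / 2) ^ j * kap j :=
      mul_le_mul_of_nonneg_left h2 (by positivity)
    have h4 : (6 : ℝ) * (1 / 2) ^ j * 4 ^ j = 6 * 2 ^ j := by
      rw [mul_assoc, ← mul_pow]
      norm_num
    have h5 : (1 : ℝ) ≤ 2 ^ j := one_le_pow₀ (by norm_num)
    linarith
  set len : ℕ → ℝ := fun j => sq j 0 + ell j with hlen
  have lenpos : ∀ j, 0 < len j := fun j => add_pos (sqpos j 0) (ellpos j)
  have hsumlen : Summable len := by
    have hg4 : Summable fun j : ℕ => ((1 / 4 : ℝ)) ^ j :=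
      summable_geometric_of_lt_one (by norm_num) (by norm_num)
    have hg2 : Summable fun j : ℕ => 6 * ((1 / 2 : ℝ)) ^ j :=
      (summable_geometric_of_lt_one (by norm_num) (by norm_num)).mul_left 6
    exact Summable.of_nonneg_of_le (fun j => (lenpos j).le)
      (fun j => add_le_add (sq0 j) (ellle j)) (hg4.add hg2)
  set tt : ℕ → ℝ := fun j => ∑ i ∈ Finset.range j, len i with htt
  have tts : ∀ j, tt (j + 1) = tt j + len j := fun j => Finset.sum_range_succ _ _
  have tt0 : ∀ j, 0 ≤ tt j := fun j => Finset.sum_nonneg fun i _ => (lenpos i).le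
  have ttmono : Monotone tt := monotone_nat_of_le_succ fun j => by
    rw [tts]; linarith [lenpos j]
  set T : ℝ := ∑' j, len j with hTdef
  have ttT : ∀ j, tt j ≤ T := fun j => hsumlen.sum_le_tsum _ fun i _ => (lenpos i).le
  have hTpos : 0 < T := lt_of_lt_of_le (by rw [tts]; linarith [lenpos 0, tt0 0]) (ttT 1)
  set lo : ℕ × ℕ → ℝ := fun p => tt p.1 + sq p.1 p.2 with hlo
  set hi : ℕ × ℕ → ℝ := fun p => hiF (tt p.1) (tt (p.1 + 1)) (sq p.1) p.2 with hhi
  have hi0 : ∀ j, hi (j, 0) = tt (j + 1) := fun j => rfl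
  have hi1 : ∀ j k, hi (j, k + 1) = tt j + sq j k := fun j k => rfl
  have hlt : ∀ p, lo p < hi p := by
    rintro ⟨j, _ | k⟩
    · rw [hi0, tts]
      simp only [hlo, hlen]
      linarith [ellpos j]
    · rw [hi1]
      simp only [hlo]
      linarith [sqhalf j k, sqpos j k]
  have hlow : ∀ p, tt p.1 ≤ lo p := fun p => by
    simp only [hlo]; linarith [sqpos p.1 p.2]
  have hhigh : ∀ p, hi p ≤ tt (p.1 + 1) := by
    rintro ⟨j, _ | k⟩
    · rw [hi0]
    · rw [hi1, tts]
      simp only [hlen]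
      linarith [sqanti j (Nat.zero_le k), ellpos j]
  have hsub : ∀ p, Ioc (lo p) (hi p) ⊆ Ioc 0 T := fun p =>
    Ioc_subset_Ioc ((tt0 _).trans (hlow p)) ((hhigh p).trans (ttT _))
  have hord : ∀ p q : ℕ × ℕ, p ≠ q → hi p ≤ lo q ∨ hi q ≤ lo p := by
    have haux : ∀ j a c, a < c → hi (j, c) ≤ lo (j, a) := by
      intro j a c hac
      obtain ⟨d, rfl⟩ : ∃ d, c = d + 1 := ⟨c - 1, by omega⟩
      rw [hi1]
      simp only [hlo]
      have : sq j d ≤ sq j a := sqanti j (by omega)
      linarith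
    intro p q hpq
    rcases lt_trichotomy p.1 q.1 with h | h | h
    · left
      exact (hhigh p).trans ((ttmono h).trans (hlow q))
    · rcases lt_trichotomy p.2 q.2 with h' | h' | h'
      · right
        have := haux p.1 p.2 q.2 h'
        rw [show (p.1, q.2) = q by rw [h]] at this
        exact this
      · exact absurd (Prod.ext h h') hpq
      · left
        have := haux q.1 q.2 p.2 h'
        rw [show (q.1, p.2) = p by rw [← h]] at this
        exact this
    · right
      exact (hhigh q).trans ((ttmono h).trans (hlow p))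
  have hd : Pairwise (Disjoint on fun p => Ioc (lo p) (hi p)) := by
    intro p q hpq
    rcases hord p q hpq with h | h
    · exact Set.Ioc_disjoint_Ioc_of_le h
    · exact (Set.Ioc_disjoint_Ioc_of_le h).symm
  -- the pieces
  set vP : ℕ × ℕ → ℝ → X3 → ℝ := fun p => pv p.1 (lo p) (hi p) (v p.1) p.2 with hvP
  set bP : ℕ × ℕ → ℝ → X3 → X3 := fun p => pb (lo p) (hi p) (u p.1) p.2 with hbP
  set BP : ℕ × ℕ → ℝ := fun p => pB (lo p) (hi p) (D p.1) p.2 with hBP
  have hlen' : ∀ p, 0 < hi p - lo p := fun p => sub_pos.2 (hlt p)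
  obtain ⟨V, b, β, hVm, hV1, hbm, hβm, hβi, hbB, hbd, hVe, hHS⟩ := assemble (T := T) hlt hd hsub
    (v := vP) (b := bP) (B := BP)
    (by
      rintro ⟨j, _ | k⟩
      · exact le_rfl
      · exact div_nonneg (hD0 j k) (hlen' _).le)
    (by
      rintro ⟨j, _ | k⟩
      · show Measurable fun q : ℝ × X3 => Real.exp (-kap j * (q.1 - lo (j, 0))) * am j q.2
        have h1 := (am_smooth j).continuous
        have h2 : Continuous fun q : ℝ × X3 =>
          Real.exp (-kap j * (q.1 - lo (j, 0))) * am j q.2 := by fun_prop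
        exact h2.measurable
      · show Measurable fun q : ℝ × X3 =>
          v j k ((q.1 - lo (j, k + 1)) / (hi (j, k + 1) - lo (j, k + 1))) q.2
        have h1 := (hvc j k).comp (by fun_prop : Continuous fun q : ℝ × X3 =>
          ((q.1 - lo (j, k + 1)) / (hi (j, k + 1) - lo (j, k + 1)), q.2))
        exact h1.measurable)
    (by
      rintro ⟨j, _ | k⟩ t ht x
      · show |Real.exp (-kap j * (t - lo (j, 0))) * am j x| ≤ 1
        rw [abs_mul, abs_of_pos (Real.exp_pos _)]
        have h1 : Real.exp (-kap j * (t - lo (j, 0))) ≤ 1 := by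
          rw [Real.exp_le_one_iff]
          have h2 := ht.1
          have h3 := kap_pos j
          have : 0 ≤ kap j * (t - lo (j, 0)) := mul_nonneg h3.le (by linarith)
          linarith
        exact mul_le_one₀ h1 (abs_nonneg _) (Real.abs_sin_le_one _)
      · exact hv1 j k _ x)
    (by
      rintro ⟨j, _ | k⟩
      · exact measurable_const
      · exact (hum j k _).comp measurable_snd)
    (by
      rintro ⟨j, _ | k⟩ t ht x i
      · show |(0 : ℝ)| ≤ 0
        simp
      · exact huB j k _ (hlen' _) x i)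
    (by
      rintro ⟨j, _ | k⟩ t ht
      · intro ψ _ _
        show ∫ x, ∑ i, (0 : X3) i * pd i ψ x ∂(cubeMeasure 3) = 0
        simp
      · exact hudiv j k _)
    (by
      have hg2 : Summable fun j : ℕ => ((1 / 2 : ℝ)) ^ j :=
        summable_geometric_of_lt_one (by norm_num) (by norm_num)
      have hg2' : Summable fun j : ℕ => 2 * ((1 / 2 : ℝ)) ^ j := hg2.mul_left 2
      have hprod : Summable fun p : ℕ × ℕ => ((1 / 2 : ℝ)) ^ p.1 * (2 * (1 / 2) ^ p.2) :=
        hg2.mul_of_nonneg hg2' (fun j => by positivity) (fun j => by positivity)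
      refine Summable.of_nonneg_of_le ?_ ?_ hprod
      · rintro ⟨j, _ | k⟩
        · show 0 ≤ 0 * _
          simp
        · show 0 ≤ D j k / (hi (j, k + 1) - lo (j, k + 1)) * (hi (j, k + 1) - lo (j, k + 1))
          rw [div_mul_cancel₀ _ (hlen' _).ne']
          exact hD0 j k
      · rintro ⟨j, _ | k⟩
        · show (0 : ℝ) * _ ≤ _
          rw [zero_mul]
          positivity
        · show D j k / (hi (j, k + 1) - lo (j, k + 1)) * (hi (j, k + 1) - lo (j, k + 1)) ≤
            (1 / 2) ^ j * (2 * (1 / 2) ^ (k + 1))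
          rw [div_mul_cancel₀ _ (hlen' _).ne']
          refine (hD j k).trans (le_of_eq ?_)
          rw [pow_succ]
          ring)
  refine ⟨T, V, b, β, fun j => lo (j, 0), hTpos, hVm, hV1, hbm, hβm, hβi, hbB, hbd, ?_, ?_, ?_, ?_⟩
  · -- the error estimate
    intro φ hφT M hM
    have hφ := hφT.1
    have hφs := hφ.smooth
    have hM0 : 0 ≤ M := (Real.sqrt_nonneg _).trans (hM 0 (left_mem_Icc.2 hTpos.le))
    set c : ℕ × ℕ → ℝ := fun p => ∫ t in (lo p)..(hi p),
      (∫ x, vP p t x * Ls (bP p) φ t x ∂(cubeMeasure 3)) with hc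
    have hS : HasSum c (∫ q, V q.1 q.2 * Ls b φ q.1 q.2 ∂(PT 3 T)) := hHS φ hφ
    set Y : ℕ → ℕ → ℝ := fun j k => ∫ x, WW j k x * φ (tt j + sq j k) x ∂(cubeMeasure 3) with hY
    -- uniform gradient bound
    choose Kf hKf0 hKf using fun i : Fin 3 => per_bounded_T (K := fun t x => pd i (φ t) x)
      (pd_smooth hφs i).continuous (fun t l x => pd_per (hφ.per t l) i x) T
    set K : ℝ := ∑ i, Kf i with hK
    have hKb : ∀ t ∈ Icc 0 T, ∀ i x, |pd i (φ t) x| ≤ K := fun t ht i x =>
      (hKf i t ht x).trans (Finset.single_le_sum (fun i _ => hKf0 i) (Finset.mem_univ i))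
    have hK0 : 0 ≤ K := Finset.sum_nonneg fun i _ => hKf0 i
    have htime : ∀ p, lo p ∈ Icc 0 T ∧ hi p ∈ Icc 0 T := fun p =>
      ⟨⟨(tt0 _).trans (hlow p), (hlt p).le.trans ((hhigh p).trans (ttT _))⟩,
        ⟨(tt0 _).trans ((hlow p).trans (hlt p).le), (hhigh p).trans (ttT _)⟩⟩
    have hYlim : ∀ j, Tendsto (Y j) atTop (𝓝 0) := by
      intro j
      rw [← tendsto_add_atTop_iff_nat 1]
      have h1 : ∀ k, |Y j (k + 1)| ≤ K * (1 / 2) ^ k := by
        intro k
        have ht : tt j + sq j (k + 1) ∈ Icc 0 T := (htime (j, k + 1)).1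
        have h2 := hsmall j k (φ (tt j + sq j (k + 1))) (slice_smooth hφs _) (hφ.per _) K
          (hKb _ ht)
        refine h2.trans ?_
        have h3 := hD j k
        have h4 : ((1 / 2 : ℝ)) ^ j * (1 / 2) ^ k ≤ (1 / 2) ^ k := by
          have h5 : ((1 / 2 : ℝ)) ^ j ≤ 1 := pow_le_one₀ (by norm_num) (by norm_num)
          have h6 : (0 : ℝ) ≤ (1 / 2) ^ k := by positivity
          nlinarith
        rw [mul_comm]
        exact mul_le_mul_of_nonneg_left (h3.trans h4) hK0
      refine squeeze_zero_norm h1 ?_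
      have := (tendsto_pow_atTop_nhds_zero_of_lt_one (r := (1 / 2 : ℝ)) (by norm_num)
        (by norm_num)).const_mul K
      simpa using this
    set E : ℕ → ℝ := fun j => Real.exp (-((j : ℝ) + 6)) *
      ∫ x, am j x * φ (tt (j + 1)) x ∂(cubeMeasure 3) with hE
    have hEb : ∀ j, |E j| ≤ 1 / 80 * (1 / 2) ^ (j + 1) * M := by
      intro j
      have h1 : |∫ x, am j x * φ (tt (j + 1)) x ∂(cubeMeasure 3)| ≤ M := by
        have ca := (am_smooth j).continuous
        have cφ := (slice_smooth hφs (tt (j + 1))).continuous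
        have h2 := cs (μ := cubeMeasure 3) (cont_integrable (ca.pow 2)) (cont_integrable (cφ.pow 2))
          (cont_integrable (ca.mul cφ))
        have h3 : √(∫ x, am j x ^ 2 ∂(cubeMeasure 3)) ≤ 1 := by
          rw [Real.sqrt_le_one]
          have h4 : ∀ᵐ x ∂(cubeMeasure 3), am j x ^ 2 ≤ 1 := by
            filter_upwards with x
            unfold am
            exact Real.sin_sq_le_one _
          have h5 := integral_mono_of_nonneg (Eventually.of_forall fun x =>
            sq_nonneg (am j x)) (integrable_const _) h4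
          simpa using h5
        have h6 : √(∫ x, φ (tt (j + 1)) x ^ 2 ∂(cubeMeasure 3)) ≤ M :=
          hM _ ⟨tt0 _, ttT _⟩
        calc _ ≤ _ := h2
          _ ≤ 1 * M := mul_le_mul h3 h6 (Real.sqrt_nonneg _) zero_le_one
          _ = M := one_mul M
      simp only [hE]
      rw [abs_mul, abs_of_pos (Real.exp_pos _)]
      have h7 : Real.exp (-((j : ℝ) + 6)) ≤ 1 / 80 * (1 / 2) ^ (j + 1) := by
        have e1 : Real.exp (-((j : ℝ) + 6)) = (Real.exp (-1)) ^ j * Real.exp (-6) := by
          rw [← Real.exp_nat_mul, ← Real.exp_add]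
          congr 1
          ring
        have hexp1 : Real.exp (-1) ≤ 1 / 2 := by
          rw [Real.exp_neg]
          have := Real.exp_one_gt_d9
          rw [inv_le_comm₀ (Real.exp_pos 1) (by norm_num)]
          linarith
        have hexp6 : Real.exp (-6) ≤ 1 / 160 := by
          have h8 : Real.exp (-6) = (Real.exp 1)⁻¹ ^ 6 := by
            rw [← Real.exp_neg, ← Real.exp_nat_mul]
            norm_num
          rw [h8]
          have h9 : (Real.exp 1)⁻¹ ≤ 10 / 27 := by
            have := Real.exp_one_gt_d9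
            rw [inv_le_comm₀ (Real.exp_pos 1) (by norm_num)]
            linarith
          have h10 : 0 ≤ (Real.exp 1)⁻¹ := by positivity
          calc (Real.exp 1)⁻¹ ^ 6 ≤ (10 / 27) ^ 6 := pow_le_pow_left₀ h10 h9 6
            _ ≤ 1 / 160 := by norm_num
        rw [e1]
        have h11 : (Real.exp (-1)) ^ j ≤ (1 / 2) ^ j :=
          pow_le_pow_left₀ (Real.exp_pos _).le hexp1 j
        calc (Real.exp (-1)) ^ j * Real.exp (-6) ≤ (1 / 2) ^ j * (1 / 160) :=
              mul_le_mul h11 hexp6 (Real.exp_pos _).le (by positivity)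
          _ = 1 / 80 * (1 / 2) ^ (j + 1) := by rw [pow_succ]; ring
      exact mul_le_mul h7 h1 (abs_nonneg _) (by positivity)
    have hc0 : ∀ j, c (j, 0) = E j - Y j 0 := by
      intro j
      have h1 := wait j (hlt (j, 0)).le hφ
      have h2 : c (j, 0) = ∫ t in (lo (j, 0))..(hi (j, 0)),
        (∫ x, (Real.exp (-kap j * (t - lo (j, 0))) * am j x) *
          Ls (fun _ _ => (0 : X3)) φ t x ∂(cubeMeasure 3)) := rfl
      rw [h2, h1]
      have h3 : -kap j * (hi (j, 0) - lo (j, 0)) = -((j : ℝ) + 6) := by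
        rw [hi0, tts]
        simp only [hlo, hlen, hell]
        have := (kap_pos j).ne'
        field_simp
        ring
      rw [h3]
      rfl
    have hc1 : ∀ j k, |c (j, k + 1) - (Y j k - Y j (k + 1))| ≤ η j k * M := by
      intro j k
      have h1 := hest j k (lo (j, k + 1)) (hi (j, k + 1)) (hlt _) (by
        rw [hi1]
        simp only [hlo]
        linarith [sqpos j (k + 1), sqτ j k]) φ hφ M (fun t ht =>
          hM t ⟨(htime (j, k + 1)).1.1.trans ht.1, ht.2.trans (htime (j, k + 1)).2.2⟩)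
      exact h1
    have hpart : ∀ j n, |(∑ k ∈ Finset.range (n + 1), c (j, k)) - (E j - Y j n)| ≤
        (∑ k ∈ Finset.range n, η j k) * M := by
      intro j n
      induction n with
      | zero =>
        simp [hc0]
      | succ n ih =>
        rw [Finset.sum_range_succ (fun k => c (j, k)) (n + 1),
          Finset.sum_range_succ (fun k => η j k) n, add_mul]
        have h1 := hc1 j n
        have h2 : (∑ k ∈ Finset.range (n + 1), c (j, k)) + c (j, n + 1) - (E j - Y j (n + 1)) =
          ((∑ k ∈ Finset.range (n + 1), c (j, k)) - (E j - Y j n)) +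
            (c (j, n + 1) - (Y j n - Y j (n + 1))) := by ring
        rw [h2]
        exact (abs_add_le _ _).trans (add_le_add ih h1)
    have hηsum : ∀ j n, ∑ k ∈ Finset.range n, η j k ≤ 1 / 80 * (1 / 2) ^ (j + 1) := by
      intro j n
      simp only [hηdef]
      rw [← Finset.mul_sum]
      have h1 : ∑ k ∈ Finset.range n, ((1 / 2 : ℝ)) ^ (k + 1) ≤ 1 := by
        have h2 : ∀ n : ℕ, ∑ k ∈ Finset.range n, ((1 / 2 : ℝ)) ^ (k + 1) = 1 - (1 / 2) ^ n := by
          intro n
          induction n with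
          | zero => simp
          | succ n ih =>
            rw [Finset.sum_range_succ, ih, pow_succ]
            ring
        rw [h2]
        have : (0 : ℝ) ≤ (1 / 2) ^ n := by positivity
        linarith
      have h3 : (0 : ℝ) ≤ 1 / 80 * (1 / 2) ^ (j + 1) := by positivity
      nlinarith
    have hfib : ∀ j, HasSum (fun k => c (j, k)) (∑' k, c (j, k)) := fun j =>
      (hS.summable.prod_factor j).hasSum
    have hg : HasSum (fun j => ∑' k, c (j, k)) (∫ q, V q.1 q.2 * Ls b φ q.1 q.2 ∂(PT 3 T)) :=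
      hS.prod_fiberwise hfib
    have hgb : ∀ j, |∑' k, c (j, k)| ≤ 1 / 80 * (1 / 2) ^ j * M := by
      intro j
      have h1 : Tendsto (fun n => |(∑ k ∈ Finset.range (n + 1), c (j, k)) - E j|) atTop
          (𝓝 |(∑' k, c (j, k)) - E j|) := by
        have h2 := (hfib j).tendsto_sum_nat
        rw [← tendsto_add_atTop_iff_nat 1] at h2
        exact (h2.sub_const _).abs
      have h3 : Tendsto (fun n => |Y j n| + 1 / 80 * (1 / 2) ^ (j + 1) * M) atTop
          (𝓝 (0 + 1 / 80 * (1 / 2) ^ (j + 1) * M)) := by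
        have := (hYlim j).abs
        rw [abs_zero] at this
        exact this.add_const _
      have h4 : |(∑' k, c (j, k)) - E j| ≤ 0 + 1 / 80 * (1 / 2) ^ (j + 1) * M := by
        refine le_of_tendsto_of_tendsto' h1 h3 fun n => ?_
        have h5 := hpart j n
        have h6 : (∑ k ∈ Finset.range n, η j k) * M ≤ 1 / 80 * (1 / 2) ^ (j + 1) * M :=
          mul_le_mul_of_nonneg_right (hηsum j n) hM0
        have h7 : (∑ k ∈ Finset.range (n + 1), c (j, k)) - E j =
          ((∑ k ∈ Finset.range (n + 1), c (j, k)) - (E j - Y j n)) + (-Y j n) := by ring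
        rw [h7]
        refine (abs_add_le _ _).trans ?_
        rw [abs_neg]
        linarith
      have h8 := hEb j
      have h9 : ∑' k, c (j, k) = ((∑' k, c (j, k)) - E j) + E j := by ring
      rw [h9]
      refine (abs_add_le _ _).trans ?_
      have h10 : (1 : ℝ) / 80 * (1 / 2) ^ j * M = 1 / 80 * (1 / 2) ^ (j + 1) * M +
        1 / 80 * (1 / 2) ^ (j + 1) * M := by
        rw [pow_succ]; ring
      linarith
    have hgeo : HasSum (fun j : ℕ => 1 / 80 * ((1 / 2 : ℝ)) ^ j * M) (1 / 40 * M) := by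
      have h1 := (hasSum_geometric_of_lt_one (r := (1 / 2 : ℝ)) (by norm_num)
        (by norm_num)).mul_left (1 / 80)
      have h2 := h1.mul_right M
      convert! h2 using 1
      norm_num
    rw [← hg.tsum_eq, ← Real.norm_eq_abs]
    exact tsum_of_norm_bounded hgeo fun j => by
      rw [Real.norm_eq_abs]; exact hgb j
  · intro j
    refine (Ioc_subset_Ioc_right ?_).trans (hsub (j, 0))
    rw [hi0, tts]
    simp only [hlo, hlen, hell]
    have h1 : 1 / kap j ≤ ((j : ℝ) + 6) / kap j := by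
      apply div_le_div_of_nonneg_right _ (kap_pos j).le
      have : (0 : ℝ) ≤ j := Nat.cast_nonneg j
      linarith
    linarith
  · intro j j' hjj
    have h1 := hd (show ((j, 0) : ℕ × ℕ) ≠ (j', 0) from fun h => hjj (Prod.ext_iff.1 h).1)
    refine Disjoint.mono ?_ ?_ h1
    all_goals
      refine Ioc_subset_Ioc_right ?_
      rw [hi0, tts]
      simp only [hlo, hlen, hell]
    · have h1 : 1 / kap j ≤ ((j : ℝ) + 6) / kap j := by
        apply div_le_div_of_nonneg_right _ (kap_pos j).le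
        have : (0 : ℝ) ≤ j := Nat.cast_nonneg j
        linarith
      linarith
    · have h1 : 1 / kap j' ≤ ((j' : ℝ) + 6) / kap j' := by
        apply div_le_div_of_nonneg_right _ (kap_pos j').le
        have : (0 : ℝ) ≤ j' := Nat.cast_nonneg j'
        linarith
      linarith
  · intro j t ht x
    have ht' : t ∈ Ioc (lo (j, 0)) (hi (j, 0)) := by
      refine ⟨ht.1, ht.2.trans ?_⟩
      rw [hi0, tts]
      simp only [hlo, hlen, hell]
      have h1 : 1 / kap j ≤ ((j : ℝ) + 6) / kap j := by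
        apply div_le_div_of_nonneg_right _ (kap_pos j).le
        have : (0 : ℝ) ≤ j := Nat.cast_nonneg j
        linarith
      linarith
    exact hVe (j, 0) t ht' x

end Pool.Agent.R212
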