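import Mathlib

open MeasureTheory
open scoped ContDiff ENNReal

namespace Pool.Agent.R212.AdvDiff

/-- The normalised Haar measure of the flat torus `T^d = ℝ^d/ℤ^d`, realised as Lebesgue measure on
the fundamental domain `(0,1]^d`. (Classes of) functions on the torus are represented by their
values on this cube. -/
noncomputable def torusMeasure (d : ℕ) : Measure (Fin d → ℝ) :=
  volume.restrict (Set.pi Set.univ fun _ => Set.Ioc (0 : ℝ) 1)

/-- Smooth functions on the torus `T^d`: smooth functions on `ℝ^d` which are `1`-periodic in each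
variable. -/
def SmoothPeriodic {d : ℕ} (ψ : (Fin d → ℝ) → ℝ) : Prop :=
  ContDiff ℝ ∞ ψ ∧ ∀ i x, ψ (x + Pi.single i 1) = ψ x

/-- Test functions in `C_c^∞([0,T) × T^d)`: smooth functions of `(t,x) ∈ ℝ × ℝ^d` (restricted to
`t ≥ 0`), `1`-periodic in each space variable, which vanish for `t ≥ T - δ` for some `δ > 0`. -/
def IsTestFunction {d : ℕ} (T : ℝ) (φ : ℝ → (Fin d → ℝ) → ℝ) : Prop :=
  ContDiff ℝ ∞ (fun p : ℝ × (Fin d → ℝ) => φ p.1 p.2) ∧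
    (∀ t i x, φ t (x + Pi.single i 1) = φ t x) ∧ ∃ δ > 0, ∀ t, T - δ ≤ t → ∀ x, φ t x = 0

/-- The partial derivative of `f` in the `i`-th space variable. -/
noncomputable def partialD {d : ℕ} (i : Fin d) (f : (Fin d → ℝ) → ℝ) (x : Fin d → ℝ) : ℝ :=
  fderiv ℝ f x (Pi.single i 1)

/-- `f ∈ L^r([0,T]; L^p(T^d))`. -/
def MemLrLp {d : ℕ} {E : Type*} [NormedAddCommGroup E] (T : ℝ) (r p : ℝ≥0∞)
    (f : ℝ → (Fin d → ℝ) → E) : Prop :=
  AEStronglyMeasurable (fun q : ℝ × (Fin d → ℝ) => f q.1 q.2)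
      ((volume.restrict (Set.Ioo 0 T)).prod (torusMeasure d)) ∧
    eLpNorm (fun t => eLpNorm (f t) p (torusMeasure d)) r (volume.restrict (Set.Ioo 0 T)) < ⊤

/-- The field `b(t,·)` is divergence-free in the distributional sense on the torus for almost
every `t ∈ (0,T)`. -/
def DivergenceFree {d : ℕ} (T : ℝ) (b : ℝ → (Fin d → ℝ) → (Fin d → ℝ)) : Prop :=
  ∀ᵐ t ∂(volume.restrict (Set.Ioo 0 T)), ∀ ψ : (Fin d → ℝ) → ℝ, SmoothPeriodic ψ →
    ∫ x, ∑ i, b t x i * partialD i ψ x ∂(torusMeasure d) = 0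

/-- `u ∈ L^∞([0,T]; L^q(T^d))` is a distributional solution of
`∂_t u + b · ∇ u = Δ u` on `(0,T) × T^d` with datum `u₀ ∈ L^q(T^d)`. -/
def IsDistributionalSolution {d : ℕ} (T : ℝ) (q : ℝ≥0∞) (b : ℝ → (Fin d → ℝ) → (Fin d → ℝ))
    (u₀ : (Fin d → ℝ) → ℝ) (u : ℝ → (Fin d → ℝ) → ℝ) : Prop :=
  MemLp u₀ q (torusMeasure d) ∧ MemLrLp T ⊤ q u ∧
    Integrable (fun p : ℝ × (Fin d → ℝ) => u p.1 p.2 • b p.1 p.2)
      ((volume.restrict (Set.Ioo 0 T)).prod (torusMeasure d)) ∧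
    ∀ φ : ℝ → (Fin d → ℝ) → ℝ, IsTestFunction T φ →
      ∫ p, u p.1 p.2 * (deriv (fun s => φ s p.2) p.1 + ∑ i, b p.1 p.2 i * partialD i (φ p.1) p.2
          + ∑ i, partialD i (partialD i (φ p.1)) p.2)
        ∂((volume.restrict (Set.Ioo 0 T)).prod (torusMeasure d)) +
      ∫ x, u₀ x * φ 0 x ∂(torusMeasure d) = 0

/-- `u ∈ L²([0,T]; H¹(T^d))`: `u` is square integrable and has a square integrable weak spatial
gradient `G`. -/
def IsParabolic {d : ℕ} (T : ℝ) (u : ℝ → (Fin d → ℝ) → ℝ) : Prop :=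
  MemLrLp T 2 2 u ∧ ∃ G : ℝ → (Fin d → ℝ) → (Fin d → ℝ), MemLrLp T 2 2 G ∧
    ∀ᵐ t ∂(volume.restrict (Set.Ioo 0 T)), ∀ ψ : (Fin d → ℝ) → ℝ, SmoothPeriodic ψ → ∀ i,
      ∫ x, u t x * partialD i ψ x ∂(torusMeasure d) = -∫ x, G t x i * ψ x ∂(torusMeasure d)

end Pool.Agent.R212.AdvDiff
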