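import Pool.Agent.R212.Par12
import Pool.Agent.R212.ParDef

open MeasureTheory Set Filter Function
open scoped Topology ContDiff ENNReal InnerProductSpace

namespace Pool.Agent.R212

open AdvDiff

lemma tm_eq (T : ℝ) : (volume.restrict (Ioo 0 T) : Measure ℝ) = tm T := by
  unfold tm
  exact restrict_Ioo_eq_restrict_Ioc

lemma torus_eq (d : ℕ) : torusMeasure d = cubeMeasure d := rfl

instance (d : ℕ) : IsProbabilityMeasure (torusMeasure d) := by
  rw [torus_eq]; infer_instance

lemma partialD_eq {d : ℕ} : (partialD : Fin d → ((Fin d → ℝ) → ℝ) → (Fin d → ℝ) → ℝ) = pd := rfl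

lemma int_cm (j : ℕ) : ∫ x, cm j x ∂(cubeMeasure 3) = 0 := by
  have h1 := int_pd_zero (2 : Fin 3) (F := am j) ((am_smooth j).of_le (by exact_mod_cast le_top))
    (am_per j 2)
  rw [pd_am2, integral_const_mul] at h1
  have h2 : 2 * Real.pi * 2 ^ j ≠ 0 := by positivity
  exact (mul_eq_zero.1 h1).resolve_left h2

lemma int_am_sq (j : ℕ) : ∫ x, am j x ^ 2 ∂(cubeMeasure 3) = 1 / 2 := by
  have h1 : ∀ x, am j x ^ 2 = 1 / 2 - 1 / 2 * cm (j + 1) x := by
    intro x
    unfold am cm
    rw [Real.sin_sq_eq_half_sub]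
    rw [show 2 * Real.pi * (((2 ^ (j + 1) : ℕ) : ℝ) * x 2) =
      2 * (2 * Real.pi * (((2 ^ j : ℕ) : ℝ) * x 2)) by push_cast; ring]
    ring
  simp_rw [h1]
  rw [integral_sub (integrable_const _) ((cont_integrable (cm_smooth (j + 1)).continuous).const_mul _),
    integral_const_mul, int_cm]
  simp

lemma eLp_two {α : Type*} [MeasurableSpace α] {μ : Measure α} {f : α → ℝ} (hf : MemLp f 2 μ) :
    eLpNorm f 2 μ = ENNReal.ofReal (√(∫ x, f x ^ 2 ∂μ)) := by
  rw [hf.eLpNorm_eq_integral_rpow_norm (by norm_num) (by norm_num)]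
  congr 1
  rw [Real.sqrt_eq_rpow]
  congr 1
  · congr 1
    ext x
    simp
  · norm_num

theorem main : ∃ (T : ℝ) (b : ℝ → X3 → X3) (u : ℝ → X3 → ℝ), 0 < T ∧
    MemLrLp T 1 ⊤ b ∧ DivergenceFree T b ∧ IsDistributionalSolution T 2 b (fun _ => 0) u ∧
    ¬ IsParabolic T u := by
  obtain ⟨T, V, b, β, s, hT, hVm, hV1, hbm, hβm, hβi, hbB, hbd, herr, hs1, hs2, hs3⟩ := exists_approx
  obtain ⟨r, hrm, hr2, hrn, hr⟩ := correct (n := 2) hT hbm hβm hβi hbB hbd hVm hV1
    (ε := 1 / 40) (by norm_num) herr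
  have hβ0 : ∀ t, 0 ≤ β t := fun t => (abs_nonneg _).trans (hbB t 0 0)
  have hβi' : Integrable β (tm T) := hβi
  -- slices of `r`
  have hrs : ∀ᵐ t ∂(tm T), MemLp (r t) 2 (cubeMeasure 3) := by
    filter_upwards [hr2.prod_right_ae] with t ht
    refine (memLp_two_iff_integrable_sq ?_).2 ht
    exact (hrm.comp measurable_prodMk_left).aestronglyMeasurable
  have hVs : ∀ t, MemLp (V t) 2 (cubeMeasure 3) := by
    intro t
    refine MemLp.of_bound (C := 1) (hVm.comp measurable_prodMk_left).aestronglyMeasurable ?_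
    filter_upwards with x
    exact hV1 t x
  set u : ℝ → X3 → ℝ := fun t x => V t x + r t x with hu
  have hum : Measurable fun p : ℝ × X3 => u p.1 p.2 := hVm.add hrm
  have hus : ∀ᵐ t ∂(tm T), MemLp (u t) 2 (cubeMeasure 3) := by
    filter_upwards [hrs] with t ht
    exact (hVs t).add ht
  have hun : ∀ᵐ t ∂(tm T), eLpNorm (u t) 2 (cubeMeasure 3) ≤ 2 := by
    filter_upwards [hrs, hrn] with t ht1 ht2
    have h1 : eLpNorm (u t) 2 (cubeMeasure 3) ≤
        eLpNorm (V t) 2 (cubeMeasure 3) + eLpNorm (r t) 2 (cubeMeasure 3) :=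
      eLpNorm_add_le (hVs t).1 ht1.1 (by norm_num)
    have h2 : eLpNorm (V t) 2 (cubeMeasure 3) ≤ 1 := by
      have := eLpNorm_le_of_ae_bound (p := 2) (μ := cubeMeasure 3) (f := V t) (C := 1) (by
        filter_upwards with x
        exact hV1 t x)
      simpa using this
    have h3 : eLpNorm (r t) 2 (cubeMeasure 3) ≤ 1 := by
      rw [eLp_two ht1]
      have : √(∫ x, r t x ^ 2 ∂(cubeMeasure 3)) ≤ 1 := ht2.trans (by norm_num)
      rw [ENNReal.ofReal_le_one]
      exact this
    calc _ ≤ _ := h1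
      _ ≤ 1 + 1 := add_le_add h2 h3
      _ = 2 := by norm_num
  refine ⟨T, b, u, hT, ⟨hbm.aestronglyMeasurable, ?_⟩, ?_, ⟨?_, ⟨hum.aestronglyMeasurable, ?_⟩, ?_,
    ?_⟩, ?_⟩
  · -- `b ∈ L¹L^∞`
    rw [tm_eq, eLpNorm_one_eq_lintegral_enorm]
    have h1 : ∀ t, ‖eLpNorm (b t) ⊤ (torusMeasure 3)‖ₑ ≤ ENNReal.ofReal (β t) := by
      intro t
      rw [eLpNorm_exponent_top]
      refine eLpNormEssSup_le_of_ae_bound ?_
      filter_upwards with x
      rw [pi_norm_le_iff_of_nonneg (hβ0 t)]
      intro i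
      exact hbB t x i
    refine (lintegral_mono h1).trans_lt ?_
    exact hβi'.lintegral_lt_top
  · filter_upwards with t ψ hψ
    exact hbd t ψ hψ.1 hψ.2
  · exact MemLp.zero'
  · rw [tm_eq]
    refine lt_of_le_of_lt (b := (2 : ℝ≥0∞)) ?_ (by norm_num)
    rw [eLpNorm_exponent_top]
    refine eLpNormEssSup_le_of_ae_enorm_bound ?_
    filter_upwards [hun] with t ht
    exact ht
  · -- `u b ∈ L¹`
    rw [tm_eq]
    have hm : AEStronglyMeasurable (fun p : ℝ × X3 => u p.1 p.2 • b p.1 p.2)
      ((tm T).prod (torusMeasure 3)) := (hum.smul hbm).aestronglyMeasurable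
    have hnb : ∀ t x, ‖b t x‖ ≤ β t := by
      intro t x
      rw [pi_norm_le_iff_of_nonneg (hβ0 t)]
      exact fun i => hbB t x i
    rw [integrable_prod_iff hm]
    constructor
    · filter_upwards [hus] with t ht
      have h1 : Integrable (u t) (cubeMeasure 3) := ht.integrable (by norm_num)
      refine (h1.norm.mul_const (β t)).mono' ?_ ?_
      · exact ((hum.smul hbm).comp measurable_prodMk_left).aestronglyMeasurable
      · filter_upwards with x
        rw [norm_smul]
        exact mul_le_mul_of_nonneg_left (hnb t x) (norm_nonneg _)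
    · refine (hβi'.const_mul 2).mono' ?_ ?_
      · exact hm.norm.integral_prod_right'
      · filter_upwards [hus, hun] with t ht1 ht2
        rw [Real.norm_eq_abs, abs_of_nonneg (integral_nonneg fun x => norm_nonneg _)]
        have h1 : Integrable (u t) (cubeMeasure 3) := ht1.integrable (by norm_num)
        have h2 : ∫ x, ‖u t x • b t x‖ ∂(torusMeasure 3) ≤
            ∫ x, ‖u t x‖ * β t ∂(cubeMeasure 3) := by
          refine integral_mono_of_nonneg (Eventually.of_forall fun x => norm_nonneg _)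
            (h1.norm.mul_const _) (Eventually.of_forall fun x => ?_)
          simp only
          rw [norm_smul]
          exact mul_le_mul_of_nonneg_left (hnb t x) (norm_nonneg _)
        have h3 : ∫ x, ‖u t x‖ ∂(cubeMeasure 3) ≤ 2 := by
          have h4 : ∫ x, ‖u t x‖ ∂(cubeMeasure 3) = (eLpNorm (u t) 1 (cubeMeasure 3)).toReal := by
            rw [eLpNorm_one_eq_lintegral_enorm]
            exact integral_norm_eq_lintegral_enorm ht1.1
          rw [h4]
          have h5 : eLpNorm (u t) 1 (cubeMeasure 3) ≤ 2 :=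
            (eLpNorm_le_eLpNorm_of_exponent_le (by norm_num) ht1.1).trans ht2
          have := ENNReal.toReal_mono (by norm_num) h5
          simpa using this
        refine h2.trans ?_
        rw [integral_mul_const]
        exact mul_le_mul_of_nonneg_right h3 (hβ0 t)
  · -- the equation
    rintro φ ⟨hφ1, hφ2, hφ3⟩
    have hφ : TestT T φ := ⟨⟨hφ1, hφ2⟩, hφ3⟩
    obtain ⟨-, -, h⟩ := hr φ hφ
    rw [tm_eq]
    simp only [zero_mul, integral_zero, add_zero]
    exact h
  · -- not parabolic
    rintro ⟨-, G, ⟨hGm, hG⟩, hGw⟩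
    rw [tm_eq] at hGm hG hGw
    have hlow : ∀ j, ∀ᵐ t ∂(tm T), t ∈ Ioc (s j) (s j + 1 / kap j) →
        ENNReal.ofReal (kap j / 100) ≤ (eLpNorm (G t) 2 (torusMeasure 3)) ^ (2 : ℝ) := by
      intro j
      have hGs : ∀ᵐ t ∂(tm T), AEStronglyMeasurable (G t) (torusMeasure 3) := hGm.prodMk_left
      filter_upwards [hGw, hGs, hrs, hrn] with t h1 h2 h3 h4 ht
      have hcmper : ∀ i x, cm j (x + Pi.single i 1) = cm j x := by
        intro i x
        have h5 := sin_per (2 ^ j) 2 i x
        unfold cm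
        rw [Pi.add_apply]
        by_cases h : (2 : Fin 3) = i
        · subst h
          rw [Pi.single_eq_same]
          rw [show 2 * Real.pi * (((2 ^ j : ℕ) : ℝ) * (x 2 + 1)) =
            2 * Real.pi * (((2 ^ j : ℕ) : ℝ) * x 2) + ((2 ^ j : ℕ) : ℝ) * (2 * Real.pi) by ring]
          exact Real.cos_add_nat_mul_two_pi _ _
        · rw [Pi.single_eq_of_ne h, add_zero]
      have h5 := h1 (cm j) ⟨cm_smooth j, hcmper⟩ 2
      rw [partialD_eq, torus_eq, pd_cm2] at h5
      -- lower bound of the left side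
      have hκ := kap_pos j
      have i1 : Integrable (fun x => V t x * am j x) (cubeMeasure 3) := by
        have := (hVs t).integrable (by norm_num : (1 : ℝ≥0∞) ≤ 2)
        refine this.mono ((hVm.comp measurable_prodMk_left).mul
          (am_smooth j).continuous.measurable).aestronglyMeasurable ?_
        filter_upwards with x
        rw [norm_mul]
        have h6 : ‖am j x‖ ≤ 1 := Real.abs_sin_le_one _
        calc ‖V t x‖ * ‖am j x‖ ≤ ‖V t x‖ * 1 := mul_le_mul_of_nonneg_left h6 (norm_nonneg _)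
          _ = ‖V t x‖ := mul_one _
      have ham2 : MemLp (am j) 2 (cubeMeasure 3) :=
        (memLp_two_iff_integrable_sq (am_smooth j).continuous.aestronglyMeasurable).2
          (cont_integrable ((am_smooth j).continuous.pow 2))
      have i2 : Integrable (fun x => r t x * am j x) (cubeMeasure 3) := h3.integrable_mul ham2
      have e1 : ∫ x, V t x * am j x ∂(cubeMeasure 3) = Real.exp (-kap j * (t - s j)) * (1 / 2) := by
        rw [← int_am_sq j, ← integral_const_mul]
        congr 1
        ext x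
        rw [hs3 j t ht x]
        ring
      have e2 : |∫ x, r t x * am j x ∂(cubeMeasure 3)| ≤ 1 / 20 := by
        have h6 := cs h3.integrable_sq ham2.integrable_sq i2
        rw [int_am_sq] at h6
        have h7 : √(∫ x, r t x ^ 2 ∂(cubeMeasure 3)) ≤ 1 / 20 := h4.trans (by norm_num)
        have h8 : √(1 / 2 : ℝ) ≤ 1 := by
          rw [Real.sqrt_le_one]
          norm_num
        calc _ ≤ _ := h6
          _ ≤ 1 / 20 * 1 := mul_le_mul h7 h8 (Real.sqrt_nonneg _) (by norm_num)
          _ = 1 / 20 := by norm_num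
      have e3 : 9 / 25 ≤ Real.exp (-kap j * (t - s j)) := by
        have h6 : -1 ≤ -kap j * (t - s j) := by
          have h7 := ht.2
          have h8 : kap j * (t - s j) ≤ kap j * (1 / kap j) :=
            mul_le_mul_of_nonneg_left (by linarith) hκ.le
          rw [mul_one_div_cancel hκ.ne'] at h8
          linarith
        have h9 : (9 / 25 : ℝ) ≤ Real.exp (-1) := by
          rw [Real.exp_neg]
          have := Real.exp_one_lt_d9
          rw [le_inv_comm₀ (by norm_num) (Real.exp_pos 1)]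
          linarith
        exact h9.trans (Real.exp_le_exp.2 h6)
      have e4 : ∫ x, u t x * (-(2 * Real.pi * 2 ^ j) * am j x) ∂(cubeMeasure 3) =
          -(2 * Real.pi * 2 ^ j) * (∫ x, V t x * am j x ∂(cubeMeasure 3) +
            ∫ x, r t x * am j x ∂(cubeMeasure 3)) := by
        rw [← integral_add i1 i2, ← integral_const_mul]
        congr 1
        ext x
        simp only [hu]
        ring
      rw [e4] at h5
      have e5 : 2 * Real.pi * 2 ^ j * (1 / 10) ≤ |∫ x, G t x 2 * cm j x ∂(cubeMeasure 3)| := by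
        have h6 : ∫ x, G t x 2 * cm j x ∂(cubeMeasure 3) =
          (2 * Real.pi * 2 ^ j) * (∫ x, V t x * am j x ∂(cubeMeasure 3) +
            ∫ x, r t x * am j x ∂(cubeMeasure 3)) := by linarith
        rw [h6, abs_mul, abs_of_pos (by positivity : (0 : ℝ) < 2 * Real.pi * 2 ^ j)]
        apply mul_le_mul_of_nonneg_left _ (by positivity)
        refine le_trans ?_ (le_abs_self _)
        rw [e1]
        have h7 := (abs_le.1 e2).1
        linarith
      -- upper bound
      have e6 : ENNReal.ofReal |∫ x, G t x 2 * cm j x ∂(cubeMeasure 3)| ≤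
          eLpNorm (G t) 2 (torusMeasure 3) := by
        have h6 : ENNReal.ofReal |∫ x, G t x 2 * cm j x ∂(cubeMeasure 3)| =
            ‖∫ x, G t x 2 * cm j x ∂(cubeMeasure 3)‖ₑ := (Real.enorm_eq_ofReal_abs _).symm
        rw [h6]
        refine (enorm_integral_le_lintegral_enorm _).trans ?_
        have h7 : ∀ x, ‖G t x 2 * cm j x‖ₑ ≤ ‖G t x‖ₑ := by
          intro x
          rw [enorm_le_iff_norm_le, norm_mul]
          have h8 : ‖cm j x‖ ≤ 1 := Real.abs_cos_le_one _
          calc ‖G t x 2‖ * ‖cm j x‖ ≤ ‖G t x‖ * 1 :=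
                mul_le_mul (norm_le_pi_norm _ _) h8 (norm_nonneg _) (norm_nonneg _)
            _ = ‖G t x‖ := mul_one _
        refine (lintegral_mono h7).trans ?_
        rw [torus_eq] at h2 ⊢
        rw [← eLpNorm_one_eq_lintegral_enorm]
        exact eLpNorm_le_eLpNorm_of_exponent_le (by norm_num) h2
      have e7 : kap j / 100 = (2 * Real.pi * 2 ^ j * (1 / 10)) ^ (2 : ℝ) := by
        unfold kap
        rw [Real.rpow_two]
        ring
      rw [e7, ← ENNReal.ofReal_rpow_of_nonneg (by positivity) (by norm_num)]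
      exact ENNReal.rpow_le_rpow ((ENNReal.ofReal_le_ofReal e5).trans e6) (by norm_num)
    -- total
    have hfin : ∫⁻ t, (eLpNorm (G t) 2 (torusMeasure 3)) ^ (2 : ℝ) ∂(tm T) < ⊤ := by
      have h1 := lintegral_rpow_enorm_lt_top_of_eLpNorm_lt_top (p := 2) (by norm_num)
        (by norm_num) hG
      simpa using h1
    have hI : ∀ j, ENNReal.ofReal (1 / 100) ≤ ∫⁻ t in Ioc (s j) (s j + 1 / kap j),
        (eLpNorm (G t) 2 (torusMeasure 3)) ^ (2 : ℝ) ∂(tm T) := by
      intro j
      have hκ := kap_pos j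
      have h1 : ∫⁻ t in Ioc (s j) (s j + 1 / kap j), ENNReal.ofReal (kap j / 100) ∂(tm T) ≤
          ∫⁻ t in Ioc (s j) (s j + 1 / kap j),
            (eLpNorm (G t) 2 (torusMeasure 3)) ^ (2 : ℝ) ∂(tm T) := by
        apply lintegral_mono_ae
        rw [ae_restrict_iff' measurableSet_Ioc]
        exact hlow j
      refine le_trans ?_ h1
      rw [setLIntegral_const]
      have h2 : tm T (Ioc (s j) (s j + 1 / kap j)) = ENNReal.ofReal (1 / kap j) := by
        unfold tm
        rw [Measure.restrict_apply measurableSet_Ioc, inter_eq_left.2 (hs1 j), Real.volume_Ioc]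
        congr 1
        ring
      rw [h2, ← ENNReal.ofReal_mul (by positivity)]
      apply ENNReal.ofReal_le_ofReal
      have : kap j / 100 * (1 / kap j) = 1 / 100 := by field_simp
      rw [this]
    have hU : ∑' j, ∫⁻ t in Ioc (s j) (s j + 1 / kap j),
        (eLpNorm (G t) 2 (torusMeasure 3)) ^ (2 : ℝ) ∂(tm T) ≤
        ∫⁻ t, (eLpNorm (G t) 2 (torusMeasure 3)) ^ (2 : ℝ) ∂(tm T) := by
      rw [← lintegral_iUnion (fun j => measurableSet_Ioc) hs2]
      exact setLIntegral_le_lintegral _ _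
    have hinf : ∑' _ : ℕ, ENNReal.ofReal (1 / 100) = ⊤ :=
      ENNReal.tsum_const_eq_top_of_ne_zero (by simp)
    have := (ENNReal.tsum_le_tsum hI).trans hU
    rw [hinf] at this
    exact absurd hfin (not_lt.2 this)

end Pool.Agent.R212
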