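import Pool.Agent.R212.Par2

open MeasureTheory Set Filter Function
open scoped Topology ContDiff ENNReal

namespace Pool.Agent.R212

variable {n : ℕ}

lemma bv_eq (i : Fin n) : (bv i : Fin n → ℝ) = Pi.single i 1 := rfl

/-- smooth functions on `ℝ × T^n` -/
structure IsTest (φ : ℝ → (Fin n → ℝ) → ℝ) : Prop where
  smooth : ContDiff ℝ ∞ (fun p : ℝ × (Fin n → ℝ) => φ p.1 p.2)
  per : ∀ t i x, φ t (x + Pi.single i 1) = φ t x

/-- Laplacian -/
noncomputable def lap (f : (Fin n → ℝ) → ℝ) (x : Fin n → ℝ) : ℝ := ∑ i, pd i (pd i f) x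

/-- `b · ∇ f` -/
noncomputable def adv (b : (Fin n → ℝ) → (Fin n → ℝ)) (f : (Fin n → ℝ) → ℝ) (x : Fin n → ℝ) : ℝ :=
  ∑ i, b x i * pd i f x

/-- The adjoint operator `∂_t + b · ∇ + Δ`. -/
noncomputable def Ls (b : ℝ → (Fin n → ℝ) → (Fin n → ℝ)) (φ : ℝ → (Fin n → ℝ) → ℝ) (t : ℝ)
    (x : Fin n → ℝ) : ℝ := dt φ t x + adv (b t) (φ t) x + lap (φ t) x

lemma pd_slice {φ : ℝ → (Fin n → ℝ) → ℝ}
    (h : ContDiff ℝ 1 (fun p : ℝ × (Fin n → ℝ) => φ p.1 p.2)) (i : Fin n) (t : ℝ)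
    (x : Fin n → ℝ) :
    pd i (φ t) x = fderiv ℝ (fun p : ℝ × (Fin n → ℝ) => φ p.1 p.2) (t, x) (0, bv i) := by
  have h1 := ((h.differentiable (by norm_num)) (t, x)).hasFDerivAt
  have h2 : HasDerivAt (fun s : ℝ => ((t, x + s • bv i) : ℝ × (Fin n → ℝ))) (0, bv i) 0 := by
    have h3 : HasDerivAt (fun s : ℝ => x + s • bv i) (bv i) 0 := by
      have := ((hasDerivAt_id (0 : ℝ)).smul_const (bv i)).const_add x
      simpa using this
    exact (hasDerivAt_const _ t).prodMk h3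
  have h1' : HasFDerivAt (fun p : ℝ × (Fin n → ℝ) => φ p.1 p.2)
      (fderiv ℝ (fun p : ℝ × (Fin n → ℝ) => φ p.1 p.2) (t, x)) (t, x + (0 : ℝ) • bv i) := by
    rw [zero_smul, add_zero]
    exact h1
  have h4 : HasDerivAt (fun s : ℝ => φ t (x + s • bv i))
      (fderiv ℝ (fun p : ℝ × (Fin n → ℝ) => φ p.1 p.2) (t, x) (0, bv i)) 0 :=
    HasFDerivAt.comp_hasDerivAt (f := fun s : ℝ => ((t, x + s • bv i) : ℝ × (Fin n → ℝ))) 0 h1' h2
  have h5 : DifferentiableAt ℝ (φ t) x := by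
    have : φ t = (fun p : ℝ × (Fin n → ℝ) => φ p.1 p.2) ∘ fun y => (t, y) := rfl
    rw [this]
    exact ((h.differentiable (by norm_num)) _).comp _ (by fun_prop)
  exact (pd_hasDeriv i h5).unique h4

lemma pd_smooth {φ : ℝ → (Fin n → ℝ) → ℝ}
    (h : ContDiff ℝ ∞ (fun p : ℝ × (Fin n → ℝ) => φ p.1 p.2)) (i : Fin n) :
    ContDiff ℝ ∞ (fun p : ℝ × (Fin n → ℝ) => pd i (φ p.1) p.2) := by
  have : (fun p : ℝ × (Fin n → ℝ) => pd i (φ p.1) p.2) =
      fun p => fderiv ℝ (fun p : ℝ × (Fin n → ℝ) => φ p.1 p.2) p (0, bv i) := by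
    ext p
    exact pd_slice (h.of_le (by exact_mod_cast le_top)) i p.1 p.2
  rw [this]
  exact (h.fderiv_right (by exact_mod_cast le_top)).clm_apply contDiff_const

lemma dt_smooth {φ : ℝ → (Fin n → ℝ) → ℝ}
    (h : ContDiff ℝ ∞ (fun p : ℝ × (Fin n → ℝ) => φ p.1 p.2)) :
    ContDiff ℝ ∞ (fun p : ℝ × (Fin n → ℝ) => dt φ p.1 p.2) := by
  have : (fun p : ℝ × (Fin n → ℝ) => dt φ p.1 p.2) =
      fun p => fderiv ℝ (fun p : ℝ × (Fin n → ℝ) => φ p.1 p.2) p (1, 0) := by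
    ext p
    exact dt_eq (h.of_le (by exact_mod_cast le_top)) p.1 p.2
  rw [this]
  exact (h.fderiv_right (by exact_mod_cast le_top)).clm_apply contDiff_const

lemma lap_smooth {φ : ℝ → (Fin n → ℝ) → ℝ}
    (h : ContDiff ℝ ∞ (fun p : ℝ × (Fin n → ℝ) => φ p.1 p.2)) :
    ContDiff ℝ ∞ (fun p : ℝ × (Fin n → ℝ) => lap (φ p.1) p.2) := by
  unfold lap
  apply ContDiff.sum
  intro i _
  exact pd_smooth (φ := fun t => pd i (φ t)) (pd_smooth h i) i

lemma slice_smooth {φ : ℝ → (Fin n → ℝ) → ℝ}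
    (h : ContDiff ℝ ∞ (fun p : ℝ × (Fin n → ℝ) => φ p.1 p.2)) (t : ℝ) : ContDiff ℝ ∞ (φ t) := by
  have : φ t = (fun p : ℝ × (Fin n → ℝ) => φ p.1 p.2) ∘ fun y => (t, y) := rfl
  rw [this]
  exact h.comp (by fun_prop)

lemma pd_smooth' {f : (Fin n → ℝ) → ℝ} (h : ContDiff ℝ ∞ f) (i : Fin n) :
    ContDiff ℝ ∞ (pd i f) := by
  unfold pd
  exact (h.fderiv_right (by exact_mod_cast le_top)).clm_apply contDiff_const

lemma pd_per {f : (Fin n → ℝ) → ℝ} {c : Fin n → ℝ} (hp : ∀ x, f (x + c) = f x) (i : Fin n)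
    (x : Fin n → ℝ) : pd i f (x + c) = pd i f x := by
  unfold pd
  rw [← fderiv_comp_add_right]
  congr 2
  ext y
  exact hp y

lemma pd_mul {f g : (Fin n → ℝ) → ℝ} (i : Fin n) {x : Fin n → ℝ} (hf : DifferentiableAt ℝ f x)
    (hg : DifferentiableAt ℝ g x) :
    pd i (fun x => f x * g x) x = f x * pd i g x + pd i f x * g x := by
  unfold pd
  rw [fderiv_fun_mul hf hg]
  simp
  ring

lemma pd_add {f g : (Fin n → ℝ) → ℝ} (i : Fin n) {x : Fin n → ℝ} (hf : DifferentiableAt ℝ f x)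
    (hg : DifferentiableAt ℝ g x) :
    pd i (fun x => f x + g x) x = pd i f x + pd i g x := by
  unfold pd
  rw [fderiv_fun_add hf hg]
  simp

lemma pd_const_mul {f : (Fin n → ℝ) → ℝ} (i : Fin n) (c : ℝ) {x : Fin n → ℝ}
    (hf : DifferentiableAt ℝ f x) :
    pd i (fun x => c * f x) x = c * pd i f x := by
  unfold pd
  rw [fderiv_const_mul hf]
  simp

lemma cdiff {f : (Fin n → ℝ) → ℝ} (h : ContDiff ℝ ∞ f) (x : Fin n → ℝ) : DifferentiableAt ℝ f x :=
  (h.differentiable (by simp)) x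

/-- integration by parts on the torus -/
lemma ibp {f g : (Fin (n + 1) → ℝ) → ℝ} (hf : ContDiff ℝ ∞ f) (hg : ContDiff ℝ ∞ g)
    (pf : ∀ i x, f (x + Pi.single i 1) = f x) (pg : ∀ i x, g (x + Pi.single i 1) = g x)
    (i : Fin (n + 1)) :
    ∫ x, f x * pd i g x ∂(cubeMeasure (n + 1)) = -∫ x, pd i f x * g x ∂(cubeMeasure (n + 1)) := by
  have h0 := int_pd_zero i (F := fun x => f x * g x)
    ((hf.mul hg).of_le (by exact_mod_cast le_top)) (fun x => by
      simp only [bv_eq]; rw [pf i x, pg i x])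
  have h1 : (pd i fun x => f x * g x) = fun x => f x * pd i g x + pd i f x * g x := by
    ext x
    exact pd_mul i (cdiff hf x) (cdiff hg x)
  rw [h1, integral_add] at h0
  · linarith
  · exact cont_integrable (hf.continuous.mul (pd_smooth' hg i).continuous)
  · exact cont_integrable ((pd_smooth' hf i).continuous.mul hg.continuous)

lemma int_mul_lap {f g : (Fin (n + 1) → ℝ) → ℝ} (hf : ContDiff ℝ ∞ f) (hg : ContDiff ℝ ∞ g)
    (pf : ∀ i x, f (x + Pi.single i 1) = f x) (pg : ∀ i x, g (x + Pi.single i 1) = g x) :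
    ∫ x, f x * lap g x ∂(cubeMeasure (n + 1)) =
      -∑ i, ∫ x, pd i f x * pd i g x ∂(cubeMeasure (n + 1)) := by
  unfold lap
  simp_rw [Finset.mul_sum]
  rw [integral_finsetSum, ← Finset.sum_neg_distrib]
  · apply Finset.sum_congr rfl
    intro i _
    exact ibp hf (pd_smooth' hg i) pf (fun j x => pd_per (pg j) i x) i
  · intro i _
    exact cont_integrable (hf.continuous.mul (pd_smooth' (pd_smooth' hg i) i).continuous)

lemma int_lap_symm {f g : (Fin (n + 1) → ℝ) → ℝ} (hf : ContDiff ℝ ∞ f) (hg : ContDiff ℝ ∞ g)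
    (pf : ∀ i x, f (x + Pi.single i 1) = f x) (pg : ∀ i x, g (x + Pi.single i 1) = g x) :
    ∫ x, f x * lap g x ∂(cubeMeasure (n + 1)) = ∫ x, g x * lap f x ∂(cubeMeasure (n + 1)) := by
  rw [int_mul_lap hf hg pf pg, int_mul_lap hg hf pg pf]
  simp_rw [mul_comm]

/-- Divergence-free field on the torus. -/
def DivFree (b : (Fin n → ℝ) → (Fin n → ℝ)) : Prop :=
  ∀ ψ : (Fin n → ℝ) → ℝ, ContDiff ℝ ∞ ψ → (∀ i x, ψ (x + Pi.single i 1) = ψ x) →
    ∫ x, ∑ i, b x i * pd i ψ x ∂(cubeMeasure n) = 0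

/-- `L²` norm on the torus -/
noncomputable def nrm (f : (Fin n → ℝ) → ℝ) : ℝ := √(∫ x, f x ^ 2 ∂(cubeMeasure n))

/-- Slicewise energy inequality. -/
lemma slice_energy {b : ℝ → (Fin (n + 1) → ℝ) → (Fin (n + 1) → ℝ)}
    {φ : ℝ → (Fin (n + 1) → ℝ) → ℝ} (hφ : IsTest φ) (t : ℝ) (hb : Measurable (b t)) {B : ℝ}
    (hB : ∀ x i, |b t x i| ≤ B) (hdiv : DivFree (b t)) :
    2 * ∫ x, φ t x * Ls b φ t x ∂(cubeMeasure (n + 1)) ≤
      ∫ x, dt (fun t x => φ t x ^ 2) t x ∂(cubeMeasure (n + 1)) := by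
  have hs := hφ.smooth
  have hs1 : ContDiff ℝ 1 (fun p : ℝ × (Fin (n + 1) → ℝ) => φ p.1 p.2) :=
    hs.of_le (by exact_mod_cast le_top)
  have hf := slice_smooth hs t
  have pf := hφ.per t
  have hlapc : Continuous (lap (φ t)) :=
    (lap_smooth hs).continuous.comp
      (by fun_prop : Continuous fun x : Fin (n + 1) → ℝ => ((t, x) : ℝ × (Fin (n + 1) → ℝ)))
  have hdtc : Continuous (dt φ t) := by
    have := (dt_smooth hs).continuous
    fun_prop
  have e1 : ∀ x, dt (fun t x => φ t x ^ 2) t x = 2 * (φ t x * dt φ t x) := by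
    intro x
    have := ((dt_hasDeriv hs1 t x).fun_pow 2).deriv
    unfold dt
    rw [this]
    unfold dt
    push_cast
    ring
  have e2 : ∫ x, φ t x * adv (b t) (φ t) x ∂(cubeMeasure (n + 1)) = 0 := by
    have h1 := hdiv (fun x => φ t x * φ t x) (hf.mul hf) (fun i x => by simp only [pf i x])
    have h2 : ∀ x, ∑ i, b t x i * pd i (fun x => φ t x * φ t x) x =
        2 * (φ t x * adv (b t) (φ t) x) := by
      intro x
      unfold adv
      rw [Finset.mul_sum, Finset.mul_sum]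
      apply Finset.sum_congr rfl
      intro i _
      rw [pd_mul i (cdiff hf x) (cdiff hf x)]
      ring
    simp_rw [h2] at h1
    rw [integral_const_mul] at h1
    linarith
  have e3 : ∫ x, φ t x * lap (φ t) x ∂(cubeMeasure (n + 1)) ≤ 0 := by
    rw [int_mul_lap hf hf pf pf]
    have : 0 ≤ ∑ i, ∫ x, pd i (φ t) x * pd i (φ t) x ∂(cubeMeasure (n + 1)) :=
      Finset.sum_nonneg fun i _ => integral_nonneg fun x => mul_self_nonneg _
    linarith
  have hadv : Integrable (fun x => φ t x * adv (b t) (φ t) x) (cubeMeasure (n + 1)) := by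
    unfold adv
    simp_rw [Finset.mul_sum]
    apply integrable_finsetSum
    intro i _
    obtain ⟨C, hC0, hC⟩ := cont_bounded (F := fun x => φ t x * pd i (φ t) x)
      (hf.continuous.mul (pd_smooth' hf i).continuous)
    refine bounded_integrable (C := C * B) ?_ ?_
    · have h1 : Measurable fun x => b t x i := (measurable_pi_apply i).comp hb
      have h2 : Measurable fun x => φ t x := hf.continuous.measurable
      have h3 : Measurable fun x => pd i (φ t) x := (pd_smooth' hf i).continuous.measurable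
      exact h2.mul (h1.mul h3)
    · intro x hx
      rw [show φ t x * (b t x i * pd i (φ t) x) = (φ t x * pd i (φ t) x) * b t x i by ring, abs_mul]
      exact mul_le_mul (hC x hx) (hB x i) (abs_nonneg _) hC0
  have hLs : ∫ x, φ t x * Ls b φ t x ∂(cubeMeasure (n + 1)) =
      ∫ x, φ t x * dt φ t x ∂(cubeMeasure (n + 1)) +
      ∫ x, φ t x * adv (b t) (φ t) x ∂(cubeMeasure (n + 1)) +
      ∫ x, φ t x * lap (φ t) x ∂(cubeMeasure (n + 1)) := by
    unfold Ls
    simp_rw [mul_add]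
    rw [integral_add, integral_add]
    · exact cont_integrable (hf.continuous.mul hdtc)
    · exact hadv
    · exact (cont_integrable (hf.continuous.mul hdtc)).add hadv
    · exact cont_integrable (hf.continuous.mul hlapc)
  rw [hLs, e2]
  simp_rw [e1]
  rw [integral_const_mul]
  linarith

/-- Energy estimate for the backward adjoint problem. -/
theorem energy_est {b : ℝ → (Fin (n + 1) → ℝ) → (Fin (n + 1) → ℝ)}
    {φ : ℝ → (Fin (n + 1) → ℝ) → ℝ} (hφ : IsTest φ) {T : ℝ} (hT : 0 ≤ T)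
    (hφT : ∀ x, φ T x = 0) (hb : ∀ t, Measurable (b t)) {β : ℝ → ℝ}
    (hB : ∀ t x i, |b t x i| ≤ β t) (hdiv : ∀ t, DivFree (b t)) {γ : ℝ → ℝ}
    (hγ : IntegrableOn γ (Ioc 0 T)) (hγ' : ∀ t, nrm (Ls b φ t) ≤ γ t) :
    ∀ t ∈ Icc 0 T, nrm (φ t) ≤ 2 * ∫ s in Ioc 0 T, γ s := by
  have hs := hφ.smooth
  have hsq : ContDiff ℝ 1 (fun p : ℝ × (Fin (n + 1) → ℝ) => (fun t x => φ t x ^ 2) p.1 p.2) :=
    (hs.pow 2).of_le (by exact_mod_cast le_top)
  have hnc : Continuous fun t => nrm (φ t) := by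
    unfold nrm
    exact (cont_param (K := fun p => φ p.1 p.2 ^ 2) (hs.continuous.pow 2)).sqrt
  have hγ0 : ∀ t, 0 ≤ γ t := fun t => (Real.sqrt_nonneg _).trans (hγ' t)
  set Γ := ∫ s in Ioc 0 T, γ s with hΓ
  have hΓ0 : 0 ≤ Γ := setIntegral_nonneg measurableSet_Ioc fun t _ => hγ0 t
  obtain ⟨t₀, ht₀, hmax⟩ := isCompact_Icc.exists_isMaxOn (nonempty_Icc.2 hT) hnc.continuousOn
  set Y := nrm (φ t₀) with hY
  have hY0 : 0 ≤ Y := Real.sqrt_nonneg _
  have hYsq : Y ^ 2 = ∫ x, φ t₀ x ^ 2 ∂(cubeMeasure (n + 1)) :=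
    Real.sq_sqrt (integral_nonneg fun x => sq_nonneg _)
  have hftc := ftc_time (G := fun t x => φ t x ^ 2) hsq ht₀.2
  have hT0 : ∫ x, φ T x ^ 2 ∂(cubeMeasure (n + 1)) = 0 := by simp [hφT]
  rw [hT0, ← hYsq, zero_sub] at hftc
  have hlow : ∀ t ∈ Ioc t₀ T, -(2 * Y * γ t) ≤
      ∫ x, dt (fun t x => φ t x ^ 2) t x ∂(cubeMeasure (n + 1)) := by
    intro t ht
    have h1 := slice_energy hφ t (hb t) (hB t) (hdiv t)
    have hf := slice_smooth hs t
    have hlapc : Continuous (lap (φ t)) :=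
      (lap_smooth hs).continuous.comp
        (by fun_prop : Continuous fun x : Fin (n + 1) → ℝ => ((t, x) : ℝ × (Fin (n + 1) → ℝ)))
    have hdtc : Continuous (dt φ t) := by
      have := (dt_smooth hs).continuous
      fun_prop
    -- bounds on `Ls`
    have hLm : Measurable (Ls b φ t) := by
      unfold Ls adv
      have h2 : ∀ i, Measurable fun x => b t x i := fun i => (measurable_pi_apply i).comp (hb t)
      have h3 : ∀ i, Measurable fun x => pd i (φ t) x := fun i =>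
        (pd_smooth' hf i).continuous.measurable
      have h4 := hlapc.measurable
      have h5 := hdtc.measurable
      refine (h5.add ?_).add h4
      exact Finset.measurable_sum _ fun i _ => (h2 i).mul (h3 i)
    have hLb : ∃ C, ∀ x ∈ cube (n + 1), |Ls b φ t x| ≤ C := by
      obtain ⟨C1, hC10, hC1⟩ := cont_bounded hdtc
      obtain ⟨C2, hC20, hC2⟩ := cont_bounded hlapc
      choose C3 hC30 hC3 using fun i => cont_bounded (pd_smooth' hf i).continuous
      refine ⟨C1 + (∑ i, β t * C3 i) + C2, fun x hx => ?_⟩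
      unfold Ls adv
      refine (abs_add_le _ _).trans (add_le_add ((abs_add_le _ _).trans (add_le_add (hC1 x hx) ?_))
        (hC2 x hx))
      refine (Finset.abs_sum_le_sum_abs _ _).trans (Finset.sum_le_sum fun i _ => ?_)
      rw [abs_mul]
      exact mul_le_mul (hB t x i) (hC3 i x hx) (abs_nonneg _) ((abs_nonneg _).trans (hB t x i))
    obtain ⟨C, hC⟩ := hLb
    obtain ⟨C', hC'0, hC'⟩ := cont_bounded hf.continuous
    have i1 : Integrable (fun x => φ t x ^ 2) (cubeMeasure (n + 1)) :=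
      cont_integrable (hf.continuous.pow 2)
    have i2 : Integrable (fun x => Ls b φ t x ^ 2) (cubeMeasure (n + 1)) :=
      bounded_integrable (C := C ^ 2) (hLm.pow_const 2) (fun x hx => by
        rw [abs_pow]
        exact pow_le_pow_left₀ (abs_nonneg _) (hC x hx) 2)
    have i3 : Integrable (fun x => φ t x * Ls b φ t x) (cubeMeasure (n + 1)) :=
      bounded_integrable (C := C' * C) (hf.continuous.measurable.mul hLm) (fun x hx => by
        rw [abs_mul]
        exact mul_le_mul (hC' x hx) (hC x hx) (abs_nonneg _) hC'0)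
    have h2 := cs i1 i2 i3
    have h3 : √(∫ x, φ t x ^ 2 ∂(cubeMeasure (n + 1))) ≤ Y :=
      hmax (show t ∈ Icc 0 T from ⟨ht₀.1.trans ht.1.le, ht.2⟩)
    have h4 : √(∫ x, Ls b φ t x ^ 2 ∂(cubeMeasure (n + 1))) ≤ γ t := hγ' t
    have h5 : |∫ x, φ t x * Ls b φ t x ∂(cubeMeasure (n + 1))| ≤ Y * γ t :=
      h2.trans (mul_le_mul h3 h4 (Real.sqrt_nonneg _) hY0)
    have h6 := neg_abs_le (∫ x, φ t x * Ls b φ t x ∂(cubeMeasure (n + 1)))
    linarith
  have hc : Continuous fun t => ∫ x, dt (fun t x => φ t x ^ 2) t x ∂(cubeMeasure (n + 1)) :=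
    cont_param (K := fun p => dt (fun t x => φ t x ^ 2) p.1 p.2) (dt_cont hsq)
  have hsub : Ioc t₀ T ⊆ Ioc 0 T := Ioc_subset_Ioc_left ht₀.1
  have hint1 : IntegrableOn (fun t => -(2 * Y * γ t)) (Ioc t₀ T) :=
    ((hγ.mono_set hsub).const_mul (2 * Y)).neg
  have h7 : -(2 * Y * ∫ s in Ioc t₀ T, γ s) ≤ -Y ^ 2 := by
    rw [← hftc, intervalIntegral.integral_of_le ht₀.2, ← integral_const_mul, ← integral_neg]
    exact setIntegral_mono_on hint1 ((hc.integrableOn_Icc).mono_set Ioc_subset_Icc_self)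
      measurableSet_Ioc hlow
  have h8 : ∫ s in Ioc t₀ T, γ s ≤ Γ :=
    setIntegral_mono_set hγ (Eventually.of_forall hγ0) hsub.eventuallyLE
  have h9 : Y ^ 2 ≤ 2 * Y * Γ := by
    have := mul_le_mul_of_nonneg_left h8 (by positivity : 0 ≤ 2 * Y)
    linarith
  have h10 : Y ≤ 2 * Γ := by
    rcases hY0.eq_or_lt with h | h
    · rw [← h]; positivity
    · nlinarith
  intro t ht
  exact (hmax ht).trans h10

end Pool.Agent.R212
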