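import Pool.Agent.R212.Par3

open MeasureTheory Set Filter Function
open scoped Topology ContDiff ENNReal InnerProductSpace

namespace Pool.Agent.R212

variable {n : ℕ}

/-- Lebesgue measure on the time interval -/
noncomputable def tm (T : ℝ) : Measure ℝ := volume.restrict (Ioc 0 T)

/-- space-time measure -/
noncomputable def PT (n : ℕ) (T : ℝ) : Measure (ℝ × (Fin n → ℝ)) := (tm T).prod (cubeMeasure n)

instance (T : ℝ) : IsFiniteMeasure (tm T) := by unfold tm; infer_instance
instance (n : ℕ) (T : ℝ) : IsFiniteMeasure (PT n T) := by unfold PT; infer_instance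

/-- slice norm -/
noncomputable def sn (f : ℝ × (Fin n → ℝ) → ℝ) (t : ℝ) : ℝ :=
  √(∫ x, f (t, x) ^ 2 ∂(cubeMeasure n))

lemma sn_nonneg (f : ℝ × (Fin n → ℝ) → ℝ) (t : ℝ) : 0 ≤ sn f t := Real.sqrt_nonneg _

lemma sn_sq (f : ℝ × (Fin n → ℝ) → ℝ) (t : ℝ) :
    sn f t ^ 2 = ∫ x, f (t, x) ^ 2 ∂(cubeMeasure n) :=
  Real.sq_sqrt (integral_nonneg fun _ => sq_nonneg _)

lemma sn_meas {f : ℝ × (Fin n → ℝ) → ℝ} (hf : StronglyMeasurable f) : Measurable (sn f) := by
  unfold sn
  have h : StronglyMeasurable fun p => f p ^ 2 := hf.pow 2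
  exact h.integral_prod_right'.measurable.sqrt

lemma sn_sq_int {T : ℝ} {f : ℝ × (Fin n → ℝ) → ℝ} (hf : Integrable (fun p => f p ^ 2) (PT n T)) :
    Integrable (fun t => sn f t ^ 2) (tm T) := by
  simp_rw [sn_sq]
  exact hf.integral_prod_left

lemma sn_sq_integral {T : ℝ} {f : ℝ × (Fin n → ℝ) → ℝ}
    (hf : Integrable (fun p => f p ^ 2) (PT n T)) :
    ∫ t, sn f t ^ 2 ∂(tm T) = ∫ p, f p ^ 2 ∂(PT n T) := by
  simp_rw [sn_sq]
  exact (integral_prod _ hf).symm

lemma mink {α : Type*} [MeasurableSpace α] {μ : Measure α} {u v : α → ℝ}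
    (hu : MemLp u 2 μ) (hv : MemLp v 2 μ) :
    √(∫ x, (u x + v x) ^ 2 ∂μ) ≤ √(∫ x, u x ^ 2 ∂μ) + √(∫ x, v x ^ 2 ∂μ) := by
  have hu2 : Integrable (fun x => u x ^ 2) μ := hu.integrable_sq
  have hv2 : Integrable (fun x => v x ^ 2) μ := hv.integrable_sq
  have huv : Integrable (fun x => u x * v x) μ := hu.integrable_mul hv
  have h1 := cs hu2 hv2 huv
  rw [Real.sqrt_le_left (by positivity)]
  have h3 : (fun x => (u x + v x) ^ 2) = fun x => u x ^ 2 + 2 * (u x * v x) + v x ^ 2 := by
    ext x; ring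
  rw [h3, integral_add (by fun_prop) hv2, integral_add hu2 (by fun_prop), integral_const_mul]
  have h4 := le_abs_self (∫ x, u x * v x ∂μ)
  have h5 := Real.sq_sqrt (integral_nonneg fun x => sq_nonneg (u x) : 0 ≤ ∫ x, u x ^ 2 ∂μ)
  have h6 := Real.sq_sqrt (integral_nonneg fun x => sq_nonneg (v x) : 0 ≤ ∫ x, v x ^ 2 ∂μ)
  nlinarith

/-- The Hahn–Banach/Riesz step: a bounded functional on a subspace of the weighted mixed-norm
space is represented by a function that is bounded in time with values in `L²`. -/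
theorem duality {T : ℝ} {w : ℝ → ℝ} (hwm : Measurable w) (hw1 : ∀ t, 1 ≤ w t)
    (hw2 : Integrable (fun t => w t ^ 2) (tm T)) (V : Submodule ℝ (Lp ℝ 2 (PT n T)))
    (om : Lp ℝ 2 (PT n T)) {c : ℝ} (hc : 0 ≤ c)
    (hV : ∀ f ∈ V, ⟪om, f⟫_ℝ ≤ c * ∫ t, w t * sn f t ∂(tm T)) :
    ∃ ρ : Lp ℝ 2 (PT n T), (∀ f ∈ V, ⟪ρ, f⟫_ℝ = ⟪om, f⟫_ℝ) ∧
      ∀ᵐ t ∂(tm T), sn (fun p => ρ p / w p.1) t ≤ c := by
  have hsm : ∀ f : Lp ℝ 2 (PT n T), Measurable (sn f) := fun f => sn_meas (Lp.stronglyMeasurable f)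
  have hsq : ∀ f : Lp ℝ 2 (PT n T), Integrable (fun p => f p ^ 2) (PT n T) := fun f =>
    (Lp.memLp f).integrable_sq
  have hslice : ∀ f : Lp ℝ 2 (PT n T), ∀ᵐ t ∂(tm T), MemLp (fun x => f (t, x)) 2 (cubeMeasure n) := by
    intro f
    have h1 := (hsq f).prod_right_ae
    filter_upwards [h1] with t ht
    have h2 : AEStronglyMeasurable (fun x => f (t, x)) (cubeMeasure n) :=
      ((Lp.stronglyMeasurable f).comp_measurable measurable_prodMk_left).aestronglyMeasurable
    exact (memLp_two_iff_integrable_sq h2).2 ht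
  have hwn : ∀ f : Lp ℝ 2 (PT n T), Integrable (fun t => w t * sn f t) (tm T) := by
    intro f
    refine Integrable.mono' ((hw2.add (sn_sq_int (hsq f))).div_const 2)
      (hwm.mul (hsm f)).aestronglyMeasurable ?_
    filter_upwards with t
    simp only [Pi.add_apply]
    rw [Real.norm_eq_abs, abs_of_nonneg (mul_nonneg (by linarith [hw1 t]) (sn_nonneg _ _))]
    nlinarith [sq_nonneg (w t - sn f t)]
  set N : Lp ℝ 2 (PT n T) → ℝ := fun f => c * ∫ t, w t * sn f t ∂(tm T) with hN
  have N_hom : ∀ a : ℝ, 0 < a → ∀ f, N (a • f) = a * N f := by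
    intro a ha f
    have h1 : ∀ᵐ t ∂(tm T), w t * sn (a • f : Lp ℝ 2 (PT n T)) t = a * (w t * sn f t) := by
      have h2 := Measure.ae_ae_of_ae_prod (Lp.coeFn_smul a f)
      filter_upwards [h2] with t ht
      have h3 : ∫ x, (a • f : Lp ℝ 2 (PT n T)) (t, x) ^ 2 ∂(cubeMeasure n)
          = a ^ 2 * ∫ x, f (t, x) ^ 2 ∂(cubeMeasure n) := by
        rw [← integral_const_mul]
        apply integral_congr_ae
        filter_upwards [ht] with x hx
        rw [hx]
        simp
        ring
      unfold sn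
      rw [h3, Real.sqrt_mul (sq_nonneg a), Real.sqrt_sq ha.le]
      ring
    simp only [hN]
    rw [integral_congr_ae h1, integral_const_mul]
    ring
  have N_add : ∀ f g, N (f + g) ≤ N f + N g := by
    intro f g
    have h1 : ∀ᵐ t ∂(tm T), w t * sn (f + g : Lp ℝ 2 (PT n T)) t ≤ w t * sn f t + w t * sn g t := by
      have h2 := Measure.ae_ae_of_ae_prod (Lp.coeFn_add f g)
      filter_upwards [h2, hslice f, hslice g] with t ht hf hg
      have h3 : ∫ x, (f + g : Lp ℝ 2 (PT n T)) (t, x) ^ 2 ∂(cubeMeasure n)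
          = ∫ x, (f (t, x) + g (t, x)) ^ 2 ∂(cubeMeasure n) := by
        apply integral_congr_ae
        filter_upwards [ht] with x hx
        rw [hx]
        simp
      have h4 := mink hf hg
      rw [← mul_add]
      apply mul_le_mul_of_nonneg_left _ (by linarith [hw1 t])
      unfold sn
      rw [h3]
      exact h4
    simp only [hN]
    rw [← mul_add, ← integral_add (hwn f) (hwn g)]
    exact mul_le_mul_of_nonneg_left (integral_mono_ae (hwn _) ((hwn f).add (hwn g)) h1) hc
  set ℓ : Lp ℝ 2 (PT n T) →ₗ[ℝ] ℝ := (innerSL ℝ om : Lp ℝ 2 (PT n T) →L[ℝ] ℝ).toLinearMap with hℓ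
  obtain ⟨G, hG1, hG2⟩ := exists_extension_of_le_sublinear
    (⟨V, ℓ.domRestrict V⟩ : Lp ℝ 2 (PT n T) →ₗ.[ℝ] ℝ) N N_hom N_add
    (fun x => hV x x.2)
  -- boundedness
  have hNb : ∀ f, N f ≤ c * √(∫ t, w t ^ 2 ∂(tm T)) * ‖f‖ := by
    intro f
    have h1 := cs (f := w) (g := sn f) hw2 (sn_sq_int (hsq f)) (hwn f)
    rw [sn_sq_integral (hsq f)] at h1
    have h2 : √(∫ p, f p ^ 2 ∂(PT n T)) = ‖f‖ := by
      rw [← Real.sqrt_sq (norm_nonneg f), ← real_inner_self_eq_norm_sq, L2.inner_def]
      congr 2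
      ext p
      simp
    rw [h2] at h1
    simp only [hN]
    rw [mul_assoc]
    exact mul_le_mul_of_nonneg_left ((le_abs_self _).trans h1) hc
  have hGb : ∀ f, ‖G f‖ ≤ c * √(∫ t, w t ^ 2 ∂(tm T)) * ‖f‖ := by
    intro f
    rw [Real.norm_eq_abs, abs_le]
    constructor
    · have h1 := (hG2 (-f)).trans (hNb (-f))
      rw [map_neg, norm_neg] at h1
      linarith
    · exact (hG2 f).trans (hNb f)
  set G' : Lp ℝ 2 (PT n T) →L[ℝ] ℝ := G.mkContinuous _ hGb with hG'
  set ρ : Lp ℝ 2 (PT n T) := (InnerProductSpace.toDual ℝ (Lp ℝ 2 (PT n T))).symm G' with hρ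
  have hρG : ∀ f, ⟪ρ, f⟫_ℝ = G f := by
    intro f
    rw [hρ, InnerProductSpace.toDual_symm_apply]
    rfl
  refine ⟨ρ, fun f hf => ?_, ?_⟩
  · rw [hρG f]
    exact hG1 ⟨f, hf⟩
  -- the bound
  set r : ℝ × (Fin n → ℝ) → ℝ := fun p => ρ p / w p.1 with hr
  have hrm : StronglyMeasurable r := by
    have h1 := Lp.stronglyMeasurable ρ
    exact (h1.measurable.div (hwm.comp measurable_fst)).stronglyMeasurable
  have hr_le : ∀ p, r p ^ 2 ≤ ρ p ^ 2 := by
    intro p
    have h1 := hw1 p.1
    simp only [hr]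
    rw [div_pow]
    exact div_le_self (sq_nonneg _) (one_le_pow₀ h1)
  have hr2 : Integrable (fun p => r p ^ 2) (PT n T) :=
    (hsq ρ).mono (hrm.pow 2).aestronglyMeasurable (by
      filter_upwards with p
      rw [Real.norm_eq_abs, Real.norm_eq_abs, abs_of_nonneg (sq_nonneg _),
        abs_of_nonneg (sq_nonneg _)]
      exact hr_le p)
  have hn2 := sn_sq_int hr2
  have hn1 : Integrable (sn r) (tm T) := by
    refine Integrable.mono' ((integrable_const (1 : ℝ)).add hn2) (sn_meas hrm).aestronglyMeasurable ?_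
    filter_upwards with t
    simp only [Pi.add_apply]
    rw [Real.norm_eq_abs, abs_of_nonneg (sn_nonneg _ _)]
    nlinarith [sq_nonneg (sn r t - 1)]
  have hint : Integrable (fun t => c * sn r t - sn r t ^ 2) (tm T) := (hn1.const_mul c).sub hn2
  have hfin : 0 ≤ᵐ[tm T] fun t => c * sn r t - sn r t ^ 2 := by
    apply ae_nonneg_of_forall_setIntegral_nonneg hint
    intro A hA _
    -- test function
    have hA' : MeasurableSet (A ×ˢ (univ : Set (Fin n → ℝ))) := hA.prod MeasurableSet.univ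
    set fA : ℝ × (Fin n → ℝ) → ℝ := fun p => A.indicator (fun _ => (1 : ℝ)) p.1 * (r p / w p.1)
      with hfA
    have hfAm : StronglyMeasurable fA := by
      have h1 : Measurable fun p : ℝ × (Fin n → ℝ) => A.indicator (fun _ => (1 : ℝ)) p.1 :=
        (measurable_const.indicator hA).comp measurable_fst
      exact (h1.mul (hrm.measurable.div (hwm.comp measurable_fst))).stronglyMeasurable
    have hind : ∀ t, A.indicator (fun _ => (1 : ℝ)) t = 0 ∨ A.indicator (fun _ => (1 : ℝ)) t = 1 := by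
      intro t
      by_cases h : t ∈ A
      · right; simp [h]
      · left; simp [h]
    have hfA2 : MemLp fA 2 (PT n T) := by
      refine (memLp_two_iff_integrable_sq hfAm.aestronglyMeasurable).2 ?_
      refine hr2.mono (hfAm.pow 2).aestronglyMeasurable ?_
      filter_upwards with p
      rw [Real.norm_eq_abs, Real.norm_eq_abs, abs_of_nonneg (sq_nonneg _),
        abs_of_nonneg (sq_nonneg _)]
      simp only [hfA]
      rcases hind p.1 with h | h
      · rw [h]; simp [sq_nonneg]
      · rw [h, one_mul, div_pow]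
        exact div_le_self (sq_nonneg _) (one_le_pow₀ (hw1 p.1))
    have hGA := hG2 (hfA2.toLp fA)
    rw [← hρG, L2.inner_def] at hGA
    have hcoe := hfA2.coeFn_toLp
    have e1 : ∫ p, ⟪ρ p, (hfA2.toLp fA) p⟫_ℝ ∂(PT n T)
        = ∫ p, A.indicator (fun _ => (1 : ℝ)) p.1 * r p ^ 2 ∂(PT n T) := by
      apply integral_congr_ae
      filter_upwards [hcoe] with p hp
      rw [hp]
      simp only [hfA, hr, RCLike.inner_apply, conj_trivial]
      have := hw1 p.1
      have h0 : w p.1 ≠ 0 := by linarith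
      field_simp
    have e2 : ∫ p, A.indicator (fun _ => (1 : ℝ)) p.1 * r p ^ 2 ∂(PT n T)
        = ∫ t in A, sn r t ^ 2 ∂(tm T) := by
      have hi : Integrable (fun p : ℝ × (Fin n → ℝ) =>
          A.indicator (fun _ => (1 : ℝ)) p.1 * r p ^ 2) (PT n T) := by
        refine hr2.mono ?_ ?_
        · have h1 : Measurable fun p : ℝ × (Fin n → ℝ) => A.indicator (fun _ => (1 : ℝ)) p.1 :=
            (measurable_const.indicator hA).comp measurable_fst
          exact (h1.mul (hrm.measurable.pow_const 2)).aestronglyMeasurable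
        · filter_upwards with p
          rcases hind p.1 with h | h
          · rw [h, zero_mul, norm_zero]; exact norm_nonneg _
          · rw [h, one_mul]
      unfold PT
      rw [integral_prod _ hi, ← integral_indicator hA]
      apply integral_congr_ae
      filter_upwards with t
      rw [integral_const_mul]
      by_cases h : t ∈ A
      · rw [indicator_of_mem h, indicator_of_mem h, one_mul, sn_sq]
      · rw [indicator_of_notMem h, indicator_of_notMem h, zero_mul]
    have e3 : ∫ t, w t * sn (hfA2.toLp fA) t ∂(tm T) = ∫ t in A, sn r t ∂(tm T) := by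
      rw [← integral_indicator hA]
      have h2 := Measure.ae_ae_of_ae_prod hcoe
      apply integral_congr_ae
      filter_upwards [h2] with t ht
      have hw0 : 0 < w t := by linarith [hw1 t]
      have h3 : ∫ x, (hfA2.toLp fA) (t, x) ^ 2 ∂(cubeMeasure n)
          = (A.indicator (fun _ => (1 : ℝ)) t / w t) ^ 2 * ∫ x, r (t, x) ^ 2 ∂(cubeMeasure n) := by
        rw [← integral_const_mul]
        apply integral_congr_ae
        filter_upwards [ht] with x hx
        rw [hx]
        simp only [hfA]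
        ring
      have h4 : sn (hfA2.toLp fA) t = (A.indicator (fun _ => (1 : ℝ)) t / w t) * sn r t := by
        unfold sn
        rw [h3, Real.sqrt_mul (sq_nonneg _), Real.sqrt_sq]
        rcases hind t with h | h
        · rw [h]; simp
        · rw [h]; positivity
      rw [h4]
      by_cases h : t ∈ A
      · rw [indicator_of_mem h, indicator_of_mem h]
        field_simp
      · rw [indicator_of_notMem h, indicator_of_notMem h]
        simp
    rw [e1, e2] at hGA
    simp only [hN] at hGA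
    rw [e3] at hGA
    rw [integral_sub (hn1.integrableOn.const_mul c) hn2.integrableOn, integral_const_mul]
    linarith
  filter_upwards [hfin] with t ht
  have h1 := sn_nonneg r t
  simp only [Pi.zero_apply] at ht
  by_contra hcon
  push Not at hcon
  nlinarith

end Pool.Agent.R212
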