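import Pool.Agent.R212.Par4

open MeasureTheory Set Filter Function
open scoped Topology ContDiff ENNReal InnerProductSpace

namespace Pool.Agent.R212

variable {n : ℕ}

/-- test functions vanishing near the final time -/
def TestT (T : ℝ) (φ : ℝ → (Fin n → ℝ) → ℝ) : Prop :=
  IsTest φ ∧ ∃ δ > 0, ∀ t, T - δ ≤ t → ∀ x, φ t x = 0

lemma nrm_eq_sn (g : ℝ → (Fin n → ℝ) → ℝ) (t : ℝ) : nrm (g t) = sn (fun p => g p.1 p.2) t := rfl

lemma slice_c1 {φ : ℝ → (Fin n → ℝ) → ℝ} (h : IsTest φ) (t : ℝ) : ContDiff ℝ ∞ (φ t) :=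
  slice_smooth h.smooth t

lemma dt_add {φ ψ : ℝ → (Fin n → ℝ) → ℝ} (h : IsTest φ) (h' : IsTest ψ) (t : ℝ) (x : Fin n → ℝ) :
    dt (fun t x => φ t x + ψ t x) t x = dt φ t x + dt ψ t x := by
  have h1 := dt_hasDeriv (h.smooth.of_le (by exact_mod_cast le_top)) t x
  have h2 := dt_hasDeriv (h'.smooth.of_le (by exact_mod_cast le_top)) t x
  exact (h1.fun_add h2).deriv

lemma dt_smul {φ : ℝ → (Fin n → ℝ) → ℝ} (h : IsTest φ) (a : ℝ) (t : ℝ) (x : Fin n → ℝ) :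
    dt (fun t x => a * φ t x) t x = a * dt φ t x := by
  have h1 := dt_hasDeriv (h.smooth.of_le (by exact_mod_cast le_top)) t x
  exact (h1.const_mul a).deriv

lemma pd_add_fun {f g : (Fin n → ℝ) → ℝ} (i : Fin n) (hf : ContDiff ℝ ∞ f) (hg : ContDiff ℝ ∞ g) :
    pd i (fun x => f x + g x) = fun x => pd i f x + pd i g x := by
  ext x
  exact pd_add i (cdiff hf x) (cdiff hg x)

lemma pd_smul_fun {f : (Fin n → ℝ) → ℝ} (i : Fin n) (a : ℝ) (hf : ContDiff ℝ ∞ f) :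
    pd i (fun x => a * f x) = fun x => a * pd i f x := by
  ext x
  exact pd_const_mul i a (cdiff hf x)

lemma lap_add {f g : (Fin n → ℝ) → ℝ} (hf : ContDiff ℝ ∞ f) (hg : ContDiff ℝ ∞ g)
    (x : Fin n → ℝ) : lap (fun x => f x + g x) x = lap f x + lap g x := by
  unfold lap
  rw [← Finset.sum_add_distrib]
  apply Finset.sum_congr rfl
  intro i _
  rw [pd_add_fun i hf hg, pd_add_fun i (pd_smooth' hf i) (pd_smooth' hg i)]

lemma lap_smul {f : (Fin n → ℝ) → ℝ} (a : ℝ) (hf : ContDiff ℝ ∞ f)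
    (x : Fin n → ℝ) : lap (fun x => a * f x) x = a * lap f x := by
  unfold lap
  rw [Finset.mul_sum]
  apply Finset.sum_congr rfl
  intro i _
  rw [pd_smul_fun i a hf, pd_smul_fun i a (pd_smooth' hf i)]

lemma Ls_add (b : ℝ → (Fin n → ℝ) → (Fin n → ℝ)) {φ ψ : ℝ → (Fin n → ℝ) → ℝ} (h : IsTest φ)
    (h' : IsTest ψ) (t : ℝ) (x : Fin n → ℝ) :
    Ls b (fun t x => φ t x + ψ t x) t x = Ls b φ t x + Ls b ψ t x := by
  unfold Ls
  rw [dt_add h h', lap_add (slice_c1 h t) (slice_c1 h' t)]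
  unfold adv
  rw [show (∑ i, b t x i * pd i (fun x => φ t x + ψ t x) x) =
    ∑ i, b t x i * pd i (φ t) x + ∑ i, b t x i * pd i (ψ t) x by
      rw [← Finset.sum_add_distrib]
      apply Finset.sum_congr rfl
      intro i _
      rw [pd_add_fun i (slice_c1 h t) (slice_c1 h' t)]
      ring]
  ring

lemma Ls_smul (b : ℝ → (Fin n → ℝ) → (Fin n → ℝ)) {φ : ℝ → (Fin n → ℝ) → ℝ} (h : IsTest φ)
    (a : ℝ) (t : ℝ) (x : Fin n → ℝ) :
    Ls b (fun t x => a * φ t x) t x = a * Ls b φ t x := by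
  unfold Ls
  rw [dt_smul h, lap_smul a (slice_c1 h t)]
  unfold adv
  rw [show (∑ i, b t x i * pd i (fun x => a * φ t x) x) = a * ∑ i, b t x i * pd i (φ t) x by
      rw [Finset.mul_sum]
      apply Finset.sum_congr rfl
      intro i _
      rw [pd_smul_fun i a (slice_c1 h t)]
      ring]
  ring

lemma TestT.add {T : ℝ} {φ ψ : ℝ → (Fin n → ℝ) → ℝ} (h : TestT T φ) (h' : TestT T ψ) :
    TestT T (fun t x => φ t x + ψ t x) := by
  obtain ⟨h1, δ, hδ, h2⟩ := h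
  obtain ⟨h1', δ', hδ', h2'⟩ := h'
  refine ⟨⟨h1.smooth.add h1'.smooth, fun t i x => by simp only [h1.per, h1'.per]⟩,
    min δ δ', lt_min hδ hδ', fun t ht x => ?_⟩
  show φ t x + ψ t x = 0
  rw [h2 t (by linarith [min_le_left δ δ']), h2' t (by linarith [min_le_right δ δ']), add_zero]

lemma TestT.smul {T : ℝ} {φ : ℝ → (Fin n → ℝ) → ℝ} (h : TestT T φ) (a : ℝ) :
    TestT T (fun t x => a * φ t x) := by
  obtain ⟨h1, δ, hδ, h2⟩ := h
  refine ⟨⟨contDiff_const.mul h1.smooth, fun t i x => by simp only [h1.per]⟩,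
    δ, hδ, fun t ht x => ?_⟩
  show a * φ t x = 0
  rw [h2 t ht, mul_zero]

lemma Ls_meas {b : ℝ → (Fin n → ℝ) → (Fin n → ℝ)}
    (hbm : Measurable fun p : ℝ × (Fin n → ℝ) => b p.1 p.2) {φ : ℝ → (Fin n → ℝ) → ℝ}
    (h : IsTest φ) : Measurable fun p : ℝ × (Fin n → ℝ) => Ls b φ p.1 p.2 := by
  unfold Ls adv
  have h1 := (dt_smooth h.smooth).continuous.measurable
  have h2 := (lap_smooth h.smooth).continuous.measurable
  have h3 : ∀ i, Measurable fun p : ℝ × (Fin n → ℝ) => b p.1 p.2 i := fun i =>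
    (measurable_pi_apply i).comp hbm
  have h4 : ∀ i, Measurable fun p : ℝ × (Fin n → ℝ) => pd i (φ p.1) p.2 := fun i =>
    (pd_smooth h.smooth i).continuous.measurable
  exact (h1.add (Finset.measurable_sum _ fun i _ => (h3 i).mul (h4 i))).add h2

lemma cont_bounded' {K : ℝ × (Fin n → ℝ) → ℝ} (hK : Continuous K) (T : ℝ) :
    ∃ C, 0 ≤ C ∧ ∀ t ∈ Icc 0 T, ∀ x ∈ ccube n, |K (t, x)| ≤ C := by
  obtain ⟨C, hC⟩ := (isCompact_Icc.prod (ccube_compact n)).exists_bound_of_continuousOn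
    (s := Icc 0 T ×ˢ ccube n) hK.continuousOn
  exact ⟨max C 0, le_max_right _ _, fun t ht x hx => (hC (t, x) ⟨ht, hx⟩).trans (le_max_left _ _)⟩

lemma Ls_bound {b : ℝ → (Fin n → ℝ) → (Fin n → ℝ)} {β : ℝ → ℝ} (hβ0 : ∀ t, 0 ≤ β t)
    (hB : ∀ t x i, |b t x i| ≤ β t) {φ : ℝ → (Fin n → ℝ) → ℝ}
    (h : IsTest φ) (T : ℝ) : ∃ C, 0 ≤ C ∧ ∀ t ∈ Icc 0 T, ∀ x ∈ ccube n,
      |Ls b φ t x| ≤ C * (1 + β t) := by
  obtain ⟨C1, hC10, hC1⟩ := cont_bounded' (dt_smooth h.smooth).continuous T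
  obtain ⟨C2, hC20, hC2⟩ := cont_bounded' (lap_smooth h.smooth).continuous T
  choose C3 hC30 hC3 using fun i => cont_bounded' (pd_smooth h.smooth i).continuous T
  have hS : 0 ≤ ∑ i, C3 i := Finset.sum_nonneg fun i _ => hC30 i
  refine ⟨C1 + (∑ i, C3 i) + C2, by positivity, fun t ht x hx => ?_⟩
  have h1 : |adv (b t) (φ t) x| ≤ (∑ i, C3 i) * β t := by
    unfold adv
    rw [Finset.sum_mul]
    refine (Finset.abs_sum_le_sum_abs _ _).trans (Finset.sum_le_sum fun i _ => ?_)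
    rw [abs_mul, mul_comm]
    exact mul_le_mul (hC3 i t ht x hx) (hB t x i) (abs_nonneg _) (hC30 i)
  have h2 := hC1 t ht x hx
  have h3 := hC2 t ht x hx
  have h4 : |Ls b φ t x| ≤ |dt φ t x| + |adv (b t) (φ t) x| + |lap (φ t) x| :=
    (abs_add_le _ _).trans (add_le_add (abs_add_le _ _) le_rfl)
  have h5 := hβ0 t
  simp only at h2 h3
  nlinarith

lemma ae_PT (n : ℕ) (T : ℝ) : ∀ᵐ p ∂(PT n T), p.1 ∈ Icc 0 T ∧ p.2 ∈ ccube n := by
  unfold PT tm cubeMeasure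
  rw [Measure.prod_restrict]
  have hs : MeasurableSet (Ioc 0 T ×ˢ cube n) := measurableSet_Ioc.prod (cube_meas n)
  filter_upwards [ae_restrict_mem hs] with p hp
  exact ⟨Ioc_subset_Icc_self hp.1, cube_sub n hp.2⟩

/-- Correction of an approximate solution to an exact one. -/
theorem correct {T : ℝ} (hT : 0 < T) {b : ℝ → (Fin (n + 1) → ℝ) → (Fin (n + 1) → ℝ)}
    (hbm : Measurable fun p : ℝ × (Fin (n + 1) → ℝ) => b p.1 p.2) {β : ℝ → ℝ}
    (hβm : Measurable β) (hβi : IntegrableOn β (Ioc 0 T)) (hB : ∀ t x i, |b t x i| ≤ β t)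
    (hdiv : ∀ t, DivFree (b t)) {v : ℝ → (Fin (n + 1) → ℝ) → ℝ}
    (hvm : Measurable fun p : ℝ × (Fin (n + 1) → ℝ) => v p.1 p.2) (hv1 : ∀ t x, |v t x| ≤ 1)
    {ε : ℝ} (hε : 0 ≤ ε)
    (herr : ∀ φ, TestT T φ → ∀ M, (∀ t ∈ Icc 0 T, nrm (φ t) ≤ M) →
      |∫ p, v p.1 p.2 * Ls b φ p.1 p.2 ∂(PT (n + 1) T)| ≤ ε * M) :
    ∃ r : ℝ → (Fin (n + 1) → ℝ) → ℝ, Measurable (fun p : ℝ × (Fin (n + 1) → ℝ) => r p.1 p.2) ∧
      Integrable (fun p : ℝ × (Fin (n + 1) → ℝ) => r p.1 p.2 ^ 2) (PT (n + 1) T) ∧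
      (∀ᵐ t ∂(tm T), nrm (r t) ≤ 2 * ε) ∧
      ∀ φ, TestT T φ → Integrable (fun p => v p.1 p.2 * Ls b φ p.1 p.2) (PT (n + 1) T) ∧
        Integrable (fun p => r p.1 p.2 * Ls b φ p.1 p.2) (PT (n + 1) T) ∧
        ∫ p, (v p.1 p.2 + r p.1 p.2) * Ls b φ p.1 p.2 ∂(PT (n + 1) T) = 0 := by
  have hβ0 : ∀ t, 0 ≤ β t := fun t => (abs_nonneg _).trans (hB t 0 0)
  set w : ℝ → ℝ := fun t => √(1 + β t) with hw
  have hwm : Measurable w := (measurable_const.add hβm).sqrt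
  have hw1 : ∀ t, 1 ≤ w t := fun t => Real.one_le_sqrt.2 (by linarith [hβ0 t])
  have hwsq : ∀ t, w t ^ 2 = 1 + β t := fun t => Real.sq_sqrt (by linarith [hβ0 t])
  have hβi' : Integrable β (tm T) := hβi
  have hm : Integrable (fun t => 1 + β t) (tm T) := (integrable_const _).add hβi'
  have hw2 : Integrable (fun t => w t ^ 2) (tm T) := by
    simp_rw [hwsq]
    exact hm
  have hmP : Integrable (fun p : ℝ × (Fin (n + 1) → ℝ) => 1 + β p.1) (PT (n + 1) T) :=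
    hm.comp_fst _
  -- the vectors
  have hΛm : ∀ φ, IsTest φ → Measurable fun p : ℝ × (Fin (n + 1) → ℝ) =>
      Ls b φ p.1 p.2 / w p.1 := fun φ h => (Ls_meas hbm h).div (hwm.comp measurable_fst)
  have hΛ : ∀ φ, IsTest φ → MemLp (fun p : ℝ × (Fin (n + 1) → ℝ) => Ls b φ p.1 p.2 / w p.1) 2
      (PT (n + 1) T) := by
    intro φ h
    refine (memLp_two_iff_integrable_sq (hΛm φ h).aestronglyMeasurable).2 ?_
    obtain ⟨C, hC0, hC⟩ := Ls_bound hβ0 hB h T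
    refine (hmP.const_mul (C ^ 2)).mono' ((hΛm φ h).pow_const 2).aestronglyMeasurable ?_
    filter_upwards [ae_PT (n + 1) T] with p hp
    rw [Real.norm_eq_abs, abs_of_nonneg (sq_nonneg _), div_pow, hwsq,
      div_le_iff₀ (by linarith [hβ0 p.1])]
    have h1 := hC p.1 hp.1 p.2 hp.2
    have h2 : Ls b φ p.1 p.2 ^ 2 ≤ (C * (1 + β p.1)) ^ 2 := by
      rw [← sq_abs]
      exact pow_le_pow_left₀ (abs_nonneg _) h1 2
    linarith
  have hom : MemLp (fun p : ℝ × (Fin (n + 1) → ℝ) => -(v p.1 p.2 * w p.1)) 2 (PT (n + 1) T) := by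
    have hmeas : Measurable fun p : ℝ × (Fin (n + 1) → ℝ) => -(v p.1 p.2 * w p.1) :=
      (hvm.mul (hwm.comp measurable_fst)).neg
    refine (memLp_two_iff_integrable_sq hmeas.aestronglyMeasurable).2 ?_
    refine hmP.mono' (hmeas.pow_const 2).aestronglyMeasurable ?_
    filter_upwards with p
    rw [Real.norm_eq_abs, abs_of_nonneg (sq_nonneg _), neg_sq, mul_pow, hwsq]
    have h1 : v p.1 p.2 ^ 2 ≤ 1 := by
      rw [← sq_abs]
      exact pow_le_one₀ (abs_nonneg _) (hv1 _ _)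
    have := hβ0 p.1
    nlinarith
  have hvL : ∀ φ, IsTest φ → Integrable (fun p => v p.1 p.2 * Ls b φ p.1 p.2) (PT (n + 1) T) := by
    intro φ h
    obtain ⟨C, hC0, hC⟩ := Ls_bound hβ0 hB h T
    refine (hmP.const_mul C).mono' (hvm.mul (Ls_meas hbm h)).aestronglyMeasurable ?_
    filter_upwards [ae_PT (n + 1) T] with p hp
    rw [Real.norm_eq_abs, abs_mul]
    have h1 := hC p.1 hp.1 p.2 hp.2
    have h2 := hv1 p.1 p.2
    calc |v p.1 p.2| * |Ls b φ p.1 p.2| ≤ 1 * (C * (1 + β p.1)) :=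
          mul_le_mul h2 h1 (abs_nonneg _) zero_le_one
      _ = _ := one_mul _
  -- the subspace
  let V : Submodule ℝ (Lp ℝ 2 (PT (n + 1) T)) :=
    { carrier := {f | ∃ φ, TestT T φ ∧ f =ᵐ[PT (n + 1) T] fun p => Ls b φ p.1 p.2 / w p.1}
      add_mem' := by
        rintro f g ⟨φ, hφ, hf⟩ ⟨ψ, hψ, hg⟩
        refine ⟨_, hφ.add hψ, ?_⟩
        filter_upwards [Lp.coeFn_add f g, hf, hg] with p h1 h2 h3
        rw [h1, Pi.add_apply, h2, h3, Ls_add b hφ.1 hψ.1, add_div]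
      zero_mem' := by
        refine ⟨fun _ _ => 0, ⟨⟨contDiff_const, fun _ _ _ => rfl⟩, 1, one_pos, fun _ _ _ => rfl⟩, ?_⟩
        filter_upwards [Lp.coeFn_zero (E := ℝ) (p := 2) (μ := PT (n + 1) T)] with p h1
        rw [h1]
        have : ∀ t x, Ls b (fun _ _ => (0 : ℝ)) t x = 0 := by
          intro t x
          unfold Ls dt adv lap pd
          simp
        rw [this]
        simp
      smul_mem' := by
        rintro a f ⟨φ, hφ, hf⟩
        refine ⟨_, hφ.smul a, ?_⟩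
        filter_upwards [Lp.coeFn_smul a f, hf] with p h1 h2
        rw [h1, Pi.smul_apply, h2, Ls_smul b hφ.1, smul_eq_mul, mul_div_assoc] }
  have hVdef : ∀ f, f ∈ V ↔ ∃ φ, TestT T φ ∧ f =ᵐ[PT (n + 1) T] fun p => Ls b φ p.1 p.2 / w p.1 :=
    fun f => Iff.rfl
  have hinner : ∀ (f : Lp ℝ 2 (PT (n + 1) T)) (φ : ℝ → (Fin (n + 1) → ℝ) → ℝ),
      (f =ᵐ[PT (n + 1) T] fun p => Ls b φ p.1 p.2 / w p.1) →
      ⟪hom.toLp _, f⟫_ℝ = -∫ p, v p.1 p.2 * Ls b φ p.1 p.2 ∂(PT (n + 1) T) := by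
    intro f φ hf
    rw [L2.inner_def, ← integral_neg]
    apply integral_congr_ae
    filter_upwards [hom.coeFn_toLp, hf] with p h1 h2
    rw [h1, h2]
    simp only [RCLike.inner_apply, conj_trivial]
    have := hw1 p.1
    have h0 : w p.1 ≠ 0 := by linarith
    field_simp
  obtain ⟨ρ, hρ1, hρ2⟩ := duality hwm hw1 hw2 V (hom.toLp _) (c := 2 * ε) (by positivity) (by
    intro f hf
    obtain ⟨φ, hφ, hfφ⟩ := (hVdef f).1 hf
    rw [hinner f φ hfφ]
    have hγm : Measurable (sn fun p : ℝ × (Fin (n + 1) → ℝ) => Ls b φ p.1 p.2) :=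
      sn_meas (Ls_meas hbm hφ.1).stronglyMeasurable
    have hsn : ∀ᵐ t ∂(tm T), w t * sn f t = sn (fun p => Ls b φ p.1 p.2) t := by
      filter_upwards [Measure.ae_ae_of_ae_prod hfφ] with t ht
      have hw0 : 0 < w t := by linarith [hw1 t]
      have h3 : ∫ x, f (t, x) ^ 2 ∂(cubeMeasure (n + 1))
          = (w t)⁻¹ ^ 2 * ∫ x, Ls b φ t x ^ 2 ∂(cubeMeasure (n + 1)) := by
        rw [← integral_const_mul]
        apply integral_congr_ae
        filter_upwards [ht] with x hx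
        rw [hx]
        ring
      unfold sn
      rw [h3, Real.sqrt_mul (sq_nonneg _), Real.sqrt_sq (by positivity)]
      field_simp
    rw [integral_congr_ae hsn]
    have hγi : IntegrableOn (fun t => nrm (Ls b φ t)) (Ioc 0 T) := by
      obtain ⟨C, hC0, hC⟩ := Ls_bound hβ0 hB hφ.1 T
      have hm' : IntegrableOn (fun t => C * (1 + β t)) (Ioc 0 T) := hm.const_mul C
      refine Integrable.mono' hm' hγm.aestronglyMeasurable ?_
      filter_upwards [ae_restrict_mem measurableSet_Ioc] with t ht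
      have hn0 : 0 ≤ nrm (Ls b φ t) := Real.sqrt_nonneg _
      rw [Real.norm_eq_abs, abs_of_nonneg hn0]
      unfold nrm
      rw [Real.sqrt_le_left (mul_nonneg hC0 (by linarith [hβ0 t]))]
      have h1 : ∀ᵐ x ∂(cubeMeasure (n + 1)), Ls b φ t x ^ 2 ≤ (C * (1 + β t)) ^ 2 := by
        filter_upwards [ae_cube (n + 1)] with x hx
        rw [← sq_abs]
        exact pow_le_pow_left₀ (abs_nonneg _) (hC t (Ioc_subset_Icc_self ht) x
          (cube_sub _ hx)) 2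
      have h2 := integral_mono_of_nonneg (Eventually.of_forall fun x => sq_nonneg (Ls b φ t x))
        (integrable_const _) h1
      simpa using h2
    have hEn := energy_est hφ.1 hT.le (by
        obtain ⟨_, δ, hδ, h⟩ := hφ
        exact h T (by linarith)) (fun t => hbm.comp measurable_prodMk_left) hB hdiv hγi
      (fun t => le_rfl)
    have h5 := herr φ hφ _ hEn
    have h6 := neg_le_abs (∫ p, v p.1 p.2 * Ls b φ p.1 p.2 ∂(PT (n + 1) T))
    have h7 : ∫ s in Ioc 0 T, nrm (Ls b φ s) =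
      ∫ t, sn (fun p : ℝ × (Fin (n + 1) → ℝ) => Ls b φ p.1 p.2) t ∂(tm T) := rfl
    rw [← h7]
    linarith)
  have hρm := (Lp.stronglyMeasurable ρ).measurable
  refine ⟨fun t x => ρ (t, x) / w t, ?_, ?_, hρ2, fun φ hφ => ⟨hvL φ hφ.1, ?_, ?_⟩⟩
  · exact hρm.div (hwm.comp measurable_fst)
  · refine (Lp.memLp ρ).integrable_sq.mono
      ((hρm.div (hwm.comp measurable_fst)).pow_const 2).aestronglyMeasurable ?_
    filter_upwards with p
    rw [Real.norm_eq_abs, Real.norm_eq_abs, abs_of_nonneg (sq_nonneg _),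
      abs_of_nonneg (sq_nonneg _), div_pow]
    exact div_le_self (sq_nonneg _) (one_le_pow₀ (hw1 p.1))
  · have h1 := (Lp.memLp ρ).integrable_mul (hΛ φ hφ.1)
    refine h1.congr ?_
    filter_upwards with p
    simp only [Pi.mul_apply]
    ring
  · have h1 := (Lp.memLp ρ).integrable_mul (hΛ φ hφ.1)
    have hi2 : Integrable (fun p : ℝ × (Fin (n + 1) → ℝ) =>
        ρ (p.1, p.2) / w p.1 * Ls b φ p.1 p.2) (PT (n + 1) T) := by
      refine h1.congr ?_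
      filter_upwards with p
      simp only [Pi.mul_apply]
      ring
    have hmem : (hΛ φ hφ.1).toLp _ ∈ V := (hVdef _).2 ⟨φ, hφ, (hΛ φ hφ.1).coeFn_toLp⟩
    have h2 := hρ1 _ hmem
    rw [hinner _ φ (hΛ φ hφ.1).coeFn_toLp, L2.inner_def] at h2
    have h3 : ∫ p, ⟪ρ p, ((hΛ φ hφ.1).toLp _ : Lp ℝ 2 (PT (n + 1) T)) p⟫_ℝ ∂(PT (n + 1) T)
        = ∫ p, ρ (p.1, p.2) / w p.1 * Ls b φ p.1 p.2 ∂(PT (n + 1) T) := by
      apply integral_congr_ae
      filter_upwards [(hΛ φ hφ.1).coeFn_toLp] with p hp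
      rw [hp]
      simp only [RCLike.inner_apply, conj_trivial]
      ring
    rw [h3] at h2
    simp_rw [add_mul]
    rw [integral_add (hvL φ hφ.1) hi2, h2]
    ring

end Pool.Agent.R212
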