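import Pool.Agent.R212.Par5

open MeasureTheory Set Filter Function
open scoped Topology ContDiff ENNReal InnerProductSpace

namespace Pool.Agent.R212

variable {n : ℕ}

/-! ### periodic functions are bounded -/

lemma per_int {F : (Fin n → ℝ) → ℝ} (hp : ∀ i x, F (x + Pi.single i 1) = F x) (i : Fin n)
    (k : ℤ) (x : Fin n → ℝ) : F (x + (k : ℝ) • bv i) = F x := by
  have hnat : ∀ (m : ℕ) (x : Fin n → ℝ), F (x + (m : ℝ) • bv i) = F x := by
    intro m
    induction m with
    | zero => intro x; simp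
    | succ m ih =>
      intro x
      rw [← ih x, ← hp i (x + (m : ℝ) • bv i)]
      congr 1
      push_cast
      rw [add_smul, one_smul, add_assoc]
      rfl
  rcases Int.eq_nat_or_neg k with ⟨m, rfl | rfl⟩
  · exact_mod_cast hnat m x
  · have := hnat m (x + (((-(m : ℤ) : ℤ)) : ℝ) • bv i)
    rw [← this]
    congr 1
    push_cast
    rw [neg_smul]
    abel

lemma per_sum {F : (Fin n → ℝ) → ℝ} (hp : ∀ i x, F (x + Pi.single i 1) = F x) (k : Fin n → ℤ)
    (s : Finset (Fin n)) (x : Fin n → ℝ) : F (x + ∑ i ∈ s, (k i : ℝ) • bv i) = F x := by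
  classical
  induction s using Finset.induction_on generalizing x with
  | empty => simp
  | insert a s ha ih =>
    rw [Finset.sum_insert ha, ← add_assoc, ih, per_int hp]

lemma per_rep (x : Fin n → ℝ) : ∃ y ∈ ccube n, ∀ F : (Fin n → ℝ) → ℝ,
    (∀ i x, F (x + Pi.single i 1) = F x) → F y = F x := by
  refine ⟨x + ∑ i ∈ Finset.univ, ((-⌊x i⌋ : ℤ) : ℝ) • bv i, ?_, fun F hp =>
    per_sum hp (fun i => -⌊x i⌋) Finset.univ x⟩
  intro i _
  have h2 : (x + ∑ i, ((-⌊x i⌋ : ℤ) : ℝ) • (bv i : Fin n → ℝ)) i = Int.fract (x i) := by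
    rw [Pi.add_apply, Finset.sum_apply]
    have h3 : ∑ c, (((-⌊x c⌋ : ℤ) : ℝ) • (bv c : Fin n → ℝ)) i = -(⌊x i⌋ : ℝ) := by
      rw [Finset.sum_eq_single i]
      · simp [bv]
      · intro b _ hb
        simp [bv, Ne.symm hb]
      · intro h
        exact absurd (Finset.mem_univ _) h
    rw [h3, ← sub_eq_add_neg]
    rfl
  simp only at h2 ⊢
  rw [h2]
  exact ⟨Int.fract_nonneg _, (Int.fract_lt_one _).le⟩

lemma per_bounded {F : (Fin n → ℝ) → ℝ} (hc : Continuous F)
    (hp : ∀ i x, F (x + Pi.single i 1) = F x) : ∃ C, 0 ≤ C ∧ ∀ x, |F x| ≤ C := by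
  obtain ⟨C, hC⟩ := (ccube_compact n).exists_bound_of_continuousOn hc.continuousOn
  refine ⟨max C 0, le_max_right _ _, fun x => ?_⟩
  obtain ⟨y, hy, hyx⟩ := per_rep x
  rw [← hyx F hp]
  exact (hC y hy).trans (le_max_left _ _)

lemma per_bounded_T {K : ℝ → (Fin n → ℝ) → ℝ}
    (hc : Continuous fun p : ℝ × (Fin n → ℝ) => K p.1 p.2)
    (hp : ∀ t i x, K t (x + Pi.single i 1) = K t x) (T : ℝ) :
    ∃ C, 0 ≤ C ∧ ∀ t ∈ Icc 0 T, ∀ x, |K t x| ≤ C := by
  obtain ⟨C, hC0, hC⟩ := cont_bounded' hc T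
  refine ⟨C, hC0, fun t ht x => ?_⟩
  obtain ⟨y, hy, hyx⟩ := per_rep x
  rw [← hyx (K t) (hp t)]
  exact hC t ht y hy

/-! ### approximations of rough states -/

/-- `F ε` (ε → 0+) is a family of smooth periodic functions, bounded by one, which converges
to `F0` almost everywhere, locally uniformly in a strong sense. -/
structure Approx (F0 : (Fin n → ℝ) → ℝ) (F : ℝ → (Fin n → ℝ) → ℝ) : Prop where
  smooth : ∀ ε, 0 < ε → ContDiff ℝ ∞ (F ε)
  per : ∀ ε, 0 < ε → ∀ i x, F ε (x + Pi.single i 1) = F ε x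
  bd : ∀ ε, 0 < ε → ∀ x, |F ε x| ≤ 1
  meas0 : Measurable F0
  bd0 : ∀ x, |F0 x| ≤ 1
  per0 : ∀ i x, F0 (x + Pi.single i 1) = F0 x
  lim : ∀ᵐ x ∂(volume : Measure (Fin n → ℝ)),
    Tendsto (fun p : ℝ × (Fin n → ℝ) => F p.1 p.2) (𝓝[>] 0 ×ˢ 𝓝 x) (𝓝 (F0 x))

lemma Approx.mul {F0 G0 : (Fin n → ℝ) → ℝ} {F G : ℝ → (Fin n → ℝ) → ℝ} (hF : Approx F0 F)
    (hG : Approx G0 G) : Approx (fun x => F0 x * G0 x) (fun ε x => F ε x * G ε x) where
  smooth := fun ε hε => (hF.smooth ε hε).mul (hG.smooth ε hε)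
  per := fun ε hε i x => by simp only [hF.per ε hε, hG.per ε hε]
  bd := fun ε hε x => by
    rw [abs_mul]
    exact mul_le_one₀ (hF.bd ε hε x) (abs_nonneg _) (hG.bd ε hε x)
  meas0 := hF.meas0.mul hG.meas0
  bd0 := fun x => by
    rw [abs_mul]
    exact mul_le_one₀ (hF.bd0 x) (abs_nonneg _) (hG.bd0 x)
  per0 := fun i x => by simp only [hF.per0, hG.per0]
  lim := by
    filter_upwards [hF.lim, hG.lim] with x h1 h2
    exact h1.mul h2

/-- smooth step from `-1` to `1` -/
noncomputable def sg1 (s : ℝ) : ℝ := 2 * Real.smoothTransition ((s + 1) / 2) - 1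

lemma sg1_smooth : ContDiff ℝ ∞ sg1 := by
  unfold sg1
  have h : ContDiff ℝ ∞ Real.smoothTransition := Real.smoothTransition.contDiff
  fun_prop

lemma sg1_bd (s : ℝ) : |sg1 s| ≤ 1 := by
  unfold sg1
  have h1 := Real.smoothTransition.nonneg ((s + 1) / 2)
  have h2 := Real.smoothTransition.le_one ((s + 1) / 2)
  rw [abs_le]
  constructor <;> linarith

lemma sg1_one {s : ℝ} (h : 1 ≤ s) : sg1 s = 1 := by
  unfold sg1
  rw [Real.smoothTransition.one_of_one_le (by linarith)]
  norm_num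

lemma sg1_neg_one {s : ℝ} (h : s ≤ -1) : sg1 s = -1 := by
  unfold sg1
  rw [Real.smoothTransition.zero_of_nonpos (by linarith)]
  norm_num

/-- smoothed square wave of frequency `f` in the variable `x i` -/
noncomputable def sqw (f : ℕ) (i : Fin n) (ε : ℝ) (x : Fin n → ℝ) : ℝ :=
  sg1 (Real.sin (2 * Real.pi * (f * x i)) / ε)

/-- square wave of frequency `f` in the variable `x i` -/
noncomputable def sqw0 (f : ℕ) (i : Fin n) (x : Fin n → ℝ) : ℝ :=
  Real.sign (Real.sin (2 * Real.pi * (f * x i)))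

lemma sin_per (f : ℕ) (i j : Fin n) (x : Fin n → ℝ) :
    Real.sin (2 * Real.pi * (f * (x + Pi.single j 1 : Fin n → ℝ) i)) = Real.sin (2 * Real.pi * (f * x i)) := by
  rw [Pi.add_apply]
  by_cases h : i = j
  · subst h
    rw [Pi.single_eq_same]
    rw [show 2 * Real.pi * (f * (x i + 1)) = 2 * Real.pi * (f * x i) + f * (2 * Real.pi) by ring]
    exact Real.sin_add_nat_mul_two_pi _ _
  · rw [Pi.single_eq_of_ne h, add_zero]

lemma ae_coord {i : Fin n} {p : ℝ → Prop} (h : ∀ᵐ y ∂(volume : Measure ℝ), p y) :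
    ∀ᵐ x ∂(volume : Measure (Fin n → ℝ)), p (x i) :=
  (Measure.quasiMeasurePreserving_eval (μ := fun _ : Fin n => (volume : Measure ℝ)) i).ae h

lemma ae_sin_ne {f : ℕ} (hf : 0 < f) : ∀ᵐ y ∂(volume : Measure ℝ),
    Real.sin (2 * Real.pi * (f * y)) ≠ 0 := by
  have hc : Set.Countable (Set.range fun k : ℤ => (k : ℝ) / (2 * f)) := Set.countable_range _
  filter_upwards [hc.ae_notMem volume] with y hy h0
  rw [Real.sin_eq_zero_iff] at h0
  obtain ⟨k, hk⟩ := h0
  apply hy
  refine ⟨k, ?_⟩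
  have hf' : (0 : ℝ) < f := by exact_mod_cast hf
  have hpi := Real.pi_pos
  simp only
  rw [div_eq_iff (by positivity)]
  have : Real.pi * (k : ℝ) = Real.pi * (y * (2 * f)) := by linarith
  exact mul_left_cancel₀ hpi.ne' this

lemma approx_sqw {f : ℕ} (hf : 0 < f) (i : Fin n) : Approx (sqw0 f i) (sqw f i) where
  smooth := fun ε hε => by
    unfold sqw
    have h1 : ContDiff ℝ ∞ fun x : Fin n → ℝ => Real.sin (2 * Real.pi * (f * x i)) / ε := by
      fun_prop
    exact sg1_smooth.comp h1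
  per := fun ε hε j x => by
    unfold sqw
    rw [sin_per]
  bd := fun ε hε x => sg1_bd _
  meas0 := by
    unfold sqw0
    have h1 : Measurable fun x : Fin n → ℝ => Real.sin (2 * Real.pi * (f * x i)) := by fun_prop
    have h2 : Measurable Real.sign := by
      unfold Real.sign
      refine Measurable.ite measurableSet_Iio measurable_const ?_
      exact Measurable.ite measurableSet_Ioi measurable_const measurable_const
    exact h2.comp h1
  bd0 := fun x => by
    unfold sqw0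
    rcases Real.sign_apply_eq (Real.sin (2 * Real.pi * (f * x i))) with h | h | h <;> rw [h] <;> simp
  per0 := fun j x => by
    unfold sqw0
    rw [sin_per]
  lim := by
    filter_upwards [ae_coord (i := i) (ae_sin_ne hf)] with x hx
    have hcont : Continuous fun y : Fin n → ℝ => Real.sin (2 * Real.pi * (f * y i)) := by fun_prop
    rcases lt_or_gt_of_ne hx with h | h
    · have h0 : sqw0 f i x = -1 := Real.sign_of_neg h
      rw [h0]
      refine tendsto_const_nhds.congr' ?_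
      have e1 : ∀ᶠ ε : ℝ in 𝓝[>] 0, 0 < ε ∧ ε < -Real.sin (2 * Real.pi * (f * x i)) / 2 := by
        filter_upwards [self_mem_nhdsWithin, mem_nhdsWithin_of_mem_nhds
          (Iio_mem_nhds (show (0 : ℝ) < -Real.sin (2 * Real.pi * (f * x i)) / 2 by linarith))]
          with ε h1 h2
        exact ⟨h1, h2⟩
      have e2 : ∀ᶠ y : Fin n → ℝ in 𝓝 x, Real.sin (2 * Real.pi * (f * y i))
          < Real.sin (2 * Real.pi * (f * x i)) / 2 :=
        hcont.continuousAt.eventually (gt_mem_nhds (by linarith))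
      filter_upwards [e1.prod_mk e2] with p hp
      unfold sqw
      symm
      apply sg1_neg_one
      rw [div_le_iff₀ hp.1.1]
      linarith [hp.1.2, hp.2]
    · have h0 : sqw0 f i x = 1 := Real.sign_of_pos h
      rw [h0]
      refine tendsto_const_nhds.congr' ?_
      have e1 : ∀ᶠ ε : ℝ in 𝓝[>] 0, 0 < ε ∧ ε < Real.sin (2 * Real.pi * (f * x i)) / 2 := by
        filter_upwards [self_mem_nhdsWithin, mem_nhdsWithin_of_mem_nhds
          (Iio_mem_nhds (show (0 : ℝ) < Real.sin (2 * Real.pi * (f * x i)) / 2 by linarith))]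
          with ε h1 h2
        exact ⟨h1, h2⟩
      have e2 : ∀ᶠ y : Fin n → ℝ in 𝓝 x, Real.sin (2 * Real.pi * (f * x i)) / 2
          < Real.sin (2 * Real.pi * (f * y i)) :=
        hcont.continuousAt.eventually (lt_mem_nhds (by linarith))
      filter_upwards [e1.prod_mk e2] with p hp
      unfold sqw
      symm
      apply sg1_one
      rw [le_div_iff₀ hp.1.1]
      linarith [hp.1.2, hp.2]

lemma approx_sin (f : ℕ) (i : Fin n) :
    Approx (fun x => Real.sin (2 * Real.pi * (f * x i)))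
      (fun _ x => Real.sin (2 * Real.pi * (f * x i))) where
  smooth := fun ε hε => by fun_prop
  per := fun ε hε j x => sin_per f i j x
  bd := fun ε hε x => Real.abs_sin_le_one _
  meas0 := by fun_prop
  bd0 := fun x => Real.abs_sin_le_one _
  per0 := fun j x => sin_per f i j x
  lim := by
    filter_upwards with x
    have hcont : Continuous fun y : Fin n → ℝ => Real.sin (2 * Real.pi * (f * y i)) := by fun_prop
    exact hcont.continuousAt.tendsto.comp tendsto_snd

lemma sqw0_pm {f : ℕ} (hf : 0 < f) (i : Fin n) :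
    ∀ᵐ x ∂(volume : Measure (Fin n → ℝ)), sqw0 f i x = 1 ∨ sqw0 f i x = -1 := by
  filter_upwards [ae_coord (i := i) (ae_sin_ne hf)] with x hx
  rcases lt_or_gt_of_ne hx with h | h
  · right; exact Real.sign_of_neg h
  · left; exact Real.sign_of_pos h

end Pool.Agent.R212
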