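import Pool.Agent.R212.Par6

open MeasureTheory Set Filter Function
open scoped Topology ContDiff ENNReal InnerProductSpace

namespace Pool.Agent.R212

variable {n : ℕ}

/-- displacement profile -/
noncomputable def hh (D : ℝ) (H : ℝ → (Fin n → ℝ) → ℝ) (ε : ℝ) (x : Fin n → ℝ) : ℝ :=
  D * (1 - H ε x) / 2

/-- the transported state -/
noncomputable def VV (i : Fin n) (D : ℝ) (F H : ℝ → (Fin n → ℝ) → ℝ) (ε θ : ℝ)
    (x : Fin n → ℝ) : ℝ := F ε (x - (θ * hh D H ε x) • bv i)

/-- Data of one shear step. -/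
structure Shear (i : Fin n) (D : ℝ) (F0 H0 : (Fin n → ℝ) → ℝ) (F H : ℝ → (Fin n → ℝ) → ℝ) :
    Prop where
  hD : 0 < D
  hF : Approx F0 F
  hH : Approx H0 H
  inv : ∀ ε x (a : ℝ), H ε (x + a • bv i) = H ε x
  pm : ∀ᵐ x ∂(volume : Measure (Fin n → ℝ)), H0 x = 1 ∨ H0 x = -1
  anti : ∀ x, F0 (x - D • bv i) = -F0 x

namespace Shear

variable {i : Fin (n + 1)} {D : ℝ} {F0 H0 : (Fin (n + 1) → ℝ) → ℝ}
  {F H : ℝ → (Fin (n + 1) → ℝ) → ℝ}

lemma hh_smooth (S : Shear i D F0 H0 F H) {ε : ℝ} (hε : 0 < ε) : ContDiff ℝ ∞ (hh D H ε) := by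
  have h := S.hH.smooth ε hε
  unfold hh
  fun_prop

lemma hh_inv (S : Shear i D F0 H0 F H) (ε : ℝ) (x : Fin (n + 1) → ℝ) (a : ℝ) :
    hh D H ε (x + a • bv i) = hh D H ε x := by
  unfold hh
  rw [S.inv]

lemma hh_per (S : Shear i D F0 H0 F H) {ε : ℝ} (hε : 0 < ε) (j : Fin (n + 1))
    (x : Fin (n + 1) → ℝ) : hh D H ε (x + Pi.single j 1) = hh D H ε x := by
  unfold hh
  rw [S.hH.per ε hε]

lemma hh_nonneg (S : Shear i D F0 H0 F H) {ε : ℝ} (hε : 0 < ε) (x : Fin (n + 1) → ℝ) :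
    0 ≤ hh D H ε x := by
  unfold hh
  have h := abs_le.1 (S.hH.bd ε hε x)
  have hD := S.hD
  apply div_nonneg (mul_nonneg hD.le (by linarith)) (by norm_num)

lemma hh_le (S : Shear i D F0 H0 F H) {ε : ℝ} (hε : 0 < ε) (x : Fin (n + 1) → ℝ) :
    hh D H ε x ≤ D := by
  unfold hh
  have h := abs_le.1 (S.hH.bd ε hε x)
  have hD := S.hD
  nlinarith

lemma VV_smooth (S : Shear i D F0 H0 F H) {ε : ℝ} (hε : 0 < ε) :
    ContDiff ℝ ∞ (fun p : ℝ × (Fin (n + 1) → ℝ) => VV i D F H ε p.1 p.2) := by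
  have h1 := S.hh_smooth hε
  have h2 := S.hF.smooth ε hε
  unfold VV
  have h3 : ContDiff ℝ ∞ fun p : ℝ × (Fin (n + 1) → ℝ) => p.2 - (p.1 * hh D H ε p.2) • bv i := by
    fun_prop
  exact h2.comp h3

lemma VV_per (S : Shear i D F0 H0 F H) {ε : ℝ} (hε : 0 < ε) (θ : ℝ) (j : Fin (n + 1))
    (x : Fin (n + 1) → ℝ) : VV i D F H ε θ (x + Pi.single j 1) = VV i D F H ε θ x := by
  unfold VV
  rw [S.hh_per hε, add_sub_right_comm, S.hF.per ε hε]

lemma VV_bd (S : Shear i D F0 H0 F H) {ε : ℝ} (hε : 0 < ε) (θ : ℝ)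
    (x : Fin (n + 1) → ℝ) : |VV i D F H ε θ x| ≤ 1 := S.hF.bd ε hε _

lemma VV_shear (S : Shear i D F0 H0 F H) (ε θ : ℝ) (x : Fin (n + 1) → ℝ) :
    VV i D F H ε θ (x + (θ * hh D H ε x) • bv i) = F ε x := by
  unfold VV
  rw [S.hh_inv]
  congr 1
  abel

/-- convergence of the initial state -/
lemma lim_init (S : Shear i D F0 H0 F H) :
    Tendsto (fun ε => ∫ x, (F ε x - F0 x) ^ 2 ∂(cubeMeasure (n + 1))) (𝓝[>] 0) (𝓝 0) := by
  have h := tendsto_integral_filter_of_dominated_convergence (μ := cubeMeasure (n + 1))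
    (l := 𝓝[>] (0 : ℝ)) (F := fun ε x => (F ε x - F0 x) ^ 2) (f := fun _ => 0)
    (bound := fun _ => 4) ?_ ?_ (integrable_const _) ?_
  · simpa using h
  · filter_upwards [self_mem_nhdsWithin] with ε hε
    exact (((S.hF.smooth ε hε).continuous.measurable.sub S.hF.meas0).pow_const 2).aestronglyMeasurable
  · filter_upwards [self_mem_nhdsWithin] with ε hε
    filter_upwards with x
    have h1 := abs_le.1 (S.hF.bd ε hε x)
    have h2 := abs_le.1 (S.hF.bd0 x)
    rw [Real.norm_eq_abs, abs_of_nonneg (sq_nonneg _)]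
    nlinarith
  · have h1 : ∀ᵐ x ∂(cubeMeasure (n + 1)),
        Tendsto (fun p : ℝ × (Fin (n + 1) → ℝ) => F p.1 p.2) (𝓝[>] 0 ×ˢ 𝓝 x) (𝓝 (F0 x)) :=
      ae_restrict_of_ae S.hF.lim
    filter_upwards [h1] with x hx
    have h2 : Tendsto (fun ε => F ε x) (𝓝[>] 0) (𝓝 (F0 x)) :=
      hx.comp (tendsto_id.prodMk tendsto_const_nhds)
    have h3 := (h2.sub (tendsto_const_nhds (x := F0 x))).pow 2
    simpa using h3

/-- convergence of the final state -/
lemma lim_fin (S : Shear i D F0 H0 F H) :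
    Tendsto (fun ε => ∫ x, (VV i D F H ε 1 x - H0 x * F0 x) ^ 2 ∂(cubeMeasure (n + 1)))
      (𝓝[>] 0) (𝓝 0) := by
  have h := tendsto_integral_filter_of_dominated_convergence (μ := cubeMeasure (n + 1))
    (l := 𝓝[>] (0 : ℝ)) (F := fun ε x => (VV i D F H ε 1 x - H0 x * F0 x) ^ 2) (f := fun _ => 0)
    (bound := fun _ => 4) ?_ ?_ (integrable_const _) ?_
  · simpa using h
  · filter_upwards [self_mem_nhdsWithin] with ε hε
    have h1 : Measurable (VV i D F H ε 1) := by
      have := (S.VV_smooth hε).continuous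
      have h2 : Continuous fun x : Fin (n + 1) → ℝ => VV i D F H ε 1 x :=
        this.comp (by fun_prop : Continuous fun x : Fin (n + 1) → ℝ =>
          ((1 : ℝ), x))
      exact h2.measurable
    exact ((h1.sub (S.hH.meas0.mul S.hF.meas0)).pow_const 2).aestronglyMeasurable
  · filter_upwards [self_mem_nhdsWithin] with ε hε
    filter_upwards with x
    have h1 := abs_le.1 (S.VV_bd hε 1 x)
    have h2 : |H0 x * F0 x| ≤ 1 := by
      rw [abs_mul]
      exact mul_le_one₀ (S.hH.bd0 x) (abs_nonneg _) (S.hF.bd0 x)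
    have h3 := abs_le.1 h2
    rw [Real.norm_eq_abs, abs_of_nonneg (sq_nonneg _)]
    nlinarith
  · have h1 : ∀ᵐ x ∂(volume : Measure (Fin (n + 1) → ℝ)),
        Tendsto (fun p : ℝ × (Fin (n + 1) → ℝ) => F p.1 p.2) (𝓝[>] 0 ×ˢ 𝓝 (x - D • bv i))
          (𝓝 (F0 (x - D • bv i))) :=
      (measurePreserving_sub_right volume (D • bv i)).quasiMeasurePreserving.ae S.hF.lim
    have h2 := ae_restrict_of_ae (s := cube (n + 1)) (h1.and (S.hF.lim.and (S.hH.lim.and S.pm)))
    filter_upwards [h2] with x hx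
    obtain ⟨hx1, hx2, hx3, hx4⟩ := hx
    have hH : Tendsto (fun ε => H ε x) (𝓝[>] 0) (𝓝 (H0 x)) :=
      hx3.comp (tendsto_id.prodMk tendsto_const_nhds)
    have hh1 : Tendsto (fun ε => x - ((1 : ℝ) * hh D H ε x) • (bv i : Fin (n + 1) → ℝ)) (𝓝[>] 0)
        (𝓝 (x - ((1 : ℝ) * (D * (1 - H0 x) / 2)) • (bv i : Fin (n + 1) → ℝ))) := by
      unfold hh
      exact tendsto_const_nhds.sub ((tendsto_const_nhds.mul
        ((tendsto_const_nhds.mul (tendsto_const_nhds.sub hH)).div_const 2)).smul tendsto_const_nhds)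
    have key : Tendsto (fun ε => VV i D F H ε 1 x) (𝓝[>] 0) (𝓝 (H0 x * F0 x)) := by
      rcases hx4 with h | h
      · rw [h, one_mul]
        rw [h] at hh1
        have e : x - ((1 : ℝ) * (D * (1 - 1) / 2)) • (bv i : Fin (n + 1) → ℝ) = x := by
          simp
        rw [e] at hh1
        exact hx2.comp (tendsto_id.prodMk hh1)
      · rw [h]
        rw [h] at hh1
        have e : x - ((1 : ℝ) * (D * (1 - -1) / 2)) • (bv i : Fin (n + 1) → ℝ) = x - D • bv i := by
          congr 2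
          ring
        rw [e] at hh1
        have h5 := hx1.comp (tendsto_id.prodMk hh1)
        rw [S.anti] at h5
        rw [neg_one_mul]
        exact h5
    have h3 := (key.sub (tendsto_const_nhds (x := H0 x * F0 x))).pow 2
    simpa using h3

/-- the velocity field of the step -/
noncomputable def vel (i : Fin (n + 1)) (D : ℝ) (H : ℝ → (Fin (n + 1) → ℝ) → ℝ) (ε τ : ℝ)
    (x : Fin (n + 1) → ℝ) : Fin (n + 1) → ℝ := (hh D H ε x / τ) • bv i

lemma adv_vel (ε τ : ℝ) (f : (Fin (n + 1) → ℝ) → ℝ) (x : Fin (n + 1) → ℝ) :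
    adv (vel i D H ε τ) f x = hh D H ε x / τ * pd i f x := by
  unfold adv vel
  rw [Finset.sum_eq_single i]
  · simp [bv]
  · intro b _ hb
    simp [bv, hb]
  · intro h
    exact absurd (Finset.mem_univ _) h

lemma vel_divFree (S : Shear i D F0 H0 F H) {ε : ℝ} (hε : 0 < ε) (τ : ℝ) :
    DivFree (vel i D H ε τ) := by
  intro ψ hψ pψ
  have h1 : ∀ x, ∑ j, vel i D H ε τ x j * pd j ψ x = pd i (fun x => hh D H ε x / τ * ψ x) x := by
    intro x
    have h2 := adv_vel (i := i) (D := D) (H := H) ε τ ψ x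
    unfold adv at h2
    rw [h2]
    have hs : ContDiff ℝ ∞ fun x => hh D H ε x / τ := (S.hh_smooth hε).div_const τ
    rw [pd_mul i (cdiff hs x) (cdiff hψ x)]
    have h3 : pd i (fun x => hh D H ε x / τ) x = 0 := by
      have h4 := pd_hasDeriv i (cdiff hs x)
      have h5 : (fun s : ℝ => hh D H ε (x + s • bv i) / τ) = fun _ => hh D H ε x / τ := by
        ext s
        rw [S.hh_inv]
      rw [h5] at h4
      exact h4.unique (hasDerivAt_const _ _)
    rw [h3, zero_mul, add_zero]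
  simp_rw [h1]
  apply int_pd_zero
  · exact (((S.hh_smooth hε).div_const τ).mul hψ).of_le (by exact_mod_cast le_top)
  · intro x
    rw [bv_eq, S.hh_per hε, pψ]

/-- Transport identity. -/
lemma transport (S : Shear i D F0 H0 F H) {ε : ℝ} (hε : 0 < ε) {s s' : ℝ} (hs : s < s')
    {φ : ℝ → (Fin (n + 1) → ℝ) → ℝ} (hφ : IsTest φ) :
    ∫ t in s..s', (∫ x, VV i D F H ε ((t - s) / (s' - s)) x *
        (dt φ t x + adv (vel i D H ε (s' - s)) (φ t) x) ∂(cubeMeasure (n + 1))) =
      ∫ x, VV i D F H ε 1 x * φ s' x ∂(cubeMeasure (n + 1)) -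
      ∫ x, F ε x * φ s x ∂(cubeMeasure (n + 1)) := by
  have hτ : 0 < s' - s := by linarith
  have hsm := S.hh_smooth hε
  have hFs := S.hF.smooth ε hε
  set θ : ℝ → ℝ := fun t => (t - s) / (s' - s) with hθ
  set G : ℝ → (Fin (n + 1) → ℝ) → ℝ := fun t x => F ε x * φ t (x + (θ t * hh D H ε x) • bv i)
    with hG
  have hφs := hφ.smooth
  have hinner : ContDiff ℝ ∞ fun p : ℝ × (Fin (n + 1) → ℝ) =>
      ((p.1, p.2 + (θ p.1 * hh D H ε p.2) • bv i) : ℝ × (Fin (n + 1) → ℝ)) := by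
    simp only [hθ]
    fun_prop
  have hGs : ContDiff ℝ ∞ fun p : ℝ × (Fin (n + 1) → ℝ) => G p.1 p.2 := by
    have h1 : ContDiff ℝ ∞ fun p : ℝ × (Fin (n + 1) → ℝ) => F ε p.2 := hFs.comp contDiff_snd
    exact h1.mul (hφs.comp hinner)
  have hftc := ftc_time (hGs.of_le (by exact_mod_cast le_top)) hs.le
  have hdt : ∀ t x, dt G t x = VV i D F H ε (θ t) (x + (θ t * hh D H ε x) • bv i) *
      (dt φ t (x + (θ t * hh D H ε x) • bv i) +
        adv (vel i D H ε (s' - s)) (φ t) (x + (θ t * hh D H ε x) • bv i)) := by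
    intro t x
    rw [S.VV_shear, adv_vel, S.hh_inv]
    set y := x + (θ t * hh D H ε x) • bv i with hy
    have hφ1 : ContDiff ℝ 1 (fun p : ℝ × (Fin (n + 1) → ℝ) => φ p.1 p.2) :=
      hφs.of_le (by exact_mod_cast le_top)
    have h1 := ((hφ1.differentiable (by norm_num)) (t, y)).hasFDerivAt
    have hθd : HasDerivAt θ (1 / (s' - s)) t := by
      simp only [hθ]
      exact ((hasDerivAt_id t).sub_const s).div_const _
    have h2 : HasDerivAt (fun t : ℝ => ((t, x + (θ t * hh D H ε x) • bv i) :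
        ℝ × (Fin (n + 1) → ℝ))) (1, (1 / (s' - s) * hh D H ε x) • bv i) t := by
      refine (hasDerivAt_id t).prodMk ?_
      exact ((hθd.mul_const _).smul_const _).const_add x
    have h3 := HasFDerivAt.comp_hasDerivAt (f := fun t : ℝ =>
      ((t, x + (θ t * hh D H ε x) • bv i) : ℝ × (Fin (n + 1) → ℝ))) t h1 h2
    have h4 : HasDerivAt (fun t => G t x) (F ε x *
        (fderiv ℝ (fun p : ℝ × (Fin (n + 1) → ℝ) => φ p.1 p.2) (t, y))
          (1, (1 / (s' - s) * hh D H ε x) • bv i)) t := by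
      have h5 := h3.const_mul (F ε x)
      exact h5
    have h6 : dt G t x = _ := h4.deriv
    rw [h6]
    congr 1
    have h7 : ((1 : ℝ), (1 / (s' - s) * hh D H ε x) • (bv i : Fin (n + 1) → ℝ)) =
        (1, 0) + (hh D H ε x / (s' - s)) • ((0 : ℝ), (bv i : Fin (n + 1) → ℝ)) := by
      ext
      · simp
      · simp
        left
        ring
    rw [h7, map_add, map_smul, dt_eq hφ1, pd_slice hφ1]
    rfl
  have hKc : ∀ t, Continuous fun x => VV i D F H ε (θ t) x *
      (dt φ t x + adv (vel i D H ε (s' - s)) (φ t) x) := by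
    intro t
    have c1 : Continuous fun x : Fin (n + 1) → ℝ => VV i D F H ε (θ t) x :=
      (S.VV_smooth hε).continuous.comp (by fun_prop : Continuous fun x : Fin (n + 1) → ℝ =>
          (θ t, x))
    have c2 : Continuous fun x : Fin (n + 1) → ℝ => dt φ t x :=
      (dt_smooth hφs).continuous.comp (by fun_prop : Continuous fun x : Fin (n + 1) → ℝ => (t, x))
    have c3 : Continuous fun x : Fin (n + 1) → ℝ => pd i (φ t) x :=
      (pd_smooth hφs i).continuous.comp (by fun_prop : Continuous fun x : Fin (n + 1) → ℝ => (t, x))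
    have c4 := hsm.continuous
    simp_rw [adv_vel]
    fun_prop
  have hKp : ∀ t j x, VV i D F H ε (θ t) (x + Pi.single j 1) *
      (dt φ t (x + Pi.single j 1) + adv (vel i D H ε (s' - s)) (φ t) (x + Pi.single j 1)) =
      VV i D F H ε (θ t) x * (dt φ t x + adv (vel i D H ε (s' - s)) (φ t) x) := by
    intro t j x
    rw [S.VV_per hε, adv_vel, adv_vel, S.hh_per hε, pd_per (hφ.per t j)]
    have : dt φ t (x + Pi.single j 1) = dt φ t x := by
      unfold dt
      simp_rw [hφ.per]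
    rw [this]
  have hslice : ∀ t, ∫ x, VV i D F H ε (θ t) x *
        (dt φ t x + adv (vel i D H ε (s' - s)) (φ t) x) ∂(cubeMeasure (n + 1)) =
      ∫ x, dt G t x ∂(cubeMeasure (n + 1)) := by
    intro t
    simp_rw [hdt]
    obtain ⟨C, _, hC⟩ := per_bounded (hKc t) (hKp t)
    exact (shear_inv i (F := fun x => VV i D F H ε (θ t) x *
      (dt φ t x + adv (vel i D H ε (s' - s)) (φ t) x)) (h := fun x => θ t * hh D H ε x)
      (hKc t).measurable hC (hKp t i) ((hsm.continuous.measurable).const_mul _)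
      (fun x a => by rw [S.hh_inv])).symm
  rw [intervalIntegral.integral_congr (g := fun t => ∫ x, dt G t x ∂(cubeMeasure (n + 1)))
    (fun t _ => hslice t), hftc]
  congr 1
  · -- final time
    have hθ1 : θ s' = 1 := by
      simp only [hθ]
      exact div_self hτ.ne'
    have hc : Continuous fun x => VV i D F H ε 1 x * φ s' x := by
      have c1 : Continuous fun x : Fin (n + 1) → ℝ => VV i D F H ε 1 x :=
        (S.VV_smooth hε).continuous.comp (by fun_prop : Continuous fun x : Fin (n + 1) → ℝ =>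
            ((1 : ℝ), x))
      exact c1.mul (slice_smooth hφs s').continuous
    have hp : ∀ j x, VV i D F H ε 1 (x + Pi.single j 1) * φ s' (x + Pi.single j 1) =
        VV i D F H ε 1 x * φ s' x := by
      intro j x
      rw [S.VV_per hε, hφ.per]
    obtain ⟨C, _, hC⟩ := per_bounded hc hp
    have h8 := shear_inv i (F := fun x => VV i D F H ε 1 x * φ s' x)
      (h := fun x => 1 * hh D H ε x) hc.measurable hC (hp i)
      ((hsm.continuous.measurable).const_mul _) (fun x a => by rw [S.hh_inv])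
    rw [← h8]
    simp only [hG, hθ1]
    congr 1
    ext x
    rw [S.VV_shear]
  · simp only [hG]
    congr 1
    ext x
    simp [hθ]

end Shear

end Pool.Agent.R212
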