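import Pool.Agent.R212.Par7

open MeasureTheory Set Filter Function
open scoped Topology ContDiff ENNReal InnerProductSpace

namespace Pool.Agent.R212

variable {n : ℕ}

lemma nrm_diff {f g φ : (Fin n → ℝ) → ℝ} {κ M : ℝ} (hφ : Continuous φ)
    (hf : Measurable f) (hg : Measurable g) (hf1 : ∀ x, |f x| ≤ 1) (hg1 : ∀ x, |g x| ≤ 1)
    (hκ : 0 ≤ κ) (h : ∫ x, (f x - g x) ^ 2 ∂(cubeMeasure n) ≤ κ ^ 2) (hM : nrm φ ≤ M) :
    |∫ x, f x * φ x ∂(cubeMeasure n) - ∫ x, g x * φ x ∂(cubeMeasure n)| ≤ κ * M := by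
  obtain ⟨C, hC0, hC⟩ := cont_bounded hφ
  have i1 : Integrable (fun x => f x * φ x) (cubeMeasure n) :=
    bounded_integrable (C := C) (hf.mul hφ.measurable) (fun x hx => by
      rw [abs_mul]
      calc |f x| * |φ x| ≤ 1 * C := mul_le_mul (hf1 x) (hC x hx) (abs_nonneg _) zero_le_one
        _ = C := one_mul C)
  have i2 : Integrable (fun x => g x * φ x) (cubeMeasure n) :=
    bounded_integrable (C := C) (hg.mul hφ.measurable) (fun x hx => by
      rw [abs_mul]
      calc |g x| * |φ x| ≤ 1 * C := mul_le_mul (hg1 x) (hC x hx) (abs_nonneg _) zero_le_one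
        _ = C := one_mul C)
  have hfg : ∀ x, |f x - g x| ≤ 2 := fun x =>
    (abs_sub _ _).trans (by linarith [hf1 x, hg1 x])
  have i3 : Integrable (fun x => (f x - g x) ^ 2) (cubeMeasure n) :=
    bounded_integrable (C := 2 ^ 2) ((hf.sub hg).pow_const 2) (fun x _ => by
      rw [abs_pow]
      exact pow_le_pow_left₀ (abs_nonneg _) (hfg x) 2)
  have i4 : Integrable (fun x => φ x ^ 2) (cubeMeasure n) := cont_integrable (hφ.pow 2)
  have i5 : Integrable (fun x => (f x - g x) * φ x) (cubeMeasure n) := by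
    simp_rw [sub_mul]
    exact i1.sub i2
  rw [← integral_sub i1 i2]
  simp_rw [← sub_mul]
  refine (cs i3 i4 i5).trans ?_
  have h1 : √(∫ x, (f x - g x) ^ 2 ∂(cubeMeasure n)) ≤ κ := by
    rw [Real.sqrt_le_left hκ]
    exact h
  exact mul_le_mul h1 hM (Real.sqrt_nonneg _) hκ

namespace Shear

variable {i : Fin (n + 1)} {D : ℝ} {F0 H0 : (Fin (n + 1) → ℝ) → ℝ}
  {F H : ℝ → (Fin (n + 1) → ℝ) → ℝ}

lemma diff_slice (S : Shear i D F0 H0 F H) {ε : ℝ} (hε0 : 0 < ε) {C θ : ℝ} (hC0 : 0 ≤ C)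
    (hC : ∀ x ∈ ccube (n + 1), |lap (VV i D F H ε θ) x| ≤ C) {ψ : (Fin (n + 1) → ℝ) → ℝ}
    (fs : ContDiff ℝ ∞ ψ) (fp : ∀ i x, ψ (x + Pi.single i 1) = ψ x) {M : ℝ} (hM : nrm ψ ≤ M) :
    ‖∫ x, VV i D F H ε θ x * lap ψ x ∂(cubeMeasure (n + 1))‖ ≤ C * M := by
  have hM0 : 0 ≤ M := (Real.sqrt_nonneg _).trans hM
  have vs : ContDiff ℝ ∞ (VV i D F H ε θ) := slice_smooth (S.VV_smooth hε0) θ
  have vp := S.VV_per hε0 θ
  have h1 : ∫ x, VV i D F H ε θ x * lap ψ x ∂(cubeMeasure (n + 1)) =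
      ∫ x, ψ x * lap (VV i D F H ε θ) x ∂(cubeMeasure (n + 1)) := int_lap_symm vs fs vp fp
  rw [h1, Real.norm_eq_abs]
  have lc : Continuous (lap (VV i D F H ε θ)) := by
    have := (lap_smooth (S.VV_smooth hε0)).continuous
    exact this.comp (by fun_prop : Continuous fun x : Fin (n + 1) → ℝ => ((θ : ℝ), x))
  have i1 : Integrable (fun x => ψ x ^ 2) (cubeMeasure (n + 1)) :=
    cont_integrable (fs.continuous.pow 2)
  have i2 : Integrable (fun x => lap (VV i D F H ε θ) x ^ 2) (cubeMeasure (n + 1)) :=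
    cont_integrable (lc.pow 2)
  have i3 : Integrable (fun x => ψ x * lap (VV i D F H ε θ) x) (cubeMeasure (n + 1)) :=
    cont_integrable (fs.continuous.mul lc)
  have h2 := cs i1 i2 i3
  have h3 : √(∫ x, lap (VV i D F H ε θ) x ^ 2 ∂(cubeMeasure (n + 1))) ≤ C := by
    rw [Real.sqrt_le_left hC0]
    have h4 : ∀ᵐ x ∂(cubeMeasure (n + 1)), lap (VV i D F H ε θ) x ^ 2 ≤ C ^ 2 := by
      filter_upwards [ae_cube (n + 1)] with x hx
      rw [← sq_abs]
      exact pow_le_pow_left₀ (abs_nonneg _) (hC x (cube_sub _ hx)) 2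
    have h5 := integral_mono_of_nonneg (Eventually.of_forall fun x =>
      sq_nonneg (lap (VV i D F H ε θ) x)) (integrable_const _) h4
    simpa using h5
  have h6 : √(∫ x, ψ x ^ 2 ∂(cubeMeasure (n + 1))) ≤ M := hM
  calc _ ≤ √(∫ x, ψ x ^ 2 ∂(cubeMeasure (n + 1))) *
        √(∫ x, lap (VV i D F H ε θ) x ^ 2 ∂(cubeMeasure (n + 1))) := h2
    _ ≤ M * C := mul_le_mul h6 h3 (Real.sqrt_nonneg _) hM0
    _ = C * M := mul_comm _ _

/-- One shear step, with arbitrarily small error. -/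
theorem step (S : Shear i D F0 H0 F H) {η : ℝ} (hη : 0 < η) :
    ∃ ε τ : ℝ, 0 < ε ∧ 0 < τ ∧ ∀ s s' : ℝ, s < s' → s' - s ≤ τ →
      ∀ φ : ℝ → (Fin (n + 1) → ℝ) → ℝ, IsTest φ → ∀ M, (∀ t ∈ Icc s s', nrm (φ t) ≤ M) →
      |(∫ t in s..s', (∫ x, VV i D F H ε ((t - s) / (s' - s)) x *
        Ls (fun _ => vel i D H ε (s' - s)) φ t x ∂(cubeMeasure (n + 1)))) -
        (∫ x, (H0 x * F0 x) * φ s' x ∂(cubeMeasure (n + 1)) -
          ∫ x, F0 x * φ s x ∂(cubeMeasure (n + 1)))| ≤ η * M := by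
  have hκ : 0 < η / 3 := by positivity
  obtain ⟨ε, hε1, hε2, hε⟩ := ((S.lim_init.eventually (gt_mem_nhds (sq_pos_of_pos hκ))).and
    ((S.lim_fin.eventually (gt_mem_nhds (sq_pos_of_pos hκ))).and self_mem_nhdsWithin)).exists
  have hε0 : 0 < ε := hε
  obtain ⟨C, hC0, hC⟩ := cont_bounded' (lap_smooth (S.VV_smooth hε0)).continuous 1
  refine ⟨ε, η / (3 * (C + 1)), hε0, by positivity, ?_⟩
  intro s s' hs hτ φ hφ M hM
  have hM0 : 0 ≤ M := (Real.sqrt_nonneg _).trans (hM s (left_mem_Icc.2 hs.le))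
  have hτ0 : 0 < s' - s := by linarith
  have hφs := hφ.smooth
  have cV : Continuous fun p : ℝ × (Fin (n + 1) → ℝ) => VV i D F H ε ((p.1 - s) / (s' - s)) p.2 :=
    (S.VV_smooth hε0).continuous.comp
      (by fun_prop : Continuous fun p : ℝ × (Fin (n + 1) → ℝ) => ((p.1 - s) / (s' - s), p.2))
  have c2 := (dt_smooth hφs).continuous
  have c3 := (pd_smooth hφs i).continuous
  have c4 := (S.hh_smooth hε0).continuous
  have c5 := (lap_smooth hφs).continuous
  have cA : Continuous fun p : ℝ × (Fin (n + 1) → ℝ) => VV i D F H ε ((p.1 - s) / (s' - s)) p.2 *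
      (dt φ p.1 p.2 + adv (vel i D H ε (s' - s)) (φ p.1) p.2) := by
    simp_rw [adv_vel]
    fun_prop
  have cB : Continuous fun p : ℝ × (Fin (n + 1) → ℝ) => VV i D F H ε ((p.1 - s) / (s' - s)) p.2 *
      lap (φ p.1) p.2 := cV.mul c5
  have sA : ∀ t, Continuous fun x : Fin (n + 1) → ℝ => VV i D F H ε ((t - s) / (s' - s)) x *
      (dt φ t x + adv (vel i D H ε (s' - s)) (φ t) x) := fun t => cA.comp
      (by fun_prop : Continuous fun x : Fin (n + 1) → ℝ => ((t : ℝ), x))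
  have sB : ∀ t, Continuous fun x : Fin (n + 1) → ℝ => VV i D F H ε ((t - s) / (s' - s)) x *
      lap (φ t) x := fun t => cB.comp
      (by fun_prop : Continuous fun x : Fin (n + 1) → ℝ => ((t : ℝ), x))
  have hsplit : ∀ t, ∫ x, VV i D F H ε ((t - s) / (s' - s)) x *
        Ls (fun _ => vel i D H ε (s' - s)) φ t x ∂(cubeMeasure (n + 1)) =
      ∫ x, VV i D F H ε ((t - s) / (s' - s)) x *
        (dt φ t x + adv (vel i D H ε (s' - s)) (φ t) x) ∂(cubeMeasure (n + 1)) +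
      ∫ x, VV i D F H ε ((t - s) / (s' - s)) x * lap (φ t) x ∂(cubeMeasure (n + 1)) := by
    intro t
    rw [← integral_add (cont_integrable (sA t)) (cont_integrable (sB t))]
    congr 1
    ext x
    unfold Ls
    ring
  rw [intervalIntegral.integral_congr (g := fun t => ∫ x, VV i D F H ε ((t - s) / (s' - s)) x *
        (dt φ t x + adv (vel i D H ε (s' - s)) (φ t) x) ∂(cubeMeasure (n + 1)) +
      ∫ x, VV i D F H ε ((t - s) / (s' - s)) x * lap (φ t) x ∂(cubeMeasure (n + 1)))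
    (fun t _ => hsplit t)]
  rw [intervalIntegral.integral_add ((cont_param cA).intervalIntegrable _ _)
    ((cont_param cB).intervalIntegrable _ _), S.transport hε0 hs hφ]
  -- diffusion error
  have hdiff : |∫ t in s..s', (∫ x, VV i D F H ε ((t - s) / (s' - s)) x * lap (φ t) x
      ∂(cubeMeasure (n + 1)))| ≤ η / 3 * M := by
    have hb : ∀ t ∈ Set.uIoc s s', ‖∫ x, VV i D F H ε ((t - s) / (s' - s)) x * lap (φ t) x
      ∂(cubeMeasure (n + 1))‖ ≤ C * M := by
      intro t ht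
      rw [Set.uIoc_of_le hs.le] at ht
      have hθ : (t - s) / (s' - s) ∈ Icc (0 : ℝ) 1 := by
        constructor
        · exact div_nonneg (by linarith [ht.1]) hτ0.le
        · rw [div_le_one hτ0]; linarith [ht.2]
      exact S.diff_slice hε0 hC0 (hC _ hθ) (slice_smooth hφs t) (hφ.per t) (hM t ⟨ht.1.le, ht.2⟩)
    have h7 := intervalIntegral.norm_integral_le_of_norm_le_const hb
    rw [Real.norm_eq_abs] at h7
    refine h7.trans ?_
    rw [abs_of_pos hτ0]
    have h8 : C * (s' - s) ≤ η / 3 := by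
      have : C * (s' - s) ≤ C * (η / (3 * (C + 1))) := mul_le_mul_of_nonneg_left hτ hC0
      refine this.trans ?_
      rw [mul_div_assoc', div_le_div_iff₀ (by positivity) (by norm_num)]
      nlinarith
    calc C * M * (s' - s) = C * (s' - s) * M := by ring
      _ ≤ η / 3 * M := mul_le_mul_of_nonneg_right h8 hM0
  have vm : Measurable (VV i D F H ε 1) := by
    have := (S.VV_smooth hε0).continuous.comp
      (by fun_prop : Continuous fun x : Fin (n + 1) → ℝ => ((1 : ℝ), x))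
    exact this.measurable
  have e1 := nrm_diff (slice_smooth hφs s').continuous vm (S.hH.meas0.mul S.hF.meas0)
    (S.VV_bd hε0 1) (fun x => by
      rw [Pi.mul_apply, abs_mul]
      exact mul_le_one₀ (S.hH.bd0 x) (abs_nonneg _) (S.hF.bd0 x)) hκ.le hε2.le
    (hM s' (right_mem_Icc.2 hs.le))
  have e2 := nrm_diff (slice_smooth hφs s).continuous (S.hF.smooth ε hε0).continuous.measurable
    S.hF.meas0 (S.hF.bd ε hε0) S.hF.bd0 hκ.le hε1.le (hM s (left_mem_Icc.2 hs.le))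
  simp only [Pi.mul_apply] at e1
  rw [abs_le] at e1 e2 hdiff ⊢
  constructor <;> linarith [e1.1, e1.2, e2.1, e2.2, hdiff.1, hdiff.2]

end Shear

end Pool.Agent.R212
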