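import Pool.Agent.R212.Par8

open MeasureTheory Set Filter Function
open scoped Topology ContDiff ENNReal InnerProductSpace

namespace Pool.Agent.R212

/-- three-dimensional coordinates -/
abbrev X3 := Fin 3 → ℝ

/-- the slow mode of cycle `j` -/
noncomputable def am (j : ℕ) (x : X3) : ℝ := Real.sin (2 * Real.pi * ((2 ^ j : ℕ) * x 2))

/-- alternating coordinate -/
def cc (k : ℕ) : Fin 3 := if k % 2 = 0 then 0 else 1

lemma cc_ne (k : ℕ) : cc k ≠ cc (k + 1) := by
  unfold cc
  rcases Nat.mod_two_eq_zero_or_one k with h | h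
  · have : (k + 1) % 2 = 1 := by omega
    simp [h, this]
  · have : (k + 1) % 2 = 0 := by omega
    simp [h, this]

lemma cc_ne2 (k : ℕ) : cc k ≠ 2 := by
  unfold cc
  split <;> decide

/-- frequencies -/
def fq (j k : ℕ) : ℕ := 2 ^ j * 4 ^ k

lemma fq_pos (j k : ℕ) : 0 < fq j k := by unfold fq; positivity

/-- square waves of the cascade -/
noncomputable def gg (j k : ℕ) (x : X3) : ℝ := sqw0 (fq j k) (cc k) x

noncomputable def ge (j k : ℕ) (ε : ℝ) (x : X3) : ℝ := sqw (fq j k) (cc k) ε x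

/-- states -/
noncomputable def WW (j : ℕ) : ℕ → X3 → ℝ
  | 0 => am j
  | (m + 1) => if m % 2 = 0 then fun x => am j x * gg j (m / 2) x
      else fun x => am j x * gg j (m / 2) x * gg j (m / 2 + 1) x

lemma WW_odd (j k : ℕ) : WW j (2 * k + 1) = fun x => am j x * gg j k x := by
  show (if (2 * k) % 2 = 0 then (fun x => am j x * gg j ((2 * k) / 2) x)
      else fun x => am j x * gg j ((2 * k) / 2) x * gg j ((2 * k) / 2 + 1) x) = _
  have h1 : (2 * k) % 2 = 0 := by omega
  have h2 : (2 * k) / 2 = k := by omega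
  rw [if_pos h1, h2]

lemma WW_even (j k : ℕ) : WW j (2 * k + 2) = fun x => am j x * gg j k x * gg j (k + 1) x := by
  show (if (2 * k + 1) % 2 = 0 then (fun x => am j x * gg j ((2 * k + 1) / 2) x)
      else fun x => am j x * gg j ((2 * k + 1) / 2) x * gg j ((2 * k + 1) / 2 + 1) x) = _
  have h1 : ¬ (2 * k + 1) % 2 = 0 := by omega
  have h2 : (2 * k + 1) / 2 = k := by omega
  rw [if_neg h1, h2]

lemma ap_am (j : ℕ) : Approx (am j) (fun _ => am j) := approx_sin (2 ^ j) 2

lemma ap_gg (j k : ℕ) : Approx (gg j k) (ge j k) := approx_sqw (fq_pos j k) (cc k)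

lemma gg_pm (j k : ℕ) : ∀ᵐ x ∂(volume : Measure X3), gg j k x = 1 ∨ gg j k x = -1 :=
  sqw0_pm (fq_pos j k) (cc k)

lemma sq_pm {a : ℝ} (h : a = 1 ∨ a = -1) : a * a = 1 := by
  rcases h with h | h <;> rw [h] <;> norm_num

lemma sub_bv_same {n : ℕ} (i : Fin n) (D : ℝ) (x : Fin n → ℝ) : (x - D • bv i) i = x i - D := by
  simp [bv]

lemma sub_bv_ne {n : ℕ} {i k : Fin n} (h : k ≠ i) (D : ℝ) (x : Fin n → ℝ) :
    (x - D • bv i) k = x k := by
  simp [bv, h]

lemma add_bv_ne {n : ℕ} {i k : Fin n} (h : k ≠ i) (a : ℝ) (x : Fin n → ℝ) :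
    (x + a • bv i) k = x k := by
  simp [bv, h]

lemma sin_anti {f : ℕ} (hf : 0 < f) (y : ℝ) :
    Real.sin (2 * Real.pi * (f * (y - 1 / (2 * f)))) = -Real.sin (2 * Real.pi * (f * y)) := by
  have hf' : (f : ℝ) ≠ 0 := by exact_mod_cast hf.ne'
  rw [show 2 * Real.pi * (f * (y - 1 / (2 * f))) = 2 * Real.pi * (f * y) - Real.pi by
    field_simp]
  exact Real.sin_sub_pi _

lemma sign_neg' (a : ℝ) : Real.sign (-a) = -Real.sign a := by
  rcases lt_trichotomy a 0 with h | h | h
  · rw [Real.sign_of_neg h, Real.sign_of_pos (by linarith)]; norm_num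
  · rw [h]; simp
  · rw [Real.sign_of_pos h, Real.sign_of_neg (by linarith)]

lemma gg_anti (j k : ℕ) (x : X3) : gg j k (x - (1 / (2 * (fq j k : ℝ))) • bv (cc k)) = -gg j k x := by
  unfold gg sqw0
  rw [sub_bv_same, sin_anti (fq_pos j k), sign_neg']

lemma gg_other (j k : ℕ) {i : Fin 3} (h : cc k ≠ i) (D : ℝ) (x : X3) :
    gg j k (x - D • bv i) = gg j k x := by
  unfold gg sqw0
  rw [sub_bv_ne h]

lemma ge_other (j k : ℕ) {i : Fin 3} (h : cc k ≠ i) (ε : ℝ) (x : X3) (a : ℝ) :
    ge j k ε (x + a • bv i) = ge j k ε x := by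
  unfold ge sqw
  rw [add_bv_ne h]

lemma am_other (j : ℕ) {i : Fin 3} (h : 2 ≠ i) (D : ℝ) (x : X3) :
    am j (x - D • bv i) = am j x := by
  unfold am
  rw [sub_bv_ne h]

lemma am_anti (j : ℕ) (x : X3) :
    am j (x - (1 / (2 * ((2 ^ j : ℕ) : ℝ))) • bv 2) = -am j x := by
  unfold am
  rw [sub_bv_same, sin_anti (by positivity)]

lemma shear0 (j : ℕ) : Shear (2 : Fin 3) (1 / (2 * ((2 ^ j : ℕ) : ℝ))) (WW j 1) (gg j 0)
    (fun ε x => am j x * ge j 0 ε x) (ge j 0) where
  hD := by positivity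
  hF := by
    have := WW_odd j 0
    simp only [mul_zero, zero_add] at this
    rw [this]
    exact (ap_am j).mul (ap_gg j 0)
  hH := ap_gg j 0
  inv := fun ε x a => ge_other j 0 (cc_ne2 0) ε x a
  pm := gg_pm j 0
  anti := fun x => by
    have := WW_odd j 0
    simp only [mul_zero, zero_add] at this
    rw [this]
    simp only
    rw [am_anti, gg_other j 0 (cc_ne2 0)]
    ring

lemma shearEven (j k : ℕ) : Shear (cc k) (1 / (2 * (fq j k : ℝ))) (WW j (2 * k + 2)) (gg j (k + 1))
    (fun ε x => am j x * ge j k ε x * ge j (k + 1) ε x) (ge j (k + 1)) where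
  hD := by
    have : (0 : ℝ) < fq j k := by exact_mod_cast fq_pos j k
    positivity
  hF := by
    rw [WW_even]
    exact ((ap_am j).mul (ap_gg j k)).mul (ap_gg j (k + 1))
  hH := ap_gg j (k + 1)
  inv := fun ε x a => ge_other j (k + 1) (cc_ne k).symm ε x a
  pm := gg_pm j (k + 1)
  anti := fun x => by
    rw [WW_even]
    simp only
    rw [am_other j (cc_ne2 k).symm, gg_anti, gg_other j (k + 1) (cc_ne k).symm]
    ring

lemma shearOdd (j k : ℕ) : Shear (cc (k + 1)) (1 / (2 * (fq j (k + 1) : ℝ))) (WW j (2 * k + 3))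
    (gg j k) (fun ε x => am j x * ge j (k + 1) ε x) (ge j k) where
  hD := by
    have : (0 : ℝ) < fq j (k + 1) := by exact_mod_cast fq_pos j (k + 1)
    positivity
  hF := by
    have := WW_odd j (k + 1)
    rw [show 2 * (k + 1) + 1 = 2 * k + 3 by ring] at this
    rw [this]
    exact (ap_am j).mul (ap_gg j (k + 1))
  hH := ap_gg j k
  inv := fun ε x a => ge_other j k (cc_ne k) ε x a
  pm := gg_pm j k
  anti := fun x => by
    have := WW_odd j (k + 1)
    rw [show 2 * (k + 1) + 1 = 2 * k + 3 by ring] at this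
    rw [this]
    simp only
    rw [am_other j (cc_ne2 (k + 1)).symm, gg_anti]
    ring

lemma fq_cast (j k : ℕ) : (fq j k : ℝ) = 2 ^ j * 4 ^ k := by
  unfold fq
  push_cast
  ring

/-- Data for the step `W (k+1) → W k`. -/
theorem stepData (j k : ℕ) : ∃ (i : Fin 3) (D : ℝ) (H0 : X3 → ℝ) (F H : ℝ → X3 → ℝ),
    Shear i D (WW j (k + 1)) H0 F H ∧ D ≤ (1 / 2) ^ j * (1 / 2) ^ k ∧
    ∀ᵐ x ∂(cubeMeasure 3), H0 x * WW j (k + 1) x = WW j k x := by
  rcases Nat.eq_zero_or_pos k with h0 | hpos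
  · subst h0
    refine ⟨_, _, _, _, _, shear0 j, ?_, ?_⟩
    · rw [pow_zero, mul_one, one_div_pow]
      push_cast
      apply one_div_le_one_div_of_le (by positivity)
      have : (0 : ℝ) < 2 ^ j := by positivity
      linarith
    · have := WW_odd j 0
      simp only [mul_zero, zero_add] at this
      filter_upwards [ae_restrict_of_ae (gg_pm j 0)] with x hx
      rw [this]
      show gg j 0 x * (am j x * gg j 0 x) = am j x
      have h1 := sq_pm hx
      linear_combination (am j x) * h1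
  · rcases Nat.even_or_odd' k with ⟨m, hm | hm⟩
    · -- k = 2m, m ≥ 1
      obtain ⟨l, rfl⟩ : ∃ l, m = l + 1 := ⟨m - 1, by omega⟩
      subst hm
      refine ⟨_, _, _, _, _, shearOdd j l, ?_, ?_⟩
      · rw [fq_cast, one_div_pow, one_div_pow, one_div_mul_one_div]
        apply one_div_le_one_div_of_le (by positivity)
        have h1 : (2 : ℝ) ^ (2 * (l + 1)) = 4 ^ (l + 1) := by
          rw [pow_mul]; norm_num
        rw [h1]
        have : (0 : ℝ) < 2 ^ j * 4 ^ (l + 1) := by positivity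
        linarith
      · filter_upwards with x
        have h1 := WW_odd j (l + 1)
        rw [show 2 * (l + 1) + 1 = 2 * l + 3 by ring] at h1
        have h2 := WW_even j l
        rw [show 2 * l + 2 = 2 * (l + 1) by ring] at h2
        rw [h2]
        rw [show 2 * (l + 1) + 1 = 2 * l + 3 by ring, h1]
        ring
    · -- k = 2m+1
      subst hm
      refine ⟨_, _, _, _, _, shearEven j m, ?_, ?_⟩
      · rw [fq_cast, one_div_pow, one_div_pow, one_div_mul_one_div]
        apply one_div_le_one_div_of_le (by positivity)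
        have h1 : (2 : ℝ) ^ (2 * m + 1) = 2 * 4 ^ m := by
          rw [pow_succ, pow_mul]; norm_num; ring
        rw [h1]
        have : (0 : ℝ) < 2 ^ j * 4 ^ m := by positivity
        linarith
      · filter_upwards [ae_restrict_of_ae (gg_pm j (m + 1))] with x hx
        rw [WW_odd]
        rw [show 2 * m + 1 + 1 = 2 * m + 2 by ring, WW_even]
        have h1 := sq_pm hx
        simp only
        linear_combination (am j x * gg j m x) * h1

/-- weak smallness of antiperiodic states -/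
lemma anti_small {n : ℕ} {i : Fin (n + 1)} {D : ℝ} {F0 H0 : (Fin (n + 1) → ℝ) → ℝ}
    {F H : ℝ → (Fin (n + 1) → ℝ) → ℝ} (S : Shear i D F0 H0 F H)
    {ψ : (Fin (n + 1) → ℝ) → ℝ} (hψ : ContDiff ℝ ∞ ψ)
    (pψ : ∀ i x, ψ (x + Pi.single i 1) = ψ x) {K : ℝ} (hK : ∀ x, |pd i ψ x| ≤ K) :
    |∫ x, F0 x * ψ x ∂(cubeMeasure (n + 1))| ≤ D * K := by
  obtain ⟨C, hC0, hC⟩ := per_bounded hψ.continuous pψ
  have hbd : ∀ x, |F0 x * ψ x| ≤ C := fun x => by
    rw [abs_mul]
    calc |F0 x| * |ψ x| ≤ 1 * C := mul_le_mul (S.hF.bd0 x) (hC x) (abs_nonneg _) zero_le_one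
      _ = C := one_mul C
  have hm : Measurable fun x => F0 x * ψ x := S.hF.meas0.mul hψ.continuous.measurable
  have h1 := shear_inv i (F := fun x => F0 x * ψ x) (h := fun _ => -D) hm hbd
    (fun x => by rw [bv_eq, S.hF.per0, pψ]) measurable_const (fun _ _ => rfl)
  have h2 : ∀ x, F0 (x + (-D) • bv i) * ψ (x + (-D) • bv i) = -(F0 x * ψ (x - D • bv i)) := by
    intro x
    rw [show x + (-D) • (bv i : Fin (n + 1) → ℝ) = x - D • bv i by
      rw [neg_smul, sub_eq_add_neg], S.anti]
    ring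
  simp_rw [h2] at h1
  rw [integral_neg] at h1
  have hsh : Continuous fun x : Fin (n + 1) → ℝ => ψ (x - D • bv i) := by
    have := hψ.continuous
    fun_prop
  have i1 : Integrable (fun x => F0 x * ψ x) (cubeMeasure (n + 1)) :=
    bounded_integrable hm (fun x _ => hbd x)
  have i2 : Integrable (fun x => F0 x * ψ (x - D • bv i)) (cubeMeasure (n + 1)) :=
    bounded_integrable (C := C) (S.hF.meas0.mul hsh.measurable) (fun x _ => by
      rw [abs_mul]
      calc |F0 x| * |ψ (x - D • bv i)| ≤ 1 * C :=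
            mul_le_mul (S.hF.bd0 x) (hC _) (abs_nonneg _) zero_le_one
        _ = C := one_mul C)
  have hmv : ∀ x, |ψ x - ψ (x - D • bv i)| ≤ D * K := by
    intro x
    have hd : ∀ s : ℝ, HasDerivAt (fun s : ℝ => ψ (x - D • bv i + s • bv i))
        (pd i ψ (x - D • bv i + s • bv i)) s := by
      intro s
      have h3 := pd_hasDeriv i (cdiff hψ (x - D • bv i + s • bv i))
      have h4 : HasDerivAt (fun r : ℝ => ψ (x - D • bv i + s • bv i + r • bv i))
          (pd i ψ (x - D • bv i + s • bv i)) (s - s) := by rwa [sub_self]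
      have h5 := h4.comp_sub_const s s
      refine h5.congr_of_eventuallyEq ?_
      filter_upwards with r
      rw [add_assoc, ← add_smul]
      congr 3
      ring
    have h6 := Convex.norm_image_sub_le_of_norm_hasDerivWithin_le (C := K)
      (fun s _ => (hd s).hasDerivWithinAt) (fun s _ => by
        rw [Real.norm_eq_abs]; exact hK _) (convex_Icc (0 : ℝ) D)
      (left_mem_Icc.2 S.hD.le) (right_mem_Icc.2 S.hD.le)
    rw [Real.norm_eq_abs, Real.norm_eq_abs, zero_smul, add_zero, sub_zero, sub_add_cancel,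
      abs_of_pos S.hD] at h6
    linarith
  have h7 : 2 * ∫ x, F0 x * ψ x ∂(cubeMeasure (n + 1)) =
      ∫ x, F0 x * (ψ x - ψ (x - D • bv i)) ∂(cubeMeasure (n + 1)) := by
    simp_rw [mul_sub]
    rw [integral_sub i1 i2]
    linarith
  have h8 : ‖∫ x, F0 x * (ψ x - ψ (x - D • bv i)) ∂(cubeMeasure (n + 1))‖ ≤ D * K := by
    have := norm_integral_le_of_norm_le_const (μ := cubeMeasure (n + 1))
      (f := fun x => F0 x * (ψ x - ψ (x - D • bv i))) (C := D * K) (by
        filter_upwards with x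
        rw [Real.norm_eq_abs, abs_mul]
        calc |F0 x| * |ψ x - ψ (x - D • bv i)| ≤ 1 * (D * K) :=
              mul_le_mul (S.hF.bd0 x) (hmv x) (abs_nonneg _) zero_le_one
          _ = D * K := one_mul _)
    simpa using this
  rw [← h7, Real.norm_eq_abs, abs_mul] at h8
  have h9 : (0 : ℝ) ≤ |∫ x, F0 x * ψ x ∂(cubeMeasure (n + 1))| := abs_nonneg _
  rw [abs_of_pos (by norm_num : (0 : ℝ) < 2)] at h8
  linarith

end Pool.Agent.R212
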