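import Pool.Agent.R212.PshDef

/-! # The functions `W α`, `α ≥ 1/2`, are subharmonic -/

namespace Pool.Agent.R212.Psh

open MeasureTheory Metric Set Filter Topology Real

theorem log_norm_le_circleAverage (c : ℂ) (r : ℝ) (hr : 0 < r) (hc : c ≠ 0) :
    Real.log ‖c‖ ≤ Real.circleAverage (fun z : ℂ => Real.log ‖z‖) c r := by
  have h := circleAverage_log_norm_sub_const_eq_log_radius_add_posLog (a := 0) (c := c) hr.ne'
  have e : (fun z : ℂ => Real.log ‖z‖) = (Real.log ‖· - (0:ℂ)‖) := by
    funext z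
    simp
  rw [e, h, sub_zero]
  have h1 : Real.log (r⁻¹ * ‖c‖) ≤ Real.posLog (r⁻¹ * ‖c‖) := le_max_right _ _
  have h2 : Real.log (r⁻¹ * ‖c‖) = Real.log ‖c‖ - Real.log r := by
    rw [Real.log_mul (inv_ne_zero hr.ne') (norm_ne_zero_iff.2 hc), Real.log_inv]
    ring
  linarith

theorem circleIntegrable_log_norm' (c : ℂ) (r : ℝ) :
    CircleIntegrable (fun z : ℂ => Real.log ‖z‖) c r := by
  have := circleIntegrable_log_norm_sub_const (a := 0) (c := c) r
  simpa using this

/-- sub-mean value inequality from supporting functions `a log|z| + b` -/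
theorem le_circleAverage_of_support (w : ℂ → ℝ) (hw : Continuous w) (c : ℂ) (hc : c ≠ 0)
    (a b : ℝ) (ha : 0 ≤ a) (h1 : ∀ z : ℂ, z ≠ 0 → a * Real.log ‖z‖ + b ≤ w z)
    (h2 : w c = a * Real.log ‖c‖ + b) (r : ℝ) (hr : 0 < r) :
    w c ≤ Real.circleAverage w c r := by
  have key : ∀ s : ℝ, 0 < s → s ≠ ‖c‖ → w c ≤ Real.circleAverage w c s := by
    intro s hs hsc
    have hm : Real.circleAverage (fun z : ℂ => a * Real.log ‖z‖ + b) c s
        ≤ Real.circleAverage w c s := by
      apply circleAverage_mono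
      · exact ((circleIntegrable_log_norm' c s).const_fun_smul (a := a)).add
          (circleIntegrable_const b c s)
      · exact hw.continuousOn.circleIntegrable'
      · intro x hx
        apply h1
        rintro rfl
        rw [abs_of_pos hs] at hx
        simp at hx
        exact hsc hx.symm
    have he : Real.circleAverage (fun z : ℂ => a * Real.log ‖z‖ + b) c s
        = a * Real.circleAverage (fun z : ℂ => Real.log ‖z‖) c s + b := by
      rw [circleAverage_fun_add (f₁ := fun z : ℂ => a * Real.log ‖z‖) (f₂ := fun _ => b)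
        ((circleIntegrable_log_norm' c s).const_fun_smul (a := a)) (circleIntegrable_const b c s),
        circleAverage_const]
      congr 1
      exact circleAverage_fun_smul (a := a) (f := fun z : ℂ => Real.log ‖z‖)
    rw [he] at hm
    have := log_norm_le_circleAverage c s hs hc
    rw [h2]
    nlinarith [mul_le_mul_of_nonneg_left this ha]
  by_cases hrc : r = ‖c‖
  · have hcont : Continuous (Real.circleAverage w c) := hw.circleAverage
    have ht : Tendsto (Real.circleAverage w c) (𝓝[>] r) (𝓝 (Real.circleAverage w c r)) :=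
      hcont.continuousAt.mono_left nhdsWithin_le_nhds
    refine ge_of_tendsto ht ?_
    filter_upwards [self_mem_nhdsWithin] with s hs
    have hs' : r < s := hs
    exact key s (hr.trans hs') (by rw [← hrc]; exact hs'.ne')
  · exact key r hr hrc

theorem continuous_W (α : ℝ) : Continuous (W α) := by
  unfold W
  have h : Continuous fun z : ℂ => Real.log (max ‖z‖ 1) := by
    apply Continuous.log
    · fun_prop
    · intro z
      have : (1:ℝ) ≤ max ‖z‖ 1 := le_max_right _ _
      linarith
  fun_prop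

theorem W_of_le {α : ℝ} {z : ℂ} (hz : ‖z‖ ≤ 1) : W α z = (‖z‖ ^ 2 - 3) / 4 := by
  unfold W
  rw [min_eq_left hz, max_eq_right hz, Real.log_one]
  ring

theorem W_of_ge {α : ℝ} {z : ℂ} (hz : 1 ≤ ‖z‖) : W α z = α * Real.log ‖z‖ - 1 / 2 := by
  unfold W
  rw [min_eq_right hz, max_eq_left hz]
  ring

theorem W_ge (α : ℝ) (hα : 1 / 2 ≤ α) (z : ℂ) : -(3/4 : ℝ) ≤ W α z := by
  rcases le_total ‖z‖ 1 with h | h
  · rw [W_of_le h]
    nlinarith [sq_nonneg ‖z‖]
  · rw [W_of_ge h]
    have := Real.log_nonneg h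
    nlinarith [mul_nonneg (by linarith : (0:ℝ) ≤ α) this]

theorem W_sub_mean (α : ℝ) (hα : 1 / 2 ≤ α) (c : ℂ) (r : ℝ) (hr : 0 < r) :
    W α c ≤ Real.circleAverage (W α) c r := by
  by_cases hc : c = 0
  · subst hc
    have h0 : W α 0 = -(3/4) := by
      rw [W_of_le (by simp)]
      simp
      norm_num
    rw [h0, ← circleAverage_const (-(3/4 : ℝ)) 0 r]
    apply circleAverage_mono
    · exact circleIntegrable_const _ _ _
    · exact (continuous_W α).continuousOn.circleIntegrable'
    · intro x _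
      exact W_ge α hα x
  have hcp : 0 < ‖c‖ := norm_pos_iff.2 hc
  rcases le_total ‖c‖ 1 with h | h
  · refine le_circleAverage_of_support (W α) (continuous_W α) c hc (‖c‖ ^ 2 / 2)
      ((‖c‖ ^ 2 - 3) / 4 - ‖c‖ ^ 2 / 2 * Real.log ‖c‖) (by positivity) ?_ ?_ r hr
    · intro z hz
      have hzp : 0 < ‖z‖ := norm_pos_iff.2 hz
      have hlog : Real.log (‖z‖ ^ 2 / ‖c‖ ^ 2) ≤ ‖z‖ ^ 2 / ‖c‖ ^ 2 - 1 :=
        Real.log_le_sub_one_of_pos (by positivity)
      have e1 : Real.log (‖z‖ ^ 2 / ‖c‖ ^ 2) = 2 * Real.log ‖z‖ - 2 * Real.log ‖c‖ := by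
        rw [Real.log_div (by positivity) (by positivity), Real.log_pow, Real.log_pow]
        push_cast
        ring
      rw [e1] at hlog
      have e2 : ‖c‖ ^ 2 * (‖z‖ ^ 2 / ‖c‖ ^ 2 - 1) = ‖z‖ ^ 2 - ‖c‖ ^ 2 := by
        field_simp
      have h3 := mul_le_mul_of_nonneg_left hlog (sq_nonneg ‖c‖)
      rw [e2] at h3
      rcases le_total ‖z‖ 1 with hz1 | hz1
      · rw [W_of_le hz1]
        nlinarith
      · rw [W_of_ge hz1]
        have hl := Real.log_nonneg hz1
        have hlog1 : Real.log (1 / ‖c‖ ^ 2) ≤ 1 / ‖c‖ ^ 2 - 1 :=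
          Real.log_le_sub_one_of_pos (by positivity)
        have e3 : Real.log (1 / ‖c‖ ^ 2) = - (2 * Real.log ‖c‖) := by
          rw [Real.log_div (by positivity) (by positivity), Real.log_pow]
          simp
        rw [e3] at hlog1
        have e4 : ‖c‖ ^ 2 * (1 / ‖c‖ ^ 2 - 1) = 1 - ‖c‖ ^ 2 := by
          field_simp
        have h5 := mul_le_mul_of_nonneg_left hlog1 (sq_nonneg ‖c‖)
        rw [e4] at h5
        have h6 : ‖c‖ ^ 2 / 2 * Real.log ‖z‖ ≤ α * Real.log ‖z‖ := by
          apply mul_le_mul_of_nonneg_right _ hl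
          nlinarith
        nlinarith
    · rw [W_of_le h]
      ring
  · refine le_circleAverage_of_support (W α) (continuous_W α) c hc α (-(1/2)) (by linarith)
      ?_ ?_ r hr
    · intro z hz
      have hzp : 0 < ‖z‖ := norm_pos_iff.2 hz
      rcases le_total ‖z‖ 1 with hz1 | hz1
      · rw [W_of_le hz1]
        have hl : Real.log ‖z‖ ≤ 0 := Real.log_nonpos hzp.le hz1
        have hlog : Real.log (‖z‖ ^ 2) ≤ ‖z‖ ^ 2 - 1 :=
          Real.log_le_sub_one_of_pos (by positivity)
        rw [Real.log_pow] at hlog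
        push_cast at hlog
        have h6 : α * Real.log ‖z‖ ≤ 1 / 2 * Real.log ‖z‖ := by
          nlinarith
        nlinarith
      · rw [W_of_ge hz1]
        linarith
    · rw [W_of_ge h]
      ring

/-- a continuous function with the sub-mean value property is subharmonic on every set -/
theorem subharmonic_of_continuous (D : Set ℂ) (w : ℂ → ℝ) (hw : Continuous w)
    (h : ∀ (c : ℂ) (r : ℝ), 0 < r → w c ≤ Real.circleAverage w c r) :
    Subharmonic D (fun z => ((w z : ℝ) : EReal)) := by
  refine ⟨?_, ?_, ?_⟩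
  · exact (continuous_coe_real_ereal.comp hw).continuousOn.upperSemicontinuousOn
  · intro z _
    exact EReal.coe_lt_top _
  · intro a r hr _ φ hφ hle
    rw [EReal.coe_le_coe_iff]
    refine (h a r hr).trans ?_
    apply circleAverage_mono
    · exact hw.continuousOn.circleIntegrable'
    · apply ContinuousOn.circleIntegrable'
      rwa [abs_of_pos hr]
    · intro x hx
      rw [abs_of_pos hr] at hx
      exact EReal.coe_le_coe_iff.1 (hle x hx)

theorem subharmonic_W (D : Set ℂ) (α : ℝ) (hα : 1 / 2 ≤ α) :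
    Subharmonic D (fun z => ((W α z : ℝ) : EReal)) :=
  subharmonic_of_continuous D (W α) (continuous_W α) (W_sub_mean α hα)

end Pool.Agent.R212.Psh
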