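import Pool.Agent.R212.Psh1

/-! # The maximum principle on annuli and the extremal functions of the example -/

namespace Pool.Agent.R212.Psh

open MeasureTheory Metric Set Filter Topology Real

theorem circleAverage_norm_sq (c : ℂ) (r : ℝ) :
    Real.circleAverage (fun z : ℂ => ‖z‖ ^ 2) c r = ‖c‖ ^ 2 + r ^ 2 := by
  have h1 : Real.circleAverage (fun z : ℂ => ‖z‖ ^ 2) c r
      = Real.circleAverage (fun z : ℂ => (‖c‖ ^ 2 + r ^ 2) +
        2 * (Complex.reCLM ∘ (fun z : ℂ => (starRingEnd ℂ) c * (z - c))) z) c r := by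
    apply circleAverage_congr_sphere
    intro z hz
    have hz' : ‖z - c‖ = |r| := by simpa [dist_eq_norm] using hz
    have h3 : ‖z‖ ^ 2 = ‖c‖ ^ 2 + ‖z - c‖ ^ 2 + 2 * ((starRingEnd ℂ) c * (z - c)).re := by
      rw [← Complex.normSq_eq_norm_sq, ← Complex.normSq_eq_norm_sq, ← Complex.normSq_eq_norm_sq]
      simp [Complex.normSq_apply]
      ring
    show ‖z‖ ^ 2 = _
    rw [h3, hz', sq_abs]
    simp
  rw [h1]
  have hci : CircleIntegrable (Complex.reCLM ∘ (fun z : ℂ => (starRingEnd ℂ) c * (z - c))) c r := by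
    apply ContinuousOn.circleIntegrable'
    apply Continuous.continuousOn
    exact Complex.reCLM.continuous.comp (by fun_prop)
  have hci' : CircleIntegrable (fun z => 2 * (Complex.reCLM ∘
      (fun z : ℂ => (starRingEnd ℂ) c * (z - c))) z) c r := hci.const_fun_smul (a := (2:ℝ))
  rw [circleAverage_fun_add (f₁ := fun _ => ‖c‖ ^ 2 + r ^ 2)
    (circleIntegrable_const _ _ _) hci', circleAverage_const]
  have h2 : Real.circleAverage (fun z => 2 * (Complex.reCLM ∘
      (fun z : ℂ => (starRingEnd ℂ) c * (z - c))) z) c r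
      = 2 * Real.circleAverage (Complex.reCLM ∘ (fun z : ℂ => (starRingEnd ℂ) c * (z - c))) c r :=
    circleAverage_fun_smul (a := (2:ℝ))
      (f := (Complex.reCLM ∘ (fun z : ℂ => (starRingEnd ℂ) c * (z - c))))
  rw [h2, Complex.reCLM.circleAverage_comp_comm]
  · have h4 : Real.circleAverage (fun z : ℂ => (starRingEnd ℂ) c * (z - c)) c r = 0 := by
      have := DiffContOnCl.circleAverage (c := c) (R := r)
        (f := fun z : ℂ => (starRingEnd ℂ) c * (z - c)) (Differentiable.diffContOnCl (by fun_prop))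
      rw [this]
      simp
    rw [h4]
    simp
  · apply ContinuousOn.circleIntegrable'
    apply Continuous.continuousOn
    fun_prop

theorem circleAverage_log_norm_eq (c : ℂ) (r : ℝ) (hr : 0 < r) (hrc : r ≤ ‖c‖) :
    Real.circleAverage (fun z : ℂ => Real.log ‖z‖) c r = Real.log ‖c‖ := by
  have h := circleAverage_log_norm_sub_const_eq_log_radius_add_posLog (a := 0) (c := c) hr.ne'
  have e : (fun z : ℂ => Real.log ‖z‖) = (Real.log ‖· - (0:ℂ)‖) := by
    funext z
    simp
  have hcp : 0 < ‖c‖ := hr.trans_le hrc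
  rw [e, h, sub_zero]
  have h1 : Real.posLog (r⁻¹ * ‖c‖) = Real.log (r⁻¹ * ‖c‖) := by
    apply Real.posLog_eq_log
    rw [abs_of_pos (by positivity), inv_mul_eq_div, le_div_iff₀ hr]
    linarith
  rw [h1, Real.log_mul (inv_ne_zero hr.ne') hcp.ne', Real.log_inv]
  ring

/-- maximum principle on the annulus `1 ≤ |z| ≤ R` with comparison function `a log|z| + b` -/
theorem annulus_max {D : Set ℂ} {u : ℂ → EReal} (hu : Subharmonic D u) {R : ℝ} (hR : 1 < R)
    (hD : {z : ℂ | 1 ≤ ‖z‖ ∧ ‖z‖ ≤ R} ⊆ D) (a b : ℝ)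
    (h1 : ∀ z : ℂ, ‖z‖ = 1 → u z ≤ ((b : ℝ) : EReal))
    (h2 : ∀ z : ℂ, ‖z‖ = R → u z ≤ ((a * Real.log R + b : ℝ) : EReal))
    (z : ℂ) (hz1 : 1 ≤ ‖z‖) (hz2 : ‖z‖ ≤ R) :
    u z ≤ ((a * Real.log ‖z‖ + b : ℝ) : EReal) := by
  set A : Set ℂ := {z : ℂ | 1 ≤ ‖z‖ ∧ ‖z‖ ≤ R} with hA
  have hAc : IsCompact A := by
    apply (isCompact_closedBall (0:ℂ) R).of_isClosed_subset
    · apply IsClosed.inter
      · exact isClosed_le continuous_const continuous_norm
      · exact isClosed_le continuous_norm continuous_const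
    · intro x hx
      simpa using hx.2
  have hAn : A.Nonempty := ⟨z, hz1, hz2⟩
  -- it suffices to prove with an error
  have key : ∀ ε : ℝ, 0 < ε → u z ≤ ((a * Real.log ‖z‖ + b + ε * R ^ 2 : ℝ) : EReal) := by
    intro ε hε
    set g : ℂ → ℝ := fun x => -(a * Real.log ‖x‖ + b) + ε * ‖x‖ ^ 2 with hg
    have hgc : ContinuousOn g A := by
      apply ContinuousOn.add
      · apply ContinuousOn.neg
        apply ContinuousOn.add _ continuousOn_const
        apply ContinuousOn.mul continuousOn_const
        apply ContinuousOn.log continuous_norm.continuousOn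
        intro x hx
        have : 1 ≤ ‖x‖ := hx.1
        linarith
      · fun_prop
    have husc : UpperSemicontinuousOn (fun x => u x + ((g x : ℝ) : EReal)) A := by
      apply UpperSemicontinuousOn.add' (hu.1.mono hD)
      · exact (continuous_coe_real_ereal.comp_continuousOn hgc).upperSemicontinuousOn
      · intro x _
        apply EReal.continuousAt_add
        · right
          exact EReal.coe_ne_bot _
        · right
          exact EReal.coe_ne_top _
    obtain ⟨z₀, hz₀, hmax⟩ := UpperSemicontinuousOn.exists_isMaxOn hAn hAc husc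
    have hmax' : ∀ x ∈ A, u x + ((g x : ℝ) : EReal) ≤ u z₀ + ((g z₀ : ℝ) : EReal) :=
      fun x hx => hmax hx
    have hzA : z ∈ A := ⟨hz1, hz2⟩
    rcases eq_or_ne (u z₀) ⊥ with hbot | hbot
    · have := hmax' z hzA
      rw [hbot, EReal.bot_add] at this
      have h3 : u z = ⊥ := by
        by_contra hne
        have htop := (hu.2.1 z (hD hzA)).ne
        lift u z to ℝ using ⟨htop, hne⟩ with t
        rw [← EReal.coe_add] at this
        exact absurd (le_bot_iff.1 this) (EReal.coe_ne_bot _)
      rw [h3]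
      exact bot_le
    · have htop := (hu.2.1 z₀ (hD hz₀)).ne
      obtain ⟨t, ht⟩ : ∃ t : ℝ, u z₀ = (t : EReal) := by
        lift u z₀ to ℝ using ⟨htop, hbot⟩ with t
        exact ⟨t, rfl⟩
      have hle : ∀ x ∈ A, u x ≤ ((t + g z₀ - g x : ℝ) : EReal) := by
        intro x hx
        have h4 := hmax' x hx
        rw [ht] at h4
        rcases eq_or_ne (u x) ⊥ with hb | hb
        · rw [hb]
          exact bot_le
        · have htop' := (hu.2.1 x (hD hx)).ne
          lift u x to ℝ using ⟨htop', hb⟩ with s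
          norm_cast at h4 ⊢
          linarith
      -- the maximum is at the boundary
      have hM : t + g z₀ ≤ ε * R ^ 2 := by
        by_cases hb1 : ‖z₀‖ = 1
        · have h5 := h1 z₀ hb1
          rw [ht] at h5
          norm_cast at h5
          have : g z₀ = -b + ε := by
            simp [hg, hb1]
          rw [this]
          have hR2 : (1:ℝ) ≤ R ^ 2 := one_le_pow₀ hR.le
          have := mul_le_mul_of_nonneg_left hR2 hε.le
          linarith
        by_cases hb2 : ‖z₀‖ = R
        · have h5 := h2 z₀ hb2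
          rw [ht] at h5
          norm_cast at h5
          have : g z₀ = -(a * Real.log R + b) + ε * R ^ 2 := by
            simp [hg, hb2]
          rw [this]
          linarith
        exfalso
        have hl1 : 1 < ‖z₀‖ := lt_of_le_of_ne hz₀.1 (Ne.symm hb1)
        have hl2 : ‖z₀‖ < R := lt_of_le_of_ne hz₀.2 hb2
        set r : ℝ := min (‖z₀‖ - 1) (R - ‖z₀‖) with hr
        have hrp : 0 < r := lt_min (by linarith) (by linarith)
        have hr1 : r ≤ ‖z₀‖ - 1 := min_le_left _ _
        have hr2 : r ≤ R - ‖z₀‖ := min_le_right _ _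
        have hball : closedBall z₀ r ⊆ A := by
          intro x hx
          rw [mem_closedBall, dist_eq_norm] at hx
          constructor
          · have : ‖z₀‖ ≤ ‖x‖ + ‖x - z₀‖ := by
              have := norm_sub_le x (x - z₀)
              simpa using this
            linarith
          · have : ‖x‖ ≤ ‖z₀‖ + ‖x - z₀‖ := by
              have := norm_add_le z₀ (x - z₀)
              simpa using this
            linarith
        have hsub : sphere z₀ r ⊆ A := sphere_subset_closedBall.trans hball
        have h6 := hu.2.2 z₀ r hrp (hball.trans hD) (fun x => t + g z₀ - g x)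
          (continuousOn_const.sub (hgc.mono hsub)) (fun x hx => hle x (hsub hx))
        rw [ht] at h6
        rw [EReal.coe_le_coe_iff] at h6
        have h7 : Real.circleAverage (fun x => t + g z₀ - g x) z₀ r
            = t + g z₀ + (a * Real.log ‖z₀‖ + b) - ε * (‖z₀‖ ^ 2 + r ^ 2) := by
          have e1 : (fun x => t + g z₀ - g x) = (fun x => (t + g z₀ + b + a * Real.log ‖x‖)
              + (-ε) * ‖x‖ ^ 2) := by
            funext x
            simp only [hg]
            ring
          have ci1 : CircleIntegrable (fun x : ℂ => a * Real.log ‖x‖) z₀ r :=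
            (circleIntegrable_log_norm' z₀ r).const_fun_smul (a := a)
          have ci2 : CircleIntegrable (fun x : ℂ => (-ε) * ‖x‖ ^ 2) z₀ r := by
            apply ContinuousOn.circleIntegrable'
            fun_prop
          rw [e1, circleAverage_fun_add (f₁ := fun x : ℂ => t + g z₀ + b + a * Real.log ‖x‖)
            ((circleIntegrable_const _ _ _).add ci1) ci2,
            circleAverage_fun_add (f₁ := fun _ : ℂ => t + g z₀ + b) (circleIntegrable_const _ _ _) ci1,
            circleAverage_const]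
          have e2 : Real.circleAverage (fun x : ℂ => a * Real.log ‖x‖) z₀ r
              = a * Real.log ‖z₀‖ := by
            rw [← circleAverage_log_norm_eq z₀ r hrp (by linarith)]
            exact circleAverage_fun_smul (a := a) (f := fun x : ℂ => Real.log ‖x‖)
          have e3 : Real.circleAverage (fun x : ℂ => (-ε) * ‖x‖ ^ 2) z₀ r
              = (-ε) * (‖z₀‖ ^ 2 + r ^ 2) := by
            rw [← circleAverage_norm_sq z₀ r]
            exact circleAverage_fun_smul (a := -ε) (f := fun x : ℂ => ‖x‖ ^ 2)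
          rw [e2, e3]
          ring
        rw [h7] at h6
        have h8 : g z₀ = -(a * Real.log ‖z₀‖ + b) + ε * ‖z₀‖ ^ 2 := rfl
        nlinarith [mul_pos hε (pow_pos hrp 2)]
      refine (hle z hzA).trans ?_
      rw [EReal.coe_le_coe_iff]
      have h9 : g z = -(a * Real.log ‖z‖ + b) + ε * ‖z‖ ^ 2 := rfl
      nlinarith [mul_nonneg hε.le (sq_nonneg ‖z‖)]
  -- let `ε → 0`
  have hR0 : (0:ℝ) < R ^ 2 := by positivity
  rcases eq_or_ne (u z) ⊥ with hb | hb
  · rw [hb]
    exact bot_le
  · have htop' := (hu.2.1 z (hD ⟨hz1, hz2⟩)).ne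
    lift u z to ℝ using ⟨htop', hb⟩ with s
    rw [EReal.coe_le_coe_iff]
    apply le_of_forall_pos_le_add
    intro δ hδ
    have := key (δ / R ^ 2) (by positivity)
    rw [EReal.coe_le_coe_iff, div_mul_cancel₀ _ hR0.ne'] at this
    exact this

/-- bound for the competitors of `V_{K,Q}` -/
theorem V_bound {u : ℂ → EReal} (hu : Lelong u)
    (hK : ∀ w ∈ closedBall (0:ℂ) 1, u w ≤ ((Q w : ℝ) : EReal)) (z : ℂ) :
    u z ≤ ((W 1 z : ℝ) : EReal) := by
  rcases le_total ‖z‖ 1 with h | h
  · rw [W_of_le h]
    exact hK z (by simpa using h)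
  · rw [W_of_ge h]
    obtain ⟨hs, C, hC⟩ := hu
    have key : ∀ ε : ℝ, 0 < ε → u z ≤ (((1 + ε) * Real.log ‖z‖ + -(1/2) : ℝ) : EReal) := by
      intro ε hε
      set R : ℝ := max (Real.exp ((|C| + 1) / ε)) (‖z‖) with hR
      have hexp : Real.exp ((|C| + 1) / ε) ≤ R := le_max_left _ _
      have hRz : ‖z‖ ≤ R := le_max_right _ _
      have h1R : 1 < R := by
        refine lt_of_lt_of_le ?_ hexp
        rw [Real.one_lt_exp_iff]
        positivity
      have hlogR : (|C| + 1) / ε ≤ Real.log R := by
        rw [Real.le_log_iff_exp_le (by linarith)]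
        exact hexp
      have hlogR' : |C| + 1 ≤ ε * Real.log R := by
        rw [div_le_iff₀ hε] at hlogR
        linarith
      refine annulus_max hs h1R (subset_univ _) (1 + ε) (-(1/2)) ?_ ?_ z h hRz
      · intro x hx
        refine (hK x (by simp [hx])).trans ?_
        rw [EReal.coe_le_coe_iff]
        unfold Q
        rw [hx]
        norm_num
      · intro x hx
        refine (hC x).trans ?_
        rw [EReal.coe_le_coe_iff, Real.posLog_eq_log (by rw [hx, abs_of_pos (by linarith)]; exact h1R.le), hx]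
        have := le_abs_self C
        linarith
    rcases eq_or_ne (u z) ⊥ with hb | hb
    · rw [hb]
      exact bot_le
    · have htop' := (hs.2.1 z (mem_univ z)).ne
      lift u z to ℝ using ⟨htop', hb⟩ with s
      rw [EReal.coe_le_coe_iff]
      apply le_of_forall_pos_le_add
      intro δ hδ
      have hl := Real.log_nonneg h
      have := key (δ / (Real.log ‖z‖ + 1)) (by positivity)
      rw [EReal.coe_le_coe_iff] at this
      have h3 : δ / (Real.log ‖z‖ + 1) * Real.log ‖z‖ ≤ δ := by
        rw [div_mul_eq_mul_div, div_le_iff₀ (by linarith)]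
        nlinarith
      linarith

/-- bound for the competitors of `U_{K,Q,Ω}` -/
theorem U_bound {u : ℂ → EReal} (hs : Subharmonic (ball (0:ℂ) (Real.exp 1)) u)
    (hneg : ∀ w ∈ ball (0:ℂ) (Real.exp 1), u w < 0)
    (hK : ∀ w ∈ closedBall (0:ℂ) 1, u w ≤ ((Q w : ℝ) : EReal)) (z : ℂ)
    (hz : z ∈ ball (0:ℂ) (Real.exp 1)) :
    u z ≤ ((W (1/2) z : ℝ) : EReal) := by
  have hz' : ‖z‖ < Real.exp 1 := by simpa using hz
  rcases le_total ‖z‖ 1 with h | h
  · rw [W_of_le h]
    exact hK z (by simpa using h)
  · rw [W_of_ge h]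
    have hzp : 0 < ‖z‖ := by linarith
    have hlz : Real.log ‖z‖ < 1 := by
      rw [Real.log_lt_iff_lt_exp hzp]
      exact hz'
    have hl0 := Real.log_nonneg h
    have key : ∀ t : ℝ, 0 < t → t < 1 → Real.log ‖z‖ ≤ t →
        u z ≤ ((1 / (2 * t) * Real.log ‖z‖ + -(1/2) : ℝ) : EReal) := by
      intro t ht0 ht1 hlt
      have hR1 : 1 < Real.exp t := by rwa [Real.one_lt_exp_iff]
      have hzR : ‖z‖ ≤ Real.exp t := by
        rwa [Real.log_le_iff_le_exp hzp] at hlt
      have hRe : Real.exp t < Real.exp 1 := Real.exp_lt_exp.2 ht1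
      refine annulus_max hs hR1 ?_ (1 / (2 * t)) (-(1/2)) ?_ ?_ z h hzR
      · intro x hx
        rw [mem_ball_zero_iff]
        exact lt_of_le_of_lt hx.2 hRe
      · intro x hx
        refine (hK x (by simp [hx])).trans ?_
        rw [EReal.coe_le_coe_iff]
        unfold Q
        rw [hx]
        norm_num
      · intro x hx
        have hxb : x ∈ ball (0:ℂ) (Real.exp 1) := by
          rw [mem_ball_zero_iff, hx]
          exact hRe
        refine (hneg x hxb).le.trans ?_
        rw [Real.log_exp]
        have : 1 / (2 * t) * t + -(1/2) = 0 := by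
          field_simp
          norm_num
        rw [this]
        simp
    rcases eq_or_ne (u z) ⊥ with hb | hb
    · rw [hb]
      exact bot_le
    · have htop' := (hs.2.1 z hz).ne
      lift u z to ℝ using ⟨htop', hb⟩ with s
      rw [EReal.coe_le_coe_iff]
      have hcont : Tendsto (fun t : ℝ => 1 / (2 * t) * Real.log ‖z‖ + -(1/2)) (𝓝[<] 1)
          (𝓝 (1 / (2 * 1) * Real.log ‖z‖ + -(1/2))) := by
        apply Tendsto.mono_left _ nhdsWithin_le_nhds
        apply ContinuousAt.tendsto (f := fun t : ℝ => 1 / (2 * t) * Real.log ‖z‖ + -(1/2))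
        apply ContinuousAt.add _ continuousAt_const
        apply ContinuousAt.mul _ continuousAt_const
        apply ContinuousAt.div continuousAt_const (by fun_prop)
        norm_num
      have h5 : s ≤ 1 / (2 * 1) * Real.log ‖z‖ + -(1/2) := by
        refine ge_of_tendsto hcont ?_
        have hmem : Ioo (max (Real.log ‖z‖) 0) 1 ∈ 𝓝[<] (1:ℝ) := by
          apply Ioo_mem_nhdsLT
          exact max_lt hlz one_pos
        filter_upwards [hmem] with t ht
        have h6 : max (Real.log ‖z‖) 0 < t := ht.1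
        have h7 := key t (lt_of_le_of_lt (le_max_right _ _) h6) ht.2
          ((le_max_left _ _).trans h6.le)
        rw [EReal.coe_le_coe_iff] at h7
        exact h7
      linarith

theorem W_one_lelong : Lelong (fun z => ((W 1 z : ℝ) : EReal)) := by
  refine ⟨subharmonic_W univ 1 (by norm_num), 0, ?_⟩
  intro z
  rw [EReal.coe_le_coe_iff, add_zero]
  rcases le_total ‖z‖ 1 with h | h
  · rw [W_of_le h]
    have : 0 ≤ Real.posLog ‖z‖ := Real.posLog_nonneg
    nlinarith [norm_nonneg z]
  · rw [W_of_ge h]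
    have : Real.log ‖z‖ ≤ Real.posLog ‖z‖ := le_max_right _ _
    linarith

theorem W_eq_Q {α : ℝ} {z : ℂ} (hz : z ∈ closedBall (0:ℂ) 1) : W α z = Q z := by
  rw [W_of_le (by simpa using hz)]
  rfl

theorem VK_eq : VK (closedBall 0 1) Q = fun z => ((W 1 z : ℝ) : EReal) := by
  funext z
  apply le_antisymm
  · apply sSup_le
    rintro t ⟨u, hu, hK, rfl⟩
    exact V_bound hu hK z
  · apply le_sSup
    exact ⟨_, W_one_lelong, fun w hw => by rw [W_eq_Q hw], rfl⟩

theorem W_half_neg {z : ℂ} (hz : z ∈ ball (0:ℂ) (Real.exp 1)) : W (1/2) z < 0 := by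
  have hz' : ‖z‖ < Real.exp 1 := by simpa using hz
  rcases le_total ‖z‖ 1 with h | h
  · rw [W_of_le h]
    nlinarith [norm_nonneg z]
  · rw [W_of_ge h]
    have hzp : 0 < ‖z‖ := by linarith
    have hlz : Real.log ‖z‖ < 1 := by
      rw [Real.log_lt_iff_lt_exp hzp]
      exact hz'
    linarith

theorem UK_eq {z : ℂ} (hz : z ∈ ball (0:ℂ) (Real.exp 1)) :
    UK (closedBall 0 1) Q (ball 0 (Real.exp 1)) z = ((W (1/2) z : ℝ) : EReal) := by
  apply le_antisymm
  · apply sSup_le
    rintro t ⟨u, hu, hneg, hK, rfl⟩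
    exact U_bound hu hneg hK z hz
  · apply le_sSup
    refine ⟨fun z => ((W (1/2) z : ℝ) : EReal), subharmonic_W _ _ le_rfl, ?_, ?_, rfl⟩
    · intro w hw
      show ((W (1/2) w : ℝ) : EReal) < 0
      have := W_half_neg hw
      exact_mod_cast this
    · intro w hw
      show ((W (1/2) w : ℝ) : EReal) ≤ _
      rw [W_eq_Q hw]

theorem reg_VK (z : ℂ) : reg univ (VK (closedBall 0 1) Q) z = ((W 1 z : ℝ) : EReal) := by
  unfold reg
  rw [VK_eq, nhdsWithin_univ]
  apply Tendsto.limsup_eq
  exact (continuous_coe_real_ereal.comp (continuous_W 1)).tendsto z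

theorem reg_UK {z : ℂ} (hz : z ∈ ball (0:ℂ) (Real.exp 1)) :
    reg (ball 0 (Real.exp 1)) (UK (closedBall 0 1) Q (ball 0 (Real.exp 1))) z
      = ((W (1/2) z : ℝ) : EReal) := by
  unfold reg
  have : (𝓝[ball (0:ℂ) (Real.exp 1)] z).NeBot := by
    rw [isOpen_ball.nhdsWithin_eq hz]
    infer_instance
  apply Tendsto.limsup_eq
  have h1 : Tendsto (fun z => ((W (1/2) z : ℝ) : EReal)) (𝓝[ball (0:ℂ) (Real.exp 1)] z)
      (𝓝 ((W (1/2) z : ℝ) : EReal)) :=
    ((continuous_coe_real_ereal.comp (continuous_W (1/2))).tendsto z).mono_left nhdsWithin_le_nhds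
  apply h1.congr'
  filter_upwards [self_mem_nhdsWithin] with w hw
  rw [UK_eq hw]

theorem isHyperconvex_ball : IsHyperconvex (ball (0:ℂ) (Real.exp 1)) := by
  refine ⟨isOpen_ball, ?_, isBounded_ball, W (1/2), (continuous_W _).continuousOn,
    subharmonic_W _ _ le_rfl, fun z hz => W_half_neg hz, ?_⟩
  · exact (convex_ball _ _).isConnected ⟨0, by simp [Real.exp_pos]⟩
  · intro c hc
    refine ⟨closedBall 0 (Real.exp (max 0 (1 + 2 * c))), isCompact_closedBall _ _, ?_, ?_⟩
    · apply closedBall_subset_ball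
      apply Real.exp_lt_exp.2
      apply max_lt one_pos
      linarith
    · rintro z ⟨hz, hzc⟩
      rw [mem_closedBall_zero_iff]
      rcases le_total ‖z‖ 1 with h | h
      · refine h.trans ?_
        exact Real.one_le_exp (le_max_left _ _)
      · rw [W_of_ge h] at hzc
        have hzp : 0 < ‖z‖ := by linarith
        rw [← Real.log_le_iff_le_exp hzp]
        refine le_trans ?_ (le_max_right _ _)
        linarith

end Pool.Agent.R212.Psh
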