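import Pool.Agent.R212.Psh2

/-! # The closed unit disc is not polar; the weight of the example -/

namespace Pool.Agent.R212.Psh

open MeasureTheory Metric Set Filter Topology Real

theorem circleAverage_pos_of {f : ℂ → ℝ} (hf : Continuous f) (h0 : ∀ z, 0 ≤ f z) {a : ℂ}
    (ha : 0 < f 0) : 0 < Real.circleAverage f a ‖a‖ := by
  rw [circleAverage_def, smul_eq_mul]
  apply mul_pos (by positivity)
  apply intervalIntegral.integral_pos (by positivity)
  · apply Continuous.continuousOn
    exact hf.comp (continuous_circleMap _ _)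
  · intro x _
    exact h0 _
  · refine ⟨Complex.arg a + π, ⟨?_, ?_⟩, ?_⟩
    · have := Complex.neg_pi_lt_arg a
      linarith
    · have := Complex.arg_le_pi a
      linarith
    · have : circleMap a ‖a‖ (Complex.arg a + π) = 0 := by
        rw [circleMap]
        push_cast
        rw [add_mul, Complex.exp_add, Complex.exp_pi_mul_I]
        have := Complex.norm_mul_exp_arg_mul_I a
        linear_combination -this
      rw [this]
      exact ha

theorem not_isPolar_closedBall : ¬ IsPolar (closedBall (0:ℂ) 1) := by
  rintro ⟨u, hu, ⟨a, ha⟩, hb⟩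
  apply ha
  obtain ⟨husc, htop, hmean⟩ := hu
  by_cases ha0 : a = 0
  · subst ha0
    exact hb 0 (by simp)
  have hap : 0 < ‖a‖ := norm_pos_iff.2 ha0
  -- upper bound on the closed ball
  obtain ⟨z₀, -, hmax⟩ := UpperSemicontinuousOn.exists_isMaxOn
    (⟨a, by simp⟩ : (closedBall a ‖a‖).Nonempty) (isCompact_closedBall a ‖a‖)
    (husc.mono (subset_univ _))
  obtain ⟨B, hB⟩ : ∃ B : ℝ, u z₀ ≤ (B : EReal) := by
    have := htop z₀ (mem_univ _)
    rcases eq_or_ne (u z₀) ⊥ with h | h
    · exact ⟨0, by rw [h]; exact bot_le⟩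
    · lift u z₀ to ℝ using ⟨this.ne, h⟩ with t
      exact ⟨t, le_rfl⟩
  set f : ℂ → ℝ := fun z => max 0 (1 - ‖z‖) with hf
  have hfc : Continuous f := by fun_prop
  have hδ : 0 < Real.circleAverage f a ‖a‖ := by
    apply circleAverage_pos_of hfc
    · intro z
      exact le_max_left _ _
    · simp [hf]
  have key : ∀ N : ℝ, 0 ≤ N → u a ≤ ((B - N * Real.circleAverage f a ‖a‖ : ℝ) : EReal) := by
    intro N hN
    have h1 := hmean a ‖a‖ hap (subset_univ _) (fun z => B + (-N) * f z)
      (by fun_prop) (by
        intro z hz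
        rcases le_or_gt ‖z‖ 1 with h | h
        · rw [hb z (by simpa using h)]
          exact bot_le
        · have : f z = 0 := by
            simp only [hf]
            exact max_eq_left (by linarith)
          rw [this]
          simp only [mul_zero, add_zero]
          exact (hmax (sphere_subset_closedBall hz)).trans hB)
    have h2 : Real.circleAverage (fun z => B + (-N) * f z) a ‖a‖
        = B - N * Real.circleAverage f a ‖a‖ := by
      have ci : CircleIntegrable f a ‖a‖ := hfc.continuousOn.circleIntegrable'
      have ci' : CircleIntegrable (fun z => (-N) * f z) a ‖a‖ := ci.const_fun_smul (a := -N)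
      rw [circleAverage_fun_add (f₁ := fun _ : ℂ => B) (circleIntegrable_const _ _ _)
        ci', circleAverage_const]
      have h3 : Real.circleAverage (fun z => (-N) * f z) a ‖a‖
          = (-N) * Real.circleAverage f a ‖a‖ :=
        circleAverage_fun_smul (a := -N) (f := f)
      rw [h3]
      ring
    rw [h2] at h1
    exact h1
  by_contra hne
  have htop' := (htop a (mem_univ a)).ne
  lift u a to ℝ using ⟨htop', hne⟩ with s hs
  have h4 := key ((|B - s| + 1) / Real.circleAverage f a ‖a‖) (by positivity)
  rw [EReal.coe_le_coe_iff, div_mul_cancel₀ _ hδ.ne'] at h4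
  have := le_abs_self (B - s)
  linarith

theorem isWeight_Q : IsWeight (closedBall (0:ℂ) 1) Q := by
  have hneg : ∀ z ∈ closedBall (0:ℂ) 1, Q z < 0 := by
    intro z hz
    have hz' : ‖z‖ ≤ 1 := by simpa using hz
    unfold Q
    nlinarith [norm_nonneg z]
  refine ⟨?_, fun z hz => (hneg z hz).le, ?_⟩
  · apply Continuous.lowerSemicontinuous _ |>.lowerSemicontinuousOn
    unfold Q
    fun_prop
  · have : {z ∈ closedBall (0:ℂ) 1 | Q z < 0} = closedBall (0:ℂ) 1 := by
      ext z
      simp only [mem_ofPred_eq]
      exact ⟨fun h => h.1, fun h => ⟨h, hneg z h⟩⟩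
    rw [this]
    exact not_isPolar_closedBall

end Pool.Agent.R212.Psh
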