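import Pool.Agent.R212.Psh3

/-! # The distributional Laplacian of `W α` -/

namespace Pool.Agent.R212.Psh

open MeasureTheory Metric Set Filter Topology Real

open scoped Laplacian ContDiff

/-- the unit vector `e^{iθ}` -/
noncomputable def ee (θ : ℝ) : ℂ := Complex.exp (θ * Complex.I)

theorem ee_norm (θ : ℝ) : ‖ee θ‖ = 1 := Complex.norm_exp_ofReal_mul_I θ

theorem ee_hasDerivAt (θ : ℝ) : HasDerivAt ee (Complex.I * ee θ) θ := by
  have h1 : HasDerivAt (fun t : ℝ => (t : ℂ) * Complex.I) (1 * Complex.I) θ :=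
    (Complex.ofRealCLM.hasDerivAt (x := θ)).mul_const Complex.I
  have h2 : HasDerivAt ee _ θ := h1.cexp
  refine h2.congr_deriv ?_
  unfold ee
  ring

theorem continuous_ee : Continuous ee := by
  unfold ee
  fun_prop

theorem ee_period : ee π = ee (-π) := by
  unfold ee
  rw [Complex.exp_pi_mul_I]
  push_cast
  rw [neg_mul, Complex.exp_neg, Complex.exp_pi_mul_I]
  norm_num

section

variable (φ : ℂ → ℝ)

noncomputable def A (r θ : ℝ) : ℝ := φ (r * ee θ)

noncomputable def D1 (r θ : ℝ) : ℝ := fderiv ℝ φ (r * ee θ) (ee θ)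

noncomputable def D2 (r θ : ℝ) : ℝ := fderiv ℝ φ (r * ee θ) (Complex.I * ee θ)

noncomputable def H11 (r θ : ℝ) : ℝ := fderiv ℝ (fderiv ℝ φ) (r * ee θ) (ee θ) (ee θ)

noncomputable def H22 (r θ : ℝ) : ℝ :=
  fderiv ℝ (fderiv ℝ φ) (r * ee θ) (Complex.I * ee θ) (Complex.I * ee θ)

variable {φ}

theorem laplacian_polar (r θ : ℝ) : (Δ φ) (r * ee θ) = H11 φ r θ + H22 φ r θ := by
  rw [InnerProductSpace.laplacian_eq_iteratedFDeriv_complexPlane]
  simp only [iteratedFDeriv_two_apply, H11, H22]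
  set L := fderiv ℝ (fderiv ℝ φ) (r * ee θ) with hL
  have e1 : ee θ = (Real.cos θ) • (1:ℂ) + (Real.sin θ) • Complex.I := by
    unfold ee
    rw [Complex.exp_mul_I]
    simp
  have e2 : Complex.I * ee θ = (-Real.sin θ) • (1:ℂ) + (Real.cos θ) • Complex.I := by
    rw [e1]
    simp only [Complex.real_smul, mul_one]
    push_cast
    linear_combination (Complex.sin θ) * Complex.I_mul_I
  rw [e2]
  have e3 : L (ee θ) (ee θ) = L ((Real.cos θ) • (1:ℂ) + (Real.sin θ) • Complex.I)
      ((Real.cos θ) • (1:ℂ) + (Real.sin θ) • Complex.I) := by rw [← e1]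
  rw [e3]
  simp only [map_add, map_smul, add_apply, smul_apply,
    smul_eq_mul, Matrix.cons_val_zero, Matrix.cons_val_one]
  have := Real.sin_sq_add_cos_sq θ
  linear_combination -(L 1 1 + L Complex.I Complex.I) * this

variable (hφ : ContDiff ℝ ∞ φ)

include hφ

theorem fd1 : Continuous (fderiv ℝ φ) := hφ.continuous_fderiv (by simp)

theorem cd1 : ContDiff ℝ ∞ (fderiv ℝ φ) := hφ.fderiv_right (by simp)

theorem fd2 : Continuous (fderiv ℝ (fderiv ℝ φ)) := (cd1 hφ).continuous_fderiv (by simp)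

theorem continuous_A : Continuous (fun p : ℝ × ℝ => A φ p.1 p.2) := by
  unfold A
  have := hφ.continuous
  have := continuous_ee
  fun_prop

theorem continuous_D1 : Continuous (fun p : ℝ × ℝ => D1 φ p.1 p.2) := by
  unfold D1
  have := fd1 hφ
  have := continuous_ee
  fun_prop

theorem continuous_D2 : Continuous (fun p : ℝ × ℝ => D2 φ p.1 p.2) := by
  unfold D2
  have := fd1 hφ
  have := continuous_ee
  fun_prop

theorem continuous_H11 : Continuous (fun p : ℝ × ℝ => H11 φ p.1 p.2) := by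
  unfold H11
  have := fd2 hφ
  have := continuous_ee
  fun_prop

theorem continuous_H22 : Continuous (fun p : ℝ × ℝ => H22 φ p.1 p.2) := by
  unfold H22
  have := fd2 hφ
  have := continuous_ee
  fun_prop

theorem hasDerivAt_A (r θ : ℝ) : HasDerivAt (fun r => A φ r θ) (D1 φ r θ) r := by
  have h1 : HasDerivAt (fun t : ℝ => (t : ℂ) * ee θ) (1 * ee θ) r :=
    (Complex.ofRealCLM.hasDerivAt (x := r)).mul_const (ee θ)
  have h2 : HasFDerivAt φ (fderiv ℝ φ (r * ee θ)) (r * ee θ) :=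
    (hφ.differentiable (by simp) _).hasFDerivAt
  have h3 := h2.comp_hasDerivAt r h1
  rw [one_mul] at h3
  exact h3

theorem hasDerivAt_D1 (r θ : ℝ) : HasDerivAt (fun r => D1 φ r θ) (H11 φ r θ) r := by
  have h1 : HasDerivAt (fun t : ℝ => (t : ℂ) * ee θ) (1 * ee θ) r :=
    (Complex.ofRealCLM.hasDerivAt (x := r)).mul_const (ee θ)
  have h2 : HasFDerivAt (fderiv ℝ φ) (fderiv ℝ (fderiv ℝ φ) (r * ee θ)) (r * ee θ) :=
    ((cd1 hφ).differentiable (by simp) _).hasFDerivAt
  have h3 := h2.comp_hasDerivAt r h1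
  rw [one_mul] at h3
  have h4 := h3.clm_apply (hasDerivAt_const r (ee θ))
  simpa [D1, H11] using h4

theorem hasDerivAt_D2 (r θ : ℝ) :
    HasDerivAt (fun θ => D2 φ r θ) (r * H22 φ r θ - D1 φ r θ) θ := by
  have h1 : HasDerivAt (fun t : ℝ => (r : ℂ) * ee t) (r * (Complex.I * ee θ)) θ :=
    (ee_hasDerivAt θ).const_mul (r : ℂ)
  have h2 : HasFDerivAt (fderiv ℝ φ) (fderiv ℝ (fderiv ℝ φ) (r * ee θ)) (r * ee θ) :=
    ((cd1 hφ).differentiable (by simp) _).hasFDerivAt
  have h3 := h2.comp_hasDerivAt θ h1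
  have h4 := h3.clm_apply ((ee_hasDerivAt θ).const_mul Complex.I)
  have e1 : Complex.I * (Complex.I * ee θ) = - ee θ := by
    linear_combination (ee θ) * Complex.I_mul_I
  have e2 : (r : ℂ) * (Complex.I * ee θ) = r • (Complex.I * ee θ) := by
    rw [Complex.real_smul]
  rw [e1, e2] at h4
  simp only [map_smul, smul_apply, map_neg, smul_eq_mul,
    Function.comp] at h4
  have h5 : HasDerivAt (fun θ => D2 φ r θ) _ θ := h4
  refine h5.congr_deriv ?_
  unfold H22 D1
  ring

end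

end Pool.Agent.R212.Psh
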