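import Pool.Agent.R212.Psh4

/-! # The distributional Laplacian of `W α`: integrations -/

namespace Pool.Agent.R212.Psh

open MeasureTheory Metric Set Filter Topology Real

open scoped Laplacian ContDiff

/-- radial profile -/
noncomputable def ww (α r : ℝ) : ℝ := ((min |r| 1) ^ 2 - 3) / 4 + α * Real.log (max |r| 1)

theorem W_polar (α r θ : ℝ) : W α (r * ee θ) = ww α r := by
  unfold W ww
  rw [norm_mul, ee_norm, mul_one, Complex.norm_real, Real.norm_eq_abs]

theorem continuous_ww (α : ℝ) : Continuous (ww α) := by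
  unfold ww
  have h : Continuous fun r : ℝ => Real.log (max |r| 1) := by
    apply Continuous.log
    · fun_prop
    · intro z
      have : (1:ℝ) ≤ max |z| 1 := le_max_right _ _
      linarith
  fun_prop

theorem ww_of_mem {α r : ℝ} (h0 : 0 ≤ r) (h1 : r ≤ 1) : ww α r = (r ^ 2 - 3) / 4 := by
  unfold ww
  rw [abs_of_nonneg h0, min_eq_left h1, max_eq_right h1, Real.log_one]
  ring

theorem ww_of_ge {α r : ℝ} (h1 : 1 ≤ r) : ww α r = α * Real.log r - 1 / 2 := by
  unfold ww
  rw [abs_of_nonneg (by linarith), min_eq_right h1, max_eq_left h1]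
  ring

section

variable {φ : ℂ → ℝ} (hφ : ContDiff ℝ ∞ φ)

include hφ

theorem angular_integral (r : ℝ) : ∫ θ in (-π)..π, (r * H22 φ r θ - D1 φ r θ) = 0 := by
  have hc : Continuous fun θ : ℝ => r * H22 φ r θ - D1 φ r θ := by
    have h1 := (continuous_H22 hφ).comp (Continuous.prodMk_right r : Continuous fun θ : ℝ => (r, θ))
    have h2 := (continuous_D1 hφ).comp (Continuous.prodMk_right r : Continuous fun θ : ℝ => (r, θ))
    exact (continuous_const.mul h1).sub h2
  rw [intervalIntegral.integral_eq_sub_of_hasDerivAt (f := fun θ => D2 φ r θ)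
    (fun θ _ => hasDerivAt_D2 hφ r θ) (hc.intervalIntegrable _ _)]
  unfold D2
  rw [ee_period, sub_self]

theorem cont_D1 (θ : ℝ) : Continuous fun r : ℝ => D1 φ r θ :=
  (continuous_D1 hφ).comp (Continuous.prodMk_left θ : Continuous fun r : ℝ => (r, θ))

theorem cont_H11 (θ : ℝ) : Continuous fun r : ℝ => H11 φ r θ :=
  (continuous_H11 hφ).comp (Continuous.prodMk_left θ : Continuous fun r : ℝ => (r, θ))

theorem cont_A (θ : ℝ) : Continuous fun r : ℝ => A φ r θ :=
  (continuous_A hφ).comp (Continuous.prodMk_left θ : Continuous fun r : ℝ => (r, θ))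

theorem radial_integral (α : ℝ) {R : ℝ} (hR : 1 < R) (θ : ℝ) (hA : A φ R θ = 0)
    (hD : D1 φ R θ = 0) :
    ∫ r in (0:ℝ)..R, ww α r * (D1 φ r θ + r * H11 φ r θ)
      = (∫ r in (0:ℝ)..1, r * A φ r θ) + (α - 1/2) * A φ 1 θ := by
  have c1 := cont_D1 hφ θ
  have c2 := cont_H11 hφ θ
  have c3 := cont_A hφ θ
  have c4 := continuous_ww α
  have hG : Continuous fun r : ℝ => ww α r * (D1 φ r θ + r * H11 φ r θ) := by fun_prop
  rw [← intervalIntegral.integral_add_adjacent_intervals (hG.intervalIntegrable 0 1)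
    (hG.intervalIntegrable 1 R)]
  have I1 : ∫ r in (0:ℝ)..1, ww α r * (D1 φ r θ + r * H11 φ r θ)
      = (∫ r in (0:ℝ)..1, r * A φ r θ) + (-(1/2) * D1 φ 1 θ - A φ 1 θ / 2) := by
    have e1 : ∫ r in (0:ℝ)..1, ww α r * (D1 φ r θ + r * H11 φ r θ)
        = ∫ r in (0:ℝ)..1, ((r ^ 2 - 3) / 4 * (D1 φ r θ + r * H11 φ r θ) - r * A φ r θ
            + r * A φ r θ) := by
      apply intervalIntegral.integral_congr
      intro r hr
      rw [uIcc_of_le zero_le_one] at hr
      simp only
      rw [ww_of_mem hr.1 hr.2]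
      ring
    rw [e1, intervalIntegral.integral_add]
    · have e2 : ∫ r in (0:ℝ)..1, ((r ^ 2 - 3) / 4 * (D1 φ r θ + r * H11 φ r θ) - r * A φ r θ)
          = ((1 ^ 2 - 3) / 4 * (1 * D1 φ 1 θ) - 1 ^ 2 * A φ 1 θ / 2)
            - ((0 ^ 2 - 3) / 4 * (0 * D1 φ 0 θ) - 0 ^ 2 * A φ 0 θ / 2) := by
        apply intervalIntegral.integral_eq_sub_of_hasDerivAt
          (f := fun r => (r ^ 2 - 3) / 4 * (r * D1 φ r θ) - r ^ 2 * A φ r θ / 2)
        · intro r _
          have h1 : HasDerivAt (fun r : ℝ => (r ^ 2 - 3) / 4) (2 * r / 4) r := by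
            have := ((hasDerivAt_pow 2 r).sub_const 3).div_const 4
            simpa using this
          have h2 : HasDerivAt (fun r : ℝ => r * D1 φ r θ) (1 * D1 φ r θ + r * H11 φ r θ) r :=
            (hasDerivAt_id r).mul (hasDerivAt_D1 hφ r θ)
          have h3 : HasDerivAt (fun r : ℝ => r ^ 2 * A φ r θ / 2)
              ((2 * r * A φ r θ + r ^ 2 * D1 φ r θ) / 2) r := by
            have := ((hasDerivAt_pow 2 r).mul (hasDerivAt_A hφ r θ)).div_const 2
            simpa using this
          have h4 := (h1.mul h2).sub h3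
          refine h4.congr_deriv ?_
          ring
        · apply Continuous.intervalIntegrable
          fun_prop
      rw [e2]
      ring
    · apply Continuous.intervalIntegrable
      fun_prop
    · apply Continuous.intervalIntegrable
      fun_prop
  have I2 : ∫ r in (1:ℝ)..R, ww α r * (D1 φ r θ + r * H11 φ r θ)
      = D1 φ 1 θ / 2 + α * A φ 1 θ := by
    have e1 : ∫ r in (1:ℝ)..R, ww α r * (D1 φ r θ + r * H11 φ r θ)
        = ((α * Real.log R - 1/2) * (R * D1 φ R θ) - α * A φ R θ)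
          - ((α * Real.log 1 - 1/2) * (1 * D1 φ 1 θ) - α * A φ 1 θ) := by
      apply intervalIntegral.integral_eq_sub_of_hasDerivAt
        (f := fun r => (α * Real.log r - 1/2) * (r * D1 φ r θ) - α * A φ r θ)
      · intro r hr
        rw [uIcc_of_le hR.le] at hr
        have hr0 : r ≠ 0 := by linarith [hr.1]
        have h1 : HasDerivAt (fun r : ℝ => α * Real.log r - 1/2) (α * r⁻¹) r :=
          ((Real.hasDerivAt_log hr0).const_mul α).sub_const _
        have h2 : HasDerivAt (fun r : ℝ => r * D1 φ r θ) (1 * D1 φ r θ + r * H11 φ r θ) r :=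
          (hasDerivAt_id r).mul (hasDerivAt_D1 hφ r θ)
        have h4 := (h1.mul h2).sub ((hasDerivAt_A hφ r θ).const_mul α)
        refine h4.congr_deriv ?_
        rw [ww_of_ge hr.1]
        field_simp
        ring
      · exact hG.intervalIntegrable _ _
    rw [e1, hA, hD, Real.log_one]
    ring
  rw [I1, I2]
  ring

/-- `G`: the integrand in polar coordinates -/
theorem integral_W_mul_laplacian (α : ℝ) (hs : HasCompactSupport φ) :
    ∫ z, W α z * (Δ φ) z
      = (∫ z in closedBall (0:ℂ) 1, φ z) + (α - 1/2) * ∫ θ in Ioc (-π) π, φ (ee θ) := by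
  obtain ⟨R, hR1, hR⟩ : ∃ R : ℝ, 1 < R ∧ tsupport φ ⊆ ball 0 R := by
    obtain ⟨R, hR⟩ := hs.isCompact.isBounded.subset_ball (0:ℂ)
    exact ⟨max R 2, by simp, hR.trans (ball_subset_ball (le_max_left _ _))⟩
  have hout : ∀ r θ : ℝ, R ≤ r → (r * ee θ : ℂ) ∉ tsupport φ := by
    intro r θ hr hmem
    have := hR hmem
    rw [mem_ball_zero_iff, norm_mul, ee_norm, mul_one, Complex.norm_real, Real.norm_eq_abs,
      abs_of_nonneg (by linarith)] at this
    linarith
  have hA0 : ∀ r θ : ℝ, R ≤ r → A φ r θ = 0 := fun r θ hr =>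
    image_eq_zero_of_notMem_tsupport (f := φ) (hout r θ hr)
  have hD0 : ∀ r θ : ℝ, R ≤ r → D1 φ r θ = 0 := by
    intro r θ hr
    unfold D1
    rw [fderiv_of_notMem_tsupport (𝕜 := ℝ) (hout r θ hr)]
    rfl
  have hff : ∀ r θ : ℝ, R ≤ r → fderiv ℝ (fderiv ℝ φ) (r * ee θ) = 0 := by
    intro r θ hr
    apply fderiv_of_notMem_tsupport
    intro hmem
    exact hout r θ hr (tsupport_fderiv_subset ℝ hmem)
  -- polar coordinates
  have hpol : ∀ p : ℝ × ℝ, Complex.polarCoord.symm p = p.1 * ee p.2 := by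
    intro p
    rw [Complex.polarCoord_symm_apply]
    unfold ee
    rw [Complex.exp_mul_I]
    push_cast
    rfl
  set G : ℝ × ℝ → ℝ := fun p => p.1 * (ww α p.1 * (H11 φ p.1 p.2 + H22 φ p.1 p.2)) with hG
  set G1 : ℝ × ℝ → ℝ := fun p => ww α p.1 * (D1 φ p.1 p.2 + p.1 * H11 φ p.1 p.2) with hG1
  set G2 : ℝ × ℝ → ℝ := fun p => ww α p.1 * (p.1 * H22 φ p.1 p.2 - D1 φ p.1 p.2) with hG2
  have cD1 := continuous_D1 hφ
  have cH11 := continuous_H11 hφ
  have cH22 := continuous_H22 hφ
  have cA := continuous_A hφ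
  have cw : Continuous fun p : ℝ × ℝ => ww α p.1 := (continuous_ww α).comp continuous_fst
  have cG : Continuous G := by
    simp only [hG]
    exact continuous_fst.mul (cw.mul (cH11.add cH22))
  have cG1 : Continuous G1 := by
    simp only [hG1]
    exact cw.mul (cD1.add (continuous_fst.mul cH11))
  have cG2 : Continuous G2 := by
    simp only [hG2]
    exact cw.mul ((continuous_fst.mul cH22).sub cD1)
  have hGG : ∀ p, G p = G1 p + G2 p := by
    intro p
    simp only [hG, hG1, hG2]
    ring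
  have hint : ∀ (F : ℝ × ℝ → ℝ) (a b : ℝ), Continuous F →
      IntegrableOn F (Ioc a b ×ˢ Ioc (-π) π) := by
    intro F a b hF
    have h1 : IsCompact (Icc a b ×ˢ Icc (-π) π) := isCompact_Icc.prod isCompact_Icc
    exact (hF.continuousOn.integrableOn_compact h1).mono_set
      (prod_mono Ioc_subset_Icc_self Ioc_subset_Icc_self)
  have htarget : ∀ F : ℝ × ℝ → ℝ, ∀ S : ℝ, (∀ p : ℝ × ℝ, S < p.1 → F p = 0) →
      ∫ p in polarCoord.target, F p = ∫ p in Ioc 0 S ×ˢ Ioc (-π) π, F p := by
    intro F S hF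
    have e1 : polarCoord.target = Ioi (0:ℝ) ×ˢ Ioo (-π) π := rfl
    rw [e1]
    have e2 : (Ioi (0:ℝ) ×ˢ Ioo (-π) π : Set (ℝ × ℝ)) =ᵐ[volume] (Ioi (0:ℝ) ×ˢ Ioc (-π) π) := by
      rw [Measure.volume_eq_prod]
      exact Measure.set_prod_ae_eq (Filter.EventuallyEq.refl _ _) Ioo_ae_eq_Ioc
    rw [setIntegral_congr_set e2]
    apply setIntegral_eq_of_subset_of_forall_sdiff_eq_zero
    · exact measurableSet_Ioi.prod measurableSet_Ioc
    · exact prod_mono (fun x hx => hx.1) le_rfl
    · rintro p ⟨⟨h1, h2⟩, h3⟩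
      apply hF
      by_contra hle
      push Not at hle
      exact h3 ⟨⟨h1, hle⟩, h2⟩
  have step1 : ∫ z, W α z * (Δ φ) z = ∫ p in Ioc 0 R ×ˢ Ioc (-π) π, G p := by
    rw [← Complex.integral_comp_polarCoord_symm]
    have e3 : ∀ p : ℝ × ℝ, p.1 • (W α (Complex.polarCoord.symm p) *
        (Δ φ) (Complex.polarCoord.symm p)) = G p := by
      intro p
      rw [hpol p, W_polar, laplacian_polar]
      rfl
    simp only [e3]
    apply htarget
    intro p hp
    have h0 := hff p.1 p.2 hp.le
    simp only [hG, H11, H22, h0]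
    simp
  have step2 : ∫ p in Ioc 0 R ×ˢ Ioc (-π) π, G2 p = 0 := by
    rw [Measure.volume_eq_prod, setIntegral_prod _ (hint G2 0 R cG2)]
    have e4 : ∀ r : ℝ, ∫ θ in Ioc (-π) π, G2 (r, θ) = 0 := by
      intro r
      simp only [hG2]
      rw [integral_const_mul, ← intervalIntegral.integral_of_le (by linarith [Real.pi_pos]),
        angular_integral hφ r, mul_zero]
    simp only [e4, integral_zero]
  have swap : ∀ (F : ℝ × ℝ → ℝ) (a b : ℝ), Continuous F →
      ∫ p in Ioc a b ×ˢ Ioc (-π) π, F p = ∫ θ in Ioc (-π) π, ∫ r in Ioc a b, F (r, θ) := by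
    intro F a b hF
    rw [Measure.volume_eq_prod, ← setIntegral_prod_swap, setIntegral_prod]
    · rfl
    · have : IntegrableOn (fun z : ℝ × ℝ => F z.swap) (Ioc (-π) π ×ˢ Ioc a b) := by
        have h1 : IsCompact (Icc (-π) π ×ˢ Icc a b) := isCompact_Icc.prod isCompact_Icc
        exact ((hF.comp continuous_swap).continuousOn.integrableOn_compact h1).mono_set
          (prod_mono Ioc_subset_Icc_self Ioc_subset_Icc_self)
      exact this
  have step3 : ∫ p in Ioc 0 R ×ˢ Ioc (-π) π, G1 p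
      = (∫ θ in Ioc (-π) π, ∫ r in Ioc (0:ℝ) 1, r * A φ r θ)
        + (α - 1/2) * ∫ θ in Ioc (-π) π, φ (ee θ) := by
    rw [swap G1 0 R cG1]
    have e5 : ∀ θ : ℝ, ∫ r in Ioc 0 R, G1 (r, θ)
        = (∫ r in Ioc (0:ℝ) 1, r * A φ r θ) + (α - 1/2) * φ (ee θ) := by
      intro θ
      have := radial_integral hφ α hR1 θ (hA0 R θ le_rfl) (hD0 R θ le_rfl)
      rw [intervalIntegral.integral_of_le (by linarith),
        intervalIntegral.integral_of_le (by linarith)] at this
      simp only [hG1]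
      rw [this]
      unfold A
      simp
    simp only [e5]
    rw [integral_add, integral_const_mul]
    · have h5 : Continuous fun θ : ℝ => ∫ r in Ioc (0:ℝ) 1, r * A φ r θ := by
        have h6 : Continuous fun θ : ℝ => ∫ r in (0:ℝ)..1, r * A φ r θ := by
          apply intervalIntegral.continuous_parametric_intervalIntegral_of_continuous'
          exact continuous_snd.mul (cA.comp continuous_swap)
        simpa [intervalIntegral.integral_of_le zero_le_one] using h6
      exact (h5.continuousOn.integrableOn_Icc (a := -π) (b := π)).mono_set Ioc_subset_Icc_self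
    · have h7 : Continuous fun θ : ℝ => (α - 1/2) * φ (ee θ) :=
        continuous_const.mul (hφ.continuous.comp continuous_ee)
      exact (h7.continuousOn.integrableOn_Icc (a := -π) (b := π)).mono_set Ioc_subset_Icc_self
  have step4 : ∫ z in closedBall (0:ℂ) 1, φ z
      = ∫ θ in Ioc (-π) π, ∫ r in Ioc (0:ℝ) 1, r * A φ r θ := by
    rw [← integral_indicator measurableSet_closedBall, ← Complex.integral_comp_polarCoord_symm]
    rw [htarget _ 1]
    · rw [← swap (fun p => p.1 * A φ p.1 p.2) 0 1 (continuous_fst.mul cA)]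
      apply setIntegral_congr_fun (measurableSet_Ioc.prod measurableSet_Ioc)
      rintro p ⟨hp1, hp2⟩
      have hm : Complex.polarCoord.symm p ∈ closedBall (0:ℂ) 1 := by
        rw [hpol, mem_closedBall_zero_iff, norm_mul, ee_norm, mul_one, Complex.norm_real,
          Real.norm_eq_abs, abs_of_nonneg hp1.1.le]
        exact hp1.2
      simp only [smul_eq_mul]
      rw [indicator_of_mem hm, hpol]
      rfl
    · intro p hp
      have hm : Complex.polarCoord.symm p ∉ closedBall (0:ℂ) 1 := by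
        rw [hpol, mem_closedBall_zero_iff, norm_mul, ee_norm, mul_one, Complex.norm_real,
          Real.norm_eq_abs, abs_of_nonneg (by linarith), not_le]
        exact hp
      rw [indicator_of_notMem hm, smul_zero]
  rw [step1, step4]
  have e6 : ∫ p in Ioc 0 R ×ˢ Ioc (-π) π, G p
      = (∫ p in Ioc 0 R ×ˢ Ioc (-π) π, G1 p) + ∫ p in Ioc 0 R ×ˢ Ioc (-π) π, G2 p := by
    simp only [hGG]
    exact integral_add (hint G1 0 R cG1) (hint G2 0 R cG2)
  rw [e6, step2, step3, add_zero]

end

end Pool.Agent.R212.Psh
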