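import Pool.Agent.R212.Psh5

/-! # The Monge-Ampère (Riesz) measures of the example, their supports and absolute continuity -/

namespace Pool.Agent.R212.Psh

open MeasureTheory Metric Set Filter Topology Real

open scoped Laplacian ContDiff ENNReal

/-- Lebesgue measure on the closed unit disc plus `(α - 1/2)` times arc length on the circle -/
noncomputable def mm (α : ℝ) : Measure ℂ :=
  volume.restrict (closedBall (0:ℂ) 1) +
    ENNReal.ofReal (α - 1/2) • Measure.map ee (volume.restrict (Ioc (-π) π))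

theorem vol_closedBall_lt : volume (closedBall (0:ℂ) 1) < ⊤ :=
  (isCompact_closedBall _ _).measure_lt_top

theorem measurable_ee : Measurable ee := continuous_ee.measurable

theorem map_ee_apply {s : Set ℂ} (hs : MeasurableSet s) :
    Measure.map ee (volume.restrict (Ioc (-π) π)) s = volume.restrict (Ioc (-π) π) (ee ⁻¹' s) :=
  Measure.map_apply measurable_ee hs

theorem mm_univ_lt (α : ℝ) : mm α univ < ⊤ := by
  unfold mm
  rw [Measure.add_apply, Measure.smul_apply, Measure.restrict_apply MeasurableSet.univ, univ_inter,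
    map_ee_apply MeasurableSet.univ, preimage_univ, Measure.restrict_apply MeasurableSet.univ,
    univ_inter, Real.volume_Ioc, smul_eq_mul]
  exact ENNReal.add_lt_top.2 ⟨vol_closedBall_lt,
    ENNReal.mul_lt_top ENNReal.ofReal_lt_top ENNReal.ofReal_lt_top⟩

theorem mm_compl (α : ℝ) {D : Set ℂ} (hD : MeasurableSet D) (hK : closedBall (0:ℂ) 1 ⊆ D) :
    mm α Dᶜ = 0 := by
  unfold mm
  rw [Measure.add_apply, Measure.smul_apply, Measure.restrict_apply hD.compl,
    map_ee_apply hD.compl]
  have h1 : Dᶜ ∩ closedBall (0:ℂ) 1 = ∅ := by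
    ext z
    simp only [mem_inter_iff, mem_compl_iff, mem_empty_iff_false, iff_false, not_and]
    intro h h'
    exact h (hK h')
  have h2 : ee ⁻¹' Dᶜ = ∅ := by
    ext θ
    simp only [mem_preimage, mem_compl_iff, mem_empty_iff_false, iff_false, not_not]
    apply hK
    simp [ee_norm]
  rw [h1, h2]
  simp

theorem integral_mm (α : ℝ) (hα : 1 / 2 ≤ α) {φ : ℂ → ℝ} (hφ : Continuous φ) :
    ∫ z, φ z ∂(mm α) = (∫ z in closedBall (0:ℂ) 1, φ z)
      + (α - 1/2) * ∫ θ in Ioc (-π) π, φ (ee θ) := by
  unfold mm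
  have i2 : IntegrableOn (fun θ => φ (ee θ)) (Ioc (-π) π) :=
    ((hφ.comp continuous_ee).continuousOn.integrableOn_Icc (a := -π) (b := π)).mono_set
      Ioc_subset_Icc_self
  rw [integral_add_measure, integral_smul_measure, integral_map measurable_ee.aemeasurable
    hφ.aestronglyMeasurable, ENNReal.toReal_ofReal (by linarith), smul_eq_mul]
  · exact hφ.continuousOn.integrableOn_compact (isCompact_closedBall _ _)
  · apply Integrable.smul_measure _ ENNReal.ofReal_ne_top
    rw [integrable_map_measure hφ.aestronglyMeasurable measurable_ee.aemeasurable]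
    exact i2

theorem isMongeAmpere_mm (α : ℝ) (hα : 1 / 2 ≤ α) {D : Set ℂ} (hD : MeasurableSet D)
    (hK : closedBall (0:ℂ) 1 ⊆ D) (u : ℂ → EReal) (hu : ∀ z ∈ D, u z = ((W α z : ℝ) : EReal)) :
    IsMongeAmpere D u (mm α) := by
  have hs := subharmonic_W D α hα
  refine ⟨⟨?_, ?_, ?_⟩, ?_, mm_compl α hD hK, ?_, ?_⟩
  · intro z hz y hy
    rw [hu z hz] at hy
    have := hs.1 z hz y hy
    filter_upwards [this, self_mem_nhdsWithin] with w hw hwD
    rw [hu w hwD]
    exact hw
  · intro z hz
    rw [hu z hz]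
    exact hs.2.1 z hz
  · intro a r hr hsub φ hφ hle
    have ha : a ∈ D := hsub (mem_closedBall_self hr.le)
    rw [hu a ha]
    apply hs.2.2 a r hr hsub φ hφ
    intro z hz
    show ((W α z : ℝ) : EReal) ≤ _
    rw [← hu z (hsub (sphere_subset_closedBall hz))]
    exact hle z hz
  · intro F hF hFD
    obtain ⟨M, hM⟩ := hF.exists_bound_of_continuousOn (continuous_W α).continuousOn
    refine ⟨M, fun z hz => ?_⟩
    rw [hu z (hFD hz)]
    have := hM z hz
    rw [Real.norm_eq_abs, abs_le] at this
    exact ⟨EReal.coe_le_coe_iff.2 this.1, EReal.coe_le_coe_iff.2 this.2⟩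
  · intro F _ _
    exact lt_of_le_of_lt (measure_mono (subset_univ _)) (mm_univ_lt α)
  · intro φ hφ hs hsupp
    rw [integral_mm α hα hφ.continuous, ← integral_W_mul_laplacian hφ α hs]
    rw [← setIntegral_eq_integral_of_forall_compl_eq_zero (s := D)]
    · apply setIntegral_congr_fun hD
      intro z hz
      simp only
      rw [hu z hz, EReal.toReal_coe]
    · intro z hz
      have hz' : z ∉ tsupport φ := fun h => hz (hsupp h)
      have h0 : fderiv ℝ (fderiv ℝ φ) z = 0 := by
        apply fderiv_of_notMem_tsupport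
        intro hmem
        exact hz' (tsupport_fderiv_subset ℝ hmem)
      rw [InnerProductSpace.laplacian_eq_iteratedFDeriv_complexPlane]
      simp [iteratedFDeriv_two_apply, h0]

theorem support_mm (α : ℝ) : (mm α).support = closedBall (0:ℂ) 1 := by
  apply Subset.antisymm
  · apply Measure.support_subset_of_isClosed isClosed_closedBall
    rw [mem_ae_iff]
    exact mm_compl α measurableSet_closedBall le_rfl
  · intro x hx
    rw [Measure.mem_support_iff_forall]
    intro U hU
    have h1 : volume.restrict (closedBall (0:ℂ) 1) U ≤ mm α U := by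
      unfold mm
      rw [Measure.add_apply]
      exact le_self_add
    refine lt_of_lt_of_le ?_ h1
    obtain ⟨V, hVU, hVo, hxV⟩ := _root_.mem_nhds_iff.1 hU
    have h2 : (V ∩ ball (0:ℂ) 1).Nonempty := by
      have hcl : x ∈ closure (ball (0:ℂ) 1) := by
        rw [closure_ball (0:ℂ) one_ne_zero]
        exact hx
      exact mem_closure_iff.1 hcl V hVo hxV
    have h3 : 0 < volume (V ∩ ball (0:ℂ) 1) := (hVo.inter isOpen_ball).measure_pos _ h2
    refine lt_of_lt_of_le h3 ?_
    have h4 : V ∩ ball (0:ℂ) 1 ⊆ U ∩ closedBall (0:ℂ) 1 :=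
      inter_subset_inter hVU ball_subset_closedBall
    exact (measure_mono h4).trans (Measure.le_restrict_apply _ _)

theorem mm_half_sphere : mm (1/2) (sphere (0:ℂ) 1) = 0 := by
  unfold mm
  rw [sub_self, ENNReal.ofReal_zero, zero_smul, add_zero]
  have : volume (sphere (0:ℂ) 1) = 0 := Measure.addHaar_sphere _ _ _
  exact le_antisymm ((Measure.restrict_apply_le _ _).trans this.le) bot_le

theorem mm_one_sphere : mm 1 (sphere (0:ℂ) 1) ≠ 0 := by
  unfold mm
  rw [Measure.add_apply, Measure.smul_apply, map_ee_apply isClosed_sphere.measurableSet]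
  have h2 : ee ⁻¹' (sphere (0:ℂ) 1) = univ := by
    ext θ
    simp [ee_norm]
  rw [h2, Measure.restrict_apply MeasurableSet.univ, univ_inter, Real.volume_Ioc]
  intro h
  have h3 := (add_eq_zero.1 h).2
  rw [smul_eq_mul, mul_eq_zero, ENNReal.ofReal_eq_zero, ENNReal.ofReal_eq_zero] at h3
  have := Real.pi_pos
  rcases h3 with h3 | h3
  · norm_num at h3
  · linarith

theorem not_absolutelyContinuous_mm : ¬ (mm 1 ≪ mm (1/2)) := by
  intro h
  exact mm_one_sphere (h mm_half_sphere)

/-- **Main theorem.** -/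
theorem main :
    IsHyperconvex (ball (0:ℂ) (Real.exp 1)) ∧
    IsCompact (closedBall (0:ℂ) 1) ∧
    closedBall (0:ℂ) 1 ⊆ ball (0:ℂ) (Real.exp 1) ∧
    IsWeight (closedBall (0:ℂ) 1) Q ∧
    ∃ μ ν : Measure ℂ,
      IsMongeAmpere univ (reg univ (VK (closedBall (0:ℂ) 1) Q)) μ ∧
      IsMongeAmpere (ball (0:ℂ) (Real.exp 1))
        (reg (ball (0:ℂ) (Real.exp 1))
          (UK (closedBall (0:ℂ) 1) Q (ball (0:ℂ) (Real.exp 1)))) ν ∧
      μ.support = ν.support ∧ ¬ (μ ≪ ν) := by
  have hsub : closedBall (0:ℂ) 1 ⊆ ball (0:ℂ) (Real.exp 1) := by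
    apply closedBall_subset_ball
    rw [Real.one_lt_exp_iff]
    exact one_pos
  refine ⟨isHyperconvex_ball, isCompact_closedBall _ _, hsub, isWeight_Q, mm 1, mm (1/2), ?_, ?_,
    ?_, not_absolutelyContinuous_mm⟩
  · exact isMongeAmpere_mm 1 (by norm_num) MeasurableSet.univ (subset_univ _) _
      (fun z _ => reg_VK z)
  · exact isMongeAmpere_mm (1/2) le_rfl measurableSet_ball hsub _ (fun z hz => reg_UK hz)
  · rw [support_mm, support_mm]

end Pool.Agent.R212.Psh
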