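import Mathlib

/-!
# Subharmonic functions, weighted extremal functions and their Riesz (Monge-Ampère) measures in `ℂ`
(dimension one pluripotential theory; problem MP_3df006_an)
-/

namespace Pool.Agent.R212.Psh

open MeasureTheory Metric Set Filter Topology

open scoped Laplacian ContDiff

/-- `u : ℂ → [-∞, ∞)` is subharmonic (= plurisubharmonic in dimension one) on the open set `D`:
it is upper semicontinuous on `D`, never `+∞`, and satisfies the sub-mean value inequality on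
every closed disc contained in `D`.  The mean of the upper semicontinuous function `u` over a
circle is the infimum of the means of the continuous functions `φ ≥ u` on the circle.
(The function `u ≡ -∞` is allowed.) -/
def Subharmonic (D : Set ℂ) (u : ℂ → EReal) : Prop :=
  UpperSemicontinuousOn u D ∧ (∀ z ∈ D, u z < ⊤) ∧
    ∀ (a : ℂ) (r : ℝ), 0 < r → closedBall a r ⊆ D →
      ∀ φ : ℂ → ℝ, ContinuousOn φ (sphere a r) → (∀ z ∈ sphere a r, u z ≤ ((φ z : ℝ) : EReal)) →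
        u a ≤ ((Real.circleAverage φ a r : ℝ) : EReal)

/-- `S` is polar (= pluripolar in dimension one): it is contained in the `-∞` set of a function
which is subharmonic on `ℂ` and not identically `-∞`. -/
def IsPolar (S : Set ℂ) : Prop :=
  ∃ u : ℂ → EReal, Subharmonic univ u ∧ (∃ z, u z ≠ ⊥) ∧ ∀ z ∈ S, u z = ⊥

/-- Bounded hyperconvex domain: a bounded connected open set with a continuous negative
subharmonic exhaustion function. -/
def IsHyperconvex (Ω : Set ℂ) : Prop :=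
  IsOpen Ω ∧ IsConnected Ω ∧ Bornology.IsBounded Ω ∧
    ∃ ρ : ℂ → ℝ, ContinuousOn ρ Ω ∧ Subharmonic Ω (fun z => ((ρ z : ℝ) : EReal)) ∧
      (∀ z ∈ Ω, ρ z < 0) ∧ ∀ c < (0 : ℝ), ∃ F, IsCompact F ∧ F ⊆ Ω ∧ {z ∈ Ω | ρ z < c} ⊆ F

/-- The Lelong class `L`: subharmonic functions on `ℂ` with `u ≤ log⁺ |z| + C`. -/
def Lelong (u : ℂ → EReal) : Prop :=
  Subharmonic univ u ∧ ∃ C : ℝ, ∀ z, u z ≤ ((Real.posLog ‖z‖ + C : ℝ) : EReal)

/-- Weights on the compact set `K`: lower semicontinuous, `≤ 0`, and `{Q < 0}` is not polar. -/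
def IsWeight (K : Set ℂ) (Q : ℂ → ℝ) : Prop :=
  LowerSemicontinuousOn Q K ∧ (∀ z ∈ K, Q z ≤ 0) ∧ ¬ IsPolar {z ∈ K | Q z < 0}

/-- The weighted global extremal function `V_{K,Q}`. -/
noncomputable def VK (K : Set ℂ) (Q : ℂ → ℝ) (z : ℂ) : EReal :=
  sSup {t | ∃ u : ℂ → EReal, Lelong u ∧ (∀ w ∈ K, u w ≤ ((Q w : ℝ) : EReal)) ∧ t = u z}

/-- The weighted relative extremal function `U_{K,Q,Ω}`. -/
noncomputable def UK (K : Set ℂ) (Q : ℂ → ℝ) (Ω : Set ℂ) (z : ℂ) : EReal :=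
  sSup {t | ∃ u : ℂ → EReal, Subharmonic Ω u ∧ (∀ w ∈ Ω, u w < 0) ∧
    (∀ w ∈ K, u w ≤ ((Q w : ℝ) : EReal)) ∧ t = u z}

/-- Upper semicontinuous regularization on the set `D`: `v^*(z) = limsup_{w → z, w ∈ D} v(w)`. -/
noncomputable def reg (D : Set ℂ) (v : ℂ → EReal) (z : ℂ) : EReal :=
  limsup v (𝓝[D] z)

/-- `μ = dd^c u` on the open set `D` for a locally bounded subharmonic function `u` (with
`dd^c = 2 i ∂ ∂bar`, so that `dd^c u = Δ u` in dimension one, in the sense of distributions):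
`u` is subharmonic on `D` and locally bounded, `μ` is a positive measure carried by `D`, finite
on the compact subsets of `D`, with `∫ φ dμ = ∫_D u Δφ` for all test functions `φ`. -/
def IsMongeAmpere (D : Set ℂ) (u : ℂ → EReal) (μ : Measure ℂ) : Prop :=
  Subharmonic D u ∧
  (∀ F, IsCompact F → F ⊆ D → ∃ M : ℝ, ∀ z ∈ F, ((-M : ℝ) : EReal) ≤ u z ∧ u z ≤ (M : EReal)) ∧
  μ Dᶜ = 0 ∧ (∀ F, IsCompact F → F ⊆ D → μ F < ⊤) ∧
    ∀ φ : ℂ → ℝ, ContDiff ℝ ∞ φ → HasCompactSupport φ → tsupport φ ⊆ D →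
      ∫ z, φ z ∂μ = ∫ z in D, (u z).toReal * (Δ φ) z

/-- The candidate extremal functions of the example. -/
noncomputable def W (α : ℝ) (z : ℂ) : ℝ :=
  ((min ‖z‖ 1) ^ 2 - 3) / 4 + α * Real.log (max ‖z‖ 1)

/-- The weight of the example: `Q(z) = (|z|² - 3)/4`. -/
noncomputable def Q (z : ℂ) : ℝ := (‖z‖ ^ 2 - 3) / 4

end Pool.Agent.R212.Psh
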